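import Mathlib

set_option autoImplicit false

/-!
Local fields with a symbol, and systems of classes on finite sets of points of the projective line
(definitions for the completeness theorem; see MP_c385f6_allp.md).
-/

namespace Pool.Agent.Lib.MP_c385f6_ag.Cpl

/-- Data and properties of a local field: normalised discrete valuation (`v 0 = 0` by convention),
uniformizer, residue map, the number `e = p v(p) / (p - 1)`, the norm residue symbol `h` on
non-zero elements, and the unramified class `ω`. -/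
structure LF (p : ℕ) (L F : Type*) [Field L] [Field F] where
  /-- the valuation -/
  v : L → ℤ
  /-- the uniformizer -/
  π : L
  /-- the residue map -/
  res : L → F
  /-- the last level -/
  e : ℕ
  /-- the symbol -/
  h : L → L → ZMod p
  /-- the unramified class -/
  ω : L
  v_zero : v 0 = 0
  v_mul : ∀ x y, x ≠ 0 → y ≠ 0 → v (x * y) = v x + v y
  v_add : ∀ x y, x ≠ 0 → y ≠ 0 → x + y ≠ 0 → min (v x) (v y) ≤ v (x + y)
  pi_ne : π ≠ 0
  v_pi : v π = 1
  res_add : ∀ x y, 0 ≤ v x → 0 ≤ v y → res (x + y) = res x + res y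
  res_mul : ∀ x y, 0 ≤ v x → 0 ≤ v y → res (x * y) = res x * res y
  res_one : res 1 = 1
  res_surj : ∀ a, ∃ x, 0 ≤ v x ∧ res x = a
  res_zero : ∀ x, 0 ≤ v x → (res x = 0 ↔ x = 0 ∨ 1 ≤ v x)
  finF : Finite F
  e_dvd : p ∣ e
  two_le : 2 ≤ e
  h_mul_left : ∀ x y z, x ≠ 0 → y ≠ 0 → z ≠ 0 → h (x * y) z = h x z + h y z
  h_mul_right : ∀ x y z, x ≠ 0 → y ≠ 0 → z ≠ 0 → h x (y * z) = h x y + h x z
  steinberg : ∀ x y, x ≠ 0 → y ≠ 0 → x + y = 1 → h x y = 0
  ndg : ∀ x, x ≠ 0 → (∀ y, y ≠ 0 → h x y = 0) → ∃ y, x = y ^ p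
  om_ne : ω ≠ 0
  h_omega : ∀ x, x ≠ 0 → h ω x = (v x : ZMod p)
  pow_unit : ∀ u, u ≠ 0 → (e : ℤ) + 1 ≤ v (u - 1) → ∃ y, u = y ^ p
  jump : ∀ u, u ≠ 0 → 1 ≤ v (u - 1) → v (u - 1) < e → ¬ (p : ℤ) ∣ v (u - 1) → ¬ ∃ y, u = y ^ p
  top : ∃ u, u ≠ 0 ∧ v (u - 1) = e ∧ ¬ ∃ y, u = y ^ p
  fin : ∃ s : Finset L, ∀ x, x ≠ 0 → ∃ y ∈ s, ∃ z, z ≠ 0 ∧ x = y * z ^ p

/-- the same class modulo `p`-th powers -/
def Eqv {L : Type*} [Field L] (p : ℕ) (x y : L) : Prop := ∃ z, z ≠ 0 ∧ x = y * z ^ p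

namespace LF

variable {p : ℕ} {L F : Type*} [Field L] [Field F] (S : LF p L F)

/-- `x` is in the ball of level `n` around zero -/
def Gz (n : ℤ) (x : L) : Prop := x = 0 ∨ n ≤ S.v x

/-- principal units of level `n` -/
def Un (n : ℤ) (u : L) : Prop := u ≠ 0 ∧ (u = 1 ∨ n ≤ S.v (u - 1))

/-- the chordal distance on the projective line -/
def dl (x y : L) : ℤ := S.v (x - y) - min 0 (S.v x) - min 0 (S.v y)

/-- the same class in the projective line modulo `π ^ n` -/
def Cl (n : ℤ) (x y : L) : Prop := x = y ∨ n ≤ S.dl x y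

/-- every class of the projective line modulo `π ^ m` meets `T` -/
def Net (T : Set L) (m : ℤ) : Prop := ∀ x, ∃ t ∈ T, S.Cl m x t

/-- compatible systems of classes on pairs -/
structure Cmp (T : Set L) (D : L → L → L) : Prop where
  ne : ∀ s ∈ T, ∀ t ∈ T, D s t ≠ 0
  coc : ∀ s ∈ T, ∀ t ∈ T, ∀ u ∈ T, Eqv p (D s t * D t u) (D s u)
  rel : ∀ s ∈ T, ∀ t ∈ T, ∀ u ∈ T, s ≠ t → t ≠ u → s ≠ u →
    S.h (D s u * ((t - u) / (t - s))) (D t u * ((s - u) / (s - t))) = 0

/-- the system is given by `y` at the points of `T` which are not close to `y` -/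
def Pr (T : Set L) (D : L → L → L) (n : ℤ) (y : L) : Prop :=
  ∀ s ∈ T, ∀ t ∈ T, ¬ S.Cl n y s → ¬ S.Cl n y t → Eqv p (D s t) ((y - s) / (y - t))

/-- the minimum of `n` and the valuation -/
noncomputable def vm (n : ℤ) (x : L) : ℤ := by
  classical
  exact if S.Gz n x then n else S.v x

/-- the distance of the ball of level `n` around `x` from the ball of integers in the tree -/
noncomputable def dd (x : L) (n : ℤ) : ℤ := n - 2 * min (S.vm n x) 0

/-- every ball at distance at most `m` meets `T` -/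
def Rich (T : Set L) (m : ℤ) : Prop := ∀ x n, S.dd x n ≤ m → ∃ t ∈ T, S.Gz n (t - x)

/-- compatible systems in an affine frame -/
structure ACmp (T : Set L) (D : L → L) : Prop where
  ne : ∀ t ∈ T, D t ≠ 0
  rel : ∀ s ∈ T, ∀ t ∈ T, s ≠ t → S.h (D s / (t - s)) (D t / (s - t)) = 0

/-- the affine system is given by `y` outside the ball of level `j` around `y` -/
def AP (T : Set L) (D : L → L) (y : L) (j : ℤ) : Prop :=
  ∀ t ∈ T, ¬ S.Gz j (y - t) → Eqv p (D t) (y - t)

/-- `T` meets the balls branching off above the ball of level `j` around `y` -/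
def OutR (T : Set L) (y : L) (j : ℤ) : Prop :=
  ∀ i : ℤ, 1 ≤ i → i ≤ S.e → ∀ x, x ≠ y → S.v (y - x) = j - i → ∃ t ∈ T, S.Gz (j - i + 1) (t - x)

/-- the set of the images of the points of `T` when `c` is moved to infinity -/
def frT (T : Set L) (c : L) : Set L := {x | x ≠ 0 ∧ c + x⁻¹ ∈ T}

/-- the system in the frame at `c` -/
def frD (D : L → L → L) (c : L) (x : L) : L := -(D (c + x⁻¹) c * x)

end LF

end Pool.Agent.Lib.MP_c385f6_ag.Cpl
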