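import Mathlib
import Pool.Agent.Lib.MP_c385f6_ag.Cpl.Defs

set_option autoImplicit false

/-!
Statements of the modules of the completeness theorem (local fields).
-/

namespace Pool.Agent.Lib.MP_c385f6_ag.Cpl

open Polynomial Module

/-- valuation data of a local field -/
structure VD (p : ℕ) (L F : Type*) [NormedField L] [Field F] where
  /-- the valuation -/
  v : L → ℤ
  /-- the uniformizer -/
  π : L
  /-- the residue map -/
  res : L → F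
  /-- the base of the norm -/
  c : ℝ
  one_lt : 1 < c
  v_zero : v 0 = 0
  norm_eq : ∀ x, x ≠ 0 → ‖x‖ = c ^ (-(v x))
  pi_ne : π ≠ 0
  v_pi : v π = 1
  res_add : ∀ x y, 0 ≤ v x → 0 ≤ v y → res (x + y) = res x + res y
  res_mul : ∀ x y, 0 ≤ v x → 0 ≤ v y → res (x * y) = res x * res y
  res_one : res 1 = 1
  res_surj : ∀ a, ∃ x, 0 ≤ v x ∧ res x = a
  res_zero : ∀ x, 0 ≤ v x → (res x = 0 ↔ x = 0 ∨ 1 ≤ v x)
  finF : Finite F
  charF : CharP F p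

/-- `y` is a norm from the algebra `L[X] / (X ^ p - x)` -/
def NR {L : Type*} [Field L] (p : ℕ) (x y : L) : Prop :=
  ∃ u : AdjoinRoot (X ^ p - C x : L[X]), Algebra.norm L u = y

/-- (V) valuation data exist -/
def StVal : Prop :=
  ∀ (p : ℕ) (_ : Fact p.Prime) (L : Type) (_ : NormedField L) (_ : NormedAlgebra ℚ_[p] L)
    (_ : FiniteDimensional ℚ_[p] L) (_ : IsUltrametricDist L),
    ∃ (F : Type) (_ : Field F), Nonempty (VD p L F)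

/-- (H) `p`-th powers of principal units -/
def StHens : Prop :=
  ∀ (p : ℕ) (_ : Fact p.Prime) (L F : Type) (_ : NormedField L) (_ : Field F)
    (_ : NormedAlgebra ℚ_[p] L) (_ : FiniteDimensional ℚ_[p] L) (_ : IsUltrametricDist L)
    (V : VD p L F) (ζ : L), IsPrimitiveRoot ζ p →
    ((p : ℤ) - 1) * V.v (1 - ζ) = V.v (p : L) ∧ 1 ≤ V.v (1 - ζ) ∧
    (∀ u, u ≠ 0 → p * V.v (1 - ζ) + 1 ≤ V.v (u - 1) → ∃ y, u = y ^ p) ∧
    (∀ u, u ≠ 0 → 1 ≤ V.v (u - 1) → V.v (u - 1) < p * V.v (1 - ζ) → ¬ (p : ℤ) ∣ V.v (u - 1) →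
      ¬ ∃ y, u = y ^ p) ∧
    (∀ x, 0 ≤ V.v x → ((∃ z, 1 + x * (1 - ζ) ^ p = z ^ p) ↔ ∃ b : F, V.res x = b ^ p - b)) ∧
    ∃ a : F, ∀ b : F, a ≠ b ^ p - b

/-- (N) the norm relation -/
def StNR : Prop :=
  ∀ (p : ℕ) (_ : Fact p.Prime) (L : Type) (_ : Field L) (_ : Algebra ℚ_[p] L)
    (_ : FiniteDimensional ℚ_[p] L) (ζ : L), IsPrimitiveRoot ζ p →
    (∀ x y z : L, x ≠ 0 → NR p x y → NR p x z → NR p x (y * z)) ∧
    (∀ x y : L, x ≠ 0 → NR p x (y ^ p)) ∧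
    (∀ x y : L, x ≠ 0 → NR p (x ^ p) y) ∧
    (∀ x y z : L, x ≠ 0 → z ≠ 0 → NR p x y → NR p (x * z ^ p) y) ∧
    (∀ x y : L, x ≠ 0 → y ≠ 0 → NR p x y → NR p y x) ∧
    (∀ x : L, x ≠ 0 → x ≠ 1 → NR p x (1 - x)) ∧
    (∀ x y z : L, x ≠ 0 → y ≠ 0 → z ≠ 0 → ¬ NR p x y → ∃ n : ℕ, NR p x (z * y ^ n)) ∧
    (∀ x : L, x ≠ 0 → (∀ y, y ≠ 0 → NR p x y) → ∃ z, x = z ^ p)

/-- (L) a relation which is linear in both variables is the orthogonality of a bilinear form -/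
def StLin : Prop :=
  ∀ (p : ℕ) (_ : Fact p.Prime) (V : Type) (_ : AddCommGroup V) (_ : Module (ZMod p) V)
    (_ : FiniteDimensional (ZMod p) V) (r : V → V → Prop), 3 ≤ finrank (ZMod p) V →
    (∀ x, r x 0) → (∀ x y z, r x y → r x z → r x (y + z)) → (∀ x y, r x y → r y x) →
    (∀ x y z, ¬ r x y → ∃ n : ℕ, r x (z + n • y)) → (∀ x, (∀ y, r x y) → x = 0) →
    ∃ B : V →ₗ[ZMod p] V →ₗ[ZMod p] ZMod p, ∀ x y, B x y = 0 ↔ r x y

/-- (F) the field data exist, with the norm relation, and the automorphisms act on `ω` by the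
cyclotomic character -/
def StLF : Prop :=
  ∀ (p : ℕ) (_ : Fact p.Prime) (L : Type) (_ : Field L) (_ : Algebra ℚ_[p] L)
    (_ : FiniteDimensional ℚ_[p] L) (ζ : L), IsPrimitiveRoot ζ p →
    ∃ (F : Type) (_ : Field F) (S : LF p L F), CharP F p ∧
      (∀ x y, x ≠ 0 → y ≠ 0 → (S.h x y = 0 ↔ NR p x y)) ∧
      (∀ (σ : L ≃ₐ[ℚ_[p]] L) (x : L), S.v (σ x) = S.v x) ∧
      (∀ (σ : L ≃ₐ[ℚ_[p]] L) (a : ℕ), σ ζ = ζ ^ a → Eqv p (σ S.ω) (S.ω ^ a)) ∧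
      0 < S.v (p : L)

/-- (R) the residue lemma -/
def StAlpha : Prop :=
  ∀ (p : ℕ) (_ : Fact p.Prime), ∃ d : ℕ, 0 < d ∧ d.Coprime p ∧
    ∀ (F E : Type) (_ : Field F) (_ : Field E) (_ : Algebra F E) (_ : Finite E), CharP F p →
      finrank F E = d →
      ∃ α : E, ∀ y : F, Algebra.trace F E (algebraMap F E y - α)⁻¹ ≠ 0

end Pool.Agent.Lib.MP_c385f6_ag.Cpl
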