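import Mathlib
import Pool.Agent.Lib.MP_c385f6_ag.Cpl.StLoc

set_option autoImplicit false

/-!
Statements of the modules of the completeness theorem (existence of the sets of points).
-/

namespace Pool.Agent.Lib.MP_c385f6_ag.Cpl

open Polynomial Module

/-- The data of an extension `L / k`: `ζ` is a primitive `p`-th root of unity, `ϖ` a uniformizer of
`k`, and the residue class of `a` is not in the residue field of `k`. -/
structure Ext (p : ℕ) (k L F : Type*) [Field k] [Field L] [Field F] [Algebra k L]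
    (S : LF p L F) (ζ a : L) (ϖ : k) : Prop where
  prim : IsPrimitiveRoot ζ p
  inv : ∀ (g : L ≃ₐ[k] L) (x : L), S.v (g x) = S.v x
  cyc : ∀ (g : L ≃ₐ[k] L) (n : ℕ), g ζ = ζ ^ n → Eqv p (g S.ω) (S.ω ^ n)
  deg : ¬ p ∣ finrank k L
  charF : CharP F p
  vp : 0 < S.v (p : L)
  pi_ne : ϖ ≠ 0
  pi_pos : 1 ≤ S.v (algebraMap k L ϖ)
  pi_dvd : ∀ x : k, x ≠ 0 → S.v (algebraMap k L ϖ) ∣ S.v (algebraMap k L x)
  a_int : 0 ≤ S.v a
  a_res : ∀ y : k, 0 ≤ S.v (algebraMap k L y) → S.res (algebraMap k L y) ≠ S.res a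

/-- the two kinds of residue classes -/
def Ext.Kind {p : ℕ} {k L F : Type*} [Field k] [Field L] [Field F] [Algebra k L]
    [FiniteDimensional k L] (S : LF p L F) (ζ a : L) (ϖ : k) : Prop :=
  (∃ g : L ≃ₐ[k] L, g a = a ∧ g ζ ≠ ζ) ∨
  (S.v (algebraMap k L ϖ) = 1 ∧ (∀ g : L ≃ₐ[k] L, g ζ = ζ) ∧
    ∀ y : k, 0 ≤ S.v (algebraMap k L y) →
      S.res (algebraMap k L (Algebra.trace k L (algebraMap k L y - a)⁻¹)) ≠ 0)

/-- (U) unramified extensions -/
def StUr : Prop :=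
  ∀ (p : ℕ) (_ : Fact p.Prime) (k Fk : Type) (_ : NormedField k) (_ : Field Fk)
    (_ : NormedAlgebra ℚ_[p] k) (_ : FiniteDimensional ℚ_[p] k) (_ : IsUltrametricDist k)
    (_ : VD p k Fk) (d : ℕ), 0 < d →
    ∃ (M : Type) (_ : Field M) (_ : Algebra k M) (_ : FiniteDimensional k M) (_ : IsGalois k M)
      (ξ : M), finrank k M = d ∧ IsPrimitiveRoot ξ (Nat.card Fk ^ d - 1) ∧
      IntermediateField.adjoin k {ξ} = ⊤ ∧
      ∀ x : M, x ≠ 0 → ∃ y : k, y ≠ 0 ∧ spectralNorm k M x = ‖y‖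

/-- (E) existence of the extension -/
def StExt : Prop :=
  ∀ (p : ℕ) (_ : Fact p.Prime) (k : Type) (_ : Field k) (_ : Algebra ℚ_[p] k)
    (_ : FiniteDimensional ℚ_[p] k),
    ∃ (L : Type) (_ : Field L) (_ : Algebra k L) (_ : FiniteDimensional k L) (_ : IsGalois k L)
      (F : Type) (_ : Field F) (S : LF p L F) (ζ a : L) (ϖ : k),
      Ext p k L F S ζ a ϖ ∧ Ext.Kind S ζ a ϖ ∧
      ∀ x y, x ≠ 0 → y ≠ 0 → (S.h x y = 0 ↔ NR p x y)

/-- (T3) integral version: moving `y` corrects the last error -/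
def StT3 : Prop :=
  ∀ (p : ℕ) (_ : Fact p.Prime) (k L F : Type) (_ : Field k) (_ : Field L) (_ : Field F)
    (_ : Algebra k L) (_ : FiniteDimensional k L) (_ : IsGalois k L) (S : LF p L F) (ζ a : L)
    (ϖ : k), Ext p k L F S ζ a ϖ → Ext.Kind S ζ a ϖ →
    ∀ (c y : k) (n : ℕ), 1 ≤ n → 0 ≤ S.v (algebraMap k L c) → 0 ≤ S.v (algebraMap k L y) →
    S.Gz (n * S.v (algebraMap k L ϖ)) (algebraMap k L (y - c)) →
    ∀ E : L, E ≠ 0 → (∀ u, S.Un 1 u → S.h E u = 0) →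
    (∀ g : L ≃ₐ[k] L, g a = a → Eqv p (g E) E) →
    ∃ y' : k, y' ≠ 0 ∧ 0 ≤ S.v (algebraMap k L y') ∧
      S.Gz (n * S.v (algebraMap k L ϖ) + S.e) (algebraMap k L (y' - y)) ∧
      Eqv p E ((algebraMap k L y' - algebraMap k L c - algebraMap k L ϖ ^ n * a) /
        (algebraMap k L y - algebraMap k L c - algebraMap k L ϖ ^ n * a))

/-- (T) existence of the sets of points, with all the hypotheses of the completeness theorem; they
may contain any given finite set of points which are not in `k` -/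
def StTex : Prop :=
  ∀ (p : ℕ) (_ : Fact p.Prime) (k L F : Type) (_ : Field k) (_ : Field L) (_ : Field F)
    (_ : Algebra k L) (_ : FiniteDimensional k L) (_ : IsGalois k L) (S : LF p L F) (ζ a : L)
    (ϖ : k), Ext p k L F S ζ a ϖ → Ext.Kind S ζ a ϖ →
    ∀ (m0 : ℤ) (A : Set L), A.Finite → (∀ x ∈ A, ∀ y : k, algebraMap k L y ≠ x) →
    ∃ (T : Set L) (m : ℤ), m0 ≤ m ∧ A ⊆ T ∧ T.Finite ∧ S.Net T m ∧
    (∀ (g : L ≃ₐ[k] L), ∀ t ∈ T, g t ∈ T) ∧
    (∀ y : k, ∀ t ∈ T, algebraMap k L y ≠ t ∧ S.dl (algebraMap k L y) t ≤ m) ∧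
    (∀ y : k, ∀ t ∈ T, ∀ t' ∈ T, S.dl (algebraMap k L y) t = m →
      S.dl (algebraMap k L y) t' = m → ∃ g : L ≃ₐ[k] L, g t = t') ∧
    (∀ y : k, ∀ t ∈ T, S.dl (algebraMap k L y) t = m → ∀ E : L, E ≠ 0 →
      (∀ u, S.Un 1 u → S.h E u = 0) → (∀ g : L ≃ₐ[k] L, g t = t → Eqv p (g E) E) →
      ∃ y' : k, S.Cl (m + S.e) (algebraMap k L y) (algebraMap k L y') ∧
        ∀ r ∈ T, S.dl (algebraMap k L y) r = 0 →
          Eqv p E ((algebraMap k L y' - t) * (algebraMap k L y - r) /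
            ((algebraMap k L y - t) * (algebraMap k L y' - r))))

end Pool.Agent.Lib.MP_c385f6_ag.Cpl
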