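import Mathlib
import Pool.Agent.Lib.MP_c385f6_ag.Cpl.StLoc

set_option autoImplicit false

/-!
The norm relation and finite extensions: if `g` is a norm from `F[X] / (X ^ p - x)`, `x ∈ L`, then
the norm of `g` is a norm from `L[X] / (X ^ p - x)`.
-/

namespace Pool.Agent.Lib.MP_c385f6_ag.Cpl

open Polynomial Module TensorProduct

namespace NrAux

variable {L F : Type*} [Field L] [Field F] [Algebra L F] (f : L[X])

theorem eval_one : eval₂ (Algebra.ofId F (F ⊗[L] AdjoinRoot f) : F →+* F ⊗[L] AdjoinRoot f)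
    (1 ⊗ₜ AdjoinRoot.root f) (f.map (algebraMap L F)) = 0 := by
  rw [eval₂_map]
  have h1 : ((Algebra.ofId F (F ⊗[L] AdjoinRoot f) : F →+* F ⊗[L] AdjoinRoot f).comp
      (algebraMap L F)) = ((Algebra.TensorProduct.includeRight :
        AdjoinRoot f →ₐ[L] F ⊗[L] AdjoinRoot f) : AdjoinRoot f →+* F ⊗[L] AdjoinRoot f).comp
          (AdjoinRoot.of f) := by
    ext x
    have h2 : (AdjoinRoot.of f) x = algebraMap L (AdjoinRoot f) x := rfl
    simp only [RingHom.comp_apply, h2]
    show algebraMap L F x ⊗ₜ[L] (1 : AdjoinRoot f) = (1 : F) ⊗ₜ[L] algebraMap L _ x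
    rw [Algebra.algebraMap_eq_smul_one, Algebra.algebraMap_eq_smul_one,
      TensorProduct.smul_tmul]
  have h3 : (1 : F) ⊗ₜ[L] AdjoinRoot.root f = (Algebra.TensorProduct.includeRight :
        AdjoinRoot f →ₐ[L] F ⊗[L] AdjoinRoot f) (AdjoinRoot.root f) := rfl
  rw [h3, h1]
  have h4 := hom_eval₂ f (AdjoinRoot.of f) ((Algebra.TensorProduct.includeRight :
        AdjoinRoot f →ₐ[L] F ⊗[L] AdjoinRoot f) : AdjoinRoot f →+* F ⊗[L] AdjoinRoot f)
        (AdjoinRoot.root f)
  rw [AdjoinRoot.eval₂_root, map_zero] at h4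
  exact h4.symm

theorem eval_two : eval₂ (Algebra.ofId L (AdjoinRoot (f.map (algebraMap L F))) :
    L →+* AdjoinRoot (f.map (algebraMap L F))) (AdjoinRoot.root (f.map (algebraMap L F))) f
      = 0 := by
  have h1 := AdjoinRoot.eval₂_root (f.map (algebraMap L F))
  rw [eval₂_map] at h1
  exact h1

/-- one direction -/
noncomputable def toT : AdjoinRoot (f.map (algebraMap L F)) →ₐ[F] F ⊗[L] AdjoinRoot f :=
  AdjoinRoot.liftAlgHom _ (Algebra.ofId F _) (1 ⊗ₜ AdjoinRoot.root f) (eval_one f)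

/-- the other direction, on one factor -/
noncomputable def ofA : AdjoinRoot f →ₐ[L] AdjoinRoot (f.map (algebraMap L F)) :=
  AdjoinRoot.liftAlgHom _ (Algebra.ofId L _) (AdjoinRoot.root _) (eval_two f)

theorem toT_root : toT (F := F) f (AdjoinRoot.root _) = 1 ⊗ₜ AdjoinRoot.root f :=
  AdjoinRoot.lift_root (eval_one f)

theorem ofA_root : ofA (F := F) f (AdjoinRoot.root _) = AdjoinRoot.root _ :=
  AdjoinRoot.lift_root (eval_two f)

/-- the other direction -/
noncomputable def ofT : F ⊗[L] AdjoinRoot f →ₐ[F] AdjoinRoot (f.map (algebraMap L F)) :=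
  Algebra.TensorProduct.lift (Algebra.ofId F _) (ofA f) fun _ _ => .all ..

theorem ofT_one (x : AdjoinRoot f) : ofT (F := F) f (1 ⊗ₜ x) = ofA f x := by
  rw [ofT, Algebra.TensorProduct.lift_tmul, map_one, one_mul]


theorem to_of (z : F ⊗[L] AdjoinRoot f) : toT f (ofT f z) = z := by
  have h1 : ((toT (F := F) f).restrictScalars L).comp (ofA f) =
      (Algebra.TensorProduct.includeRight : AdjoinRoot f →ₐ[L] F ⊗[L] AdjoinRoot f) := by
    apply AdjoinRoot.algHom_ext
    rw [AlgHom.comp_apply, ofA_root, AlgHom.restrictScalars_apply, toT_root]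
    rfl
  induction z with
  | zero => rw [map_zero, map_zero]
  | add x y hx hy => rw [map_add, map_add, hx, hy]
  | tmul x y =>
    have h2 : x ⊗ₜ[L] y = x • ((1 : F) ⊗ₜ[L] y) := by
      rw [TensorProduct.smul_tmul', smul_eq_mul, mul_one]
    have h3 := congrArg (fun φ : AdjoinRoot f →ₐ[L] F ⊗[L] AdjoinRoot f => φ y) h1
    rw [h2, map_smul, map_smul, ofT_one]
    exact congrArg (x • ·) h3

theorem of_to (z : AdjoinRoot (f.map (algebraMap L F))) : ofT f (toT f z) = z := by
  have h1 : (ofT (F := F) f).comp (toT f) = AlgHom.id F _ := by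
    apply AdjoinRoot.algHom_ext
    rw [AlgHom.comp_apply, toT_root, ofT_one, ofA_root]
    rfl
  exact congrArg (fun φ : AdjoinRoot (f.map (algebraMap L F)) →ₐ[F] _ => φ z) h1

end NrAux

/-- adjoining a root and base change -/
noncomputable def adjTensor {L F : Type*} [Field L] [Field F] [Algebra L F] (f : L[X]) :
    AdjoinRoot (f.map (algebraMap L F)) ≃ₐ[F] F ⊗[L] AdjoinRoot f :=
  { NrAux.toT f with
    invFun := NrAux.ofT f
    left_inv := NrAux.of_to f
    right_inv := NrAux.to_of f }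

/-- norms and finite extensions -/
theorem nr_trans {p : ℕ} {L F : Type*} [Field L] [Field F] [Algebra L F] {x : L} {g : F}
    (h : NR p (algebraMap L F x) g) : NR p x (Algebra.norm L g) := by
  obtain ⟨u, hu⟩ := h
  set f : L[X] := X ^ p - C x with hf
  have hm : X ^ p - C (algebraMap L F x) = f.map (algebraMap L F) := by
    rw [hf]
    simp
  let e1 : AdjoinRoot (X ^ p - C (algebraMap L F x)) ≃ₐ[F] F ⊗[L] AdjoinRoot f :=
    (AdjoinRoot.algEquivOfEq F _ _ hm).trans (adjTensor f)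
  let e2 : (F ⊗[L] AdjoinRoot f) ≃ₐ[L] AdjoinRoot f ⊗[L] F := Algebra.TensorProduct.comm L F _
  have h1 : Algebra.norm F (e1 u) = g := by
    rw [← hu]
    exact Algebra.norm_eq_of_algEquiv e1 u
  refine ⟨Algebra.norm (AdjoinRoot f) (e2 (e1 u)), ?_⟩
  rw [Algebra.norm_norm, ← h1, Algebra.norm_norm, Algebra.norm_eq_of_algEquiv e2]

end Pool.Agent.Lib.MP_c385f6_ag.Cpl
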