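import Mathlib
import Pool.Agent.Lib.MP_c385f6_ag.Cpl.StEx

set_option autoImplicit false

/-!
Statements of the modules for additional branch points (second version of the completeness
theorem).
-/

namespace Pool.Agent.Lib.MP_c385f6_ag.Cpl

open Polynomial Module

/-- (W1) the valuations of a field and of an extension are proportional -/
def StVn : Prop :=
  ∀ (p : ℕ) (_ : Fact p.Prime) (L F E E' : Type) (_ : Field L) (_ : Field F) (_ : Field E)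
    (_ : Field E') (_ : Algebra ℚ_[p] L) (_ : FiniteDimensional ℚ_[p] L) (_ : Algebra ℚ_[p] F)
    (_ : FiniteDimensional ℚ_[p] F) (_ : Algebra L F) (_ : IsScalarTower ℚ_[p] L F)
    (S : LF p L E) (S' : LF p F E'), 0 < S.v (p : L) → 0 < S'.v (p : F) →
    ∃ r : ℕ, 1 ≤ r ∧ ∀ x : L, S'.v (algebraMap L F x) = r * S.v x

/-- (W2) the last level and the valuations of `p` and of `1 - ζ` -/
def StE0 : Prop :=
  ∀ (p : ℕ) (_ : Fact p.Prime) (L F : Type) (_ : Field L) (_ : Field F) (S : LF p L F) (ζ : L),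
    IsPrimitiveRoot ζ p → 0 < S.v (p : L) →
    (S.e : ℤ) = p * S.v (1 - ζ) ∧ S.v (p : L) = (p - 1) * S.v (1 - ζ)

/-- (W3) the distances of the points of `k` from a point which is not in `k` are bounded -/
def StBdd : Prop :=
  ∀ (p : ℕ) (_ : Fact p.Prime) (k F E : Type) (_ : Field k) (_ : Field F) (_ : Field E)
    (_ : Algebra ℚ_[p] k) (_ : FiniteDimensional ℚ_[p] k) (_ : Algebra ℚ_[p] F)
    (_ : FiniteDimensional ℚ_[p] F) (_ : Algebra k F) (_ : IsScalarTower ℚ_[p] k F)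
    (S : LF p F E), 0 < S.v (p : F) → ∀ τ : F, (∀ y : k, algebraMap k F y ≠ τ) →
    ∃ b : ℤ, ∀ y : k, S.dl (algebraMap k F y) τ ≤ b

/-- (W4) the cross ratios with two points of a net generate the multiplicative group -/
def StGen : Prop :=
  ∀ (p : ℕ) (_ : Fact p.Prime) (L F E E' : Type) (_ : Field L) (_ : Field F) (_ : Field E)
    (_ : Field E') (_ : Algebra L F) (S : LF p L E) (S' : LF p F E') (r : ℕ), 1 ≤ r →
    (∀ x : L, S'.v (algebraMap L F x) = r * S.v x) → S'.e ≤ r * S.e →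
    ∀ (T : Set L) (m : ℤ), S.Net T m → ∀ (y : L) (τ : F), algebraMap L F y ≠ τ →
    S'.dl (algebraMap L F y) τ ≤ r * (m - 2 * S.e - 3) →
    ∀ x : L, x ≠ 0 → 0 ≤ S.v x → S.v x ≤ 1 →
    ∃ t ∈ T, ∃ u ∈ T, y ≠ t ∧ y ≠ u ∧ algebraMap L F t ≠ τ ∧ algebraMap L F u ≠ τ ∧
      ∃ z : F, z ≠ 0 ∧
        algebraMap L F ((y - t) / (y - u)) * ((τ - algebraMap L F u) / (τ - algebraMap L F t)) =
          algebraMap L F x * z ^ p

/-- (W5) duality of the unit groups -/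
def StDl : Prop :=
  ∀ (p : ℕ) (_ : Fact p.Prime) (L F : Type) (_ : Field L) (_ : Field F) (S : LF p L F) (ζ : L),
    IsPrimitiveRoot ζ p → 0 < S.v (p : L) → ∀ i : ℤ, 1 ≤ i → i ≤ S.e → ∀ E : L, E ≠ 0 →
    (∀ u, S.Un i u → S.h E u = 0) → ∃ E' : L, S.Un (S.e + 1 - i) E' ∧ Eqv p E E'

/-- (W6) classes which are invariant under the Galois group come from the base field -/
def StInv : Prop :=
  ∀ (p : ℕ) (_ : Fact p.Prime) (k L F : Type) (_ : Field k) (_ : Field L) (_ : Field F)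
    (_ : Algebra k L) (_ : FiniteDimensional k L) (_ : IsGalois k L) (S : LF p L F),
    (∀ (g : L ≃ₐ[k] L) (x : L), S.v (g x) = S.v x) → ¬ p ∣ finrank k L →
    ∀ E : L, E ≠ 0 → (∀ g : L ≃ₐ[k] L, Eqv p (g E) E) →
    (∀ n : ℤ, 1 ≤ n → S.Un n E →
      ∃ c : k, c ≠ 0 ∧ S.Un n (algebraMap k L c) ∧ Eqv p E (algebraMap k L c)) ∧
    (∀ n : ℤ, (∃ z : k, z ≠ 0 ∧ 1 ≤ S.v (algebraMap k L z)) →
      ∃ c : k, c ≠ 0 ∧ n ≤ S.v (algebraMap k L c) ∧ Eqv p E (algebraMap k L c))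

/-- (W7) a rational branch point far out: correction of `y` (no `p`-th roots of unity in `k`) -/
def StRat : Prop :=
  ∀ (p : ℕ) (_ : Fact p.Prime) (k L F : Type) (_ : Field k) (_ : Field L) (_ : Field F)
    (_ : Algebra k L) (_ : FiniteDimensional k L) (_ : IsGalois k L) (S : LF p L F) (ζ a : L)
    (ϖ : k), Ext p k L F S ζ a ϖ → (∃ g : L ≃ₐ[k] L, g a = a ∧ g ζ ≠ ζ) →
    ∀ (T : Set L) (m : ℤ), 3 * S.e + 4 ≤ m → S.Net T m →
    (∀ g : L ≃ₐ[k] L, ∀ t ∈ T, g t ∈ T) →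
    (∀ y : k, ∀ t ∈ T, algebraMap k L y ≠ t ∧ S.dl (algebraMap k L y) t ≤ m) →
    (∀ y : k, ∀ t ∈ T, S.dl (algebraMap k L y) t = m → ∃ g : L ≃ₐ[k] L, g t = t ∧ g ζ ≠ ζ) →
    ∀ (τ y : k) (D : L → L → L), S.Cmp (insert (algebraMap k L τ) T) D →
    (∀ g : L ≃ₐ[k] L, ∀ s ∈ insert (algebraMap k L τ) T, ∀ t ∈ insert (algebraMap k L τ) T,
      Eqv p (D (g s) (g t)) (g (D s t))) →
    (∀ s ∈ T, ∀ t ∈ T, Eqv p (D s t) ((algebraMap k L y - s) / (algebraMap k L y - t))) →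
    S.Cl (m - 2 * S.e - 2) (algebraMap k L y) (algebraMap k L τ) →
    ∃ y' : k, y' ≠ τ ∧ S.Cl (m - 2 * S.e - 2) (algebraMap k L y') (algebraMap k L τ) ∧
      ∀ s ∈ insert (algebraMap k L τ) T, ∀ t ∈ insert (algebraMap k L τ) T,
        Eqv p (D s t) ((algebraMap k L y' - s) / (algebraMap k L y' - t))

/-- (W8) several rational branch points (no `p`-th roots of unity in `k`) -/
def StRatAll : Prop :=
  ∀ (p : ℕ) (_ : Fact p.Prime) (k L F : Type) (_ : Field k) (_ : Field L) (_ : Field F)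
    (_ : Algebra k L) (_ : FiniteDimensional k L) (_ : IsGalois k L) (S : LF p L F) (ζ a : L)
    (ϖ : k), Ext p k L F S ζ a ϖ → (∃ g : L ≃ₐ[k] L, g a = a ∧ g ζ ≠ ζ) →
    ∀ R : Set k, R.Finite → ∃ m1 : ℤ, ∀ (T : Set L) (m : ℤ), m1 ≤ m → S.Net T m →
    (∀ g : L ≃ₐ[k] L, ∀ t ∈ T, g t ∈ T) →
    (∀ y : k, ∀ t ∈ T, algebraMap k L y ≠ t ∧ S.dl (algebraMap k L y) t ≤ m) →
    (∀ y : k, ∀ t ∈ T, S.dl (algebraMap k L y) t = m → ∃ g : L ≃ₐ[k] L, g t = t ∧ g ζ ≠ ζ) →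
    ∀ (R' : Set k), R' ⊆ R → ∀ D : L → L → L, S.Cmp (T ∪ algebraMap k L '' R') D →
    (∀ g : L ≃ₐ[k] L, ∀ s ∈ T ∪ algebraMap k L '' R', ∀ t ∈ T ∪ algebraMap k L '' R',
      Eqv p (D (g s) (g t)) (g (D s t))) →
    (∃ y : k, ∀ s ∈ T, ∀ t ∈ T,
      Eqv p (D s t) ((algebraMap k L y - s) / (algebraMap k L y - t))) →
    ∃ y : k, y ∉ R' ∧ ∀ s ∈ T ∪ algebraMap k L '' R', ∀ t ∈ T ∪ algebraMap k L '' R',
      Eqv p (D s t) ((algebraMap k L y - s) / (algebraMap k L y - t))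

/-- (W9) existence of the sets of points, with the additional property of the points of the last
level if there are no `p`-th roots of unity in `k` -/
def StTexR : Prop :=
  ∀ (p : ℕ) (_ : Fact p.Prime) (k L F : Type) (_ : Field k) (_ : Field L) (_ : Field F)
    (_ : Algebra k L) (_ : FiniteDimensional k L) (_ : IsGalois k L) (S : LF p L F) (ζ a : L)
    (ϖ : k), Ext p k L F S ζ a ϖ → Ext.Kind S ζ a ϖ →
    ∀ (m0 : ℤ) (A : Set L), A.Finite → (∀ x ∈ A, ∀ y : k, algebraMap k L y ≠ x) →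
    ∃ (T : Set L) (m : ℤ), m0 ≤ m ∧ A ⊆ T ∧ T.Finite ∧ S.Net T m ∧
    (∀ (g : L ≃ₐ[k] L), ∀ t ∈ T, g t ∈ T) ∧
    (∀ y : k, ∀ t ∈ T, algebraMap k L y ≠ t ∧ S.dl (algebraMap k L y) t ≤ m) ∧
    (∀ y : k, ∀ t ∈ T, ∀ t' ∈ T, S.dl (algebraMap k L y) t = m →
      S.dl (algebraMap k L y) t' = m → ∃ g : L ≃ₐ[k] L, g t = t') ∧
    (∀ y : k, ∀ t ∈ T, S.dl (algebraMap k L y) t = m → ∀ E : L, E ≠ 0 →
      (∀ u, S.Un 1 u → S.h E u = 0) → (∀ g : L ≃ₐ[k] L, g t = t → Eqv p (g E) E) →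
      ∃ y' : k, S.Cl (m + S.e) (algebraMap k L y) (algebraMap k L y') ∧
        ∀ r ∈ T, S.dl (algebraMap k L y) r = 0 →
          Eqv p E ((algebraMap k L y' - t) * (algebraMap k L y - r) /
            ((algebraMap k L y - t) * (algebraMap k L y' - r)))) ∧
    ((∃ g : L ≃ₐ[k] L, g a = a ∧ g ζ ≠ ζ) →
      ∀ y : k, ∀ t ∈ T, S.dl (algebraMap k L y) t = m → ∃ g : L ≃ₐ[k] L, g t = t ∧ g ζ ≠ ζ)

end Pool.Agent.Lib.MP_c385f6_ag.Cpl
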