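import Mathlib
import Pool.Agent.Lib.MP_c385f6_ag.Cpl.Defs

set_option autoImplicit false

/-!
Statements of the modules of the completeness theorem (abstract part).
-/

namespace Pool.Agent.Lib.MP_c385f6_ag.Cpl

/-- formal properties of the symbol -/
def StSym : Prop :=
  ∀ (p : ℕ) (_ : Fact p.Prime) (L F : Type) (_ : Field L) (_ : Field F) (S : LF p L F),
    (∀ x y, x ≠ 0 → y ≠ 0 → S.h x y = - S.h y x) ∧
    (∀ x y z, x ≠ 0 → y ≠ 0 → z ≠ 0 → (Eqv p x y ↔ ∀ w, w ≠ 0 → S.h x w = S.h y w)) ∧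
    (∀ x n, x ≠ 0 → S.v (x ^ n) = n * S.v x) ∧
    (∀ x y, x ≠ 0 → y ≠ 0 → Eqv p x y → (p : ℤ) ∣ S.v x - S.v y) ∧
    (∀ x u, x ≠ 0 → S.Un (S.e + 1) u → S.h x u = 0 ∧ S.h u x = 0) ∧
    (∀ E, E ≠ 0 → (∀ u, S.Un 1 u → S.h E u = 0) → ∃ c : ℕ, Eqv p E (S.ω ^ c)) ∧
    (∀ u w, S.Un S.e u → S.Un 1 w → S.h u w = 0) ∧
    (∃ l : F → ZMod p, (∀ a b, l (a + b) = l a + l b) ∧ (∃ a, l a ≠ 0) ∧
      ∀ x, 0 ≤ S.v x → ∀ w, w ≠ 0 → S.h (1 + x * S.π ^ S.e) w = l (S.res x) * (S.v w : ZMod p)) ∧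
    (∀ E, E ≠ 0 → (∀ u, S.Un 2 u → S.h E u = 0) → S.h E S.ω = 0 ∧ (p : ℤ) ∣ S.v E)

/-- additive maps to `ZMod p` are multiples of a non-zero one -/
def StDual : Prop :=
  ∀ (p : ℕ) (_ : Fact p.Prime) (F : Type) (_ : Field F) (_ : Finite F) (l : F → ZMod p),
    (∀ a b, l (a + b) = l a + l b) → (∃ a, l a ≠ 0) → ∀ ψ : F → ZMod p,
    (∀ a b, ψ (a + b) = ψ a + ψ b) → ∃ k : F, ∀ x, ψ x = l (k * x)

/-- the errors are orthogonal to the units of high level -/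
def StSpan : Prop :=
  ∀ (p : ℕ) (_ : Fact p.Prime) (L F : Type) (_ : Field L) (_ : Field F) (S : LF p L F)
    (T : Set L) (D : L → L) (y : L) (j : ℤ), S.ACmp T D → S.AP T D y j → S.OutR T y j →
    ∀ s ∈ T, s ≠ y → j ≤ S.v (y - s) → ∀ u, S.Un (S.v (y - s) - j + 1) u →
      S.h (D s / (y - s)) u = 0

/-- one step towards `y` -/
def StStep : Prop :=
  ∀ (p : ℕ) (_ : Fact p.Prime) (L F : Type) (_ : Field L) (_ : Field F) (S : LF p L F)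
    (T : Set L) (D : L → L) (y : L) (j : ℤ), S.ACmp T D → S.AP T D y j → S.OutR T y j →
    (∃ s ∈ T, s ≠ y ∧ S.v (y - s) = j + 1) →
    ∃ y', S.Gz (j + S.e) (y' - y) ∧ S.AP T D y' (j + 1)

/-- rich sets satisfy the hypotheses of the step -/
def StRich : Prop :=
  ∀ (p : ℕ) (_ : Fact p.Prime) (L F : Type) (_ : Field L) (_ : Field F) (S : LF p L F)
    (T : Set L) (m : ℤ) (y : L) (j : ℤ), S.Rich T m →
    (S.dd y (j + 1) ≤ m → S.e + 1 - j ≤ m → S.OutR T y j) ∧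
    (S.dd y (j + 1) + 1 ≤ m → ∃ s ∈ T, s ≠ y ∧ S.v (y - s) = j + 1)

/-- the chain of steps -/
def StChain : Prop :=
  ∀ (p : ℕ) (_ : Fact p.Prime) (L F : Type) (_ : Field L) (_ : Field F) (S : LF p L F)
    (T : Set L) (D : L → L) (m j0 : ℤ), S.ACmp T D → S.Rich T m → 1 ≤ j0 → j0 + S.e ≤ m →
    (∀ t ∈ T, t ≠ 0 → S.v t ≤ -j0 → Eqv p (D t) (-t)) →
    ∃ (y : L) (J : ℤ), S.dd y J = m ∧ 2 - j0 ≤ J ∧ S.AP T D y (J - 1)

/-- a large ball on which the system is trivial -/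
def StBaire : Prop :=
  ∀ (p : ℕ) (_ : Fact p.Prime) (L F : Type) (_ : Field L) (_ : Field F) (S : LF p L F),
    ∃ n0 : ℤ, ∀ (T : Set L) (D : L → L → L) (m : ℤ), n0 ≤ m → S.Net T m → S.Cmp T D →
    ∃ c ∈ T, 0 ≤ S.v c ∧ ∃ j0 : ℤ, 1 ≤ j0 ∧ j0 + S.e ≤ n0 ∧
      ∀ s ∈ T, ∀ t ∈ T, S.Gz j0 (s - c) → S.Gz j0 (t - c) → Eqv p (D s t) 1

/-- invariance of the chordal distance and change of frame -/
def StFrame : Prop :=
  ∀ (p : ℕ) (_ : Fact p.Prime) (L F : Type) (_ : Field L) (_ : Field F) (S : LF p L F) (c : L),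
    0 ≤ S.v c →
    (∀ x y, x ≠ c → y ≠ c → x ≠ y → S.dl (x - c)⁻¹ (y - c)⁻¹ = S.dl x y) ∧
    (∀ x, x ≠ c → S.dl x c = - min 0 (S.v (x - c)⁻¹)) ∧
    (∀ (T : Set L) (m : ℤ), 1 ≤ m → S.Net T m → S.Rich (LF.frT T c) m) ∧
    (∀ (T : Set L) (D : L → L → L), c ∈ T → S.Cmp T D → S.ACmp (LF.frT T c) (LF.frD D c)) ∧
    (∀ (T : Set L) (D : L → L → L) (y : L), c ∈ T → S.Cmp T D → y ≠ c →
      ∀ t ∈ T, t ≠ c → y ≠ t → (Eqv p (D t c) ((y - t) / (y - c)) ↔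
        Eqv p (LF.frD D c (t - c)⁻¹) ((y - c)⁻¹ - (t - c)⁻¹)))

/-- elementary properties of the chordal distance -/
def StChord : Prop :=
  ∀ (p : ℕ) (_ : Fact p.Prime) (L F : Type) (_ : Field L) (_ : Field F) (S : LF p L F),
    (∀ x y, S.dl x y = S.dl y x) ∧ (∀ x y, x ≠ y → 0 ≤ S.dl x y) ∧
    (∀ n x y z, S.Cl n x y → S.Cl n y z → S.Cl n x z) ∧
    (∀ x y z, x ≠ y → y ≠ z → x ≠ z → min (S.dl x y) (S.dl y z) ≤ S.dl x z) ∧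
    (∀ y (n : ℤ), 0 ≤ n → ∃ x, x ≠ y ∧ S.dl y x = n) ∧
    (∀ y y', ∃ x, x ≠ y ∧ x ≠ y' ∧ S.dl y x = 0 ∧ S.dl y' x = 0) ∧
    (∀ y, ∃ c, c ≠ y ∧ 0 ≤ S.v c ∧ S.dl y c = 0) ∧
    (∀ y y' s t, y ≠ t → y' ≠ s → y ≠ y' → t ≠ s →
      1 - (y - s) * (y' - t) / ((y - t) * (y' - s)) ≠ 0 ∧
      S.v (1 - (y - s) * (y' - t) / ((y - t) * (y' - s))) =
        S.dl y y' + S.dl t s - S.dl y t - S.dl y' s) ∧
    (∀ y y' s t, y ≠ t → y' ≠ s → y ≠ s → y' ≠ t →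
      S.v ((y - s) * (y' - t) / ((y - t) * (y' - s))) =
        S.dl y s + S.dl y' t - S.dl y t - S.dl y' s)

/-- moving `y` -/
def StMove : Prop :=
  ∀ (p : ℕ) (_ : Fact p.Prime) (L F : Type) (_ : Field L) (_ : Field F) (S : LF p L F)
    (T : Set L) (D : L → L → L) (n : ℤ) (y y' : L), 1 ≤ n → S.Cmp T D → S.Pr T D n y →
    S.Cl (n + S.e) y y' → S.Pr T D n y'

/-- uniqueness of `y` -/
def StUniq : Prop :=
  ∀ (p : ℕ) (_ : Fact p.Prime) (L F : Type) (_ : Field L) (_ : Field F) (S : LF p L F)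
    (T : Set L) (D : L → L → L) (m n : ℤ) (y y' : L), S.Net T m → 3 ≤ n → n ≤ m →
    S.Pr T D n y → S.Pr T D n y' → S.Cl (n + S.e) y y'

/-- (A1) approximate completeness -/
def StA1 : Prop :=
  ∀ (p : ℕ) (_ : Fact p.Prime) (L F : Type) (_ : Field L) (_ : Field F) (S : LF p L F),
    ∃ m0 : ℤ, ∀ (T : Set L) (D : L → L → L) (m : ℤ), m0 ≤ m → T.Finite → S.Net T m →
    S.Cmp T D → ∃ y, y ∉ T ∧ S.Pr T D (m - 1) y

/-- (A2) one more step -/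
def StA2 : Prop :=
  ∀ (p : ℕ) (_ : Fact p.Prime) (L F : Type) (_ : Field L) (_ : Field F) (S : LF p L F)
    (T : Set L) (D : L → L → L) (m : ℤ) (y : L), S.e + 3 ≤ m → T.Finite → S.Net T m →
    S.Cmp T D → y ∉ T → S.Pr T D (m - 1) y → (∃ s ∈ T, S.dl y s = m) →
    ∃ y', y' ∉ T ∧ S.Cl (m - 1 + S.e) y y' ∧ S.Pr T D m y'

/-- (A3) the last errors are orthogonal to the principal units -/
def StA3 : Prop :=
  ∀ (p : ℕ) (_ : Fact p.Prime) (L F : Type) (_ : Field L) (_ : Field F) (S : LF p L F)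
    (T : Set L) (D : L → L → L) (m : ℤ) (y : L), S.e + 3 ≤ m → S.Net T m →
    S.Cmp T D → y ∉ T → S.Pr T D m y → ∀ t ∈ T, S.dl y t = m → ∀ r ∈ T, S.dl y r = 0 →
    ∀ u, S.Un 1 u → S.h (D t r * ((y - r) / (y - t))) u = 0

/-- descent of `y` to the base field -/
def StDesc : Prop :=
  ∀ (p : ℕ) (_ : Fact p.Prime) (k L F : Type) (_ : Field k) (_ : Field L) (_ : Field F)
    (_ : Algebra k L) (_ : FiniteDimensional k L) (_ : IsGalois k L) (S : LF p L F),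
    (∀ (g : L ≃ₐ[k] L) (x : L), S.v (g x) = S.v x) →
    (∃ θ : L, 0 ≤ S.v θ ∧ Algebra.trace k L θ = 1) →
    (∃ z : k, z ≠ 0 ∧ 1 ≤ S.v (algebraMap k L z)) →
    ∀ (N : ℤ) (y : L), 1 ≤ N → (∀ g : L ≃ₐ[k] L, S.Cl N y (g y)) →
    ∃ z : k, S.Cl N y (algebraMap k L z)

/-- THE COMPLETENESS THEOREM -/
def StCpl : Prop :=
  ∀ (p : ℕ) (_ : Fact p.Prime) (k L F : Type) (_ : Field k) (_ : Field L) (_ : Field F)
    (_ : Algebra k L) (_ : FiniteDimensional k L) (_ : IsGalois k L) (S : LF p L F),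
    (∀ (g : L ≃ₐ[k] L) (x : L), S.v (g x) = S.v x) →
    (∃ θ : L, 0 ≤ S.v θ ∧ Algebra.trace k L θ = 1) →
    (∃ z : k, z ≠ 0 ∧ 1 ≤ S.v (algebraMap k L z)) →
    ∃ m0 : ℤ, ∀ (T : Set L) (m : ℤ), m0 ≤ m → T.Finite → S.Net T m →
    (∀ (g : L ≃ₐ[k] L), ∀ t ∈ T, g t ∈ T) →
    (∀ y : k, ∀ t ∈ T, algebraMap k L y ≠ t ∧ S.dl (algebraMap k L y) t ≤ m) →
    (∀ y : k, ∀ t ∈ T, ∀ t' ∈ T, S.dl (algebraMap k L y) t = m →
      S.dl (algebraMap k L y) t' = m → ∃ g : L ≃ₐ[k] L, g t = t') →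
    (∀ y : k, ∀ t ∈ T, S.dl (algebraMap k L y) t = m → ∀ E : L, E ≠ 0 →
      (∀ u, S.Un 1 u → S.h E u = 0) → (∀ g : L ≃ₐ[k] L, g t = t → Eqv p (g E) E) →
      ∃ y' : k, S.Cl (m + S.e) (algebraMap k L y) (algebraMap k L y') ∧
        ∀ r ∈ T, S.dl (algebraMap k L y) r = 0 →
          Eqv p E ((algebraMap k L y' - t) * (algebraMap k L y - r) /
            ((algebraMap k L y - t) * (algebraMap k L y' - r)))) →
    ∀ D : L → L → L, S.Cmp T D →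
    (∀ g : L ≃ₐ[k] L, ∀ s ∈ T, ∀ t ∈ T, Eqv p (D (g s) (g t)) (g (D s t))) →
    ∃ y : k, ∀ s ∈ T, ∀ t ∈ T,
      Eqv p (D s t) ((algebraMap k L y - s) / (algebraMap k L y - t))

end Pool.Agent.Lib.MP_c385f6_ag.Cpl
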