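import Mathlib
import Pool.Agent.Lib.MP_c385f6_ag.Cpl.Stmts

set_option autoImplicit false

/-!
Formal properties of the symbol.
-/

namespace Pool.Agent.Lib.MP_c385f6_ag.Cpl

namespace SymAux

variable {p : ℕ} {L F : Type} [Field L] [Field F] (S : LF p L F)

include S

lemma v_one : S.v 1 = 0 := by
  have h := S.v_mul 1 1 one_ne_zero one_ne_zero
  rw [mul_one] at h
  omega

lemma v_neg_one : S.v (-1) = 0 := by
  have h := S.v_mul (-1) (-1) (neg_ne_zero.mpr one_ne_zero) (neg_ne_zero.mpr one_ne_zero)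
  rw [neg_one_mul, neg_neg, v_one] at h
  omega

lemma v_neg (x : L) : S.v (-x) = S.v x := by
  by_cases hx : x = 0
  · rw [hx, neg_zero]
  · rw [← neg_one_mul, S.v_mul _ _ (neg_ne_zero.mpr one_ne_zero) hx, v_neg_one, zero_add]

lemma v_pow (x : L) (hx : x ≠ 0) (n : ℕ) : S.v (x ^ n) = n * S.v x := by
  induction n with
  | zero => simp [v_one]
  | succ n ih =>
    rw [pow_succ, S.v_mul _ _ (pow_ne_zero _ hx) hx, ih]
    push_cast
    ring

lemma v_inv (x : L) (hx : x ≠ 0) : S.v x⁻¹ = - S.v x := by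
  have h := S.v_mul x x⁻¹ hx (inv_ne_zero hx)
  rw [mul_inv_cancel₀ hx, v_one] at h
  omega

lemma v_div (x y : L) (hx : x ≠ 0) (hy : y ≠ 0) : S.v (x / y) = S.v x - S.v y := by
  rw [div_eq_mul_inv, S.v_mul _ _ hx (inv_ne_zero hy), v_inv S y hy]
  ring

lemma v_zpow (x : L) (hx : x ≠ 0) (n : ℤ) : S.v (x ^ n) = n * S.v x := by
  obtain ⟨m, rfl | rfl⟩ := n.eq_nat_or_neg
  · rw [zpow_natCast, v_pow S x hx]
  · rw [zpow_neg, zpow_natCast, v_inv S _ (pow_ne_zero _ hx), v_pow S x hx]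
    ring

/-- principal units -/
lemma one_add {x : L} (hx : x = 0 ∨ 1 ≤ S.v x) : 1 + x ≠ 0 ∧ S.v (1 + x) = 0 := by
  rcases hx with rfl | hx
  · rw [add_zero]
    exact ⟨one_ne_zero, v_one S⟩
  · have hx0 : x ≠ 0 := by
      rintro rfl
      rw [S.v_zero] at hx
      omega
    have hne : 1 + x ≠ 0 := by
      intro h
      have h1 : x = -1 := by linear_combination h
      rw [h1, v_neg_one] at hx
      omega
    refine ⟨hne, ?_⟩
    have h1 := S.v_add 1 x one_ne_zero hx0 hne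
    rw [v_one] at h1
    have h2 := S.v_add (1 + x) (-x) hne (neg_ne_zero.mpr hx0) (by
      rw [add_neg_cancel_right]
      exact one_ne_zero)
    rw [add_neg_cancel_right, v_one, v_neg] at h2
    omega

lemma un_iff (n : ℤ) (hn : 1 ≤ n) (x : L) : S.Un n (1 + x) ↔ x = 0 ∨ n ≤ S.v x := by
  constructor
  · rintro ⟨-, h | h⟩
    · left
      linear_combination h
    · rw [add_sub_cancel_left] at h
      exact Or.inr h
  · intro h
    refine ⟨(one_add S (h.imp_right fun h => by omega)).1, ?_⟩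
    rw [add_sub_cancel_left]
    exact h.imp_left fun h => by rw [h, add_zero]

lemma h_one_left (x : L) (hx : x ≠ 0) : S.h 1 x = 0 := by
  have h := S.h_mul_left 1 1 x one_ne_zero one_ne_zero hx
  rw [mul_one] at h
  exact left_eq_add.mp h

lemma h_one_right (x : L) (hx : x ≠ 0) : S.h x 1 = 0 := by
  have h := S.h_mul_right x 1 1 hx one_ne_zero one_ne_zero
  rw [mul_one] at h
  exact left_eq_add.mp h

lemma h_inv_left (x y : L) (hx : x ≠ 0) (hy : y ≠ 0) : S.h x⁻¹ y = - S.h x y := by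
  have h := S.h_mul_left x x⁻¹ y hx (inv_ne_zero hx) hy
  rw [mul_inv_cancel₀ hx, h_one_left S y hy] at h
  exact (neg_eq_of_add_eq_zero_right h.symm).symm

lemma h_inv_right (x y : L) (hx : x ≠ 0) (hy : y ≠ 0) : S.h x y⁻¹ = - S.h x y := by
  have h := S.h_mul_right x y y⁻¹ hx hy (inv_ne_zero hy)
  rw [mul_inv_cancel₀ hy, h_one_right S x hx] at h
  exact (neg_eq_of_add_eq_zero_right h.symm).symm

lemma h_pow_left (x y : L) (hx : x ≠ 0) (hy : y ≠ 0) (n : ℕ) : S.h (x ^ n) y = n * S.h x y := by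
  induction n with
  | zero => simp [h_one_left S y hy]
  | succ n ih =>
    rw [pow_succ, S.h_mul_left _ _ _ (pow_ne_zero _ hx) hx hy, ih]
    push_cast
    ring

lemma h_pow_right (x y : L) (hx : x ≠ 0) (hy : y ≠ 0) (n : ℕ) : S.h x (y ^ n) = n * S.h x y := by
  induction n with
  | zero => simp [h_one_right S x hx]
  | succ n ih =>
    rw [pow_succ, S.h_mul_right _ _ _ hx (pow_ne_zero _ hy) hy, ih]
    push_cast
    ring

lemma h_zpow_right (x y : L) (hx : x ≠ 0) (hy : y ≠ 0) (n : ℤ) :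
    S.h x (y ^ n) = n * S.h x y := by
  obtain ⟨m, rfl | rfl⟩ := n.eq_nat_or_neg
  · rw [zpow_natCast, h_pow_right S x y hx hy]
    simp
  · rw [zpow_neg, zpow_natCast, h_inv_right S _ _ hx (pow_ne_zero _ hy),
      h_pow_right S x y hx hy]
    push_cast
    ring

/-- (f1), first part -/
lemma h_neg_self (a : L) (ha : a ≠ 0) : S.h a (-a) = 0 := by
  by_cases h1 : a = 1
  · rw [h1]
    exact h_one_left S _ (neg_ne_zero.mpr one_ne_zero)
  · have h2 : 1 - a ≠ 0 := sub_ne_zero.mpr (Ne.symm h1)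
    have h3 : 1 - a⁻¹ ≠ 0 := by
      rw [sub_ne_zero, ne_comm]
      intro h
      exact h1 (inv_eq_one.mp h)
    have h4 : -a = (1 - a) * (1 - a⁻¹)⁻¹ := by
      rw [eq_mul_inv_iff_mul_eq₀ h3]
      field_simp
      ring
    have h5 := S.steinberg a (1 - a) ha h2 (by ring)
    have h6 := S.steinberg a⁻¹ (1 - a⁻¹) (inv_ne_zero ha) h3 (by ring)
    rw [h_inv_left S _ _ ha h3] at h6
    rw [h4, S.h_mul_right _ _ _ ha h2 (inv_ne_zero h3), h5, h_inv_right S _ _ ha h3, h6,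
      add_zero]

/-- (f1) -/
lemma anti (x y : L) (hx : x ≠ 0) (hy : y ≠ 0) : S.h x y = - S.h y x := by
  have h := h_neg_self S (x * y) (mul_ne_zero hx hy)
  rw [S.h_mul_left _ _ _ hx hy (neg_ne_zero.mpr (mul_ne_zero hx hy))] at h
  have h1 : S.h x (-(x * y)) = S.h x y := by
    rw [← neg_mul, S.h_mul_right _ _ _ hx (neg_ne_zero.mpr hx) hy, h_neg_self S x hx, zero_add]
  have h2 : S.h y (-(x * y)) = S.h y x := by
    rw [← mul_neg, S.h_mul_right _ _ _ hy hx (neg_ne_zero.mpr hy), h_neg_self S y hy, add_zero]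
  rw [h1, h2] at h
  exact eq_neg_of_add_eq_zero_left h

lemma h_pow_p_left [Fact p.Prime] (x y : L) (hx : x ≠ 0) (hy : y ≠ 0) : S.h (x ^ p) y = 0 := by
  rw [h_pow_left S x y hx hy, CharP.cast_eq_zero, zero_mul]

lemma h_pow_p_right [Fact p.Prime] (x y : L) (hx : x ≠ 0) (hy : y ≠ 0) : S.h x (y ^ p) = 0 := by
  rw [h_pow_right S x y hx hy, CharP.cast_eq_zero, zero_mul]

lemma eqv_iff [Fact p.Prime] (x y : L) (hx : x ≠ 0) (hy : y ≠ 0) :
    Eqv p x y ↔ ∀ w, w ≠ 0 → S.h x w = S.h y w := by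
  constructor
  · rintro ⟨z, hz, rfl⟩ w hw
    rw [S.h_mul_left _ _ _ hy (pow_ne_zero _ hz) hw, h_pow_p_left S z w hz hw, add_zero]
  · intro h
    obtain ⟨z, hz⟩ := S.ndg (x / y) (div_ne_zero hx hy) fun w hw => by
      rw [div_eq_mul_inv, S.h_mul_left _ _ _ hx (inv_ne_zero hy) hw, h_inv_left S _ _ hy hw,
        h w hw, add_neg_cancel]
    refine ⟨z, ?_, ?_⟩
    · rintro rfl
      rw [zero_pow (Nat.Prime.ne_zero Fact.out)] at hz
      exact div_ne_zero hx hy hz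
    · rw [← hz, mul_div_cancel₀ _ hy]

/-- units of level above `e` are `p`-th powers -/
lemma un_pow {u : L} (hu : S.Un (S.e + 1) u) : ∃ y, y ≠ 0 ∧ u = y ^ p := by
  rcases hu with ⟨h0, h | h⟩
  · exact ⟨1, one_ne_zero, by rw [h, one_pow]⟩
  · obtain ⟨y, hy⟩ := S.pow_unit u h0 h
    refine ⟨y, ?_, hy⟩
    rintro rfl
    by_cases hp : p = 0
    · have h2 := S.two_le
      obtain ⟨c, hc⟩ := S.e_dvd
      have h3 : S.e = 0 := by rw [hc, hp, zero_mul]
      omega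
    · rw [zero_pow hp] at hy
      exact h0 hy

lemma h_un_left [Fact p.Prime] {u x : L} (hu : S.Un (S.e + 1) u) (hx : x ≠ 0) : S.h u x = 0 := by
  obtain ⟨y, hy, rfl⟩ := un_pow S hu
  exact h_pow_p_left S y x hy hx

lemma h_un_right [Fact p.Prime] {u x : L} (hu : S.Un (S.e + 1) u) (hx : x ≠ 0) :
    S.h x u = 0 := by
  obtain ⟨y, hy, rfl⟩ := un_pow S hu
  exact h_pow_p_right S x y hx hy

/-- quotients of close units -/
lemma un_div {n : ℤ} (hn : 1 ≤ n) {a b : L} (_ : 1 + a ≠ 0) (hb : 1 + b ≠ 0)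
    (hb0 : S.v (1 + b) = 0) (hab : a - b = 0 ∨ n ≤ S.v (a - b)) :
    S.Un n ((1 + a) / (1 + b)) := by
  have h1 : (1 + a) / (1 + b) = 1 + (a - b) / (1 + b) := by
    field_simp
    ring
  rw [h1, un_iff S n hn]
  by_cases h2 : a - b = 0
  · left
    rw [h2, zero_div]
  · right
    rw [v_div S _ _ h2 hb, hb0, sub_zero]
    exact hab.resolve_left h2

/-- the symbol depends only on the class -/
lemma h_close [Fact p.Prime] {a b w : L} (ha : 1 + a ≠ 0) (hb : 1 + b ≠ 0)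
    (hb0 : S.v (1 + b) = 0) (hab : a - b = 0 ∨ (S.e : ℤ) + 1 ≤ S.v (a - b)) (hw : w ≠ 0) :
    S.h (1 + a) w = S.h (1 + b) w := by
  have h1 := un_div S (by omega) ha hb hb0 hab
  have h2 := h_un_left S h1 hw
  rw [div_eq_mul_inv, S.h_mul_left _ _ _ ha (inv_ne_zero hb) hw, h_inv_left S _ _ hb hw] at h2
  exact (neg_add_eq_zero.mp (by rw [add_comm]; exact h2)).symm

/-! ### integral elements and balls -/

lemma int_add {x y : L} (hx : 0 ≤ S.v x) (hy : 0 ≤ S.v y) : 0 ≤ S.v (x + y) := by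
  by_cases h0 : x = 0
  · rwa [h0, zero_add]
  by_cases h1 : y = 0
  · rwa [h1, add_zero]
  by_cases h2 : x + y = 0
  · rw [h2, S.v_zero]
  have := S.v_add x y h0 h1 h2
  omega

lemma int_mul {x y : L} (hx : 0 ≤ S.v x) (hy : 0 ≤ S.v y) : 0 ≤ S.v (x * y) := by
  by_cases h0 : x = 0
  · rw [h0, zero_mul, S.v_zero]
  by_cases h1 : y = 0
  · rw [h1, mul_zero, S.v_zero]
  rw [S.v_mul _ _ h0 h1]
  omega

lemma int_nat (n : ℕ) : 0 ≤ S.v (n : L) := by
  induction n with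
  | zero => rw [Nat.cast_zero, S.v_zero]
  | succ n ih =>
    rw [Nat.cast_succ]
    exact int_add S ih (v_one S).ge

lemma gz_add {n : ℤ} {x y : L} (hx : S.Gz n x) (hy : S.Gz n y) : S.Gz n (x + y) := by
  by_cases h0 : x = 0
  · rwa [h0, zero_add]
  by_cases h1 : y = 0
  · rwa [h1, add_zero]
  by_cases h2 : x + y = 0
  · exact Or.inl h2
  have := S.v_add x y h0 h1 h2
  have hx' := hx.resolve_left h0
  have hy' := hy.resolve_left h1
  exact Or.inr (by omega)

lemma gz_neg {n : ℤ} {x : L} (hx : S.Gz n x) : S.Gz n (-x) := by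
  rcases hx with rfl | hx
  · exact Or.inl neg_zero
  · exact Or.inr (by rwa [v_neg])

lemma gz_sub {n : ℤ} {x y : L} (hx : S.Gz n x) (hy : S.Gz n y) : S.Gz n (x - y) := by
  rw [sub_eq_add_neg]
  exact gz_add S hx (gz_neg S hy)

lemma gz_mul {n : ℤ} {x y : L} (hx : S.Gz n x) (hy : 0 ≤ S.v y) : S.Gz n (x * y) := by
  rcases hx with rfl | hx
  · exact Or.inl (zero_mul _)
  · by_cases h0 : x = 0
    · exact Or.inl (by rw [h0, zero_mul])
    by_cases h1 : y = 0
    · exact Or.inl (by rw [h1, mul_zero])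
    refine Or.inr ?_
    rw [S.v_mul _ _ h0 h1]
    omega

lemma gz_mul_gz {n m : ℤ} {x y : L} (hx : S.Gz n x) (hy : S.Gz m y) : S.Gz (n + m) (x * y) := by
  by_cases h0 : x = 0
  · exact Or.inl (by rw [h0, zero_mul])
  by_cases h1 : y = 0
  · exact Or.inl (by rw [h1, mul_zero])
  have hx' := hx.resolve_left h0
  have hy' := hy.resolve_left h1
  refine Or.inr ?_
  rw [S.v_mul _ _ h0 h1]
  omega

lemma gz_mono {n m : ℤ} (h : m ≤ n) {x : L} (hx : S.Gz n x) : S.Gz m x :=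
  hx.imp_right fun hx => h.trans hx

lemma gz_int {n : ℤ} (hn : 0 ≤ n) {x : L} (hx : S.Gz n x) : 0 ≤ S.v x := by
  rcases hx with rfl | hx
  · rw [S.v_zero]
  · omega

lemma un_sub {n : ℤ} {u : L} (hu : S.Un n u) : S.Gz n (u - 1) :=
  hu.2.imp_left fun h => by rw [h, sub_self]

lemma un_int {n : ℤ} (hn : 1 ≤ n) {u : L} (hu : S.Un n u) : S.v u = 0 := by
  have h := (one_add S (x := u - 1) ((un_sub S hu).imp_right fun h => by omega)).2
  rwa [add_sub_cancel] at h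

/-! ### residues -/

lemma res_z : S.res 0 = 0 := by
  have h := S.res_add 0 0 (by rw [S.v_zero]) (by rw [S.v_zero])
  rw [add_zero] at h
  exact left_eq_add.mp h

lemma res_neg (x : L) (hx : 0 ≤ S.v x) : S.res (-x) = - S.res x := by
  have h := S.res_add x (-x) hx (by rwa [v_neg])
  rw [add_neg_cancel, res_z] at h
  exact (neg_eq_of_add_eq_zero_right h.symm).symm

lemma res_sub (x y : L) (hx : 0 ≤ S.v x) (hy : 0 ≤ S.v y) :
    S.res (x - y) = S.res x - S.res y := by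
  rw [sub_eq_add_neg, S.res_add _ _ hx (by rwa [v_neg]), res_neg S y hy, sub_eq_add_neg]

lemma res_nat (n : ℕ) : S.res (n : L) = n := by
  induction n with
  | zero => rw [Nat.cast_zero, res_z, Nat.cast_zero]
  | succ n ih =>
    rw [Nat.cast_succ, S.res_add _ _ (int_nat S n) (v_one S).ge, ih, S.res_one, Nat.cast_succ]

lemma int_pow (x : L) (hx : 0 ≤ S.v x) (n : ℕ) : 0 ≤ S.v (x ^ n) := by
  induction n with
  | zero => rw [pow_zero, v_one]
  | succ n ih =>
    rw [pow_succ]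
    exact int_mul S ih hx

lemma res_pow (x : L) (hx : 0 ≤ S.v x) (n : ℕ) : S.res (x ^ n) = S.res x ^ n := by
  induction n with
  | zero => rw [pow_zero, pow_zero, S.res_one]
  | succ n ih => rw [pow_succ, pow_succ, S.res_mul _ _ (int_pow S x hx n) hx, ih]

lemma res_eq_iff (x y : L) (hx : 0 ≤ S.v x) (hy : 0 ≤ S.v y) :
    S.res x = S.res y ↔ S.Gz 1 (x - y) := by
  have hxy : 0 ≤ S.v (x - y) := by
    rw [sub_eq_add_neg]
    exact int_add S hx (by rwa [v_neg])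
  rw [← sub_eq_zero, ← res_sub S x y hx hy, S.res_zero _ hxy]
  rfl

lemma gz_pi (e : ℕ) : S.v (S.π ^ e) = e := by
  rw [v_pow S _ S.pi_ne, S.v_pi, mul_one]

/-- expansion of a power -/
lemma expand (x : L) (hx : 0 ≤ S.v x) (n : ℕ) :
    ∃ k, 0 ≤ S.v k ∧ (1 + x) ^ n = 1 + n * x + x ^ 2 * k := by
  induction n with
  | zero => exact ⟨0, by rw [S.v_zero], by simp⟩
  | succ n ih =>
    obtain ⟨k, hk, h⟩ := ih
    refine ⟨n + k + x * k, ?_, ?_⟩
    · exact int_add S (int_add S (int_nat S n) hk) (int_mul S hx hk)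
    · rw [pow_succ, h]
      push_cast
      ring

/-- the residue characteristic -/
lemma char_F [Fact p.Prime] : (p : F) = 0 := by
  by_contra hp
  obtain ⟨u, hu0, hu1, hu2⟩ := S.top
  obtain ⟨c, hc0, hc1⟩ := S.res_surj ((p : F)⁻¹)
  have he := S.two_le
  have ha0 : u - 1 ≠ 0 := by
    intro h
    rw [h, S.v_zero] at hu1
    omega
  have ha : S.Gz S.e (u - 1) := Or.inr hu1.ge
  have haint := gz_int S (by omega) ha
  obtain ⟨k, hk, hexp⟩ := expand S (c * (u - 1)) (int_mul S hc0 haint) p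
  have hca : S.Gz S.e (c * (u - 1)) := by
    rw [mul_comm]
    exact gz_mul S ha hc0
  have hw := one_add S (gz_mono S (show (1 : ℤ) ≤ S.e by omega) hca)
  have h1 : S.Gz 1 (1 - (p : L) * c) := by
    rw [← res_eq_iff S _ _ (v_one S).ge (int_mul S (int_nat S p) hc0), S.res_one,
      S.res_mul _ _ (int_nat S p) hc0, res_nat, hc1, mul_inv_cancel₀ hp]
  have h2 : S.Gz (S.e + 1) (u - (1 + c * (u - 1)) ^ p) := by
    have h3 : u - (1 + c * (u - 1)) ^ p =
        (u - 1) * (1 - (p : L) * c) - (c * (u - 1)) * (c * (u - 1)) * k := by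
      rw [hexp]
      ring
    rw [h3]
    refine gz_sub S (gz_mul_gz S ha h1) (gz_mul S ?_ hk)
    exact gz_mono S (by omega) (gz_mul_gz S hca hca)
  have hwp : (1 + c * (u - 1)) ^ p ≠ 0 := pow_ne_zero _ hw.1
  have hwp0 : S.v ((1 + c * (u - 1)) ^ p) = 0 := by
    rw [v_pow S _ hw.1, hw.2, mul_zero]
  have h3 := un_div S (n := S.e + 1) (a := u - 1) (b := (1 + c * (u - 1)) ^ p - 1) (by omega)
    (by rwa [add_sub_cancel]) (by rwa [add_sub_cancel]) (by rwa [add_sub_cancel])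
    (by rw [sub_sub_sub_cancel_right]; exact h2)
  rw [add_sub_cancel, add_sub_cancel] at h3
  obtain ⟨y, -, hy⟩ := un_pow S h3
  refine hu2 ⟨y * (1 + c * (u - 1)), ?_⟩
  rw [mul_pow, ← hy, div_mul_cancel₀ _ hwp]

/-- (f5): classes orthogonal to the principal units -/
lemma ortho [Fact p.Prime] (E : L) (hE : E ≠ 0) (h : ∀ u, S.Un 1 u → S.h E u = 0) (x : L)
    (hx : x ≠ 0) : S.h E x = (S.v x : ZMod p) * S.h E S.π := by
  have hunit : ∀ u, u ≠ 0 → S.v u = 0 → S.h E u = 0 := by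
    intro u hu0 hu
    have := S.finF
    have := Fintype.ofFinite F
    have : CharP F p := (CharP.charP_iff_prime_eq_zero Fact.out).mpr (char_F S)
    obtain ⟨n, -, hn⟩ := FiniteField.card F p
    have hres : S.res u ≠ 0 := by
      intro h0
      rcases (S.res_zero u hu.ge).mp h0 with h1 | h1
      · exact hu0 h1
      · omega
    have h1 : S.res (u ^ (Fintype.card F - 1)) = S.res 1 := by
      rw [res_pow S u hu.ge, S.res_one]
      exact FiniteField.pow_card_sub_one_eq_one _ hres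
    rw [res_eq_iff S _ _ (int_pow S u hu.ge _) (v_one S).ge] at h1
    have h2 : S.Un 1 (u ^ (Fintype.card F - 1)) :=
      ⟨pow_ne_zero _ hu0, h1.imp_left sub_eq_zero.mp⟩
    have h3 := h _ h2
    rw [h_pow_right S E u hE hu0, Nat.cast_sub Fintype.card_pos, hn, Nat.cast_pow,
      CharP.cast_eq_zero, zero_pow n.ne_zero, Nat.cast_one, zero_sub, neg_one_mul,
      neg_eq_zero] at h3
    exact h3
  have hz : S.π ^ (S.v x) ≠ 0 := zpow_ne_zero _ S.pi_ne
  have h1 := hunit (x / S.π ^ (S.v x)) (div_ne_zero hx hz) (by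
    rw [v_div S _ _ hx hz, v_zpow S _ S.pi_ne, S.v_pi]
    ring)
  have h2 : x = x / S.π ^ (S.v x) * S.π ^ (S.v x) := by rw [div_mul_cancel₀ _ hz]
  calc S.h E x = S.h E (x / S.π ^ (S.v x) * S.π ^ (S.v x)) := by rw [← h2]
    _ = _ := by rw [S.h_mul_right _ _ _ hE (div_ne_zero hx hz) hz, h1,
                  h_zpow_right S _ _ hE S.pi_ne, zero_add]

lemma exists_omega [Fact p.Prime] (E : L) (hE : E ≠ 0) (h : ∀ u, S.Un 1 u → S.h E u = 0) :
    ∃ c : ℕ, Eqv p E (S.ω ^ c) := by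
  refine ⟨(S.h E S.π).val, ?_⟩
  rw [eqv_iff S _ _ hE (pow_ne_zero _ S.om_ne)]
  intro w hw
  rw [ortho S E hE h w hw, h_pow_left S _ _ S.om_ne hw, S.h_omega w hw, ZMod.natCast_val,
    ZMod.cast_id, mul_comm]

/-- (f6) -/
lemma level_e [Fact p.Prime] (u w : L) (hu : S.Un S.e u) (hw : S.Un 1 w) : S.h u w = 0 := by
  have he := S.two_le
  have hw0 := un_int S le_rfl hw
  have hu0 := un_int S (by omega) hu
  set a := u - 1 with ha
  have hua : u = 1 + a := by rw [ha]; ring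
  have hga : S.Gz S.e a := un_sub S hu
  by_cases h0 : a = 0
  · rw [hua, h0, add_zero]
    exact h_one_left S w hw.1
  have hc0 : a * w ≠ 0 := mul_ne_zero h0 hw.1
  have hgc : S.Gz S.e (a * w) := gz_mul S hga hw0.ge
  have hc := one_add S (gz_mono S (show (1 : ℤ) ≤ S.e by omega) hgc)
  have ha1 : 1 + a ≠ 0 := by rw [← hua]; exact hu.1
  have hclose : ∀ x, x ≠ 0 → S.h (1 + a * w) x = S.h (1 + a) x := by
    intro x hx
    refine h_close S hc.1 ha1 (by rw [← hua]; exact hu0) ?_ hx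
    have h1 : a * w - a = a * (w - 1) := by ring
    rw [h1]
    exact gz_mul_gz S hga (un_sub S hw)
  have h1 := S.steinberg (1 + a * w) (-(a * w)) hc.1 (neg_ne_zero.mpr hc0) (by ring)
  have h2 := S.steinberg (1 + a) (-a) ha1 (neg_ne_zero.mpr h0) (by ring)
  rw [hclose _ (neg_ne_zero.mpr hc0), ← neg_mul,
    S.h_mul_right _ _ _ ha1 (neg_ne_zero.mpr h0) hw.1, h2, zero_add] at h1
  rw [hua]
  exact h1

/-- (f7) -/
lemma exists_l [Fact p.Prime] : ∃ l : F → ZMod p, (∀ a b, l (a + b) = l a + l b) ∧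
    (∃ a, l a ≠ 0) ∧ ∀ x, 0 ≤ S.v x → ∀ w, w ≠ 0 →
      S.h (1 + x * S.π ^ S.e) w = l (S.res x) * (S.v w : ZMod p) := by
  have he := S.two_le
  have hpe : S.Gz S.e (S.π ^ S.e) := Or.inr (gz_pi S _).ge
  have hg : ∀ x, 0 ≤ S.v x → S.Gz S.e (x * S.π ^ S.e) := fun x hx => by
    rw [mul_comm]
    exact gz_mul S hpe hx
  have hu : ∀ x, 0 ≤ S.v x → 1 + x * S.π ^ S.e ≠ 0 ∧ S.v (1 + x * S.π ^ S.e) = 0 := fun x hx =>
    one_add S (gz_mono S (show (1 : ℤ) ≤ S.e by omega) (hg x hx))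
  have hun : ∀ x, 0 ≤ S.v x → S.Un S.e (1 + x * S.π ^ S.e) := fun x hx =>
    (un_iff S S.e (by omega) _).mpr (hg x hx)
  choose r hr0 hr1 using S.res_surj
  have hwd : ∀ x y, 0 ≤ S.v x → 0 ≤ S.v y → S.res x = S.res y → ∀ w, w ≠ 0 →
      S.h (1 + x * S.π ^ S.e) w = S.h (1 + y * S.π ^ S.e) w := by
    intro x y hx hy hxy w hw
    refine h_close S (hu x hx).1 (hu y hy).1 (hu y hy).2 ?_ hw
    have h1 : x * S.π ^ S.e - y * S.π ^ S.e = S.π ^ S.e * (x - y) := by ring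
    rw [h1]
    exact gz_mul_gz S hpe ((res_eq_iff S x y hx hy).mp hxy)
  have hlin : ∀ x, 0 ≤ S.v x → ∀ w, w ≠ 0 →
      S.h (1 + x * S.π ^ S.e) w = S.h (1 + x * S.π ^ S.e) S.π * (S.v w : ZMod p) := by
    intro x hx w hw
    rw [ortho S _ (hu x hx).1 (fun w hw => level_e S _ _ (hun x hx) hw) w hw, mul_comm]
  refine ⟨fun a => S.h (1 + r a * S.π ^ S.e) S.π, fun a b => ?_, ?_, fun x hx w hw => ?_⟩
  · have h1 : S.h (1 + r (a + b) * S.π ^ S.e) S.π = S.h (1 + (r a + r b) * S.π ^ S.e) S.π := by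
      refine hwd _ _ (hr0 _) (int_add S (hr0 _) (hr0 _)) ?_ _ S.pi_ne
      rw [hr1, S.res_add _ _ (hr0 _) (hr0 _), hr1, hr1]
    have h2 : S.h ((1 + r a * S.π ^ S.e) * (1 + r b * S.π ^ S.e)) S.π =
        S.h (1 + (r a + r b) * S.π ^ S.e) S.π := by
      have h3 : (1 + r a * S.π ^ S.e) * (1 + r b * S.π ^ S.e) =
        1 + ((r a + r b) * S.π ^ S.e + (r a * S.π ^ S.e) * (r b * S.π ^ S.e)) := by ring
      have h4 := mul_ne_zero (hu _ (hr0 a)).1 (hu _ (hr0 b)).1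
      rw [h3] at h4 ⊢
      refine h_close S h4 (hu _ (int_add S (hr0 _) (hr0 _))).1
        (hu _ (int_add S (hr0 _) (hr0 _))).2 ?_ S.pi_ne
      rw [add_sub_cancel_left]
      exact gz_mono S (by omega) (gz_mul_gz S (hg _ (hr0 a)) (hg _ (hr0 b)))
    simp only
    rw [h1, ← h2, S.h_mul_left _ _ _ (hu _ (hr0 a)).1 (hu _ (hr0 b)).1 S.pi_ne]
  · obtain ⟨u, hu0, hu1, hu2⟩ := S.top
    have hpn : S.π ^ S.e ≠ 0 := pow_ne_zero _ S.pi_ne
    have ha0 : u - 1 ≠ 0 := by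
      intro h
      rw [h, S.v_zero] at hu1
      omega
    have hx0 : 0 ≤ S.v ((u - 1) / S.π ^ S.e) := by
      rw [v_div S _ _ ha0 hpn, hu1, gz_pi]
      omega
    have hux : 1 + (u - 1) / S.π ^ S.e * S.π ^ S.e = u := by
      rw [div_mul_cancel₀ _ hpn]
      ring
    refine ⟨S.res ((u - 1) / S.π ^ S.e), fun h => hu2 ?_⟩
    simp only at h
    refine S.ndg u hu0 fun w hw => ?_
    have h1 := hwd _ _ (hr0 (S.res ((u - 1) / S.π ^ S.e))) hx0 (hr1 _) S.π S.pi_ne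
    have h2 := hlin _ hx0 w hw
    rw [← h1, h, zero_mul, hux] at h2
    exact h2
  · have h1 := hwd _ _ (hr0 (S.res x)) hx (hr1 _) S.π S.pi_ne
    rw [hlin x hx w hw, ← h1]

end SymAux

open SymAux in
theorem stSym : StSym := by
  intro p _ L F _ _ S
  refine ⟨anti S, fun x y _ hx hy _ => eqv_iff S x y hx hy, fun x n hx => v_zpow S x hx n, ?_,
    fun x u hx hu => ⟨h_un_right S hu hx, h_un_left S hu hx⟩, exists_omega S, level_e S,
    exists_l S, ?_⟩
  · rintro x y hx hy ⟨z, hz, rfl⟩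
    rw [S.v_mul _ _ hy (pow_ne_zero _ hz), v_pow S z hz, add_sub_cancel_left]
    exact dvd_mul_right _ _
  · intro E hE h
    have he := S.two_le
    obtain ⟨l, -, ⟨a, ha⟩, hl⟩ := exists_l S
    obtain ⟨x, hx0, hx⟩ := S.res_surj a
    have hg : S.Gz S.e (x * S.π ^ S.e) := by
      rw [mul_comm]
      exact gz_mul S (Or.inr (gz_pi S _).ge) hx0
    have h1 : S.Un 2 (1 + x * S.π ^ S.e) :=
      (un_iff S 2 (by omega) _).mpr (gz_mono S (by omega) hg)
    have h2 := h _ h1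
    rw [anti S _ _ hE h1.1, hl x hx0 E hE, hx, neg_eq_zero, mul_eq_zero] at h2
    have h3 := h2.resolve_left ha
    refine ⟨?_, (ZMod.intCast_zmod_eq_zero_iff_dvd _ _).mp h3⟩
    rw [anti S _ _ hE S.om_ne, S.h_omega E hE, h3, neg_zero]

end Pool.Agent.Lib.MP_c385f6_ag.Cpl
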