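import Mathlib
import Pool.Agent.Lib.MP_c385f6_ag.Cpl.StCof
import Pool.Agent.Lib.MP_c385f6_ag.Cpl.Sym
import Pool.Agent.Lib.MP_c385f6_ag.Cpl.NrTrans

set_option autoImplicit false

/-!
The norm of the value at a point which is not too close to `y`.
-/

namespace Pool.Agent.Lib.MP_c385f6_ag.Cpl

open SymAux

/-- classes which are orthogonal to the cross ratios are orthogonal to the smaller field -/
theorem far_orth (hGen : StGen) {p : ℕ} [hp : Fact p.Prime] {L F E E' : Type} [iL : Field L]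
    [iF : Field F] [iE : Field E] [iE' : Field E'] [iA : Algebra L F] (S : LF p L E)
    (S' : LF p F E') {r : ℕ} (hr : 1 ≤ r) (hv : ∀ x : L, S'.v (algebraMap L F x) = r * S.v x)
    (he : S'.e ≤ r * S.e) {T : Set L} {m : ℤ} (hT : S.Net T m) {y : L} {τ : F}
    (hyτ : algebraMap L F y ≠ τ)
    (hd : S'.dl (algebraMap L F y) τ ≤ r * (m - 2 * S.e - 3)) {g : F} (hg : g ≠ 0)
    (h : ∀ t ∈ T, ∀ u ∈ T, y ≠ t → y ≠ u → algebraMap L F t ≠ τ → algebraMap L F u ≠ τ →
      S'.h (algebraMap L F ((y - t) / (y - u)) *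
        ((τ - algebraMap L F u) / (τ - algebraMap L F t))) g = 0) {x : L} (hx : x ≠ 0) :
    S'.h (algebraMap L F x) g = 0 := by
  have hinj : ∀ z : L, z ≠ 0 → algebraMap L F z ≠ 0 := fun z hz => (map_ne_zero _).2 hz
  -- small valuations
  have h1 : ∀ x : L, x ≠ 0 → 0 ≤ S.v x → S.v x ≤ 1 → S'.h (algebraMap L F x) g = 0 := by
    intro x hx h0 h1
    obtain ⟨t, ht, u, hu, hyt, hyu, htτ, huτ, z, hz, hz'⟩ := hGen p hp L F E E' iL iF iE iE' iA S S'
      r hr hv he T m hT y τ hyτ hd x hx h0 h1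
    have h2 := h t ht u hu hyt hyu htτ huτ
    rw [hz', S'.h_mul_left _ _ _ (hinj x hx) (pow_ne_zero _ hz) hg, h_pow_p_left S' z g hz hg,
      add_zero] at h2
    exact h2
  -- powers of the uniformizer
  have h2 : ∀ n : ℕ, S'.h (algebraMap L F (S.π ^ n)) g = 0 := by
    intro n
    rw [map_pow, h_pow_left S' _ _ (hinj _ S.pi_ne) hg, h1 _ S.pi_ne (by rw [S.v_pi]; omega)
      (by rw [S.v_pi]), mul_zero]
  have h3 : ∀ n : ℤ, S'.h (algebraMap L F (S.π ^ n)) g = 0 := by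
    intro n
    obtain ⟨m, rfl | rfl⟩ := n.eq_nat_or_neg
    · rw [zpow_natCast]
      exact h2 m
    · rw [zpow_neg, zpow_natCast, map_inv₀, h_inv_left S' _ _ (hinj _ (pow_ne_zero _ S.pi_ne)) hg,
        h2 m, neg_zero]
  have h4 : x = S.π ^ (S.v x) * (x / S.π ^ (S.v x)) := by
    rw [mul_div_cancel₀]
    exact zpow_ne_zero _ S.pi_ne
  have h5 : x / S.π ^ (S.v x) ≠ 0 := div_ne_zero hx (zpow_ne_zero _ S.pi_ne)
  have h6 : S.v (x / S.π ^ (S.v x)) = 0 := by
    rw [v_div S _ _ hx (zpow_ne_zero _ S.pi_ne), v_zpow S _ S.pi_ne, S.v_pi]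
    ring
  rw [h4, map_mul, S'.h_mul_left _ _ _ (hinj _ (zpow_ne_zero _ S.pi_ne)) (hinj _ h5) hg, h3,
    h1 _ h5 (by rw [h6]) (by rw [h6]; norm_num), add_zero]

/-- the norm of the value at a point which is not too close to `y` -/
theorem far_norm (hGen : StGen) {p : ℕ} [hp : Fact p.Prime] {L F E E' : Type} [iL : Field L]
    [iF : Field F] [iE : Field E] [iE' : Field E'] [iA : Algebra L F] [FiniteDimensional L F]
    (S : LF p L E)
    (S' : LF p F E') {r : ℕ} (hr : 1 ≤ r) (hv : ∀ x : L, S'.v (algebraMap L F x) = r * S.v x)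
    (he : S'.e ≤ r * S.e) (hN : ∀ x y, x ≠ 0 → y ≠ 0 → (S.h x y = 0 ↔ NR p x y))
    (hN' : ∀ x y, x ≠ 0 → y ≠ 0 → (S'.h x y = 0 ↔ NR p x y))
    {T : Set L} {m : ℤ} (hT : S.Net T m) {y : L} {τ : F}
    (hyτ : algebraMap L F y ≠ τ)
    (hd : S'.dl (algebraMap L F y) τ ≤ r * (m - 2 * S.e - 3)) {D : L → L} {G : F}
    (hD : ∀ t ∈ T, D t ≠ 0) (hG : G ≠ 0) (hyT : ∀ t ∈ T, y ≠ t)
    (hval : ∀ t ∈ T, ∀ u ∈ T, Eqv p (D t / D u) ((y - t) / (y - u)))
    (hrel : ∀ t ∈ T, ∀ u ∈ T, t ≠ u → algebraMap L F t ≠ τ → algebraMap L F u ≠ τ →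
      NR p (algebraMap L F (D t / D u) * ((τ - algebraMap L F u) / (τ - algebraMap L F t)))
        (G / algebraMap L F (D u) * (algebraMap L F (t - u) / (algebraMap L F t - τ))))
    {t₀ : L} (ht₀ : t₀ ∈ T) :
    Eqv p (Algebra.norm L G) (D t₀ ^ Module.finrank L F * Algebra.norm L (algebraMap L F y - τ) /
      (y - t₀) ^ Module.finrank L F) := by
  have hinj : ∀ z : L, z ≠ 0 → algebraMap L F z ≠ 0 := fun z hz => (map_ne_zero _).2 hz
  have hys : ∀ t ∈ T, y - t ≠ 0 := fun t ht => sub_ne_zero.2 (hyT t ht)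
  have hyτ' : algebraMap L F y - τ ≠ 0 := sub_ne_zero.2 hyτ
  set g : F := G / algebraMap L F (D t₀) * (algebraMap L F (y - t₀) / (algebraMap L F y - τ))
    with hgdef
  have hg : g ≠ 0 := mul_ne_zero (div_ne_zero hG (hinj _ (hD _ ht₀)))
    (div_ne_zero (hinj _ (hys _ ht₀)) hyτ')
  have key : ∀ t ∈ T, ∀ u ∈ T, y ≠ t → y ≠ u → algebraMap L F t ≠ τ → algebraMap L F u ≠ τ →
      S'.h (algebraMap L F ((y - t) / (y - u)) *
        ((τ - algebraMap L F u) / (τ - algebraMap L F t))) g = 0 := by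
    intro t ht u hu _ _ htτ huτ
    have htτ' : algebraMap L F t - τ ≠ 0 := sub_ne_zero.2 htτ
    have huτ' : algebraMap L F u - τ ≠ 0 := sub_ne_zero.2 huτ
    have htτ'' : τ - algebraMap L F t ≠ 0 := sub_ne_zero.2 (Ne.symm htτ)
    have huτ'' : τ - algebraMap L F u ≠ 0 := sub_ne_zero.2 (Ne.symm huτ)
    have hyt := hinj _ (hys t ht)
    have hyu := hinj _ (hys u hu)
    by_cases htu : t = u
    · subst htu
      rw [div_self (hys t ht), map_one, div_self htτ'', one_mul]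
      exact h_one_left S' g hg
    set A : F := algebraMap L F ((y - t) / (y - u)) *
        ((τ - algebraMap L F u) / (τ - algebraMap L F t)) with hA
    have hA0 : A ≠ 0 := mul_ne_zero (hinj _ (div_ne_zero (hys t ht) (hys u hu)))
      (div_ne_zero huτ'' htτ'')
    set B : F := (algebraMap L F y - τ) / algebraMap L F (y - u) *
        (algebraMap L F (t - u) / (algebraMap L F t - τ)) with hB
    have hB0 : B ≠ 0 := mul_ne_zero (div_ne_zero hyτ' hyu)
      (div_ne_zero (hinj _ (sub_ne_zero.2 htu)) htτ')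
    have hAB : A + B = 1 := by
      rw [hA, hB, map_div₀]
      rw [map_sub] at hyt hyu ⊢
      rw [map_sub, map_sub]
      field_simp
      ring
    have hst := S'.steinberg A B hA0 hB0 hAB
    -- the relation
    obtain ⟨z, hz, hz'⟩ := hval t ht u hu
    obtain ⟨z₁, hz₁, hz₁'⟩ := hval u hu t₀ ht₀
    have e1 : algebraMap L F (D t / D u) * ((τ - algebraMap L F u) / (τ - algebraMap L F t)) =
        A * (algebraMap L F z) ^ p := by
      rw [hz', hA, map_mul, map_pow]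
      ring
    have e2 : G / algebraMap L F (D u) * (algebraMap L F (t - u) / (algebraMap L F t - τ)) =
        g * B / (algebraMap L F z₁) ^ p := by
      have hDu : D u = D t₀ * ((y - u) / (y - t₀) * z₁ ^ p) := by
        rw [← hz₁', mul_div_cancel₀ _ (hD _ ht₀)]
      have hy0 := hinj _ (hys t₀ ht₀)
      have hD0 := hinj _ (hD _ ht₀)
      have hz₁0 := hinj _ hz₁
      rw [hDu, hB, hgdef, map_mul, map_mul, map_div₀, map_pow]
      field_simp
    have h1 := hrel t ht u hu htu htτ huτ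
    rw [e1, e2] at h1
    have hzF := pow_ne_zero p (hinj _ hz)
    have hz₁F := pow_ne_zero p (hinj _ hz₁)
    rw [← hN' _ _ (mul_ne_zero hA0 hzF) (div_ne_zero (mul_ne_zero hg hB0) hz₁F),
      S'.h_mul_left _ _ _ hA0 hzF (div_ne_zero (mul_ne_zero hg hB0) hz₁F),
      h_pow_p_left S' _ _ (hinj _ hz) (div_ne_zero (mul_ne_zero hg hB0) hz₁F), add_zero,
      div_eq_mul_inv, S'.h_mul_right _ _ _ hA0 (mul_ne_zero hg hB0) (inv_ne_zero hz₁F),
      h_inv_right S' _ _ hA0 hz₁F, h_pow_p_right S' _ _ hA0 (hinj _ hz₁), neg_zero, add_zero,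
      S'.h_mul_right _ _ _ hA0 hg hB0, hst, add_zero] at h1
    exact h1
  have hNg : Algebra.norm L g ≠ 0 := Algebra.norm_ne_zero_iff.2 hg
  have hndg : ∀ x, x ≠ 0 → S.h (Algebra.norm L g) x = 0 := by
    intro x hx
    have h1 := far_orth hGen S S' hr hv he hT hyτ hd hg key hx
    rw [hN' _ _ (hinj _ hx) hg] at h1
    have h2 := (hN _ _ hx hNg).2 (nr_trans h1)
    rw [anti S _ _ hNg hx, h2, neg_zero]
  obtain ⟨z, hz⟩ := S.ndg _ hNg hndg
  refine ⟨z, ?_, ?_⟩
  · rintro rfl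
    rw [zero_pow hp.out.ne_zero] at hz
    exact hNg hz
  · have h1 : G * algebraMap L F (y - t₀) = g * algebraMap L F (D t₀) *
        (algebraMap L F y - τ) := by
      have hy0 := hinj _ (hys t₀ ht₀)
      have hD0 := hinj _ (hD _ ht₀)
      rw [hgdef]
      field_simp
    have h2 := congrArg (Algebra.norm L) h1
    rw [map_mul, map_mul, map_mul, Algebra.norm_algebraMap, Algebra.norm_algebraMap, hz] at h2
    have h3 := pow_ne_zero (Module.finrank L F) (hys t₀ ht₀)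
    rw [eq_div_of_mul_eq h3 h2]
    ring

end Pool.Agent.Lib.MP_c385f6_ag.Cpl
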