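import Mathlib
import Pool.Agent.Lib.MP_c385f6_ag.Cpl.Stmts

set_option autoImplicit false

/-!
Elementary properties of the chordal distance.
-/

namespace Pool.Agent.Lib.MP_c385f6_ag.Cpl

namespace ChordAux

variable {p : ℕ} {L F : Type*} [Field L] [Field F] (S : LF p L F)

theorem v_one : S.v 1 = 0 := by
  have h := S.v_mul 1 1 one_ne_zero one_ne_zero
  rw [mul_one] at h
  omega

theorem v_neg_one : S.v (-1) = 0 := by
  have h := S.v_mul (-1) (-1) (neg_ne_zero.2 one_ne_zero) (neg_ne_zero.2 one_ne_zero)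
  rw [neg_mul_neg, one_mul, v_one] at h
  omega

theorem v_neg (x : L) : S.v (-x) = S.v x := by
  by_cases hx : x = 0
  · rw [hx, neg_zero]
  · rw [← neg_one_mul, S.v_mul _ _ (neg_ne_zero.2 one_ne_zero) hx, v_neg_one, zero_add]

theorem v_sub_comm (x y : L) : S.v (x - y) = S.v (y - x) := by
  rw [← v_neg, neg_sub]

theorem v_inv (x : L) : S.v x⁻¹ = -S.v x := by
  by_cases hx : x = 0
  · rw [hx, inv_zero, S.v_zero, neg_zero]
  · have h := S.v_mul x x⁻¹ hx (inv_ne_zero hx)
    rw [mul_inv_cancel₀ hx, v_one] at h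
    omega

theorem v_div {x y : L} (hx : x ≠ 0) (hy : y ≠ 0) : S.v (x / y) = S.v x - S.v y := by
  rw [div_eq_mul_inv, S.v_mul _ _ hx (inv_ne_zero hy), v_inv]
  ring

theorem v_sub_ge {x y : L} (hx : x ≠ 0) (hy : y ≠ 0) (h : x ≠ y) :
    min (S.v x) (S.v y) ≤ S.v (x - y) := by
  have := S.v_add x (-y) hx (neg_ne_zero.2 hy) (by rw [← sub_eq_add_neg]; exact sub_ne_zero.2 h)
  rwa [v_neg, ← sub_eq_add_neg] at this

theorem ultra {x y z : L} (hxy : x ≠ y) (hyz : y ≠ z) (hxz : x ≠ z) :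
    min (S.v (x - y)) (S.v (y - z)) ≤ S.v (x - z) := by
  have h := S.v_add (x - y) (y - z) (sub_ne_zero.2 hxy) (sub_ne_zero.2 hyz)
    (by rw [sub_add_sub_cancel]; exact sub_ne_zero.2 hxz)
  rwa [sub_add_sub_cancel] at h

/-- the strict case -/
theorem v_sub_lt {x y : L} (hx : x ≠ 0) (h : y = 0 ∨ S.v x < S.v y) :
    S.v (x - y) = S.v x := by
  rcases h with rfl | h
  · rw [sub_zero]
  by_cases hy : y = 0
  · rw [hy, sub_zero]
  have hxy : x ≠ y := by
    rintro rfl
    exact lt_irrefl _ h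
  have h1 := v_sub_ge S hx hy hxy
  have h2 := S.v_add (x - y) y (sub_ne_zero.2 hxy) hy (by rw [sub_add_cancel]; exact hx)
  rw [sub_add_cancel] at h2
  rcases min_le_iff.1 h2 with h3 | h3
  · rcases min_le_iff.1 h1 with h4 | h4
    · omega
    · omega
  · omega

theorem v_zpow (n : ℤ) : S.v (S.π ^ n) = n := by
  have hpow : ∀ k : ℕ, S.v (S.π ^ k) = k := by
    intro k
    induction k with
    | zero => rw [pow_zero, v_one]; rfl
    | succ k ih =>
      rw [pow_succ, S.v_mul _ _ (pow_ne_zero _ S.pi_ne) S.pi_ne, ih, S.v_pi]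
      push_cast
      ring
  rcases Int.eq_nat_or_neg n with ⟨k, rfl | rfl⟩
  · rw [zpow_natCast, hpow]
  · rw [zpow_neg, v_inv, zpow_natCast, hpow]

theorem dl_comm (x y : L) : S.dl x y = S.dl y x := by
  unfold LF.dl
  rw [v_sub_comm S x y]
  ring

/-- points in different annuli -/
theorem dl_of_lt {x y : L} (h : min 0 (S.v x) < min 0 (S.v y)) :
    S.dl x y = -min 0 (S.v y) := by
  have h0 : S.v x < 0 := by omega
  have hx : x ≠ 0 := by
    rintro rfl
    rw [S.v_zero] at h0
    exact lt_irrefl _ h0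
  have h1 : S.v (x - y) = S.v x := by
    apply v_sub_lt S hx
    right
    omega
  unfold LF.dl
  rw [h1]
  omega

/-- points in the same annulus -/
theorem dl_of_eq {x y : L} (hxy : x ≠ y) (h : min 0 (S.v x) = min 0 (S.v y)) :
    -min 0 (S.v x) ≤ S.dl x y := by
  have h1 : min 0 (S.v x) ≤ S.v (x - y) := by
    by_cases hx : x = 0
    · rw [hx, zero_sub, v_neg, S.v_zero]
      rw [hx, S.v_zero] at h
      omega
    by_cases hy : y = 0
    · rw [hy, sub_zero]
      omega
    have := v_sub_ge S hx hy hxy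
    omega
  unfold LF.dl
  omega

theorem dl_nonneg {x y : L} (hxy : x ≠ y) : 0 ≤ S.dl x y := by
  rcases lt_trichotomy (min 0 (S.v x)) (min 0 (S.v y)) with h | h | h
  · rw [dl_of_lt S h]
    omega
  · have := dl_of_eq S hxy h
    omega
  · rw [dl_comm, dl_of_lt S h]
    omega

theorem dl_ultra {x y z : L} (hxy : x ≠ y) (hyz : y ≠ z) (hxz : x ≠ z) :
    min (S.dl x y) (S.dl y z) ≤ S.dl x z := by
  rcases lt_trichotomy (min 0 (S.v x)) (min 0 (S.v z)) with h | h | h
  · rw [dl_of_lt S h]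
    rcases lt_trichotomy (min 0 (S.v y)) (min 0 (S.v z)) with h' | h' | h'
    · rw [dl_of_lt S h']
      omega
    · rw [dl_of_lt S (show min 0 (S.v x) < min 0 (S.v y) by omega)]
      omega
    · rw [dl_comm S y z, dl_of_lt S h']
      omega
  · rcases lt_trichotomy (min 0 (S.v y)) (min 0 (S.v x)) with h' | h' | h'
    · have h1 := dl_of_eq S hxz h
      rw [dl_comm S x y, dl_of_lt S h']
      omega
    · have h1 := ultra S hxy hyz hxz
      unfold LF.dl
      omega
    · have h1 := dl_of_eq S hxz h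
      rw [dl_of_lt S h']
      omega
  · rw [dl_comm S x z, dl_of_lt S h]
    rcases lt_trichotomy (min 0 (S.v y)) (min 0 (S.v x)) with h' | h' | h'
    · rw [dl_comm S x y, dl_of_lt S h']
      omega
    · rw [dl_comm S y z, dl_of_lt S (show min 0 (S.v z) < min 0 (S.v y) by omega)]
      omega
    · rw [dl_of_lt S h']
      omega

theorem cl_trans {n : ℤ} {x y z : L} (h1 : S.Cl n x y) (h2 : S.Cl n y z) : S.Cl n x z := by
  by_cases hxz : x = z
  · exact Or.inl hxz
  by_cases hxy : x = y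
  · rw [hxy]; exact h2
  by_cases hyz : y = z
  · rw [← hyz]; exact h1
  have h3 := h1.resolve_left hxy
  have h4 := h2.resolve_left hyz
  have h5 := dl_ultra S hxy hyz hxz
  right
  omega

theorem exists_dl (y : L) {n : ℤ} (hn : 0 ≤ n) : ∃ x, x ≠ y ∧ S.dl y x = n := by
  have hpi : ∀ k : ℤ, S.π ^ k ≠ 0 := fun k => zpow_ne_zero k S.pi_ne
  rcases le_or_gt 0 (S.v y) with hy | hy
  · refine ⟨y + S.π ^ n, ?_, ?_⟩
    · intro h
      exact hpi n (by simpa using h)
    · have h1 : 0 ≤ S.v (y + S.π ^ n) := by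
        by_cases h0 : y = 0
        · rw [h0, zero_add, v_zpow]
          exact hn
        by_cases hs : y + S.π ^ n = 0
        · rw [hs, S.v_zero]
        have := S.v_add y (S.π ^ n) h0 (hpi n) hs
        rw [v_zpow] at this
        omega
      unfold LF.dl
      rw [v_sub_comm, add_sub_cancel_left, v_zpow]
      omega
  · have hy0 : y ≠ 0 := by
      rintro rfl
      rw [S.v_zero] at hy
      exact lt_irrefl _ hy
    rcases lt_trichotomy n (-S.v y) with h | h | h
    · have hv := v_zpow S (-n)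
      have hlt : min 0 (S.v y) < min 0 (S.v (S.π ^ (-n))) := by
        rw [hv]
        omega
      refine ⟨S.π ^ (-n), ?_, ?_⟩
      · intro h0
        rw [h0] at hlt
        exact lt_irrefl _ hlt
      · rw [dl_of_lt S hlt, hv]
        omega
    · have hv := v_zpow S (S.v y - 1)
      have hlt : min 0 (S.v (S.π ^ (S.v y - 1))) < min 0 (S.v y) := by
        rw [hv]
        omega
      refine ⟨S.π ^ (S.v y - 1), ?_, ?_⟩
      · intro h0
        rw [h0] at hlt
        exact lt_irrefl _ hlt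
      · rw [dl_comm, dl_of_lt S hlt]
        omega
    · have hv := v_zpow S (n + 2 * S.v y)
      have h1 : S.v (y + S.π ^ (n + 2 * S.v y)) = S.v y := by
        have := v_sub_lt S (x := y) (y := -S.π ^ (n + 2 * S.v y)) hy0 (by
          right
          rw [v_neg, hv]
          omega)
        rwa [sub_neg_eq_add] at this
      refine ⟨y + S.π ^ (n + 2 * S.v y), ?_, ?_⟩
      · intro h
        exact hpi _ (by simpa using h)
      · unfold LF.dl
        rw [v_sub_comm, add_sub_cancel_left, hv, h1]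
        omega

/-- three points in different classes -/
def pt (i : Fin 3) : L := if i = 0 then S.π⁻¹ else if i = 1 then 0 else 1

theorem exists_bad (y : L) : ∃ i : Fin 3, ∀ j, j ≠ i → y ≠ pt S j ∧ S.dl y (pt S j) = 0 := by
  have e0 : pt S 0 = S.π⁻¹ := rfl
  have e1 : pt S 1 = 0 := rfl
  have e2 : pt S 2 = 1 := rfl
  have hvpi : S.v S.π⁻¹ = -1 := by rw [v_inv, S.v_pi]
  have g0 : 0 ≤ S.v y → y ≠ S.π⁻¹ ∧ S.dl y S.π⁻¹ = 0 := by
    intro h
    have hlt : min 0 (S.v S.π⁻¹) < min 0 (S.v y) := by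
      rw [hvpi]
      omega
    refine ⟨?_, ?_⟩
    · rintro rfl
      exact lt_irrefl _ hlt
    · rw [dl_comm, dl_of_lt S hlt]
      omega
  have g1 : y ≠ 0 → S.v y ≤ 0 → y ≠ (0 : L) ∧ S.dl y 0 = 0 := by
    intro h0 h
    refine ⟨h0, ?_⟩
    unfold LF.dl
    rw [sub_zero, S.v_zero]
    omega
  have g2 : (y = 0 ∨ S.v y ≠ 0 ∨ (y ≠ 1 ∧ S.v (y - 1) = 0)) →
      y ≠ (1 : L) ∧ S.dl y 1 = 0 := by
    intro h
    rcases h with h | h | ⟨h, h'⟩
    · refine ⟨by rw [h]; exact zero_ne_one, ?_⟩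
      unfold LF.dl
      rw [h, zero_sub, v_neg, v_one, S.v_zero]
      omega
    · refine ⟨?_, ?_⟩
      · rintro rfl
        exact h (v_one S)
      · unfold LF.dl
        rw [v_one]
        have hy0 : y ≠ 0 := by
          rintro rfl
          exact h S.v_zero
        rcases lt_or_gt_of_ne h with h' | h'
        · rw [v_sub_lt S hy0 (Or.inr (by rw [v_one]; exact h'))]
          omega
        · rw [v_sub_comm, v_sub_lt S one_ne_zero (Or.inr (by rw [v_one]; exact h')), v_one]
          omega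
    · by_cases hv : S.v y = 0
      · refine ⟨h, ?_⟩
        unfold LF.dl
        rw [h', v_one, hv]
        omega
      · refine ⟨h, ?_⟩
        unfold LF.dl
        rw [h', v_one]
        have hy0 : y ≠ 0 := by
          rintro rfl
          exact hv S.v_zero
        rcases lt_or_gt_of_ne hv with h'' | h''
        · rw [v_sub_lt S hy0 (Or.inr (by rw [v_one]; exact h''))] at h'
          omega
        · omega
  rcases lt_or_ge (S.v y) 0 with h | h
  · -- the class at infinity
    have hy0 : y ≠ 0 := by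
      rintro rfl
      rw [S.v_zero] at h
      exact lt_irrefl _ h
    refine ⟨0, fun j hj => ?_⟩
    fin_cases j
    · exact absurd rfl hj
    · exact g1 hy0 h.le
    · exact g2 (Or.inr (Or.inl h.ne))
  · by_cases hb : y = 0 ∨ 0 < S.v y
    · refine ⟨1, fun j hj => ?_⟩
      fin_cases j
      · exact g0 h
      · exact absurd rfl hj
      · refine g2 ?_
        rcases hb with hb | hb
        · exact Or.inl hb
        · exact Or.inr (Or.inl hb.ne')
    · push Not at hb
      refine ⟨2, fun j hj => ?_⟩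
      fin_cases j
      · exact g0 h
      · exact g1 hb.1 hb.2
      · exact absurd rfl hj

theorem v_pt (i : Fin 3) (hi : i ≠ 0) : 0 ≤ S.v (pt S i) := by
  fin_cases i
  · exact absurd rfl hi
  · show 0 ≤ S.v 0
    rw [S.v_zero]
  · show 0 ≤ S.v 1
    rw [v_one]

theorem exists_third : ∀ i i' : Fin 3, ∃ j : Fin 3, j ≠ i ∧ j ≠ i' := by decide

theorem quot_eq {y y' s t : L} (h1 : y ≠ t) (h2 : y' ≠ s) :
    1 - (y - s) * (y' - t) / ((y - t) * (y' - s)) =
      (y - y') * (t - s) / ((y - t) * (y' - s)) := by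
  have h3 : y - t ≠ 0 := sub_ne_zero.2 h1
  have h4 : y' - s ≠ 0 := sub_ne_zero.2 h2
  field_simp
  ring

end ChordAux

open ChordAux

theorem stChord : StChord := by
  intro p _ L F _ _ S
  refine ⟨dl_comm S, fun x y h => dl_nonneg S h, fun n x y z h h' => cl_trans S h h',
    fun x y z h h' h'' => dl_ultra S h h' h'', fun y n hn => exists_dl S y hn, ?_, ?_, ?_, ?_⟩
  · intro y y'
    obtain ⟨i, hi⟩ := exists_bad S y
    obtain ⟨i', hi'⟩ := exists_bad S y'
    obtain ⟨j, hj, hj'⟩ := exists_third i i'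
    exact ⟨pt S j, (hi j hj).1.symm, (hi' j hj').1.symm, (hi j hj).2, (hi' j hj').2⟩
  · intro y
    obtain ⟨i, hi⟩ := exists_bad S y
    obtain ⟨j, hj, hj'⟩ := exists_third i 0
    exact ⟨pt S j, (hi j hj).1.symm, v_pt S j hj', (hi j hj).2⟩
  · intro y y' s t h1 h2 h3 h4
    have n1 : y - t ≠ 0 := sub_ne_zero.2 h1
    have n2 : y' - s ≠ 0 := sub_ne_zero.2 h2
    have n3 : y - y' ≠ 0 := sub_ne_zero.2 h3
    have n4 : t - s ≠ 0 := sub_ne_zero.2 h4
    rw [quot_eq h1 h2]
    refine ⟨div_ne_zero (mul_ne_zero n3 n4) (mul_ne_zero n1 n2), ?_⟩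
    rw [v_div S (mul_ne_zero n3 n4) (mul_ne_zero n1 n2), S.v_mul _ _ n3 n4, S.v_mul _ _ n1 n2]
    unfold LF.dl
    ring
  · intro y y' s t h1 h2 h3 h4
    have n1 : y - t ≠ 0 := sub_ne_zero.2 h1
    have n2 : y' - s ≠ 0 := sub_ne_zero.2 h2
    have n3 : y - s ≠ 0 := sub_ne_zero.2 h3
    have n4 : y' - t ≠ 0 := sub_ne_zero.2 h4
    rw [v_div S (mul_ne_zero n3 n4) (mul_ne_zero n1 n2), S.v_mul _ _ n3 n4, S.v_mul _ _ n1 n2]
    unfold LF.dl
    ring

end Pool.Agent.Lib.MP_c385f6_ag.Cpl
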