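import Mathlib
import Pool.Agent.Lib.MP_c385f6_ag.Cpl.StLoc

set_option autoImplicit false

/-!
Module (H): `p`-th powers of principal units of a local field with a primitive `p`-th root of
unity.
-/

namespace Pool.Agent.Lib.MP_c385f6_ag.Cpl

open Finset

namespace HensAux

section basic

variable {L : Type} [NormedField L] [IsUltrametricDist L]

lemma uadd {x y : L} {C : ℝ} (hx : ‖x‖ ≤ C) (hy : ‖y‖ ≤ C) : ‖x + y‖ ≤ C :=
  (IsUltrametricDist.norm_add_le_max x y).trans (max_le hx hy)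

lemma usub {x y : L} {C : ℝ} (hx : ‖x‖ ≤ C) (hy : ‖y‖ ≤ C) : ‖x - y‖ ≤ C := by
  rw [sub_eq_add_neg]
  exact uadd hx (by rwa [norm_neg])

lemma uadd_lt {x y : L} {C : ℝ} (hx : ‖x‖ < C) (hy : ‖y‖ < C) : ‖x + y‖ < C :=
  lt_of_le_of_lt (IsUltrametricDist.norm_add_le_max x y) (max_lt hx hy)

lemma usub_lt {x y : L} {C : ℝ} (hx : ‖x‖ < C) (hy : ‖y‖ < C) : ‖x - y‖ < C := by
  rw [sub_eq_add_neg]
  exact uadd_lt hx (by rwa [norm_neg])

lemma nat_le (n : ℕ) : ‖(n : L)‖ ≤ 1 := IsUltrametricDist.norm_natCast_le_one L n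

/-- The larger summand decides. -/
lemma norm_add_of_lt {x y : L} (h : ‖y‖ < ‖x‖) : ‖x + y‖ = ‖x‖ := by
  apply le_antisymm (uadd le_rfl h.le)
  by_contra hcon
  push Not at hcon
  have : ‖x + y - y‖ < ‖x‖ := usub_lt hcon h
  rw [add_sub_cancel_right] at this
  exact lt_irrefl _ this

lemma norm_of_sub_lt {x y : L} (h : ‖x - y‖ < ‖y‖) : ‖x‖ = ‖y‖ := by
  have := norm_add_of_lt h
  rwa [add_sub_cancel] at this

/-- The binomial formula. -/
lemma bin (p : ℕ) (hp : p.Prime) (a d : L) (ha : ‖a‖ ≤ 1) (hd : ‖d‖ ≤ 1) :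
    ∃ E : L, (a + d) ^ p = a ^ p + p * a ^ (p - 1) * d + d ^ p + E ∧
      ‖E‖ ≤ ‖(p : L)‖ * ‖d‖ ^ 2 := by
  have hp2 : 2 ≤ p := hp.two_le
  refine ⟨∑ k ∈ Ico 2 p, d ^ k * a ^ (p - k) * (p.choose k : L), ?_, ?_⟩
  · rw [add_comm a d, add_pow, Finset.sum_range_succ, Finset.range_eq_Ico,
      Finset.sum_eq_sum_Ico_succ_bot (by omega : 0 < p),
      Finset.sum_eq_sum_Ico_succ_bot (by omega : 0 + 1 < p)]
    simp only [pow_zero, Nat.sub_zero, one_mul, Nat.choose_zero_right, Nat.cast_one, mul_one,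
      zero_add, pow_one, Nat.choose_one_right, Nat.sub_self, Nat.choose_self]
    have e : (1 : ℕ) + 1 = 2 := rfl
    rw [e]
    ring
  · apply IsUltrametricDist.norm_sum_le_of_forall_le_of_nonneg (by positivity)
    intro k hk
    rw [Finset.mem_Ico] at hk
    obtain ⟨m, hm⟩ := hp.dvd_choose_self (by omega : k ≠ 0) hk.2
    rw [hm, norm_mul, norm_mul, norm_pow, norm_pow]
    push_cast
    rw [norm_mul]
    have h1 : ‖d‖ ^ k ≤ ‖d‖ ^ 2 := pow_le_pow_of_le_one (norm_nonneg d) hd hk.1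
    have h2 : ‖a‖ ^ (p - k) ≤ 1 := pow_le_one₀ (norm_nonneg a) ha
    have h3 : ‖(m : L)‖ ≤ 1 := nat_le m
    calc ‖d‖ ^ k * ‖a‖ ^ (p - k) * (‖(p : L)‖ * ‖(m : L)‖)
        ≤ ‖d‖ ^ 2 * 1 * (‖(p : L)‖ * 1) := by gcongr
      _ = ‖(p : L)‖ * ‖d‖ ^ 2 := by ring

/-- Products of congruent elements. -/
lemma prod_sub_le {ι : Type} (s : Finset ι) (f g : ι → L) (ε : ℝ) (hε : 0 ≤ ε)
    (hf : ∀ i ∈ s, ‖f i‖ ≤ 1) (hg : ∀ i ∈ s, ‖g i‖ ≤ 1) (hfg : ∀ i ∈ s, ‖f i - g i‖ ≤ ε) :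
    ‖∏ i ∈ s, f i - ∏ i ∈ s, g i‖ ≤ ε ∧ ‖∏ i ∈ s, f i‖ ≤ 1 ∧ ‖∏ i ∈ s, g i‖ ≤ 1 := by
  classical
  induction s using Finset.induction_on with
  | empty => simp [hε]
  | insert x s hx ih =>
    obtain ⟨h1, h2, h3⟩ := ih (fun i hi => hf i (Finset.mem_insert_of_mem hi))
      (fun i hi => hg i (Finset.mem_insert_of_mem hi))
      (fun i hi => hfg i (Finset.mem_insert_of_mem hi))
    have hfx := hf x (Finset.mem_insert_self x s)
    have hgx := hg x (Finset.mem_insert_self x s)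
    have hfgx := hfg x (Finset.mem_insert_self x s)
    rw [Finset.prod_insert hx, Finset.prod_insert hx]
    refine ⟨?_, ?_, ?_⟩
    · have e : f x * ∏ i ∈ s, f i - g x * ∏ i ∈ s, g i =
          (f x - g x) * ∏ i ∈ s, f i + g x * (∏ i ∈ s, f i - ∏ i ∈ s, g i) := by ring
      rw [e]
      apply uadd
      · rw [norm_mul]
        calc ‖f x - g x‖ * ‖∏ i ∈ s, f i‖ ≤ ε * 1 := by gcongr
          _ = ε := mul_one ε
      · rw [norm_mul]
        calc ‖g x‖ * ‖∏ i ∈ s, f i - ∏ i ∈ s, g i‖ ≤ 1 * ε := by gcongr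
          _ = ε := one_mul ε
    · rw [norm_mul]
      exact mul_le_one₀ hfx (norm_nonneg _) h2
    · rw [norm_mul]
      exact mul_le_one₀ hgx (norm_nonneg _) h3

/-- The number `1 - ζ`. -/
lemma lam (p : ℕ) (hp : p.Prime) (hpn : ‖(p : L)‖ < 1) (ζ : L) (hζ : IsPrimitiveRoot ζ p) :
    ‖1 - ζ‖ < 1 ∧ 1 - ζ ≠ 0 ∧ ‖(p : L)‖ = ‖1 - ζ‖ ^ (p - 1) ∧
      ‖(p : L) + (1 - ζ) ^ (p - 1)‖ ≤ ‖1 - ζ‖ ^ p := by
  have hp1 : 1 < p := hp.one_lt
  have hpp : p - 1 + 1 = p := by omega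
  have hne : 1 - ζ ≠ 0 := by
    intro h
    exact hζ.ne_one hp1 (sub_eq_zero.1 h).symm
  have hζn : ‖ζ‖ = 1 := by
    have h1 : ‖ζ‖ ^ p = 1 := by rw [← norm_pow, hζ.pow_eq_one, norm_one]
    exact (pow_eq_one_iff_of_nonneg (norm_nonneg ζ) (by omega)).1 h1
  have hl1 : ‖1 - ζ‖ ≤ 1 := usub (by rw [norm_one]) hζn.le
  -- the quotients
  set g : ℕ → L := fun k => ∑ j ∈ range (k + 1), ζ ^ j with hg
  have hgl : ∀ k, (1 - ζ) * g k = 1 - ζ ^ (k + 1) := fun k => mul_neg_geom_sum ζ (k + 1)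
  have hpow : ∀ j : ℕ, ‖ζ ^ j - 1‖ ≤ ‖1 - ζ‖ := by
    intro j
    have e : ζ ^ j - 1 = -((1 - ζ) * ∑ i ∈ range j, ζ ^ i) := by
      rw [mul_neg_geom_sum]; ring
    rw [e, norm_neg, norm_mul]
    have : ‖∑ i ∈ range j, ζ ^ i‖ ≤ 1 := by
      apply IsUltrametricDist.norm_sum_le_of_forall_le_of_nonneg zero_le_one
      intro i _
      rw [norm_pow, hζn, one_pow]
    calc ‖1 - ζ‖ * ‖∑ i ∈ range j, ζ ^ i‖ ≤ ‖1 - ζ‖ * 1 := by gcongr
      _ = ‖1 - ζ‖ := mul_one _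
  have hg1 : ∀ k, ‖g k‖ ≤ 1 := by
    intro k
    apply IsUltrametricDist.norm_sum_le_of_forall_le_of_nonneg zero_le_one
    intro i _
    rw [norm_pow, hζn, one_pow]
  have hgk : ∀ k, ‖g k - ((k + 1 : ℕ) : L)‖ ≤ ‖1 - ζ‖ := by
    intro k
    have e : g k - ((k + 1 : ℕ) : L) = ∑ j ∈ range (k + 1), (ζ ^ j - 1) := by
      rw [Finset.sum_sub_distrib, hg]
      simp
    rw [e]
    apply IsUltrametricDist.norm_sum_le_of_forall_le_of_nonneg (norm_nonneg _)
    intro i _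
    exact hpow i
  -- the product formula
  have hprod : (p : L) = (1 - ζ) ^ (p - 1) * ∏ k ∈ range (p - 1), g k := by
    have h1 : IsPrimitiveRoot ζ (p - 1 + 1) := by rw [hpp]; exact hζ
    have h2 := h1.prod_one_sub_pow_eq_order
    have h3 : ((p - 1 : ℕ) : L) + 1 = p := by
      have : ((p - 1 + 1 : ℕ) : L) = p := by rw [hpp]
      rw [← this]
      push_cast
      rfl
    rw [h3] at h2
    rw [← h2]
    have h4 : ∀ k ∈ range (p - 1), 1 - ζ ^ (k + 1) = (1 - ζ) * g k := fun k _ => (hgl k).symm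
    rw [Finset.prod_congr rfl h4, Finset.prod_mul_distrib, Finset.prod_const, Finset.card_range]
  obtain ⟨hq1, hq2, -⟩ := prod_sub_le (range (p - 1)) g (fun k => ((k + 1 : ℕ) : L)) ‖1 - ζ‖
    (norm_nonneg _) (fun k _ => hg1 k) (fun k _ => nat_le _) (fun k _ => hgk k)
  have hfac : ∏ k ∈ range (p - 1), ((k + 1 : ℕ) : L) = (((p - 1).factorial : ℕ) : L) := by
    rw [← Finset.prod_range_add_one_eq_factorial]
    push_cast
    rfl
  have hwil : ∃ m : ℕ, (p - 1).factorial + 1 = p * m := by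
    have : Fact p.Prime := ⟨hp⟩
    have h1 := ZMod.wilsons_lemma p
    have h2 : (((p - 1).factorial + 1 : ℕ) : ZMod p) = 0 := by
      push_cast
      rw [h1]
      ring
    exact (ZMod.natCast_eq_zero_iff _ _).1 h2
  obtain ⟨m, hm⟩ := hwil
  have hpl : ‖(p : L)‖ ≤ ‖1 - ζ‖ := by
    rw [hprod, norm_mul, norm_pow]
    calc ‖1 - ζ‖ ^ (p - 1) * ‖∏ k ∈ range (p - 1), g k‖ ≤ ‖1 - ζ‖ ^ 1 * 1 := by
          apply mul_le_mul _ hq2 (norm_nonneg _) (by positivity)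
          exact pow_le_pow_of_le_one (norm_nonneg _) hl1 (by omega)
      _ = ‖1 - ζ‖ := by rw [pow_one, mul_one]
  have hG : ‖∏ k ∈ range (p - 1), g k + 1‖ ≤ ‖1 - ζ‖ := by
    have e : ∏ k ∈ range (p - 1), g k + 1 =
        (∏ k ∈ range (p - 1), g k - ∏ k ∈ range (p - 1), ((k + 1 : ℕ) : L)) + (p : L) * m := by
      have h1 : (((p - 1).factorial + 1 : ℕ) : L) = ((p * m : ℕ) : L) := by rw [hm]
      push_cast at h1
      rw [hfac]
      linear_combination h1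
    rw [e]
    apply uadd hq1
    rw [norm_mul]
    calc ‖(p : L)‖ * ‖(m : L)‖ ≤ ‖1 - ζ‖ * 1 := by
          apply mul_le_mul hpl (nat_le m) (norm_nonneg _) (norm_nonneg _)
      _ = ‖1 - ζ‖ := mul_one _
  -- the norm is less than one
  have hl : ‖1 - ζ‖ < 1 := by
    by_contra hcon
    push Not at hcon
    have hl' : ‖1 - ζ‖ = 1 := le_antisymm hl1 hcon
    -- every `1 - ζ ^ (k + 1)` has norm one
    have h1 : ∀ k ∈ range (p - 1), ‖g k‖ = 1 := by
      intro k hk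
      rw [Finset.mem_range] at hk
      have hcop : Nat.Coprime (k + 1) p := by
        rw [Nat.coprime_comm]
        exact (Nat.Prime.coprime_iff_not_dvd hp).2 fun hd => by
          have := Nat.le_of_dvd (by omega) hd
          omega
      obtain ⟨j, hj⟩ : ∃ j : ℕ, (k + 1) * j % p = 1 := by
        obtain ⟨j, hj⟩ := Nat.exists_mul_mod_eq_one_of_coprime hcop hp1
        exact ⟨j, hj.2⟩
      have h2 : ζ = (ζ ^ (k + 1)) ^ j := by
        rw [← pow_mul]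
        have h3 : ζ ^ ((k + 1) * j) = ζ ^ ((k + 1) * j % p) := by
          conv_lhs => rw [← Nat.mod_add_div ((k + 1) * j) p]
          rw [pow_add, pow_mul, hζ.pow_eq_one, one_pow, mul_one]
        rw [h3, hj, pow_one]
      have h4 : ‖1 - ζ‖ ≤ ‖1 - ζ ^ (k + 1)‖ := by
        conv_lhs => rw [h2]
        rw [← mul_neg_geom_sum, norm_mul]
        have h5 : ‖∑ i ∈ range j, (ζ ^ (k + 1)) ^ i‖ ≤ 1 := by
          apply IsUltrametricDist.norm_sum_le_of_forall_le_of_nonneg zero_le_one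
          intro i _
          rw [norm_pow, norm_pow, hζn, one_pow, one_pow]
        calc ‖1 - ζ ^ (k + 1)‖ * ‖∑ i ∈ range j, (ζ ^ (k + 1)) ^ i‖
            ≤ ‖1 - ζ ^ (k + 1)‖ * 1 := by gcongr
          _ = ‖1 - ζ ^ (k + 1)‖ := mul_one _
      rw [← hgl k, norm_mul, hl', one_mul] at h4
      exact le_antisymm (hg1 k) h4
    have h2 : ‖(p : L)‖ = 1 := by
      rw [hprod, norm_mul, norm_pow, hl', one_pow, one_mul, norm_prod,
        Finset.prod_congr rfl h1, Finset.prod_const_one]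
    rw [h2] at hpn
    exact lt_irrefl _ hpn
  have hG1 : ‖∏ k ∈ range (p - 1), g k‖ = 1 := by
    have h1 : ‖∏ k ∈ range (p - 1), g k - (-1)‖ < ‖(-1 : L)‖ := by
      rw [sub_neg_eq_add, norm_neg, norm_one]
      exact lt_of_le_of_lt hG hl
    rw [norm_of_sub_lt h1, norm_neg, norm_one]
  refine ⟨hl, hne, ?_, ?_⟩
  · rw [hprod, norm_mul, norm_pow, hG1, mul_one]
  · have e : (p : L) + (1 - ζ) ^ (p - 1) =
        (1 - ζ) ^ (p - 1) * (∏ k ∈ range (p - 1), g k + 1) := by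
      conv_lhs => rw [hprod]
      ring
    rw [e, norm_mul, norm_pow]
    calc ‖1 - ζ‖ ^ (p - 1) * ‖∏ k ∈ range (p - 1), g k + 1‖
        ≤ ‖1 - ζ‖ ^ (p - 1) * ‖1 - ζ‖ := by gcongr
      _ = ‖1 - ζ‖ ^ p := by rw [← pow_succ, hpp]

/-- The `p`-th power of `1 + b λ`. -/
lemma level (p : ℕ) (hp : p.Prime) (lm : L) (hl : ‖lm‖ < 1)
    (hpn : ‖(p : L)‖ = ‖lm‖ ^ (p - 1)) (hc : ‖(p : L) + lm ^ (p - 1)‖ ≤ ‖lm‖ ^ p)
    (b : L) (hb : ‖b‖ ≤ 1) :
    ‖(1 + b * lm) ^ p - 1 - (b ^ p - b) * lm ^ p‖ ≤ ‖lm‖ ^ (p + 1) := by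
  have hp1 : 1 < p := hp.one_lt
  have hpp : p - 1 + 1 = p := by omega
  have hbl : ‖b * lm‖ ≤ ‖lm‖ := by
    rw [norm_mul]
    calc ‖b‖ * ‖lm‖ ≤ 1 * ‖lm‖ := by gcongr
      _ = ‖lm‖ := one_mul _
  obtain ⟨E, hE, hEn⟩ := bin p hp (1 : L) (b * lm) (by rw [norm_one]) (hbl.trans hl.le)
  have hlp : lm ^ p = lm ^ (p - 1) * lm := by rw [← pow_succ, hpp]
  have e : (1 + b * lm) ^ p - 1 - (b ^ p - b) * lm ^ p =
      b * lm * ((p : L) + lm ^ (p - 1)) + E := by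
    rw [hE, one_pow, one_pow, mul_pow, hlp]
    ring
  rw [e]
  apply uadd
  · rw [norm_mul, pow_succ', mul_comm ‖lm‖]
    calc ‖b * lm‖ * ‖(p : L) + lm ^ (p - 1)‖ ≤ ‖lm‖ * ‖lm‖ ^ p := by gcongr
      _ = ‖lm‖ ^ p * ‖lm‖ := by ring
  · refine hEn.trans ?_
    rw [hpn]
    calc ‖lm‖ ^ (p - 1) * ‖b * lm‖ ^ 2 ≤ ‖lm‖ ^ (p - 1) * ‖lm‖ ^ 2 := by gcongr
      _ = ‖lm‖ ^ (p + 1) := by
        rw [← pow_add]
        congr 1
        omega

/-- Hensel's lemma: units which are close to `1` are `p`-th powers. -/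
lemma hens [CompleteSpace L] (p : ℕ) (hp : p.Prime) (lm : L) (hl : ‖lm‖ < 1) (hl0 : lm ≠ 0)
    (hpn : ‖(p : L)‖ = ‖lm‖ ^ (p - 1)) (u : L) (hu : ‖u - 1‖ < ‖lm‖ ^ p) :
    ∃ y : L, u = y ^ p := by
  have hp1 : 1 < p := hp.one_lt
  have hpp : p - 1 + 1 = p := by omega
  have hlpos : 0 < ‖lm‖ := norm_pos_iff.2 hl0
  have hlp : (lm ^ p : L) ≠ 0 := pow_ne_zero _ hl0
  have hp0 : (p : L) ≠ 0 := by
    intro h
    rw [h, norm_zero] at hpn
    exact absurd hpn.symm (pow_pos hlpos _).ne'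
  set u' : L := (u - 1) / lm ^ p with hu'
  set ρ : ℝ := ‖u'‖ with hρ
  have hρ1 : ρ < 1 := by
    rw [hρ, hu', norm_div, norm_pow, div_lt_one (pow_pos hlpos _)]
    exact hu
  have hρ0 : 0 ≤ ρ := norm_nonneg _
  -- the map
  set α : L := (p : L) / lm ^ (p - 1) with hα
  have hα1 : ‖α‖ = 1 := by
    rw [hα, norm_div, norm_pow, hpn]
    exact div_self (pow_pos hlpos _).ne'
  have hα0 : α ≠ 0 := by
    intro h
    rw [h, norm_zero] at hα1
    exact zero_ne_one hα1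
  set h : L → L := fun y => ((1 + lm * y) ^ p - 1 - p * (lm * y)) / lm ^ p with hh
  set T : L → L := fun y => (u' - h y) / α with hT
  have hlip : ∀ y z : L, ‖y‖ ≤ ρ → ‖z‖ ≤ ρ → ‖h y - h z‖ ≤ ρ * ‖y - z‖ := by
    intro y z hy hz
    have hyz : ‖y - z‖ ≤ ρ := usub hy hz
    set a : L := 1 + lm * z with ha
    set d : L := lm * (y - z) with hd
    have hlz : ‖lm * z‖ ≤ ‖lm‖ * ρ := by
      rw [norm_mul]
      gcongr
    have hlz1 : ‖lm * z‖ ≤ 1 := hlz.trans (mul_le_one₀ hl.le hρ0 hρ1.le)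
    have ha1 : ‖a‖ ≤ 1 := uadd (by rw [norm_one]) hlz1
    have hdn : ‖d‖ = ‖lm‖ * ‖y - z‖ := norm_mul _ _
    have hd1 : ‖d‖ ≤ 1 := by
      rw [hdn]
      exact mul_le_one₀ hl.le (norm_nonneg _) (hyz.trans hρ1.le)
    obtain ⟨E, hE, hEn⟩ := bin p hp a d ha1 hd1
    have had : a + d = 1 + lm * y := by rw [ha, hd]; ring
    rw [had] at hE
    have hgeo : ‖a ^ (p - 1) - 1‖ ≤ ‖lm‖ * ρ := by
      have e : a ^ (p - 1) - 1 = (lm * z) * ∑ i ∈ range (p - 1), a ^ i := by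
        have := mul_geom_sum a (p - 1)
        rw [← this, ha]
        ring
      rw [e, norm_mul]
      have h5 : ‖∑ i ∈ range (p - 1), a ^ i‖ ≤ 1 := by
        apply IsUltrametricDist.norm_sum_le_of_forall_le_of_nonneg zero_le_one
        intro i _
        rw [norm_pow]
        exact pow_le_one₀ (norm_nonneg _) ha1
      calc ‖lm * z‖ * ‖∑ i ∈ range (p - 1), a ^ i‖ ≤ (‖lm‖ * ρ) * 1 := by gcongr
        _ = ‖lm‖ * ρ := mul_one _
    have e1 : h y - h z = ((p : L) * (a ^ (p - 1) - 1) * d + d ^ p + E) / lm ^ p := by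
      rw [hh]
      simp only
      rw [hE, ← sub_div]
      congr 1
      rw [hd]
      ring
    rw [e1, norm_div, norm_pow, div_le_iff₀ (pow_pos hlpos _)]
    have hlmp : ‖lm‖ ^ p = ‖lm‖ ^ (p - 1) * ‖lm‖ := by rw [← pow_succ, hpp]
    apply uadd
    · apply uadd
      · rw [norm_mul, norm_mul, hpn, hdn, hlmp]
        calc ‖lm‖ ^ (p - 1) * ‖a ^ (p - 1) - 1‖ * (‖lm‖ * ‖y - z‖)
            ≤ ‖lm‖ ^ (p - 1) * (‖lm‖ * ρ) * (1 * ‖y - z‖) := by gcongr
          _ = ρ * ‖y - z‖ * (‖lm‖ ^ (p - 1) * ‖lm‖) := by ring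
      · rw [norm_pow, hdn, mul_pow]
        have h6 : ‖y - z‖ ^ p ≤ ρ * ‖y - z‖ := by
          have h7 : ‖y - z‖ ^ p = ‖y - z‖ ^ (p - 1) * ‖y - z‖ := by rw [← pow_succ, hpp]
          rw [h7]
          apply mul_le_mul_of_nonneg_right _ (norm_nonneg _)
          calc ‖y - z‖ ^ (p - 1) ≤ ‖y - z‖ ^ 1 :=
                pow_le_pow_of_le_one (norm_nonneg _) (hyz.trans hρ1.le) (by omega)
            _ ≤ ρ := by rw [pow_one]; exact hyz
        calc ‖lm‖ ^ p * ‖y - z‖ ^ p ≤ ‖lm‖ ^ p * (ρ * ‖y - z‖) := by gcongr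
          _ = ρ * ‖y - z‖ * ‖lm‖ ^ p := by ring
    · refine hEn.trans ?_
      rw [hpn, hdn, hlmp]
      calc ‖lm‖ ^ (p - 1) * (‖lm‖ * ‖y - z‖) ^ 2
          = ‖lm‖ ^ (p - 1) * ‖lm‖ * (‖lm‖ * (‖y - z‖ * ‖y - z‖)) := by ring
        _ ≤ ‖lm‖ ^ (p - 1) * ‖lm‖ * (1 * (ρ * ‖y - z‖)) := by gcongr
        _ = ρ * ‖y - z‖ * (‖lm‖ ^ (p - 1) * ‖lm‖) := by ring
  have h0 : h 0 = 0 := by
    rw [hh]
    simp
  have hhy : ∀ y : L, ‖y‖ ≤ ρ → ‖h y‖ ≤ ρ := by
    intro y hy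
    have := hlip y 0 hy (by rw [norm_zero]; exact hρ0)
    rw [h0, sub_zero, sub_zero] at this
    calc ‖h y‖ ≤ ρ * ‖y‖ := this
      _ ≤ ρ * 1 := by
        apply mul_le_mul_of_nonneg_left (hy.trans hρ1.le) hρ0
      _ = ρ := mul_one ρ
  have hmaps : Set.MapsTo T (Metric.closedBall 0 ρ) (Metric.closedBall 0 ρ) := by
    intro y hy
    rw [mem_closedBall_zero_iff] at hy ⊢
    rw [hT]
    simp only
    rw [norm_div, hα1, div_one]
    exact usub le_rfl (hhy y hy)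
  have hcontr : ContractingWith ⟨ρ, hρ0⟩ (hmaps.restrict T _ _) := by
    refine ⟨by exact_mod_cast hρ1, ?_⟩
    refine LipschitzWith.of_dist_le_mul fun y z => ?_
    have hy := mem_closedBall_zero_iff.1 y.2
    have hz := mem_closedBall_zero_iff.1 z.2
    change dist (T y) (T z) ≤ ρ * dist (y : L) z
    rw [dist_eq_norm, dist_eq_norm, hT]
    simp only
    rw [← sub_div, norm_div, hα1, div_one]
    have e : u' - h y - (u' - h z) = -(h y - h z) := by ring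
    rw [e, norm_neg]
    exact hlip y z hy hz
  obtain ⟨y, -, hy, -⟩ := ContractingWith.exists_fixedPoint'
    (Metric.isClosed_closedBall.isComplete) hmaps hcontr
    (Metric.mem_closedBall_self hρ0) (edist_ne_top _ _)
  refine ⟨1 + lm * y, ?_⟩
  have h1 : α * y = u' - h y := by
    have h2 : (u' - h y) / α = y := hy
    rw [← h2]
    field_simp
    rw [h2]
  have h3 : lm ^ p = lm ^ (p - 1) * lm := by rw [← pow_succ, hpp]
  have h4 : lm ^ p * (α * y) = p * (lm * y) := by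
    rw [hα, h3]
    field_simp
  have h5 : lm ^ p * (u' - h y) = (u - 1) - ((1 + lm * y) ^ p - 1 - p * (lm * y)) := by
    rw [hu', hh]
    simp only
    field_simp
  rw [h1, h5] at h4
  linear_combination h4

/-- The roots of `p`-th powers which are close to `1`. -/
lemma root_level (p : ℕ) (hp : p.Prime) (lm : L) (hl : ‖lm‖ < 1) (hl0 : lm ≠ 0)
    (hpn : ‖(p : L)‖ = ‖lm‖ ^ (p - 1)) (y : L) (hy : ‖y ^ p - 1‖ < 1) :
    ‖y - 1‖ < 1 ∧ (‖lm‖ < ‖y - 1‖ → ‖y ^ p - 1‖ = ‖y - 1‖ ^ p) ∧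
      (‖y - 1‖ ≤ ‖lm‖ → ‖y ^ p - 1‖ ≤ ‖lm‖ ^ p) := by
  have hp1 : 1 < p := hp.one_lt
  have hpp : p - 1 + 1 = p := by omega
  have hlpos : 0 < ‖lm‖ := norm_pos_iff.2 hl0
  have hyn : ‖y‖ = 1 := by
    have h1 : ‖y ^ p‖ = 1 := by
      have := norm_of_sub_lt (x := y ^ p) (y := (1 : L)) (by rwa [norm_one])
      rw [this, norm_one]
    rw [norm_pow] at h1
    exact (pow_eq_one_iff_of_nonneg (norm_nonneg y) (by omega)).1 h1
  have hb1 : ‖y - 1‖ ≤ 1 := usub hyn.le (by rw [norm_one])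
  obtain ⟨E, hE, hEn⟩ := bin p hp (1 : L) (y - 1) (by rw [norm_one]) hb1
  rw [add_sub_cancel, one_pow, one_pow, mul_one] at hE
  have hpl1 : ‖(p : L)‖ < 1 := by
    rw [hpn]
    exact pow_lt_one₀ hlpos.le hl (by omega)
  have e1 : y ^ p - 1 = (y - 1) ^ p + (p * (y - 1) + E) := by rw [hE]; ring
  have hE1 : ‖E‖ ≤ ‖(p : L)‖ * ‖y - 1‖ := by
    refine hEn.trans ?_
    apply mul_le_mul_of_nonneg_left _ (norm_nonneg _)
    calc ‖y - 1‖ ^ 2 = ‖y - 1‖ * ‖y - 1‖ := by ring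
      _ ≤ 1 * ‖y - 1‖ := by gcongr
      _ = ‖y - 1‖ := one_mul _
  have hR : ‖(p : L) * (y - 1) + E‖ ≤ ‖(p : L)‖ * ‖y - 1‖ :=
    uadd (by rw [norm_mul]) hE1
  refine ⟨?_, ?_, ?_⟩
  · have h2 : ‖(y - 1) ^ p‖ < 1 := by
      have e2 : (y - 1) ^ p = (y ^ p - 1) - (p * (y - 1) + E) := by rw [e1]; ring
      rw [e2]
      apply usub_lt hy
      refine lt_of_le_of_lt hR ?_
      calc ‖(p : L)‖ * ‖y - 1‖ ≤ ‖(p : L)‖ * 1 := by gcongr
        _ < 1 := by rw [mul_one]; exact hpl1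
    rw [norm_pow] at h2
    by_contra hcon
    push Not at hcon
    exact absurd (one_le_pow₀ hcon) (not_le.2 h2)
  · intro hlt
    rw [e1, ← norm_pow]
    apply norm_add_of_lt
    refine lt_of_le_of_lt hR ?_
    rw [norm_pow, hpn]
    have hpos : 0 < ‖y - 1‖ := hlpos.trans hlt
    calc ‖lm‖ ^ (p - 1) * ‖y - 1‖ < ‖y - 1‖ ^ (p - 1) * ‖y - 1‖ := by
          apply mul_lt_mul_of_pos_right _ hpos
          exact pow_lt_pow_left₀ hlt hlpos.le (by omega)
      _ = ‖y - 1‖ ^ p := by rw [← pow_succ, hpp]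
  · intro hle
    rw [e1]
    apply uadd
    · rw [norm_pow]
      exact pow_le_pow_left₀ (norm_nonneg _) hle p
    · refine hR.trans ?_
      rw [hpn]
      calc ‖lm‖ ^ (p - 1) * ‖y - 1‖ ≤ ‖lm‖ ^ (p - 1) * ‖lm‖ := by gcongr
        _ = ‖lm‖ ^ p := by rw [← pow_succ, hpp]

end basic

/-! ### Valuation and norm -/

section val

variable {p : ℕ} {L F : Type} [NormedField L] [Field F] (V : VD p L F)

lemma le_v_iff {x : L} (hx : x ≠ 0) (k : ℤ) : k ≤ V.v x ↔ ‖x‖ ≤ V.c ^ (-k) := by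
  rw [V.norm_eq x hx, zpow_le_zpow_iff_right₀ V.one_lt]
  constructor <;> intro h <;> linarith

lemma v_int_iff (x : L) : 0 ≤ V.v x ↔ ‖x‖ ≤ 1 := by
  by_cases hx : x = 0
  · subst hx
    rw [V.v_zero, norm_zero]
    simp
  · rw [le_v_iff V hx 0]
    simp

lemma v_eq_iff {x y : L} (hx : x ≠ 0) (hy : y ≠ 0) : ‖x‖ = ‖y‖ ↔ V.v x = V.v y := by
  rw [V.norm_eq x hx, V.norm_eq y hy]
  constructor
  · intro h
    have := (zpow_right_injective₀ (zero_lt_one.trans V.one_lt) V.one_lt.ne') h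
    simpa using this
  · intro h
    rw [h]

lemma c_pos : 0 < V.c := zero_lt_one.trans V.one_lt

lemma norm_lt_iff {x y : L} (hx : x ≠ 0) (hy : y ≠ 0) : ‖x‖ < ‖y‖ ↔ V.v y < V.v x := by
  rw [V.norm_eq x hx, V.norm_eq y hy, zpow_lt_zpow_iff_right₀ V.one_lt]
  constructor <;> intro h <;> linarith

lemma v_pow {x : L} (hx : x ≠ 0) (n : ℕ) : V.v (x ^ n) = n * V.v x := by
  have h1 : ‖x ^ n‖ = V.c ^ (-(n * V.v x : ℤ)) := by
    rw [norm_pow, V.norm_eq x hx, ← zpow_natCast, ← zpow_mul]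
    congr 1
    ring
  rw [V.norm_eq _ (pow_ne_zero n hx)] at h1
  have := (zpow_right_injective₀ (c_pos V) V.one_lt.ne') h1
  simpa using this

lemma res_zero' : V.res 0 = 0 := (V.res_zero 0 (by rw [V.v_zero])).2 (Or.inl rfl)

lemma res_neg [IsUltrametricDist L] (x : L) (hx : 0 ≤ V.v x) : V.res (-x) = -V.res x := by
  have hx' : 0 ≤ V.v (-x) := by
    rw [v_int_iff, norm_neg, ← v_int_iff V]
    exact hx
  have h1 := V.res_add x (-x) hx hx'
  rw [add_neg_cancel, res_zero'] at h1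
  linear_combination -h1

lemma res_pow (x : L) (hx : 0 ≤ V.v x) (n : ℕ) : V.res (x ^ n) = V.res x ^ n := by
  induction n with
  | zero => rw [pow_zero, pow_zero, V.res_one]
  | succ n ih =>
    have h1 : 0 ≤ V.v (x ^ n) := by
      rw [v_int_iff, norm_pow]
      exact pow_le_one₀ (norm_nonneg _) ((v_int_iff V x).1 hx)
    rw [pow_succ, V.res_mul _ _ h1 hx, ih, pow_succ]

lemma res_eq_iff [IsUltrametricDist L] (x y : L) (hx : 0 ≤ V.v x) (hy : 0 ≤ V.v y) :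
    V.res x = V.res y ↔ ‖x - y‖ < 1 := by
  have hy' : 0 ≤ V.v (-y) := by
    rw [v_int_iff, norm_neg, ← v_int_iff V]
    exact hy
  have hxy : 0 ≤ V.v (x - y) := by
    rw [v_int_iff] at hx hy ⊢
    exact usub hx hy
  have h1 : V.res (x - y) = V.res x - V.res y := by
    rw [sub_eq_add_neg x y, V.res_add _ _ hx hy', res_neg V y hy, sub_eq_add_neg]
  rw [← sub_eq_zero, ← h1, V.res_zero _ hxy]
  constructor
  · rintro (h | h)
    · rw [h, norm_zero]
      exact zero_lt_one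
    · by_cases h0 : x - y = 0
      · rw [h0, norm_zero]
        exact zero_lt_one
      · refine lt_of_le_of_lt ((le_v_iff V h0 1).1 h) ?_
        rw [zpow_neg, zpow_one]
        exact inv_lt_one_of_one_lt₀ V.one_lt
  · intro h
    by_cases h0 : x - y = 0
    · exact Or.inl h0
    · right
      have h2 : ‖x - y‖ < ‖(1 : L)‖ := by rwa [norm_one]
      rw [norm_lt_iff V h0 one_ne_zero] at h2
      have h3 : V.v (1 : L) = 0 := by
        have := v_pow V (one_ne_zero (α := L)) 0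
        simpa using this
      rw [h3] at h2
      omega

end val

end HensAux

open HensAux in
/-- (H) `p`-th powers of principal units -/
theorem stHens : StHens := by
  intro p hp L F _ _ _ _ _ V ζ hζ
  have : CompleteSpace L := FiniteDimensional.complete ℚ_[p] L
  have hpr := hp.out
  have hp1 : 1 < p := hpr.one_lt
  have hpn0 : ‖(p : L)‖ < 1 := by
    have e : (p : L) = algebraMap ℚ_[p] L (p : ℚ_[p]) := by simp
    rw [e, norm_algebraMap', Padic.norm_p]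
    exact inv_lt_one_of_one_lt₀ (by exact_mod_cast hp1)
  obtain ⟨hl, hl0, hpn, hc⟩ := lam p hpr hpn0 ζ hζ
  set lm : L := 1 - ζ with hlm
  have hlpos : 0 < ‖lm‖ := norm_pos_iff.2 hl0
  have hp0 : (p : L) ≠ 0 := by
    intro h
    rw [h, norm_zero] at hpn
    exact absurd hpn.symm (pow_pos hlpos _).ne'
  have hv1 : V.v (1 : L) = 0 := by
    have := v_pow V (one_ne_zero (α := L)) 0
    simpa using this
  have hvl : 1 ≤ V.v lm := by
    have h2 : ‖lm‖ < ‖(1 : L)‖ := by rwa [norm_one]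
    rw [norm_lt_iff V hl0 one_ne_zero, hv1] at h2
    omega
  have hvp : ((p : ℤ) - 1) * V.v lm = V.v (p : L) := by
    have h1 : ‖(p : L)‖ = ‖lm ^ (p - 1)‖ := by rw [norm_pow, hpn]
    rw [v_eq_iff V hp0 (pow_ne_zero _ hl0), v_pow V hl0] at h1
    rw [h1, Nat.cast_sub hp1.le]
    push_cast
    ring
  refine ⟨hvp, hvl, ?_, ?_, ?_, ?_⟩
  · -- close to one
    intro u _ hu
    by_cases h0 : u - 1 = 0
    · exact ⟨1, by rw [one_pow]; exact sub_eq_zero.1 h0⟩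
    · apply hens p hpr lm hl hl0 hpn u
      rw [← norm_pow, norm_lt_iff V h0 (pow_ne_zero _ hl0), v_pow V hl0]
      omega
  · -- intermediate levels
    rintro u - hu1 hu2 hu3 ⟨y, rfl⟩
    have h0 : y ^ p - 1 ≠ 0 := by
      intro h
      rw [h, V.v_zero] at hu1
      omega
    have hy : ‖y ^ p - 1‖ < 1 := by
      rw [← norm_one (α := L), norm_lt_iff V h0 one_ne_zero, hv1]
      omega
    obtain ⟨-, h2, h3⟩ := root_level p hpr lm hl hl0 hpn y hy
    by_cases hlt : ‖lm‖ < ‖y - 1‖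
    · have h4 := h2 hlt
      have hy1 : y - 1 ≠ 0 := norm_pos_iff.1 (hlpos.trans hlt)
      rw [← norm_pow, v_eq_iff V h0 (pow_ne_zero _ hy1), v_pow V hy1] at h4
      exact hu3 ⟨V.v (y - 1), h4⟩
    · push Not at hlt
      have h4 := h3 hlt
      rw [← norm_pow, ← not_lt, norm_lt_iff V (pow_ne_zero _ hl0) h0, v_pow V hl0] at h4
      exact h4 hu2
  · -- the last level
    intro x hx
    have hx1 : ‖x‖ ≤ 1 := (v_int_iff V x).1 hx
    constructor
    · rintro ⟨z, hz⟩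
      have hz1 : z ^ p - 1 = x * lm ^ p := by rw [← hz]; ring
      have hz2 : ‖z ^ p - 1‖ ≤ ‖lm‖ ^ p := by
        rw [hz1, norm_mul, norm_pow]
        calc ‖x‖ * ‖lm‖ ^ p ≤ 1 * ‖lm‖ ^ p := by gcongr
          _ = ‖lm‖ ^ p := one_mul _
      have hz3 : ‖z ^ p - 1‖ < 1 :=
        lt_of_le_of_lt hz2 (pow_lt_one₀ hlpos.le hl (by omega))
      obtain ⟨-, h2, -⟩ := root_level p hpr lm hl hl0 hpn z hz3
      have hzl : ‖z - 1‖ ≤ ‖lm‖ := by
        by_contra hcon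
        push Not at hcon
        rw [h2 hcon] at hz2
        exact absurd hz2 (not_le.2 (pow_lt_pow_left₀ hcon hlpos.le (by omega)))
      set B : L := (z - 1) / lm with hB
      have hB1 : ‖B‖ ≤ 1 := by
        rw [hB, norm_div, div_le_one hlpos]
        exact hzl
      have hBv : 0 ≤ V.v B := (v_int_iff V B).2 hB1
      have hzB : 1 + B * lm = z := by
        rw [hB]
        field_simp
        ring
      have h3 := level p hpr lm hl hpn hc B hB1
      rw [hzB, hz1, ← sub_mul, norm_mul, norm_pow, pow_succ'] at h3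
      have h4 : ‖x - (B ^ p - B)‖ ≤ ‖lm‖ := le_of_mul_le_mul_right h3 (pow_pos hlpos p)
      have hBp : 0 ≤ V.v (B ^ p) := by
        rw [v_int_iff, norm_pow]
        exact pow_le_one₀ (norm_nonneg _) hB1
      have hBB : 0 ≤ V.v (B ^ p - B) := by
        rw [v_int_iff]
        exact usub ((v_int_iff V _).1 hBp) hB1
      refine ⟨V.res B, ?_⟩
      have h5 : V.res x = V.res (B ^ p - B) :=
        (res_eq_iff V x _ hx hBB).2 (lt_of_le_of_lt h4 hl)
      have hBn : 0 ≤ V.v (-B) := by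
        rw [v_int_iff, norm_neg]
        exact hB1
      rw [h5, sub_eq_add_neg, V.res_add _ _ hBp hBn, res_neg V B hBv, res_pow V B hBv,
        sub_eq_add_neg]
    · rintro ⟨b, hb⟩
      obtain ⟨B, hBv, hBr⟩ := V.res_surj b
      have hB1 : ‖B‖ ≤ 1 := (v_int_iff V B).1 hBv
      have hBp : 0 ≤ V.v (B ^ p) := by
        rw [v_int_iff, norm_pow]
        exact pow_le_one₀ (norm_nonneg _) hB1
      have hBB : 0 ≤ V.v (B ^ p - B) := by
        rw [v_int_iff]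
        exact usub ((v_int_iff V _).1 hBp) hB1
      have hBn : 0 ≤ V.v (-B) := by
        rw [v_int_iff, norm_neg]
        exact hB1
      have h5 : V.res x = V.res (B ^ p - B) := by
        rw [hb, sub_eq_add_neg (B ^ p) B, V.res_add _ _ hBp hBn, res_neg V B hBv,
          res_pow V B hBv, hBr, sub_eq_add_neg]
      have h6 : ‖x - (B ^ p - B)‖ < 1 := (res_eq_iff V x _ hx hBB).1 h5
      have h3 := level p hpr lm hl hpn hc B hB1
      have hBl : ‖B * lm‖ < 1 := by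
        rw [norm_mul]
        calc ‖B‖ * ‖lm‖ ≤ 1 * ‖lm‖ := by gcongr
          _ < 1 := by rw [one_mul]; exact hl
      have hD : ‖1 + B * lm‖ = 1 := by
        rw [norm_add_of_lt (by rwa [norm_one]), norm_one]
      have hD0 : 1 + B * lm ≠ 0 := by
        intro h
        rw [h, norm_zero] at hD
        exact zero_ne_one hD
      have h7 : ‖(1 + x * lm ^ p) / (1 + B * lm) ^ p - 1‖ < ‖lm‖ ^ p := by
        have e : (1 + x * lm ^ p) / (1 + B * lm) ^ p - 1 =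
            ((x - (B ^ p - B)) * lm ^ p -
              ((1 + B * lm) ^ p - 1 - (B ^ p - B) * lm ^ p)) / (1 + B * lm) ^ p := by
          rw [div_sub_one (pow_ne_zero _ hD0)]
          congr 1
          ring
        rw [e, norm_div, norm_pow (1 + B * lm), hD, one_pow, div_one]
        apply usub_lt
        · rw [norm_mul, norm_pow]
          calc ‖x - (B ^ p - B)‖ * ‖lm‖ ^ p < 1 * ‖lm‖ ^ p :=
                mul_lt_mul_of_pos_right h6 (pow_pos hlpos p)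
            _ = ‖lm‖ ^ p := one_mul _
        · refine lt_of_le_of_lt h3 ?_
          rw [pow_succ]
          calc ‖lm‖ ^ p * ‖lm‖ < ‖lm‖ ^ p * 1 := mul_lt_mul_of_pos_left hl (pow_pos hlpos p)
            _ = ‖lm‖ ^ p := mul_one _
      obtain ⟨y, hy⟩ := hens p hpr lm hl hl0 hpn _ h7
      refine ⟨y * (1 + B * lm), ?_⟩
      rw [mul_pow, ← hy]
      field_simp
  · -- the map is not surjective
    by_contra hcon
    push Not at hcon
    have := V.finF
    have := V.charF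
    have hsurj : Function.Surjective (fun b : F => b ^ p - b) := by
      intro a
      obtain ⟨b, hb⟩ := hcon a
      exact ⟨b, hb.symm⟩
    have hinj := Finite.injective_iff_surjective.2 hsurj
    have h1 : (fun b : F => b ^ p - b) 0 = (fun b : F => b ^ p - b) 1 := by
      simp [hpr.ne_zero]
    exact zero_ne_one (hinj h1)

end Pool.Agent.Lib.MP_c385f6_ag.Cpl
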