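import Mathlib
import Pool.Agent.Lib.MP_c385f6_ag.Cpl.StCof
import Pool.Agent.Lib.MP_c385f6_ag.Cpl.Hens

set_option autoImplicit false

/-!
(W1) uniqueness of the valuation: the valuations of a field and of an extension are proportional.
-/

namespace Pool.Agent.Lib.MP_c385f6_ag.Cpl

open Module

namespace VnAux

open HensAux

/-! ### Roots of order prime to the residue characteristic -/

section
variable {L : Type} [NormedField L] [IsUltrametricDist L]

lemma one_add_le {a : L} (ha : ‖a‖ ≤ 1) : ‖1 + a‖ ≤ 1 := uadd (by simp) ha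

lemma pow_sub_one (n : ℕ) (b : L) {C : ℝ} (hC0 : 0 ≤ C) (hC : C ≤ 1) (hb : ‖b‖ ≤ C) :
    ‖(1 + b) ^ n - 1‖ ≤ C := by
  induction n with
  | zero => simpa using hC0
  | succ n ih =>
    have e : (1 + b) ^ (n + 1) - 1 = (1 + b) * ((1 + b) ^ n - 1) + b := by ring
    rw [e]
    refine uadd ?_ hb
    rw [norm_mul]
    calc ‖1 + b‖ * ‖(1 + b) ^ n - 1‖ ≤ 1 * C := by
          refine mul_le_mul (one_add_le (hb.trans hC)) ih (norm_nonneg _) zero_le_one
      _ = C := one_mul C

lemma pow_diff (n : ℕ) (a b : L) {C : ℝ} (hC0 : 0 ≤ C) (hC : C ≤ 1) (ha : ‖a‖ ≤ C)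
    (hb : ‖b‖ ≤ C) : ‖(1 + a) ^ n - (1 + b) ^ n - n * (a - b)‖ ≤ C * ‖a - b‖ := by
  induction n with
  | zero =>
    simp
    positivity
  | succ n ih =>
    have e : (1 + a) ^ (n + 1) - (1 + b) ^ (n + 1) - ((n + 1 : ℕ) : L) * (a - b) =
        (1 + a) * ((1 + a) ^ n - (1 + b) ^ n - n * (a - b)) +
          ((n : L) * a + ((1 + b) ^ n - 1)) * (a - b) := by
      push_cast
      ring
    rw [e]
    refine uadd ?_ ?_
    · rw [norm_mul]
      calc ‖1 + a‖ * ‖(1 + a) ^ n - (1 + b) ^ n - n * (a - b)‖ ≤ 1 * (C * ‖a - b‖) := by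
            refine mul_le_mul (one_add_le (ha.trans hC)) ih (norm_nonneg _) zero_le_one
        _ = C * ‖a - b‖ := one_mul _
    · rw [norm_mul]
      refine mul_le_mul_of_nonneg_right (uadd ?_ (pow_sub_one n b hC0 hC hb)) (norm_nonneg _)
      rw [norm_mul]
      calc ‖(n : L)‖ * ‖a‖ ≤ 1 * C := mul_le_mul (nat_le n) ha (norm_nonneg _) zero_le_one
        _ = C := one_mul C

lemma exists_root [CompleteSpace L] (n : ℕ) (hn : ‖(n : L)‖ = 1) {z : L} (hz : ‖z‖ < 1) :
    ∃ y : L, y ^ n = 1 + z := by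
  have hn0 : (n : L) ≠ 0 := by
    intro h
    rw [h, norm_zero] at hn
    exact zero_ne_one hn
  let s : Set L := {y | ‖y‖ ≤ ‖z‖}
  have hs : IsClosed s := isClosed_le (by fun_prop) continuous_const
  let f : L → L := fun y => y - ((1 + y) ^ n - 1 - z) / n
  have hf : ∀ x ∈ s, ∀ y ∈ s, ‖f x - f y‖ ≤ ‖z‖ * ‖x - y‖ := by
    intro x hx y hy
    have h1 : f x - f y = -(((1 + x) ^ n - (1 + y) ^ n - n * (x - y)) / n) := by
      change (x - ((1 + x) ^ n - 1 - z) / n) - (y - ((1 + y) ^ n - 1 - z) / n) = _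
      field_simp
      ring
    rw [h1, norm_neg, norm_div, hn, div_one]
    exact pow_diff n x y (norm_nonneg z) hz.le hx hy
  have h0s : (0 : L) ∈ s := by
    change ‖(0 : L)‖ ≤ _
    rw [norm_zero]
    exact norm_nonneg _
  have hf0 : f 0 = z / n := by
    change 0 - ((1 + 0) ^ n - 1 - z) / n = _
    rw [add_zero, one_pow]
    ring
  have hmaps : Set.MapsTo f s s := by
    intro x hx
    change ‖f x‖ ≤ _
    have e : f x = (f x - f 0) + f 0 := by ring
    rw [e]
    refine uadd ?_ ?_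
    · refine (hf x hx 0 h0s).trans ?_
      rw [sub_zero]
      calc ‖z‖ * ‖x‖ ≤ ‖z‖ * 1 := by
            refine mul_le_mul_of_nonneg_left ?_ (norm_nonneg _)
            have hx' : ‖x‖ ≤ ‖z‖ := hx
            exact hx'.trans hz.le
        _ = ‖z‖ := mul_one _
    · rw [hf0, norm_div, hn, div_one]
  have hcontr : ContractingWith ‖z‖₊ (hmaps.restrict f s s) := by
    refine ⟨by rw [← NNReal.coe_lt_coe]; exact hz, ?_⟩
    apply LipschitzWith.of_dist_le_mul
    intro x y
    rw [Subtype.dist_eq, Subtype.dist_eq, dist_eq_norm, dist_eq_norm]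
    exact hf x.1 x.2 y.1 y.2
  obtain ⟨y, -, hfix, -⟩ := ContractingWith.exists_fixedPoint' hs.isComplete hmaps hcontr h0s
    (edist_ne_top _ _)
  have hy : y - ((1 + y) ^ n - 1 - z) / n = y := hfix
  have hy1 : ((1 + y) ^ n - 1 - z) / n = 0 := sub_eq_self.1 hy
  have hy2 : (1 + y) ^ n - 1 - z = 0 := by
    rcases div_eq_zero_iff.1 hy1 with h | h
    · exact h
    · exact absurd h hn0
  exact ⟨1 + y, by linear_combination hy2⟩

end

/-! ### The valuation of a local field datum -/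

section
variable {p : ℕ} {L F : Type} [Field L] [Field F] (S : LF p L F)

lemma v_one : S.v 1 = 0 := by
  have h := S.v_mul 1 1 one_ne_zero one_ne_zero
  rw [mul_one] at h
  omega

lemma Sv_pow {x : L} (hx : x ≠ 0) (n : ℕ) : S.v (x ^ n) = n * S.v x := by
  induction n with
  | zero => rw [pow_zero, v_one, Nat.cast_zero, zero_mul]
  | succ n ih =>
    rw [pow_succ, S.v_mul _ _ (pow_ne_zero n hx) hx, ih]
    push_cast
    ring

lemma Sv_inv {x : L} (hx : x ≠ 0) : S.v x⁻¹ = -S.v x := by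
  have h := S.v_mul x x⁻¹ hx (inv_ne_zero hx)
  rw [mul_inv_cancel₀ hx, v_one] at h
  omega

lemma Sv_zpow {x : L} (hx : x ≠ 0) (n : ℤ) : S.v (x ^ n) = n * S.v x := by
  obtain ⟨m, rfl | rfl⟩ := n.eq_nat_or_neg
  · rw [zpow_natCast, Sv_pow S hx]
  · rw [zpow_neg, zpow_natCast, Sv_inv S (pow_ne_zero m hx), Sv_pow S hx]
    ring

end

section
variable {p : ℕ} {L F : Type} [NormedField L] [Field F] (V : VD p L F)

/-- The unit part of a number. -/
lemma unit_part {x : L} (hx : x ≠ 0) : ∃ u : L, ‖u‖ = 1 ∧ x = V.π ^ (V.v x) * u := by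
  have hπ := V.pi_ne
  refine ⟨x / V.π ^ (V.v x), ?_, (mul_div_cancel₀ x (zpow_ne_zero _ hπ)).symm⟩
  have h1 := V.norm_eq x hx
  have h2 := V.norm_eq V.π hπ
  rw [V.v_pi] at h2
  rw [norm_div, norm_zpow, h1, h2, ← zpow_mul]
  have e : -1 * V.v x = -(V.v x) := by ring
  rw [e]
  exact div_self (zpow_ne_zero _ (c_pos V).ne')

end

section
variable (p : ℕ) [hp : Fact p.Prime] {L F E : Type} [NormedField L] [NormedAlgebra ℚ_[p] L]
  [FiniteDimensional ℚ_[p] L] [IsUltrametricDist L] [Field F] [Field E]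

omit [FiniteDimensional ℚ_[p] L] [IsUltrametricDist L] in
lemma norm_p : ‖(p : L)‖ < 1 := by
  have e : (p : L) = algebraMap ℚ_[p] L (p : ℚ_[p]) := by simp
  rw [e, norm_algebraMap', Padic.norm_p]
  exact inv_lt_one_of_one_lt₀ (by exact_mod_cast hp.out.one_lt)

/-- Units have valuation zero. -/
lemma v_unit (V : VD p L F) (S : LF p L E) {x : L} (hx : ‖x‖ = 1) : S.v x = 0 := by
  have hcompl : CompleteSpace L := FiniteDimensional.complete ℚ_[p] L
  have hx0 : x ≠ 0 := by
    intro h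
    rw [h, norm_zero] at hx
    exact zero_ne_one hx
  have hfin := V.finF
  have : Fintype F := Fintype.ofFinite F
  have hv : 0 ≤ V.v x := (v_int_iff V x).2 hx.le
  have hres : V.res x ≠ 0 := by
    intro h
    rcases (V.res_zero x hv).1 h with h1 | h1
    · exact hx0 h1
    · have h2 : ‖x‖ < ‖(1 : L)‖ := by
        rw [norm_lt_iff V hx0 one_ne_zero]
        have h3 : V.v (1 : L) = 0 := by
          have := v_pow V (one_ne_zero (α := L)) 0
          simpa using this
        omega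
      rw [hx, norm_one] at h2
      exact lt_irrefl _ h2
  set k : ℕ := Fintype.card F - 1 with hk
  have hk1 : 1 ≤ k := by
    have := Fintype.one_lt_card (α := F)
    omega
  have h1 : V.res (x ^ k) = V.res 1 := by
    rw [res_pow V x hv, V.res_one]
    exact FiniteField.pow_card_sub_one_eq_one _ hres
  have hvk : 0 ≤ V.v (x ^ k) := (v_int_iff V _).2 (by rw [norm_pow, hx, one_pow])
  have hv1 : 0 ≤ V.v (1 : L) := (v_int_iff V _).2 (by rw [norm_one])
  have h2 : ‖x ^ k - 1‖ < 1 := (res_eq_iff V _ _ hvk hv1).1 h1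
  set a : ℤ := S.v (x ^ k) with ha
  have hdvd : ∀ m : ℕ, ((p * m + 1 : ℕ) : ℤ) ∣ a := by
    intro m
    have hn : ‖((p * m + 1 : ℕ) : L)‖ = 1 := by
      have e : ‖(1 : L)‖ = 1 := norm_one
      rw [← e]
      refine norm_of_sub_lt ?_
      rw [norm_one]
      have e2 : ((p * m + 1 : ℕ) : L) - 1 = p * m := by
        push_cast
        ring
      rw [e2, norm_mul]
      calc ‖(p : L)‖ * ‖(m : L)‖ ≤ ‖(p : L)‖ * 1 :=
            mul_le_mul_of_nonneg_left (nat_le m) (norm_nonneg _)
        _ = ‖(p : L)‖ := mul_one _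
        _ < 1 := norm_p p
    obtain ⟨y, hy⟩ := exists_root (p * m + 1) hn h2
    rw [add_sub_cancel] at hy
    have hy0 : y ≠ 0 := by
      rintro rfl
      rw [zero_pow (Nat.succ_ne_zero _)] at hy
      exact pow_ne_zero k hx0 hy.symm
    refine ⟨S.v y, ?_⟩
    rw [ha, ← hy, Sv_pow S hy0]
  have ha0 : a = 0 := by
    by_contra hne
    have h3 := Int.natAbs_le_of_dvd_ne_zero (hdvd a.natAbs) hne
    rw [Int.natAbs_natCast] at h3
    have h4 : 1 * a.natAbs ≤ p * a.natAbs := Nat.mul_le_mul_right _ hp.out.pos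
    omega
  rw [ha, Sv_pow S hx0] at ha0
  rcases mul_eq_zero.1 ha0 with h | h
  · have : k = 0 := by exact_mod_cast h
    omega
  · exact h

/-- The valuation is unique. -/
lemma v_eq (V : VD p L F) (S : LF p L E) (h : 0 < S.v (p : L)) (x : L) : S.v x = V.v x := by
  set κ : ℤ := S.v V.π with hκ
  have key : ∀ x : L, x ≠ 0 → S.v x = V.v x * κ := by
    intro x hx
    obtain ⟨u, hu, e⟩ := unit_part V hx
    have hu0 : u ≠ 0 := by
      intro h
      rw [h, norm_zero] at hu
      exact zero_ne_one hu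
    have h1 : S.v x = S.v (V.π ^ (V.v x) * u) := by rw [← e]
    rw [h1, S.v_mul _ _ (zpow_ne_zero _ V.pi_ne) hu0, Sv_zpow S V.pi_ne, v_unit p V S hu, add_zero]
  have h1 := key S.π S.pi_ne
  rw [S.v_pi] at h1
  have hchar : (p : L) ≠ 0 := by
    have : CharZero L := charZero_of_injective_algebraMap (algebraMap ℚ_[p] L).injective
    exact Nat.cast_ne_zero.2 hp.out.ne_zero
  have h2 := key (p : L) hchar
  have h3 : 0 < V.v (p : L) := by
    have h4 : ‖(p : L)‖ < ‖(1 : L)‖ := by
      rw [norm_one]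
      exact norm_p p
    rw [norm_lt_iff V hchar one_ne_zero] at h4
    have h5 : V.v (1 : L) = 0 := by
      have := v_pow V (one_ne_zero (α := L)) 0
      simpa using this
    omega
  have hκ1 : κ = 1 := by
    rcases Int.eq_one_or_neg_one_of_mul_eq_one' h1.symm with h6 | h6
    · exact h6.2
    · exfalso
      rw [h2, h6.2] at h
      linarith
  by_cases hx : x = 0
  · rw [hx, S.v_zero, V.v_zero]
  · rw [key x hx, hκ1, mul_one]

end

end VnAux

open VnAux HensAux in
/-- (W1) the valuations of a field and of an extension are proportional -/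
theorem stVn (h : StVal) : StVn := by
  intro p hp L F E E' iL iF iE iE' iA iD iA' iD' iLF iT S S' h1 h2
  let _ : NormedField L := spectralNorm.normedField ℚ_[p] L
  let _ : NormedAlgebra ℚ_[p] L := spectralNorm.normedAlgebra ℚ_[p] L
  have : IsUltrametricDist L :=
    IsUltrametricDist.isUltrametricDist_of_isNonarchimedean_norm
      (isNonarchimedean_spectralNorm (K := ℚ_[p]) (L := L))
  let _ : NormedField F := spectralNorm.normedField ℚ_[p] F
  let _ : NormedAlgebra ℚ_[p] F := spectralNorm.normedAlgebra ℚ_[p] F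
  have : IsUltrametricDist F :=
    IsUltrametricDist.isUltrametricDist_of_isNonarchimedean_norm
      (isNonarchimedean_spectralNorm (K := ℚ_[p]) (L := F))
  obtain ⟨G, iG, ⟨V⟩⟩ := h p hp L inferInstance inferInstance iD inferInstance
  obtain ⟨G', iG', ⟨V'⟩⟩ := h p hp F inferInstance inferInstance iD' inferInstance
  have e1 : ∀ x, S.v x = V.v x := v_eq p V S h1
  have e2 : ∀ x, S'.v x = V'.v x := v_eq p V' S' h2
  have hnorm : ∀ x : L, ‖algebraMap L F x‖ = ‖x‖ := fun x =>
    (spectralNorm.eq_of_tower (K := ℚ_[p]) (L := F) x).symm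
  have hinj : ∀ x : L, x ≠ 0 → algebraMap L F x ≠ 0 := fun x hx =>
    (map_ne_zero_iff _ (algebraMap L F).injective).2 hx
  have hπ := V.pi_ne
  have hr : 0 < S'.v (algebraMap L F V.π) := by
    rw [e2]
    have h3 : ‖algebraMap L F V.π‖ < ‖(1 : F)‖ := by
      rw [hnorm, norm_one, V.norm_eq _ hπ, V.v_pi, zpow_neg, zpow_one]
      exact inv_lt_one_of_one_lt₀ V.one_lt
    rw [norm_lt_iff V' (hinj _ hπ) one_ne_zero] at h3
    have h5 : V'.v (1 : F) = 0 := by
      have := v_pow V' (one_ne_zero (α := F)) 0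
      simpa using this
    omega
  refine ⟨(S'.v (algebraMap L F V.π)).toNat, by omega, fun x => ?_⟩
  rw [Int.toNat_of_nonneg hr.le]
  by_cases hx : x = 0
  · rw [hx, map_zero, S.v_zero, S'.v_zero, mul_zero]
  · obtain ⟨u, hu, e⟩ := unit_part V hx
    have hu0 : u ≠ 0 := by
      intro h
      rw [h, norm_zero] at hu
      exact zero_ne_one hu
    have hu' : S'.v (algebraMap L F u) = 0 := v_unit p V' S' (by rw [hnorm, hu])
    have h3 : algebraMap L F x = (algebraMap L F V.π) ^ (V.v x) * algebraMap L F u := by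
      conv_lhs => rw [e]
      rw [map_mul, map_zpow₀]
    rw [h3, S'.v_mul _ _ (zpow_ne_zero _ (hinj _ hπ)) (hinj _ hu0), Sv_zpow S' (hinj _ hπ), hu',
      e1 x]
    ring

end Pool.Agent.Lib.MP_c385f6_ag.Cpl
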