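import Mathlib
import Pool.Agent.Lib.MP_c385f6_ag.Cpl.Stmts

set_option autoImplicit false

/-!
Module A1: approximate completeness.
-/

namespace Pool.Agent.Lib.MP_c385f6_ag.Cpl

namespace A1aux

section eqv

variable {L : Type*} [Field L] {p : ℕ}

theorem eqv_refl (x : L) : Eqv p x x := ⟨1, one_ne_zero, by rw [one_pow, mul_one]⟩

theorem eqv_symm {x y : L} (h : Eqv p x y) : Eqv p y x := by
  obtain ⟨z, hz, rfl⟩ := h
  refine ⟨z⁻¹, inv_ne_zero hz, ?_⟩
  rw [mul_assoc, ← mul_pow, mul_inv_cancel₀ hz, one_pow, mul_one]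

theorem eqv_trans {x y w : L} (h : Eqv p x y) (h' : Eqv p y w) : Eqv p x w := by
  obtain ⟨z, hz, rfl⟩ := h
  obtain ⟨z', hz', rfl⟩ := h'
  exact ⟨z' * z, mul_ne_zero hz' hz, by rw [mul_pow]; ring⟩

theorem eqv_mul {x y x' y' : L} (h : Eqv p x y) (h' : Eqv p x' y') :
    Eqv p (x * x') (y * y') := by
  obtain ⟨z, hz, rfl⟩ := h
  obtain ⟨z', hz', rfl⟩ := h'
  exact ⟨z * z', mul_ne_zero hz hz', by rw [mul_pow]; ring⟩

theorem eqv_inv {x y : L} (h : Eqv p x y) : Eqv p x⁻¹ y⁻¹ := by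
  obtain ⟨z, hz, rfl⟩ := h
  exact ⟨z⁻¹, inv_ne_zero hz, by rw [mul_inv, inv_pow]⟩

theorem eqv_div {x y x' y' : L} (h : Eqv p x y) (h' : Eqv p x' y') :
    Eqv p (x / x') (y / y') := by
  rw [div_eq_mul_inv, div_eq_mul_inv]
  exact eqv_mul h (eqv_inv h')

end eqv

variable {p : ℕ} {L F : Type*} [Field L] [Field F] (S : LF p L F)

theorem v_one : S.v 1 = 0 := by
  have := S.v_mul 1 1 one_ne_zero one_ne_zero
  rw [mul_one] at this
  omega

theorem v_neg_one : S.v (-1) = 0 := by
  have h := S.v_mul (-1) (-1) (neg_ne_zero.2 one_ne_zero) (neg_ne_zero.2 one_ne_zero)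
  rw [neg_mul_neg, one_mul, v_one S] at h
  omega

theorem v_neg (x : L) : S.v (-x) = S.v x := by
  by_cases hx : x = 0
  · rw [hx, neg_zero]
  · have := S.v_mul (-1) x (neg_ne_zero.2 one_ne_zero) hx
    rw [neg_one_mul, v_neg_one S] at this
    omega

theorem v_inv {x : L} (hx : x ≠ 0) : S.v x⁻¹ = -S.v x := by
  have := S.v_mul x x⁻¹ hx (inv_ne_zero hx)
  rw [mul_inv_cancel₀ hx, v_one S] at this
  omega

theorem v_pi_pow (n : ℕ) : S.v (S.π ^ n) = n := by
  induction n with
  | zero => rw [pow_zero, v_one S, Nat.cast_zero]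
  | succ n ih =>
    rw [pow_succ, S.v_mul _ _ (pow_ne_zero _ S.pi_ne) S.pi_ne, ih, S.v_pi, Nat.cast_succ]

theorem gz_zero (n : ℤ) : S.Gz n 0 := Or.inl rfl

variable {S}

theorem gz_mono {n m : ℤ} {x : L} (h : S.Gz n x) (hmn : m ≤ n) : S.Gz m x := by
  rcases h with h | h
  · exact Or.inl h
  · exact Or.inr (by omega)

theorem gz_neg {n : ℤ} {x : L} (h : S.Gz n x) : S.Gz n (-x) := by
  rcases h with rfl | h
  · exact Or.inl neg_zero
  · exact Or.inr (by rwa [v_neg S])

theorem gz_add {n : ℤ} {x y : L} (h : S.Gz n x) (h' : S.Gz n y) : S.Gz n (x + y) := by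
  by_cases hx : x = 0
  · rwa [hx, zero_add]
  by_cases hy : y = 0
  · rwa [hy, add_zero]
  by_cases hxy : x + y = 0
  · exact Or.inl hxy
  · right
    have h1 := S.v_add x y hx hy hxy
    have h2 := h.resolve_left hx
    have h3 := h'.resolve_left hy
    exact (le_min h2 h3).trans h1

theorem gz_sub {n : ℤ} {x y : L} (h : S.Gz n x) (h' : S.Gz n y) : S.Gz n (x - y) := by
  rw [sub_eq_add_neg]
  exact gz_add h (gz_neg h')

theorem v_add_eq {n : ℤ} {x d : L} (hx : x ≠ 0) (h : S.v x < n) (hd : S.Gz n d) :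
    x + d ≠ 0 ∧ S.v (x + d) = S.v x := by
  by_cases hd0 : d = 0
  · rw [hd0, add_zero]
    exact ⟨hx, rfl⟩
  have hd' := hd.resolve_left hd0
  have hne : x + d ≠ 0 := by
    intro h0
    have h1 : x = -d := eq_neg_of_add_eq_zero_left h0
    rw [h1, v_neg S] at h
    omega
  refine ⟨hne, le_antisymm ?_ ?_⟩
  · have h2 := S.v_add (x + d) (-d) hne (neg_ne_zero.2 hd0) (by rwa [add_neg_cancel_right])
    rw [add_neg_cancel_right, v_neg S] at h2
    rcases min_le_iff.1 h2 with h3 | h3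
    · exact h3
    · omega
  · have h1 := S.v_add x d hx hd0 hne
    refine le_trans (le_min le_rfl ?_) h1
    omega

/-- Moving `y` in an affine frame. -/
theorem ap_move (hp : p ≠ 0) {T : Set L} {D : L → L} {y y' : L} {j : ℤ} (h : S.AP T D y j)
    (hd : S.Gz (j + S.e) (y' - y)) : S.AP T D y' j := by
  intro t ht hgz
  by_cases hyy : y' = y
  · rw [hyy] at hgz ⊢
    exact h t ht hgz
  have hgz' : ¬ S.Gz j (y - t) := by
    intro h'
    apply hgz
    have e1 : y' - t = (y' - y) + (y - t) := by ring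
    rw [e1]
    exact gz_add (gz_mono hd (by omega)) h'
  have h1 := h t ht hgz'
  refine eqv_trans h1 ?_
  have hyt : y - t ≠ 0 := fun h0 => hgz' (Or.inl h0)
  have hv : S.v (y - t) < j := not_le.1 fun h0 => hgz' (Or.inr h0)
  have hyt' : y' - t ≠ 0 := fun h0 => hgz (Or.inl h0)
  have hyy' : y' - y ≠ 0 := sub_ne_zero.2 hyy
  have hd' : j + S.e ≤ S.v (y' - y) := hd.resolve_left hyy'
  have e2 : (y' - t) / (y - t) - 1 = (y' - y) * (y - t)⁻¹ := by
    field_simp
    ring
  have h3 : (S.e : ℤ) + 1 ≤ S.v ((y' - t) / (y - t) - 1) := by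
    rw [e2, S.v_mul _ _ hyy' (inv_ne_zero hyt), v_inv S hyt]
    omega
  obtain ⟨w, hw⟩ := S.pow_unit _ (div_ne_zero hyt' hyt) h3
  have hw0 : w ≠ 0 := by
    rintro rfl
    rw [zero_pow hp] at hw
    exact div_ne_zero hyt' hyt hw
  refine eqv_symm ⟨w, hw0, ?_⟩
  rw [← hw, mul_div_cancel₀ _ hyt]

/-- Points near to a given one outside a finite set. -/
theorem exists_near (S : LF p L F) {B : Set L} (hB : B.Finite) (y : L) (n : ℤ) :
    ∃ y', S.Gz n (y' - y) ∧ y' ∉ B := by
  by_contra hcon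
  push Not at hcon
  have hinj : Function.Injective fun i : ℕ => y + S.π ^ (n.toNat + i) := by
    intro i j h
    have h1 : S.π ^ (n.toNat + i) = S.π ^ (n.toNat + j) := add_left_cancel h
    have h2 := v_pi_pow S (n.toNat + i)
    rw [h1, v_pi_pow S] at h2
    omega
  refine Set.infinite_range_of_injective hinj (hB.subset ?_)
  rintro _ ⟨i, rfl⟩
  refine hcon _ (Or.inr ?_)
  rw [add_sub_cancel_left, v_pi_pow S]
  omega

end A1aux

open A1aux

/-- (A1) -/
theorem stA1 (h1 : StChord) (h2 : StFrame) (h3 : StChain) (h4 : StBaire) (h5 : StSym)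
    (h6 : StMove) : StA1 := by
  intro p hp L F _ _ S
  have _ := h1
  have _ := h5
  have _ := h6
  have hp0 : p ≠ 0 := hp.out.ne_zero
  obtain ⟨n0, hn0⟩ := h4 p hp L F _ _ S
  refine ⟨n0, fun T D m hm hT hnet hC => ?_⟩
  obtain ⟨c, hcT, hvc, j0, hj0, hj0e, hball⟩ := hn0 T D m hm hnet hC
  obtain ⟨f1, -, f3, f4, f5⟩ := h2 p hp L F _ _ S c hvc
  have he := S.two_le
  have hac := f4 T D hcT hC
  have hrich := f3 T m (by omega) hnet
  obtain ⟨y, J, hdd, hJ, hAP⟩ := h3 p hp L F _ _ S (LF.frT T c) (LF.frD D c) m j0 hac hrich hj0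
    (by omega) (by
      intro t ht ht0 hvt
      have hs : c + t⁻¹ ∈ T := ht.2
      have hg : S.Gz j0 (c + t⁻¹ - c) := by
        right
        rw [add_sub_cancel_left, v_inv S ht0]
        omega
      have hg' : S.Gz j0 (c - c) := Or.inl (sub_self c)
      have h := hball _ hs c hcT hg hg'
      have h' : Eqv p (D (c + t⁻¹) c * -t) (1 * -t) := eqv_mul h (eqv_refl _)
      rw [one_mul, mul_neg] at h'
      exact h')
  -- the perturbation
  have hfin : ((fun x : L => c + x⁻¹) ⁻¹' T ∪ {0}).Finite := by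
    refine (Set.Finite.preimage ?_ hT).union (Set.finite_singleton 0)
    intro x _ x' _ h
    exact inv_injective (add_left_cancel h)
  obtain ⟨y', hy', hy'T⟩ := exists_near S hfin y (J + S.e)
  rw [Set.mem_union, not_or] at hy'T
  obtain ⟨hy'1, hy'2⟩ := hy'T
  have hy'0 : y' ≠ 0 := hy'2
  have hAP' : S.AP (LF.frT T c) (LF.frD D c) y' (J - 1) :=
    ap_move hp0 hAP (gz_mono hy' (by omega))
  -- the level of `y'`
  have hlev : (S.v y' < J ∧ m = J - 2 * min (S.v y') 0) ∨ (J ≤ S.v y' ∧ m = J) := by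
    unfold LF.dd LF.vm at hdd
    split_ifs at hdd with hG
    · right
      have hg : S.Gz J y' := by
        have h := gz_add (gz_mono hy' (show J ≤ J + S.e by omega)) hG
        rwa [sub_add_cancel] at h
      refine ⟨hg.resolve_left hy'0, ?_⟩
      rcases le_total J 0 with h | h
      · rw [min_eq_left h] at hdd
        omega
      · rw [min_eq_right h] at hdd
        omega
    · left
      have hy0 : y ≠ 0 := fun h0 => hG (Or.inl h0)
      have hvy : S.v y < J := not_le.1 fun h0 => hG (Or.inr h0)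
      obtain ⟨-, h⟩ := v_add_eq hy0 hvy (gz_mono hy' (show J ≤ J + S.e by omega))
      rw [add_sub_cancel] at h
      rw [h]
      exact ⟨hvy, hdd.symm⟩
  set y0 : L := c + y'⁻¹ with hy0
  have hy0T : y0 ∉ T := hy'1
  have hy0c : y0 ≠ c := by
    intro h0
    have : y'⁻¹ = 0 := by
      have h := congrArg (fun z => z - c) h0
      simp only [hy0, add_sub_cancel_left, sub_self] at h
      exact h
    exact inv_ne_zero hy'0 this
  have hy0inv : (y0 - c)⁻¹ = y' := by
    rw [hy0, add_sub_cancel_left, inv_inv]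
  -- the main claim
  have key : ∀ t ∈ T, ¬ S.Cl (m - 1) y0 t → Eqv p (D t c) ((y0 - t) / (y0 - c)) := by
    intro t ht hcl
    have hyt : y0 ≠ t := fun h0 => hy0T (h0 ▸ ht)
    by_cases htc : t = c
    · subst htc
      rw [div_self (sub_ne_zero.2 hy0c)]
      obtain ⟨z, hz, h⟩ := hC.coc t ht t ht t ht
      refine ⟨z, hz, ?_⟩
      rw [one_mul]
      exact mul_left_cancel₀ (hC.ne t ht t ht) h
    have htc' : t - c ≠ 0 := sub_ne_zero.2 htc
    refine (f5 T D y0 hcT hC hy0c t ht htc hyt).2 ?_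
    rw [hy0inv]
    refine hAP' _ ⟨inv_ne_zero htc', ?_⟩ ?_
    · rw [inv_inv, add_sub_cancel]
      exact ht
    · intro hG
      apply hcl
      right
      rw [← f1 y0 t hy0c htc hyt, hy0inv]
      have hne : y' - (t - c)⁻¹ ≠ 0 := by
        intro h0
        have h7 := sub_eq_zero.1 h0
        apply hyt
        rw [hy0, h7, inv_inv, add_sub_cancel]
      have hG' : J - 1 ≤ S.v (y' - (t - c)⁻¹) := hG.resolve_left hne
      have hx0 : (t - c)⁻¹ ≠ 0 := inv_ne_zero htc'
      set x := (t - c)⁻¹ with hx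
      have ex : x = y' + -(y' - x) := by ring
      unfold LF.dl
      rcases hlev with ⟨ha, hb⟩ | ⟨ha, hb⟩
      · rcases lt_or_ge (S.v y') (J - 1) with h | h
        · have hvx : S.v x = S.v y' := by
            have h8 := (v_add_eq hy'0 h (gz_neg hG)).2
            rwa [← ex] at h8
          rw [hvx, hb, min_comm 0]
          omega
        · have hvy : S.v y' = J - 1 := by omega
          have hJ1 : 0 ≤ J - 1 := by
            by_contra hcon
            rw [hvy, min_eq_left (by omega)] at hb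
            omega
          have hxG : S.Gz (J - 1) x := by
            rw [ex]
            exact gz_add (Or.inr h) (gz_neg hG)
          have hvx := hxG.resolve_left hx0
          rw [hvy, min_eq_right hJ1] at hb
          rw [min_eq_left (show 0 ≤ S.v x by omega), min_eq_left (show 0 ≤ S.v y' by omega)]
          omega
      · have hxG : S.Gz (J - 1) x := by
          rw [ex]
          exact gz_add (Or.inr (by omega)) (gz_neg hG)
        have hvx := hxG.resolve_left hx0
        rw [min_eq_left (show 0 ≤ S.v x by omega), min_eq_left (show 0 ≤ S.v y' by omega)]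
        omega
  refine ⟨y0, hy0T, fun s hs t ht hcs hct => ?_⟩
  have k1 := key s hs hcs
  have k2 := key t ht hct
  have hDtt : Eqv p (D t t) 1 := by
    obtain ⟨z, hz, h⟩ := hC.coc t ht t ht t ht
    refine ⟨z, hz, ?_⟩
    rw [one_mul]
    exact mul_left_cancel₀ (hC.ne t ht t ht) h
  have k3 : Eqv p (D c t) (D t c)⁻¹ := by
    have h7 := eqv_mul (eqv_refl (p := p) (D t c)⁻¹) (eqv_trans (hC.coc t ht c hcT t ht) hDtt)
    rwa [inv_mul_cancel_left₀ (hC.ne t ht c hcT), mul_one] at h7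
  have k4 := eqv_trans (eqv_symm (hC.coc s hs c hcT t ht)) (eqv_mul k1 (eqv_trans k3 (eqv_inv k2)))
  have e : (y0 - s) / (y0 - c) * ((y0 - t) / (y0 - c))⁻¹ = (y0 - s) / (y0 - t) := by
    rw [inv_div, div_mul_div_cancel₀ (sub_ne_zero.2 hy0c)]
  rwa [e] at k4

end Pool.Agent.Lib.MP_c385f6_ag.Cpl
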