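import Pool.Agent.Lib.MP_c385f6_ag.Cpl.Stmts

set_option autoImplicit false

/-! Module A2: one more step (helper65). -/

namespace Pool.Agent.Lib.MP_c385f6_ag.Cpl

namespace A2aux

section eqv

variable {L : Type*} [Field L] {p : ℕ} {x y z w : L}

theorem eqv_refl (p : ℕ) (x : L) : Eqv p x x := ⟨1, one_ne_zero, by rw [one_pow, mul_one]⟩

theorem eqv_symm (h : Eqv p x y) : Eqv p y x := by
  obtain ⟨z, hz, rfl⟩ := h
  refine ⟨z⁻¹, inv_ne_zero hz, ?_⟩
  rw [mul_assoc, ← mul_pow, mul_inv_cancel₀ hz, one_pow, mul_one]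

theorem eqv_trans (h : Eqv p x y) (h' : Eqv p y z) : Eqv p x z := by
  obtain ⟨a, ha, rfl⟩ := h
  obtain ⟨b, hb, rfl⟩ := h'
  exact ⟨b * a, mul_ne_zero hb ha, by rw [mul_pow]; ring⟩

theorem eqv_mul (h : Eqv p x y) (h' : Eqv p z w) : Eqv p (x * z) (y * w) := by
  obtain ⟨a, ha, rfl⟩ := h
  obtain ⟨b, hb, rfl⟩ := h'
  exact ⟨a * b, mul_ne_zero ha hb, by rw [mul_pow]; ring⟩

theorem eqv_inv (h : Eqv p x y) : Eqv p x⁻¹ y⁻¹ := by
  obtain ⟨a, ha, rfl⟩ := h
  exact ⟨a⁻¹, inv_ne_zero ha, by rw [mul_inv, inv_pow]⟩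

end eqv

section val

variable {p : ℕ} {L F : Type*} [Field L] [Field F] (S : LF p L F)

theorem v_one : S.v 1 = 0 := by
  have := S.v_mul 1 1 one_ne_zero one_ne_zero
  rw [mul_one] at this
  omega

theorem v_neg_one : S.v (-1) = 0 := by
  have := S.v_mul (-1) (-1) (neg_ne_zero.2 one_ne_zero) (neg_ne_zero.2 one_ne_zero)
  rw [neg_mul_neg, mul_one, v_one] at this
  omega

theorem v_neg (x : L) : S.v (-x) = S.v x := by
  by_cases hx : x = 0
  · rw [hx, neg_zero]
  · rw [← neg_one_mul, S.v_mul _ _ (neg_ne_zero.2 one_ne_zero) hx, v_neg_one, zero_add]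

theorem v_sub_comm (x y : L) : S.v (x - y) = S.v (y - x) := by
  rw [← v_neg, neg_sub]

variable {S}

theorem gz_neg {n : ℤ} {x : L} (h : S.Gz n x) : S.Gz n (-x) := by
  rcases h with h | h
  · left; rw [h, neg_zero]
  · right; rw [v_neg]; exact h

theorem gz_add {n : ℤ} {x y : L} (hx : S.Gz n x) (hy : S.Gz n y) : S.Gz n (x + y) := by
  by_cases h0 : x = 0
  · rw [h0, zero_add]; exact hy
  by_cases h1 : y = 0
  · rw [h1, add_zero]; exact hx
  by_cases h2 : x + y = 0
  · left; exact h2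
  · right
    have h3 := S.v_add x y h0 h1 h2
    exact (le_min (hx.resolve_left h0) (hy.resolve_left h1)).trans h3

theorem gz_sub {n : ℤ} {x y : L} (hx : S.Gz n x) (hy : S.Gz n y) : S.Gz n (x - y) := by
  rw [sub_eq_add_neg]; exact gz_add hx (gz_neg hy)

theorem gz_mono {n k : ℤ} {x : L} (h : S.Gz n x) (hk : k ≤ n) : S.Gz k x := by
  rcases h with h | h
  · left; exact h
  · right; exact hk.trans h

theorem gz_v {n : ℤ} {x : L} (h : S.Gz n x) (hx : x ≠ 0) : n ≤ S.v x := h.resolve_left hx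

theorem v_sub_of_neg {Y t : L} (hY : S.Gz 0 Y) (ht : ¬ S.Gz 0 t) : S.v (Y - t) = S.v t := by
  have ht0 : t ≠ 0 := fun h => ht (Or.inl h)
  have htv : S.v t < 0 := by
    by_contra h
    exact ht (Or.inr (not_lt.1 h))
  have hd : Y - t ≠ 0 := by
    intro h
    apply ht
    rw [← sub_eq_zero.1 h]
    exact hY
  have h1 : S.v t ≤ S.v (Y - t) :=
    gz_v (gz_sub (gz_mono hY htv.le) (Or.inr le_rfl)) hd
  rcases h1.lt_or_eq with h2 | h2
  · exfalso
    have h3 : S.Gz (S.v t + 1) (Y - (Y - t)) :=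
      gz_sub (gz_mono hY (by omega)) (Or.inr (by omega))
    rw [sub_sub_cancel] at h3
    have := gz_v h3 ht0
    omega
  · exact h2.symm

theorem min_of_gz {Y : L} (hY : S.Gz 0 Y) : min 0 (S.v Y) = 0 := by
  rcases hY with h | h
  · rw [h, S.v_zero]; rfl
  · exact min_eq_left h

theorem dl_iff {Y t : L} (hY : S.Gz 0 Y) {n : ℤ} (hn : 1 ≤ n) :
    n ≤ S.dl Y t ↔ n ≤ S.v (Y - t) := by
  unfold LF.dl
  rw [min_of_gz hY]
  by_cases ht : S.Gz 0 t
  · rw [min_of_gz ht]; simp
  · rw [v_sub_of_neg hY ht]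
    have htv : S.v t < 0 := by
      by_contra h
      exact ht (Or.inr (not_lt.1 h))
    rw [min_eq_right htv.le]
    constructor <;> intro h <;> omega

theorem v_pi_pow (n : ℕ) : S.v (S.π ^ n) = n := by
  induction n with
  | zero => rw [pow_zero, v_one]; rfl
  | succ n ih =>
    rw [pow_succ, S.v_mul _ _ (pow_ne_zero n S.pi_ne) S.pi_ne, ih, S.v_pi]
    push_cast
    ring

/-- the affine system does not see small changes of the point -/
theorem ap_move {T : Set L} {D : L → L} {Y Y' : L} {m : ℤ} (h : S.AP T D Y m)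
    (hY : S.Gz (m + S.e) (Y' - Y)) : S.AP T D Y' m := by
  intro t ht hnt
  have he : (2 : ℤ) ≤ S.e := by exact_mod_cast S.two_le
  have h1 : ¬ S.Gz m (Y - t) := by
    intro h2
    apply hnt
    have : Y' - t = (Y' - Y) + (Y - t) := by ring
    rw [this]
    exact gz_add (gz_mono hY (by omega)) h2
  have h2 := h t ht h1
  have hd : Y - t ≠ 0 := fun h3 => h1 (Or.inl h3)
  have hd' : Y' - t ≠ 0 := fun h3 => hnt (Or.inl h3)
  have hvd : S.v (Y - t) < m := by
    by_contra h3
    exact h1 (Or.inr (not_lt.1 h3))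
  refine eqv_trans h2 ?_
  by_cases hYY : Y' = Y
  · rw [hYY]; exact eqv_refl p _
  have hYY' : Y' - Y ≠ 0 := sub_ne_zero.2 hYY
  have hu : (Y' - t) / (Y - t) - 1 = (Y' - Y) / (Y - t) := by
    field_simp
    ring
  have hvq : S.v ((Y' - Y) / (Y - t)) = S.v (Y' - Y) - S.v (Y - t) := by
    have h3 := S.v_mul ((Y' - Y) / (Y - t)) (Y - t) (div_ne_zero hYY' hd) hd
    rw [div_mul_cancel₀ _ hd] at h3
    omega
  obtain ⟨z, hz⟩ := S.pow_unit ((Y' - t) / (Y - t)) (div_ne_zero hd' hd) (by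
    rw [hu, hvq]
    have := gz_v hY hYY'
    omega)
  have hz0 : z ≠ 0 := by
    rintro rfl
    have h4 : p ≠ 0 := by
      rintro rfl
      have := S.e_dvd
      rw [zero_dvd_iff] at this
      have := S.two_le
      omega
    rw [zero_pow h4] at hz
    exact div_ne_zero hd' hd hz
  refine eqv_symm ⟨z, hz0, ?_⟩
  rw [← hz, mul_div_cancel₀ _ hd]

end val

end A2aux

open A2aux

theorem stA2 (h1 : StChord) (h2 : StFrame) (h3 : StStep) (h4 : StRich) (_h5 : StSym)
    (_h6 : StMove) : StA2 := by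
  intro p _ L F _ _ S T D m y hm hfin hnet hcmp hyT hpr hs
  have he : (2 : ℤ) ≤ S.e := by exact_mod_cast S.two_le
  obtain ⟨s0, hs0, hds0⟩ := hs
  obtain ⟨q1, q2, q3, q4, -, -, q7, -, -⟩ := h1 p inferInstance L F inferInstance inferInstance S
  -- the point `c`
  obtain ⟨c, hcT, hcv, hyc⟩ : ∃ c ∈ T, 0 ≤ S.v c ∧ S.dl y c = 0 := by
    obtain ⟨c, hcy, hcv, hdc⟩ := q7 y
    obtain ⟨t, ht, hct⟩ := hnet c
    rcases hct with rfl | hct
    · exact ⟨c, ht, hcv, hdc⟩
    · by_cases hct' : c = t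
      · subst hct'; exact ⟨c, ht, hcv, hdc⟩
      have hyt : y ≠ t := fun h => hyT (h ▸ ht)
      refine ⟨t, ht, ?_, ?_⟩
      · by_contra hneg
        have h6 : ¬ S.Gz 0 t := by
          rintro (h | h)
          · rw [h, S.v_zero] at hneg; omega
          · exact hneg h
        have h7 := (dl_iff (S := S) (Y := c) (t := t) (Or.inr hcv) (n := m) (by omega)).1 hct
        rw [v_sub_of_neg (Or.inr hcv) h6] at h7
        omega
      · have h6 := q4 y t c hyt (Ne.symm hct') hcy.symm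
        rw [q1 t c, hdc] at h6
        have h7 := q2 y t hyt
        rcases min_le_iff.1 h6 with h8 | h8 <;> omega
  have hyc' : y ≠ c := fun h => hyT (h ▸ hcT)
  obtain ⟨f1, f2, f3, f4, f5⟩ := h2 p inferInstance L F inferInstance inferInstance S c hcv
  set Y : L := (y - c)⁻¹ with hYdef
  have hY0 : Y ≠ 0 := inv_ne_zero (sub_ne_zero.2 hyc')
  have hYv : 0 ≤ S.v Y := by
    have h6 := f2 y hyc'
    rw [hyc] at h6
    have h7 := min_le_left 0 (S.v (y - c)⁻¹)
    by_contra h8
    rw [min_eq_right (not_le.1 h8).le] at h6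
    omega
  have hYg : S.Gz 0 Y := Or.inr hYv
  have hrich := f3 T m (by omega) hnet
  have hacmp := f4 T D hcT hcmp
  -- points of the frame
  have hfr : ∀ t ∈ LF.frT T c, c + t⁻¹ ∈ T ∧ c + t⁻¹ ≠ c ∧ (c + t⁻¹ - c)⁻¹ = t := by
    intro t ht
    refine ⟨ht.2, ?_, ?_⟩
    · intro h
      exact inv_ne_zero ht.1 (by simpa using h)
    · rw [add_sub_cancel_left, inv_inv]
  have hAP : S.AP (LF.frT T c) (LF.frD D c) Y (m - 1) := by
    intro t ht hnt
    obtain ⟨g1, g2, g3⟩ := hfr t ht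
    have hyt : y ≠ c + t⁻¹ := fun h => hyT (h ▸ g1)
    have h6 := f5 T D y hcT hcmp hyc' (c + t⁻¹) g1 g2 hyt
    rw [g3] at h6
    apply h6.1
    apply hpr _ g1 _ hcT
    · rintro (h | h)
      · exact hyt h
      · rw [← f1 y (c + t⁻¹) hyc' g2 hyt, g3, dl_iff hYg (by omega)] at h
        exact hnt (Or.inr h)
    · rintro (h | h)
      · exact hyc' h
      · omega
  have hdd : S.dd Y (m - 1 + 1) = m := by
    unfold LF.dd LF.vm
    have h6 : m - 1 + 1 = m := by ring
    rw [h6]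
    split_ifs
    · rw [min_eq_right (by omega)]; ring
    · rw [min_eq_right hYv]; ring
  have hOut : S.OutR (LF.frT T c) Y (m - 1) :=
    (h4 p inferInstance L F inferInstance inferInstance S (LF.frT T c) m Y (m - 1) hrich).1
      (by rw [hdd]) (by omega)
  have hs0c : s0 ≠ c := by
    rintro rfl
    omega
  have hys0 : y ≠ s0 := fun h => hyT (h ▸ hs0)
  have hsh : ∃ s ∈ LF.frT T c, s ≠ Y ∧ S.v (Y - s) = m - 1 + 1 := by
    refine ⟨(s0 - c)⁻¹, ⟨inv_ne_zero (sub_ne_zero.2 hs0c), ?_⟩, ?_, ?_⟩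
    · rw [inv_inv, add_sub_cancel]; exact hs0
    · intro h
      apply hys0
      have := inv_injective h
      exact (sub_left_injective this).symm
    · have h6 := f1 y s0 hyc' hs0c hys0
      rw [hds0] at h6
      have h7 := (dl_iff hYg (n := m) (by omega)).1 h6.symm.le
      have h8 : ¬ m + 1 ≤ S.v (Y - (s0 - c)⁻¹) := by
        intro h9
        have := (dl_iff hYg (n := m + 1) (by omega)).2 h9
        rw [h6] at this
        omega
      omega
  obtain ⟨Y', hYY', hAP'⟩ := h3 p inferInstance L F inferInstance inferInstance S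
    (LF.frT T c) (LF.frD D c) Y (m - 1) hacmp hAP hOut hsh
  rw [sub_add_cancel] at hAP'
  -- perturbation
  obtain ⟨N, hN⟩ : ∃ N : ℕ, (N : ℤ) = m + S.e := ⟨(m + S.e).toNat, Int.toNat_of_nonneg (by omega)⟩
  have hinj : Function.Injective fun k : ℕ => c + (Y' + S.π ^ (N + k))⁻¹ := by
    intro a b hab
    have h6 := inv_injective (add_right_injective c hab)
    have h7 : S.π ^ (N + a) = S.π ^ (N + b) := add_right_injective Y' h6
    have h8 := congrArg S.v h7
    rw [v_pi_pow, v_pi_pow] at h8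
    push_cast at h8
    omega
  obtain ⟨k, hk⟩ : ∃ k : ℕ, c + (Y' + S.π ^ (N + k))⁻¹ ∉ T := by
    by_contra hno
    push Not at hno
    have h6 : Set.range (fun k : ℕ => c + (Y' + S.π ^ (N + k))⁻¹) ⊆ T := by
      rintro _ ⟨k, rfl⟩
      exact hno k
    exact Set.infinite_range_of_injective hinj (hfin.subset h6)
  set Z : L := Y' + S.π ^ (N + k) with hZ
  set y' : L := c + Z⁻¹ with hy'
  have hZY' : S.Gz (m + S.e) (Z - Y') := by
    right
    rw [hZ, add_sub_cancel_left, v_pi_pow]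
    push_cast
    omega
  have hZ0 : Z ≠ 0 := by
    intro h
    apply hk
    rw [hy', h, inv_zero, add_zero]
    exact hcT
  have hy'c : y' ≠ c := by
    intro h
    exact inv_ne_zero hZ0 (by simpa [hy'] using h)
  have hZy : (y' - c)⁻¹ = Z := by rw [hy', add_sub_cancel_left, inv_inv]
  have hAPZ : S.AP (LF.frT T c) (LF.frD D c) Z m := ap_move hAP' hZY'
  have hZY : S.Gz (m - 1 + S.e) (Z - Y) := by
    have : Z - Y = (Z - Y') + (Y' - Y) := by ring
    rw [this]
    exact gz_add (gz_mono hZY' (by omega)) hYY'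
  have hZg : S.Gz 0 Z := by
    have : Z = (Z - Y) + Y := by ring
    rw [this]
    exact gz_add (gz_mono hZY (by omega)) hYg
  refine ⟨y', hk, ?_, ?_⟩
  · by_cases hyy : y = y'
    · left; exact hyy
    · right
      rw [← f1 y y' hyc' hy'c hyy, hZy, dl_iff hYg (by omega), v_sub_comm]
      refine gz_v hZY ?_
      intro h
      apply hyy
      have h6 : (y' - c)⁻¹ = (y - c)⁻¹ := by rw [hZy]; exact sub_eq_zero.1 h
      exact (sub_left_injective (inv_injective h6)).symm
  · -- the system at `c`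
    have hDcc : Eqv p (D c c) 1 := by
      have h6 := hcmp.coc c hcT c hcT c hcT
      have h7 := eqv_mul h6 (eqv_refl p (D c c)⁻¹)
      have h8 := hcmp.ne c hcT c hcT
      rwa [mul_assoc, mul_inv_cancel₀ h8, mul_one] at h7
    have hD : ∀ t ∈ T, ¬ S.Cl m y' t → Eqv p (D t c) ((y' - t) / (y' - c)) := by
      intro t ht hnt
      by_cases htc : t = c
      · rw [htc, div_self (sub_ne_zero.2 hy'c)]; exact hDcc
      have hy't : y' ≠ t := fun h => hk (h ▸ ht)
      rw [f5 T D y' hcT hcmp hy'c t ht htc hy't, hZy]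
      apply hAPZ
      · refine ⟨inv_ne_zero (sub_ne_zero.2 htc), ?_⟩
        rw [inv_inv, add_sub_cancel]; exact ht
      · intro h
        apply hnt
        right
        rw [← f1 y' t hy'c htc hy't, hZy, dl_iff hZg (by omega)]
        refine gz_v h ?_
        intro h9
        apply hy't
        have h10 : (y' - c)⁻¹ = (t - c)⁻¹ := by rw [hZy]; exact sub_eq_zero.1 h9
        exact sub_left_injective (inv_injective h10)
    intro s hs t ht hns hnt
    have hs1 := hD s hs hns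
    have ht1 := hD t ht hnt
    have hyt : y' - t ≠ 0 := sub_ne_zero.2 fun h => hk (h ▸ ht)
    have hyc0 : y' - c ≠ 0 := sub_ne_zero.2 hy'c
    have hDtt : Eqv p (D t t) 1 := by
      have h6 := hcmp.coc t ht t ht t ht
      have h7 := eqv_mul h6 (eqv_refl p (D t t)⁻¹)
      have h8 := hcmp.ne t ht t ht
      rwa [mul_assoc, mul_inv_cancel₀ h8, mul_one] at h7
    -- `D c t` is the inverse of `D t c`
    have h6 : Eqv p (D c t) (D t c)⁻¹ := by
      have h7 := eqv_trans (hcmp.coc t ht c hcT t ht) hDtt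
      have h8 := eqv_mul (eqv_refl p (D t c)⁻¹) h7
      rwa [← mul_assoc, inv_mul_cancel₀ (hcmp.ne t ht c hcT), one_mul, mul_one] at h8
    have h7 : Eqv p (D s t) ((y' - s) / (y' - c) * ((y' - t) / (y' - c))⁻¹) :=
      eqv_trans (eqv_symm (hcmp.coc s hs c hcT t ht)) (eqv_mul hs1 (eqv_trans h6 (eqv_inv ht1)))
    have h8 : (y' - s) / (y' - c) * ((y' - t) / (y' - c))⁻¹ = (y' - s) / (y' - t) := by
      rw [inv_div, div_mul_div_cancel₀ hyc0]
    rwa [h8] at h7

end Pool.Agent.Lib.MP_c385f6_ag.Cpl
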