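import Mathlib
import Pool.Agent.Lib.MP_c385f6_ag.Cpl.Stmts

set_option autoImplicit false

/-!
Module A3 of the completeness theorem: the last errors are orthogonal to the principal units.
-/

namespace Pool.Agent.Lib.MP_c385f6_ag.Cpl

namespace A3Aux

variable {p : ℕ} {L F : Type} [Field L] [Field F] (S : LF p L F)

lemma v_one : S.v 1 = 0 := by
  have h := S.v_mul 1 1 one_ne_zero one_ne_zero
  rw [one_mul] at h
  omega

lemma v_neg_one : S.v (-1) = 0 := by
  have h := S.v_mul (-1) (-1) (neg_ne_zero.mpr one_ne_zero) (neg_ne_zero.mpr one_ne_zero)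
  rw [neg_mul_neg, one_mul, v_one] at h
  omega

lemma v_neg (x : L) : S.v (-x) = S.v x := by
  rcases eq_or_ne x 0 with rfl | hx
  · rw [neg_zero]
  · have h := S.v_mul (-1) x (neg_ne_zero.mpr one_ne_zero) hx
    rw [neg_one_mul, v_neg_one] at h
    omega

lemma v_sub_le {x y : L} (hx : x ≠ 0) (hy : y ≠ 0) (hxy : x ≠ y) :
    min (S.v x) (S.v y) ≤ S.v (x - y) := by
  have h := S.v_add x (-y) hx (neg_ne_zero.mpr hy) (by
    intro h0
    exact hxy (by linear_combination h0))
  rw [v_neg, ← sub_eq_add_neg] at h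
  exact h

lemma v_sub_eq {x y : L} (hx : x ≠ 0) (hy : y ≠ 0) (hlt : S.v y < S.v x) :
    S.v (x - y) = S.v y := by
  have hxy : x ≠ y := by
    rintro rfl
    exact lt_irrefl _ hlt
  have h1 := v_sub_le S hx hy hxy
  have h2 := v_sub_le S (x := x) (y := x - y) hx (sub_ne_zero.mpr hxy) (by
    intro h0
    exact hy (by linear_combination h0))
  rw [sub_sub_cancel] at h2
  have h3 : min (S.v x) (S.v (x - y)) ≤ S.v y := h2
  rcases min_le_iff.mp h3 with h4 | h4
  · omega
  · rw [min_eq_right hlt.le] at h1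
    omega

lemma exists_frame (h1 : StChord) [hp : Fact p.Prime] {T : Set L} {m : ℤ} {y : L} (hm : 1 ≤ m)
    (hN : S.Net T m) (hy : y ∉ T) : ∃ c ∈ T, 0 ≤ S.v c ∧ S.dl y c = 0 := by
  obtain ⟨hsym, hnn, -, hult, -, -, hex, -, -⟩ := h1 p hp L F inferInstance inferInstance S
  obtain ⟨c0, hc0y, hc0, hd0⟩ := hex y
  obtain ⟨c, hcT, hcl⟩ := hN c0
  have hcy : y ≠ c := fun h => hy (h ▸ hcT)
  refine ⟨c, hcT, ?_⟩
  rcases hcl with h | h
  · rw [← h]
    exact ⟨hc0, hd0⟩
  · rcases eq_or_ne c0 c with heq | hne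
    · rw [← heq]
      exact ⟨hc0, hd0⟩
    · constructor
      · by_contra hneg
        push Not at hneg
        have hcne : c ≠ 0 := by
          rintro rfl
          rw [S.v_zero] at hneg
          exact lt_irrefl _ hneg
        have h2 : S.v (c0 - c) = S.v c := by
          rcases eq_or_ne c0 0 with h0 | h0
          · rw [h0, zero_sub, v_neg]
          · exact v_sub_eq S h0 hcne (by omega)
        have h3 : S.dl c0 c = 0 := by
          unfold LF.dl
          rw [h2]
          omega
        omega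
      · have h2 := hult y c c0 hcy hne.symm hc0y.symm
        rw [hsym c c0, hd0] at h2
        have h3 := hnn y c hcy
        rcases min_le_iff.mp h2 with h4 | h4 <;> omega

end A3Aux

open A3Aux in
/-- (A3) -/
theorem stA3 (h1 : StChord) (h2 : StFrame) (h3 : StSpan) (_h4 : StRich) (h5 : StSym) : StA3 := by
  intro p hp L F _ _ S T D m y hm hN hC hy hPr t ht hdt r hr hdr u hu
  have he := S.two_le
  have hm1 : 1 ≤ m := by omega
  obtain ⟨c, hcT, hvc, hdc⟩ := exists_frame S h1 hm1 hN hy
  obtain ⟨hf1, hf2, hf3, hf4, hf5⟩ := h2 p hp L F inferInstance inferInstance S c hvc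
  obtain ⟨hsym, hnn, -, hult, -, -, -, -, -⟩ := h1 p hp L F inferInstance inferInstance S
  have hyc : y ≠ c := fun h => hy (h ▸ hcT)
  have hyt : y ≠ t := fun h => hy (h ▸ ht)
  have hyr : y ≠ r := fun h => hy (h ▸ hr)
  have htc : t ≠ c := by
    rintro rfl
    omega
  have hyc' : y - c ≠ 0 := sub_ne_zero.mpr hyc
  have htc' : t - c ≠ 0 := sub_ne_zero.mpr htc
  have hyt' : y - t ≠ 0 := sub_ne_zero.mpr hyt
  have hyr' : y - r ≠ 0 := sub_ne_zero.mpr hyr
  set y' := (y - c)⁻¹ with hy'
  have hy'0 : y' ≠ 0 := inv_ne_zero hyc'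
  have hvy' : 0 ≤ S.v y' := by
    have h := hf2 y hyc
    rw [hdc, ← hy'] at h
    omega
  have hncl : ∀ x, y ≠ x → S.dl y x < m → ¬ S.Cl m y x := by
    intro x hx hlt hcl
    rcases hcl with h | h
    · exact hx h
    · omega
  -- the distances in the new frame
  have hdist : ∀ x, x ≠ 0 → x ≠ y' → (0 ≤ S.v x → S.v (y' - x) = S.dl y' x) ∧
      (S.v x < 0 → S.dl y' x = 0) := by
    intro x hx hxy
    constructor
    · intro hv
      unfold LF.dl
      omega
    · intro hv
      have h := v_sub_eq S hy'0 hx (by omega)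
      unfold LF.dl
      rw [h]
      omega
  have hACmp := hf4 T D hcT hC
  have hRich := hf3 T m hm1 hN
  have hAP : S.AP (LF.frT T c) (LF.frD D c) y' m := by
    intro x hx hGz
    obtain ⟨hx0, hxT⟩ := hx
    set s := c + x⁻¹ with hs
    have hsc : s - c = x⁻¹ := by rw [hs]; ring
    have hsc0 : s - c ≠ 0 := by rw [hsc]; exact inv_ne_zero hx0
    have hsc1 : s ≠ c := sub_ne_zero.mp hsc0
    have hxs : (s - c)⁻¹ = x := by rw [hsc, inv_inv]
    have hys : y ≠ s := fun h => hy (h ▸ hxT)
    have hxy : x ≠ y' := by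
      intro h
      apply hys
      have h6 : (s - c)⁻¹ = (y - c)⁻¹ := by rw [hxs, h]
      have h7 := inv_injective h6
      linear_combination -h7
    have hlt : S.v (y' - x) < m := by
      by_contra hge
      push Not at hge
      exact hGz (Or.inr hge)
    have hdl : S.dl y s < m := by
      have h6 := hf1 y s hyc hsc1 hys
      rw [hxs, ← hy'] at h6
      rw [← h6]
      obtain ⟨ha, hb⟩ := hdist x hx0 hxy
      rcases le_or_gt 0 (S.v x) with h | h
      · rw [← ha h]
        exact hlt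
      · rw [hb h]
        omega
    have h8 := hPr s hxT c hcT (hncl s hys hdl) (hncl c hyc (by omega))
    have h9 := (hf5 T D y hcT hC hyc s hxT hsc1 hys).mp h8
    rw [hxs] at h9
    exact h9
  have hOut : S.OutR (LF.frT T c) y' m := by
    intro i hi1 hie x hxy hvx
    have hvx0 : 0 ≤ S.v x := by
      rcases eq_or_ne x 0 with h0 | h0
      · rw [h0, S.v_zero]
      · have h6 := v_sub_le S (x := y') (y := y' - x) hy'0 (sub_ne_zero.mpr hxy.symm) (by
          intro h
          exact h0 (by linear_combination h))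
        rw [sub_sub_cancel, hvx] at h6
        have h7 : (0 : ℤ) ≤ min (S.v y') (m - i) := le_min hvy' (by omega)
        omega
    refine hRich x (m - i + 1) ?_
    unfold LF.dd LF.vm
    split_ifs <;> omega
  have htT : (t - c)⁻¹ ∈ LF.frT T c := by
    refine ⟨inv_ne_zero htc', ?_⟩
    rw [inv_inv]
    have h6 : c + (t - c) = t := by ring
    rw [h6]
    exact ht
  have hty' : (t - c)⁻¹ ≠ y' := by
    intro h
    have h7 := inv_injective h
    exact hyt (by linear_combination -h7)
  have hvt : S.v (y' - (t - c)⁻¹) = m := by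
    have h6 := hf1 y t hyc htc hyt
    rw [← hy', hdt] at h6
    obtain ⟨ha, hb⟩ := hdist (t - c)⁻¹ (inv_ne_zero htc') hty'
    rcases le_or_gt 0 (S.v (t - c)⁻¹) with h | h
    · rw [ha h, h6]
    · have h7 := hb h
      omega
  have hspan := h3 p hp L F inferInstance inferInstance S (LF.frT T c) (LF.frD D c) y' m hACmp hAP
    hOut (t - c)⁻¹ htT hty' hvt.ge u (by rw [hvt, sub_self, zero_add]; exact hu)
  have hE : LF.frD D c (t - c)⁻¹ / (y' - (t - c)⁻¹) = D t c * ((y - c) / (y - t)) := by
    unfold LF.frD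
    have h6 : c + ((t - c)⁻¹)⁻¹ = t := by rw [inv_inv]; ring
    rw [h6, hy', inv_sub_inv hyc' htc']
    have h7 : t - c - (y - c) = -(y - t) := by ring
    rw [h7]
    field_simp
  rw [hE] at hspan
  -- comparison of `r` and `c`
  obtain ⟨z1, hz1, he1⟩ := hC.coc t ht c hcT r hr
  obtain ⟨z2, hz2, he2⟩ := hPr c hcT r hr (hncl c hyc (by omega)) (hncl r hyr (by omega))
  have hDtr := hC.ne t ht r hr
  have hDtc := hC.ne t ht c hcT
  have hDcr := hC.ne c hcT r hr
  have hEr : D t r * ((y - r) / (y - t)) ≠ 0 := mul_ne_zero hDtr (div_ne_zero hyr' hyt')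
  have hEc : D t c * ((y - c) / (y - t)) ≠ 0 := mul_ne_zero hDtc (div_ne_zero hyc' hyt')
  have heqv : Eqv p (D t r * ((y - r) / (y - t))) (D t c * ((y - c) / (y - t))) := by
    refine ⟨z2 / z1, div_ne_zero hz2 hz1, ?_⟩
    have hz1p : z1 ^ p ≠ 0 := pow_ne_zero _ hz1
    have h6 : D t r = D t c * D c r / z1 ^ p := by
      rw [he1]
      field_simp
    rw [h6, he2, div_pow]
    field_simp
  have h10 := ((h5 p hp L F inferInstance inferInstance S).2.1 _ _ 1 hEr hEc one_ne_zero).mp heqv u
    hu.1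
  rw [h10]
  exact hspan

end Pool.Agent.Lib.MP_c385f6_ag.Cpl
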