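import Mathlib
import Pool.Agent.Lib.MP_c385f6_ag.Cpl.StLoc

set_option autoImplicit false

/-!
The residue lemma: in an extension `E / F` of finite fields of suitable degree `d` prime to the
characteristic there is `α` such that the trace of `1 / (y - α)` is not zero for all `y` in `F`.
-/

namespace Pool.Agent.Lib.MP_c385f6_ag.Cpl

open Module Finset

namespace AlphaAux

section

variable {F E : Type} [Field F] [Field E] [Algebra F E] [Finite E]

lemma finite_base (F E : Type) [Field F] [Field E] [Algebra F E] [Finite E] : Finite F :=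
  Finite.of_injective _ (algebraMap F E).injective

/-- The number of pairs. -/
lemma uniq (H : ∀ α : E, ∃ y : F, Algebra.trace F E (algebraMap F E y - α)⁻¹ = 0) (α : E)
    (y y' : F) (hy : Algebra.trace F E (algebraMap F E y - α)⁻¹ = 0)
    (hy' : Algebra.trace F E (algebraMap F E y' - α)⁻¹ = 0) : y = y' := by
  have hF : Finite F := finite_base F E
  let S := {p : F × E // Algebra.trace F E (algebraMap F E p.1 - p.2)⁻¹ = 0}
  let f : S → E := fun p => p.1.2
  have hf : Function.Surjective f := by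
    intro α
    obtain ⟨y, hy⟩ := H α
    exact ⟨⟨(y, α), hy⟩, rfl⟩
  let e : S ≃ F × LinearMap.ker (Algebra.trace F E) :=
    { toFun := fun p => (p.1.1, ⟨(algebraMap F E p.1.1 - p.1.2)⁻¹, p.2⟩)
      invFun := fun r => ⟨(r.1, algebraMap F E r.1 - (r.2 : E)⁻¹), by
        have := r.2.2
        rw [LinearMap.mem_ker] at this
        simp [this]⟩
      left_inv := by
        rintro ⟨⟨y, α⟩, h⟩
        simp
      right_inv := by
        rintro ⟨y, ⟨b, hb⟩⟩
        simp }
  have hcard : Nat.card S = Nat.card E := by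
    rw [Nat.card_congr e, Nat.card_prod,
      Submodule.card_eq_card_quotient_mul_card (LinearMap.ker (Algebra.trace F E)),
      Nat.card_congr ((Algebra.trace F E).quotKerEquivOfSurjective
        (Algebra.trace_surjective F E)).toEquiv, mul_comm]
  have hS : Finite S := inferInstance
  obtain ⟨e'⟩ := Finite.card_eq.mp hcard
  have hinj : Function.Injective f := (Finite.injective_iff_surjective_of_equiv e').mpr hf
  have h1 := hinj (a₁ := ⟨(y, α), hy⟩) (a₂ := ⟨(y', α), hy'⟩) rfl
  exact congrArg (fun s : S => s.1.1) h1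

/-- The Frobenius automorphism. -/
lemma exists_frob (F E : Type) [Field F] [Field E] [Algebra F E] [Finite E] :
    ∃ σ : E ≃ₐ[F] E, orderOf σ = finrank F E ∧
      (∀ x, algebraMap F E (Algebra.trace F E x) = ∑ i ∈ range (finrank F E), (σ ^ i) x) ∧
      (∀ x, σ x = x → ∃ y, algebraMap F E y = x) := by
  have hF : Finite F := finite_base F E
  have hF' : Fintype F := Fintype.ofFinite F
  refine ⟨FiniteField.frobeniusAlgEquivOfAlgebraic F E,
    FiniteField.orderOf_frobeniusAlgEquivOfAlgebraic F E, ?_, ?_⟩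
  · intro x
    rw [trace_eq_sum_automorphisms, Finset.sum_range]
    exact (Function.Bijective.sum_comp
      (FiniteField.bijective_frobeniusAlgEquivOfAlgebraic_pow F E) (fun τ => τ x)).symm
  · intro x hx
    have h1 : x ∈ Set.range (algebraMap F E) := by
      rw [IsGalois.mem_range_algebraMap_iff_fixed]
      intro τ
      obtain ⟨n, rfl⟩ := (FiniteField.bijective_frobeniusAlgEquivOfAlgebraic_pow F E).2 τ
      have h2 : ∀ n : ℕ, (FiniteField.frobeniusAlgEquivOfAlgebraic F E ^ n) x = x := by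
        intro n
        induction n with
        | zero => rfl
        | succ n ih =>
          rw [pow_succ, AlgEquiv.mul_apply, hx, ih]
      exact h2 n
    exact h1

/-- The trace form is not degenerate. -/
lemma exists_trace_mul_ne {a : E} (ha : a ≠ 0) : ∃ b : E, Algebra.trace F E (a * b) ≠ 0 := by
  have hF : Finite F := finite_base F E
  have htr := (traceForm_nondegenerate F E).1 a
  simp_rw [Algebra.traceForm_apply] at htr
  by_contra! hf
  exact ha (htr hf)

end

section

variable {F E : Type} [Field F] [Field E] [Algebra F E] [Finite E]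

/-- Odd characteristic, degree four. -/
lemma odd_case (h2 : (2 : E) ≠ 0) (hd : finrank F E = 4) :
    ∃ α : E, ∀ y : F, Algebra.trace F E (algebraMap F E y - α)⁻¹ ≠ 0 := by
  by_contra! H
  have hF : Finite F := finite_base F E
  have h2F : (2 : F) ≠ 0 := by
    intro h
    apply h2
    have := congrArg (algebraMap F E) h
    rwa [map_ofNat, map_zero] at this
  obtain ⟨σ, hord, htr, -⟩ := exists_frob F E
  rw [hd] at hord
  have htr4 : ∀ x, algebraMap F E (Algebra.trace F E x) = x + σ x + σ (σ x) + σ (σ (σ x)) := by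
    intro x
    rw [htr x, hd, Finset.sum_range_succ, Finset.sum_range_succ, Finset.sum_range_succ,
      Finset.sum_range_one]
    rfl
  have hσ4 : ∀ x, σ (σ (σ (σ x))) = x := by
    intro x
    have h1 : σ ^ 4 = 1 := by rw [← hord]; exact pow_orderOf_eq_one σ
    exact DFunLike.congr_fun h1 x
  -- the trace is invariant
  have hinv : ∀ x, Algebra.trace F E (σ (σ x)) = Algebra.trace F E x := by
    intro x
    apply (algebraMap F E).injective
    rw [htr4, htr4, hσ4]
    ring
  obtain ⟨z, hz⟩ : ∃ z, σ (σ z) ≠ z := by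
    by_contra! h
    have h1 : σ ^ 2 = 1 := by
      ext x
      exact h x
    have h3 := orderOf_dvd_of_pow_eq_one h1
    rw [hord] at h3
    omega
  obtain ⟨α₁, hα₁, hV₁⟩ : ∃ α, α ≠ 0 ∧ σ (σ α) = -α := by
    refine ⟨z - σ (σ z), sub_ne_zero.mpr (Ne.symm hz), ?_⟩
    rw [map_sub, map_sub, hσ4]
    ring
  obtain ⟨b, hb⟩ := exists_trace_mul_ne (F := F) hα₁
  have hVβ : σ (σ (b - σ (σ b))) = -(b - σ (σ b)) := by
    rw [map_sub, map_sub, hσ4]
    ring
  have hβ : Algebra.trace F E (α₁ * (b - σ (σ b))) = 2 * Algebra.trace F E (α₁ * b) := by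
    have h1 : α₁ * σ (σ b) = -σ (σ (α₁ * b)) := by
      rw [map_mul, map_mul, hV₁]
      ring
    rw [mul_sub, h1, map_sub, map_neg, hinv]
    ring
  obtain ⟨α₀, hV₀, ht⟩ : ∃ α, σ (σ α) = -α ∧ Algebra.trace F E (α * α) ≠ 0 := by
    by_contra! h
    have h1 := h α₁ hV₁
    have h3 := h (b - σ (σ b)) hVβ
    have h4 := h (α₁ + (b - σ (σ b))) (by rw [map_add, map_add, hV₁, hVβ]; ring)
    have h5 : (α₁ + (b - σ (σ b))) * (α₁ + (b - σ (σ b))) = α₁ * α₁ +
        (b - σ (σ b)) * (b - σ (σ b)) + (α₁ * (b - σ (σ b)) + α₁ * (b - σ (σ b))) := by ring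
    rw [h5, map_add, map_add, map_add, h1, h3, hβ] at h4
    have h6 : 2 * (2 * Algebra.trace F E (α₁ * b)) = 0 := by linear_combination h4
    exact hb ((mul_eq_zero.mp ((mul_eq_zero.mp h6).resolve_left h2F)).resolve_left h2F)
  set t := Algebra.trace F E (α₀ * α₀) with htdef
  have htE : algebraMap F E t ≠ 0 := by
    rw [Ne, map_eq_zero]
    exact ht
  -- a square root
  obtain ⟨γ, hγ⟩ : ∃ γ : E, algebraMap F E t = γ * γ := by
    have hE' : Fintype E := Fintype.ofFinite E
    have hF' : Fintype F := Fintype.ofFinite F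
    have hc : ringChar E ≠ 2 := by
      intro hc
      apply h2
      have := ringChar.Nat.cast_ringChar (R := E)
      rw [hc] at this
      exact_mod_cast this
    have hcF : ringChar F ≠ 2 := by
      intro hc
      apply h2F
      have := ringChar.Nat.cast_ringChar (R := F)
      rw [hc] at this
      exact_mod_cast this
    rw [← IsSquare, FiniteField.isSquare_iff hc htE]
    obtain ⟨k, hk⟩ : ∃ k, Fintype.card F = 2 * k + 1 :=
      ⟨Fintype.card F / 2, by have := FiniteField.odd_card_of_char_ne_two hcF; omega⟩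
    have hcard : Fintype.card E / 2 = (Fintype.card F - 1) * ((k + 1) * (4 * k ^ 2 + 4 * k + 2)) := by
      rw [Module.card_eq_pow_finrank (K := F) (V := E), hd, hk]
      have : (2 * k + 1) ^ 4 = 2 * ((2 * k + 1 - 1) * ((k + 1) * (4 * k ^ 2 + 4 * k + 2))) + 1 := by
        rw [Nat.add_sub_cancel]
        ring
      omega
    rw [hcard, pow_mul, ← map_pow, FiniteField.pow_card_sub_one_eq_one _ ht, map_one, one_pow]
  have hσσγ : σ (σ γ) = γ := by
    have h1 : σ γ * σ γ = γ * γ := by rw [← map_mul, ← hγ, AlgEquiv.commutes]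
    rcases mul_self_eq_mul_self_iff.mp h1 with h | h
    · rw [h, h]
    · rw [h, map_neg, h, neg_neg]
  have hα₀ : α₀ ≠ 0 := by
    rintro rfl
    exact ht (by simp [htdef])
  have hγ0 : γ ≠ 0 := by
    rintro rfl
    exact htE (by simpa using hγ)
  obtain ⟨α, hαdef⟩ : ∃ α, α = γ * α₀ := ⟨_, rfl⟩
  have hα : α ≠ 0 := by rw [hαdef]; exact mul_ne_zero hγ0 hα₀
  have hV : σ (σ α) = -α := by
    rw [hαdef, map_mul, map_mul, hσσγ, hV₀]
    ring
  have hsq : 2 * (α * α + σ α * σ α) = algebraMap F E t * algebraMap F E t := by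
    have h1 : Algebra.trace F E (α * α) = t * t := by
      have : α * α = t • (α₀ * α₀) := by
        rw [hαdef, Algebra.smul_def, hγ]
        ring
      rw [this, map_smul, smul_eq_mul]
    have h3 := htr4 (α * α)
    rw [h1, map_mul] at h3
    rw [h3]
    simp only [map_mul, hV, map_neg]
    ring
  -- two values
  have e0 : Algebra.trace F E (algebraMap F E 0 - α)⁻¹ = 0 := by
    apply (algebraMap F E).injective
    rw [htr4, map_zero, zero_sub, map_inv₀, map_inv₀, map_inv₀, map_neg, map_neg, map_neg, hV,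
      map_neg, neg_neg, neg_neg, inv_neg, inv_neg]
    ring
  have hY : 2 * algebraMap F E (t / 2) = algebraMap F E t := by
    have : t = 2 * (t / 2) := by field_simp
    conv_rhs => rw [this]
    rw [map_mul, map_ofNat]
  have e1 : Algebra.trace F E (algebraMap F E (t / 2) - α)⁻¹ = 0 := by
    apply (algebraMap F E).injective
    have hYσ : σ (algebraMap F E (t / 2)) = algebraMap F E (t / 2) := σ.commutes _
    rw [htr4, map_zero, map_inv₀, map_inv₀, map_inv₀, map_sub, map_sub, map_sub, hYσ, hYσ, hYσ, hV,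
      map_neg, sub_neg_eq_add, sub_neg_eq_add]
    set Y := algebraMap F E (t / 2) with hYdef
    have h1 : α * α + σ α * σ α = 2 * (Y * Y) := by
      rw [← hY] at hsq
      apply mul_left_cancel₀ h2
      rw [hsq]
      ring
    have h3 : Y - α ≠ 0 := by
      intro h
      have h4 : α = Y := (sub_eq_zero.mp h).symm
      rw [h4, hYσ, hYσ] at hV
      have : 2 * Y = 0 := by linear_combination hV
      exact hα (by rw [h4]; exact (mul_eq_zero.mp this).resolve_left h2)
    have h4 : Y + α ≠ 0 := by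
      intro h
      have h4 : α = -Y := by linear_combination h
      rw [h4, map_neg, map_neg, hYσ, hYσ] at hV
      have : 2 * Y = 0 := by linear_combination -hV
      exact hα (by rw [h4, (mul_eq_zero.mp this).resolve_left h2, neg_zero])
    have h5 : (Y - σ α) * (Y + σ α) = -((Y - α) * (Y + α)) := by linear_combination -h1
    have h6 : (Y - σ α) * (Y + σ α) ≠ 0 := by
      rw [h5]
      exact neg_ne_zero.mpr (mul_ne_zero h3 h4)
    have h7 : Y - σ α ≠ 0 := left_ne_zero_of_mul h6
    have h8 : Y + σ α ≠ 0 := right_ne_zero_of_mul h6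
    field_simp
    linear_combination (2 * Y) * h5
  have h9 := uniq H α 0 (t / 2) e0 e1
  apply ht
  have : t = 2 * (t / 2) := by field_simp
  rw [this, ← h9, mul_zero]

/-- Characteristic two, degree five. -/
lemma even_case (h2 : (2 : E) = 0) (hd : finrank F E = 5) :
    ∃ α : E, ∀ y : F, Algebra.trace F E (algebraMap F E y - α)⁻¹ ≠ 0 := by
  by_contra! H
  have hF : Finite F := finite_base F E
  obtain ⟨σ, hord, htr, hfix⟩ := exists_frob F E
  rw [hd] at hord
  have htr5 : ∀ x, algebraMap F E (Algebra.trace F E x) =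
      x + σ x + σ (σ x) + σ (σ (σ x)) + σ (σ (σ (σ x))) := by
    intro x
    rw [htr x, hd, Finset.sum_range_succ, Finset.sum_range_succ, Finset.sum_range_succ,
      Finset.sum_range_succ, Finset.sum_range_one]
    rfl
  have hσ5 : ∀ x, σ (σ (σ (σ (σ x)))) = x := by
    intro x
    have h1 : σ ^ 5 = 1 := by rw [← hord]; exact pow_orderOf_eq_one σ
    exact DFunLike.congr_fun h1 x
  -- the second coefficient
  obtain ⟨e2, he2⟩ : ∃ e2 : E → E, ∀ x, e2 x = x * σ x + x * σ (σ x) + x * σ (σ (σ x)) +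
      x * σ (σ (σ (σ x))) + σ x * σ (σ x) + σ x * σ (σ (σ x)) + σ x * σ (σ (σ (σ x))) +
      σ (σ x) * σ (σ (σ x)) + σ (σ x) * σ (σ (σ (σ x))) + σ (σ (σ x)) * σ (σ (σ (σ x))) :=
    ⟨_, fun x => rfl⟩
  obtain ⟨α, hα⟩ : ∃ α, e2 α ≠ 0 := by
    by_contra! h
    obtain ⟨z, hz⟩ : ∃ z, σ z ≠ z := by
      by_contra! h
      have h1 : σ ^ 1 = 1 := by
        ext x
        exact h x
      have h3 := orderOf_dvd_of_pow_eq_one h1
      rw [hord] at h3
      omega
    have ha0 : z + algebraMap F E (Algebra.trace F E z) ≠ 0 := by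
      intro h0
      apply hz
      have h1 : z = -algebraMap F E (Algebra.trace F E z) := by linear_combination h0
      rw [h1, map_neg, AlgEquiv.commutes]
    obtain ⟨a, ha⟩ : ∃ a, a = z + algebraMap F E (Algebra.trace F E z) := ⟨_, rfl⟩
    rw [← ha] at ha0
    have hta : a + σ a + σ (σ a) + σ (σ (σ a)) + σ (σ (σ (σ a))) = 0 := by
      have hc : ∀ y : F, σ (algebraMap F E y) = algebraMap F E y := σ.commutes
      rw [ha]
      simp only [map_add, hc]
      have h1 := htr5 z
      linear_combination (-1 : E) * h1 + (3 * algebraMap F E (Algebra.trace F E z)) * h2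
    obtain ⟨b, hb⟩ := exists_trace_mul_ne (F := F) ha0
    apply hb
    apply (algebraMap F E).injective
    rw [htr5, map_zero]
    have h3 := h (a + b)
    have h4 := h a
    have h5 := h b
    rw [he2] at h3 h4 h5
    simp only [map_add] at h3
    simp only [map_mul]
    linear_combination (-1 : E) * h3 + h4 + h5 +
      (b + σ b + σ (σ b) + σ (σ (σ b)) + σ (σ (σ (σ b)))) * hta
  obtain ⟨y, hy⟩ := H α
  have hYσ : ∀ y : F, σ (algebraMap F E y) = algebraMap F E y := σ.commutes
  have hσα : σ α ≠ α := by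
    intro h
    apply hα
    rw [he2]
    simp only [h]
    linear_combination (5 * (α * α)) * h2
  have n0 : ∀ y : F, algebraMap F E y - α ≠ 0 := by
    intro y h
    apply hσα
    rw [← sub_eq_zero.mp h, hYσ]
  have n1 : ∀ y : F, algebraMap F E y - σ α ≠ 0 := by
    intro y h
    apply n0 y
    apply σ.injective
    rw [map_sub, hYσ, h, map_zero]
  have n2 : ∀ y : F, algebraMap F E y - σ (σ α) ≠ 0 := by
    intro y h
    apply n1 y
    apply σ.injective
    rw [map_sub, hYσ, h, map_zero]
  have n3 : ∀ y : F, algebraMap F E y - σ (σ (σ α)) ≠ 0 := by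
    intro y h
    apply n2 y
    apply σ.injective
    rw [map_sub, hYσ, h, map_zero]
  have n4 : ∀ y : F, algebraMap F E y - σ (σ (σ (σ α))) ≠ 0 := by
    intro y h
    apply n3 y
    apply σ.injective
    rw [map_sub, hYσ, h, map_zero]
  -- the derivative of the characteristic polynomial
  obtain ⟨a0, ha0⟩ : ∃ a0, a0 = α := ⟨_, rfl⟩
  obtain ⟨a1, ha1⟩ : ∃ a1, a1 = σ α := ⟨_, rfl⟩
  obtain ⟨a2, ha2⟩ : ∃ a2, a2 = σ (σ α) := ⟨_, rfl⟩
  obtain ⟨a3, ha3⟩ : ∃ a3, a3 = σ (σ (σ α)) := ⟨_, rfl⟩
  obtain ⟨a4, ha4⟩ : ∃ a4, a4 = σ (σ (σ (σ α))) := ⟨_, rfl⟩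
  have key : ∀ y : F, Algebra.trace F E (algebraMap F E y - α)⁻¹ = 0 ↔
      algebraMap F E y ^ 4 + e2 α * algebraMap F E y ^ 2 +
        (a1 * a2 * a3 * a4 + a0 * a2 * a3 * a4 + a0 * a1 * a3 * a4 + a0 * a1 * a2 * a4 +
          a0 * a1 * a2 * a3) = 0 := by
    intro y
    have m0 := n0 y
    have m1 := n1 y
    have m2 := n2 y
    have m3 := n3 y
    have m4 := n4 y
    rw [← map_eq_zero (algebraMap F E), htr5, he2]
    simp only [map_inv₀, map_sub, hYσ]
    rw [← ha0, ← ha1, ← ha2, ← ha3, ← ha4] at *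
    set Y := algebraMap F E y
    have h1 : (Y - a0)⁻¹ + (Y - a1)⁻¹ + (Y - a2)⁻¹ + (Y - a3)⁻¹ + (Y - a4)⁻¹ =
        ((Y - a1) * (Y - a2) * (Y - a3) * (Y - a4) + (Y - a0) * (Y - a2) * (Y - a3) * (Y - a4) +
          (Y - a0) * (Y - a1) * (Y - a3) * (Y - a4) + (Y - a0) * (Y - a1) * (Y - a2) * (Y - a4) +
          (Y - a0) * (Y - a1) * (Y - a2) * (Y - a3)) /
        ((Y - a0) * (Y - a1) * (Y - a2) * (Y - a3) * (Y - a4)) := by
      field_simp
    rw [h1, div_eq_zero_iff, or_iff_left (mul_ne_zero (mul_ne_zero (mul_ne_zero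
      (mul_ne_zero m0 m1) m2) m3) m4)]
    have h3 : (Y - a1) * (Y - a2) * (Y - a3) * (Y - a4) + (Y - a0) * (Y - a2) * (Y - a3) * (Y - a4) +
          (Y - a0) * (Y - a1) * (Y - a3) * (Y - a4) + (Y - a0) * (Y - a1) * (Y - a2) * (Y - a4) +
          (Y - a0) * (Y - a1) * (Y - a2) * (Y - a3) =
        Y ^ 4 + (a0 * a1 + a0 * a2 + a0 * a3 + a0 * a4 + a1 * a2 + a1 * a3 + a1 * a4 + a2 * a3 +
          a2 * a4 + a3 * a4) * Y ^ 2 + (a1 * a2 * a3 * a4 + a0 * a2 * a3 * a4 + a0 * a1 * a3 * a4 +
          a0 * a1 * a2 * a4 + a0 * a1 * a2 * a3) + 2 * (2 * Y ^ 4 -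
            2 * (a0 + a1 + a2 + a3 + a4) * Y ^ 3 +
            (a0 * a1 + a0 * a2 + a0 * a3 + a0 * a4 + a1 * a2 + a1 * a3 + a1 * a4 + a2 * a3 +
          a2 * a4 + a3 * a4) * Y ^ 2 - (a0 * a1 * a2 + a0 * a1 * a3 + a0 * a1 * a4 + a0 * a2 * a3 +
            a0 * a2 * a4 + a0 * a3 * a4 + a1 * a2 * a3 + a1 * a2 * a4 + a1 * a3 * a4 +
            a2 * a3 * a4) * Y) := by ring
    rw [h3, h2, zero_mul, add_zero]
  -- a square root of the second coefficient
  obtain ⟨a, ha⟩ : ∃ a : E, e2 α = a * a := by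
    have hE' : Fintype E := Fintype.ofFinite E
    have hc : ringChar E = 2 := by
      have h3 : ringChar E ∣ 2 := (ringChar.spec E 2).mp (by exact_mod_cast h2)
      rcases (Nat.dvd_prime Nat.prime_two).mp h3 with h | h
      · exact absurd h (CharP.ringChar_ne_one)
      · exact h
    exact FiniteField.isSquare_of_char_two hc _
  have hσa : σ a = a := by
    have h1 : σ (e2 α) = e2 α := by
      rw [he2]
      simp only [map_add, map_mul, hσ5]
      ring
    rw [ha, map_mul] at h1
    rcases mul_self_eq_mul_self_iff.mp h1 with h | h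
    · exact h
    · rw [h]
      linear_combination (-a) * h2
  obtain ⟨c, hc⟩ := hfix a hσa
  have hyc : Algebra.trace F E (algebraMap F E (y + c) - α)⁻¹ = 0 := by
    rw [key, map_add, hc]
    have h1 := (key y).mp hy
    rw [ha] at h1 ⊢
    linear_combination h1 + (2 * algebraMap F E y ^ 3 * a + 3 * algebraMap F E y ^ 2 * a ^ 2 +
      2 * algebraMap F E y * a ^ 3 + a * a * (algebraMap F E y * a) + a ^ 4) * h2
  have h3 := uniq H α y (y + c) hy hyc
  have h4 : c = 0 := by linear_combination -h3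
  apply hα
  rw [ha, ← hc, h4, map_zero, mul_zero]

end

end AlphaAux

theorem stAlpha : StAlpha := by
  intro p hp
  have hp' : p.Prime := hp.out
  by_cases h : p = 2
  · subst h
    refine ⟨5, by norm_num, by norm_num, ?_⟩
    intro F E _ _ _ _ hch hd
    refine AlphaAux.even_case ?_ hd
    have h1 : ((2 : ℕ) : F) = 0 := CharP.cast_eq_zero F 2
    have h2 := congrArg (algebraMap F E) h1
    rw [map_natCast, map_zero] at h2
    exact_mod_cast h2
  · refine ⟨4, by norm_num, ?_, ?_⟩
    · rw [show (4 : ℕ) = 2 ^ 2 by norm_num]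
      exact Nat.Coprime.pow_left 2 ((Nat.coprime_primes Nat.prime_two hp').mpr (Ne.symm h))
    · intro F E _ _ _ _ hch hd
      refine AlphaAux.odd_case ?_ hd
      intro h2
      have h3 : CharP E p := charP_of_injective_algebraMap (algebraMap F E).injective p
      have h4 : p ∣ 2 := (CharP.cast_eq_zero_iff E p 2).mp (by exact_mod_cast h2)
      exact h ((Nat.prime_dvd_prime_iff_eq hp' Nat.prime_two).mp h4)

end Pool.Agent.Lib.MP_c385f6_ag.Cpl
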