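import Pool.Agent.Lib.MP_c385f6_ag.Cpl.Span

set_option autoImplicit false

/-! Section 5: a finite Baire argument gives a large ball on which the system is trivial. -/

namespace Pool.Agent.Lib.MP_c385f6_ag.Cpl

namespace BaireAux

open SpanAux

section Eqv

variable {L : Type*} [Field L] {p : ℕ}

theorem eqv_refl (x : L) : Eqv p x x := ⟨1, one_ne_zero, by simp⟩

theorem eqv_symm {x y : L} (h : Eqv p x y) : Eqv p y x := by
  obtain ⟨z, hz, h⟩ := h
  refine ⟨z⁻¹, inv_ne_zero hz, ?_⟩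
  rw [h, mul_assoc, inv_pow, mul_inv_cancel₀ (pow_ne_zero p hz), mul_one]

theorem eqv_trans {x y z : L} (h : Eqv p x y) (h' : Eqv p y z) : Eqv p x z := by
  obtain ⟨a, ha, rfl⟩ := h
  obtain ⟨b, hb, rfl⟩ := h'
  exact ⟨b * a, mul_ne_zero hb ha, by rw [mul_pow]; ring⟩

theorem eqv_mul {x y x' y' : L} (h : Eqv p x y) (h' : Eqv p x' y') :
    Eqv p (x * x') (y * y') := by
  obtain ⟨a, ha, rfl⟩ := h
  obtain ⟨b, hb, rfl⟩ := h'
  exact ⟨a * b, mul_ne_zero ha hb, by rw [mul_pow]; ring⟩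

theorem eqv_cancel {x y z : L} (hx : x ≠ 0) (h : Eqv p (x * y) (x * z)) : Eqv p y z := by
  obtain ⟨a, ha, h⟩ := h
  exact ⟨a, ha, mul_left_cancel₀ hx (by rw [h]; ring)⟩

end Eqv

variable {p : ℕ} {L F : Type*} [Field L] [Field F] (S : LF p L F)

theorem gz_zero (n : ℤ) : S.Gz n 0 := Or.inl rfl

theorem gz_add {n : ℤ} {x y : L} (hx : S.Gz n x) (hy : S.Gz n y) : S.Gz n (x + y) := by
  rcases eq_or_ne x 0 with rfl | hx0
  · simpa using hy
  rcases eq_or_ne y 0 with rfl | hy0
  · simpa using hx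
  rcases eq_or_ne (x + y) 0 with h | h
  · exact Or.inl h
  · right
    have h1 := hx.resolve_left hx0
    have h2 := hy.resolve_left hy0
    have h3 := S.v_add x y hx0 hy0 h
    omega

theorem gz_neg {n : ℤ} {x : L} (hx : S.Gz n x) : S.Gz n (-x) := by
  rcases eq_or_ne x 0 with rfl | hx0
  · simpa using hx
  · right
    rw [v_neg S hx0]
    exact hx.resolve_left hx0

theorem gz_mono {n n' : ℤ} {x : L} (hn : n' ≤ n) (hx : S.Gz n x) : S.Gz n' x := by
  rcases hx with h | h
  · exact Or.inl h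
  · exact Or.inr (hn.trans h)

theorem gz_sub_comm {n : ℤ} {x y : L} (h : S.Gz n (x - y)) : S.Gz n (y - x) := by
  have := gz_neg S h
  rwa [neg_sub] at this

theorem gz_tri {n : ℤ} {x y z : L} (h : S.Gz n (x - y)) (h' : S.Gz n (y - z)) :
    S.Gz n (x - z) := by
  have := gz_add S h h'
  rwa [sub_add_sub_cancel] at this

/-- elements of the ball of integers -/
theorem v_nonneg {n : ℤ} (hn : 0 ≤ n) {x y : L} (hx : 0 ≤ S.v x) (h : S.Gz n (y - x)) :
    0 ≤ S.v y := by
  have h1 : S.Gz 0 (y - x) := gz_mono S hn h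
  have h2 : S.Gz 0 x := Or.inr hx
  have h3 := gz_add S h1 h2
  rw [sub_add_cancel] at h3
  rcases h3 with h3 | h3
  · rw [h3, S.v_zero]
  · exact h3

theorem v_inv {x : L} (hx : x ≠ 0) : S.v x⁻¹ = - S.v x := by
  have h := v_div S one_ne_zero hx
  rw [one_div, v_one S] at h
  omega

theorem v_pow {x : L} (hx : x ≠ 0) (n : ℕ) : S.v (x ^ n) = n * S.v x := by
  induction n with
  | zero => rw [pow_zero, v_one S]; simp
  | succ n ih =>
    rw [pow_succ, S.v_mul _ _ (pow_ne_zero n hx) hx, ih]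
    push_cast
    ring

theorem v_zpow {x : L} (hx : x ≠ 0) (k : ℤ) : S.v (x ^ k) = k * S.v x := by
  obtain ⟨n, rfl | rfl⟩ := k.eq_nat_or_neg
  · rw [zpow_natCast, v_pow S hx]
  · rw [zpow_neg, zpow_natCast, v_inv S (pow_ne_zero n hx), v_pow S hx]
    ring

/-- the finite Baire argument -/
theorem baire (T : Set L) (col : L → L) (C : Finset L) (hcol : ∀ t ∈ T, col t ∈ C) (L0 m : ℤ)
    (hT : ∀ x, 0 ≤ S.v x → ∃ t ∈ T, S.Gz m (t - x)) (hL0 : 0 ≤ L0)
    (hm : 1 + C.card * L0 ≤ m) :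
    ∃ x, 0 ≤ S.v x ∧ ∃ n : ℤ, 1 ≤ n ∧ n ≤ 1 + C.card * L0 ∧ ∃ a ∈ C, ∀ x', S.Gz n (x' - x) →
      ∃ t ∈ T, col t = a ∧ S.Gz (n + L0) (t - x') := by
  classical
  by_contra H
  push Not at H
  have key : ∀ A : Finset L, A ⊆ C → ∃ x, 0 ≤ S.v x ∧ ∀ t ∈ T, col t ∈ A →
      ¬ S.Gz (1 + A.card * L0) (t - x) := by
    intro A
    induction A using Finset.induction_on with
    | empty =>
      intro _
      exact ⟨0, by rw [S.v_zero], fun t _ ht => absurd ht (Finset.notMem_empty _)⟩
    | insert a A ha ih =>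
      intro hA
      obtain ⟨x, hx, hxA⟩ := ih ((Finset.subset_insert a A).trans hA)
      have haC : a ∈ C := hA (Finset.mem_insert_self a A)
      have hcard : (A.card : ℤ) ≤ C.card := by
        exact_mod_cast Finset.card_le_card ((Finset.subset_insert a A).trans hA)
      have hc0 : (0 : ℤ) ≤ A.card * L0 := mul_nonneg (by positivity) hL0
      have hc1 : (A.card : ℤ) * L0 ≤ C.card * L0 := mul_le_mul_of_nonneg_right hcard hL0
      obtain ⟨x', hx', hx'a⟩ := H x hx (1 + A.card * L0) (by omega) (by omega) a haC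
      refine ⟨x', v_nonneg S (n := 1 + A.card * L0) (by omega) hx hx', ?_⟩
      have hcd : ((insert a A).card : ℤ) * L0 = A.card * L0 + L0 := by
        rw [Finset.card_insert_of_notMem ha]
        push_cast
        ring
      intro t ht hta hg
      rw [hcd] at hg
      rcases Finset.mem_insert.1 hta with h | h
      · exact hx'a t ht h (by convert hg using 1; ring)
      · exact hxA t ht h (gz_tri S (gz_mono S (by omega) hg) hx')
  obtain ⟨x, hx, hxC⟩ := key C (Finset.Subset.refl C)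
  obtain ⟨t, ht, htx⟩ := hT x hx
  exact hxC t ht (hcol t ht) (gz_mono S hm htx)

/-- nets meet the balls inside the ball of integers -/
theorem net_int {T : Set L} {m : ℤ} (hm : 1 ≤ m) (hT : S.Net T m) (x : L) (hx : 0 ≤ S.v x) :
    ∃ t ∈ T, S.Gz m (t - x) := by
  obtain ⟨t, ht, h⟩ := hT x
  refine ⟨t, ht, ?_⟩
  rcases h with h | h
  · rw [h, sub_self]
    exact gz_zero S m
  · rcases eq_or_ne x t with rfl | hne
    · rw [sub_self]
      exact gz_zero S m
    · unfold LF.dl at h
      by_cases hvt : 0 ≤ S.v t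
      · apply gz_sub_comm
        right
        omega
      · exfalso
        have ht0 : t ≠ 0 := by
          rintro rfl
          rw [S.v_zero] at hvt
          exact hvt le_rfl
        have h1 := (v_add_of_lt S (x := -t) (y := x) (neg_ne_zero.2 ht0)
          (Or.inr (by rw [v_neg S ht0]; omega))).2
        rw [v_neg S ht0] at h1
        have h2 : x - t = -t + x := by ring
        rw [h2, h1] at h
        omega

/-- the values of the symbol at the difference -/
theorem key (hU : ∀ x u, x ≠ 0 → S.Un (S.e + 1) u → S.h x u = 0 ∧ S.h u x = 0)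
    (hp : 0 < p) {T : Set L} {D : L → L → L} (hD : S.Cmp T D) {n : ℤ} {s c : L}
    (hs : s ∈ T) (hc : c ∈ T) (hsc : s ≠ c)
    (hg : ∀ x', S.Gz n (x' - s) → ∃ t ∈ T, Eqv p (D t c) 1 ∧ S.Gz (n + (p + S.e + 1)) (t - x'))
    (w : L) (hw : w ≠ 0) : S.h (D s c) w = S.h (D s c) (s - c) := by
  have hp' : (0 : ℤ) < p := by exact_mod_cast hp
  have hδ : D s c ≠ 0 := hD.ne s hs c hc
  set z : L := S.π ^ (-((S.v w - n) / p)) with hz
  have hz0 : z ≠ 0 := zpow_ne_zero _ S.pi_ne
  have hvz : S.v z = -((S.v w - n) / p) := by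
    rw [hz, v_zpow S S.pi_ne, S.v_pi, mul_one]
  set w' : L := w * z ^ p with hw'
  have hw'0 : w' ≠ 0 := mul_ne_zero hw (pow_ne_zero p hz0)
  have hvw' : S.v w' = n + (S.v w - n) % p := by
    rw [hw', S.v_mul _ _ hw (pow_ne_zero p hz0), v_pow S hz0, hvz]
    have := Int.emod_add_mul_ediv (S.v w - n) p
    linear_combination -this
  have hr0 : 0 ≤ (S.v w - n) % p := Int.emod_nonneg _ hp'.ne'
  have hr1 : (S.v w - n) % p < p := Int.emod_lt_of_pos _ hp'
  obtain ⟨t, ht, htc, htx⟩ := hg (s - w') (by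
    right
    rw [sub_sub_cancel_left, v_neg S hw'0]
    omega)
  have hst : s ≠ t := by
    rintro rfl
    rw [sub_sub_cancel] at htx
    have := htx.resolve_left hw'0
    omega
  have hst' : s - t ≠ 0 := sub_ne_zero.2 hst
  -- `s - t` and `w` have the same class
  have hu0 : (s - t) / w' ≠ 0 := div_ne_zero hst' hw'0
  have hu : S.Un (S.e + 1) ((s - t) / w') := by
    refine ⟨hu0, ?_⟩
    rcases eq_or_ne (t - (s - w')) 0 with h | h
    · left
      rw [div_eq_one_iff_eq hw'0]
      linear_combination -h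
    · right
      have h1 : (s - t) / w' - 1 = -(t - (s - w')) / w' := by
        field_simp
        ring
      rw [h1, v_div S (neg_ne_zero.2 h) hw'0, v_neg S h]
      have := htx.resolve_left h
      omega
  have hhw : S.h (D s c) (s - t) = S.h (D s c) w := by
    have h1 : s - t = w' * ((s - t) / w') := by field_simp
    rw [h1, S.h_mul_right _ _ _ hδ hw'0 hu0, (hU _ _ hδ hu).1, add_zero, hw',
      S.h_mul_right _ _ _ hδ hw (pow_ne_zero p hz0), h_pow_p S hδ hz0, add_zero]
  rw [← hhw]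
  rcases eq_or_ne t c with rfl | htc'
  · rfl
  · have hrel := hD.rel s hs t ht c hc hst htc' hsc
    obtain ⟨y, hy, hty⟩ := htc
    rw [one_mul] at hty
    have hts : t - s ≠ 0 := sub_ne_zero.2 hst.symm
    have htc0 : t - c ≠ 0 := sub_ne_zero.2 htc'
    have hsc0 : s - c ≠ 0 := sub_ne_zero.2 hsc
    have hP : (t - c) / (t - s) ≠ 0 := div_ne_zero htc0 hts
    have hR : (s - c) / (s - t) ≠ 0 := div_ne_zero hsc0 hst'
    have hPR : (t - c) / (t - s) + (s - c) / (s - t) = 1 := by
      have h2 : s - t = -(t - s) := by ring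
      rw [h2]
      field_simp
      ring
    rw [hty, S.h_mul_right _ _ _ (mul_ne_zero hδ hP) (pow_ne_zero p hy) hR,
      h_pow_p S (mul_ne_zero hδ hP) hy, zero_add, S.h_mul_left _ _ _ hδ hP hR,
      S.steinberg _ _ hP hR hPR, add_zero] at hrel
    have h3 : s - c = (s - c) / (s - t) * (s - t) := by field_simp
    rw [h3, S.h_mul_right _ _ _ hδ hR hst', hrel, zero_add]

end BaireAux

open BaireAux SpanAux in
theorem stBaire (h1 : StSym) : StBaire := by
  intro p hp L F _ _ S
  obtain ⟨-, hEq, -, -, hU, -⟩ := h1 p hp L F _ _ S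
  have hp0 : 0 < p := hp.out.pos
  obtain ⟨C, hC⟩ := S.fin
  have hL0 : (0 : ℤ) ≤ p + S.e + 1 := by positivity
  refine ⟨1 + C.card * (p + S.e + 1) + S.e, ?_⟩
  intro T D m hm hnet hD
  have hCp : (0 : ℤ) ≤ C.card * (p + S.e + 1) := mul_nonneg (by positivity) hL0
  have he0 : (0 : ℤ) ≤ S.e := by positivity
  have hT := net_int S (by omega : 1 ≤ m) hnet
  obtain ⟨u, hu, -⟩ := hT 0 (by rw [S.v_zero])
  choose f hf using hC
  classical
  -- the diagonal and symmetry
  have hdiag : ∀ t ∈ T, Eqv p (D t t) 1 := by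
    intro t ht
    have h2 := hD.coc t ht t ht t ht
    refine eqv_cancel (hD.ne t ht t ht) ?_
    rw [mul_one]
    exact h2
  let col : L → L := fun t => if h : D t u ≠ 0 then f (D t u) h else 0
  have hcol : ∀ t (h : D t u ≠ 0), col t = f (D t u) h := fun t h => dif_pos h
  have hcolC : ∀ t ∈ T, col t ∈ C := by
    intro t ht
    rw [hcol t (hD.ne t ht u hu)]
    exact (hf _ _).1
  have hcolE : ∀ s ∈ T, ∀ t ∈ T, col s = col t → Eqv p (D s t) 1 := by
    intro s hs t ht hst
    have h2 : Eqv p (D s u) (col s) := by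
      rw [hcol s (hD.ne s hs u hu)]
      exact (hf _ _).2
    have h3 : Eqv p (D t u) (col s) := by
      rw [hst, hcol t (hD.ne t ht u hu)]
      exact (hf _ _).2
    have h4 := hD.coc s hs t ht u hu
    have h5 : Eqv p (D t u * D s t) (D t u * 1) := by
      rw [mul_one, mul_comm]
      exact eqv_trans h4 (eqv_trans h2 (eqv_symm h3))
    exact eqv_cancel (hD.ne t ht u hu) h5
  obtain ⟨x, hx, n, hn1, hn2, a, ha, hgood⟩ := baire S T col C hcolC (p + S.e + 1) m hT hL0
    (by omega)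
  obtain ⟨c, hc, hca, hcx⟩ := hgood x (by rw [sub_self]; exact gz_zero S n)
  have hcx' : S.Gz n (c - x) := gz_mono S (by omega) hcx
  have hmain : ∀ s ∈ T, S.Gz n (s - c) → Eqv p (D s c) 1 := by
    intro s hs hsc
    rcases eq_or_ne s c with rfl | hne
    · exact hdiag s hs
    · have hk := BaireAux.key S hU hp0 hD (n := n) hs hc hne (by
        intro x' hx'
        obtain ⟨t, ht, hta, htx⟩ := hgood x' (gz_tri S hx' (gz_tri S hsc hcx'))
        exact ⟨t, ht, hcolE t ht c hc (hta.trans hca.symm), htx⟩)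
      have hδ : D s c ≠ 0 := hD.ne s hs c hc
      rw [hEq (D s c) 1 1 hδ one_ne_zero one_ne_zero]
      intro w hw
      have h2 := hk 1 one_ne_zero
      rw [h_one S hδ] at h2
      rw [hk w hw, ← h2]
      have h3 := S.h_mul_left 1 1 w one_ne_zero one_ne_zero hw
      rw [mul_one] at h3
      exact left_eq_add.1 h3 |>.symm
  refine ⟨c, hc, v_nonneg S (by omega) hx hcx', n, hn1, by omega, ?_⟩
  intro s hs t ht hsc htc
  have h2 := hD.coc s hs t ht c hc
  have h3 := hmain s hs hsc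
  have h4 := hmain t ht htc
  have h5 : Eqv p (D t c * D s t) (D t c * 1) := by
    rw [mul_one, mul_comm]
    exact eqv_trans h2 (eqv_trans h3 (eqv_symm h4))
  exact eqv_cancel (hD.ne t ht c hc) h5

end Pool.Agent.Lib.MP_c385f6_ag.Cpl
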