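import Mathlib
import Pool.Agent.Lib.MP_c385f6_ag.Cpl.StCof
import Pool.Agent.Lib.MP_c385f6_ag.Cpl.Chord

set_option autoImplicit false

/-!
(W3) The distances of the points of `k` from a point which is not in `k` are bounded.
-/

namespace Pool.Agent.Lib.MP_c385f6_ag.Cpl

open Polynomial Module

namespace BddAux

/-- a finite Galois extension of `k` which contains `F` and a primitive `p`-th root of unity -/
theorem exists_ext (p : ℕ) [hp : Fact p.Prime] (k F : Type) [Field k] [Field F]
    [Algebra ℚ_[p] k] [FiniteDimensional ℚ_[p] k] [Algebra ℚ_[p] F] [FiniteDimensional ℚ_[p] F]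
    [Algebra k F] [IsScalarTower ℚ_[p] k F] :
    ∃ (N : Type) (_ : Field N) (_ : Algebra ℚ_[p] N) (_ : Algebra k N) (_ : Algebra F N),
      FiniteDimensional ℚ_[p] N ∧ IsScalarTower ℚ_[p] F N ∧ IsScalarTower ℚ_[p] k N ∧
      IsScalarTower k F N ∧ IsGalois k N ∧ ∃ ζ : N, IsPrimitiveRoot ζ p := by
  classical
  have hc : CharZero k := charZero_of_injective_algebraMap (algebraMap ℚ_[p] k).injective
  have hcF : CharZero F := charZero_of_injective_algebraMap (algebraMap ℚ_[p] F).injective
  have hfd : FiniteDimensional k F := Module.Finite.of_restrictScalars_finite ℚ_[p] k F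
  let Ω := AlgebraicClosure F
  have halg : Algebra.IsAlgebraic k Ω := Algebra.IsAlgebraic.trans k F Ω
  have hcΩ : CharZero Ω := charZero_of_injective_algebraMap (algebraMap F Ω).injective
  have hAC : IsAlgClosure k Ω := ⟨inferInstance, halg⟩
  have hnorm : Normal k Ω := IsAlgClosure.normal k Ω
  have hgal : IsGalois k Ω := ⟨⟩
  obtain ⟨ζ, hζ⟩ : ∃ ζ : Ω, IsPrimitiveRoot ζ p := by
    have : NeZero (p : Ω) := ⟨by exact_mod_cast hp.out.ne_zero⟩
    exact HasEnoughRootsOfUnity.exists_primitiveRoot Ω p
  obtain ⟨t, ht⟩ := (Module.Finite.fg_top : (⊤ : Submodule k F).FG)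
  let s : Set Ω := insert ζ (algebraMap F Ω '' (t : Set F))
  have hs : Finite s := ((t.finite_toSet.image _).insert ζ).to_subtype
  let N := (FiniteGaloisIntermediateField.adjoin k s).toIntermediateField
  have hsub : s ⊆ N := FiniteGaloisIntermediateField.subset_adjoin k s
  have hF : ∀ x : F, algebraMap F Ω x ∈ N := by
    intro x
    have hx : x ∈ Submodule.span k (t : Set F) := by
      rw [ht]
      exact Submodule.mem_top
    induction hx using Submodule.span_induction with
    | mem y hy => exact hsub (Set.mem_insert_of_mem _ ⟨y, hy, rfl⟩)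
    | zero => rw [map_zero]; exact zero_mem _
    | add y z _ _ hy hz => rw [map_add]; exact add_mem hy hz
    | smul a y _ hy =>
      rw [Algebra.smul_def, map_mul, ← IsScalarTower.algebraMap_apply k F Ω]
      exact mul_mem (N.algebraMap_mem a) hy
  let f : F →+* N := (algebraMap F Ω).codRestrict N.toSubfield.toSubring.toSubsemiring hF
  let iF : Algebra F N := f.toAlgebra
  have hf : ∀ x : F, ((algebraMap F N x : N) : Ω) = algebraMap F Ω x := fun x => rfl
  have h1 : IsScalarTower k F N := by
    refine IsScalarTower.of_algebraMap_eq fun x => ?_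
    apply Subtype.ext
    rw [hf, ← IsScalarTower.algebraMap_apply k F Ω]
    rfl
  have h2 : IsScalarTower ℚ_[p] k N := inferInstance
  have h3 : IsScalarTower ℚ_[p] F N := by
    refine IsScalarTower.of_algebraMap_eq fun x => ?_
    rw [IsScalarTower.algebraMap_apply ℚ_[p] k F, ← IsScalarTower.algebraMap_apply k F N,
      ← IsScalarTower.algebraMap_apply ℚ_[p] k N]
  have h4 : FiniteDimensional k N := (FiniteGaloisIntermediateField.adjoin k s).finiteDimensional
  have h5 : IsGalois k N := (FiniteGaloisIntermediateField.adjoin k s).isGalois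
  have h6 : FiniteDimensional ℚ_[p] N := FiniteDimensional.trans ℚ_[p] k N
  refine ⟨N, _, _, _, iF, h6, h3, h2, h1, h5,
    ⟨ζ, hsub (Set.mem_insert _ _)⟩, ?_⟩
  exact IsPrimitiveRoot.of_map_of_injective (f := N.val) hζ N.val.injective

theorem dl_mul {p : ℕ} {L F E E' : Type} [Field L] [Field F] [Field E] [Field E'] [Algebra L F]
    {S : LF p L E} {S' : LF p F E'} {r : ℕ}
    (h : ∀ x : L, S'.v (algebraMap L F x) = r * S.v x) (x y : L) :
    S'.dl (algebraMap L F x) (algebraMap L F y) = r * S.dl x y := by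
  unfold LF.dl
  have h1 : ∀ a : ℤ, min 0 ((r : ℤ) * a) = r * min 0 a := by
    intro a
    have := (Monotone.map_min (f := fun z : ℤ => (r : ℤ) * z)
      (fun a b hab => mul_le_mul_of_nonneg_left hab (Int.natCast_nonneg r)) (a := 0) (b := a))
    simpa using this.symm
  rw [← map_sub, h, h, h, h1, h1]
  ring

end BddAux

theorem stBdd (h1 : StVn) (h2 : StLF) : StBdd := by
  intro p hp k F E _ _ _ _ _ _ _ _ _ S hS τ hτ
  obtain ⟨N, _, _, _, _, hfd, hQF, hQk, hkF, hgal, ζ, hζ⟩ := BddAux.exists_ext p k F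
  obtain ⟨E', _, S', -, -, hv, -, hp'⟩ := h2 p hp N _ _ hfd ζ hζ
  obtain ⟨r, hr, hr'⟩ := h1 p hp F N E E' _ _ _ _ _ inferInstance _ hfd _ hQF S S' hS hp'
  have hfk : FiniteDimensional k N := Module.Finite.of_restrictScalars_finite ℚ_[p] k N
  -- a conjugate
  obtain ⟨g, hg⟩ : ∃ g : N ≃ₐ[k] N, g (algebraMap F N τ) ≠ algebraMap F N τ := by
    by_contra hcon
    push Not at hcon
    obtain ⟨y, hy⟩ := (IsGalois.mem_range_algebraMap_iff_fixed _).2 hcon
    apply hτ y
    apply (algebraMap F N).injective
    rw [← hy, ← IsScalarTower.algebraMap_apply k F N]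
  have hvg : ∀ x : N, S'.v (g x) = S'.v x := by
    intro x
    have := hv (g.restrictScalars ℚ_[p]) x
    rwa [AlgEquiv.restrictScalars_apply] at this
  have hdl : ∀ x y : N, S'.dl (g x) (g y) = S'.dl x y := by
    intro x y
    unfold LF.dl
    rw [← map_sub, hvg, hvg, hvg]
  refine ⟨S'.dl (algebraMap F N τ) (g (algebraMap F N τ)), fun y => ?_⟩
  have h3 : algebraMap F N τ ≠ algebraMap k N y := by
    rw [IsScalarTower.algebraMap_apply k F N]
    exact fun h => hτ y ((algebraMap F N).injective h).symm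
  have h4 : algebraMap k N y ≠ g (algebraMap F N τ) := by
    intro h
    apply h3
    apply g.injective
    rw [← h, AlgEquiv.commutes]
  have h5 := ChordAux.dl_ultra S' h3 h4 hg.symm
  have h6 : S'.dl (algebraMap k N y) (g (algebraMap F N τ)) =
      S'.dl (algebraMap k N y) (algebraMap F N τ) := by
    have := hdl (algebraMap k N y) (algebraMap F N τ)
    rwa [AlgEquiv.commutes] at this
  rw [h6, ChordAux.dl_comm S' (algebraMap F N τ) (algebraMap k N y), min_self,
    IsScalarTower.algebraMap_apply k F N, BddAux.dl_mul hr'] at h5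
  have h7 : 0 ≤ S.dl (algebraMap k F y) τ := ChordAux.dl_nonneg S (hτ y)
  have h8 : S.dl (algebraMap k F y) τ ≤ r * S.dl (algebraMap k F y) τ :=
    le_mul_of_one_le_left h7 (by exact_mod_cast hr)
  exact h8.trans h5

end Pool.Agent.Lib.MP_c385f6_ag.Cpl
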