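import Pool.Agent.Lib.MP_c385f6_ag.Cpl.Stmts

set_option autoImplicit false

/-!
The chain of steps (section 4 of MP_c385f6_allp.md).
-/

namespace Pool.Agent.Lib.MP_c385f6_ag.Cpl

namespace Chainaux

variable {p : ℕ} {L F : Type} [Field L] [Field F] (S : LF p L F)

theorem v_one : S.v 1 = 0 := by
  have := S.v_mul 1 1 one_ne_zero one_ne_zero
  rw [one_mul] at this
  omega

theorem v_neg (x : L) : S.v (-x) = S.v x := by
  by_cases hx : x = 0
  · simp [hx]
  have h0 : (-1 : L) ≠ 0 := neg_ne_zero.2 one_ne_zero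
  have h1 := S.v_mul (-1) (-1) h0 h0
  have h2 := v_one S
  have h3 := S.v_mul (-1) x h0 hx
  rw [neg_mul_neg, one_mul, h2] at h1
  rw [neg_one_mul] at h3
  omega

theorem gz_neg {n : ℤ} {x : L} (h : S.Gz n x) : S.Gz n (-x) := by
  rcases h with h | h
  · left; rw [h, neg_zero]
  · right; rwa [v_neg]

theorem gz_neg_iff {n : ℤ} {x : L} : S.Gz n (-x) ↔ S.Gz n x := by
  refine ⟨fun h => ?_, gz_neg S⟩
  have := gz_neg S h
  rwa [neg_neg] at this

theorem gz_add {n : ℤ} {x y : L} (hx : S.Gz n x) (hy : S.Gz n y) : S.Gz n (x + y) := by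
  by_cases h0 : x + y = 0
  · exact Or.inl h0
  rcases hx with hx | hx
  · rw [hx, zero_add]; exact hy
  rcases hy with hy | hy
  · rw [hy, add_zero]; exact Or.inr hx
  by_cases hx0 : x = 0
  · rw [hx0, zero_add]; exact Or.inr hy
  by_cases hy0 : y = 0
  · rw [hy0, add_zero]; exact Or.inr hx
  have := S.v_add x y hx0 hy0 h0
  right
  exact le_trans (le_min hx hy) this

theorem gz_mono {n n' : ℤ} (h : n ≤ n') {x : L} (hx : S.Gz n' x) : S.Gz n x := by
  rcases hx with hx | hx
  · exact Or.inl hx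
  · exact Or.inr (h.trans hx)

/-- the function `vm` only depends on the class -/
theorem vm_congr {n : ℤ} {x y : L} (h : S.Gz n (y - x)) : S.vm n y = S.vm n x := by
  unfold LF.vm
  by_cases hx : S.Gz n x
  · have hy : S.Gz n y := by
      have := gz_add S h hx
      rwa [sub_add_cancel] at this
    rw [if_pos hx, if_pos hy]
  · have hy : ¬ S.Gz n y := by
      intro hy
      apply hx
      have := gz_add S (gz_neg S h) hy
      have h2 : -(y - x) + y = x := by ring
      rwa [h2] at this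
    rw [if_neg hx, if_neg hy]
    by_cases hxy : y = x
    · rw [hxy]
    have hx0 : x ≠ 0 := fun h0 => hx (Or.inl h0)
    have hy0 : y ≠ 0 := fun h0 => hy (Or.inl h0)
    have hx1 : S.v x < n := by
      by_contra hc
      exact hx (Or.inr (not_lt.1 hc))
    have hy1 : S.v y < n := by
      by_contra hc
      exact hy (Or.inr (not_lt.1 hc))
    have hd0 : y - x ≠ 0 := sub_ne_zero.2 hxy
    have hd1 : n ≤ S.v (y - x) := by
      rcases h with h | h
      · exact absurd h hd0
      · exact h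
    have h1 := S.v_add (y - x) x hd0 hx0 (by rw [sub_add_cancel]; exact hy0)
    rw [sub_add_cancel] at h1
    have h2 := S.v_add (-(y - x)) y (neg_ne_zero.2 hd0) hy0
      (by rw [show -(y - x) + y = x by ring]; exact hx0)
    rw [show -(y - x) + y = x by ring, v_neg] at h2
    omega

theorem dd_congr {n : ℤ} {x y : L} (h : S.Gz n (y - x)) : S.dd y n = S.dd x n := by
  unfold LF.dd
  rw [vm_congr S h]

theorem dd_ge (x : L) (n : ℤ) : n ≤ S.dd x n := by
  unfold LF.dd
  omega

theorem dd_succ (x : L) (n : ℤ) : S.dd x (n + 1) ≤ S.dd x n + 1 := by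
  unfold LF.dd LF.vm
  by_cases h1 : S.Gz (n + 1) x
  · have h2 : S.Gz n x := gz_mono S (by omega) h1
    rw [if_pos h1, if_pos h2]
    omega
  · rw [if_neg h1]
    by_cases h2 : S.Gz n x
    · rw [if_pos h2]
      have hx0 : x ≠ 0 := fun h0 => h1 (Or.inl h0)
      have h3 : n ≤ S.v x := by
        rcases h2 with h2 | h2
        · exact absurd h2 hx0
        · exact h2
      omega
    · rw [if_neg h2]
      omega

theorem dd_zero (n : ℤ) : S.dd 0 n = n - 2 * min n 0 := by
  unfold LF.dd LF.vm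
  have h : S.Gz n 0 := Or.inl rfl
  rw [if_pos h]

/-- the iteration -/
theorem iter (h1 : StStep) (h2 : StRich) [hp : Fact p.Prime] (T : Set L) (D : L → L) (m j0 : ℤ)
    (hA : S.ACmp T D) (hR : S.Rich T m) (hm : j0 + S.e ≤ m) (k : ℕ) :
    ∀ (y : L) (j : ℤ), 1 - j0 ≤ j → S.AP T D y j → S.dd y (j + 1) ≤ m → m - (j + 1) ≤ k →
      ∃ (y : L) (J : ℤ), S.dd y J = m ∧ 2 - j0 ≤ J ∧ S.AP T D y (J - 1) := by
  induction k with
  | zero =>
    intro y j hj hP hd hk
    have h3 := dd_ge S y (j + 1)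
    refine ⟨y, j + 1, ?_, by omega, ?_⟩
    · push_cast at hk
      omega
    · rwa [add_sub_cancel_right]
  | succ k ih =>
    intro y j hj hP hd hk
    by_cases hd' : S.dd y (j + 1) = m
    · refine ⟨y, j + 1, hd', by omega, ?_⟩
      rwa [add_sub_cancel_right]
    obtain ⟨h3, h4⟩ := h2 p hp L F _ _ S T m y j hR
    have h5 := h3 hd (by omega)
    have h6 := h4 (by omega)
    obtain ⟨y', h7, h8⟩ := h1 p hp L F _ _ S T D y j hA hP h5 h6
    have he := S.two_le
    have h9 : S.dd y' (j + 1 + 1) = S.dd y (j + 1 + 1) :=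
      dd_congr S (gz_mono S (by omega) h7)
    have h10 := dd_succ S y (j + 1)
    refine ih y' (j + 1) (by omega) h8 (by omega) ?_
    push_cast at hk
    omega

end Chainaux

open Chainaux in
theorem stChain (h1 : StStep) (h2 : StRich) : StChain := by
  intro p hp L F _ _ S T D m j0 hA hR hj0 hm hD
  have he := S.two_le
  refine iter S h1 h2 T D m j0 hA hR hm (m + j0).toNat 0 (1 - j0) le_rfl ?_ ?_ ?_
  · intro t ht h
    rw [zero_sub] at h ⊢
    rw [gz_neg_iff] at h
    have h0 : t ≠ 0 := fun h0 => h (Or.inl h0)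
    refine hD t ht h0 ?_
    by_contra hc
    exact h (Or.inr (by omega))
  · rw [dd_zero]
    omega
  · omega

end Pool.Agent.Lib.MP_c385f6_ag.Cpl
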