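import Pool.Agent.Lib.MP_c385f6_ag.Cpl.Stmts

set_option autoImplicit false

/-! Assembly of the completeness theorem (section 7 of the plan). -/

namespace Pool.Agent.Lib.MP_c385f6_ag.Cpl

namespace CplAux

section eqv
variable {L : Type*} [Field L] {p : ℕ}

theorem erefl (x : L) : Eqv p x x := ⟨1, one_ne_zero, by simp⟩

theorem esymm {x y : L} (h : Eqv p x y) : Eqv p y x := by
  obtain ⟨z, hz, h⟩ := h
  refine ⟨z⁻¹, inv_ne_zero hz, ?_⟩
  rw [h, mul_assoc, ← mul_pow, mul_inv_cancel₀ hz, one_pow, mul_one]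

theorem etrans {x y w : L} (h : Eqv p x y) (h' : Eqv p y w) : Eqv p x w := by
  obtain ⟨z, hz, h⟩ := h
  obtain ⟨z', hz', h'⟩ := h'
  refine ⟨z' * z, mul_ne_zero hz' hz, ?_⟩
  rw [h, h', mul_pow, mul_assoc]

theorem emul {x y x' y' : L} (h : Eqv p x y) (h' : Eqv p x' y') :
    Eqv p (x * x') (y * y') := by
  obtain ⟨z, hz, h⟩ := h
  obtain ⟨z', hz', h'⟩ := h'
  refine ⟨z * z', mul_ne_zero hz hz', ?_⟩
  rw [h, h', mul_pow]
  ring

theorem einv {x y : L} (h : Eqv p x y) : Eqv p x⁻¹ y⁻¹ := by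
  obtain ⟨z, hz, h⟩ := h
  refine ⟨z⁻¹, inv_ne_zero hz, ?_⟩
  rw [h, mul_inv, inv_pow]

theorem ediv {x y x' y' : L} (h : Eqv p x y) (h' : Eqv p x' y') :
    Eqv p (x / x') (y / y') := by
  rw [div_eq_mul_inv, div_eq_mul_inv]
  exact emul h (einv h')

theorem emap {L' : Type*} [Field L'] (g : L →+* L') {x y : L} (h : Eqv p x y) :
    Eqv p (g x) (g y) := by
  obtain ⟨z, hz, h⟩ := h
  refine ⟨g z, (map_ne_zero g).mpr hz, ?_⟩
  rw [h, map_mul, map_pow]

end eqv

section gal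
variable {p : ℕ} {k L F : Type} [Field k] [Field L] [Field F] [Algebra k L] {S : LF p L F}

theorem dl_map (hv : ∀ (g : L ≃ₐ[k] L) (x : L), S.v (g x) = S.v x) (g : L ≃ₐ[k] L) (x y : L) :
    S.dl (g x) (g y) = S.dl x y := by
  unfold LF.dl
  rw [← map_sub, hv, hv, hv]

theorem cl_map (hv : ∀ (g : L ≃ₐ[k] L) (x : L), S.v (g x) = S.v x) (g : L ≃ₐ[k] L) (n : ℤ)
    (x y : L) : S.Cl n (g x) (g y) ↔ S.Cl n x y := by
  unfold LF.Cl
  rw [dl_map hv]
  constructor
  · rintro (h | h)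
    · exact Or.inl (g.injective h)
    · exact Or.inr h
  · rintro (h | h)
    · exact Or.inl (by rw [h])
    · exact Or.inr h

theorem pr_map (hv : ∀ (g : L ≃ₐ[k] L) (x : L), S.v (g x) = S.v x) {T : Set L}
    (hT : ∀ (g : L ≃ₐ[k] L), ∀ t ∈ T, g t ∈ T) {D : L → L → L}
    (hD : ∀ g : L ≃ₐ[k] L, ∀ s ∈ T, ∀ t ∈ T, Eqv p (D (g s) (g t)) (g (D s t)))
    {n : ℤ} {y : L} (h : S.Pr T D n y) (g : L ≃ₐ[k] L) : S.Pr T D n (g y) := by
  intro s hs t ht h1 h2
  obtain ⟨s', rfl⟩ := g.surjective s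
  obtain ⟨t', rfl⟩ := g.surjective t
  have hs' : s' ∈ T := by
    have := hT g.symm _ hs
    rwa [AlgEquiv.symm_apply_apply] at this
  have ht' : t' ∈ T := by
    have := hT g.symm _ ht
    rwa [AlgEquiv.symm_apply_apply] at this
  rw [cl_map hv] at h1 h2
  have h3 := emap (g : L →+* L) (h s' hs' t' ht' h1 h2)
  refine etrans (hD g s' hs' t' ht') ?_
  have h4 : g ((y - s') / (y - t')) = (g y - g s') / (g y - g t') := by
    rw [map_div₀, map_sub, map_sub]
  rw [← h4]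
  exact h3

end gal

end CplAux

open CplAux in
/-- the completeness theorem -/
theorem stCpl (h1 : StA1) (h2 : StA2) (h3 : StA3) (h4 : StUniq) (h5 : StMove) (h6 : StDesc)
    (h7 : StChord) (_h8 : StSym) : StCpl := by
  intro p hp k L F iK iL iF iA iD iG S hv hθ hz
  obtain ⟨m1, hm1⟩ := h1 p hp L F _ _ S
  obtain ⟨c1, c2, c3, c4, c5, -, -, -, -⟩ := h7 p hp L F _ _ S
  refine ⟨max m1 (S.e + 4), ?_⟩
  intro T m hm hfin hnet hT hT2 hT2' hT3 D hC hD
  have hm' : m1 ≤ m := le_trans (le_max_left _ _) hm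
  have hm'' : (S.e : ℤ) + 4 ≤ m := le_trans (le_max_right _ _) hm
  have he : (0 : ℤ) ≤ S.e := by positivity
  have csymm : ∀ n x y, S.Cl n x y → S.Cl n y x := by
    intro n x y h
    rcases h with h | h
    · exact Or.inl h.symm
    · exact Or.inr (by rw [c1]; exact h)
  have cmono : ∀ n n' x y, n' ≤ n → S.Cl n x y → S.Cl n' x y := by
    intro n n' x y hn h
    rcases h with h | h
    · exact Or.inl h
    · exact Or.inr (hn.trans h)
  have fix : ∀ (g : L ≃ₐ[k] L) (z : k), g (algebraMap k L z) = algebraMap k L z :=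
    fun g z => g.commutes z
  have nT : ∀ z : k, algebraMap k L z ∉ T := fun z hz' => (hT2 z _ hz').1 rfl
  -- step 1 to 3
  obtain ⟨y₁, -, p1⟩ := hm1 T D m hm' hfin hnet hC
  obtain ⟨z₁, q1⟩ := h6 p hp k L F iK iL iF iA iD iG S hv hθ hz (m - 1 + S.e) y₁ (by linarith)
    (fun g => h4 p hp L F _ _ S T D m (m - 1) y₁ (g y₁) hnet (by linarith) (by linarith) p1
      (pr_map hv hT hD p1 g))
  have p1' : S.Pr T D (m - 1) (algebraMap k L z₁) :=
    h5 p hp L F _ _ S T D (m - 1) y₁ _ (by linarith) hC p1 q1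
  -- step 4
  have lev : ∀ z : k, ∀ t ∈ T, S.Cl m (algebraMap k L z) t → S.dl (algebraMap k L z) t = m := by
    intro z t ht h
    rcases h with h | h
    · exact absurd h (hT2 z t ht).1
    · exact le_antisymm (hT2 z t ht).2 h
  obtain ⟨t₁, ht₁, ht₁'⟩ := hnet (algebraMap k L z₁)
  -- step 5
  obtain ⟨y₂, -, -, p2⟩ := h2 p hp L F _ _ S T D m (algebraMap k L z₁) (by linarith) hfin hnet hC
    (nT z₁) p1' ⟨t₁, ht₁, lev z₁ t₁ ht₁ ht₁'⟩
  -- step 6
  obtain ⟨z₂, q2⟩ := h6 p hp k L F iK iL iF iA iD iG S hv hθ hz (m + S.e) y₂ (by linarith)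
    (fun g => h4 p hp L F _ _ S T D m m y₂ (g y₂) hnet (by linarith) le_rfl p2
      (pr_map hv hT hD p2 g))
  have p2' : S.Pr T D m (algebraMap k L z₂) :=
    h5 p hp L F _ _ S T D m y₂ _ (by linarith) hC p2 q2
  -- step 7
  set y := algebraMap k L z₂ with hy
  obtain ⟨t₀, ht₀, ht₀'⟩ := hnet y
  have lt₀ : S.dl y t₀ = m := lev z₂ t₀ ht₀ ht₀'
  have yt₀ : y ≠ t₀ := (hT2 z₂ t₀ ht₀).1
  obtain ⟨r, hr, hr0⟩ : ∃ r ∈ T, S.dl y r = 0 := by
    obtain ⟨x, x1, x2⟩ := c5 y 0 le_rfl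
    obtain ⟨r, hr, hr'⟩ := hnet x
    refine ⟨r, hr, ?_⟩
    rcases hr' with rfl | hr'
    · exact x2
    · by_cases hxr : r = x
      · rw [hxr]; exact x2
      · have yr : y ≠ r := (hT2 z₂ r hr).1
        have := c4 y r x yr hxr (Ne.symm x1)
        rw [x2, c1 r x] at this
        have h0 := c2 y r yr
        rcases min_le_iff.mp this with h' | h'
        · exact le_antisymm h' h0
        · linarith
  have yr : y ≠ r := (hT2 z₂ r hr).1
  have ncl : ∀ z : L, S.Cl m y z → ∀ s, S.dl y s = 0 → y ≠ s → ¬ S.Cl m z s := by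
    intro z hz s hs hys h
    rcases c3 m y z s hz h with h' | h'
    · exact hys h'
    · linarith
  set E := D t₀ r * ((y - r) / (y - t₀)) with hE
  have nD : ∀ s ∈ T, ∀ t ∈ T, D s t ≠ 0 := hC.ne
  have E0 : E ≠ 0 := mul_ne_zero (nD _ ht₀ _ hr)
    (div_ne_zero (sub_ne_zero.mpr yr) (sub_ne_zero.mpr yt₀))
  have E1 : ∀ u, S.Un 1 u → S.h E u = 0 := fun u hu =>
    h3 p hp L F _ _ S T D m y (by linarith) hnet hC (nT z₂) p2' t₀ ht₀ lt₀ r hr hr0 u hu
  have gr : ∀ g : L ≃ₐ[k] L, S.dl y (g r) = 0 := by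
    intro g
    have := dl_map hv g y r
    rw [hy, fix, ← hy, hr0] at this
    exact this
  have E2 : ∀ g : L ≃ₐ[k] L, g t₀ = t₀ → Eqv p (g E) E := by
    intro g hg
    have a1 : Eqv p (D r (g r)) ((y - r) / (y - g r)) :=
      p2' r hr _ (hT g r hr) (ncl y (Or.inl rfl) r hr0 yr)
        (ncl y (Or.inl rfl) _ (gr g) (hT2 z₂ _ (hT g r hr)).1)
    have a2 : Eqv p (g (D t₀ r)) (D t₀ r * ((y - r) / (y - g r))) := by
      refine etrans (esymm (hD g t₀ ht₀ r hr)) ?_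
      rw [hg]
      refine etrans (esymm (hC.coc t₀ ht₀ r hr _ (hT g r hr))) ?_
      exact emul (erefl _) a1
    have a3 : g E = g (D t₀ r) * ((y - g r) / (y - t₀)) := by
      rw [hE, map_mul, map_div₀, map_sub, map_sub, hg]
      rw [hy, fix]
    rw [a3]
    refine etrans (emul a2 (erefl _)) ?_
    have n1 : y - g r ≠ 0 := sub_ne_zero.mpr (hT2 z₂ _ (hT g r hr)).1
    have n2 : y - t₀ ≠ 0 := sub_ne_zero.mpr yt₀
    have a4 : D t₀ r * ((y - r) / (y - g r)) * ((y - g r) / (y - t₀)) = E := by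
      rw [hE]
      field_simp
    rw [a4]
    exact erefl _
  obtain ⟨z₃, q3, q3'⟩ := hT3 z₂ t₀ ht₀ lt₀ E E0 E1 E2
  have q4 := q3' r hr hr0
  set y' := algebraMap k L z₃ with hy'
  have p3 : S.Pr T D m y' := h5 p hp L F _ _ S T D m y y' (by linarith) hC p2' q3
  have yy' : S.Cl m y y' := cmono (m + S.e) m y y' (by linarith) q3
  have ny' : ∀ t ∈ T, y' - t ≠ 0 := fun t ht => sub_ne_zero.mpr (hT2 z₃ t ht).1
  have q5 : Eqv p (D t₀ r) ((y' - t₀) / (y' - r)) := by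
    have b1 := emul q4 (erefl (p := p) ((y - t₀) / (y - r)))
    have n1 : y - r ≠ 0 := sub_ne_zero.mpr yr
    have n2 : y - t₀ ≠ 0 := sub_ne_zero.mpr yt₀
    have n3 := ny' r hr
    have b2 : E * ((y - t₀) / (y - r)) = D t₀ r := by
      rw [hE]
      field_simp
    have b3 : (y' - t₀) * (y - r) / ((y - t₀) * (y' - r)) * ((y - t₀) / (y - r)) =
        (y' - t₀) / (y' - r) := by
      field_simp
    rwa [b2, b3] at b1
  -- step 8
  have ncr : ¬ S.Cl m y' r := ncl y' yy' r hr0 yr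
  have ncgr : ∀ g : L ≃ₐ[k] L, ¬ S.Cl m y' (g r) := fun g =>
    ncl y' yy' (g r) (gr g) (hT2 z₂ _ (hT g r hr)).1
  have key : ∀ s ∈ T, Eqv p (D s r) ((y' - s) / (y' - r)) := by
    intro s hs
    by_cases hc : S.Cl m y' s
    · have l1 : S.dl y' s = m := lev z₃ s hs hc
      have l2 : S.dl y' t₀ = m := lev z₃ t₀ ht₀ (c3 m y' y t₀ (csymm m y y' yy') ht₀')
      obtain ⟨g, hg⟩ := hT2' z₃ t₀ ht₀ s hs l2 l1
      have d1 : Eqv p (D s (g r)) ((y' - s) / (y' - g r)) := by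
        have := hD g t₀ ht₀ r hr
        rw [hg] at this
        refine etrans this ?_
        have d2 := emap (g : L →+* L) q5
        have d3 : g ((y' - t₀) / (y' - r)) = (y' - s) / (y' - g r) := by
          rw [map_div₀, map_sub, map_sub, hg]
          rw [hy', fix]
        rw [← d3]
        exact d2
      have d4 : Eqv p (D (g r) r) ((y' - g r) / (y' - r)) :=
        p3 _ (hT g r hr) r hr (ncgr g) ncr
      refine etrans (esymm (hC.coc s hs _ (hT g r hr) r hr)) ?_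
      refine etrans (emul d1 d4) ?_
      have n1 := ny' _ (hT g r hr)
      have n2 := ny' r hr
      have d5 : (y' - s) / (y' - g r) * ((y' - g r) / (y' - r)) = (y' - s) / (y' - r) := by
        field_simp
      rw [d5]
      exact erefl _
    · exact p3 s hs r hr hc ncr
  refine ⟨z₃, ?_⟩
  intro s hs t ht
  have f1 := key s hs
  have f2 := key t ht
  have f3 := etrans (hC.coc s hs t ht r hr) f1
  have f4 := ediv f3 f2
  have n1 := nD t ht r hr
  have n2 := ny' r hr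
  have n3 := ny' t ht
  have f5 : D s t * D t r / D t r = D s t := by field_simp
  have f6 : (y' - s) / (y' - r) / ((y' - t) / (y' - r)) = (y' - s) / (y' - t) := by
    field_simp
  rwa [f5, f6] at f4

end Pool.Agent.Lib.MP_c385f6_ag.Cpl
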