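import Mathlib
import Pool.Agent.Lib.MP_c385f6_ag.Cpl.Defs
import Pool.Agent.Lib.MP_c385f6_ag.Cpl.Stmts

set_option autoImplicit false

/-!
Descent of a class of the projective line to the base field.
-/

namespace Pool.Agent.Lib.MP_c385f6_ag.Cpl

namespace DescAux

variable {p : ℕ} {L F : Type} [Field L] [Field F] (S : LF p L F)

theorem v_one : S.v 1 = 0 := by
  have h := S.v_mul 1 1 one_ne_zero one_ne_zero
  rw [mul_one] at h
  omega

theorem v_neg_one : S.v (-1) = 0 := by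
  have h := S.v_mul (-1) (-1) (neg_ne_zero.2 one_ne_zero) (neg_ne_zero.2 one_ne_zero)
  rw [neg_mul_neg, one_mul, v_one S] at h
  omega

theorem v_neg (x : L) : S.v (-x) = S.v x := by
  by_cases hx : x = 0
  · rw [hx, neg_zero]
  · rw [neg_eq_neg_one_mul, S.v_mul _ _ (neg_ne_zero.2 one_ne_zero) hx, v_neg_one S, zero_add]

theorem v_sub_comm (x y : L) : S.v (x - y) = S.v (y - x) := by
  rw [← v_neg S (x - y), neg_sub]

theorem v_inv (x : L) : S.v x⁻¹ = - S.v x := by
  by_cases hx : x = 0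
  · rw [hx, inv_zero, S.v_zero, neg_zero]
  · have h := S.v_mul x x⁻¹ hx (inv_ne_zero hx)
    rw [mul_inv_cancel₀ hx, v_one S] at h
    omega

theorem v_pow (x : L) (hx : x ≠ 0) (n : ℕ) : S.v (x ^ n) = n * S.v x := by
  induction n with
  | zero => rw [pow_zero, v_one S]; simp
  | succ n ih =>
    rw [pow_succ, S.v_mul _ _ (pow_ne_zero n hx) hx, ih]
    push_cast
    ring

theorem gz_add {n : ℤ} {x y : L} (hx : S.Gz n x) (hy : S.Gz n y) : S.Gz n (x + y) := by
  by_cases hx0 : x = 0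
  · rw [hx0, zero_add]; exact hy
  by_cases hy0 : y = 0
  · rw [hy0, add_zero]; exact hx
  by_cases h0 : x + y = 0
  · exact Or.inl h0
  · have h1 := S.v_add x y hx0 hy0 h0
    have h2 := hx.resolve_left hx0
    have h3 := hy.resolve_left hy0
    exact Or.inr (by have := min_le_iff.1 h1; omega)

theorem gz_sum {n : ℤ} {ι : Type} (s : Finset ι) (f : ι → L) (h : ∀ i ∈ s, S.Gz n (f i)) :
    S.Gz n (∑ i ∈ s, f i) := by
  classical
  induction s using Finset.induction_on with
  | empty => rw [Finset.sum_empty]; exact Or.inl rfl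
  | insert a s ha ih =>
    rw [Finset.sum_insert ha]
    exact gz_add S (h a (Finset.mem_insert_self a s))
      (ih fun i hi => h i (Finset.mem_insert_of_mem hi))

theorem gz_mul {n : ℤ} {x y : L} (hx : 0 ≤ S.v x) (hy : S.Gz n y) : S.Gz n (x * y) := by
  by_cases hx0 : x = 0
  · rw [hx0, zero_mul]; exact Or.inl rfl
  by_cases hy0 : y = 0
  · rw [hy0, mul_zero]; exact Or.inl rfl
  · have h3 := hy.resolve_left hy0
    exact Or.inr (by rw [S.v_mul x y hx0 hy0]; omega)

/-- the case of integral `y` -/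
theorem desc_int {k : Type} [Field k] [Algebra k L] [FiniteDimensional k L] [IsGalois k L]
    (hv : ∀ (g : L ≃ₐ[k] L) (x : L), S.v (g x) = S.v x)
    (θ : L) (hθ : 0 ≤ S.v θ) (hθ1 : Algebra.trace k L θ = 1)
    (N : ℤ) (y : L) (hy : 0 ≤ S.v y) (h : ∀ g : L ≃ₐ[k] L, S.Cl N y (g y)) :
    ∃ z : k, S.Gz N (algebraMap k L z - y) := by
  refine ⟨Algebra.trace k L (θ * y), ?_⟩
  have h1 : algebraMap k L (Algebra.trace k L (θ * y)) - y =
      ∑ g : L ≃ₐ[k] L, g θ * (g y - y) := by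
    have h2 : ∑ g : L ≃ₐ[k] L, g θ = 1 := by
      rw [← trace_eq_sum_automorphisms θ, hθ1, map_one]
    rw [trace_eq_sum_automorphisms]
    simp only [map_mul, mul_sub]
    rw [Finset.sum_sub_distrib, ← Finset.sum_mul, h2, one_mul]
  rw [h1]
  refine gz_sum S _ _ fun g _ => gz_mul S (by rw [hv]; exact hθ) ?_
  rcases h g with h3 | h3
  · exact Or.inl (by rw [← h3, sub_self])
  · refine Or.inr ?_
    unfold LF.dl at h3
    rw [hv, min_eq_left hy, v_sub_comm] at h3
    omega

theorem cl_of_gz {n : ℤ} {x y : L} (hn : 0 ≤ n) (hx : 0 ≤ S.v x) (h : S.Gz n (y - x)) :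
    S.Cl n x y := by
  by_cases hxy : y - x = 0
  · exact Or.inl (sub_eq_zero.1 hxy).symm
  · refine Or.inr ?_
    have h1 := h.resolve_left hxy
    have h2 : 0 ≤ S.v y := by
      have h3 : S.Gz 0 (y - x + x) :=
        gz_add S (Or.inr (hn.trans h1)) (Or.inr hx)
      rw [sub_add_cancel] at h3
      rcases h3 with h3 | h3
      · rw [h3, S.v_zero]
      · exact h3
    unfold LF.dl
    rw [min_eq_left hx, min_eq_left h2, v_sub_comm]
    omega

theorem dl_inv {x y : L} (hx : x ≠ 0) (hy : y ≠ 0) (hxy : x ≠ y) :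
    S.dl x⁻¹ y⁻¹ = S.dl x y := by
  unfold LF.dl
  have h1 : x⁻¹ - y⁻¹ = (y - x) * (x⁻¹ * y⁻¹) := by field_simp
  rw [h1, S.v_mul _ _ (sub_ne_zero.2 (Ne.symm hxy)) (mul_ne_zero (inv_ne_zero hx) (inv_ne_zero hy)),
    S.v_mul _ _ (inv_ne_zero hx) (inv_ne_zero hy), v_inv S x, v_inv S y, v_sub_comm S y x]
  rcases le_total 0 (S.v x) with h2 | h2 <;> rcases le_total 0 (S.v y) with h3 | h3 <;>
    simp only [min_def] <;> split_ifs <;> omega

theorem cl_inv {n : ℤ} {x y : L} (hx : x ≠ 0) (hy : y ≠ 0) (h : S.Cl n x⁻¹ y⁻¹) :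
    S.Cl n x y := by
  rcases h with h | h
  · exact Or.inl (inv_injective h)
  · by_cases hxy : x = y
    · exact Or.inl hxy
    · exact Or.inr (by rwa [dl_inv S hx hy hxy] at h)

end DescAux

open DescAux in
theorem stDesc (_h1 : StChord) : StDesc := by
  intro p _ k L F _ _ _ _ _ _ S hv ⟨θ, hθ, hθ1⟩ ⟨z0, hz0, hz1⟩ N y hN hy
  rcases le_or_gt 0 (S.v y) with h0 | h0
  · obtain ⟨z, hz⟩ := desc_int S hv θ hθ hθ1 N y h0 hy
    exact ⟨z, cl_of_gz S (by omega) h0 hz⟩
  · have hy0 : y ≠ 0 := by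
      rintro rfl
      rw [S.v_zero] at h0
      omega
    have hyi : 0 ≤ S.v y⁻¹ := by rw [v_inv S]; omega
    have hcl : ∀ g : L ≃ₐ[k] L, S.Cl N y⁻¹ (g y⁻¹) := by
      intro g
      have hg0 : g y ≠ 0 := by
        rw [Ne, map_eq_zero_iff g g.injective]
        exact hy0
      rw [map_inv₀]
      refine cl_inv S (inv_ne_zero hy0) (inv_ne_zero hg0) ?_
      rw [inv_inv, inv_inv]
      exact hy g
    obtain ⟨z, hz⟩ := desc_int S hv θ hθ hθ1 N y⁻¹ hyi hcl
    by_cases hz0' : z = 0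
    · -- `y` is close to infinity
      rw [hz0', map_zero, zero_sub] at hz
      have h2 : S.v y ≤ -N := by
        have h3 := hz.resolve_left (neg_ne_zero.2 (inv_ne_zero hy0))
        rw [v_neg S, v_inv S] at h3
        omega
      have hz0L : algebraMap k L z0 ≠ 0 := by
        rw [Ne, map_eq_zero_iff _ (algebraMap k L).injective]
        exact hz0
      refine ⟨(z0 ^ N.toNat)⁻¹, ?_⟩
      have hwne : algebraMap k L (z0 ^ N.toNat)⁻¹ ≠ 0 := by
        rw [map_inv₀, map_pow]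
        exact inv_ne_zero (pow_ne_zero _ hz0L)
      have hw : S.v (algebraMap k L (z0 ^ N.toNat)⁻¹) ≤ -N := by
        rw [map_inv₀, map_pow, v_inv S, v_pow S _ hz0L]
        have h4 : ((N.toNat : ℕ) : ℤ) = N := Int.toNat_of_nonneg (by omega)
        rw [h4]
        nlinarith
      generalize algebraMap k L (z0 ^ N.toNat)⁻¹ = w at hwne hw
      by_cases hyw : y = w
      · exact Or.inl hyw
      · refine Or.inr ?_
        unfold LF.dl
        have h5 := S.v_add y (-w) hy0 (neg_ne_zero.2 hwne) (by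
          rw [← sub_eq_add_neg]; exact sub_ne_zero.2 hyw)
        rw [← sub_eq_add_neg, v_neg S] at h5
        rw [min_eq_right h0.le, min_eq_right (show S.v w ≤ 0 by omega)]
        rcases min_le_iff.1 h5 with h6 | h6 <;> omega
    · refine ⟨z⁻¹, ?_⟩
      have hzL : algebraMap k L z ≠ 0 := by
        rw [Ne, map_eq_zero_iff _ (algebraMap k L).injective]
        exact hz0'
      rw [map_inv₀]
      refine cl_inv S hy0 (inv_ne_zero hzL) ?_
      rw [inv_inv]
      exact cl_of_gz S (by omega) hyi hz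

end Pool.Agent.Lib.MP_c385f6_ag.Cpl
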