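import Mathlib
import Pool.Agent.Lib.MP_c385f6_ag.Cpl.StCof
import Pool.Agent.Lib.MP_c385f6_ag.Cpl.Sym
import Pool.Agent.Lib.MP_c385f6_ag.Cpl.Chord

set_option autoImplicit false

/-!
(W2) the last level and the valuations of `p` and of `1 - ζ`.
-/

namespace Pool.Agent.Lib.MP_c385f6_ag.Cpl

open Polynomial Module

namespace E0Aux

variable {p : ℕ} {L F : Type} [Field L] [Field F] (S : LF p L F)

/-- the ring of integers -/
def OO : Subring L where
  carrier := {x | 0 ≤ S.v x}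
  mul_mem' := fun {x y} hx hy => SymAux.int_mul S hx hy
  one_mem' := (SymAux.v_one S).ge
  add_mem' := fun {x y} hx hy => SymAux.int_add S hx hy
  zero_mem' := S.v_zero.ge
  neg_mem' := by
    intro x hx
    show 0 ≤ S.v (-x)
    rw [SymAux.v_neg]
    exact hx

lemma v_prod {ι : Type} (s : Finset ι) (f : ι → L) (hf : ∀ i ∈ s, f i ≠ 0) :
    S.v (∏ i ∈ s, f i) = ∑ i ∈ s, S.v (f i) := by
  classical
  induction s using Finset.induction_on with
  | empty => rw [Finset.prod_empty, Finset.sum_empty, SymAux.v_one]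
  | insert a s ha ih =>
    rw [Finset.prod_insert ha, Finset.sum_insert ha,
      S.v_mul _ _ (hf a (Finset.mem_insert_self _ _))
        (Finset.prod_ne_zero_iff.2 fun i hi => hf i (Finset.mem_insert_of_mem hi)),
      ih fun i hi => hf i (Finset.mem_insert_of_mem hi)]

variable [hp : Fact p.Prime] {ζ : L}

include hp in
lemma v_zeta (hζ : IsPrimitiveRoot ζ p) : S.v ζ = 0 := by
  have h0 : ζ ≠ 0 := hζ.ne_zero hp.out.ne_zero
  have h1 := SymAux.v_pow S ζ h0 p
  rw [hζ.pow_eq_one, SymAux.v_one] at h1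
  rcases mul_eq_zero.1 h1.symm with h | h
  · exact absurd (by exact_mod_cast h) hp.out.ne_zero
  · exact h

include hp in
lemma v_one_sub_le (hζ : IsPrimitiveRoot ζ p) (i : ℕ) (hi : ζ ^ i ≠ 1) :
    S.v (1 - ζ) ≤ S.v (1 - ζ ^ i) := by
  have h1 : ζ ≠ 1 := by
    rintro rfl
    exact hi (one_pow _)
  have h2 : 1 - ζ ^ i = (1 - ζ) * ∑ j ∈ Finset.range i, ζ ^ j := (mul_neg_geom_sum ζ i).symm
  have h3 : (∑ j ∈ Finset.range i, ζ ^ j) ≠ 0 := by
    intro h
    rw [h, mul_zero] at h2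
    exact hi (sub_eq_zero.1 h2).symm
  have h4 : 0 ≤ S.v (∑ j ∈ Finset.range i, ζ ^ j) :=
    (OO S).sum_mem fun j _ => (OO S).pow_mem (show 0 ≤ S.v ζ from (v_zeta S hζ).ge) j
  rw [h2, S.v_mul _ _ (sub_ne_zero.2 h1.symm) h3]
  omega

include hp in
lemma v_one_sub (hζ : IsPrimitiveRoot ζ p) (i : ℕ) (h0 : 0 < i) (hi : i < p) :
    1 - ζ ^ i ≠ 0 ∧ S.v (1 - ζ ^ i) = S.v (1 - ζ) := by
  have h1 : ζ ^ i ≠ 1 := by
    intro h
    have := Nat.le_of_dvd h0 ((hζ.pow_eq_one_iff_dvd i).1 h)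
    omega
  refine ⟨sub_ne_zero.2 h1.symm, le_antisymm ?_ (v_one_sub_le S hζ i h1)⟩
  have hco : i.Coprime p := (Nat.coprime_of_lt_prime h0.ne' hi hp.out).symm
  have h2 := hζ.pow_of_coprime i hco
  obtain ⟨j, -, hj⟩ := h2.eq_pow_of_pow_eq_one hζ.pow_eq_one
  have h3 := v_one_sub_le S h2 j (by rw [hj]; exact hζ.ne_one hp.out.one_lt)
  rwa [hj] at h3

include hp in
lemma v_p (hζ : IsPrimitiveRoot ζ p) : S.v (p : L) = (p - 1) * S.v (1 - ζ) := by
  obtain ⟨n, hn⟩ : ∃ n, p = n + 1 := ⟨p - 1, by have := hp.out.pos; omega⟩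
  have h1 : IsPrimitiveRoot ζ (n + 1) := hn ▸ hζ
  have h2 := h1.prod_one_sub_pow_eq_order
  have h3 : (p : L) = ∏ k ∈ Finset.range n, (1 - ζ ^ (k + 1)) := by
    rw [h2, hn]
    push_cast
    ring
  have hz : (p : ℤ) = n + 1 := by exact_mod_cast hn
  rw [h3, v_prod S]
  · rw [Finset.sum_congr rfl fun k hk =>
      (v_one_sub S hζ (k + 1) (by omega) (by have := Finset.mem_range.1 hk; omega)).2,
      Finset.sum_const, Finset.card_range, nsmul_eq_mul, hz]
    ring
  · intro k hk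
    exact (v_one_sub S hζ (k + 1) (by omega) (by have := Finset.mem_range.1 hk; omega)).1

include hp in
/-- the power of a unit of level `n + 1` -/
lemma v_pow_sub (hζ : IsPrimitiveRoot ζ p) (hn : 1 ≤ S.v (1 - ζ)) {y : L} (hy : y ≠ 0)
    (hy1 : S.v y = S.v (1 - ζ) + 1) :
    (1 + y) ^ p - 1 ≠ 0 ∧ S.v ((1 + y) ^ p - 1) = p * S.v (1 - ζ) + 1 := by
  have h1 : (1 + y) ^ p - 1 = ∏ i ∈ Finset.range p, (1 + y - ζ ^ i) := by
    have h := X_pow_sub_C_eq_prod hζ hp.out.pos (one_pow p)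
    have h' := congrArg (Polynomial.eval (1 + y)) h
    simpa [eval_prod] using h'
  obtain ⟨n, hpn⟩ : ∃ n, p = n + 1 := ⟨p - 1, by have := hp.out.pos; omega⟩
  have key : ∀ i, 0 < i → i < p → 1 + y - ζ ^ i ≠ 0 ∧ S.v (1 + y - ζ ^ i) = S.v (1 - ζ) := by
    intro i h0 hi
    obtain ⟨h2, h3⟩ := v_one_sub S hζ i h0 hi
    have h4 : S.v ((1 - ζ ^ i) - (-y)) = S.v (1 - ζ ^ i) := by
      apply ChordAux.v_sub_lt S h2
      right
      rw [SymAux.v_neg, h3, hy1]
      omega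
    have h5 : (1 - ζ ^ i) - (-y) = 1 + y - ζ ^ i := by ring
    rw [h5, h3] at h4
    refine ⟨?_, h4⟩
    intro h
    rw [h, S.v_zero] at h4
    omega
  have h2 : ∏ i ∈ Finset.range p, (1 + y - ζ ^ i) =
      (∏ i ∈ Finset.range n, (1 + y - ζ ^ (i + 1))) * y := by
    rw [hpn, Finset.prod_range_succ', pow_zero, add_sub_cancel_left]
  have h3 : (∏ i ∈ Finset.range n, (1 + y - ζ ^ (i + 1))) ≠ 0 :=
    Finset.prod_ne_zero_iff.2 fun i hi =>
      (key (i + 1) (by omega) (by have := Finset.mem_range.1 hi; omega)).1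
  rw [h1, h2]
  refine ⟨mul_ne_zero h3 hy, ?_⟩
  rw [S.v_mul _ _ h3 hy, v_prod S _ _ fun i hi =>
      (key (i + 1) (by omega) (by have := Finset.mem_range.1 hi; omega)).1,
    Finset.sum_congr rfl fun k hk =>
      (key (k + 1) (by omega) (by have := Finset.mem_range.1 hk; omega)).2,
    Finset.sum_const, Finset.card_range, nsmul_eq_mul, hy1]
  have hz : (p : ℤ) = n + 1 := by exact_mod_cast hpn
  rw [hz]
  ring

end E0Aux

open E0Aux SymAux in
theorem stE0 : StE0 := by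
  intro p hp L F iL iF S ζ hζ hpos
  have hp2 : (2 : ℤ) ≤ p := by exact_mod_cast hp.out.two_le
  have hvp := v_p S hζ
  set n : ℤ := S.v (1 - ζ) with hn
  have hn1 : 1 ≤ n := by
    rw [hvp] at hpos
    by_contra h
    have h1 : n ≤ 0 := by omega
    nlinarith
  refine ⟨?_, hvp⟩
  obtain ⟨e', he'⟩ := S.e_dvd
  have he'z : (S.e : ℤ) = p * e' := by exact_mod_cast he'
  -- upper bound
  have hle : (S.e : ℤ) ≤ p * n := by
    have hm : S.π ^ (n + 1).toNat ≠ 0 := pow_ne_zero _ S.pi_ne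
    have hmv : S.v (S.π ^ (n + 1).toNat) = n + 1 := by
      rw [gz_pi, Int.toNat_of_nonneg (by omega)]
    obtain ⟨h1, h2⟩ := v_pow_sub S hζ hn1 hm hmv
    rw [← hn] at h2
    set u : L := (1 + S.π ^ (n + 1).toNat) ^ p with hu
    have hone := one_add S (x := S.π ^ (n + 1).toNat) (Or.inr (by rw [hmv]; omega))
    by_contra hlt
    have h3 : p * n < S.e := not_le.1 hlt
    -- `p n + 1 < e`
    have h4 : (p : ℤ) * n + 1 ≠ S.e := by
      intro h
      rw [he'z] at h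
      have h5 : (p : ℤ) * (e' - n) = 1 := by linear_combination -h
      have h6 : (p : ℤ) ∣ 1 := ⟨_, h5.symm⟩
      have := Int.le_of_dvd one_pos h6
      omega
    refine S.jump u (pow_ne_zero _ hone.1) (by rw [h2]; nlinarith) (by rw [h2]; omega) ?_
      ⟨_, hu⟩
    rw [h2]
    intro hd
    have h6 : (p : ℤ) ∣ 1 := (Int.dvd_add_right (Dvd.intro _ rfl)).1 hd
    have := Int.le_of_dvd one_pos h6
    omega
  -- lower bound
  refine le_antisymm hle ?_
  by_contra hlt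
  have hlt' : (S.e : ℤ) < p * n := not_le.1 hlt
  have he1 : (e' : ℤ) < n := by
    rw [he'z] at hlt'
    exact lt_of_mul_lt_mul_left hlt' (by omega)
  have he0 : 1 ≤ e' := by
    by_contra h
    have h0 : e' = 0 := by omega
    have := S.two_le
    rw [he', h0, mul_zero] at this
    omega
  obtain ⟨u, hu0, hu1, hu2⟩ := S.top
  have hπe : S.π ^ S.e ≠ 0 := pow_ne_zero _ S.pi_ne
  have hu10 : u - 1 ≠ 0 := by
    intro h
    rw [h, S.v_zero] at hu1
    have := S.two_le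
    omega
  set x : L := (u - 1) / S.π ^ S.e with hx
  have hxv : S.v x = 0 := by
    rw [hx, v_div S _ _ hu10 hπe, hu1, gz_pi, sub_self]
  have hux : u = 1 + x * S.π ^ S.e := by
    rw [hx, div_mul_cancel₀ _ hπe]
    ring
  have : CharP F p := by
    have h1 : (p : F) = 0 := char_F S
    exact (CharP.charP_iff_prime_eq_zero hp.out).2 h1
  have : Finite F := S.finF
  obtain ⟨b, hb⟩ := (Finite.injective_iff_surjective.1 (frobenius_inj F p)) (S.res x)
  obtain ⟨x', hx'0, hx'1⟩ := S.res_surj b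
  have hres : S.Gz 1 (x - x' ^ p) := by
    rw [← res_eq_iff S _ _ hxv.ge (int_pow S x' hx'0 p), res_pow S x' hx'0, hx'1]
    rw [frobenius_def] at hb
    exact hb.symm
  -- the power
  set w : OO S := ⟨x' * S.π ^ e', int_mul S hx'0 (by rw [gz_pi]; omega)⟩ with hw
  obtain ⟨r, hr⟩ := exists_add_pow_prime_eq hp.out (1 : OO S) w
  have hr' : (1 + x' * S.π ^ e') ^ p = 1 + x' ^ p * S.π ^ S.e + p * (x' * S.π ^ e') * r := by
    have h := congrArg (Subtype.val : OO S → L) hr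
    push_cast at h
    rw [hw] at h
    simp only at h
    rw [h, he', one_pow, mul_pow, ← pow_mul, mul_comm e' p]
    ring
  have hπe' : S.v (S.π ^ e') = e' := gz_pi S e'
  have hgw : S.Gz e' (x' * S.π ^ e') := by
    rw [mul_comm]
    exact gz_mul S (Or.inr hπe'.ge) hx'0
  have hone := one_add S (gz_mono S (show (1 : ℤ) ≤ e' by omega) hgw)
  set z : L := 1 + x' * S.π ^ e' with hz
  have hzp : z ^ p ≠ 0 := pow_ne_zero _ hone.1
  have hzv : S.v (z ^ p) = 0 := by rw [v_pow S _ hone.1, hone.2, mul_zero]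
  have hdiff : S.Gz (S.e + 1) (u - z ^ p) := by
    have h1 : u - z ^ p = S.π ^ S.e * (x - x' ^ p) - (p : L) * (x' * S.π ^ e') * r := by
      rw [hr', hux]
      ring
    rw [h1]
    refine gz_sub S (gz_mul_gz S (Or.inr (gz_pi S S.e).ge) hres) ?_
    refine gz_mono S ?_ (gz_mul S (gz_mul_gz S (Or.inr hvp.ge) hgw) r.2)
    rw [he'z]
    nlinarith
  have h3 := un_div S (n := S.e + 1) (a := u - 1) (b := z ^ p - 1) (by omega)
    (by rwa [add_sub_cancel]) (by rwa [add_sub_cancel]) (by rwa [add_sub_cancel])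
    (by rw [sub_sub_sub_cancel_right]; exact hdiff)
  rw [add_sub_cancel, add_sub_cancel] at h3
  obtain ⟨y, -, hy⟩ := un_pow S h3
  refine hu2 ⟨y * z, ?_⟩
  rw [mul_pow, ← hy, div_mul_cancel₀ _ hzp]

end Pool.Agent.Lib.MP_c385f6_ag.Cpl
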