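import Mathlib
import Pool.Agent.Lib.MP_c385f6_ag.Cpl.StCof
import Pool.Agent.Lib.MP_c385f6_ag.Cpl.Sym
import Pool.Agent.Lib.MP_c385f6_ag.Cpl.E0

set_option autoImplicit false

/-!
(W5) duality of the unit groups.
-/

namespace Pool.Agent.Lib.MP_c385f6_ag.Cpl

namespace DlAux

open SymAux E0Aux

variable {p : ℕ} {L F : Type} [Field L] [Field F] (S : LF p L F)

lemma eqv_trans {x y z : L} (h1 : Eqv p x y) (h2 : Eqv p y z) : Eqv p x z := by
  obtain ⟨a, ha, rfl⟩ := h1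
  obtain ⟨b, hb, rfl⟩ := h2
  exact ⟨b * a, mul_ne_zero hb ha, by rw [mul_pow]; ring⟩

lemma eqv_h [hp : Fact p.Prime] {x y w : L} (hy : y ≠ 0) (hw : w ≠ 0) (h : Eqv p x y) :
    S.h x w = S.h y w := by
  obtain ⟨z, hz, rfl⟩ := h
  rw [S.h_mul_left _ _ _ hy (pow_ne_zero _ hz) hw, h_pow_p_left S z w hz hw, add_zero]

/-- an element on which `l` does not vanish -/
lemma exists_l_ne [hp : Fact p.Prime] : ∃ (x : L) (c : ZMod p), x ≠ 0 ∧ S.v x = 0 ∧ c ≠ 0 ∧
    ∀ w, w ≠ 0 → S.h (1 + x * S.π ^ S.e) w = c * (S.v w : ZMod p) := by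
  obtain ⟨l, hl0, ⟨a, ha⟩, hl⟩ := exists_l S
  obtain ⟨x, hx0, hx1⟩ := S.res_surj a
  have hl00 : l 0 = 0 := by
    have h := hl0 0 0
    rw [add_zero] at h
    exact left_eq_add.mp h
  have ha0 : S.res x ≠ 0 := by
    rw [hx1]
    rintro rfl
    exact ha hl00
  have h1 := mt (S.res_zero x hx0).2 ha0
  push Not at h1
  refine ⟨x, l a, h1.1, by omega, ha, fun w hw => ?_⟩
  rw [hl x hx0 w hw, hx1]

/-- the class of an element of valuation divisible by `p` contains a principal unit -/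
lemma exists_un [hp : Fact p.Prime] (E : L) (hE : E ≠ 0) (hv : (p : ℤ) ∣ S.v E) :
    ∃ E', S.Un 1 E' ∧ Eqv p E E' := by
  obtain ⟨k, hk⟩ := hv
  have hπk : S.π ^ k ≠ 0 := zpow_ne_zero _ S.pi_ne
  set u := E / (S.π ^ k) ^ p with hu
  have hu0 : u ≠ 0 := div_ne_zero hE (pow_ne_zero _ hπk)
  have huv : S.v u = 0 := by
    rw [hu, v_div S _ _ hE (pow_ne_zero _ hπk), v_pow S _ hπk, v_zpow S _ S.pi_ne, S.v_pi, hk]
    ring
  have hEu : Eqv p E u := ⟨S.π ^ k, hπk, by rw [hu, div_mul_cancel₀ _ (pow_ne_zero _ hπk)]⟩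
  have := S.finF
  have := Fintype.ofFinite F
  have : CharP F p := (CharP.charP_iff_prime_eq_zero Fact.out).mpr (char_F S)
  obtain ⟨n, -, hn⟩ := FiniteField.card F p
  have hres : S.res u ≠ 0 := by
    intro h0
    rcases (S.res_zero u huv.ge).mp h0 with h1 | h1
    · exact hu0 h1
    · omega
  have h1 : S.res (u ^ (Fintype.card F - 1)) = S.res 1 := by
    rw [res_pow S u huv.ge, S.res_one]
    exact FiniteField.pow_card_sub_one_eq_one _ hres
  rw [res_eq_iff S _ _ (int_pow S u huv.ge _) (v_one S).ge] at h1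
  set q := Fintype.card F with hq
  have hq1 : 1 ≤ q := Fintype.card_pos
  have hw0 : u ^ (q - 1) ≠ 0 := pow_ne_zero _ hu0
  have hwv : S.v (u ^ (q - 1)) = 0 := by rw [v_pow S _ hu0, huv, mul_zero]
  refine ⟨(u ^ (q - 1))⁻¹, ⟨inv_ne_zero hw0, ?_⟩, eqv_trans hEu ?_⟩
  · have h2 : (u ^ (q - 1))⁻¹ - 1 = -(u ^ (q - 1) - 1) * (u ^ (q - 1))⁻¹ := by
      field_simp
      ring
    have h3 : S.Gz 1 ((u ^ (q - 1))⁻¹ - 1) := by
      rw [h2]
      exact gz_mul S (gz_neg S h1) (by rw [v_inv S _ hw0, hwv, neg_zero])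
    exact h3.imp_left sub_eq_zero.mp
  · refine ⟨u ^ (p ^ ((n : ℕ) - 1)), pow_ne_zero _ hu0, ?_⟩
    rw [← pow_mul, ← pow_succ, Nat.sub_add_cancel n.pos, ← hn]
    have h4 : u ^ q = u ^ (q - 1) * u := by rw [← pow_succ, Nat.sub_add_cancel hq1]
    rw [h4, ← mul_assoc, inv_mul_cancel₀ hw0, one_mul]

/-- one step: the level is prime to `p` -/
lemma step_prime [hp : Fact p.Prime] {i j : ℤ} (hi : 1 ≤ i) (hj : 1 ≤ j) (hij : j + i ≤ S.e)
    (hpj : ¬ (p : ℤ) ∣ j) {a : L} (ha0 : a ≠ 0) (ha : S.v a = j)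
    (h : ∀ u, S.Un i u → S.h (1 + a) u = 0) : False := by
  obtain ⟨x, c, hx0, hxv, hc, hl⟩ := exists_l_ne S
  have h1a := one_add S (x := a) (Or.inr (by omega))
  have hπe : S.π ^ S.e ≠ 0 := pow_ne_zero _ S.pi_ne
  set b := x * S.π ^ S.e * (1 + a) / a with hb
  have hxe : x * S.π ^ S.e ≠ 0 := mul_ne_zero hx0 hπe
  have hb0 : b ≠ 0 := div_ne_zero (mul_ne_zero hxe h1a.1) ha0
  have hbv : S.v b = S.e - j := by
    rw [hb, v_div S _ _ (mul_ne_zero hxe h1a.1) ha0, S.v_mul _ _ hxe h1a.1, S.v_mul _ _ hx0 hπe,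
      hxv, gz_pi, h1a.2, ha]
    ring
  have h1b := one_add S (x := b) (Or.inr (by omega))
  have hu := h (1 + b) ((un_iff S i hi b).2 (Or.inr (by omega)))
  -- Steinberg
  have hc0 : a * (1 + b) ≠ 0 := mul_ne_zero ha0 h1b.1
  have hcv : S.v (a * (1 + b)) = j := by rw [S.v_mul _ _ ha0 h1b.1, ha, h1b.2, add_zero]
  have h1c := one_add S (x := a * (1 + b)) (Or.inr (by omega))
  have hfac : 1 + a * (1 + b) = (1 + a) * (1 + x * S.π ^ S.e) := by
    rw [hb]
    field_simp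
    ring
  have h1x : 1 + x * S.π ^ S.e ≠ 0 := by
    intro h0
    rw [h0, mul_zero] at hfac
    exact h1c.1 hfac
  have hs1 := S.steinberg (1 + a * (1 + b)) (-(a * (1 + b))) h1c.1 (neg_ne_zero.2 hc0) (by ring)
  have hs2 := S.steinberg (1 + a) (-a) h1a.1 (neg_ne_zero.2 ha0) (by ring)
  rw [hfac, S.h_mul_left _ _ _ h1a.1 h1x (neg_ne_zero.2 hc0), hl _ (neg_ne_zero.2 hc0), v_neg,
    hcv, ← neg_mul, S.h_mul_right _ _ _ h1a.1 (neg_ne_zero.2 ha0) h1b.1, hs2, hu, add_zero,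
    zero_add] at hs1
  rcases mul_eq_zero.1 hs1 with h2 | h2
  · exact hc h2
  · exact hpj ((ZMod.intCast_zmod_eq_zero_iff_dvd _ _).mp h2)

/-- one step: the level is divisible by `p` -/
lemma step_dvd [hp : Fact p.Prime] {n : ℤ} (hvp : S.v (p : L) = (p - 1) * n) {j' : ℕ}
    (hj0 : 1 ≤ j') (hj : (j' : ℤ) < n) {u : L} (hu0 : u ≠ 0) (hu1 : u ≠ 1)
    (huv : S.v (u - 1) = p * j') :
    ∃ u', S.Un (p * j' + 1) u' ∧ Eqv p u u' := by
  have hp2 : (2 : ℤ) ≤ p := by exact_mod_cast hp.out.two_le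
  have hu10 : u - 1 ≠ 0 := sub_ne_zero.2 hu1
  have hπe : S.π ^ (p * j') ≠ 0 := pow_ne_zero _ S.pi_ne
  set x : L := (u - 1) / S.π ^ (p * j') with hx
  have hxv : S.v x = 0 := by
    rw [hx, v_div S _ _ hu10 hπe, huv, gz_pi]
    push_cast
    ring
  have hux : u = 1 + x * S.π ^ (p * j') := by
    rw [hx, div_mul_cancel₀ _ hπe]
    ring
  have : CharP F p := by
    have h1 : (p : F) = 0 := char_F S
    exact (CharP.charP_iff_prime_eq_zero hp.out).2 h1
  have : Finite F := S.finF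
  obtain ⟨b, hb⟩ := (Finite.injective_iff_surjective.1 (frobenius_inj F p)) (S.res x)
  obtain ⟨x', hx'0, hx'1⟩ := S.res_surj b
  have hres : S.Gz 1 (x - x' ^ p) := by
    rw [← res_eq_iff S _ _ hxv.ge (int_pow S x' hx'0 p), res_pow S x' hx'0, hx'1]
    rw [frobenius_def] at hb
    exact hb.symm
  set w : OO S := ⟨x' * S.π ^ j', int_mul S hx'0 (by rw [gz_pi]; omega)⟩ with hw
  obtain ⟨r, hr⟩ := exists_add_pow_prime_eq hp.out (1 : OO S) w
  have hr' : (1 + x' * S.π ^ j') ^ p = 1 + x' ^ p * S.π ^ (p * j') + p * (x' * S.π ^ j') * r := by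
    have h := congrArg (Subtype.val : OO S → L) hr
    push_cast at h
    rw [hw] at h
    simp only at h
    rw [h, one_pow, mul_pow, ← pow_mul, mul_comm j' p]
    ring
  have hπe' : S.v (S.π ^ j') = j' := gz_pi S j'
  have hgw : S.Gz j' (x' * S.π ^ j') := by
    rw [mul_comm]
    exact gz_mul S (Or.inr hπe'.ge) hx'0
  have hone := one_add S (gz_mono S (show (1 : ℤ) ≤ j' by omega) hgw)
  set z : L := 1 + x' * S.π ^ j' with hz
  have hzp : z ^ p ≠ 0 := pow_ne_zero _ hone.1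
  have hzv : S.v (z ^ p) = 0 := by rw [v_pow S _ hone.1, hone.2, mul_zero]
  have hdiff : S.Gz (p * j' + 1) (u - z ^ p) := by
    have h1 : u - z ^ p = S.π ^ (p * j') * (x - x' ^ p) - (p : L) * (x' * S.π ^ j') * r := by
      rw [hr', hux]
      ring
    rw [h1]
    refine gz_sub S (gz_mono S ?_ (gz_mul_gz S (Or.inr (gz_pi S (p * j')).ge) hres)) ?_
    · push_cast
      omega
    · refine gz_mono S ?_ (gz_mul S (gz_mul_gz S (Or.inr hvp.ge) hgw) r.2)
      nlinarith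
  have hj1 : (1 : ℤ) ≤ p * j' + 1 := by
    have : (0 : ℤ) ≤ p * j' := by positivity
    omega
  have h3 := un_div S (n := p * j' + 1) (a := u - 1) (b := z ^ p - 1) hj1
    (by rwa [add_sub_cancel]) (by rwa [add_sub_cancel]) (by rwa [add_sub_cancel])
    (by rw [sub_sub_sub_cancel_right]; exact hdiff)
  rw [add_sub_cancel, add_sub_cancel] at h3
  exact ⟨u / z ^ p, h3, z, hone.1, by rw [div_mul_cancel₀ _ hzp]⟩

end DlAux

open DlAux SymAux in
theorem stDl (_h1 : StSym) (h2 : StE0) : StDl := by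
  intro p hp L F iL iF S ζ hζ hpos i hi hie E hE h
  obtain ⟨he, hvp⟩ := h2 p hp L F iL iF S ζ hζ hpos
  have hp2 : (2 : ℤ) ≤ p := by exact_mod_cast hp.out.two_le
  set n : ℤ := S.v (1 - ζ) with hn
  have he2 := S.two_le
  -- the valuation
  have hvE : (p : ℤ) ∣ S.v E := by
    obtain ⟨x, c, hx0, hxv, hc, hl⟩ := exists_l_ne S
    have hg : S.Gz S.e (x * S.π ^ S.e) := by
      rw [mul_comm]
      exact gz_mul S (Or.inr (gz_pi S _).ge) hxv.ge
    have hun : S.Un i (1 + x * S.π ^ S.e) := (un_iff S i hi _).2 (gz_mono S hie hg)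
    have h3 := h _ hun
    rw [anti S _ _ hE hun.1, hl E hE, neg_eq_zero] at h3
    exact (ZMod.intCast_zmod_eq_zero_iff_dvd _ _).mp ((mul_eq_zero.1 h3).resolve_left hc)
  have key : ∀ k : ℕ, (k : ℤ) + 1 ≤ S.e + 1 - i → ∃ E', S.Un (k + 1) E' ∧ Eqv p E E' := by
    intro k
    induction k with
    | zero =>
      intro _
      obtain ⟨E', h3, h4⟩ := exists_un S E hE hvE
      exact ⟨E', by simpa using h3, h4⟩
    | succ k ih =>
      intro hk
      push_cast at hk ⊢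
      obtain ⟨E', h3, h4⟩ := ih (by omega)
      have hE'0 : E' ≠ 0 := h3.1
      by_cases h5 : E' = 1 ∨ (k : ℤ) + 1 + 1 ≤ S.v (E' - 1)
      · exact ⟨E', ⟨hE'0, h5⟩, h4⟩
      · push Not at h5
        have h6 : S.v (E' - 1) = k + 1 := by
          have := h3.2.resolve_left h5.1
          omega
        have hort : ∀ u, S.Un i u → S.h E' u = 0 := by
          intro u hu
          rw [← eqv_h S hE'0 hu.1 h4]
          exact h u hu
        by_cases h7 : (p : ℤ) ∣ k + 1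
        · obtain ⟨j, hj⟩ := h7
          have hj0 : 1 ≤ j := by
            by_contra hlt
            have : j ≤ 0 := by omega
            nlinarith
          obtain ⟨j', rfl⟩ := Int.eq_ofNat_of_zero_le (show 0 ≤ j by omega)
          have hjn : (j' : ℤ) < n := by
            have h8 : (p : ℤ) * j' < p * n := by rw [← hj, ← he]; omega
            exact lt_of_mul_lt_mul_left h8 (by omega)
          obtain ⟨u', h8, h9⟩ := step_dvd S hvp (by omega) hjn hE'0 h5.1 (by rw [h6, hj])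
          refine ⟨u', ?_, eqv_trans h4 h9⟩
          rw [hj]
          exact h8
        · exfalso
          refine step_prime S (i := i) (j := k + 1) hi (by omega) (by omega) h7
            (a := E' - 1) (sub_ne_zero.2 h5.1) h6 ?_
          intro u hu
          rw [add_sub_cancel]
          exact hort u hu
  obtain ⟨k, hk⟩ := Int.eq_ofNat_of_zero_le (show 0 ≤ (S.e : ℤ) - i by omega)
  obtain ⟨E', h3, h4⟩ := key k (by omega)
  refine ⟨E', ?_, h4⟩
  have h5 : (S.e : ℤ) + 1 - i = k + 1 := by omega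
  rw [h5]
  exact h3

end Pool.Agent.Lib.MP_c385f6_ag.Cpl
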