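import Mathlib
import Pool.Agent.Lib.MP_c385f6_ag.Cpl.Stmts

set_option autoImplicit false

/-!
Additive maps from a finite field to `ZMod p` are the multiples of a non-zero one.
-/

namespace Pool.Agent.Lib.MP_c385f6_ag.Cpl

/-- additive maps to `ZMod p` are multiples of a non-zero one -/
theorem stDual : StDual := by
  intro p hp F _ _ l hl ⟨a0, ha0⟩ ψ hψ
  -- the characteristic
  let L : F →+ ZMod p := AddMonoidHom.mk' l hl
  have hp0 : (p : F) = 0 := by
    obtain ⟨q, hq⟩ := CharP.exists F
    have hqp : q.Prime := by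
      rcases CharP.char_is_prime_or_zero F q with h | h
      · exact h
      · exfalso
        subst h
        haveI : CharZero F := CharP.charP_to_charZero F
        exact not_finite F
    have h1 : (q : ZMod p) * l a0 = 0 := by
      have h2 : L (q • a0) = q • L a0 := map_nsmul L q a0
      have h3 : q • a0 = 0 := by
        rw [nsmul_eq_mul, CharP.cast_eq_zero F q, zero_mul]
      rw [h3, map_zero, nsmul_eq_mul] at h2
      exact h2.symm
    have h4 : (q : ZMod p) = 0 := (mul_eq_zero.1 h1).resolve_right ha0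
    have h5 : p ∣ q := (ZMod.natCast_eq_zero_iff q p).1 h4
    have h6 : p = q := (Nat.prime_dvd_prime_iff_eq hp.out hqp).1 h5
    rw [h6]
    exact CharP.cast_eq_zero F q
  haveI hchar : CharP F p := by
    refine (CharP.charP_iff_prime_eq_zero hp.out).2 hp0
  letI : Algebra (ZMod p) F := ZMod.algebra F p
  haveI : Module.Finite (ZMod p) F := Module.Finite.of_finite
  let toL : (F →+ ZMod p) → (F →ₗ[ZMod p] ZMod p) := fun f => f.toZModLinearMap p
  -- the map
  let Φ : F →+ (F →ₗ[ZMod p] ZMod p) :=
    { toFun := fun k => (L.toZModLinearMap p).comp (LinearMap.mulLeft (ZMod p) k)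
      map_zero' := by
        ext x
        simp
      map_add' := by
        intro a b
        ext x
        simp [add_mul] }
  let Φl : F →ₗ[ZMod p] (F →ₗ[ZMod p] ZMod p) := Φ.toZModLinearMap p
  have hinj : Function.Injective Φl := by
    rw [injective_iff_map_eq_zero]
    intro k hk
    by_contra hk0
    apply ha0
    have h1 : Φl k (k⁻¹ * a0) = 0 := by rw [hk]; rfl
    have h2 : Φl k (k⁻¹ * a0) = l (k * (k⁻¹ * a0)) := rfl
    rw [h2, mul_inv_cancel_left₀ hk0] at h1
    exact h1
  have hdim : Module.finrank (ZMod p) F = Module.finrank (ZMod p) (F →ₗ[ZMod p] ZMod p) :=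
    (Subspace.dual_finrank_eq (K := ZMod p) (V := F)).symm
  have hsurj : Function.Surjective Φl :=
    (LinearMap.injective_iff_surjective_of_finrank_eq_finrank hdim).1 hinj
  obtain ⟨k, hk⟩ := hsurj ((AddMonoidHom.mk' ψ hψ).toZModLinearMap p)
  refine ⟨k, fun x => ?_⟩
  have h1 : Φl k x = ((AddMonoidHom.mk' ψ hψ).toZModLinearMap p) x := by rw [hk]
  exact h1.symm

end Pool.Agent.Lib.MP_c385f6_ag.Cpl
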