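import Mathlib
import Pool.Agent.Lib.MP_c385f6_ag.Cpl.StEx

set_option autoImplicit false

/-!
Existence of the extension (module Ext).
-/

namespace Pool.Agent.Lib.MP_c385f6_ag.Cpl

open Polynomial Module

namespace ExtAux

section basic

variable {p : ℕ} {L F : Type*} [Field L] [Field F] (S : LF p L F)

theorem v_one : S.v 1 = 0 := by
  have h := S.v_mul 1 1 one_ne_zero one_ne_zero
  rw [mul_one] at h
  omega

theorem v_neg_one : S.v (-1) = 0 := by
  have h := S.v_mul (-1) (-1) (neg_ne_zero.2 one_ne_zero) (neg_ne_zero.2 one_ne_zero)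
  rw [neg_mul_neg, mul_one, v_one] at h
  omega

theorem v_mul' (x y : L) (hx : x ≠ 0) (hy : y ≠ 0) : S.v (x * y) = S.v x + S.v y :=
  S.v_mul x y hx hy

theorem v_neg (x : L) : S.v (-x) = S.v x := by
  by_cases hx : x = 0
  · rw [hx, neg_zero]
  · have h := S.v_mul (-1) x (neg_ne_zero.2 one_ne_zero) hx
    rw [neg_one_mul, v_neg_one] at h
    omega

theorem v_inv (x : L) : S.v x⁻¹ = - S.v x := by
  by_cases hx : x = 0
  · rw [hx, inv_zero, S.v_zero, neg_zero]
  · have h := S.v_mul x x⁻¹ hx (inv_ne_zero hx)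
    rw [mul_inv_cancel₀ hx, v_one] at h
    omega

theorem v_pow (x : L) (n : ℕ) : S.v (x ^ n) = n * S.v x := by
  by_cases hx : x = 0
  · rcases Nat.eq_zero_or_pos n with hn | hn
    · rw [hn, pow_zero, v_one]
      simp
    · rw [hx, zero_pow hn.ne', S.v_zero, mul_zero]
  · induction n with
    | zero => rw [pow_zero, v_one]; simp
    | succ n ih =>
      rw [pow_succ, S.v_mul _ _ (pow_ne_zero n hx) hx, ih]
      push_cast
      ring

theorem v_zpow (x : L) (n : ℤ) : S.v (x ^ n) = n * S.v x := by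
  obtain ⟨m, rfl | rfl⟩ := n.eq_nat_or_neg
  · rw [zpow_natCast, v_pow]
  · rw [zpow_neg, zpow_natCast, v_inv, v_pow]
    ring

theorem int_add {x y : L} (hx : 0 ≤ S.v x) (hy : 0 ≤ S.v y) : 0 ≤ S.v (x + y) := by
  by_cases h1 : x = 0
  · rwa [h1, zero_add]
  by_cases h2 : y = 0
  · rwa [h2, add_zero]
  by_cases h3 : x + y = 0
  · rw [h3, S.v_zero]
  exact le_trans (le_min hx hy) (S.v_add x y h1 h2 h3)

theorem int_mul {x y : L} (hx : 0 ≤ S.v x) (hy : 0 ≤ S.v y) : 0 ≤ S.v (x * y) := by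
  by_cases h1 : x = 0
  · rw [h1, zero_mul, S.v_zero]
  by_cases h2 : y = 0
  · rw [h2, mul_zero, S.v_zero]
  rw [S.v_mul x y h1 h2]
  exact add_nonneg hx hy

/-- the ring of integers -/
def OO : Subring L where
  carrier := {x | 0 ≤ S.v x}
  mul_mem' h1 h2 := int_mul S h1 h2
  one_mem' := by
    change 0 ≤ S.v 1
    rw [v_one]
  add_mem' h1 h2 := int_add S h1 h2
  zero_mem' := by
    change 0 ≤ S.v 0
    rw [S.v_zero]
  neg_mem' := by
    intro x hx
    change 0 ≤ S.v (-x)
    rw [v_neg]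
    exact hx

theorem mem_OO (x : L) : x ∈ OO S ↔ 0 ≤ S.v x := Iff.rfl

theorem res_zero' : S.res 0 = 0 := by
  have h := S.res_add 0 0 (by rw [S.v_zero]) (by rw [S.v_zero])
  rw [add_zero] at h
  exact (left_eq_add.1 h)

/-- the residue map as a ring homomorphism -/
def rr : OO S →+* F where
  toFun x := S.res x
  map_one' := S.res_one
  map_mul' x y := S.res_mul x y x.2 y.2
  map_zero' := res_zero' S
  map_add' x y := S.res_add x y x.2 y.2

theorem rr_apply (x : L) (hx : x ∈ OO S) : rr S ⟨x, hx⟩ = S.res x := rfl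

theorem res_neg {x : L} (hx : 0 ≤ S.v x) : S.res (-x) = - S.res x := by
  have h := map_neg (rr S) ⟨x, hx⟩
  exact h

theorem res_sub {x y : L} (hx : 0 ≤ S.v x) (hy : 0 ≤ S.v y) :
    S.res (x - y) = S.res x - S.res y := by
  have h := map_sub (rr S) ⟨x, hx⟩ ⟨y, hy⟩
  exact h

theorem int_sub {x y : L} (hx : 0 ≤ S.v x) (hy : 0 ≤ S.v y) : 0 ≤ S.v (x - y) :=
  (OO S).sub_mem hx hy

theorem int_sum {ι : Type*} (s : Finset ι) (f : ι → L) (h : ∀ i ∈ s, 0 ≤ S.v (f i)) :
    0 ≤ S.v (∑ i ∈ s, f i) :=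
  (OO S).sum_mem h

theorem res_sum {ι : Type*} (s : Finset ι) (f : ι → L) (h : ∀ i ∈ s, 0 ≤ S.v (f i)) :
    S.res (∑ i ∈ s, f i) = ∑ i ∈ s, S.res (f i) := by
  classical
  induction s using Finset.induction_on with
  | empty => simp [res_zero' S]
  | insert a s ha ih =>
    rw [Finset.sum_insert ha, Finset.sum_insert ha,
      S.res_add _ _ (h a (Finset.mem_insert_self a s))
        (int_sum S s f fun i hi => h i (Finset.mem_insert_of_mem hi)),
      ih fun i hi => h i (Finset.mem_insert_of_mem hi)]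

theorem res_pow {x : L} (hx : 0 ≤ S.v x) (n : ℕ) : S.res (x ^ n) = S.res x ^ n := by
  have h := map_pow (rr S) ⟨x, hx⟩ n
  exact h

theorem res_natCast (n : ℕ) : 0 ≤ S.v (n : L) ∧ S.res (n : L) = n := by
  have h := map_natCast (rr S) n
  exact ⟨((n : OO S)).2, h⟩

theorem res_eq_of {x y : L} (hx : 0 ≤ S.v x) (hy : 0 ≤ S.v y) :
    S.res x = S.res y ↔ x = y ∨ 1 ≤ S.v (x - y) := by
  rw [← sub_eq_zero, ← res_sub S hx hy, S.res_zero _ (int_sub S hx hy), sub_eq_zero]

theorem v_unit {x : L} (hx : 0 ≤ S.v x) (h : S.res x ≠ 0) : x ≠ 0 ∧ S.v x = 0 := by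
  rw [Ne, S.res_zero x hx, not_or] at h
  exact ⟨h.1, by omega⟩

theorem res_inv {x : L} (hx : 0 ≤ S.v x) (h : S.res x ≠ 0) :
    0 ≤ S.v x⁻¹ ∧ S.res x⁻¹ = (S.res x)⁻¹ := by
  obtain ⟨h0, h1⟩ := v_unit S hx h
  have h2 : 0 ≤ S.v x⁻¹ := by rw [v_inv, h1, neg_zero]
  refine ⟨h2, ?_⟩
  have h3 := S.res_mul x x⁻¹ hx h2
  rw [mul_inv_cancel₀ h0, S.res_one] at h3
  exact eq_inv_of_mul_eq_one_right h3.symm

/-- integral elements -/
theorem int_root (P : L[X]) (hP : P.Monic) (hc : ∀ n, 0 ≤ S.v (P.coeff n)) (x : L)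
    (hx : P.eval x = 0) : 0 ≤ S.v x := by
  by_contra hneg
  push Not at hneg
  have hx0 : x ≠ 0 := by
    rintro rfl
    rw [S.v_zero] at hneg
    omega
  have hy : 1 ≤ S.v x⁻¹ := by
    rw [v_inv]
    omega
  have hy0 : S.res x⁻¹ = 0 := (S.res_zero _ (by omega)).2 (Or.inr hy)
  have h1 : ∑ i ∈ Finset.range (P.natDegree + 1), P.coeff i * x⁻¹ ^ (P.natDegree - i) = 0 := by
    have h2 := hx
    rw [eval_eq_sum_range] at h2
    have h3 : x⁻¹ ^ P.natDegree *
        ∑ i ∈ Finset.range (P.natDegree + 1), P.coeff i * x ^ i = 0 := by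
      rw [h2, mul_zero]
    rw [Finset.mul_sum] at h3
    rw [← h3]
    refine Finset.sum_congr rfl fun i hi => ?_
    have hi' : i ≤ P.natDegree := by
      rw [Finset.mem_range] at hi
      omega
    have h4 : x⁻¹ ^ P.natDegree = x⁻¹ ^ (P.natDegree - i) * x⁻¹ ^ i := by
      rw [← pow_add, Nat.sub_add_cancel hi']
    rw [h4]
    have h5 : x⁻¹ ^ i * x ^ i = 1 := by
      rw [← mul_pow, inv_mul_cancel₀ hx0, one_pow]
    calc P.coeff i * x⁻¹ ^ (P.natDegree - i)
        = P.coeff i * x⁻¹ ^ (P.natDegree - i) * (x⁻¹ ^ i * x ^ i) := by rw [h5, mul_one]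
      _ = _ := by ring
  have h6 : ∀ i ∈ Finset.range (P.natDegree + 1),
      0 ≤ S.v (P.coeff i * x⁻¹ ^ (P.natDegree - i)) := fun i _ =>
    int_mul S (hc i) (by rw [v_pow]; exact mul_nonneg (by positivity) (by omega))
  have h7 := res_sum S _ _ h6
  rw [h1, res_zero' S, Finset.sum_range_succ, Nat.sub_self, pow_zero, mul_one,
    hP.coeff_natDegree, S.res_one, Finset.sum_eq_zero, zero_add] at h7
  · exact zero_ne_one h7
  · intro i hi
    rw [Finset.mem_range] at hi
    rw [S.res_mul _ _ (hc i) (by rw [v_pow]; exact mul_nonneg (by positivity) (by omega)),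
      res_pow S (by omega), hy0, zero_pow (by omega), mul_zero]

theorem v_root {ξ : L} {N : ℕ} (hN : N ≠ 0) (h : ξ ^ N = 1) : S.v ξ = 0 := by
  have h3 := v_pow S ξ N
  rw [h, v_one] at h3
  rcases mul_eq_zero.1 h3.symm with h4 | h4
  · exact absurd (by exact_mod_cast h4) hN
  · exact h4

/-- roots of unity of order prime to `p` with the same residue are equal -/
theorem root_inj {η : L} {N : ℕ} (hN : (N : F) ≠ 0) (h1 : η ^ N = 1) (h2 : S.res η = 1) :
    η = 1 := by
  by_contra hne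
  have hN0 : N ≠ 0 := by
    rintro rfl
    exact hN (by simp)
  have hη0 : η ≠ 0 := by
    rintro rfl
    rw [zero_pow hN0] at h1
    exact zero_ne_one h1
  have hv : S.v η = 0 := by
    have h3 := v_pow S η N
    rw [h1, v_one] at h3
    rcases mul_eq_zero.1 h3.symm with h4 | h4
    · exact absurd (by exact_mod_cast h4) hN0
    · exact h4
  have h5 : ∑ i ∈ Finset.range N, η ^ i = 0 := by
    have h6 := geom_sum_mul η N
    rw [h1, sub_self] at h6
    rcases mul_eq_zero.1 h6 with h7 | h7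
    · exact h7
    · exact absurd (sub_eq_zero.1 h7) hne
  have h8 := res_sum S (Finset.range N) (fun i => η ^ i)
    (fun i _ => by rw [v_pow, hv, mul_zero])
  simp only [h5, res_zero' S, res_pow S hv.ge, h2, one_pow, Finset.sum_const, Finset.card_range,
    nsmul_eq_mul, mul_one] at h8
  exact hN h8.symm

end basic

section padic

variable {p : ℕ} [Fact p.Prime] {L F : Type*} [Field L] [Field F] (S : LF p L F)
  [Algebra ℚ_[p] L]

/-- the map from the `p`-adic integers -/
noncomputable def jj (p : ℕ) [Fact p.Prime] (L : Type*) [Field L] [Algebra ℚ_[p] L] :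
    ℤ_[p] →+* L :=
  (algebraMap ℚ_[p] L).comp PadicInt.Coe.ringHom

theorem jj_inj : Function.Injective (jj p L) :=
  (algebraMap ℚ_[p] L).injective.comp Subtype.coe_injective

theorem zp_pow (n : ℕ) (hn : n.Coprime p) (y : ℤ_[p]) : ∃ z : ℤ_[p], z ^ n = 1 + p * y := by
  have hp : (1 : ℕ) < p := (Fact.out : p.Prime).one_lt
  have hnorm : ‖(n : ℤ_[p])‖ = 1 := by
    rw [PadicInt.norm_natCast_eq_one_iff]
    exact hn.symm
  have h := @hensels_lemma p _ ℤ_[p] _ _ (X ^ n - C (1 + (p : ℤ_[p]) * y)) 1 (by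
    have h1 : aeval (1 : ℤ_[p]) (X ^ n - C (1 + (p : ℤ_[p]) * y)) = -((p : ℤ_[p]) * y) := by
      simp
    have h2 : aeval (1 : ℤ_[p]) (derivative (X ^ n - C (1 + (p : ℤ_[p]) * y))) = (n : ℤ_[p]) := by
      simp [derivative_X_pow]
    rw [h1, h2, hnorm, norm_neg, norm_mul, one_pow, PadicInt.norm_p]
    have h3 : (p : ℝ)⁻¹ < 1 := inv_lt_one_of_one_lt₀ (by exact_mod_cast hp)
    have h4 : ‖y‖ ≤ 1 := PadicInt.norm_le_one y
    have h5 : (0 : ℝ) < (p : ℝ)⁻¹ := inv_pos.2 (by positivity)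
    nlinarith)
  obtain ⟨z, hz, -⟩ := h
  refine ⟨z, ?_⟩
  simp only [map_sub, map_pow, aeval_X, aeval_C, Algebra.algebraMap_self, RingHom.id_apply] at hz
  exact sub_eq_zero.1 hz

theorem v_one_add (y : ℤ_[p]) : S.v (jj p L (1 + p * y)) = 0 := by
  have hp : (1 : ℕ) < p := (Fact.out : p.Prime).one_lt
  by_contra hne
  set m : ℕ := (S.v (jj p L (1 + p * y))).natAbs with hm
  have hm0 : 0 < m := Int.natAbs_pos.2 hne
  obtain ⟨z, hz⟩ := zp_pow (p := p) (p * m + 1) (by
    rw [Nat.coprime_comm, (Fact.out : p.Prime).coprime_iff_not_dvd]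
    intro h
    have h' := (Nat.dvd_add_right (dvd_mul_right p m)).1 h
    have h'' := Nat.le_of_dvd one_pos h'
    omega) y
  have h1 : S.v (jj p L (1 + p * y)) = ((p * m + 1 : ℕ) : ℤ) * S.v (jj p L z) := by
    rw [← hz, map_pow, v_pow]
  have h2 : (p * m + 1) ∣ m := by
    have h3 : ((p * m + 1 : ℕ) : ℤ) ∣ S.v (jj p L (1 + p * y)) := ⟨_, h1⟩
    rw [hm]
    exact Int.natCast_dvd.1 h3
  have h4 := Nat.le_of_dvd hm0 h2
  nlinarith

theorem v_p_mul (y : ℤ_[p]) : 0 ≤ S.v (jj p L (p * y)) := by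
  have h : jj p L (p * y) = jj p L (1 + p * y) - 1 := by
    rw [map_add, map_one, add_sub_cancel_left]
  rw [h]
  exact int_sub S (by rw [v_one_add]) (by rw [v_one])

theorem v_zp (y : ℤ_[p]) : 0 ≤ S.v (jj p L y) := by
  by_cases hy : y = 0
  · rw [hy, map_zero, S.v_zero]
  by_contra hneg
  push Not at hneg
  have hp0 : (jj p L p) ≠ 0 := by
    rw [Ne, ← map_zero (jj p L), (jj_inj (p := p) (L := L)).eq_iff]
    exact_mod_cast (Fact.out : p.Prime).ne_zero
  have hy0 : jj p L y ≠ 0 := by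
    rw [Ne, ← map_zero (jj p L), (jj_inj (p := p) (L := L)).eq_iff]
    exact hy
  have h1 : ∀ n : ℕ, 0 ≤ S.v (jj p L p) + n * S.v (jj p L y) := by
    intro n
    have h2 := v_p_mul S (y ^ n)
    rw [map_mul, map_pow, S.v_mul _ _ hp0 (pow_ne_zero n hy0), v_pow] at h2
    exact h2
  have h3 := h1 ((S.v (jj p L p)).natAbs + 1)
  have h4 : S.v (jj p L p) ≤ (S.v (jj p L p)).natAbs := Int.le_natAbs
  push_cast at h3 h4
  nlinarith [abs_nonneg (S.v (jj p L p))]

theorem v_qp (x : ℚ_[p]) (hx : ‖x‖ ≤ 1) : 0 ≤ S.v (algebraMap ℚ_[p] L x) :=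
  v_zp S ⟨x, hx⟩

end padic

section vdonly

variable {p : ℕ} {k Fk : Type*} [NormedField k] [Field Fk] (V : VD p k Fk)

theorem norm_le_one_iff (y : k) (hy : y ≠ 0) : ‖y‖ ≤ 1 ↔ 0 ≤ V.v y := by
  rw [V.norm_eq y hy]
  have h := V.one_lt
  rw [zpow_le_one_iff_right₀ h]
  omega

theorem norm_eq_one_iff (y : k) (hy : y ≠ 0) : ‖y‖ = 1 ↔ V.v y = 0 := by
  rw [V.norm_eq y hy]
  have h := V.one_lt
  rw [zpow_eq_one_iff_right₀ (by linarith) h.ne']
  omega

include V in
theorem one_lt_card : 1 < Nat.card Fk := by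
  have := V.finF
  exact Finite.one_lt_card

include V in
theorem cast_card (F : Type*) [Field F] (hF : CharP F p) : ((Nat.card Fk : ℕ) : F) = 0 := by
  have := V.finF
  have := V.charF
  have := Fintype.ofFinite Fk
  have h1 : ((Nat.card Fk : ℕ) : Fk) = 0 := by
    rw [Nat.card_eq_fintype_card]
    exact Nat.cast_card_eq_zero Fk
  rw [CharP.cast_eq_zero_iff Fk p] at h1
  exact (CharP.cast_eq_zero_iff F p _).2 h1

include V in
theorem cast_N (F : Type*) [Field F] (hF : CharP F p) (d : ℕ) (hd : 0 < d) :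
    ((Nat.card Fk ^ d - 1 : ℕ) : F) ≠ 0 := by
  have h0 : 0 < Nat.card Fk := by
    have := V.finF
    exact Nat.card_pos
  have h1 : (((Nat.card Fk ^ d - 1 : ℕ) + 1 : ℕ) : F) = 0 := by
    rw [Nat.sub_add_cancel (Nat.one_le_pow _ _ h0), Nat.cast_pow, cast_card V F hF,
      zero_pow hd.ne']
  intro h2
  rw [Nat.cast_add, h2, zero_add, Nat.cast_one] at h1
  exact one_ne_zero h1

end vdonly

section kk

variable {p : ℕ} [Fact p.Prime] {k Fk L F : Type*} [NormedField k] [Field Fk]
  [NormedAlgebra ℚ_[p] k] [FiniteDimensional ℚ_[p] k]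
  [Field L] [Field F] (S : LF p L F)
  [Algebra ℚ_[p] L] [Algebra k L] [IsScalarTower ℚ_[p] k L]

theorem v_k (y : k) (hy : ‖y‖ ≤ 1) : 0 ≤ S.v (algebraMap k L y) := by
  have hi : IsIntegral ℚ_[p] y := Algebra.IsIntegral.isIntegral y
  have h1 : spectralValue (minpoly ℚ_[p] y) ≤ 1 := by
    have h2 := NormedAlgebra.norm_eq_spectralNorm ℚ_[p] y
    rw [h2] at hy
    exact hy
  rw [spectralValue_le_one_iff (minpoly.monic hi)] at h1
  refine int_root S ((minpoly ℚ_[p] y).map (algebraMap ℚ_[p] L)) ((minpoly.monic hi).map _)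
    (fun n => ?_) _ ?_
  · rw [coeff_map]
    exact v_qp S _ (h1 n)
  · rw [eval_map, ← aeval_def, aeval_algebraMap_apply, minpoly.aeval, map_zero]

theorem v_k_one (y : k) (hy : ‖y‖ = 1) : S.v (algebraMap k L y) = 0 := by
  have h1 := v_k S y hy.le
  have h2 := v_k S y⁻¹ (by rw [norm_inv, hy, inv_one])
  rw [map_inv₀, v_inv] at h2
  omega

variable (V : VD p k Fk)

theorem v_eq (y : k) (hy : y ≠ 0) :
    S.v (algebraMap k L y) = V.v y * S.v (algebraMap k L V.π) := by
  have hpi : V.π ≠ 0 := V.pi_ne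
  have hc : (0 : ℝ) < V.c := by linarith [V.one_lt]
  have h1 : ‖y * V.π ^ (-(V.v y))‖ = 1 := by
    rw [norm_mul, norm_zpow, V.norm_eq y hy, V.norm_eq _ hpi, V.v_pi, ← zpow_mul,
      ← zpow_add₀ hc.ne']
    have : -V.v y + -1 * -V.v y = 0 := by ring
    rw [this, zpow_zero]
  have h2 := v_k_one (L := L) S _ h1
  have hy' : algebraMap k L y ≠ 0 := (_root_.map_ne_zero _).2 hy
  have hpi' : algebraMap k L V.π ≠ 0 := (_root_.map_ne_zero _).2 hpi
  rw [map_mul, map_zpow₀, S.v_mul _ _ hy' (zpow_ne_zero _ hpi'), v_zpow] at h2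
  linarith

theorem v_pi_pos (hp : 0 < S.v (p : L)) : 1 ≤ S.v (algebraMap k L V.π) := by
  have hp0 : (p : k) ≠ 0 := by
    have : (algebraMap ℚ_[p] k) (p : ℚ_[p]) ≠ 0 :=
      (_root_.map_ne_zero _).2 (by exact_mod_cast (Fact.out : p.Prime).ne_zero)
    rwa [map_natCast] at this
  have h1 := v_eq S V (p : k) hp0
  rw [map_natCast] at h1
  have h2 : 0 ≤ V.v (p : k) := by
    rw [← norm_le_one_iff V _ hp0]
    have h3 : ‖(p : k)‖ = ‖(p : ℚ_[p])‖ := by
      rw [← norm_algebraMap' k (p : ℚ_[p]), map_natCast]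
    rw [h3]
    exact Padic.norm_p_lt_one.le
  rw [h1] at hp
  rcases pos_and_pos_or_neg_and_neg_of_mul_pos hp with h4 | h4
  · omega
  · omega

theorem v_nonneg_iff (hp : 0 < S.v (p : L)) (y : k) :
    0 ≤ S.v (algebraMap k L y) ↔ 0 ≤ V.v y := by
  by_cases hy : y = 0
  · rw [hy, map_zero, S.v_zero, V.v_zero]
  · rw [v_eq S V y hy]
    have h := v_pi_pos (k := k) S V hp
    constructor
    · intro h1
      by_contra h2
      push Not at h2
      nlinarith
    · intro h1
      exact mul_nonneg h1 (by omega)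

end kk

section resid

variable {p : ℕ} [Fact p.Prime] {k Fk L F : Type*} [NormedField k] [Field Fk]
  [NormedAlgebra ℚ_[p] k] [FiniteDimensional ℚ_[p] k]
  [Field L] [Field F] (S : LF p L F)
  [Algebra ℚ_[p] L] [Algebra k L] [IsScalarTower ℚ_[p] k L] (V : VD p k Fk)

theorem vres_zero_iff (hp : 0 < S.v (p : L)) (x : k) (hx : 0 ≤ V.v x) :
    V.res x = 0 ↔ S.res (algebraMap k L x) = 0 := by
  have he := v_pi_pos (k := k) S V hp
  rw [V.res_zero x hx, S.res_zero _ ((v_nonneg_iff S V hp x).2 hx),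
    _root_.map_eq_zero]
  by_cases hx0 : x = 0
  · simp [hx0]
  · rw [v_eq S V x hx0]
    simp only [hx0, false_or]
    constructor
    · intro h
      nlinarith
    · intro h
      by_contra h2
      have h3 : V.v x = 0 := by omega
      rw [h3, zero_mul] at h
      omega

theorem vres_eq (hp : 0 < S.v (p : L)) (x y : k) (hx : 0 ≤ V.v x) (hy : 0 ≤ V.v y) :
    V.res x = V.res y ↔ S.res (algebraMap k L x) = S.res (algebraMap k L y) := by
  have hx' := (v_nonneg_iff S V hp x).2 hx
  have hy' := (v_nonneg_iff S V hp y).2 hy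
  have h1 : 0 ≤ V.v (x - y) := by
    rw [← v_nonneg_iff S V hp, map_sub]
    exact int_sub S hx' hy'
  have h2 : V.res x = V.res (x - y) + V.res y := by
    rw [← V.res_add _ _ h1 hy, sub_add_cancel]
  rw [h2, add_eq_right, vres_zero_iff S V hp _ h1, map_sub, res_sub S hx' hy', sub_eq_zero]

/-- a lift of a residue class -/
noncomputable def lft (b : Fk) : k := (V.res_surj b).choose

omit [Fact p.Prime] [NormedAlgebra ℚ_[p] k] [FiniteDimensional ℚ_[p] k] in
theorem lft_spec (b : Fk) : 0 ≤ V.v (lft V b) ∧ V.res (lft V b) = b := (V.res_surj b).choose_spec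

theorem slft (hp : 0 < S.v (p : L)) (x : k) (hx : 0 ≤ V.v x) :
    S.res (algebraMap k L (lft V (V.res x))) = S.res (algebraMap k L x) :=
  (vres_eq S V hp _ _ (lft_spec V _).1 hx).1 (lft_spec V _).2

/-- the embedding of residue fields -/
noncomputable def rho (hp : 0 < S.v (p : L)) : Fk →+* F where
  toFun b := S.res (algebraMap k L (lft V b))
  map_one' := by
    have h1 : (0 : ℤ) ≤ V.v 1 := by
      rw [← v_nonneg_iff S V hp, map_one, v_one]
    have h := slft S V hp 1 h1
    rw [V.res_one, map_one, S.res_one] at h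
    exact h
  map_zero' := by
    have h1 : (0 : ℤ) ≤ V.v 0 := by rw [V.v_zero]
    have h := slft S V hp 0 h1
    rw [(V.res_zero 0 h1).2 (Or.inl rfl), map_zero, res_zero' S] at h
    exact h
  map_mul' b c := by
    obtain ⟨hb, hb'⟩ := lft_spec V b
    obtain ⟨hc, hc'⟩ := lft_spec V c
    have hb2 := (v_nonneg_iff S V hp _).2 hb
    have hc2 := (v_nonneg_iff S V hp _).2 hc
    have h1 : 0 ≤ V.v (lft V b * lft V c) := by
      rw [← v_nonneg_iff S V hp, map_mul]
      exact int_mul S hb2 hc2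
    have h := slft S V hp _ h1
    rw [V.res_mul _ _ hb hc, hb', hc', map_mul, S.res_mul _ _ hb2 hc2] at h
    exact h
  map_add' b c := by
    obtain ⟨hb, hb'⟩ := lft_spec V b
    obtain ⟨hc, hc'⟩ := lft_spec V c
    have hb2 := (v_nonneg_iff S V hp _).2 hb
    have hc2 := (v_nonneg_iff S V hp _).2 hc
    have h1 : 0 ≤ V.v (lft V b + lft V c) := by
      rw [← v_nonneg_iff S V hp, map_add]
      exact int_add S hb2 hc2
    have h := slft S V hp _ h1
    rw [V.res_add _ _ hb hc, hb', hc', map_add, S.res_add _ _ hb2 hc2] at h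
    exact h

theorem rho_res (hp : 0 < S.v (p : L)) (x : k) (hx : 0 ≤ V.v x) :
    rho S V hp (V.res x) = S.res (algebraMap k L x) := slft S V hp x hx

theorem rho_res' (hp : 0 < S.v (p : L)) (x : k) (hx : 0 ≤ S.v (algebraMap k L x)) :
    rho S V hp (V.res x) = S.res (algebraMap k L x) :=
  slft S V hp x ((v_nonneg_iff S V hp x).1 hx)

include V in
theorem res_pow_card (hp : 0 < S.v (p : L)) (x : k) (hx : 0 ≤ S.v (algebraMap k L x)) :
    S.res (algebraMap k L x) ^ Nat.card Fk = S.res (algebraMap k L x) := by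
  have : Finite Fk := V.finF
  rw [← rho_res' S V hp x hx, ← map_pow]
  congr 1
  have := Fintype.ofFinite Fk
  rw [Nat.card_eq_fintype_card, FiniteField.pow_card]

include V in
theorem res_xi (hp : 0 < S.v (p : L)) (hF : CharP F p) (d : ℕ) (hd : 2 ≤ d) {ξ : L}
    (hξ : IsPrimitiveRoot ξ (Nat.card Fk ^ d - 1)) (y : k) (hy : 0 ≤ S.v (algebraMap k L y)) :
    S.res (algebraMap k L y) ≠ S.res ξ := by
  intro h
  have hq := one_lt_card V
  have hlt : Nat.card Fk - 1 < Nat.card Fk ^ d - 1 := by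
    have h1 : Nat.card Fk ^ 1 < Nat.card Fk ^ d := Nat.pow_lt_pow_right hq (by omega)
    rw [pow_one] at h1
    omega
  have hN : Nat.card Fk ^ d - 1 ≠ 0 := by omega
  have hv : S.v ξ = 0 := v_root S hN hξ.pow_eq_one
  have hr0 : S.res ξ ≠ 0 := by
    rw [Ne, S.res_zero ξ hv.ge]
    push Not
    exact ⟨hξ.ne_zero hN, by omega⟩
  have h1 := res_pow_card S V hp y hy
  rw [h] at h1
  have h2 : S.res (ξ ^ (Nat.card Fk - 1)) = 1 := by
    rw [res_pow S hv.ge]
    have h3 : S.res ξ ^ (Nat.card Fk - 1) * S.res ξ = 1 * S.res ξ := by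
      rw [← pow_succ, Nat.sub_add_cancel hq.le, h1, one_mul]
    exact mul_right_cancel₀ hr0 h3
  have h4 := root_inj S (cast_N V F hF d (by omega)) (η := ξ ^ (Nat.card Fk - 1)) (by
    rw [← pow_mul, mul_comm, pow_mul, hξ.pow_eq_one, one_pow]) h2
  have h5 := hξ.dvd_of_pow_eq_one _ h4
  have h6 := Nat.le_of_dvd (by omega) h5
  omega

end resid

section gal

variable {p : ℕ} [Fact p.Prime] {k Fk L F : Type*} [NormedField k] [Field Fk]
  [NormedAlgebra ℚ_[p] k] [FiniteDimensional ℚ_[p] k]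
  [Field L] [Field F] (S : LF p L F)
  [Algebra ℚ_[p] L] [Algebra k L] [IsScalarTower ℚ_[p] k L] (V : VD p k Fk)
  [FiniteDimensional k L] [Algebra Fk F]
  (hA : ∀ x : k, 0 ≤ V.v x → algebraMap Fk F (V.res x) = S.res (algebraMap k L x))

include hA in
theorem finrank_le (hp : 0 < S.v (p : L)) : finrank Fk F ≤ finrank k L := by
  have hF : Finite F := S.finF
  have hfin : Module.Finite Fk F := Module.Finite.of_finite
  let b := Module.finBasis Fk F
  choose x hx hx' using fun i => S.res_surj (b i)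
  have hli : LinearIndependent k x := by
    rw [Fintype.linearIndependent_iff]
    intro c hc i
    by_contra hne
    have : Nonempty (Fin (finrank Fk F)) := ⟨i⟩
    obtain ⟨i0, hi0⟩ := Finite.exists_max (fun j => ‖c j‖)
    have hc0 : c i0 ≠ 0 := by
      intro h
      have h1 := hi0 i
      rw [h, norm_zero] at h1
      exact hne (norm_le_zero_iff.1 h1)
    have hv : ∀ j, 0 ≤ V.v (c j / c i0) := by
      intro j
      by_cases hj : c j / c i0 = 0
      · rw [hj, V.v_zero]
      · rw [← norm_le_one_iff V _ hj, norm_div]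
        exact div_le_one_of_le₀ (hi0 j) (norm_nonneg _)
    have hv' : ∀ j, 0 ≤ S.v (algebraMap k L (c j / c i0)) := fun j =>
      (v_nonneg_iff S V hp _).2 (hv j)
    have hs : ∑ j, algebraMap k L (c j / c i0) * x j = 0 := by
      have h1 : (c i0)⁻¹ • ∑ j, c j • x j = 0 := by rw [hc, smul_zero]
      rw [Finset.smul_sum] at h1
      rw [← h1]
      refine Finset.sum_congr rfl fun j _ => ?_
      rw [smul_smul, Algebra.smul_def, div_eq_inv_mul]
    have hr := res_sum S Finset.univ (fun j => algebraMap k L (c j / c i0) * x j)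
      (fun j _ => int_mul S (hv' j) (hx j))
    rw [hs, res_zero' S] at hr
    have hr2 : ∑ j, V.res (c j / c i0) • b j = 0 := by
      rw [hr]
      refine Finset.sum_congr rfl fun j _ => ?_
      rw [S.res_mul _ _ (hv' j) (hx j), hx' j, ← hA _ (hv j), Algebra.smul_def]
    have h3 := (Fintype.linearIndependent_iff.1 b.linearIndependent) _ hr2 i0
    rw [div_self hc0, V.res_one] at h3
    exact one_ne_zero h3
  have h := hli.fintype_card_le_finrank
  rwa [Fintype.card_fin] at h

/-- a lift of a residue class -/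
noncomputable def lfl (b : F) : L := (S.res_surj b).choose

omit [Fact p.Prime] [Algebra ℚ_[p] L] in
theorem lfl_spec (b : F) : 0 ≤ S.v (lfl S b) ∧ S.res (lfl S b) = b := (S.res_surj b).choose_spec

omit [Fact p.Prime] [Algebra ℚ_[p] L] [NormedAlgebra ℚ_[p] k] [FiniteDimensional ℚ_[p] k]
  [IsScalarTower ℚ_[p] k L] [FiniteDimensional k L] in
theorem res_g (g : L ≃ₐ[k] L) (hg : ∀ x, S.v (g x) = S.v x) (x y : L) (hx : 0 ≤ S.v x)
    (hy : 0 ≤ S.v y) (h : S.res x = S.res y) : S.res (g x) = S.res (g y) := by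
  rw [res_eq_of S hx hy] at h
  rw [res_eq_of S (by rw [hg]; exact hx) (by rw [hg]; exact hy), ← map_sub, hg]
  rcases h with h | h
  · exact Or.inl (by rw [h])
  · exact Or.inr h

/-- the action on the residue field -/
noncomputable def actH (g : L ≃ₐ[k] L) (hg : ∀ x, S.v (g x) = S.v x) : F →ₐ[Fk] F where
  toFun b := S.res (g (lfl S b))
  map_one' := by
    have h := res_g S g hg (lfl S 1) 1 (lfl_spec S 1).1 (by rw [v_one])
      (by rw [(lfl_spec S 1).2, S.res_one])
    rwa [map_one, S.res_one] at h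
  map_zero' := by
    have h := res_g S g hg (lfl S 0) 0 (lfl_spec S 0).1 (by rw [S.v_zero])
      (by rw [(lfl_spec S 0).2, res_zero' S])
    rwa [map_zero, res_zero' S] at h
  map_mul' b c := by
    obtain ⟨hb, hb'⟩ := lfl_spec S b
    obtain ⟨hc, hc'⟩ := lfl_spec S c
    have h := res_g S g hg (lfl S (b * c)) (lfl S b * lfl S c) (lfl_spec S _).1
      (int_mul S hb hc) (by rw [(lfl_spec S _).2, S.res_mul _ _ hb hc, hb', hc'])
    rwa [map_mul, S.res_mul _ _ (by rw [hg]; exact hb) (by rw [hg]; exact hc)] at h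
  map_add' b c := by
    obtain ⟨hb, hb'⟩ := lfl_spec S b
    obtain ⟨hc, hc'⟩ := lfl_spec S c
    have h := res_g S g hg (lfl S (b + c)) (lfl S b + lfl S c) (lfl_spec S _).1
      (int_add S hb hc) (by rw [(lfl_spec S _).2, S.res_add _ _ hb hc, hb', hc'])
    rwa [map_add, S.res_add _ _ (by rw [hg]; exact hb) (by rw [hg]; exact hc)] at h
  commutes' r := by
    obtain ⟨hr, hr'⟩ := lft_spec V r
    have h0 : 0 ≤ S.v (algebraMap k L (lft V r)) := by
      by_cases h1 : lft V r = 0
      · rw [h1, map_zero, S.v_zero]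
      · exact v_k S _ ((norm_le_one_iff V _ h1).2 hr)
    have h1 := hA _ hr
    rw [hr'] at h1
    have h := res_g S g hg (lfl S (algebraMap Fk F r)) (algebraMap k L (lft V r))
      (lfl_spec S _).1 h0 (by rw [(lfl_spec S _).2, h1])
    rw [AlgEquiv.commutes, ← h1] at h
    exact h

/-- the action on the residue field -/
noncomputable def act (g : L ≃ₐ[k] L) (hg : ∀ x, S.v (g x) = S.v x) : F ≃ₐ[Fk] F :=
  have _hF : Finite F := S.finF
  AlgEquiv.ofBijective (actH S V hA g hg)
    ⟨(actH S V hA g hg).toRingHom.injective,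
      Finite.injective_iff_surjective.1 (actH S V hA g hg).toRingHom.injective⟩

theorem act_res (g : L ≃ₐ[k] L) (hg : ∀ x, S.v (g x) = S.v x) (x : L) (hx : 0 ≤ S.v x) :
    act S V hA g hg (S.res x) = S.res (g x) :=
  res_g S g hg _ _ (lfl_spec S _).1 hx (lfl_spec S _).2

include hA in
theorem finrank_eq [IsGalois k L] (hinv : ∀ (g : L ≃ₐ[k] L) (x : L), S.v (g x) = S.v x)
    (hp : 0 < S.v (p : L))
    (hinj : ∀ g g' : L ≃ₐ[k] L, (∀ x, 0 ≤ S.v x → S.res (g x) = S.res (g' x)) → g = g') :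
    finrank Fk F = finrank k L ∧
    ∀ x, 0 ≤ S.v x →
      S.res (algebraMap k L (Algebra.trace k L x)) = algebraMap Fk F (Algebra.trace Fk F (S.res x)) := by
  classical
  have hF : Finite F := S.finF
  have hfin : Module.Finite Fk F := Module.Finite.of_finite
  let θ : (L ≃ₐ[k] L) → (F ≃ₐ[Fk] F) := fun g => act S V hA g (hinv g)
  have hθ : Function.Injective θ := by
    intro g g' h
    refine hinj g g' fun x hx => ?_
    rw [← act_res S V hA g (hinv g) x hx, ← act_res S V hA g' (hinv g') x hx]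
    exact DFunLike.congr_fun h _
  have h1 : finrank k L ≤ finrank Fk F := by
    rw [← IsGalois.card_aut_eq_finrank k L, ← IsGalois.card_aut_eq_finrank Fk F]
    exact Nat.card_le_card_of_injective θ hθ
  have h2 := finrank_le S V hA hp
  have h3 : finrank Fk F = finrank k L := le_antisymm h2 h1
  have hbij : Function.Bijective θ := by
    rw [Fintype.bijective_iff_injective_and_card]
    refine ⟨hθ, ?_⟩
    rw [← Nat.card_eq_fintype_card, ← Nat.card_eq_fintype_card,
      IsGalois.card_aut_eq_finrank, IsGalois.card_aut_eq_finrank, h3]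
  refine ⟨h3, fun x hx => ?_⟩
  rw [trace_eq_sum_automorphisms, trace_eq_sum_automorphisms,
    res_sum S _ _ (fun g _ => by rw [hinv]; exact hx)]
  exact Fintype.sum_bijective θ hbij _ _ fun g => (act_res S V hA g (hinv g) x hx).symm

end gal

section unram

variable {p : ℕ} [Fact p.Prime] {k Fk L F : Type*} [NormedField k] [Field Fk]
  [NormedAlgebra ℚ_[p] k] [FiniteDimensional ℚ_[p] k]
  [Field L] [Field F] (S : LF p L F)
  [Algebra ℚ_[p] L] [Algebra k L] [IsScalarTower ℚ_[p] k L] (V : VD p k Fk)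
  [FiniteDimensional k L]

theorem adjoin_ext {ξ : L} (hξ : IntermediateField.adjoin k {ξ} = ⊤) (g g' : L ≃ₐ[k] L)
    (h : g ξ = g' ξ) : g = g' := by
  have h1 : Algebra.adjoin k {ξ} = ⊤ := by
    rw [← IntermediateField.adjoin_simple_toSubalgebra_of_isAlgebraic
      (Algebra.IsAlgebraic.isAlgebraic ξ), hξ, IntermediateField.top_toSubalgebra]
  have h2 : (g : L →ₐ[k] L) = (g' : L →ₐ[k] L) := by
    refine AlgHom.ext_of_adjoin_eq_top h1 ?_
    intro x hx
    rw [Set.mem_singleton_iff] at hx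
    rw [hx]
    exact h
  ext x
  exact DFunLike.congr_fun h2 x

theorem inj_of_xi (hinv : ∀ (g : L ≃ₐ[k] L) (x : L), S.v (g x) = S.v x) {ξ : L} {N : ℕ}
    (hN : (N : F) ≠ 0) (h1 : ξ ^ N = 1) (hξ : IntermediateField.adjoin k {ξ} = ⊤)
    (g g' : L ≃ₐ[k] L) (h : ∀ x, 0 ≤ S.v x → S.res (g x) = S.res (g' x)) : g = g' := by
  have hN0 : N ≠ 0 := by
    rintro rfl
    exact hN (by simp)
  have hv : S.v ξ = 0 := v_root S hN0 h1
  have hξ0 : ξ ≠ 0 := by
    rintro rfl
    rw [zero_pow hN0] at h1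
    exact zero_ne_one h1
  have hg' : g' ξ ≠ 0 := (_root_.map_ne_zero _).2 hξ0
  have hr : S.res (g' ξ) ≠ 0 := by
    rw [Ne, S.res_zero _ (by rw [hinv]; omega)]
    rw [hinv]
    push Not
    exact ⟨hg', by omega⟩
  obtain ⟨hr1, hr2⟩ := res_inv S (by rw [hinv]; omega) hr
  have h2 : g ξ * (g' ξ)⁻¹ = 1 := by
    refine root_inj S hN ?_ ?_
    · rw [mul_pow, inv_pow, ← map_pow, ← map_pow, h1, map_one, map_one, inv_one, mul_one]
    · rw [S.res_mul _ _ (by rw [hinv]; omega) hr1, hr2, h ξ hv.ge, mul_inv_cancel₀ hr]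
  refine adjoin_ext hξ g g' ?_
  rw [mul_inv_eq_one₀ hg'] at h2
  exact h2

theorem v_sn (x : L) (hx : spectralNorm k L x ≤ 1) : 0 ≤ S.v x := by
  have hi : IsIntegral k x := Algebra.IsIntegral.isIntegral x
  have h1 : spectralValue (minpoly k x) ≤ 1 := hx
  rw [spectralValue_le_one_iff (minpoly.monic hi)] at h1
  refine int_root S ((minpoly k x).map (algebraMap k L)) ((minpoly.monic hi).map _)
    (fun n => ?_) _ ?_
  · rw [coeff_map]
    exact v_k S _ (h1 n)
  · rw [eval_map, ← aeval_def, minpoly.aeval]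

include p in
theorem sn_mul [IsUltrametricDist k] (x y : L) :
    spectralNorm k L (x * y) = spectralNorm k L x * spectralNorm k L y := by
  let _ : NontriviallyNormedField k :=
    { (inferInstance : NormedField k) with
      non_trivial := by
        refine ⟨algebraMap ℚ_[p] k (p : ℚ_[p])⁻¹, ?_⟩
        rw [norm_algebraMap', norm_inv]
        refine (one_lt_inv₀ ?_).2 Padic.norm_p_lt_one
        rw [norm_pos_iff]
        exact_mod_cast (Fact.out : p.Prime).ne_zero }
  have : CompleteSpace k := FiniteDimensional.complete ℚ_[p] k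
  exact map_mul (spectralMulAlgNorm k L) x y

theorem pi_one [IsUltrametricDist k] (hp : 0 < S.v (p : L))
    (hs : ∀ x : L, x ≠ 0 → ∃ y : k, y ≠ 0 ∧ spectralNorm k L x = ‖y‖) :
    S.v (algebraMap k L V.π) = 1 := by
  obtain ⟨y, hy0, hy⟩ := hs S.π S.pi_ne
  have hy' : algebraMap k L y ≠ 0 := (_root_.map_ne_zero _).2 hy0
  have h1 : spectralNorm k L (S.π * (algebraMap k L y)⁻¹) = 1 := by
    rw [sn_mul (p := p), ← map_inv₀, spectralNorm_extends, hy, norm_inv,
      mul_inv_cancel₀ (norm_ne_zero_iff.2 hy0)]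
  have h2 : spectralNorm k L (algebraMap k L y * (S.π)⁻¹) = 1 := by
    have h3 := sn_mul (p := p) (k := k) (S.π * (algebraMap k L y)⁻¹) (algebraMap k L y * (S.π)⁻¹)
    have h4 : (S.π * (algebraMap k L y)⁻¹) * (algebraMap k L y * (S.π)⁻¹) = 1 := by
      have := S.pi_ne
      field_simp
    rw [h4, h1, one_mul, spectralNorm_one] at h3
    exact h3.symm
  have h5 := v_sn (p := p) (k := k) S _ h1.le
  have h6 := v_sn (p := p) (k := k) S _ h2.le
  rw [S.v_mul _ _ S.pi_ne (inv_ne_zero hy'), v_inv, S.v_pi] at h5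
  rw [S.v_mul _ _ hy' (inv_ne_zero S.pi_ne), v_inv, S.v_pi] at h6
  have h7 : S.v (algebraMap k L y) = 1 := by omega
  have h8 := v_eq S V y hy0
  have h9 := v_pi_pos (k := k) S V hp
  rw [h7] at h8
  have h10 : S.v (algebraMap k L V.π) ∣ 1 := ⟨V.v y, by rw [h8]; ring⟩
  exact le_antisymm (Int.le_of_dvd one_pos h10) h9

end unram

/-- the conclusion -/
def Cc (p : ℕ) (k : Type) [Field k] : Prop :=
  ∃ (L : Type) (_ : Field L) (_ : Algebra k L) (_ : FiniteDimensional k L) (_ : IsGalois k L)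
      (F : Type) (_ : Field F) (S : LF p L F) (ζ a : L) (ϖ : k),
      Ext p k L F S ζ a ϖ ∧ Ext.Kind S ζ a ϖ ∧
      ∀ x y, x ≠ 0 → y ≠ 0 → (S.h x y = 0 ↔ NR p x y)

theorem caseA (h1 : StLF) (h2 : StUr) (h3 : StAlpha) (p : ℕ) [Fact p.Prime] (k Fk : Type)
    [NormedField k] [Field Fk] [NormedAlgebra ℚ_[p] k] [FiniteDimensional ℚ_[p] k]
    [IsUltrametricDist k] (V : VD p k Fk) (ζ0 : k) (hζ0 : IsPrimitiveRoot ζ0 p) : Cc p k := by
  obtain ⟨d, hd, hdp, hα⟩ := h3 p inferInstance
  obtain ⟨L, _, _, _, _, ξ, hdeg, hξ, hadj, hsn⟩ := h2 p inferInstance k Fk inferInstance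
    inferInstance inferInstance inferInstance inferInstance V d hd
  letI : Algebra ℚ_[p] L := ((algebraMap k L).comp (algebraMap ℚ_[p] k)).toAlgebra
  have : IsScalarTower ℚ_[p] k L := IsScalarTower.of_algebraMap_eq (fun x => rfl)
  have : FiniteDimensional ℚ_[p] L := FiniteDimensional.trans ℚ_[p] k L
  have hζ : IsPrimitiveRoot (algebraMap k L ζ0) p :=
    hζ0.map_of_injective (algebraMap k L).injective
  obtain ⟨F, _, S, hF, hNR, hinv, hcyc, hvp⟩ := h1 p inferInstance L inferInstance inferInstance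
    inferInstance (algebraMap k L ζ0) hζ
  have hinv' : ∀ (g : L ≃ₐ[k] L) (x : L), S.v (g x) = S.v x := fun g x =>
    hinv (g.restrictScalars ℚ_[p]) x
  letI : Algebra Fk F := (rho S V hvp).toAlgebra
  have hA : ∀ x : k, 0 ≤ V.v x → algebraMap Fk F (V.res x) = S.res (algebraMap k L x) :=
    fun x hx => rho_res S V hvp x hx
  have hN := cast_N V F hF d hd
  have hq := one_lt_card V
  obtain ⟨hfr, htr⟩ := finrank_eq S V hA hinv' hvp
    (inj_of_xi S hinv' hN hξ.pow_eq_one hadj)
  have hFin : Finite F := S.finF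
  obtain ⟨α, hα⟩ := hα Fk F inferInstance inferInstance inferInstance inferInstance V.charF
    (hfr.trans hdeg)
  obtain ⟨a, ha, ha'⟩ := S.res_surj α
  have hres : ∀ y : k, 0 ≤ S.v (algebraMap k L y) →
      S.res (algebraMap k L y) = algebraMap Fk F (V.res y) := fun y hy =>
    (hA y ((v_nonneg_iff S V hvp y).1 hy)).symm
  have hne : ∀ y : k, 0 ≤ S.v (algebraMap k L y) → S.res (algebraMap k L y) ≠ S.res a := by
    intro y hy h
    rw [hres y hy, ha'] at h
    apply hα (V.res y)
    rw [h, sub_self, inv_zero, map_zero]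
  refine ⟨L, inferInstance, inferInstance, inferInstance, inferInstance, F, inferInstance, S,
    algebraMap k L ζ0, a, V.π, ?_, ?_, hNR⟩
  · exact
    { prim := hζ
      inv := hinv'
      cyc := fun g n h => hcyc (g.restrictScalars ℚ_[p]) n h
      deg := by
        rw [hdeg]
        intro h
        have h5 := Nat.eq_one_of_dvd_coprimes hdp h dvd_rfl
        exact (Fact.out : p.Prime).one_lt.ne' h5
      charF := hF
      vp := hvp
      pi_ne := V.pi_ne
      pi_pos := v_pi_pos S V hvp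
      pi_dvd := fun x hx => ⟨V.v x, by rw [v_eq S V x hx]; ring⟩
      a_int := ha
      a_res := hne }
  · right
    refine ⟨pi_one S V hvp hsn, fun g => AlgEquiv.commutes g ζ0, fun y hy => ?_⟩
    have h5 : 0 ≤ S.v (algebraMap k L y - a) := int_sub S hy ha
    have h6 : S.res (algebraMap k L y - a) = algebraMap Fk F (V.res y) - α := by
      rw [res_sub S hy ha, hres y hy, ha']
    have h7 : S.res (algebraMap k L y - a) ≠ 0 := by
      rw [res_sub S hy ha, sub_ne_zero]
      exact hne y hy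
    obtain ⟨h8, h9⟩ := res_inv S h5 h7
    rw [htr _ h8, h9, h6, Ne, _root_.map_eq_zero]
    exact hα (V.res y)

theorem cycext {p : ℕ} (hpp : p.Prime) (M L : Type) [Field M] [Field L] [Algebra M L]
    [CharZero M] (hL : IsSplittingField M L (cyclotomic p M)) :
    ∃ ζ : L, IsPrimitiveRoot ζ p ∧ finrank M L ≤ p - 1 := by
  have hcL : CharZero L := charZero_of_injective_algebraMap (algebraMap M L).injective
  have hfML : FiniteDimensional M L := IsSplittingField.finiteDimensional L (cyclotomic p M)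
  have hpt : NeZero p := ⟨hpp.ne_zero⟩
  obtain ⟨ζ, hζ⟩ : ∃ ζ : L, IsPrimitiveRoot ζ p := by
    have h3 : Splits ((cyclotomic p L)) := by
      have h4 := hL.splits'
      rw [map_cyclotomic] at h4
      exact h4
    obtain ⟨ζ, hζ⟩ := h3.exists_eval_eq_zero (by
      rw [degree_cyclotomic]
      have := Nat.totient_pos.2 hpp.pos
      exact_mod_cast this.ne')
    exact ⟨ζ, (isRoot_cyclotomic_iff_charZero hpp.pos).1 hζ⟩
  refine ⟨ζ, hζ, ?_⟩
  have hζr : aeval ζ (cyclotomic p M) = 0 := by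
    rw [aeval_def, ← eval_map, map_cyclotomic]
    exact (isRoot_cyclotomic_iff_charZero hpp.pos).2 hζ
  have hadjL : Algebra.adjoin M {ζ} = ⊤ := by
    rw [← top_le_iff, ← hL.adjoin_rootSet', Algebra.adjoin_le_iff]
    intro μ hμ
    rw [mem_rootSet] at hμ
    have h4 := hμ.2
    rw [aeval_def, ← eval_map, map_cyclotomic] at h4
    have h5 : IsPrimitiveRoot μ p := (isRoot_cyclotomic_iff_charZero hpp.pos).1 h4
    obtain ⟨i, -, hi⟩ := hζ.eq_pow_of_pow_eq_one h5.pow_eq_one
    have h6 : ζ ^ i ∈ Algebra.adjoin M ({ζ} : Set L) :=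
      Subalgebra.pow_mem _ (Algebra.subset_adjoin (Set.mem_singleton ζ)) i
    rw [hi] at h6
    exact h6
  have h4 : IntermediateField.adjoin M {ζ} = ⊤ := by
    rw [← IntermediateField.toSubalgebra_injective.eq_iff,
      IntermediateField.adjoin_simple_toSubalgebra_of_isAlgebraic
        (Algebra.IsAlgebraic.isAlgebraic ζ), hadjL, IntermediateField.top_toSubalgebra]
  have h5 := IntermediateField.adjoin.finrank (Algebra.IsIntegral.isIntegral (R := M) ζ)
  rw [h4, IntermediateField.finrank_top'] at h5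
  rw [h5]
  have h6 := natDegree_le_of_dvd (minpoly.dvd M ζ hζr) (cyclotomic_ne_zero p M)
  rwa [natDegree_cyclotomic, Nat.totient_prime hpp] at h6

theorem caseB (h1 : StLF) (h2 : StUr) (p : ℕ) [Fact p.Prime] (k Fk : Type)
    [NormedField k] [Field Fk] [NormedAlgebra ℚ_[p] k] [FiniteDimensional ℚ_[p] k]
    [IsUltrametricDist k] (V : VD p k Fk) (hno : ∀ ζ0 : k, ¬ IsPrimitiveRoot ζ0 p) : Cc p k := by
  have hpp : p.Prime := Fact.out
  obtain ⟨r, hr, hrp⟩ := Nat.exists_infinite_primes (p + 1)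
  obtain ⟨M, _, _, _, _, ξ, hdeg, hξ, hadj, -⟩ := h2 p inferInstance k Fk inferInstance
    inferInstance inferInstance inferInstance inferInstance V r hrp.pos
  have hck : CharZero k := charZero_of_injective_algebraMap (algebraMap ℚ_[p] k).injective
  have hcM : CharZero M := charZero_of_injective_algebraMap (algebraMap k M).injective
  obtain ⟨L, _, _, hL⟩ : ∃ (L : Type) (_ : Field L) (_ : Algebra M L),
      IsSplittingField M L ((cyclotomic p k).map (algebraMap k M)) :=
    ⟨SplittingField ((cyclotomic p k).map (algebraMap k M)), inferInstance, inferInstance,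
      inferInstance⟩
  letI : Algebra k L := ((algebraMap M L).comp (algebraMap k M)).toAlgebra
  have : IsScalarTower k M L := IsScalarTower.of_algebraMap_eq (fun x => rfl)
  have hfML : FiniteDimensional M L :=
    IsSplittingField.finiteDimensional L ((cyclotomic p k).map (algebraMap k M))
  have hfkL : FiniteDimensional k L := FiniteDimensional.trans k M L
  have hcL : CharZero L := charZero_of_injective_algebraMap (algebraMap M L).injective
  have hadj' : Algebra.adjoin k {ξ} = ⊤ := by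
    rw [← IntermediateField.adjoin_simple_toSubalgebra_of_isAlgebraic
      (Algebra.IsAlgebraic.isAlgebraic ξ), hadj, IntermediateField.top_toSubalgebra]
  have hi : IsIntegral k ξ := Algebra.IsIntegral.isIntegral ξ
  have hsM : IsSplittingField k M (minpoly k ξ) :=
    { splits' := Normal.splits inferInstance ξ
      adjoin_rootSet' := by
        rw [← top_le_iff, ← hadj']
        refine Algebra.adjoin_mono ?_
        rw [Set.singleton_subset_iff, mem_rootSet]
        exact ⟨minpoly.ne_zero hi, minpoly.aeval k ξ⟩ }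
  have hsL : IsSplittingField k L (minpoly k ξ * cyclotomic p k) :=
    IsSplittingField.mul (K := M) L (minpoly k ξ) (cyclotomic p k) (minpoly.ne_zero hi)
      (cyclotomic_ne_zero p k)
  have hnL : Normal k L := Normal.of_isSplittingField (minpoly k ξ * cyclotomic p k)
  have hgL : IsGalois k L := IsGalois.mk
  have hgML : IsGalois M L := IsGalois.tower_top_of_isGalois k M L
  have hL' : IsSplittingField M L (cyclotomic p M) := by
    rw [map_cyclotomic] at hL
    exact hL
  obtain ⟨ζ, hζ, hfin⟩ := cycext hpp M L hL'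
  have hdegL : ¬ p ∣ finrank k L := by
    rw [← Module.finrank_mul_finrank k M L, hdeg, hpp.dvd_mul]
    have h4 := hpp.one_lt
    rintro (h | h)
    · have h5 := (Nat.prime_dvd_prime_iff_eq hpp hrp).1 h
      omega
    · have h5 := Nat.le_of_dvd Module.finrank_pos h
      omega
  letI : Algebra ℚ_[p] L := ((algebraMap k L).comp (algebraMap ℚ_[p] k)).toAlgebra
  have : IsScalarTower ℚ_[p] k L := IsScalarTower.of_algebraMap_eq (fun x => rfl)
  have : FiniteDimensional ℚ_[p] L := FiniteDimensional.trans ℚ_[p] k L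
  obtain ⟨F, _, S, hF, hNR, hinv, hcyc, hvp⟩ := h1 p inferInstance L inferInstance inferInstance
    inferInstance ζ hζ
  have hξL : IsPrimitiveRoot (algebraMap M L ξ) (Nat.card Fk ^ r - 1) :=
    hξ.map_of_injective (algebraMap M L).injective
  have hN := cast_N V F hF r hrp.pos
  have hN0 : Nat.card Fk ^ r - 1 ≠ 0 := by
    intro h
    rw [h] at hN
    exact hN (by simp)
  refine ⟨L, inferInstance, inferInstance, inferInstance, inferInstance, F, inferInstance, S,
    ζ, algebraMap M L ξ, V.π, ?_, ?_, hNR⟩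
  · exact
    { prim := hζ
      inv := fun g x => hinv (g.restrictScalars ℚ_[p]) x
      cyc := fun g n h => hcyc (g.restrictScalars ℚ_[p]) n h
      deg := hdegL
      charF := hF
      vp := hvp
      pi_ne := V.pi_ne
      pi_pos := v_pi_pos S V hvp
      pi_dvd := fun x hx => ⟨V.v x, by rw [v_eq S V x hx]; ring⟩
      a_int := (v_root S hN0 hξL.pow_eq_one).ge
      a_res := fun y hy => res_xi S V hvp hF r hrp.two_le hξL y hy }
  · left
    by_contra hcon
    push Not at hcon
    have h4 : ∀ g : L ≃ₐ[M] L, g ζ = ζ := fun g =>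
      hcon (g.restrictScalars k) (AlgEquiv.commutes g ξ)
    obtain ⟨z, hz⟩ := (IsGalois.mem_range_algebraMap_iff_fixed ζ).2 h4
    have hzp : IsPrimitiveRoot z p := by
      rw [← hz] at hζ
      exact hζ.of_map_of_injective (algebraMap M L).injective
    have hiz : IsIntegral k z := Algebra.IsIntegral.isIntegral z
    have h5 : (minpoly k z).natDegree ∣ r := by
      rw [← hdeg, ← IntermediateField.adjoin.finrank hiz]
      exact ⟨_, (Module.finrank_mul_finrank k (IntermediateField.adjoin k {z}) M).symm⟩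
    have h6 : (minpoly k z).natDegree ≤ p - 1 := by
      have h7 : aeval z (cyclotomic p k) = 0 := by
        rw [aeval_def, ← eval_map, map_cyclotomic]
        exact (isRoot_cyclotomic_iff_charZero hpp.pos).2 hzp
      have h6 := natDegree_le_of_dvd (minpoly.dvd k z h7) (cyclotomic_ne_zero p k)
      rwa [natDegree_cyclotomic, Nat.totient_prime hpp] at h6
    have h7 : (minpoly k z).natDegree = 1 := by
      rcases (Nat.dvd_prime hrp).1 h5 with h | h
      · exact h
      · omega
    obtain ⟨z0, hz0⟩ := minpoly.natDegree_eq_one_iff.1 h7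
    apply hno z0
    rw [← hz0] at hzp
    exact hzp.of_map_of_injective (algebraMap k M).injective

end ExtAux

open ExtAux in
/-- (E) existence of the extension -/
theorem stExt (h1 : StLF) (h2 : StUr) (h3 : StAlpha) (h4 : StVal) : StExt := by
  intro p hp k _ _ _
  letI : NormedField k := spectralNorm.normedField ℚ_[p] k
  letI : NormedAlgebra ℚ_[p] k := spectralNorm.normedAlgebra ℚ_[p] k
  have hu : IsUltrametricDist k :=
    IsUltrametricDist.isUltrametricDist_of_isNonarchimedean_norm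
      (isNonarchimedean_spectralNorm (K := ℚ_[p]) (L := k))
  obtain ⟨Fk, _, ⟨V⟩⟩ := h4 p hp k inferInstance inferInstance inferInstance hu
  by_cases h : ∃ ζ0 : k, IsPrimitiveRoot ζ0 p
  · obtain ⟨ζ0, hζ0⟩ := h
    exact caseA h1 h2 h3 p k Fk V ζ0 hζ0
  · push Not at h
    exact caseB h1 h2 p k Fk V h

end Pool.Agent.Lib.MP_c385f6_ag.Cpl
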