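import Mathlib
import Pool.Agent.Lib.MP_c385f6_ag.Cpl.Stmts

set_option autoImplicit false

/-!
Invariance of the chordal distance and change of frame.
-/

namespace Pool.Agent.Lib.MP_c385f6_ag.Cpl

namespace FrameAux

variable {p : ℕ} {L F : Type*} [Field L] [Field F] (S : LF p L F)

theorem v_one : S.v 1 = 0 := by
  have h := S.v_mul 1 1 one_ne_zero one_ne_zero
  rw [mul_one] at h
  linarith

theorem v_neg_one : S.v (-1) = 0 := by
  have h := S.v_mul (-1) (-1) (neg_ne_zero.2 one_ne_zero) (neg_ne_zero.2 one_ne_zero)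
  rw [neg_mul_neg, mul_one, v_one] at h
  linarith

theorem v_neg (x : L) : S.v (-x) = S.v x := by
  rcases eq_or_ne x 0 with rfl | hx
  · rw [neg_zero]
  · have h := S.v_mul (-1) x (neg_ne_zero.2 one_ne_zero) hx
    rw [neg_one_mul, v_neg_one, zero_add] at h
    exact h

theorem v_inv (x : L) : S.v x⁻¹ = -S.v x := by
  rcases eq_or_ne x 0 with rfl | hx
  · rw [inv_zero, S.v_zero, neg_zero]
  · have h := S.v_mul x x⁻¹ hx (inv_ne_zero hx)
    rw [mul_inv_cancel₀ hx, v_one] at h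
    linarith

theorem v_sub {x y : L} (hx : x ≠ 0) (hy : y ≠ 0) (hxy : x ≠ y) :
    min (S.v x) (S.v y) ≤ S.v (x - y) := by
  have h := S.v_add x (-y) hx (neg_ne_zero.2 hy) (by
    rw [← sub_eq_add_neg]; exact sub_ne_zero.2 hxy)
  rwa [v_neg, ← sub_eq_add_neg] at h

theorem v_sub_comm (x y : L) : S.v (x - y) = S.v (y - x) := by
  rw [← v_neg, neg_sub]

theorem v_sub_lt {x y : L} (hx : x ≠ 0) (hy : y ≠ 0) (h : S.v x < S.v y) :
    S.v (x - y) = S.v x := by
  have hxy : x ≠ y := fun e => by rw [e] at h; exact lt_irrefl _ h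
  have h1 := v_sub S hx hy hxy
  rw [min_eq_left h.le] at h1
  have h2 := S.v_add (x - y) y (sub_ne_zero.2 hxy) hy (by rwa [sub_add_cancel])
  rw [sub_add_cancel] at h2
  rcases min_le_iff.1 h2 with h3 | h3
  · exact le_antisymm h3 h1
  · exact absurd h (not_lt.2 h3)

theorem mn {c : L} (hc : 0 ≤ S.v c) (x : L) : min 0 (S.v (x - c)) = min 0 (S.v x) := by
  rcases eq_or_ne x c with rfl | hxc
  · rw [sub_self, S.v_zero, min_self, min_eq_left hc]
  rcases eq_or_ne c 0 with rfl | hc0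
  · rw [sub_zero]
  rcases eq_or_ne x 0 with rfl | hx
  · rw [zero_sub, v_neg, S.v_zero, min_self, min_eq_left hc]
  rcases lt_or_ge (S.v x) 0 with h | h
  · rw [v_sub_lt S hx hc0 (by omega)]
  · have h1 := v_sub S hx hc0 hxc
    rw [min_eq_left h, min_eq_left]
    exact le_trans (le_min h hc) h1

theorem gz_sub {n : ℤ} {x y : L} (hx : S.Gz n x) (hy : S.Gz n y) : S.Gz n (x - y) := by
  rcases eq_or_ne x y with rfl | hxy
  · left; exact sub_self _
  rcases hx with rfl | hx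
  · rcases hy with rfl | hy
    · left; simp
    · right; rwa [zero_sub, v_neg]
  · rcases hy with rfl | hy
    · right; rwa [sub_zero]
    · rcases eq_or_ne x 0 with rfl | hx0
      · right; rwa [zero_sub, v_neg]
      rcases eq_or_ne y 0 with rfl | hy0
      · right; rwa [sub_zero]
      right
      exact le_trans (le_min hx hy) (v_sub S hx0 hy0 hxy)

theorem dl_frame {c : L} (hc : 0 ≤ S.v c) {x y : L} (hx : x ≠ c) (hy : y ≠ c) (hxy : x ≠ y) :
    S.dl (x - c)⁻¹ (y - c)⁻¹ = S.dl x y := by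
  have hx' := sub_ne_zero.2 hx
  have hy' := sub_ne_zero.2 hy
  have hxy' := sub_ne_zero.2 hxy
  have e : (x - c)⁻¹ - (y - c)⁻¹ = -(x - y) * ((x - c)⁻¹ * (y - c)⁻¹) := by
    field_simp
    ring
  have h1 : S.v ((x - c)⁻¹ - (y - c)⁻¹) = S.v (x - y) - S.v (x - c) - S.v (y - c) := by
    rw [e, S.v_mul _ _ (neg_ne_zero.2 hxy') (mul_ne_zero (inv_ne_zero hx') (inv_ne_zero hy')),
      S.v_mul _ _ (inv_ne_zero hx') (inv_ne_zero hy'), v_neg, v_inv, v_inv]
    ring
  have m1 := mn S hc x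
  have m2 := mn S hc y
  unfold LF.dl
  rw [h1, v_inv, v_inv]
  omega

theorem dl_c {c : L} (hc : 0 ≤ S.v c) (x : L) :
    S.dl x c = - min 0 (S.v (x - c)⁻¹) := by
  have m1 := mn S hc x
  unfold LF.dl
  rw [v_inv]
  omega

theorem v_pow (x : L) (hx : x ≠ 0) (n : ℕ) : S.v (x ^ n) = n * S.v x := by
  induction n with
  | zero => simp [v_one]
  | succ n ih =>
    rw [pow_succ, S.v_mul _ _ (pow_ne_zero n hx) hx, ih]
    push_cast
    ring

theorem rich {c : L} (hc : 0 ≤ S.v c) {T : Set L} {m : ℤ} (hm : 1 ≤ m) (hT : S.Net T m) :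
    S.Rich (LF.frT T c) m := by
  intro x n hd
  by_cases hG : S.Gz n x
  · -- the ball contains zero
    have hvm : S.vm n x = n := by
      unfold LF.vm
      rw [if_pos hG]
    unfold LF.dd at hd
    rw [hvm] at hd
    set z : L := (S.π ^ m.toNat)⁻¹ with hz
    have hπ := pow_ne_zero m.toNat S.pi_ne
    have hz0 : z ≠ 0 := inv_ne_zero hπ
    have hvz : S.v z = -m := by
      rw [hz, v_inv, v_pow S _ S.pi_ne, S.v_pi, mul_one, Int.toNat_of_nonneg (by omega)]
    obtain ⟨t, ht, hcl⟩ := hT z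
    have hvt : S.v t ≤ -m := by
      rcases hcl with h | h
      · rw [← h, hvz]
      · by_contra hcon
        push Not at hcon
        have h1 : S.v (z - t) = -m := by
          rcases eq_or_ne t 0 with rfl | ht0
          · rw [sub_zero, hvz]
          · rw [v_sub_lt S hz0 ht0 (by omega), hvz]
        unfold LF.dl at h
        rw [h1, hvz] at h
        omega
    have ht0 : t ≠ 0 := by
      rintro rfl
      rw [S.v_zero] at hvt
      omega
    have htc : t ≠ c := by
      rintro rfl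
      omega
    have hvtc : S.v (t - c) = S.v t := by
      rcases eq_or_ne c 0 with rfl | hc0
      · rw [sub_zero]
      · exact v_sub_lt S ht0 hc0 (by omega)
    have hgz : S.Gz n (t - c)⁻¹ := by
      right
      rw [v_inv, hvtc]
      omega
    refine ⟨(t - c)⁻¹, ⟨inv_ne_zero (sub_ne_zero.2 htc), ?_⟩, gz_sub S hgz hG⟩
    rw [inv_inv, add_sub_cancel]
    exact ht
  · -- the ball does not contain zero
    have hx0 : x ≠ 0 := fun h => hG (Or.inl h)
    have hvx : S.v x < n := by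
      by_contra h
      exact hG (Or.inr (not_lt.1 h))
    have hvm : S.vm n x = S.v x := by
      unfold LF.vm
      rw [if_neg hG]
    unfold LF.dd at hd
    rw [hvm] at hd
    obtain ⟨t, ht, hcl⟩ := hT (c + x⁻¹)
    rcases hcl with h | h
    · refine ⟨x, ⟨hx0, by rw [h]; exact ht⟩, ?_⟩
      left
      exact sub_self _
    have hyc : c + x⁻¹ - c = x⁻¹ := by ring
    have hyc' : c + x⁻¹ ≠ c := by
      intro h'
      have := sub_eq_zero.2 h'
      rw [hyc] at this
      exact inv_ne_zero hx0 this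
    have htc : t ≠ c := by
      rintro rfl
      rw [dl_c S hc, hyc, inv_inv] at h
      omega
    rcases eq_or_ne (c + x⁻¹) t with h' | h'
    · refine ⟨x, ⟨hx0, by rw [h']; exact ht⟩, ?_⟩
      left
      exact sub_self _
    have h2 := dl_frame S hc hyc' htc h'
    rw [hyc, inv_inv] at h2
    rw [← h2] at h
    refine ⟨(t - c)⁻¹, ⟨inv_ne_zero (sub_ne_zero.2 htc), by
      rw [inv_inv, add_sub_cancel]; exact ht⟩, ?_⟩
    right
    rw [v_sub_comm]
    have ht0 : (t - c)⁻¹ ≠ 0 := inv_ne_zero (sub_ne_zero.2 htc)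
    unfold LF.dl at h
    by_contra hcon
    push Not at hcon
    have h3 : S.v (t - c)⁻¹ < S.v x := by omega
    have h4 : S.v (x - (t - c)⁻¹) = S.v (t - c)⁻¹ := by
      rw [v_sub_comm]
      exact v_sub_lt S ht0 hx0 h3
    omega

theorem eqv_mul {κ a b : L} (hκ : κ ≠ 0) : Eqv p (a * κ) (b * κ) ↔ Eqv p a b := by
  unfold Eqv
  constructor
  · rintro ⟨z, hz, h⟩
    refine ⟨z, hz, mul_right_cancel₀ hκ ?_⟩
    rw [h]; ring
  · rintro ⟨z, hz, h⟩
    exact ⟨z, hz, by rw [h]; ring⟩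

theorem frame {c : L} (hc : 0 ≤ S.v c) :
    (∀ x y, x ≠ c → y ≠ c → x ≠ y → S.dl (x - c)⁻¹ (y - c)⁻¹ = S.dl x y) ∧
    (∀ x, x ≠ c → S.dl x c = - min 0 (S.v (x - c)⁻¹)) ∧
    (∀ (T : Set L) (m : ℤ), 1 ≤ m → S.Net T m → S.Rich (LF.frT T c) m) ∧
    (∀ (T : Set L) (D : L → L → L), c ∈ T → S.Cmp T D → S.ACmp (LF.frT T c) (LF.frD D c)) ∧
    (∀ (T : Set L) (D : L → L → L) (y : L), c ∈ T → S.Cmp T D → y ≠ c →
      ∀ t ∈ T, t ≠ c → y ≠ t → (Eqv p (D t c) ((y - t) / (y - c)) ↔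
        Eqv p (LF.frD D c (t - c)⁻¹) ((y - c)⁻¹ - (t - c)⁻¹))) := by
  refine ⟨fun x y hx hy hxy => dl_frame S hc hx hy hxy, fun x _ => dl_c S hc x,
    fun T m hm hT => rich S hc hm hT, ?_, ?_⟩
  · intro T D hcT hD
    refine ⟨?_, ?_⟩
    · rintro t ⟨ht0, htT⟩
      unfold LF.frD
      exact neg_ne_zero.2 (mul_ne_zero (hD.ne _ htT _ hcT) ht0)
    · rintro s ⟨hs0, hsT⟩ t ⟨ht0, htT⟩ hst
      have hst' : s - t ≠ 0 := sub_ne_zero.2 hst
      have hts' : t - s ≠ 0 := sub_ne_zero.2 hst.symm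
      have n1 : c + s⁻¹ ≠ c + t⁻¹ := fun h => hst (inv_injective (add_left_cancel h))
      have n2 : c + t⁻¹ ≠ c := fun h => inv_ne_zero ht0 (by simpa using h)
      have n3 : c + s⁻¹ ≠ c := fun h => inv_ne_zero hs0 (by simpa using h)
      have h := hD.rel _ hsT _ htT _ hcT n1 n2 n3
      have n4 : c + t⁻¹ - (c + s⁻¹) ≠ 0 := sub_ne_zero.2 n1.symm
      have n5 : c + s⁻¹ - (c + t⁻¹) ≠ 0 := sub_ne_zero.2 n1
      have e1 : (c + t⁻¹ - c) / (c + t⁻¹ - (c + s⁻¹)) = -s / (t - s) := by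
        rw [div_eq_div_iff n4 hts']
        field_simp
        ring
      have e2 : (c + s⁻¹ - c) / (c + s⁻¹ - (c + t⁻¹)) = -t / (s - t) := by
        rw [div_eq_div_iff n5 hst']
        field_simp
        ring
      rw [e1, e2] at h
      have e3 : LF.frD D c s / (t - s) = D (c + s⁻¹) c * (-s / (t - s)) := by
        unfold LF.frD
        ring
      have e4 : LF.frD D c t / (s - t) = D (c + t⁻¹) c * (-t / (s - t)) := by
        unfold LF.frD
        ring
      rw [e3, e4]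
      exact h
  · intro T D y _ _ hyc t _ htc hyt
    have h1 := sub_ne_zero.2 hyc
    have h2 := sub_ne_zero.2 htc
    have e1 : LF.frD D c (t - c)⁻¹ = D t c * (-(t - c)⁻¹) := by
      unfold LF.frD
      rw [inv_inv, add_sub_cancel]
      ring
    have e2 : (y - c)⁻¹ - (t - c)⁻¹ = (y - t) / (y - c) * (-(t - c)⁻¹) := by
      field_simp
      ring
    rw [e1, e2, eqv_mul (neg_ne_zero.2 (inv_ne_zero h2))]

end FrameAux

/-- invariance of the chordal distance and change of frame -/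
theorem stFrame (_h1 : StChord) (_h2 : StSym) : StFrame :=
  fun _ _ _ _ _ _ S _ hc => FrameAux.frame S hc

end Pool.Agent.Lib.MP_c385f6_ag.Cpl
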