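import Mathlib
import Pool.Agent.Lib.MP_c385f6_ag.Cpl.StCof
import Pool.Agent.Lib.MP_c385f6_ag.Cpl.Sym
import Pool.Agent.Lib.MP_c385f6_ag.Cpl.Chord

set_option autoImplicit false

/-!
The cross ratios with two points of a net generate the multiplicative group.
-/

namespace Pool.Agent.Lib.MP_c385f6_ag.Cpl

namespace GenAux

variable {p : ℕ} {L E : Type} [Field L] [Field E] (S : LF p L E)

lemma div_gz {n : ℤ} {w d : L} (hw : w ≠ 0) (hd : S.Gz (S.v w + n) d) :
    d / w = 0 ∨ n ≤ S.v (d / w) := by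
  by_cases h0 : d = 0
  · left
    rw [h0, zero_div]
  · right
    rw [SymAux.v_div S _ _ h0 hw]
    have := hd.resolve_left h0
    omega

/-- adding a small element -/
lemma add_near {w d : L} (hw : w ≠ 0) (hd : S.Gz (S.v w + 1) d) :
    w + d ≠ 0 ∧ S.v (w + d) = S.v w := by
  obtain ⟨h2, h3⟩ := SymAux.one_add S (div_gz S hw hd)
  have h4 : w + d = w * (1 + d / w) := by field_simp
  rw [h4]
  exact ⟨mul_ne_zero hw h2, by rw [S.v_mul _ _ hw h2, h3, add_zero]⟩

/-- adding a very small element -/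
lemma add_pow {w d : L} (hw : w ≠ 0) (hd : S.Gz (S.v w + (S.e + 1)) d) :
    ∃ c, c ≠ 0 ∧ w + d = w * c ^ p := by
  have h2 : S.Un (S.e + 1) (1 + d / w) :=
    (SymAux.un_iff S _ (by omega) _).2 (div_gz S hw hd)
  obtain ⟨c, hc, h3⟩ := SymAux.un_pow S h2
  refine ⟨c, hc, ?_⟩
  rw [← h3]
  field_simp

lemma exX {x : L} (hx : x ≠ 0) (n : ℤ) (y1 : L) :
    ∃ X c : L, X ≠ 0 ∧ c ≠ 0 ∧ X = x * S.π ^ n * c ^ p ∧ S.v X = S.v x + n ∧ X ≠ y1 := by
  have hpi : S.π ^ n ≠ 0 := zpow_ne_zero _ S.pi_ne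
  have hv : S.v (x * S.π ^ n) = S.v x + n := by
    rw [S.v_mul _ _ hx hpi, ChordAux.v_zpow]
  by_cases h : x * S.π ^ n = y1
  · have hpi' : S.π ^ (S.e + 1) ≠ 0 := pow_ne_zero _ S.pi_ne
    have hu : S.Un (S.e + 1) (1 + S.π ^ (S.e + 1)) :=
      (SymAux.un_iff S _ (by omega) _).2 (Or.inr (by
        rw [SymAux.gz_pi]
        push_cast
        exact le_refl _))
    obtain ⟨c, hc, h1⟩ := SymAux.un_pow S hu
    refine ⟨x * S.π ^ n * c ^ p, c, mul_ne_zero (mul_ne_zero hx hpi) (pow_ne_zero _ hc), hc, rfl,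
      ?_, ?_⟩
    · rw [S.v_mul _ _ (mul_ne_zero hx hpi) (pow_ne_zero _ hc), hv, ← h1,
        SymAux.un_int S (by omega) hu, add_zero]
    · rw [← h1, h]
      intro h2
      have h3 : y1 * S.π ^ (S.e + 1) = 0 := by linear_combination h2
      rw [← h] at h3
      exact mul_ne_zero (mul_ne_zero hx hpi) hpi' h3
  · exact ⟨_, 1, mul_ne_zero hx hpi, one_ne_zero, by rw [one_pow, mul_one], hv, h⟩

lemma near_int {T : Set L} {m : ℤ} (hT : S.Net T m) (hm : 1 ≤ m) {s : L} (hs : 0 ≤ S.v s) :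
    ∃ t ∈ T, S.Gz m (s - t) := by
  obtain ⟨t, ht, h⟩ := hT s
  refine ⟨t, ht, ?_⟩
  rcases h with rfl | h
  · left
    exact sub_self _
  · by_cases htv : 0 ≤ S.v t
    · right
      unfold LF.dl at h
      omega
    · exfalso
      have h1 := ChordAux.dl_of_lt S (x := t) (y := s) (by omega)
      rw [ChordAux.dl_comm] at h1
      omega

lemma near_inv {T : Set L} {m : ℤ} (hT : S.Net T m) (hm : 1 ≤ m) {s : L} (hs0 : s ≠ 0)
    (hs : 1 ≤ S.v s) : ∃ t ∈ T, t ≠ 0 ∧ S.Gz m (s - t⁻¹) := by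
  obtain ⟨t, ht, h⟩ := hT s⁻¹
  have hvs : S.v s⁻¹ = - S.v s := SymAux.v_inv S s hs0
  rcases h with rfl | h
  · exact ⟨s⁻¹, ht, inv_ne_zero hs0, Or.inl (by rw [inv_inv, sub_self])⟩
  · by_cases htv : 0 ≤ S.v t
    · exfalso
      have h1 := ChordAux.dl_of_lt S (x := s⁻¹) (y := t) (by omega)
      omega
    · have ht0 : t ≠ 0 := by
        rintro rfl
        rw [S.v_zero] at htv
        omega
      refine ⟨t, ht, ht0, ?_⟩
      by_cases h0 : t - s⁻¹ = 0
      · left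
        have h2 : s⁻¹ = t := (sub_eq_zero.1 h0).symm
        rw [← h2, inv_inv, sub_self]
      · right
        have h1 : s - t⁻¹ = (t - s⁻¹) * (s * t⁻¹) := by
          field_simp
        have h3 : S.v (s⁻¹ - t) = S.v (t - s⁻¹) := by
          rw [← SymAux.v_neg, neg_sub]
        rw [h1, S.v_mul _ _ h0 (mul_ne_zero hs0 (inv_ne_zero ht0)),
          S.v_mul _ _ hs0 (inv_ne_zero ht0), SymAux.v_inv S t ht0]
        unfold LF.dl at h
        omega

/-- the two quotients -/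
lemma quot {x P X X' c3 c4 c1 c2 a b : L} (hP : P ≠ 0)
    (hc2 : c2 ≠ 0) (hc4 : c4 ≠ 0)
    (hX : X = x * P * c3 ^ p) (hX' : X' = 1 * P * c4 ^ p)
    (ha : a = X * c1 ^ p) (hb : b = X' * c2 ^ p) :
    a / b = x * (c3 * c1 / (c4 * c2)) ^ p := by
  rw [ha, hb, hX, hX', div_pow, mul_pow, mul_pow]
  have h2 : c2 ^ p ≠ 0 := pow_ne_zero _ hc2
  have h4 : c4 ^ p ≠ 0 := pow_ne_zero _ hc4
  field_simp

end GenAux

open GenAux

theorem stGen (_ : StSym) (_ : StChord) : StGen := by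
  intro p _ L F E E' _ _ _ _ _ S S' r hr hv he T m hT y τ hyτ hdl x hx hx0 hx1
  have hinj : Function.Injective (algebraMap L F) := (algebraMap L F).injective
  have hd0 : 0 ≤ S'.dl (algebraMap L F y) τ := ChordAux.dl_nonneg S' hyτ
  have hr0 : (0 : ℤ) < r := by exact_mod_cast hr
  have hm : 0 ≤ m - 2 * S.e - 3 := by
    by_contra hlt
    push Not at hlt
    have : (r : ℤ) * (m - 2 * S.e - 3) < 0 := mul_neg_of_pos_of_neg hr0 hlt
    omega
  have h2e := S.two_le
  have heZ : (S'.e : ℤ) ≤ r * S.e := by exact_mod_cast he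
  -- the levels
  obtain ⟨i0, hi0⟩ : ∃ i0 : ℤ, i0 = m - S.e - 2 := ⟨_, rfl⟩
  have hlev : (r : ℤ) * (m - 2 * S.e - 3) + (S'.e + 1) ≤ r * i0 := by
    have h1 : (r : ℤ) * i0 = r * (m - 2 * S.e - 3) + r * S.e + r := by
      rw [hi0]
      ring
    omega
  have hgz : ∀ (n : ℤ) (w : L), S.Gz n w → S'.Gz (r * n) (algebraMap L F w) := by
    intro n w hw
    rcases hw with rfl | hw
    · left
      exact map_zero _
    · right
      rw [hv]
      exact mul_le_mul_of_nonneg_left hw hr0.le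
  rcases le_or_gt 0 (S.v y) with hy | hy
  · -- integral `y`
    have key : ∀ x : L, x ≠ 0 → 0 ≤ S.v x → S.v x ≤ 1 → ∃ X c c1 t : L, t ∈ T ∧ c ≠ 0 ∧ c1 ≠ 0 ∧
        X = x * S.π ^ i0 * c ^ p ∧ y - t = X * c1 ^ p ∧ y - t ≠ 0 ∧ S.Gz i0 (y - t) := by
      intro x hx hx0 hx1
      obtain ⟨X, c, hX0, hc, hX, hvX, -⟩ := exX S hx i0 0
      obtain ⟨t, ht, h1⟩ := near_int S hT (by omega) (s := y - X) (by
        rw [sub_eq_add_neg]
        exact SymAux.int_add S hy (by rw [SymAux.v_neg]; omega))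
      obtain ⟨c1, hc1, h2⟩ := add_pow S (w := X) (d := y - X - t) hX0
        (SymAux.gz_mono S (by omega) h1)
      have h3 : y - t = X * c1 ^ p := by linear_combination h2
      have h5 := add_near S (w := X) (d := y - X - t) hX0 (SymAux.gz_mono S (by omega) h1)
      have h6 : X + (y - X - t) = y - t := by ring
      rw [h6] at h5
      refine ⟨X, c, c1, t, ht, hc, hc1, hX, h3, h5.1, Or.inr ?_⟩
      rw [h5.2]
      omega
    obtain ⟨X, c3, c1, t, ht, hc3, hc1, hX, e1, n1, g1⟩ := key x hx hx0 hx1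
    obtain ⟨X', c4, c2, u, hu, hc4, hc2, hX', e2, n2, g2⟩ := key 1 one_ne_zero
      (SymAux.v_one S).ge (by rw [SymAux.v_one]; omega)
    have hw0 : τ - algebraMap L F y ≠ 0 := sub_ne_zero.2 (Ne.symm hyτ)
    have hvw0 : S'.v (τ - algebraMap L F y) ≤ r * (m - 2 * S.e - 3) := by
      rw [ChordAux.v_sub_comm]
      unfold LF.dl at hdl
      omega
    have gt := hgz _ _ g1
    have gu := hgz _ _ g2
    rw [map_sub] at gt gu
    obtain ⟨hw, hvw⟩ := add_near S' (w := τ - algebraMap L F y)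
      (d := algebraMap L F y - algebraMap L F t) hw0 (SymAux.gz_mono S' (by omega) gt)
    rw [sub_add_sub_cancel] at hw hvw
    have gd : S'.Gz (r * i0) (algebraMap L F t - algebraMap L F u) := by
      have := SymAux.gz_sub S' gu gt
      rwa [sub_sub_sub_cancel_left] at this
    obtain ⟨c5, hc5, h5⟩ := add_pow S' (w := τ - algebraMap L F t)
      (d := algebraMap L F t - algebraMap L F u) hw (SymAux.gz_mono S' (by omega) gd)
    rw [sub_add_sub_cancel] at h5
    have hw' : τ - algebraMap L F u ≠ 0 := by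
      rw [h5]
      exact mul_ne_zero hw (pow_ne_zero _ hc5)
    refine ⟨t, ht, u, hu, sub_ne_zero.1 n1, sub_ne_zero.1 n2, (sub_ne_zero.1 hw).symm,
      (sub_ne_zero.1 hw').symm, algebraMap L F (c3 * c1 / (c4 * c2)) * c5, ?_, ?_⟩
    · refine mul_ne_zero ?_ hc5
      rw [Ne, map_eq_zero_iff _ hinj]
      exact div_ne_zero (mul_ne_zero hc3 hc1) (mul_ne_zero hc4 hc2)
    · rw [quot (zpow_ne_zero _ S.pi_ne) hc2 hc4 hX hX' e1 e2, h5, mul_div_cancel_left₀ _ hw,
        map_mul, map_pow, mul_pow]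
      ring
  · -- `y` with a pole
    have hy0 : y ≠ 0 := by
      rintro rfl
      rw [S.v_zero] at hy
      omega
    obtain ⟨y1, hy1⟩ : ∃ y1 : L, y1 = y⁻¹ := ⟨_, rfl⟩
    have hy1v : S.v y1 = - S.v y := by rw [hy1, SymAux.v_inv S y hy0]
    have hy10 : y1 ≠ 0 := by
      rw [hy1]
      exact inv_ne_zero hy0
    have hyy : y = y1⁻¹ := by rw [hy1, inv_inv]
    have key : ∀ x : L, x ≠ 0 → 0 ≤ S.v x → S.v x ≤ 1 → ∃ X c c1 t1 : L, t1⁻¹ ∈ T ∧ t1 ≠ 0 ∧
        c ≠ 0 ∧ c1 ≠ 0 ∧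
        X = x * S.π ^ i0 * c ^ p ∧ y1 - t1 = X * c1 ^ p ∧ y1 - t1 ≠ 0 ∧
        S.Gz i0 (y1 - t1) := by
      intro x hx hx0 hx1
      obtain ⟨X, c, hX0, hc, hX, hvX, hXy⟩ := exX S hx i0 y1
      have hs0 : y1 - X ≠ 0 := sub_ne_zero.2 (Ne.symm hXy)
      have hs1 : S.Gz 1 (y1 - X) := SymAux.gz_sub S (Or.inr (by omega)) (Or.inr (by omega))
      obtain ⟨t, ht, ht0, h1⟩ := near_inv S hT (by omega) (s := y1 - X) hs0
        (hs1.resolve_left hs0)
      obtain ⟨c1, hc1, h2⟩ := add_pow S (w := X) (d := y1 - X - t⁻¹) hX0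
        (SymAux.gz_mono S (by omega) h1)
      have h3 : y1 - t⁻¹ = X * c1 ^ p := by linear_combination h2
      have h5 := add_near S (w := X) (d := y1 - X - t⁻¹) hX0 (SymAux.gz_mono S (by omega) h1)
      have h6 : X + (y1 - X - t⁻¹) = y1 - t⁻¹ := by ring
      rw [h6] at h5
      refine ⟨X, c, c1, t⁻¹, by rwa [inv_inv], inv_ne_zero ht0, hc, hc1, hX, h3, h5.1, Or.inr ?_⟩
      rw [h5.2]
      omega
    obtain ⟨X, c3, c1, t1, ht, ht10, hc3, hc1, hX, e1, n1, g1⟩ := key x hx hx0 hx1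
    obtain ⟨X', c4, c2, u1, hu, hu10, hc4, hc2, hX', e2, n2, g2⟩ := key 1 one_ne_zero
      (SymAux.v_one S).ge (by rw [SymAux.v_one]; omega)
    obtain ⟨Y, hY⟩ : ∃ Y : F, Y = algebraMap L F y1 := ⟨_, rfl⟩
    obtain ⟨t', ht'⟩ : ∃ t' : F, t' = algebraMap L F t1 := ⟨_, rfl⟩
    obtain ⟨u', hu'⟩ : ∃ u' : F, u' = algebraMap L F u1 := ⟨_, rfl⟩
    have hY0 : Y ≠ 0 := by
      rw [hY, Ne, map_eq_zero_iff _ hinj]
      exact hy10
    have ht0 : t' ≠ 0 := by
      rw [ht', Ne, map_eq_zero_iff _ hinj]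
      exact ht10
    have hu0 : u' ≠ 0 := by
      rw [hu', Ne, map_eq_zero_iff _ hinj]
      exact hu10
    have hyF : algebraMap L F y = Y⁻¹ := by rw [hyy, map_inv₀, hY]
    have htF : algebraMap L F t1⁻¹ = t'⁻¹ := by rw [map_inv₀, ht']
    have huF : algebraMap L F u1⁻¹ = u'⁻¹ := by rw [map_inv₀, hu']
    rw [hyF] at hyτ hdl hd0
    have hw0 : 1 - τ * Y ≠ 0 := by
      intro h
      apply hyτ
      have : τ * Y = 1 := by linear_combination -h
      exact (eq_inv_of_mul_eq_one_left this).symm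
    have hYv : S'.v Y = - (r * S.v y) := by
      rw [hY, hv, hy1v]
      ring
    have hYpos : (r : ℤ) * S.v y < 0 := mul_neg_of_pos_of_neg hr0 hy
    have hvw0 : S'.v (1 - τ * Y) = S'.dl Y⁻¹ τ + min 0 (S'.v τ) := by
      have h1 : Y⁻¹ - τ = (1 - τ * Y) * Y⁻¹ := by
        field_simp
      unfold LF.dl
      rw [h1, S'.v_mul _ _ hw0 (inv_ne_zero hY0), SymAux.v_inv S' Y hY0]
      omega
    have gt := hgz _ _ g1
    have gu := hgz _ _ g2
    rw [map_sub, ← hY, ← ht'] at gt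
    rw [map_sub, ← hY, ← hu'] at gu
    have gd : S'.Gz (r * i0) (t' - u') := by
      have := SymAux.gz_sub S' gu gt
      rwa [sub_sub_sub_cancel_left] at this
    have htau : ∀ d : F, S'.Gz (r * i0) d →
        S'.Gz (S'.v (1 - τ * Y) + (S'.e + 1)) (τ * d) := by
      intro d hd
      by_cases hτ : τ = 0
      · left
        rw [hτ, zero_mul]
      by_cases hd0 : d = 0
      · left
        rw [hd0, mul_zero]
      right
      rw [S'.v_mul _ _ hτ hd0, hvw0]
      have := hd.resolve_left hd0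
      omega
    obtain ⟨hw, hvw⟩ := add_near S' (w := 1 - τ * Y) (d := τ * (Y - t')) hw0
      (SymAux.gz_mono S' (by omega) (htau _ gt))
    have e6 : 1 - τ * Y + τ * (Y - t') = 1 - τ * t' := by ring
    rw [e6] at hw hvw
    obtain ⟨c5, hc5, h5⟩ := add_pow S' (w := 1 - τ * t') (d := τ * (t' - u')) hw (by
      rw [hvw]
      exact htau _ gd)
    have e7 : 1 - τ * t' + τ * (t' - u') = 1 - τ * u' := by ring
    rw [e7] at h5
    have hw' : 1 - τ * u' ≠ 0 := by
      rw [h5]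
      exact mul_ne_zero hw (pow_ne_zero _ hc5)
    have q := quot (zpow_ne_zero _ S.pi_ne) hc2 hc4 hX hX' e1 e2
    have hyt : y ≠ t1⁻¹ := by
      rw [hyy]
      intro h
      exact n1 (sub_eq_zero.2 (inv_injective h))
    have hyu : y ≠ u1⁻¹ := by
      rw [hyy]
      intro h
      exact n2 (sub_eq_zero.2 (inv_injective h))
    have htτ : t'⁻¹ ≠ τ := by
      intro h
      apply hw
      rw [← h, inv_mul_cancel₀ ht0, sub_self]
    have huτ : u'⁻¹ ≠ τ := by
      intro h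
      apply hw'
      rw [← h, inv_mul_cancel₀ hu0, sub_self]
    refine ⟨t1⁻¹, ht, u1⁻¹, hu, hyt, hyu, by rwa [htF], by rwa [huF],
      algebraMap L F (c3 * c1 / (c4 * c2)) * c5, ?_, ?_⟩
    · refine mul_ne_zero ?_ hc5
      rw [Ne, map_eq_zero_iff _ hinj]
      exact div_ne_zero (mul_ne_zero hc3 hc1) (mul_ne_zero hc4 hc2)
    · have r1 : (y - t1⁻¹) / (y - u1⁻¹) = (y1 - t1) / (y1 - u1) * (u1 / t1) := by
        have a1 : y - t1⁻¹ = -(y1 - t1) / (y1 * t1) := by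
          rw [hyy]
          field_simp
          ring
        have a2 : y - u1⁻¹ = -(y1 - u1) / (y1 * u1) := by
          rw [hyy]
          field_simp
          ring
        rw [a1, a2]
        field_simp
      have r2 : (τ - u'⁻¹) / (τ - t'⁻¹) = c5 ^ p * (t' / u') := by
        have a1 : τ - u'⁻¹ = -(1 - τ * u') / u' := by
          field_simp
          ring
        have a2 : τ - t'⁻¹ = -(1 - τ * t') / t' := by
          field_simp
          ring
        rw [a1, a2, h5]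
        field_simp
      rw [r1, q, htF, huF, r2, map_mul, map_mul, map_div₀ _ u1 t1, ← hu', ← ht', map_pow, mul_pow]
      field_simp

end Pool.Agent.Lib.MP_c385f6_ag.Cpl
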