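import Mathlib
import Pool.Agent.Lib.MP_c385f6_ag.Cpl.StCof
import Pool.Agent.Lib.MP_c385f6_ag.Cpl.Sym

set_option autoImplicit false

/-!
Classes which are invariant under the Galois group come from the base field.
-/

namespace Pool.Agent.Lib.MP_c385f6_ag.Cpl

open Module

namespace InvAux

open SymAux

section
variable {p : ℕ} {L F : Type} [Field L] [Field F] (S : LF p L F)

lemma un_of_gz {n : ℤ} {u : L} (hu : u ≠ 0) (h : S.Gz n (u - 1)) : S.Un n u :=
  ⟨hu, h.imp (fun h => sub_eq_zero.1 h) id⟩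

lemma un_mul {n : ℤ} (hn : 1 ≤ n) {u w : L} (hu : S.Un n u) (hw : S.Un n w) :
    S.Un n (u * w) := by
  refine un_of_gz S (mul_ne_zero hu.1 hw.1) ?_
  have h : u * w - 1 = (w - 1) * u + (u - 1) := by ring
  rw [h]
  exact gz_add S (gz_mul S (un_sub S hw) (un_int S hn hu).ge) (un_sub S hu)

lemma un_one (n : ℤ) : S.Un n 1 := ⟨one_ne_zero, Or.inl rfl⟩

lemma un_npow {n : ℤ} (hn : 1 ≤ n) {u : L} (hu : S.Un n u) (m : ℕ) : S.Un n (u ^ m) := by
  induction m with
  | zero => rw [pow_zero]; exact un_one S n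
  | succ m ih => rw [pow_succ]; exact un_mul S hn ih hu

end

end InvAux

open SymAux InvAux in
/-- Classes which are invariant under the Galois group come from the base field. -/
theorem stInv : StInv := by
  intro p hp k L F _ _ _ _ _ _ S hv hdeg E hE hinv
  have hpp : p.Prime := hp.out
  -- the norm
  have hN : algebraMap k L (Algebra.norm k E) = ∏ g : L ≃ₐ[k] L, g E :=
    Algebra.norm_eq_prod_automorphisms k E
  have hN0 : Algebra.norm k E ≠ 0 := Algebra.norm_ne_zero_iff.2 hE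
  choose z hz0 hz using hinv
  have hN' : algebraMap k L (Algebra.norm k E) = E ^ finrank k L * (∏ g, z g) ^ p := by
    rw [hN, Finset.prod_congr rfl (fun g _ => hz g), Finset.prod_mul_distrib, Finset.prod_const,
      Finset.card_univ, ← Nat.card_eq_fintype_card, IsGalois.card_aut_eq_finrank,
      Finset.prod_pow]
  have hZ0 : (∏ g, z g) ≠ 0 := Finset.prod_ne_zero_iff.2 fun g _ => hz0 g
  obtain ⟨n', -, hn'⟩ := Nat.exists_mul_mod_eq_one_of_coprime
    ((Nat.Prime.coprime_iff_not_dvd hpp).2 hdeg).symm hpp.one_lt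
  obtain ⟨m, hm⟩ : ∃ m, finrank k L * n' = 1 + p * m := by
    refine ⟨finrank k L * n' / p, ?_⟩
    rw [← hn', Nat.mod_add_div]
  set c0 : k := Algebra.norm k E ^ n' with hc0
  have hc00 : c0 ≠ 0 := pow_ne_zero _ hN0
  have hc : algebraMap k L c0 = E * (E ^ m * (∏ g, z g) ^ n') ^ p := by
    rw [hc0, map_pow, hN', mul_pow, ← pow_mul, hm, pow_add, pow_one, mul_pow, ← pow_mul, ← pow_mul,
      ← pow_mul, mul_comm p m, mul_comm p n', mul_assoc]
  set W : L := E ^ m * (∏ g, z g) ^ n' with hW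
  have hW0 : W ≠ 0 := mul_ne_zero (pow_ne_zero _ hE) (pow_ne_zero _ hZ0)
  have hEc : E = algebraMap k L c0 * W⁻¹ ^ p := by
    rw [hc, mul_assoc, ← mul_pow, mul_inv_cancel₀ hW0, one_pow, mul_one]
  constructor
  · intro n hn hu
    refine ⟨c0, hc00, ?_, W⁻¹, inv_ne_zero hW0, hEc⟩
    rw [hc0, map_pow, hN]
    refine un_npow S hn (Finset.prod_induction _ (S.Un n) (fun a b => un_mul S hn) (un_one S n)
      fun g _ => ?_) n'
    refine un_of_gz S ((map_ne_zero g).2 hE) ?_
    have h1 : g E - 1 = g (E - 1) := by rw [map_sub, map_one]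
    rcases un_sub S hu with h | h
    · left
      rw [h1, h, map_zero]
    · right
      rw [h1, hv]
      exact h
  · rintro n ⟨y, hy0, hy⟩
    have hy0' : algebraMap k L y ≠ 0 := (map_ne_zero _).2 hy0
    have hc0' : algebraMap k L c0 ≠ 0 := (map_ne_zero _).2 hc00
    set M : ℕ := n.natAbs + (S.v (algebraMap k L c0)).natAbs with hM
    have hmap : algebraMap k L (c0 * (y ^ M) ^ p) =
        algebraMap k L c0 * (algebraMap k L y ^ M) ^ p := by
      rw [map_mul, map_pow (algebraMap k L) (y ^ M), map_pow (algebraMap k L) y]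
    refine ⟨c0 * (y ^ M) ^ p, mul_ne_zero hc00 (pow_ne_zero _ (pow_ne_zero _ hy0)), ?_,
      W⁻¹ * (algebraMap k L y ^ M)⁻¹,
      mul_ne_zero (inv_ne_zero hW0) (inv_ne_zero (pow_ne_zero _ hy0')), ?_⟩
    · rw [hmap, S.v_mul _ _ hc0' (pow_ne_zero _ (pow_ne_zero _ hy0')),
        v_pow S _ (pow_ne_zero _ hy0'), v_pow S _ hy0']
      have h1 : (M : ℤ) ≤ M * S.v (algebraMap k L y) := by
        have : (0 : ℤ) ≤ M := Int.natCast_nonneg _
        nlinarith
      have h2 : (M : ℤ) * S.v (algebraMap k L y) ≤ p * (M * S.v (algebraMap k L y)) := by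
        have h3 : (1 : ℤ) ≤ p := by exact_mod_cast hpp.one_lt.le
        have h4 : (0 : ℤ) ≤ M * S.v (algebraMap k L y) := by
          have : (0 : ℤ) ≤ M := Int.natCast_nonneg _
          linarith
        nlinarith
      have h3 : (M : ℤ) = n.natAbs + (S.v (algebraMap k L c0)).natAbs := by
        rw [hM]; push_cast; rfl
      omega
    · have h1 : (algebraMap k L y ^ M) ^ p ≠ 0 := pow_ne_zero _ (pow_ne_zero _ hy0')
      calc E = algebraMap k L c0 * W⁻¹ ^ p := hEc
        _ = algebraMap k L c0 * ((algebraMap k L y ^ M) ^ p * ((algebraMap k L y ^ M) ^ p)⁻¹) *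
            W⁻¹ ^ p := by rw [mul_inv_cancel₀ h1, mul_one]
        _ = _ := by rw [hmap, mul_pow, inv_pow (algebraMap k L y ^ M)]; ring

end Pool.Agent.Lib.MP_c385f6_ag.Cpl
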