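import Mathlib
import Pool.Agent.Lib.MP_c385f6_ag.Cpl.Stmts
import Pool.Agent.Lib.MP_c385f6_ag.Cpl.StLoc
import Pool.Agent.Lib.MP_7c08ba_nt.Gen.LocalCount

set_option autoImplicit false

/-!
Assembly of the field data.
-/

namespace Pool.Agent.Lib.MP_c385f6_ag.Cpl

open Polynomial Module

namespace LFaux

/-! ### Classes modulo `p`-th powers -/

section classes

variable (p : ℕ) (L : Type) [Field L]

/-- classes modulo `p`-th powers, written additively -/
def W : Type := Additive (Lˣ ⧸ (powMonoidHom p : Lˣ →* Lˣ).range)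

noncomputable instance instW : AddCommGroup (W p L) :=
  inferInstanceAs (AddCommGroup (Additive (Lˣ ⧸ (powMonoidHom p : Lˣ →* Lˣ).range)))

/-- the class of a unit -/
def mk (u : Lˣ) : W p L := Additive.ofMul (QuotientGroup.mk u)

theorem mk_mul (u v : Lˣ) : mk p L (u * v) = mk p L u + mk p L v := rfl

theorem mk_surj (x : W p L) : ∃ u, mk p L u = x := by
  obtain ⟨u, hu⟩ := QuotientGroup.mk_surjective (Additive.toMul x)
  exact ⟨u, hu⟩

theorem mk_pow (u : Lˣ) (n : ℕ) : mk p L (u ^ n) = n • mk p L u := rfl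

theorem mk_eq (u v : Lˣ) : mk p L u = mk p L v ↔ ∃ z : Lˣ, v = u * z ^ p := by
  have h1 : mk p L u = mk p L v ↔ (QuotientGroup.mk u : Lˣ ⧸ (powMonoidHom p : Lˣ →* Lˣ).range) =
    QuotientGroup.mk v := Iff.rfl
  rw [h1, QuotientGroup.eq]
  constructor
  · rintro ⟨z, hz⟩
    refine ⟨z, ?_⟩
    rw [show z ^ p = u⁻¹ * v from hz]
    group
  · rintro ⟨z, rfl⟩
    exact ⟨z, by rw [powMonoidHom_apply]; group⟩

theorem W_smul (x : W p L) : p • x = 0 := by
  obtain ⟨u, rfl⟩ := mk_surj p L x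
  rw [← mk_pow]
  have h1 : mk p L (1 : Lˣ) = mk p L (u ^ p) := (mk_eq p L _ _).2 ⟨u, by rw [one_mul]⟩
  rw [← h1]
  rfl

noncomputable instance instMod : Module (ZMod p) (W p L) := AddCommGroup.zmodModule (W_smul p L)

variable {L}

open Classical in
/-- the class of a number -/
noncomputable def cl (x : L) : W p L :=
  if h : x = 0 then 0 else mk p L (Units.mk0 x h)

variable {p}

theorem cl_zero : cl p (0 : L) = 0 := dif_pos rfl

theorem cl_of_ne {x : L} (h : x ≠ 0) :
    cl p x = mk p L (Units.mk0 x h) := dif_neg h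

theorem cl_mul {x y : L} (hx : x ≠ 0) (hy : y ≠ 0) : cl p (x * y) = cl p x + cl p y := by
  rw [cl_of_ne hx, cl_of_ne hy, cl_of_ne (mul_ne_zero hx hy), ← mk_mul]
  congr 1
  exact Units.ext rfl

theorem cl_one : cl p (1 : L) = 0 := by
  have h := cl_mul (p := p) (one_ne_zero (α := L)) (one_ne_zero (α := L))
  rw [mul_one] at h
  exact left_eq_add.1 h

theorem cl_surj (w : W p L) : ∃ x : L, x ≠ 0 ∧ cl p x = w := by
  obtain ⟨u, rfl⟩ := mk_surj p L w
  refine ⟨u, u.ne_zero, ?_⟩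
  rw [cl_of_ne u.ne_zero]
  congr 1
  exact Units.ext rfl

theorem cl_pow {x : L} (hx : x ≠ 0) (n : ℕ) : cl p (x ^ n) = n • cl p x := by
  induction n with
  | zero => rw [pow_zero, cl_one, zero_nsmul]
  | succ n ih => rw [pow_succ, cl_mul (pow_ne_zero n hx) hx, ih, succ_nsmul]

theorem cl_pow_p (x : L) (hp : p ≠ 0) : cl p (x ^ p) = 0 := by
  by_cases hx : x = 0
  · rw [hx, zero_pow hp, cl_zero]
  · rw [cl_pow hx, W_smul]

theorem cl_eq_iff {x y : L} (hx : x ≠ 0) (hy : y ≠ 0) : cl p x = cl p y ↔ Eqv p x y := by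
  constructor
  · intro h
    rw [cl_of_ne hx, cl_of_ne hy] at h
    obtain ⟨z, hz⟩ := (mk_eq p L _ _).1 h.symm
    exact ⟨z, z.ne_zero, congrArg Units.val hz⟩
  · rintro ⟨z, hz, rfl⟩
    by_cases hp : p = 0
    · subst hp
      rw [pow_zero, mul_one]
    · rw [cl_mul hy (pow_ne_zero p hz), cl_pow_p z hp, add_zero]

end classes

/-! ### The bilinear form -/

theorem exists_B (hNR : StNR) (hLin : StLin) (p : ℕ) [hp : Fact p.Prime] (L : Type)
    [iF : Field L] [iA : Algebra ℚ_[p] L] [iD : FiniteDimensional ℚ_[p] L] {ζ : L}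
    (hζ : IsPrimitiveRoot ζ p)
    (hcard : Nat.card (W p L) = p ^ (finrank ℚ_[p] L + 2)) :
    ∃ B : W p L →ₗ[ZMod p] W p L →ₗ[ZMod p] ZMod p,
      (∀ x y : L, x ≠ 0 → y ≠ 0 → (B (cl p x) (cl p y) = 0 ↔ NR p x y)) ∧
      (∀ x, (∀ y, B x y = 0) → x = 0) ∧ ∀ f : W p L →ₗ[ZMod p] ZMod p, ∃ x, B x = f := by
  have hp0 : p ≠ 0 := hp.out.ne_zero
  obtain ⟨n1, n2, n3, n4, n5, n6, n7, n8⟩ := hNR p hp L iF iA iD ζ hζ
  have hfin : Finite (W p L) := by
    apply Nat.finite_of_card_ne_zero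
    rw [hcard]
    exact pow_ne_zero _ hp0
  have hfd : FiniteDimensional (ZMod p) (W p L) := Module.Finite.of_finite
  have hrk : finrank (ZMod p) (W p L) = finrank ℚ_[p] L + 2 := by
    have h1 := Module.natCard_eq_pow_finrank (K := ZMod p) (V := W p L)
    rw [hcard, Nat.card_zmod] at h1
    exact (Nat.pow_right_injective hp.out.two_le h1).symm
  have hrk3 : 3 ≤ finrank (ZMod p) (W p L) := by
    have : 0 < finrank ℚ_[p] L := finrank_pos
    omega
  let r : W p L → W p L → Prop := fun a b => ∃ x y : L, x ≠ 0 ∧ y ≠ 0 ∧ cl p x = a ∧ cl p y = b ∧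
    NR p x y
  have hr : ∀ x y : L, x ≠ 0 → y ≠ 0 → (r (cl p x) (cl p y) ↔ NR p x y) := by
    intro x y hx hy
    constructor
    · rintro ⟨x', y', hx', hy', ex, ey, h⟩
      obtain ⟨z, hz, rfl⟩ := (cl_eq_iff hx hx').1 ex.symm
      obtain ⟨t, ht, rfl⟩ := (cl_eq_iff hy hy').1 ey.symm
      have h1 := n4 x' y' z hx' hz h
      have h2 := n5 _ _ hx hy' h1
      exact n5 _ _ hy hx (n4 y' _ t hy' ht h2)
    · intro h
      exact ⟨x, y, hx, hy, rfl, rfl, h⟩
  obtain ⟨B, hB⟩ := hLin p hp (W p L) (instW p L) (instMod p L) hfd r hrk3 (by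
    intro a
    obtain ⟨x, hx, rfl⟩ := cl_surj a
    rw [← cl_one (p := p) (L := L), hr x 1 hx one_ne_zero]
    have := n2 x 1 hx
    rwa [one_pow] at this) (by
    intro a b c hab hac
    obtain ⟨x, hx, rfl⟩ := cl_surj a
    obtain ⟨y, hy, rfl⟩ := cl_surj b
    obtain ⟨z, hz, rfl⟩ := cl_surj c
    rw [hr x y hx hy] at hab
    rw [hr x z hx hz] at hac
    rw [← cl_mul hy hz, hr x _ hx (mul_ne_zero hy hz)]
    exact n1 x y z hx hab hac) (by
    intro a b hab
    obtain ⟨x, hx, rfl⟩ := cl_surj a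
    obtain ⟨y, hy, rfl⟩ := cl_surj b
    rw [hr x y hx hy] at hab
    rw [hr y x hy hx]
    exact n5 x y hx hy hab) (by
    intro a b c hab
    obtain ⟨x, hx, rfl⟩ := cl_surj a
    obtain ⟨y, hy, rfl⟩ := cl_surj b
    obtain ⟨z, hz, rfl⟩ := cl_surj c
    rw [hr x y hx hy] at hab
    obtain ⟨n, hn⟩ := n7 x y z hx hy hz hab
    refine ⟨n, ?_⟩
    rwa [← cl_pow hy, ← cl_mul hz (pow_ne_zero n hy), hr x _ hx (mul_ne_zero hz (pow_ne_zero n hy))])
    (by
    intro a ha
    obtain ⟨x, hx, rfl⟩ := cl_surj a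
    obtain ⟨z, rfl⟩ := n8 x hx fun y hy => (hr x y hx hy).1 (ha (cl p y))
    exact cl_pow_p z hp0)
  have hnd : ∀ x, (∀ y, B x y = 0) → x = 0 := by
    intro a ha
    obtain ⟨x, hx, rfl⟩ := cl_surj a
    obtain ⟨z, rfl⟩ := n8 x hx fun y hy => (hr x y hx hy).1 ((hB _ _).1 (ha (cl p y)))
    exact cl_pow_p z hp0
  refine ⟨B, fun x y hx hy => (hB _ _).trans (hr x y hx hy), hnd, ?_⟩
  have hinj : Function.Injective B := by
    rw [injective_iff_map_eq_zero]
    intro a ha
    refine hnd a fun y => ?_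
    rw [ha, LinearMap.zero_apply]
  have hsurj : Function.Surjective B :=
    (LinearMap.injective_iff_surjective_of_finrank_eq_finrank
      (Subspace.dual_finrank_eq (K := ZMod p) (V := W p L)).symm).1 hinj
  exact hsurj

/-! ### The valuation -/

section val

variable {p : ℕ} {L F : Type} [NormedField L] [Field F] (V : VD p L F)

theorem cpos : 0 < V.c := lt_trans one_pos V.one_lt

theorem c_le {a b : ℤ} : V.c ^ (-a) ≤ V.c ^ (-b) ↔ b ≤ a := by
  rw [zpow_le_zpow_iff_right₀ V.one_lt]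
  omega

theorem c_inj {a b : ℤ} (h : V.c ^ (-a) = V.c ^ (-b)) : a = b :=
  le_antisymm ((c_le V).1 h.ge) ((c_le V).1 h.le)

theorem v_mul {x y : L} (hx : x ≠ 0) (hy : y ≠ 0) : V.v (x * y) = V.v x + V.v y := by
  apply c_inj V
  rw [← V.norm_eq _ (mul_ne_zero hx hy), norm_mul, V.norm_eq x hx, V.norm_eq y hy,
    ← zpow_add₀ (cpos V).ne']
  congr 1
  ring

theorem v_add [IsUltrametricDist L] {x y : L} (hx : x ≠ 0) (hy : y ≠ 0) (hxy : x + y ≠ 0) :
    min (V.v x) (V.v y) ≤ V.v (x + y) := by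
  have h := IsUltrametricDist.norm_add_le_max x y
  rw [V.norm_eq _ hxy, V.norm_eq x hx, V.norm_eq y hy] at h
  rcases le_max_iff.1 h with h | h
  · exact (min_le_left _ _).trans ((c_le V).1 h)
  · exact (min_le_right _ _).trans ((c_le V).1 h)

theorem v_one : V.v 1 = 0 := by
  have h := v_mul V (one_ne_zero (α := L)) (one_ne_zero (α := L))
  rw [mul_one] at h
  omega

theorem v_pow {x : L} (hx : x ≠ 0) (n : ℕ) : V.v (x ^ n) = n * V.v x := by
  induction n with
  | zero => rw [pow_zero, v_one, Nat.cast_zero, zero_mul]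
  | succ n ih =>
    rw [pow_succ, v_mul V (pow_ne_zero n hx) hx, ih]
    push_cast
    ring

/-- the valuation of a class modulo `p` -/
noncomputable def vb (w : W p L) : ZMod p := (V.v (Classical.choose (cl_surj w)) : ZMod p)

theorem vb_cl {x : L} (hx : x ≠ 0) : vb V (cl p x) = (V.v x : ZMod p) := by
  obtain ⟨hy, h⟩ := Classical.choose_spec (cl_surj (cl p x))
  unfold vb
  set y := Classical.choose (cl_surj (cl p x)) with hyd
  obtain ⟨z, hz, e⟩ := (cl_eq_iff hy hx).1 h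
  by_cases hp : p = 0
  · subst hp
    rw [e, pow_zero, mul_one]
  · rw [e, v_mul V hx (pow_ne_zero p hz), v_pow V hz]
    push_cast
    rw [CharP.cast_eq_zero, zero_mul, add_zero]

theorem vb_add (a b : W p L) : vb V (a + b) = vb V a + vb V b := by
  obtain ⟨x, hx, rfl⟩ := cl_surj a
  obtain ⟨y, hy, rfl⟩ := cl_surj b
  rw [← cl_mul hx hy, vb_cl V (mul_ne_zero hx hy), vb_cl V hx, vb_cl V hy, v_mul V hx hy]
  push_cast
  rfl

/-- the valuation as a functional -/
noncomputable def vl : W p L →ₗ[ZMod p] ZMod p :=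
  AddMonoidHom.toZModLinearMap p (AddMonoidHom.mk' (vb V) (vb_add V))

theorem vl_cl {x : L} (hx : x ≠ 0) : vl V (cl p x) = (V.v x : ZMod p) := vb_cl V hx

end val

theorem exists_S (hNR : StNR) (hLin : StLin) (hHens : StHens) (p : ℕ) [hp : Fact p.Prime]
    (L F : Type) [iF : NormedField L] [iG : Field F] [iA : NormedAlgebra ℚ_[p] L]
    [iD : FiniteDimensional ℚ_[p] L] [iU : IsUltrametricDist L] {ζ : L}
    (hζ : IsPrimitiveRoot ζ p) (V : VD p L F) :
    ∃ (S : LF p L F) (B : W p L →ₗ[ZMod p] W p L →ₗ[ZMod p] ZMod p),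
      S.v = V.v ∧ S.π = V.π ∧ S.res = V.res ∧ (S.e : ℤ) = p * V.v (1 - ζ) ∧
      (∀ x y, S.h x y = B (cl p x) (cl p y)) ∧
      (∀ x y : L, x ≠ 0 → y ≠ 0 → (B (cl p x) (cl p y) = 0 ↔ NR p x y)) ∧
      (∀ x, (∀ y, B x y = 0) → x = 0) ∧ B (cl p S.ω) = vl V := by
  have hp0 : p ≠ 0 := hp.out.ne_zero
  obtain ⟨n1, n2, n3, n4, n5, n6, n7, n8⟩ := hNR p hp L iF.toField iA.toAlgebra iD ζ hζ
  obtain ⟨e1, e2, e3, e4, e5, a0, ha0⟩ := hHens p hp L F iF iG iA iD iU V ζ hζ
  have hcard : Nat.card (W p L) = p ^ (finrank ℚ_[p] L + 2) :=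
    BKGen.LocalCount.card_quotient_of_primitive p L hζ
  have hfin : Finite (W p L) := by
    apply Nat.finite_of_card_ne_zero
    rw [hcard]
    exact pow_ne_zero _ hp0
  obtain ⟨B, hB, hnd, hsurj⟩ := exists_B hNR hLin p L hζ hcard
  obtain ⟨w, hw⟩ := hsurj (vl V)
  obtain ⟨om, hom, rfl⟩ := cl_surj w
  obtain ⟨n, hn⟩ : ∃ n : ℕ, V.v (1 - ζ) = n := ⟨(V.v (1 - ζ)).toNat, by omega⟩
  have hn1 : 1 ≤ n := by
    rw [hn] at e2
    exact_mod_cast e2
  have he : ((p * n : ℕ) : ℤ) = p * V.v (1 - ζ) := by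
    rw [hn]
    push_cast
    rfl
  have hlam : (1 : L) - ζ ≠ 0 := by
    intro h
    rw [h, V.v_zero] at e2
    omega
  let S : LF p L F :=
    { v := V.v
      π := V.π
      res := V.res
      e := p * n
      h := fun x y => B (cl p x) (cl p y)
      ω := om
      v_zero := V.v_zero
      v_mul := fun x y hx hy => v_mul V hx hy
      v_add := fun x y hx hy hxy => v_add V hx hy hxy
      pi_ne := V.pi_ne
      v_pi := V.v_pi
      res_add := V.res_add
      res_mul := V.res_mul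
      res_one := V.res_one
      res_surj := V.res_surj
      res_zero := V.res_zero
      finF := V.finF
      e_dvd := dvd_mul_right _ _
      two_le := hp.out.two_le.trans (Nat.le_mul_of_pos_right p hn1)
      h_mul_left := fun x y z hx hy _ => by
        rw [cl_mul hx hy, map_add, LinearMap.add_apply]
      h_mul_right := fun x y z _ hy hz => by
        rw [cl_mul hy hz, map_add]
      steinberg := fun x y hx hy h => by
        rw [hB x y hx hy]
        have h1 : y = 1 - x := by linear_combination h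
        rw [h1]
        refine n6 x hx ?_
        rintro rfl
        rw [sub_self] at h1
        exact hy h1
      ndg := fun x hx h => by
        have h1 : cl p x = 0 := hnd _ fun y => by
          obtain ⟨y, hy, rfl⟩ := cl_surj y
          exact h y hy
        rw [← cl_one (p := p) (L := L), cl_eq_iff hx one_ne_zero] at h1
        obtain ⟨z, -, hz⟩ := h1
        exact ⟨z, by rw [hz, one_mul]⟩
      om_ne := hom
      h_omega := fun x hx => by
        rw [hw, vl_cl V hx]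
      pow_unit := fun u hu h => e3 u hu (by rwa [he] at h)
      jump := fun u hu h h' => e4 u hu h (by rwa [he] at h')
      top := by
        obtain ⟨x, hx, hxa⟩ := V.res_surj a0
        have hno : ¬ ∃ z, 1 + x * (1 - ζ) ^ p = z ^ p := by
          rw [e5 x hx, hxa]
          rintro ⟨b, hb⟩
          exact ha0 b hb
        have hx0 : x ≠ 0 := by
          rintro rfl
          apply hno
          exact ⟨1, by rw [zero_mul, add_zero, one_pow]⟩
        have hvx : V.v x = 0 := by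
          by_contra hv
          have h1 : V.res x = 0 := (V.res_zero x hx).2 (Or.inr (by omega))
          rw [h1] at hxa
          apply ha0 0
          rw [← hxa, zero_pow hp0, sub_zero]
        refine ⟨1 + x * (1 - ζ) ^ p, ?_, ?_, hno⟩
        · intro h
          exact hno ⟨0, by rw [h, zero_pow hp0]⟩
        · rw [add_sub_cancel_left, v_mul V hx0 (pow_ne_zero p hlam), v_pow V hlam, hvx, zero_add,
            he]
      fin := by
        refine ⟨(Set.finite_range fun w : W p L => Classical.choose (cl_surj w)).toFinset,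
          fun x hx => ?_⟩
        refine ⟨Classical.choose (cl_surj (cl p x)), by simp, ?_⟩
        obtain ⟨hy, h⟩ := Classical.choose_spec (cl_surj (cl p x))
        exact (cl_eq_iff hx hy).1 h.symm }
  exact ⟨S, B, rfl, rfl, rfl, he, fun x y => rfl, hB, hnd, hw⟩

/-! ### Galois action on the norm relation -/

theorem NR_map (p : ℕ) [hp : Fact p.Prime] {L : Type} [Field L] (σ : L ≃+* L) {x y : L}
    (h : NR p x y) : NR p (σ x) (σ y) := by
  obtain ⟨u, hu⟩ := h
  have hm : (X ^ p - C x : L[X]).map (σ : L →+* L) = X ^ p - C (σ x) := by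
    rw [Polynomial.map_sub, Polynomial.map_pow, Polynomial.map_X, Polynomial.map_C]
    rfl
  let e₂ : AdjoinRoot (X ^ p - C x : L[X]) ≃+* AdjoinRoot (X ^ p - C (σ x) : L[X]) :=
    AdjoinRoot.mapRingEquiv σ _ _ (by rw [hm])
  refine ⟨e₂ u, ?_⟩
  have h1 := Algebra.norm_eq_of_equiv_equiv σ e₂ (by
    ext r
    simp [e₂, AdjoinRoot.algebraMap_eq]) u
  rw [hu] at h1
  rw [h1, RingEquiv.apply_symm_apply]

/-! ### The residue field -/

section res

variable {p : ℕ} {L F : Type} [Field L] [Field F] (S : LF p L F)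

theorem Sv_one : S.v 1 = 0 := by
  have h := S.v_mul 1 1 one_ne_zero one_ne_zero
  rw [mul_one] at h
  omega

theorem Sv_neg (x : L) : S.v (-x) = S.v x := by
  by_cases hx : x = 0
  · rw [hx, neg_zero]
  · have h1 := S.v_mul (-1) (-1) (by simp) (by simp)
    rw [neg_one_mul, neg_neg, Sv_one] at h1
    have h2 := S.v_mul (-1) x (by simp) hx
    rw [neg_one_mul] at h2
    omega

theorem Sv_pow {x : L} (hx : x ≠ 0) (n : ℕ) : S.v (x ^ n) = n * S.v x := by
  induction n with
  | zero => rw [pow_zero, Sv_one, Nat.cast_zero, zero_mul]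
  | succ n ih =>
    rw [pow_succ, S.v_mul _ _ (pow_ne_zero n hx) hx, ih]
    push_cast
    ring

/-- the ring of integers -/
def OO : Subring L where
  carrier := {x | 0 ≤ S.v x}
  mul_mem' := by
    intro x y hx hy
    by_cases hx0 : x = 0
    · rw [hx0, zero_mul]
      exact S.v_zero.ge
    by_cases hy0 : y = 0
    · rw [hy0, mul_zero]
      exact S.v_zero.ge
    show 0 ≤ S.v (x * y)
    rw [S.v_mul x y hx0 hy0]
    exact add_nonneg hx hy
  one_mem' := (Sv_one S).ge
  add_mem' := by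
    intro x y hx hy
    by_cases hx0 : x = 0
    · rw [hx0, zero_add]
      exact hy
    by_cases hy0 : y = 0
    · rw [hy0, add_zero]
      exact hx
    by_cases hxy : x + y = 0
    · rw [hxy]
      exact S.v_zero.ge
    exact (le_min hx hy).trans (S.v_add x y hx0 hy0 hxy)
  zero_mem' := S.v_zero.ge
  neg_mem' := by
    intro x hx
    show 0 ≤ S.v (-x)
    rw [Sv_neg]
    exact hx

/-- the residue map -/
def resH : OO S →+* F where
  toFun x := S.res x
  map_one' := S.res_one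
  map_mul' x y := S.res_mul x y x.2 y.2
  map_zero' := (S.res_zero 0 S.v_zero.ge).2 (Or.inl rfl)
  map_add' x y := S.res_add x y x.2 y.2

theorem resH_surj : Function.Surjective (resH S) := by
  intro a
  obtain ⟨x, hx, h⟩ := S.res_surj a
  exact ⟨⟨x, hx⟩, h⟩

/-- the action on the ring of integers -/
def sO (σ : L ≃+* L) (hv : ∀ x, S.v (σ x) = S.v x) : OO S →+* OO S where
  toFun x := ⟨σ x, by show 0 ≤ S.v (σ x); rw [hv]; exact x.2⟩
  map_one' := Subtype.ext (map_one σ)
  map_mul' x y := Subtype.ext (map_mul σ _ _)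
  map_zero' := Subtype.ext (map_zero σ)
  map_add' x y := Subtype.ext (map_add σ _ _)

/-- the action on the residue field is a power of the Frobenius -/
theorem exists_frob [hp : Fact p.Prime] [CharP F p] (σ : L ≃+* L)
    (hv : ∀ x, S.v (σ x) = S.v x) :
    ∃ n : ℕ, ∀ x, 0 ≤ S.v x → S.res (σ x) = S.res x ^ p ^ n := by
  have : Finite F := S.finF
  have hker : RingHom.ker (resH S) ≤ RingHom.ker ((resH S).comp (sO S σ hv)) := by
    rintro ⟨x, hx⟩ h
    rw [RingHom.mem_ker] at h ⊢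
    show S.res (σ x) = 0
    rw [S.res_zero _ (by rw [hv]; exact hx)]
    rcases (S.res_zero x hx).1 h with h | h
    · left
      rw [h, map_zero]
    · right
      rwa [hv]
  let τ : F →+* F := (resH S).liftOfRightInverse _ (Function.rightInverse_surjInv (resH_surj S))
    ⟨(resH S).comp (sO S σ hv), hker⟩
  have hτ : ∀ x : OO S, τ (resH S x) = S.res (σ x) := fun x =>
    (resH S).liftOfRightInverse_comp_apply _ (Function.rightInverse_surjInv (resH_surj S))
      ⟨(resH S).comp (sO S σ hv), hker⟩ x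
  letI : Algebra (ZMod p) F := ZMod.algebra F p
  let τ' : F →ₐ[ZMod p] F :=
    { τ with
      commutes' := fun r =>
        RingHom.congr_fun (Subsingleton.elim (τ.comp (algebraMap (ZMod p) F))
          (algebraMap (ZMod p) F)) r }
  obtain ⟨n, hn⟩ := (FiniteField.bijective_frobeniusAlgHom_pow (ZMod p) F).2 τ'
  refine ⟨n.1, fun x hx => ?_⟩
  have h1 := hτ ⟨x, hx⟩
  have h2 : τ (resH S ⟨x, hx⟩) = (resH S ⟨x, hx⟩) ^ p ^ n.1 := by
    have h3 : τ' (resH S ⟨x, hx⟩) = _ := (DFunLike.congr_fun hn (resH S ⟨x, hx⟩)).symm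
    have h4 : ((FiniteField.frobeniusAlgHom (ZMod p) F ^ n.1 : F →ₐ[ZMod p] F))
        (resH S ⟨x, hx⟩) = (resH S ⟨x, hx⟩) ^ p ^ n.1 := by
      rw [AlgHom.coe_pow, FiniteField.coe_frobeniusAlgHom, pow_iterate, ZMod.card]
    exact h3.trans h4
  rw [← h1, h2]
  rfl

end res

/-! ### The action on the unramified class -/

section omega

variable {p : ℕ} [hp : Fact p.Prime] {L F : Type} [iL : Field L] [iF : Field F] (S : LF p L F)

theorem h_one_left {x : L} (hx : x ≠ 0) : S.h 1 x = 0 := by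
  have h := S.h_mul_left 1 1 x one_ne_zero one_ne_zero hx
  rw [mul_one] at h
  exact left_eq_add.1 h

theorem h_one_right {x : L} (hx : x ≠ 0) : S.h x 1 = 0 := by
  have h := S.h_mul_right x 1 1 hx one_ne_zero one_ne_zero
  rw [mul_one] at h
  exact left_eq_add.1 h

theorem h_pow_left {x y : L} (hx : x ≠ 0) (hy : y ≠ 0) (n : ℕ) :
    S.h (x ^ n) y = n * S.h x y := by
  induction n with
  | zero => rw [pow_zero, h_one_left S hy, Nat.cast_zero, zero_mul]
  | succ n ih =>
    rw [pow_succ, S.h_mul_left _ _ _ (pow_ne_zero n hx) hx hy, ih]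
    push_cast
    ring

theorem h_pow_right {x y : L} (hx : x ≠ 0) (hy : y ≠ 0) (n : ℕ) :
    S.h x (y ^ n) = n * S.h x y := by
  induction n with
  | zero => rw [pow_zero, h_one_right S hx, Nat.cast_zero, zero_mul]
  | succ n ih =>
    rw [pow_succ, S.h_mul_right _ _ _ hx (pow_ne_zero n hy) hy, ih]
    push_cast
    ring

include hp in
theorem omega_act (hSym : StSym) [CharP F p] (σ : L ≃+* L) (hv : ∀ x, S.v (σ x) = S.v x)
    (hN : ∀ x y, x ≠ 0 → y ≠ 0 → (S.h (σ x) (σ y) = 0 ↔ S.h x y = 0)) {ζ : L} {a : ℕ}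
    (hσ : σ ζ = ζ ^ a) (he : (S.e : ℤ) = p * S.v (1 - ζ)) (hl : 1 ≤ S.v (1 - ζ))
    (h5 : ∀ x, 0 ≤ S.v x → ((∃ z, 1 + x * (1 - ζ) ^ p = z ^ p) ↔ ∃ b : F, S.res x = b ^ p - b))
    (h6 : ∃ a : F, ∀ b : F, a ≠ b ^ p - b) : Eqv p (σ S.ω) (S.ω ^ a) := by
  have hp0 : p ≠ 0 := hp.out.ne_zero
  obtain ⟨-, s2, -, -, -, -, -, ⟨l, l1, -, l3⟩, -⟩ := hSym p hp L F iL iF S
  have hlam : (1 : L) - ζ ≠ 0 := by
    intro h
    rw [h, S.v_zero] at hl
    omega
  have hπe : S.π ^ S.e ≠ 0 := pow_ne_zero _ S.pi_ne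
  have hlp : (1 - ζ) ^ p ≠ 0 := pow_ne_zero _ hlam
  -- the unit
  set ε : L := (1 - ζ) ^ p / S.π ^ S.e with hε
  have hε0 : ε ≠ 0 := div_ne_zero hlp hπe
  have hεv : S.v ε = 0 := by
    have h1 : ε * S.π ^ S.e = (1 - ζ) ^ p := div_mul_cancel₀ _ hπe
    have h2 := S.v_mul ε _ hε0 hπe
    rw [h1, Sv_pow S hlam, Sv_pow S S.pi_ne, S.v_pi] at h2
    omega
  have key : ∀ x, 0 ≤ S.v x → ∀ w, w ≠ 0 → S.h (1 + x * (1 - ζ) ^ p) w =
      l (S.res x * S.res ε) * (S.v w : ZMod p) := by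
    intro x hx w hw
    have h1 : x * (1 - ζ) ^ p = (x * ε) * S.π ^ S.e := by
      rw [hε]
      field_simp
    have h2 : 0 ≤ S.v (x * ε) := (OO S).mul_mem hx (show 0 ≤ S.v ε by rw [hεv])
    rw [h1, l3 (x * ε) h2 w hw, S.res_mul x ε hx (by rw [hεv])]
  have l0 : l 0 = 0 := by
    have := l1 0 0
    rw [add_zero] at this
    exact left_eq_add.1 this
  have lnat : ∀ (n : ℕ) (y : F), l (n * y) = n * l y := by
    intro n y
    induction n with
    | zero => rw [Nat.cast_zero, zero_mul, l0, Nat.cast_zero, zero_mul]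
    | succ n ih =>
      push_cast
      rw [add_mul, one_mul, l1, ih]
      ring
  -- `1 + x λ ^ p` is not zero
  have hne : ∀ x, 0 ≤ S.v x → 1 + x * (1 - ζ) ^ p ≠ 0 := by
    intro x hx h
    by_cases hx0 : x = 0
    · rw [hx0, zero_mul, add_zero] at h
      exact one_ne_zero h
    · have h1 : x * (1 - ζ) ^ p = -1 := by linear_combination h
      have h2 := S.v_mul x _ hx0 hlp
      rw [h1, Sv_neg, Sv_one, Sv_pow S hlam] at h2
      have h3 := hp.out.pos
      have h4 : (0 : ℤ) < p * S.v (1 - ζ) := mul_pos (by exact_mod_cast h3) (by omega)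
      omega
  -- vanishing on the image of the Artin–Schreier map
  have hAS : ∀ b : F, l ((b ^ p - b) * S.res ε) = 0 := by
    intro b
    obtain ⟨x, hx, hxb⟩ := S.res_surj (b ^ p - b)
    obtain ⟨z, hz⟩ := (h5 x hx).2 ⟨b, hxb⟩
    have hz0 : z ≠ 0 := by
      rintro rfl
      rw [zero_pow hp0] at hz
      exact hne x hx hz
    have h1 := key x hx S.π S.pi_ne
    rw [hz, h_pow_left S hz0 S.pi_ne, CharP.cast_eq_zero, zero_mul, S.v_pi, Int.cast_one, mul_one,
      hxb] at h1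
    exact h1.symm
  have hfrob : ∀ (n : ℕ) (y : F), l (y ^ p ^ n * S.res ε) = l (y * S.res ε) := by
    intro n y
    induction n with
    | zero => rw [pow_zero, pow_one]
    | succ n ih =>
      have h1 := hAS (y ^ p ^ n)
      have h2 : y ^ p ^ (n + 1) * S.res ε = ((y ^ p ^ n) ^ p - y ^ p ^ n) * S.res ε +
          y ^ p ^ n * S.res ε := by
        rw [← pow_mul, ← pow_succ]
        ring
      rw [h2, l1, h1, zero_add, ih]
  obtain ⟨n, hn⟩ := exists_frob S σ hv
  obtain ⟨a0, ha0⟩ := h6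
  obtain ⟨x0, hx0, hxa⟩ := S.res_surj a0
  set u : L := 1 + x0 * (1 - ζ) ^ p with hu
  have hu0 : u ≠ 0 := hne x0 hx0
  set c : ZMod p := l (a0 * S.res ε) with hc
  have hhu : ∀ w, w ≠ 0 → S.h u w = c * (S.v w : ZMod p) := by
    intro w hw
    rw [hu, key x0 hx0 w hw, hxa]
  have hc0 : c ≠ 0 := by
    intro h0
    obtain ⟨y, hy⟩ := S.ndg u hu0 fun w hw => by rw [hhu w hw, h0, zero_mul]
    obtain ⟨b, hb⟩ := (h5 x0 hx0).1 ⟨y, by rw [← hy]⟩
    exact ha0 b (by rw [← hb, hxa])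
  have hcv : ((c.val : ℕ) : ZMod p) = c := ZMod.natCast_zmod_val c
  have hE : Eqv p u (S.ω ^ c.val) := by
    refine (s2 u _ 1 hu0 (pow_ne_zero _ S.om_ne) one_ne_zero).2 fun w hw => ?_
    rw [hhu w hw, h_pow_left S S.om_ne hw, S.h_omega w hw, hcv]
  obtain ⟨z, hz, hE⟩ := hE
  have hσ0 : ∀ x, x ≠ 0 → σ x ≠ 0 := fun x hx => (map_ne_zero_iff σ σ.injective).2 hx
  set μ : ZMod p := S.h (σ S.ω) S.π with hμ
  have hσω := hσ0 _ S.om_ne
  -- the value of the symbol of `σ u` and `π`, first way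
  have hA : S.h (σ u) S.π = c * μ := by
    rw [hE, map_mul, map_pow, map_pow, S.h_mul_left _ _ _ (pow_ne_zero _ hσω)
      (pow_ne_zero _ (hσ0 z hz)) S.pi_ne, h_pow_left S hσω S.pi_ne, h_pow_left S (hσ0 z hz) S.pi_ne,
      ZMod.natCast_self, zero_mul, add_zero, hcv]
  -- second way
  have hζv : 0 ≤ S.v ζ := by
    have h1 : (1 : L) - (1 - ζ) = ζ := by ring
    rw [← h1]
    exact (OO S).sub_mem (OO S).one_mem (show 0 ≤ S.v (1 - ζ) by omega)
  have hζr : S.res ζ = 1 := by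
    have h1 : S.res (1 - ζ) = 0 := (S.res_zero _ (by omega)).2 (Or.inr hl)
    have h2 := S.res_add (1 - ζ) ζ (by omega) hζv
    rw [sub_add_cancel, S.res_one, h1, zero_add] at h2
    exact h2.symm
  set z0 : OO S := ⟨ζ, hζv⟩ with hz0
  have hz0r : resH S z0 = 1 := hζr
  set t : OO S := ∑ i ∈ Finset.range a, z0 ^ i with ht
  have htr : resH S t = a := by
    rw [ht, map_sum]
    simp [hz0r]
  have hσl : σ (1 - ζ) = (1 - ζ) * (t : L) := by
    have h1 : (t : L) = ∑ i ∈ Finset.range a, ζ ^ i := by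
      rw [ht]
      push_cast
      rfl
    rw [h1, mul_neg_geom_sum, map_sub, map_one, hσ]
  set x1 : OO S := sO S σ hv ⟨x0, hx0⟩ * t ^ p with hx1
  have hx1r : S.res (x1 : L) = a * a0 ^ p ^ n := by
    have h1 : resH S x1 = resH S (sO S σ hv ⟨x0, hx0⟩) * resH S t ^ p := by
      rw [hx1, map_mul, map_pow]
    have h2 : resH S (sO S σ hv ⟨x0, hx0⟩) = a0 ^ p ^ n := by
      rw [← hxa]
      exact hn x0 hx0
    have h3 : ((a : ℕ) : F) ^ p = a := by
      have := map_natCast (frobenius F p) a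
      rwa [frobenius_def] at this
    rw [h2, htr, h3] at h1
    rw [mul_comm]
    exact h1
  have hσu : σ u = 1 + (x1 : L) * (1 - ζ) ^ p := by
    have h1 : (x1 : L) = σ x0 * (t : L) ^ p := rfl
    rw [h1, hu, map_add, map_one, map_mul, map_pow, hσl, mul_pow]
    ring
  have hB : S.h (σ u) S.π = a * c := by
    rw [hσu, key _ x1.2 _ S.pi_ne, hx1r, mul_assoc, lnat, hfrob, S.v_pi, Int.cast_one, mul_one]
  have hμa : μ = a := by
    rw [hA, mul_comm] at hB
    exact mul_right_cancel₀ hc0 hB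
  -- the symbol with `σ ω`
  have hfin : ∀ y, y ≠ 0 → S.h (σ S.ω) y = (S.v y : ZMod p) * μ := by
    intro y hy
    set m : ℕ := (-(S.v y : ZMod p)).val with hm
    have hmc : ((m : ℕ) : ZMod p) = -(S.v y : ZMod p) := ZMod.natCast_zmod_val _
    have hpm := pow_ne_zero m S.pi_ne
    have hy' : y * S.π ^ m ≠ 0 := mul_ne_zero hy hpm
    have h1 : (S.v (y * S.π ^ m) : ZMod p) = 0 := by
      rw [S.v_mul _ _ hy hpm, Sv_pow S S.pi_ne, S.v_pi]
      push_cast
      rw [hmc]
      ring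
    have h2 : σ.symm (y * S.π ^ m) ≠ 0 := (map_ne_zero_iff σ.symm σ.symm.injective).2 hy'
    have h3 : S.h S.ω (σ.symm (y * S.π ^ m)) = 0 := by
      rw [S.h_omega _ h2, ← hv, RingEquiv.apply_symm_apply, h1]
    rw [← hN _ _ S.om_ne h2, RingEquiv.apply_symm_apply, S.h_mul_right _ _ _ hσω hy hpm,
      h_pow_right S hσω S.pi_ne, hmc] at h3
    linear_combination h3
  refine (s2 _ _ 1 hσω (pow_ne_zero _ S.om_ne) one_ne_zero).2 fun w hw => ?_
  rw [hfin w hw, hμa, h_pow_left S S.om_ne hw, S.h_omega w hw]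
  ring

end omega

end LFaux

open LFaux in
theorem stLF (h1 : StVal) (h2 : StHens) (h3 : StNR) (h4 : StLin) (h5 : StSym) : StLF := by
  intro p hp L iF iA iD ζ hζ
  letI : NormedField L := spectralNorm.normedField ℚ_[p] L
  letI : NormedAlgebra ℚ_[p] L := spectralNorm.normedAlgebra ℚ_[p] L
  haveI : IsUltrametricDist L :=
    IsUltrametricDist.isUltrametricDist_of_isNonarchimedean_norm
      (isNonarchimedean_spectralNorm (K := ℚ_[p]) (L := L))
  obtain ⟨F, iG, ⟨V⟩⟩ := h1 p hp L inferInstance inferInstance iD inferInstance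
  have := V.charF
  obtain ⟨e1, e2, e3, e4, e5, e6⟩ := h2 p hp L F inferInstance iG inferInstance iD inferInstance
    V ζ hζ
  obtain ⟨S, B, hv, hπ, hres, he, hh, hB, hnd, hω⟩ := exists_S h3 h4 h2 p L F hζ V
  have hnorm : ∀ (σ : L ≃ₐ[ℚ_[p]] L) (x : L), ‖σ x‖ = ‖x‖ := fun σ x =>
    (spectralNorm_eq_of_equiv σ x).symm
  have hvσ : ∀ (σ : L ≃ₐ[ℚ_[p]] L) (x : L), S.v (σ x) = S.v x := by
    intro σ x
    by_cases hx : x = 0
    · rw [hx, map_zero]
    · have hx' : σ x ≠ 0 := (map_ne_zero_iff σ σ.injective).2 hx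
      have h := hnorm σ x
      rw [V.norm_eq _ hx, V.norm_eq _ hx'] at h
      rw [hv]
      exact c_inj V h
  refine ⟨F, iG, S, V.charF, fun x y hx hy => ?_, hvσ, ?_, ?_⟩
  · rw [hh]
    exact hB x y hx hy
  · intro σ a ha
    refine omega_act S h5 (σ : L ≃+* L) (hvσ σ) ?_ ha (by rw [hv]; exact he) (by rw [hv]; exact e2)
      (by rw [hv, hres]; exact e5) e6
    intro x y hx hy
    have hx' : σ x ≠ 0 := (map_ne_zero_iff σ σ.injective).2 hx
    have hy' : σ y ≠ 0 := (map_ne_zero_iff σ σ.injective).2 hy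
    show S.h (σ x) (σ y) = 0 ↔ _
    rw [hh, hh, hB _ _ hx' hy', hB _ _ hx hy]
    constructor
    · intro h
      have h' := NR_map p (σ.symm : L ≃+* L) h
      have e7 : ∀ z : L, (σ.symm : L ≃+* L) (σ z) = z := fun z => σ.symm_apply_apply z
      rwa [e7, e7] at h'
    · exact NR_map p (σ : L ≃+* L)
  · rw [hv]
    have h2 := hp.out.two_le
    have h3 : (1 : ℤ) ≤ (p : ℤ) - 1 := by
      have : (2 : ℤ) ≤ p := by exact_mod_cast h2
      omega
    rw [← e1]
    exact mul_pos (by omega) (by omega)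

end Pool.Agent.Lib.MP_c385f6_ag.Cpl
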