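import Mathlib
import Pool.Agent.Lib.MP_c385f6_ag.Cpl.StLoc

set_option autoImplicit false

/-!
(L): a symmetric relation which is linear in both variables, with hyperplanes as orthogonal
spaces, is the orthogonality of a bilinear form (dimension at least three, prime field).
-/

namespace Pool.Agent.Lib.MP_c385f6_ag.Cpl

open Module

namespace LinAux

/-- the hypotheses -/
structure Rel (p : ℕ) {V : Type} [AddCommGroup V] (r : V → V → Prop) : Prop where
  zero : ∀ x, r x 0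
  add : ∀ x y z, r x y → r x z → r x (y + z)
  symm : ∀ x y, r x y → r y x
  hyp : ∀ x y z, ¬ r x y → ∃ n : ℕ, r x (z + n • y)
  ndg : ∀ x, (∀ y, r x y) → x = 0

variable {p : ℕ} [Fact p.Prime] {V : Type} [AddCommGroup V] [Module (ZMod p) V]
  {r : V → V → Prop}

theorem Rel.nsmul (h : Rel p r) {x y : V} (hxy : r x y) (n : ℕ) : r x (n • y) := by
  induction n with
  | zero => rw [zero_smul]; exact h.zero x
  | succ n ih => rw [succ_nsmul]; exact h.add _ _ _ ih hxy

theorem Rel.smul (h : Rel p r) {x y : V} (hxy : r x y) (c : ZMod p) : r x (c • y) := by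
  have h1 : c • y = c.val • y := by
    rw [← Nat.cast_smul_eq_nsmul (ZMod p), ZMod.natCast_zmod_val]
  rw [h1]
  exact h.nsmul hxy _

/-- the orthogonal space -/
def Rel.H (h : Rel p r) (a : V) : Submodule (ZMod p) V where
  carrier := {y | r a y}
  add_mem' := fun hx hy => h.add _ _ _ hx hy
  zero_mem' := h.zero a
  smul_mem' := fun c _ hx => h.smul hx c

theorem Rel.mem_H (h : Rel p r) {a y : V} : y ∈ h.H a ↔ r a y := Iff.rfl

theorem Rel.hypK (h : Rel p r) {x y : V} (z : V) (hxy : ¬ r x y) :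
    ∃ c : ZMod p, r x (z + c • y) := by
  obtain ⟨n, hn⟩ := h.hyp x y z hxy
  exact ⟨n, by rwa [Nat.cast_smul_eq_nsmul]⟩

/-- `f` is a functional with kernel the orthogonal space of `a` -/
def IsF (r : V → V → Prop) (a : V) (f : V →ₗ[ZMod p] ZMod p) : Prop := ∀ y, f y = 0 ↔ r a y

theorem Rel.exists_isF (h : Rel p r) (a : V) : ∃ f : V →ₗ[ZMod p] ZMod p, IsF r a f := by
  by_cases ha : ∀ y, r a y
  · exact ⟨0, fun y => by simp [ha y]⟩
  · push Not at ha
    obtain ⟨y, hy⟩ := ha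
    obtain ⟨f, hf, hle⟩ := Submodule.exists_le_ker_of_notMem (p := h.H a) (v := y) hy
    refine ⟨f, fun z => ⟨fun hz => ?_, fun hz => hle hz⟩⟩
    obtain ⟨c, hc⟩ := h.hypK z hy
    have h1 : f (z + c • y) = 0 := hle (h.mem_H.2 hc)
    rw [map_add, hz, zero_add, map_smul, smul_eq_mul] at h1
    have h2 : c = 0 := (mul_eq_zero.1 h1).resolve_right hf
    rw [h2, zero_smul, add_zero] at hc
    exact hc

theorem IsF.smul {a : V} {f : V →ₗ[ZMod p] ZMod p} (hf : IsF r a f)
    {c : ZMod p} (hc : c ≠ 0) : IsF r a (c • f) := by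
  intro y
  rw [LinearMap.smul_apply, smul_eq_mul, mul_eq_zero, or_iff_right hc]
  exact hf y

/-- independence of two vectors -/
def Ind2 (p : ℕ) {V : Type} [AddCommGroup V] [Module (ZMod p) V] (a b : V) : Prop :=
  ∀ α β : ZMod p, α • a + β • b = 0 → α = 0 ∧ β = 0

/-- independence of three vectors -/
def Ind3 (p : ℕ) {V : Type} [AddCommGroup V] [Module (ZMod p) V] (a b c : V) : Prop :=
  ∀ α β γ : ZMod p, α • a + β • b + γ • c = 0 → α = 0 ∧ β = 0 ∧ γ = 0

/-- an orthogonal space contained in another one -/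
theorem Rel.inj (h : Rel p r) {u v : V} (hu : u ≠ 0) (huv : ∀ y, r u y → r v y) :
    ∃ c : ZMod p, v + c • u = 0 := by
  have h1 : ∃ y, ¬ r u y := by
    by_contra hc
    push Not at hc
    exact hu (h.ndg u hc)
  obtain ⟨y, hy⟩ := h1
  have hy' : ¬ r y u := fun hc => hy (h.symm _ _ hc)
  obtain ⟨c, hc⟩ := h.hypK v hy'
  refine ⟨c, h.ndg _ fun z => ?_⟩
  obtain ⟨d, hd⟩ := h.hypK z hy
  have h2 : r (v + c • u) (z + d • y) :=
    h.symm _ _ (h.add _ _ _ (h.symm _ _ (huv _ hd)) (h.smul (h.symm _ _ hd) c))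
  have h3 : r (v + c • u) y := h.symm _ _ hc
  have h4 := h.add _ _ _ h2 (h.smul h3 (-d))
  have e : z + d • y + (-d) • y = z := by module
  rwa [e] at h4

theorem Ind2.left_ne {a b : V} (hab : Ind2 p a b) : a ≠ 0 := by
  rintro rfl
  have := (hab 1 0 (by simp)).1
  exact one_ne_zero this

theorem Ind2.swap {a b : V} (hab : Ind2 p a b) : Ind2 p b a := fun α β h => by
  have := hab β α (by rw [add_comm]; exact h)
  exact ⟨this.2, this.1⟩

theorem Ind2.right_ne {a b : V} (hab : Ind2 p a b) : b ≠ 0 := hab.swap.left_ne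

theorem Ind2.exists_mem (h : Rel p r) {a b : V} (hab : Ind2 p a b) : ∃ y, r a y ∧ ¬ r b y := by
  by_contra hc
  push Not at hc
  obtain ⟨c, hc⟩ := h.inj hab.left_ne hc
  have := hab c 1 (by rw [one_smul, add_comm]; exact hc)
  exact one_ne_zero this.2

/-- the intersection of two orthogonal spaces contained in a third one -/
theorem Rel.inj2 (h : Rel p r) {a b c : V} (hab : Ind2 p a b)
    (hc : ∀ y, r a y → r b y → r c y) : ∃ α β : ZMod p, c = α • a + β • b := by
  obtain ⟨y₁, ha1, hb1⟩ := hab.exists_mem h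
  obtain ⟨y₂, hb2, ha2⟩ := hab.swap.exists_mem h
  have hb1' : ¬ r y₁ b := fun hx => hb1 (h.symm _ _ hx)
  have ha2' : ¬ r y₂ a := fun hx => ha2 (h.symm _ _ hx)
  obtain ⟨β, hβ⟩ := h.hypK c hb1'
  obtain ⟨α, hα⟩ := h.hypK (c + β • b) ha2'
  have h0 : c + β • b + α • a = 0 := by
    apply h.ndg
    intro z
    obtain ⟨k, hk⟩ := h.hypK z hb1
    obtain ⟨l, hl⟩ := h.hypK (z + k • y₁) ha2
    have hb3 : r b (z + k • y₁ + l • y₂) := h.add _ _ _ hk (h.smul hb2 l)
    have hc3 := hc _ hl hb3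
    have e1 : r (c + β • b + α • a) (z + k • y₁ + l • y₂) :=
      h.symm _ _ (h.add _ _ _ (h.add _ _ _ (h.symm _ _ hc3) (h.smul (h.symm _ _ hb3) β))
        (h.smul (h.symm _ _ hl) α))
    have e2 : r (c + β • b + α • a) y₁ :=
      h.symm _ _ (h.add _ _ _ hβ (h.smul (h.symm _ _ ha1) α))
    have e3 : r (c + β • b + α • a) y₂ := h.symm _ _ hα
    have e4 := h.add _ _ _ (h.add _ _ _ e1 (h.smul e2 (-k))) (h.smul e3 (-l))
    have e : z + k • y₁ + l • y₂ + (-k) • y₁ + (-l) • y₂ = z := by module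
    rwa [e] at e4
  refine ⟨-α, -β, ?_⟩
  have e : c = (c + β • b + α • a) + ((-α) • a + (-β) • b) := by module
  rw [h0, zero_add] at e
  exact e

/-- two functionals with the same kernel -/
theorem IsF.unique (h : Rel p r) {a : V} (ha : a ≠ 0) {f g : V →ₗ[ZMod p] ZMod p}
    (hf : IsF r a f) (hg : IsF r a g) : ∃ c : ZMod p, c ≠ 0 ∧ g = c • f := by
  have h1 : ∃ y, ¬ r a y := by
    by_contra hc
    push Not at hc
    exact ha (h.ndg a hc)
  obtain ⟨y, hy⟩ := h1
  have hfy : f y ≠ 0 := fun hc => hy ((hf y).1 hc)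
  have hgy : g y ≠ 0 := fun hc => hy ((hg y).1 hc)
  refine ⟨g y / f y, div_ne_zero hgy hfy, ?_⟩
  ext z
  obtain ⟨c, hc⟩ := h.hypK z hy
  have e1 := (hf _).2 hc
  have e2 := (hg _).2 hc
  rw [map_add, map_smul, smul_eq_mul] at e1 e2
  rw [LinearMap.smul_apply, smul_eq_mul]
  field_simp
  linear_combination f y * e2 - g y * e1

/-- the functional of a vector in the span of two others -/
theorem exists_comb (h : Rel p r) {a b c : V} (hab : Ind2 p a b) {f g k : V →ₗ[ZMod p] ZMod p}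
    (hf : IsF r a f) (hg : IsF r b g) (hk : IsF r c k) (hc : ∀ y, r a y → r b y → r c y) :
    ∃ α β : ZMod p, k = α • f + β • g := by
  obtain ⟨y₁, ha1, hb1⟩ := hab.exists_mem h
  obtain ⟨y₂, hb2, ha2⟩ := hab.swap.exists_mem h
  have hg1 : g y₁ ≠ 0 := fun hx => hb1 ((hg _).1 hx)
  have hf2 : f y₂ ≠ 0 := fun hx => ha2 ((hf _).1 hx)
  have hf1 : f y₁ = 0 := (hf _).2 ha1
  have hg2 : g y₂ = 0 := (hg _).2 hb2
  refine ⟨k y₂ / f y₂, k y₁ / g y₁, ?_⟩
  ext z
  obtain ⟨m, hm⟩ := h.hypK z hb1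
  obtain ⟨l, hl⟩ := h.hypK (z + m • y₁) ha2
  have hb3 : r b (z + m • y₁ + l • y₂) := h.add _ _ _ hm (h.smul hb2 l)
  have hc3 := (hk _).2 (hc _ hl hb3)
  have e1 := (hf _).2 hl
  have e2 := (hg _).2 hb3
  simp only [map_add, map_smul, smul_eq_mul, hf1, hg2, mul_zero, add_zero] at e1 e2 hc3
  rw [LinearMap.add_apply, LinearMap.smul_apply, LinearMap.smul_apply, smul_eq_mul, smul_eq_mul]
  have e3 : f z = -(l * f y₂) := by linear_combination e1
  have e4 : g z = -(m * g y₁) := by linear_combination e2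
  rw [e3, e4]
  field_simp
  linear_combination hc3

/-- independence of two functionals -/
theorem Ind2.fun (h : Rel p r) {a b : V} (hab : Ind2 p a b) {f g : V →ₗ[ZMod p] ZMod p}
    (hf : IsF r a f) (hg : IsF r b g) {α β : ZMod p} (h0 : α • f + β • g = 0) :
    α = 0 ∧ β = 0 := by
  obtain ⟨y₁, ha1, hb1⟩ := hab.exists_mem h
  obtain ⟨y₂, hb2, ha2⟩ := hab.swap.exists_mem h
  have hg1 : g y₁ ≠ 0 := fun hx => hb1 ((hg _).1 hx)
  have hf2 : f y₂ ≠ 0 := fun hx => ha2 ((hf _).1 hx)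
  have hf1 : f y₁ = 0 := (hf _).2 ha1
  have hg2 : g y₂ = 0 := (hg _).2 hb2
  have e1 := congrArg (fun φ : V →ₗ[ZMod p] ZMod p => φ y₁) h0
  have e2 := congrArg (fun φ : V →ₗ[ZMod p] ZMod p => φ y₂) h0
  simp only [LinearMap.add_apply, LinearMap.smul_apply, smul_eq_mul, hf1, hg2, mul_zero,
    add_zero, zero_add, LinearMap.zero_apply, mul_eq_zero] at e1 e2
  exact ⟨e2.resolve_right hf2, e1.resolve_right hg1⟩

theorem Ind3.ind12 {a b c : V} (hi : Ind3 p a b c) : Ind2 p a b := fun α β h0 => by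
  have := hi α β 0 (by rw [h0, zero_smul, zero_add])
  exact ⟨this.1, this.2.1⟩

theorem Ind3.rot {a b c : V} (hi : Ind3 p a b c) : Ind3 p b c a := fun α β γ h0 => by
  have := hi γ α β (by rw [← h0]; module)
  exact ⟨this.2.1, this.2.2, this.1⟩

theorem Ind3.swap {a b c : V} (hi : Ind3 p a b c) : Ind3 p b a c := fun α β γ h0 => by
  have := hi β α γ (by rw [← h0]; module)
  exact ⟨this.2.1, this.1, this.2.2⟩

/-- independence of three functionals, last coefficient -/
theorem Ind3.fun3 (h : Rel p r) {a b c : V} (hi : Ind3 p a b c) {f g k : V →ₗ[ZMod p] ZMod p}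
    (hf : IsF r a f) (hg : IsF r b g) (hk : IsF r c k) {α β γ : ZMod p}
    (h0 : α • f + β • g + γ • k = 0) : γ = 0 := by
  by_contra hγ
  obtain ⟨s, t, hst⟩ := h.inj2 (c := c) hi.ind12 (fun y ha hb => by
    have e := congrArg (fun φ : V →ₗ[ZMod p] ZMod p => φ y) h0
    simp only [LinearMap.add_apply, LinearMap.smul_apply, smul_eq_mul, (hf y).2 ha,
      (hg y).2 hb, mul_zero, zero_add, LinearMap.zero_apply, mul_eq_zero] at e
    exact (hk y).1 (e.resolve_left hγ))
  have := hi s t (-1) (by rw [hst]; module)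
  exact one_ne_zero (neg_eq_zero.1 this.2.2)

theorem Ind3.fun (h : Rel p r) {a b c : V} (hi : Ind3 p a b c) {f g k : V →ₗ[ZMod p] ZMod p}
    (hf : IsF r a f) (hg : IsF r b g) (hk : IsF r c k) {α β γ : ZMod p}
    (h0 : α • f + β • g + γ • k = 0) : α = 0 ∧ β = 0 ∧ γ = 0 := by
  have h3 := hi.fun3 h hf hg hk h0
  have h1 := hi.rot.fun3 h hg hk hf (α := β) (β := γ) (γ := α) (by rw [← h0]; module)
  have h2 := hi.rot.rot.fun3 h hk hf hg (α := γ) (β := α) (γ := β) (by rw [← h0]; module)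
  exact ⟨h1, h2, h3⟩

/-- the functional of a sum -/
theorem sum_comb (h : Rel p r) {a b : V} (hab : Ind2 p a b) {f g k : V →ₗ[ZMod p] ZMod p}
    (hf : IsF r a f) (hg : IsF r b g) (hk : IsF r (a + b) k) :
    ∃ α β : ZMod p, α ≠ 0 ∧ β ≠ 0 ∧ k = α • f + β • g := by
  obtain ⟨α, β, e⟩ := exists_comb h hab hf hg hk (fun y ha hb =>
    h.symm _ _ (h.add _ _ _ (h.symm _ _ ha) (h.symm _ _ hb)))
  refine ⟨α, β, ?_, ?_, e⟩
  · rintro rfl
    rw [zero_smul, zero_add] at e
    obtain ⟨c, hc⟩ := h.inj (v := a + b) hab.right_ne (fun y hy => by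
      rw [← hk y, e, LinearMap.smul_apply, (hg y).2 hy, smul_zero])
    have := hab 1 (1 + c) (by rw [← hc]; module)
    exact one_ne_zero this.1
  · rintro rfl
    rw [zero_smul, add_zero] at e
    obtain ⟨c, hc⟩ := h.inj (v := a + b) hab.left_ne (fun y hy => by
      rw [← hk y, e, LinearMap.smul_apply, (hf y).2 hy, smul_zero])
    have := hab (1 + c) 1 (by rw [← hc]; module)
    exact one_ne_zero this.2

/-- the normalised functional of `a` -/
def Nm (r : V → V → Prop) (w : V) (φ : V →ₗ[ZMod p] ZMod p) (a : V)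
    (f : V →ₗ[ZMod p] ZMod p) : Prop := IsF r a f ∧ IsF r (a + w) (f + φ)

variable {w : V} {φ : V →ₗ[ZMod p] ZMod p}

theorem Ind2.shift {a : V} (ha : Ind2 p a w) : Ind2 p (a + w) w := fun α β h0 => by
  have := ha α (α + β) (by rw [← h0]; module)
  refine ⟨this.1, ?_⟩
  have h2 := this.2
  rw [this.1, zero_add] at h2
  exact h2

theorem exists_nm (h : Rel p r) (hφ : IsF r w φ) {a : V} (ha : Ind2 p a w) :
    ∃ f, Nm r w φ a f := by
  obtain ⟨f, hf⟩ := h.exists_isF a
  obtain ⟨k, hk⟩ := h.exists_isF (a + w)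
  obtain ⟨α, β, hα, hβ, e⟩ := sum_comb h ha hf hφ hk
  refine ⟨(β⁻¹ * α) • f, hf.smul (mul_ne_zero (inv_ne_zero hβ) hα), ?_⟩
  have e1 : (β⁻¹ * α) • f + φ = β⁻¹ • k := by
    rw [e, smul_add, smul_smul, smul_smul, inv_mul_cancel₀ hβ, one_smul]
  rw [e1]
  exact hk.smul (inv_ne_zero hβ)

theorem nm_unique (h : Rel p r) (hφ : IsF r w φ) {a : V} (ha : Ind2 p a w)
    {f g : V →ₗ[ZMod p] ZMod p} (hf : Nm r w φ a f) (hg : Nm r w φ a g) : g = f := by
  obtain ⟨c, hc, e⟩ := hf.1.unique h ha.left_ne hg.1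
  obtain ⟨d, hd, e'⟩ := hf.2.unique h ha.shift.left_ne hg.2
  have e0 : (c - d) • f + (1 - d) • φ = 0 := by
    have : (c - d) • f + (1 - d) • φ = (c • f + φ) - d • (f + φ) := by module
    rw [this, ← e, e', sub_self]
  obtain ⟨h1, h2⟩ := ha.fun h hf.1 hφ e0
  have hd1 : d = 1 := (sub_eq_zero.1 h2).symm
  have hc1 : c = 1 := by rw [sub_eq_zero.1 h1, hd1]
  rw [e, hc1, one_smul]

theorem nm_add (h : Rel p r) (hφ : IsF r w φ) {a b : V} (hi : Ind3 p a b w)
    {f g : V →ₗ[ZMod p] ZMod p} (hf : Nm r w φ a f) (hg : Nm r w φ b g) :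
    Nm r w φ (a + b) (f + g) := by
  have i1 : Ind2 p (a + w) b := fun α β h0 => by
    have := hi α β α (by rw [← h0]; module)
    exact ⟨this.1, this.2.1⟩
  have i2 : Ind2 p a (b + w) := fun α β h0 => by
    have := hi α β β (by rw [← h0]; module)
    exact ⟨this.1, this.2.1⟩
  have i3 : Ind2 p (a + b) w := fun α β h0 => by
    have := hi α α β (by rw [← h0]; module)
    exact ⟨this.1, this.2.2⟩
  obtain ⟨k, hk⟩ := h.exists_isF (a + b + w)
  have hk1 : IsF r (a + w + b) k := by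
    have e : a + w + b = a + b + w := by abel
    rw [e]; exact hk
  have hk2 : IsF r (a + (b + w)) k := by
    have e : a + (b + w) = a + b + w := by abel
    rw [e]; exact hk
  obtain ⟨α, β, hα, -, e1⟩ := sum_comb h i1 hf.2 hg.1 hk1
  obtain ⟨γ, δ, -, -, e2⟩ := sum_comb h i2 hf.1 hg.2 hk2
  have e3 : (α - γ) • f + (β - δ) • g + (α - δ) • φ = 0 := by
    have : (α - γ) • f + (β - δ) • g + (α - δ) • φ =
      (α • (f + φ) + β • g) - (γ • f + δ • (g + φ)) := by module
    rw [this, ← e1, ← e2, sub_self]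
  obtain ⟨h1, h2, h3⟩ := hi.fun h hf.1 hg.1 hφ e3
  have hβ : β = α := by rw [sub_eq_zero.1 h2, ← sub_eq_zero.1 h3]
  have ek : k = α • (f + g + φ) := by
    rw [e1, hβ]; module
  have hs : IsF r (a + b + w) (f + g + φ) := by
    have e : f + g + φ = α⁻¹ • k := by
      rw [ek, smul_smul, inv_mul_cancel₀ hα, one_smul]
    rw [e]
    exact hk.smul (inv_ne_zero hα)
  refine ⟨?_, hs⟩
  obtain ⟨l, hl⟩ := h.exists_isF (a + b)
  obtain ⟨α₁, β₁, hα₁, -, e4⟩ := sum_comb h hi.ind12 hf.1 hg.1 hl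
  obtain ⟨α₂, β₂, hα₂, -, e5⟩ := sum_comb h i3 hl hφ hs
  have e6 : (1 - α₂ * α₁) • f + (1 - α₂ * β₁) • g + (1 - β₂) • φ = 0 := by
    have : (1 - α₂ * α₁) • f + (1 - α₂ * β₁) • g + (1 - β₂) • φ =
      (f + g + φ) - (α₂ • (α₁ • f + β₁ • g) + β₂ • φ) := by module
    rw [this, ← e4, ← e5, sub_self]
  obtain ⟨h4, h5, -⟩ := hi.fun h hf.1 hg.1 hφ e6
  have h6 : α₁ = β₁ := by
    apply mul_left_cancel₀ hα₂
    rw [← sub_eq_zero.1 h4, ← sub_eq_zero.1 h5]
  have e7 : f + g = α₁⁻¹ • l := by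
    rw [e4, ← h6, ← smul_add, smul_smul, inv_mul_cancel₀ hα₁, one_smul]
  rw [e7]
  exact hl.smul (inv_ne_zero hα₁)

/-- a third vector -/
theorem exists_third [FiniteDimensional (ZMod p) V] (hV : 3 ≤ finrank (ZMod p) V) {a b : V}
    (hab : Ind2 p a b) : ∃ c, Ind3 p a b c := by
  classical
  have h1 : Submodule.span (ZMod p) ({a, b} : Set V) ≠ ⊤ := by
    intro h0
    have h2 := finrank_span_le_card (R := ZMod p) ({a, b} : Set V)
    rw [h0, finrank_top] at h2
    have h3 : (({a, b} : Set V).toFinset).card ≤ 2 := by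
      rw [Set.toFinset_insert, Set.toFinset_singleton]
      exact Finset.card_le_two
    omega
  obtain ⟨c, hc⟩ : ∃ c, c ∉ Submodule.span (ZMod p) ({a, b} : Set V) := by
    by_contra hx
    push Not at hx
    exact h1 (Submodule.eq_top_iff'.2 hx)
  refine ⟨c, fun α β γ h0 => ?_⟩
  have hγ : γ = 0 := by
    by_contra hγ
    apply hc
    rw [Submodule.mem_span_pair]
    refine ⟨-(γ⁻¹ * α), -(γ⁻¹ * β), ?_⟩
    have e : c = γ⁻¹ • (α • a + β • b + γ • c) + ((-(γ⁻¹ * α)) • a + (-(γ⁻¹ * β)) • b) := by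
      rw [smul_add, smul_add, smul_smul γ⁻¹ γ, inv_mul_cancel₀ hγ]
      module
    rw [h0, smul_zero, zero_add] at e
    exact e.symm
  rw [hγ, zero_smul, add_zero] at h0
  obtain ⟨h2, h3⟩ := hab α β h0
  exact ⟨h2, h3, hγ⟩

theorem nm_add' [FiniteDimensional (ZMod p) V] (hV : 3 ≤ finrank (ZMod p) V) (h : Rel p r)
    (hφ : IsF r w φ) {a b : V} (ha : Ind2 p a w) (hb : Ind2 p b w) (hab : Ind2 p (a + b) w)
    {f g k : V →ₗ[ZMod p] ZMod p} (hf : Nm r w φ a f) (hg : Nm r w φ b g)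
    (hk : Nm r w φ (a + b) k) : k = f + g := by
  by_cases hi : Ind3 p a b w
  · exact nm_unique h hφ hab (nm_add h hφ hi hf hg) hk
  · obtain ⟨s, t, hst⟩ : ∃ s t : ZMod p, b = s • a + t • w := by
      unfold Ind3 at hi
      push Not at hi
      obtain ⟨α, β, γ, h0, h1⟩ := hi
      have hβ : β ≠ 0 := by
        rintro rfl
        rw [zero_smul, add_zero] at h0
        obtain ⟨h2, h3⟩ := ha α γ h0
        exact h1 h2 rfl h3
      refine ⟨-(β⁻¹ * α), -(β⁻¹ * γ), ?_⟩
      have e : b = β⁻¹ • (α • a + β • b + γ • w) + ((-(β⁻¹ * α)) • a + (-(β⁻¹ * γ)) • w) := by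
        rw [smul_add, smul_add, smul_smul β⁻¹ β, inv_mul_cancel₀ hβ]
        module
      rw [h0, smul_zero, zero_add] at e
      exact e
    obtain ⟨c, hc⟩ := exists_third hV ha
    have i0 : Ind2 p c w := fun α β h0 => by
      have := hc 0 β α (by rw [← h0]; module)
      exact ⟨this.2.2, this.2.1⟩
    have i1 : Ind3 p (a + b) c w := fun α β γ h0 => by
      have h1 := hc (α * (1 + s)) (α * t + γ) β (by rw [← h0, hst]; module)
      have h2 := hab α γ (by rw [← h0, h1.2.2]; module)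
      exact ⟨h2.1, h1.2.2, h2.2⟩
    have i2 : Ind3 p b c w := fun α β γ h0 => by
      have h1 := hc (α * s) (α * t + γ) β (by rw [← h0, hst]; module)
      have h2 := hb α γ (by rw [← h0, h1.2.2]; module)
      exact ⟨h2.1, h1.2.2, h2.2⟩
    have i3 : Ind3 p a (b + c) w := fun α β γ h0 => by
      have h1 := hc (α + β * s) (β * t + γ) β (by rw [← h0, hst]; module)
      have h2 := h1.1
      have h3 := h1.2.1
      rw [h1.2.2, zero_mul, add_zero] at h2
      rw [h1.2.2, zero_mul, zero_add] at h3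
      exact ⟨h2, h1.2.2, h3⟩
    have i4 : Ind2 p (a + (b + c)) w := fun α β h0 => by
      have := i3 α α β (by rw [← h0]; module)
      exact ⟨this.1, this.2.2⟩
    obtain ⟨l, hl⟩ := exists_nm h hφ i0
    have n1 := nm_add h hφ i1 hk hl
    have n2 := nm_add h hφ i3 hf (nm_add h hφ i2 hg hl)
    rw [add_assoc a b c] at n1
    have e := nm_unique h hφ i4 n1 n2
    have : k = (k + l) - l := by abel
    rw [this, ← e]
    abel

theorem nm_shift [FiniteDimensional (ZMod p) V] (hV : 3 ≤ finrank (ZMod p) V) (h : Rel p r)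
    (hφ : IsF r w φ) {a : V} (ha : Ind2 p a w) {f : V →ₗ[ZMod p] ZMod p}
    (hf : Nm r w φ a f) : Nm r w φ (a + w) (f + φ) := by
  obtain ⟨c, hc⟩ := exists_third hV ha
  have i0 : Ind2 p c w := fun α β h0 => by
    have := hc 0 β α (by rw [← h0]; module)
    exact ⟨this.2.2, this.2.1⟩
  have i1 : Ind3 p (a + w) c w := fun α β γ h0 => by
    have h1 := hc α (α + γ) β (by rw [← h0]; module)
    have h2 := h1.2.1
    rw [h1.1, zero_add] at h2
    exact ⟨h1.1, h1.2.2, h2⟩
  have i2 : Ind3 p a (c + w) w := fun α β γ h0 => by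
    have h1 := hc α (β + γ) β (by rw [← h0]; module)
    have h2 := h1.2.1
    rw [h1.2.2, zero_add] at h2
    exact ⟨h1.1, h1.2.2, h2⟩
  have i3 : Ind2 p (a + (c + w)) w := fun α β h0 => by
    have := i2 α α β (by rw [← h0]; module)
    exact ⟨this.1, this.2.2⟩
  have i4 : Ind3 p a c w := fun α β γ h0 => by
    have h1 := hc α γ β (by rw [← h0]; module)
    exact ⟨h1.1, h1.2.2, h1.2.1⟩
  obtain ⟨k, hk⟩ := exists_nm h hφ i0
  obtain ⟨f', hf'⟩ := exists_nm h hφ ha.shift
  obtain ⟨k', hk'⟩ := exists_nm h hφ i0.shift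
  have n1 := nm_add h hφ i1 hf' hk
  have n2 := nm_add h hφ i2 hf hk'
  have e0 : a + w + c = a + (c + w) := by abel
  rw [e0] at n1
  have e := nm_unique h hφ i3 n1 n2
  obtain ⟨s, hs, es⟩ := hf.2.unique h ha.shift.left_ne hf'.1
  obtain ⟨t, ht, et⟩ := hk.2.unique h i0.shift.left_ne hk'.1
  have e1 : (1 - s) • f + (t - 1) • k + (t - s) • φ = 0 := by
    have : (1 - s) • f + (t - 1) • k + (t - s) • φ =
      (f + t • (k + φ)) - (s • (f + φ) + k) := by module
    rw [this, ← es, ← et, e, sub_self]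
  obtain ⟨h1, -, -⟩ := i4.fun h hf.1 hk.1 hφ e1
  have hs1 : s = 1 := (sub_eq_zero.1 h1).symm
  rw [hs1, one_smul] at es
  rw [← es]
  exact hf'

theorem nm_shift_n [FiniteDimensional (ZMod p) V] (hV : 3 ≤ finrank (ZMod p) V) (h : Rel p r)
    (hφ : IsF r w φ) {a : V} (ha : Ind2 p a w) {f : V →ₗ[ZMod p] ZMod p}
    (hf : Nm r w φ a f) (n : ℕ) : Nm r w φ (a + n • w) (f + n • φ) := by
  induction n with
  | zero => simpa using hf
  | succ n ih =>
    have i1 : Ind2 p (a + n • w) w := fun α β h0 => by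
      rw [← Nat.cast_smul_eq_nsmul (ZMod p)] at h0
      have h1 := ha α (α * n + β) (by rw [← h0]; module)
      have h2 := h1.2
      rw [h1.1, zero_mul, zero_add] at h2
      exact ⟨h1.1, h2⟩
    have := nm_shift hV h hφ i1 ih
    rwa [add_assoc, add_assoc, ← succ_nsmul, ← succ_nsmul] at this

theorem not_ind2 {a : V} (hw : w ≠ 0) (ha : ¬ Ind2 p a w) : ∃ c : ZMod p, a = c • w := by
  unfold Ind2 at ha
  push Not at ha
  obtain ⟨α, β, h0, h1⟩ := ha
  have hα : α ≠ 0 := by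
    rintro rfl
    rw [zero_smul, zero_add] at h0
    exact h1 rfl ((smul_eq_zero.1 h0).resolve_right hw)
  refine ⟨-(α⁻¹ * β), ?_⟩
  have e : a = α⁻¹ • (α • a + β • w) + (-(α⁻¹ * β)) • w := by
    rw [smul_add, smul_smul α⁻¹ α, inv_mul_cancel₀ hα]
    module
  rw [h0, smul_zero, zero_add] at e
  exact e

end LinAux

open LinAux in
theorem stLin : StLin := by
  intro p _ V _ _ _ r hV h0 h1 h2 h3 h4
  classical
  have h : Rel p r := ⟨h0, h1, h2, h3, h4⟩
  obtain ⟨w, hw⟩ : ∃ w : V, w ≠ 0 := by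
    by_contra hc
    push Not at hc
    have : Subsingleton V := ⟨fun a b => by rw [hc a, hc b]⟩
    have := finrank_zero_of_subsingleton (R := ZMod p) (M := V)
    omega
  obtain ⟨φ, hφ⟩ := h.exists_isF w
  have hex : ∀ a : V, ∃ f : V →ₗ[ZMod p] ZMod p, Ind2 p a w → Nm r w φ a f := by
    intro a
    by_cases ha : Ind2 p a w
    · obtain ⟨f, hf⟩ := exists_nm h hφ ha
      exact ⟨f, fun _ => hf⟩
    · exact ⟨0, fun hx => absurd hx ha⟩
  choose Φ hΦ using hex
  have hli : LinearIndepOn (ZMod p) id ({w} : Set V) := LinearIndepOn.singleton hw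
  obtain ⟨ι, b, i₀, hb⟩ : ∃ (ι : Type) (b : Basis ι (ZMod p) V) (i₀ : ι), b i₀ = w := by
    refine ⟨_, Basis.extend hli, ⟨w, Basis.subset_extend hli rfl⟩, ?_⟩
    rw [Basis.extend_apply_self]
  let B : V →ₗ[ZMod p] V →ₗ[ZMod p] ZMod p :=
    b.constr (ZMod p) (fun i => if i = i₀ then φ else Φ (b i))
  have hBw : B w = φ := by
    have := b.constr_basis (ZMod p) (fun i => if i = i₀ then φ else Φ (b i)) i₀
    rw [if_pos rfl, hb] at this
    exact this
  have hBb : ∀ i, i ≠ i₀ → B (b i) = Φ (b i) := by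
    intro i hi
    have := b.constr_basis (ZMod p) (fun i => if i = i₀ then φ else Φ (b i)) i
    rw [if_neg hi] at this
    exact this
  have hcase : ∀ (u v : V), Ind2 p (u + v) w → ¬ Ind2 p u w →
      (Ind2 p v w → Φ v = B v) → Φ (u + v) = B u + B v := by
    intro u v huv hu ihv
    obtain ⟨c, rfl⟩ := not_ind2 hw hu
    have hv : Ind2 p v w := fun α β e0 => by
      have := huv α (β - α * c) (by rw [← e0]; module)
      refine ⟨this.1, ?_⟩
      have e1 := this.2
      rw [this.1, zero_mul, sub_zero] at e1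
      exact e1
    have n1 := nm_shift_n hV h hφ hv (hΦ v hv) c.val
    have e1 : v + c.val • w = c • w + v := by
      rw [← Nat.cast_smul_eq_nsmul (ZMod p), ZMod.natCast_zmod_val, add_comm]
    rw [e1] at n1
    have e2 := nm_unique h hφ huv n1 (hΦ _ huv)
    rw [e2, ihv hv, map_smul, hBw, ← Nat.cast_smul_eq_nsmul (ZMod p),
      ZMod.natCast_zmod_val, add_comm]
  have hadd : ∀ x y : V, (Ind2 p x w → Φ x = B x) → (Ind2 p y w → Φ y = B y) →
      Ind2 p (x + y) w → Φ (x + y) = B (x + y) := by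
    intro x y ihx ihy hxy
    rw [map_add]
    by_cases hx : Ind2 p x w
    · by_cases hy : Ind2 p y w
      · rw [← ihx hx, ← ihy hy]
        exact nm_add' hV h hφ hx hy hxy (hΦ x hx) (hΦ y hy) (hΦ _ hxy)
      · rw [add_comm x y, add_comm (B x)]
        exact hcase y x (by rw [add_comm]; exact hxy) hy ihx
    · exact hcase x y hxy hx ihy
  have hzero : Ind2 p (0 : V) w → Φ 0 = B 0 := fun hi => absurd rfl hi.left_ne
  have hns : ∀ (x : V) (n : ℕ), (Ind2 p x w → Φ x = B x) →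
      Ind2 p (n • x) w → Φ (n • x) = B (n • x) := by
    intro x n ih
    induction n with
    | zero => rw [zero_smul]; exact hzero
    | succ n ihn => rw [succ_nsmul]; exact hadd _ _ ihn ih
  have key : ∀ x : V, Ind2 p x w → Φ x = B x := by
    intro x
    have hx : x ∈ Submodule.span (ZMod p) (Set.range b) := by rw [b.span_eq]; trivial
    induction hx using Submodule.span_induction with
    | mem x hx =>
      obtain ⟨i, rfl⟩ := hx
      intro hi
      have hii : i ≠ i₀ := by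
        rintro rfl
        rw [hb] at hi
        have := (hi 1 (-1) (by module)).1
        exact one_ne_zero this
      exact (hBb i hii).symm
    | zero => exact hzero
    | add x y _ _ ihx ihy => exact hadd x y ihx ihy
    | smul c x _ ih =>
      have h1 : c • x = c.val • x := by
        rw [← Nat.cast_smul_eq_nsmul (ZMod p), ZMod.natCast_zmod_val]
      rw [h1]
      exact hns x c.val ih
  refine ⟨B, fun x y => ?_⟩
  by_cases hx : Ind2 p x w
  · rw [← key x hx]
    exact (hΦ x hx).1 y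
  · obtain ⟨c, rfl⟩ := not_ind2 hw hx
    rw [map_smul, hBw]
    by_cases hc : c = 0
    · subst hc
      simp only [zero_smul, LinearMap.zero_apply, true_iff]
      exact h.symm _ _ (h.zero y)
    · rw [(hφ.smul hc) y]
      constructor
      · intro hy
        exact h.symm _ _ (h.smul (h.symm _ _ hy) c)
      · intro hy
        have := h.symm _ _ (h.smul (h.symm _ _ hy) c⁻¹)
        rwa [smul_smul, inv_mul_cancel₀ hc, one_smul] at this

end Pool.Agent.Lib.MP_c385f6_ag.Cpl
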