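import Mathlib
import Pool.Agent.Lib.MP_c385f6_ag.Cpl.Stmts

set_option autoImplicit false

/-!
(MOVE) moving `y`.
-/

namespace Pool.Agent.Lib.MP_c385f6_ag.Cpl

namespace MoveAux

variable {p : ℕ} {L F : Type} [Field L] [Field F] (S : LF p L F)

theorem v_one : S.v 1 = 0 := by
  have := S.v_mul 1 1 one_ne_zero one_ne_zero
  rw [mul_one] at this
  omega

theorem v_neg (x : L) (hx : x ≠ 0) : S.v (-x) = S.v x := by
  have h1 := S.v_mul (-1) (-1) (neg_ne_zero.2 one_ne_zero) (neg_ne_zero.2 one_ne_zero)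
  rw [neg_mul_neg, mul_one, v_one] at h1
  have h2 := S.v_mul (-1) x (neg_ne_zero.2 one_ne_zero) hx
  rw [neg_one_mul] at h2
  omega

end MoveAux

open MoveAux in
theorem stMove (h1 : StChord) (_h2 : StSym) : StMove := by
  intro p hp L F _ _ S T D n y y' hn _ hPr hcl s hs t ht hs' ht'
  obtain ⟨dl_symm, -, cl_trans, dl_tri, -, -, -, cross, -⟩ := h1 p hp L F _ _ S
  have cl_symm : ∀ n x z, S.Cl n x z → S.Cl n z x := by
    rintro n x z (rfl | h)
    · exact Or.inl rfl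
    · exact Or.inr (by rw [dl_symm]; exact h)
  have hcl' : S.Cl n y y' := by
    rcases hcl with h | h
    · exact Or.inl h
    · exact Or.inr (by omega)
  have hys : ¬ S.Cl n y s := fun h => hs' (cl_trans n y' y s (cl_symm _ _ _ hcl') h)
  have hyt : ¬ S.Cl n y t := fun h => ht' (cl_trans n y' y t (cl_symm _ _ _ hcl') h)
  obtain ⟨z, hz, hD⟩ := hPr s hs t ht hys hyt
  unfold LF.Cl at hys hyt hs' ht'
  push Not at hys hyt hs' ht'
  have ys0 : y - s ≠ 0 := sub_ne_zero.2 hys.1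
  have yt0 : y - t ≠ 0 := sub_ne_zero.2 hyt.1
  have ys0' : y' - s ≠ 0 := sub_ne_zero.2 hs'.1
  have yt0' : y' - t ≠ 0 := sub_ne_zero.2 ht'.1
  -- the cross ratio is a `p`-th power
  have key : ∃ w : L, w ≠ 0 ∧ (y - s) * (y' - t) / ((y - t) * (y' - s)) = w ^ p := by
    by_cases hyy : y = y'
    · refine ⟨1, one_ne_zero, ?_⟩
      subst hyy
      rw [one_pow]
      field_simp
    by_cases hts : t = s
    · refine ⟨1, one_ne_zero, ?_⟩
      subst hts
      rw [one_pow]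
      field_simp
    obtain ⟨c1, c2⟩ := cross y y' s t hyt.1 hs'.1 hyy hts
    set X : L := (y - s) * (y' - t) / ((y - t) * (y' - s)) with hX
    have hX0 : X ≠ 0 := by
      rw [hX]
      exact div_ne_zero (mul_ne_zero ys0 yt0') (mul_ne_zero yt0 ys0')
    have hdy : n + S.e ≤ S.dl y y' := hcl.resolve_left hyy
    -- `dl y s = dl y' s`
    have e1 := dl_tri y y' s hyy hs'.1 hys.1
    have e2 := dl_tri y' y s (Ne.symm hyy) hys.1 hs'.1
    rw [dl_symm y' y] at e2
    have e3 := dl_tri t y s (Ne.symm hyt.1) hys.1 hts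
    rw [dl_symm t y] at e3
    have he : (2 : ℤ) ≤ S.e := by exact_mod_cast S.two_le
    have e4 : (S.e : ℤ) + 1 ≤ S.v (1 - X) := by
      rw [c2]
      omega
    have e5 : (S.e : ℤ) + 1 ≤ S.v (X - 1) := by
      rw [← v_neg S _ c1, neg_sub] at e4
      exact e4
    obtain ⟨w, hw⟩ := S.pow_unit X hX0 e5
    refine ⟨w, ?_, hw⟩
    rintro rfl
    apply hX0
    rw [hw, zero_pow hp.out.ne_zero]
  obtain ⟨w, hw0, hw⟩ := key
  refine ⟨w * z, mul_ne_zero hw0 hz, ?_⟩
  rw [hD, mul_pow, ← hw]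
  field_simp

end Pool.Agent.Lib.MP_c385f6_ag.Cpl
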