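import Mathlib
import Pool.Agent.Lib.MP_7c08ba_nt.Odd.NormIndex
import Pool.Agent.Lib.MP_c385f6_ag.Cpl.StLoc

set_option autoImplicit false

/-!
The norm relation: norms from `L[X] / (X ^ p - x)` for a finite extension `L` of `ℚ_[p]` which
contains the `p`-th roots of unity.
-/

namespace Pool.Agent.Lib.MP_c385f6_ag.Cpl

open Polynomial Module

namespace NRaux

section basic
variable {p : ℕ} {L : Type*} [Field L]

theorem finrank_A (hp : p ≠ 0) (x : L) :
    finrank L (AdjoinRoot (X ^ p - C x : L[X])) = p := by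
  rw [(AdjoinRoot.powerBasis' (monic_X_pow_sub_C x hp)).finrank, AdjoinRoot.powerBasis'_dim,
    natDegree_X_pow_sub_C]

theorem finite_A (hp : p ≠ 0) (x : L) :
    FiniteDimensional L (AdjoinRoot (X ^ p - C x : L[X])) :=
  (AdjoinRoot.powerBasis' (monic_X_pow_sub_C x hp)).finite

theorem root_pow (x : L) :
    (AdjoinRoot.root (X ^ p - C x : L[X])) ^ p = algebraMap L _ x := by
  have h := AdjoinRoot.aeval_eq (f := (X ^ p - C x : L[X])) (X ^ p - C x)
  rw [AdjoinRoot.mk_self, map_sub, map_pow, aeval_X, aeval_C] at h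
  exact sub_eq_zero.1 h

theorem nr_mul {x y z : L} (h : NR p x y) (h' : NR p x z) : NR p x (y * z) := by
  obtain ⟨u, rfl⟩ := h
  obtain ⟨v, rfl⟩ := h'
  exact ⟨u * v, map_mul _ u v⟩

theorem nr_pow (hp : p ≠ 0) (x y : L) : NR p x (y ^ p) :=
  ⟨algebraMap L _ y, by rw [Algebra.norm_algebraMap, finrank_A hp]⟩

/-- The value at `c`. -/
noncomputable def ev (p : ℕ) (c : L) : AdjoinRoot (X ^ p - C (c ^ p) : L[X]) →ₐ[L] L :=
  AdjoinRoot.liftAlgHom (X ^ p - C (c ^ p)) (Algebra.ofId L L) c (by simp)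

theorem ev_mk (c : L) (g : L[X]) : ev p c (AdjoinRoot.mk _ g) = g.eval c := by
  rw [← AdjoinRoot.aeval_eq, ← Polynomial.aeval_algHom_apply, ev, AdjoinRoot.liftAlgHom_root]
  rfl

theorem ev_root (c : L) : ev p c (AdjoinRoot.root _) = c := by
  rw [ev, AdjoinRoot.liftAlgHom_root]

theorem nr_split [CharZero L] (hp : p ≠ 0) {c : L} (hc : c ≠ 0) (y : L) : NR p (c ^ p) y := by
  let A := AdjoinRoot (X ^ p - C (c ^ p) : L[X])
  let r : A := AdjoinRoot.root _
  have hfin : FiniteDimensional L A := finite_A hp _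
  let s : A := ∑ i ∈ Finset.range p, r ^ i * (algebraMap L A c) ^ (p - 1 - i)
  have hs : s * (r - algebraMap L A c) = 0 := by
    have h := (Commute.all r (algebraMap L A c)).geom_sum₂_mul p
    rw [h, root_pow, ← map_pow, sub_self]
  have hev : ev p c s = p * c ^ (p - 1) := by
    rw [map_sum]
    have h1 : ∀ i ∈ Finset.range p, ev p c (r ^ i * (algebraMap L A c) ^ (p - 1 - i)) =
        c ^ (p - 1) := by
      intro i hi
      rw [Finset.mem_range] at hi
      rw [map_mul (ev p c), map_pow (ev p c), map_pow (ev p c), ev_root, AlgHom.commutes]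
      change c ^ i * c ^ (p - 1 - i) = _
      rw [← pow_add]
      congr 1
      omega
    rw [Finset.sum_congr rfl h1, Finset.sum_const, Finset.card_range, nsmul_eq_mul]
  have hne : (p * c ^ (p - 1) : L) ≠ 0 :=
    mul_ne_zero (Nat.cast_ne_zero.2 hp) (pow_ne_zero _ hc)
  have hmul : ∀ a : A, s * a = ev p c a • s := by
    intro a
    obtain ⟨g, rfl⟩ := AdjoinRoot.mk_surjective a
    obtain ⟨q, hq⟩ := X_sub_C_dvd_sub_C_eval (p := g) (a := c)
    have h1 : AdjoinRoot.mk (X ^ p - C (c ^ p)) g = algebraMap L A (g.eval c) +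
        (r - algebraMap L A c) * AdjoinRoot.mk _ q := by
      have h2 := congrArg (AdjoinRoot.mk (X ^ p - C (c ^ p))) hq
      rw [map_sub, map_mul, map_sub, AdjoinRoot.mk_C, AdjoinRoot.mk_C, AdjoinRoot.mk_X] at h2
      rw [← AdjoinRoot.algebraMap_eq] at h2
      exact sub_eq_iff_eq_add'.1 h2
    rw [ev_mk, h1, mul_add, ← mul_assoc, hs, zero_mul, add_zero, Algebra.smul_def, mul_comm]
  let f : Dual L A := ((y - 1) / (p * c ^ (p - 1))) • (ev p c).toLinearMap
  refine ⟨1 + ((y - 1) / (p * c ^ (p - 1))) • s, ?_⟩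
  have h3 : Algebra.lmul L A (1 + ((y - 1) / (p * c ^ (p - 1))) • s) =
      LinearMap.transvection f s := by
    ext a
    rw [LinearMap.transvection.apply]
    change (1 + ((y - 1) / (p * c ^ (p - 1))) • s) * a = a + (((y - 1) / (p * c ^ (p - 1))) •
      ev p c a) • s
    rw [add_mul, one_mul, smul_mul_assoc, hmul, smul_smul, smul_eq_mul]
  rw [Algebra.norm_apply]
  change LinearMap.det (Algebra.lmul L A (1 + ((y - 1) / (p * c ^ (p - 1))) • s)) = y
  rw [h3, LinearMap.transvection.det]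
  change 1 + ((y - 1) / (p * c ^ (p - 1))) • ev p c s = y
  rw [hev, smul_eq_mul, div_mul_cancel₀ _ hne]
  ring

theorem nr_mul_pow {x y z : L} (hz : z ≠ 0) (h : NR p x y) : NR p (x * z ^ p) y := by
  obtain ⟨u, rfl⟩ := h
  have e1 : (AdjoinRoot.root (X ^ p - C (x * z ^ p) : L[X]) * algebraMap L _ z⁻¹) ^ p =
      algebraMap L _ x := by
    rw [mul_pow, root_pow, ← map_pow, ← map_mul]
    congr 1
    rw [inv_pow, mul_assoc, mul_inv_cancel₀ (pow_ne_zero p hz), mul_one]
  have e2 : (AdjoinRoot.root (X ^ p - C x : L[X]) * algebraMap L _ z) ^ p =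
      algebraMap L _ (x * z ^ p) := by
    rw [mul_pow, root_pow, ← map_pow, ← map_mul]
  let f : AdjoinRoot (X ^ p - C x : L[X]) →ₐ[L] AdjoinRoot (X ^ p - C (x * z ^ p) : L[X]) :=
    AdjoinRoot.liftAlgHom (X ^ p - C x) (Algebra.ofId L _)
      (AdjoinRoot.root (X ^ p - C (x * z ^ p) : L[X]) * algebraMap L _ z⁻¹) (by
        rw [eval₂_sub, eval₂_X_pow, eval₂_C, e1]
        exact sub_self _)
  let g : AdjoinRoot (X ^ p - C (x * z ^ p) : L[X]) →ₐ[L] AdjoinRoot (X ^ p - C x : L[X]) :=
    AdjoinRoot.liftAlgHom (X ^ p - C (x * z ^ p)) (Algebra.ofId L _)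
      (AdjoinRoot.root (X ^ p - C x : L[X]) * algebraMap L _ z) (by
        rw [eval₂_sub, eval₂_X_pow, eval₂_C, e2]
        exact sub_self _)
  have hf : f (AdjoinRoot.root _) =
      AdjoinRoot.root (X ^ p - C (x * z ^ p) : L[X]) * algebraMap L _ z⁻¹ :=
    AdjoinRoot.liftAlgHom_root ..
  have hg : g (AdjoinRoot.root _) = AdjoinRoot.root (X ^ p - C x : L[X]) * algebraMap L _ z :=
    AdjoinRoot.liftAlgHom_root ..
  let e : AdjoinRoot (X ^ p - C x : L[X]) ≃ₐ[L] AdjoinRoot (X ^ p - C (x * z ^ p) : L[X]) :=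
    AlgEquiv.ofAlgHom f g
      (by
        apply AdjoinRoot.algHom_ext
        rw [AlgHom.comp_apply, hg, map_mul f, hf, AlgHom.commutes, mul_assoc,
          ← map_mul (algebraMap L _), inv_mul_cancel₀ hz, map_one, mul_one]
        rfl)
      (by
        apply AdjoinRoot.algHom_ext
        rw [AlgHom.comp_apply, hf, map_mul g, hg, AlgHom.commutes, mul_assoc,
          ← map_mul (algebraMap L _), mul_inv_cancel₀ hz, map_one, mul_one]
        rfl)
  exact ⟨e u, Algebra.norm_eq_of_algEquiv e u⟩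

end basic

section field
variable {p : ℕ} {L : Type*} [Field L]

theorem prod_gal {K : Type*} [Field K] [Algebra L K] [FiniteDimensional L K] [IsGalois L K]
    (hp : p.Prime) (hK : finrank L K = p) (σ : K ≃ₐ[L] K) (h1 : σ ≠ 1) (hσ : σ ^ p = 1) (u : K) :
    algebraMap L K (Algebra.norm L u) = ∏ m ∈ Finset.range p, (σ ^ m) u := by
  classical
  have : Fact p.Prime := ⟨hp⟩
  have ho : orderOf σ = p := orderOf_eq_prime hσ h1
  have hcard : Nat.card (K ≃ₐ[L] K) = p := by
    rw [IsGalois.card_aut_eq_finrank, hK]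
  have hz : ∀ g : K ≃ₐ[L] K, g ∈ Subgroup.zpowers σ := fun g =>
    mem_zpowers_of_prime_card hcard h1
  have him := IsCyclic.image_range_orderOf hz
  rw [ho] at him
  rw [Algebra.norm_eq_prod_automorphisms, ← him, Finset.prod_image]
  intro a ha b hb hab
  rw [Finset.coe_range, Set.mem_Iio] at ha hb
  exact pow_injOn_Iio_orderOf (by rw [ho]; exact ha) (by rw [ho]; exact hb) hab

variable {x : L} [hirr : Fact (Irreducible (X ^ p - C x : L[X]))]

theorem isGal (hp : p.Prime) {ζ : L} (hζ : IsPrimitiveRoot ζ p) :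
    IsGalois L (AdjoinRoot (X ^ p - C x : L[X])) := by
  have hne : (primitiveRoots p L).Nonempty := ⟨ζ, (mem_primitiveRoots hp.pos).2 hζ⟩
  have := isSplittingField_AdjoinRoot_X_pow_sub_C hne hirr.out
  exact isGalois_of_isSplittingField_X_pow_sub_C hne hirr.out _

theorem exists_sigma (hp : p.Prime) {ξ : L} (hξ : IsPrimitiveRoot ξ p) (hx : x ≠ 0) :
    ∃ σ : AdjoinRoot (X ^ p - C x : L[X]) ≃ₐ[L] AdjoinRoot (X ^ p - C x : L[X]),
      (∀ m : ℕ, (σ ^ m) (AdjoinRoot.root _) = algebraMap L _ (ξ ^ m) * AdjoinRoot.root _) ∧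
      ∀ u, algebraMap L _ (Algebra.norm L u) = ∏ m ∈ Finset.range p, (σ ^ m) u := by
  have hfin : FiniteDimensional L (AdjoinRoot (X ^ p - C x : L[X])) := finite_A hp.ne_zero x
  have hgal := isGal (x := x) hp hξ
  have hroot : AdjoinRoot.root (X ^ p - C x : L[X]) ≠ 0 := by
    intro h0
    have h1 := root_pow (p := p) x
    rw [h0, zero_pow hp.ne_zero] at h1
    exact hx ((map_eq_zero _).1 h1.symm)
  let f : AdjoinRoot (X ^ p - C x : L[X]) →ₐ[L] AdjoinRoot (X ^ p - C x : L[X]) :=
    AdjoinRoot.liftAlgHom (X ^ p - C x) (Algebra.ofId L _)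
      (algebraMap L _ ξ * AdjoinRoot.root (X ^ p - C x : L[X])) (by
        rw [eval₂_sub, eval₂_X_pow, eval₂_C, mul_pow, ← map_pow, hξ.pow_eq_one, map_one,
          one_mul, root_pow]
        exact sub_self _)
  have hf : f (AdjoinRoot.root _) = algebraMap L _ ξ * AdjoinRoot.root (X ^ p - C x : L[X]) :=
    AdjoinRoot.liftAlgHom_root ..
  let σ := AlgEquiv.ofBijective f (Algebra.IsAlgebraic.algHom_bijective f)
  have hσ : σ (AdjoinRoot.root _) = algebraMap L _ ξ * AdjoinRoot.root (X ^ p - C x : L[X]) := hf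
  have hm : ∀ m : ℕ, (σ ^ m) (AdjoinRoot.root _) =
      algebraMap L _ (ξ ^ m) * AdjoinRoot.root (X ^ p - C x : L[X]) := by
    intro m
    induction m with
    | zero => rw [pow_zero, pow_zero, map_one, one_mul, AlgEquiv.one_apply]
    | succ m ih =>
      rw [pow_succ', AlgEquiv.mul_apply, ih, map_mul σ, AlgEquiv.commutes, hσ, ← mul_assoc,
        ← map_mul (algebraMap L _), ← pow_succ]
  refine ⟨σ, hm, prod_gal hp (finrank_A hp.ne_zero x) σ ?_ ?_⟩
  · intro h1
    have h2 := hm 1
    rw [pow_one, pow_one, h1, AlgEquiv.one_apply] at h2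
    have h3 : algebraMap L (AdjoinRoot (X ^ p - C x : L[X])) ξ = 1 :=
      mul_right_cancel₀ hroot (by rw [← h2, one_mul])
    have h4 : ξ = 1 := (algebraMap L (AdjoinRoot (X ^ p - C x : L[X]))).injective
      (by rw [h3, map_one])
    exact hξ.ne_one hp.one_lt h4
  · have h1 := hm p
    rw [hξ.pow_eq_one, map_one, one_mul] at h1
    have h2 : ((σ ^ p : _ ≃ₐ[L] _) : AdjoinRoot (X ^ p - C x : L[X]) →ₐ[L] _) =
        AlgHom.id L _ := by
      apply AdjoinRoot.algHom_ext
      exact h1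
    ext a
    exact congrArg (fun g => g a) h2

theorem nr_one_sub_field (hp : p.Prime) {ζ : L} (hζ : IsPrimitiveRoot ζ p) (hx : x ≠ 0) :
    NR p x (1 - x) := by
  obtain ⟨σ, hσ, hN⟩ := exists_sigma (x := x) hp hζ hx
  refine ⟨1 - AdjoinRoot.root _,
    (algebraMap L (AdjoinRoot (X ^ p - C x : L[X]))).injective ?_⟩
  have h1 := X_pow_sub_C_eq_prod (hζ.map_of_injective
    (algebraMap L (AdjoinRoot (X ^ p - C x : L[X]))).injective) hp.pos (root_pow (p := p) x)
  have h2 := congrArg (eval 1) h1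
  rw [eval_sub, eval_pow, eval_X, eval_C, one_pow, eval_prod] at h2
  rw [hN, map_sub, map_one, h2]
  refine Finset.prod_congr rfl fun m _ => ?_
  rw [map_sub, map_one, hσ m, eval_sub, eval_X, eval_C, map_pow]

end field

section symmetry
variable {p : ℕ} {L : Type*} [Field L]

/-- The symmetry of the norm relation, for two elements which are not `p`-th powers. -/
theorem symm_field (hp : p.Prime) {ζ : L} (hζ : IsPrimitiveRoot ζ p) {x y : L} (hx : x ≠ 0)
    (hy : y ≠ 0) (hxi : Irreducible (X ^ p - C x : L[X]))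
    (hyi : Irreducible (X ^ p - C y : L[X])) (h : NR p x y) : NR p y x := by
  have hfx : Fact (Irreducible (X ^ p - C x : L[X])) := ⟨hxi⟩
  have hfy : Fact (Irreducible (X ^ p - C y : L[X])) := ⟨hyi⟩
  obtain ⟨u, hu⟩ := h
  let K := AdjoinRoot (X ^ p - C x : L[X])
  let K' := AdjoinRoot (X ^ p - C y : L[X])
  have hfin : FiniteDimensional L K := finite_A hp.ne_zero x
  have hfin' : FiniteDimensional L K' := finite_A hp.ne_zero y
  let α : K := AdjoinRoot.root (X ^ p - C x : L[X])
  obtain ⟨σ, hσ, hσN⟩ := exists_sigma (x := x) hp hζ hx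
  obtain ⟨τ, hτ, hτN⟩ := exists_sigma (x := y) hp hζ.inv hy
  have hζ0 : ζ ≠ 0 := hζ.ne_zero hp.ne_zero
  let j : Module.End L K := (Algebra.lmul L K u).comp σ.toLinearMap
  have hj : ∀ v : K, j v = u * σ v := fun v => rfl
  have hjm : ∀ (m : ℕ) (v : K), (j ^ m) v = (∏ i ∈ Finset.range m, (σ ^ i) u) * (σ ^ m) v := by
    intro m
    induction m with
    | zero =>
      intro v
      rw [pow_zero, pow_zero, Finset.prod_range_zero, one_mul]
      rfl
    | succ m ih =>
      intro v
      rw [pow_succ', Module.End.mul_apply, ih, hj, map_mul σ, map_prod, Finset.prod_range_succ',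
        pow_zero, AlgEquiv.one_apply, pow_succ' σ m, AlgEquiv.mul_apply]
      have h1 : ∀ i ∈ Finset.range m, σ ((σ ^ i) u) = (σ ^ (i + 1)) u := by
        intro i _
        rw [pow_succ' σ i, AlgEquiv.mul_apply]
      rw [Finset.prod_congr rfl h1]
      ring
  have hσp : σ ^ p = 1 := by
    have h1 := hσ p
    rw [hζ.pow_eq_one, map_one, one_mul] at h1
    have h2 : ((σ ^ p : _ ≃ₐ[L] _) : K →ₐ[L] _) = AlgHom.id L _ := by
      apply AdjoinRoot.algHom_ext
      exact h1
    ext a
    exact congrArg (fun g => g a) h2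
  have hjp : j ^ p = algebraMap L (Module.End L K) y := by
    apply LinearMap.ext
    intro v
    rw [hjm, ← hσN, hu, hσp, AlgEquiv.one_apply, Module.algebraMap_end_apply, Algebra.smul_def]
  have hΦ : ∀ g : L[X], (X ^ p - C y : L[X]) ∣ g → aeval j g = 0 := by
    rintro g ⟨q, rfl⟩
    rw [map_mul, map_sub, map_pow, aeval_X, aeval_C, hjp, sub_self, zero_mul]
  have hinj : ∀ g : L[X], aeval j g (1 : K) = 0 → (X ^ p - C y : L[X]) ∣ g := by
    intro g hg
    by_contra hnd
    obtain ⟨a, b, hab⟩ := (hyi.coprime_iff_not_dvd.2 hnd)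
    have h1 := congrArg (fun q => aeval j q (1 : K)) hab
    simp only [map_add, map_mul, LinearMap.add_apply, map_one, Module.End.mul_apply, hg,
      map_zero, add_zero, Module.End.one_apply] at h1
    rw [hΦ _ dvd_rfl] at h1
    simp at h1
  let ψ : K' →ₗ[L] K := (LinearMap.applyₗ (1 : K)).comp
    ((aeval j).toLinearMap.comp (AdjoinRoot.modByMonicHom (monic_X_pow_sub_C y hp.ne_zero)))
  have hψ : Function.Injective ψ := by
    rw [← LinearMap.ker_eq_bot, LinearMap.ker_eq_bot']
    intro f hf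
    have h1 := hinj _ hf
    rw [← AdjoinRoot.mk_leftInverse (monic_X_pow_sub_C y hp.ne_zero) f]
    exact AdjoinRoot.mk_eq_zero.2 h1
  have hψs : Function.Surjective ψ :=
    (LinearMap.injective_iff_surjective_of_finrank_eq_finrank (by
      rw [finrank_A hp.ne_zero, finrank_A hp.ne_zero])).1 hψ
  obtain ⟨f, hf⟩ := hψs α
  obtain ⟨g, hg⟩ : ∃ g : L[X], aeval j g (1 : K) = α := ⟨_, hf⟩
  have hcomm : ∀ (q : L[X]) (v : K), α * aeval j q v = aeval j (q.comp (C ζ⁻¹ * X)) (α * v) := by
    intro q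
    induction q using Polynomial.induction_on' with
    | add q r hq hr =>
      intro v
      rw [map_add, LinearMap.add_apply, mul_add, hq, hr, add_comp, map_add, LinearMap.add_apply]
    | monomial n a =>
      intro v
      have h1 : ∀ (n : ℕ) (v : K), α * (j ^ n) v =
          algebraMap L K (ζ⁻¹ ^ n) * (j ^ n) (α * v) := by
        intro n v
        rw [hjm, hjm, map_mul (σ ^ n), hσ n]
        have h2 : algebraMap L K (ζ⁻¹ ^ n) * algebraMap L K (ζ ^ n) = 1 := by
          rw [← map_mul, ← mul_pow, inv_mul_cancel₀ hζ0, one_pow, map_one]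
        linear_combination (-(α * (∏ i ∈ Finset.range n, (σ ^ i) u) * (σ ^ n) v)) * h2
      rw [aeval_monomial, Module.End.mul_apply, Module.algebraMap_end_apply, mul_smul_comm, h1,
        monomial_comp, mul_pow, ← C_pow, map_mul (aeval j), map_mul (aeval j), aeval_C, aeval_C,
        map_pow (aeval j), aeval_X, Module.End.mul_apply, Module.End.mul_apply, Module.algebraMap_end_apply,
        Module.algebraMap_end_apply, Algebra.smul_def (ζ⁻¹ ^ n)]
  have hpow : ∀ k : ℕ, α ^ k = aeval j (∏ m ∈ Finset.range k, g.comp (C (ζ⁻¹ ^ m) * X)) (1 : K) := by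
    intro k
    induction k with
    | zero =>
      rw [pow_zero, Finset.prod_range_zero, map_one (aeval j)]
      rfl
    | succ k ih =>
      rw [pow_succ', ih, hcomm, mul_one, prod_comp, Finset.prod_range_succ', pow_zero, C_1,
        one_mul, comp_X, map_mul (aeval j), Module.End.mul_apply, hg]
      congr 2
      refine Finset.prod_congr rfl fun m _ => ?_
      rw [comp_assoc]
      congr 1
      rw [mul_comp, C_comp, X_comp, pow_succ, C_mul, mul_assoc]
  have h1 := hinj ((∏ m ∈ Finset.range p, g.comp (C (ζ⁻¹ ^ m) * X)) - C x) (by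
    rw [map_sub, LinearMap.sub_apply, ← hpow p, aeval_C, Module.algebraMap_end_apply,
      root_pow, Algebra.smul_def, mul_one, sub_self])
  refine ⟨AdjoinRoot.mk _ g, (algebraMap L K').injective ?_⟩
  rw [hτN]
  rw [← AdjoinRoot.mk_eq_zero, map_sub, sub_eq_zero, map_prod] at h1
  change _ = AdjoinRoot.mk _ (C x)
  rw [← h1]
  refine Finset.prod_congr rfl fun m _ => ?_
  rw [← AdjoinRoot.aeval_eq, ← AdjoinRoot.aeval_eq, aeval_comp, map_mul, aeval_C, aeval_X]
  change ((τ ^ m : K' ≃ₐ[L] K') : K' →ₐ[L] K') _ = _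
  rw [← Polynomial.aeval_algHom_apply]
  congr 2
  exact hτ m

end symmetry

section index
variable {p : ℕ} [hpf : Fact p.Prime] {L : Type*} [Field L] [Algebra ℚ_[p] L]
  [FiniteDimensional ℚ_[p] L]

theorem index_p {E : Type*} [Field E] [Algebra L E] [FiniteDimensional L E] [IsGalois L E]
    (h : finrank L E = p) : (Units.map (Algebra.norm L : E →* L)).range.index = p := by
  let : Algebra ℚ_[p] E := ((algebraMap L E).comp (algebraMap ℚ_[p] L)).toAlgebra
  have : IsScalarTower ℚ_[p] L E := IsScalarTower.of_algebraMap_eq fun _ => rfl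
  have : FiniteDimensional ℚ_[p] E := Module.Finite.trans L E
  let : NormedField E := spectralNorm.normedField ℚ_[p] E
  let : NormedAlgebra ℚ_[p] E := spectralNorm.normedAlgebra ℚ_[p] E
  have : IsUltrametricDist E :=
    IsUltrametricDist.isUltrametricDist_of_isNonarchimedean_norm
      (isNonarchimedean_spectralNorm (K := ℚ_[p]) (L := E))
  exact BKGen.NormIdx.index_norm p h

/-- The norm group of a Kummer extension. -/
theorem exists_group {ζ x : L} (hζ : IsPrimitiveRoot ζ p) (hx : ∀ b, b ^ p ≠ x) :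
    ∃ H : Subgroup Lˣ, H.index = p ∧ ∀ u : Lˣ, u ∈ H ↔ NR p x u := by
  have hp := hpf.out
  have hirr : Fact (Irreducible (X ^ p - C x : L[X])) :=
    ⟨X_pow_sub_C_irreducible_of_prime hp hx⟩
  have hfin : FiniteDimensional L (AdjoinRoot (X ^ p - C x : L[X])) := finite_A hp.ne_zero x
  have hgal := isGal (x := x) hp hζ
  refine ⟨_, index_p (finrank_A hp.ne_zero x), fun u => ?_⟩
  constructor
  · rintro ⟨z, hz⟩
    exact ⟨z, by rw [← hz]; rfl⟩
  · rintro ⟨z, hz⟩
    have hz0 : z ≠ 0 := by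
      rintro rfl
      rw [Algebra.norm_zero] at hz
      exact u.ne_zero hz.symm
    exact ⟨Units.mk0 z hz0, Units.ext hz⟩

end index

end NRaux

open NRaux

/-- (N) the norm relation -/
theorem stNR : StNR := by
  intro p hpf L _ _ _ ζ hζ
  have hp := hpf.out
  have hp0 := hp.ne_zero
  have hchar : CharZero L := charZero_of_injective_algebraMap (algebraMap ℚ_[p] L).injective
  have hirr : ∀ x : L, (∀ b, b ^ p ≠ x) → Irreducible (X ^ p - C x : L[X]) := fun x hx =>
    X_pow_sub_C_irreducible_of_prime hp hx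
  have hsplit : ∀ x y : L, x ≠ 0 → NR p (x ^ p) y := fun x y hx => nr_split hp0 hx y
  refine ⟨fun x y z _ h h' => nr_mul h h', fun x y _ => nr_pow hp0 x y, hsplit,
    fun x y z _ hz h => nr_mul_pow hz h, ?_, ?_, ?_, ?_⟩
  · intro x y hx hy h
    by_cases hy' : ∃ b, b ^ p = y
    · obtain ⟨b, rfl⟩ := hy'
      refine hsplit b x ?_
      rintro rfl
      exact hy (zero_pow hp0)
    · push Not at hy'
      by_cases hx' : ∃ b, b ^ p = x
      · obtain ⟨b, rfl⟩ := hx'
        exact nr_pow hp0 y b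
      · push Not at hx'
        exact symm_field hp hζ hx hy (hirr x hx') (hirr y hy') h
  · intro x hx hx1
    by_cases hx' : ∃ b, b ^ p = x
    · obtain ⟨b, rfl⟩ := hx'
      refine hsplit b _ ?_
      rintro rfl
      exact hx (zero_pow hp0)
    · push Not at hx'
      have hfx : Fact (Irreducible (X ^ p - C x : L[X])) := ⟨hirr x hx'⟩
      exact nr_one_sub_field hp hζ hx
  · intro x y z hx hy hz h
    by_cases hx' : ∃ b, b ^ p = x
    · obtain ⟨b, rfl⟩ := hx'
      exact absurd (hsplit b y (by rintro rfl; exact hx (zero_pow hp0))) h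
    · push Not at hx'
      obtain ⟨H, hH, hmem⟩ := exists_group hζ hx'
      have h1 : (QuotientGroup.mk (Units.mk0 y hy) : Lˣ ⧸ H) ≠ 1 := by
        intro h1
        rw [QuotientGroup.eq_one_iff, hmem] at h1
        exact h h1
      obtain ⟨n, hn⟩ := mem_powers_of_prime_card (p := p) hH (g' := (QuotientGroup.mk
        (Units.mk0 z hz)⁻¹ : Lˣ ⧸ H)) h1
      refine ⟨n, ?_⟩
      have h2 : Units.mk0 z hz * Units.mk0 y hy ^ n ∈ H := by
        rw [← QuotientGroup.eq_one_iff, QuotientGroup.mk_mul, QuotientGroup.mk_pow]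
        change _ * (QuotientGroup.mk (Units.mk0 y hy) : Lˣ ⧸ H) ^ n = 1
        rw [show (QuotientGroup.mk (Units.mk0 y hy) : Lˣ ⧸ H) ^ n =
          QuotientGroup.mk (Units.mk0 z hz)⁻¹ from hn, QuotientGroup.mk_inv, mul_inv_cancel]
      rw [hmem] at h2
      exact h2
  · intro x hx h
    by_contra hcon
    push Not at hcon
    obtain ⟨H, hH, hmem⟩ := exists_group hζ (x := x) (fun b hb => hcon b hb.symm)
    have h3 : H = ⊤ := by
      rw [eq_top_iff]
      intro u _
      rw [hmem]
      exact h _ u.ne_zero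
    rw [h3, Subgroup.index_top] at hH
    exact hp.one_lt.ne hH

end Pool.Agent.Lib.MP_c385f6_ag.Cpl
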