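import Mathlib
import Pool.Agent.Lib.MP_c385f6_ag.Cpl.Stmts
import Pool.Agent.Lib.MP_c385f6_ag.Cpl.StEx

set_option autoImplicit false

/-! (T3) moving `y` corrects the last error. -/

namespace Pool.Agent.Lib.MP_c385f6_ag.Cpl

namespace T3Aux

section val

variable {p : ℕ} {L F : Type} [Field L] [Field F] (S : LF p L F)

theorem v_one : S.v 1 = 0 := by
  have := S.v_mul 1 1 one_ne_zero one_ne_zero
  rw [mul_one] at this
  omega

theorem v_negone : S.v (-1) = 0 := by
  have h0 : (-1 : L) ≠ 0 := neg_ne_zero.2 one_ne_zero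
  have := S.v_mul (-1) (-1) h0 h0
  rw [neg_mul_neg, mul_one, v_one] at this
  omega

theorem v_neg (x : L) : S.v (-x) = S.v x := by
  by_cases hx : x = 0
  · rw [hx, neg_zero]
  · have h0 : (-1 : L) ≠ 0 := neg_ne_zero.2 one_ne_zero
    have := S.v_mul (-1) x h0 hx
    rw [v_negone, zero_add, neg_one_mul] at this
    exact this

theorem v_inv {x : L} (hx : x ≠ 0) : S.v x⁻¹ = - S.v x := by
  have := S.v_mul x x⁻¹ hx (inv_ne_zero hx)
  rw [mul_inv_cancel₀ hx, v_one] at this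
  omega

theorem v_div {x y : L} (hx : x ≠ 0) (hy : y ≠ 0) : S.v (x / y) = S.v x - S.v y := by
  rw [div_eq_mul_inv, S.v_mul _ _ hx (inv_ne_zero hy), v_inv S hy]
  ring

theorem v_pow {x : L} (hx : x ≠ 0) (n : ℕ) : S.v (x ^ n) = n * S.v x := by
  induction n with
  | zero => simp [v_one S]
  | succ n ih =>
    rw [pow_succ, S.v_mul _ _ (pow_ne_zero _ hx) hx, ih]
    push_cast
    ring

theorem int_add {x y : L} (hx : 0 ≤ S.v x) (hy : 0 ≤ S.v y) : 0 ≤ S.v (x + y) := by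
  by_cases h1 : x = 0
  · rw [h1, zero_add]; exact hy
  by_cases h2 : y = 0
  · rw [h2, add_zero]; exact hx
  by_cases h3 : x + y = 0
  · rw [h3, S.v_zero]
  have := S.v_add x y h1 h2 h3
  omega

theorem int_mul {x y : L} (hx : 0 ≤ S.v x) (hy : 0 ≤ S.v y) : 0 ≤ S.v (x * y) := by
  by_cases h1 : x = 0
  · rw [h1, zero_mul, S.v_zero]
  by_cases h2 : y = 0
  · rw [h2, mul_zero, S.v_zero]
  rw [S.v_mul _ _ h1 h2]
  omega

theorem int_neg {x : L} (hx : 0 ≤ S.v x) : 0 ≤ S.v (-x) := by rwa [v_neg]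

theorem int_sub {x y : L} (hx : 0 ≤ S.v x) (hy : 0 ≤ S.v y) : 0 ≤ S.v (x - y) := by
  rw [sub_eq_add_neg]
  exact int_add S hx (int_neg S hy)

theorem int_pow {x : L} (hx : 0 ≤ S.v x) (n : ℕ) : 0 ≤ S.v (x ^ n) := by
  induction n with
  | zero => rw [pow_zero, v_one]
  | succ n ih => rw [pow_succ]; exact int_mul S ih hx

theorem int_natCast (n : ℕ) : 0 ≤ S.v (n : L) := by
  induction n with
  | zero => rw [Nat.cast_zero, S.v_zero]
  | succ n ih =>
    rw [Nat.cast_succ]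
    exact int_add S ih (by rw [v_one])

theorem int_sum {ι : Type*} (s : Finset ι) (f : ι → L) (hf : ∀ i, 0 ≤ S.v (f i)) :
    0 ≤ S.v (∑ i ∈ s, f i) := by
  classical
  induction s using Finset.induction_on with
  | empty => rw [Finset.sum_empty, S.v_zero]
  | insert a s ha ih => rw [Finset.sum_insert ha]; exact int_add S (hf a) ih

theorem h_one {w : L} (hw : w ≠ 0) : S.h 1 w = 0 := by
  have := S.h_mul_left 1 1 w one_ne_zero one_ne_zero hw
  rw [mul_one] at this
  exact (left_eq_add.1 this)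

theorem h_pow {x w : L} (hx : x ≠ 0) (hw : w ≠ 0) (n : ℕ) : S.h (x ^ n) w = n * S.h x w := by
  induction n with
  | zero => rw [pow_zero, h_one S hw, Nat.cast_zero, zero_mul]
  | succ n ih =>
    rw [pow_succ, S.h_mul_left _ _ _ (pow_ne_zero _ hx) hx hw, ih, Nat.cast_succ]
    ring

theorem h_om {w : L} (hw : w ≠ 0) (n : ℕ) : S.h (S.ω ^ n) w = n * (S.v w : ZMod p) := by
  rw [h_pow S S.om_ne hw, S.h_omega _ hw]

end val

theorem eqv_trans {L : Type} [Field L] {p : ℕ} {x y z : L} (h1 : Eqv p x y) (h2 : Eqv p y z) :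
    Eqv p x z := by
  obtain ⟨a, ha, rfl⟩ := h1
  obtain ⟨b, hb, rfl⟩ := h2
  exact ⟨b * a, mul_ne_zero hb ha, by rw [mul_pow]; ring⟩

theorem eqv_symm {L : Type} [Field L] {p : ℕ} {x y : L} (h1 : Eqv p x y) : Eqv p y x := by
  obtain ⟨a, ha, rfl⟩ := h1
  refine ⟨a⁻¹, inv_ne_zero ha, ?_⟩
  rw [mul_assoc, ← mul_pow, mul_inv_cancel₀ ha, one_pow, mul_one]

theorem eqv_pow {L : Type} [Field L] {p : ℕ} {x y : L} (h1 : Eqv p x y) (n : ℕ) :
    Eqv p (x ^ n) (y ^ n) := by
  obtain ⟨a, ha, rfl⟩ := h1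
  refine ⟨a ^ n, pow_ne_zero _ ha, ?_⟩
  rw [mul_pow, ← pow_mul, ← pow_mul, mul_comm p n]

theorem eqv_map {L k : Type} [Field L] [Field k] [Algebra k L] {p : ℕ} {x y : L}
    (h1 : Eqv p x y) (g : L ≃ₐ[k] L) : Eqv p (g x) (g y) := by
  obtain ⟨a, ha, rfl⟩ := h1
  exact ⟨g a, (map_ne_zero g).2 ha, by rw [map_mul, map_pow]⟩

end T3Aux

open T3Aux in
/-- (T3) -/
theorem stT3 (h1 : StSym) : StT3 := by
  intro p hp k L F _ _ _ _ _ _ S ζ a ϖ hE hK c y n hn hc hy hyc E hE0 hEU hEg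
  obtain ⟨-, hsep, -, -, -, hom, -, ⟨l, hl_add, hl_ne, hl⟩, -⟩ := h1 p hp L F _ _ S
  haveI := hp
  have hp2 : 2 ≤ p := hp.out.two_le
  set ι := algebraMap k L with hι
  obtain ⟨c0, hc0⟩ := hom E hE0 hEU
  have hϖ : ι ϖ ≠ 0 := (map_ne_zero ι).2 hE.pi_ne
  have hpos : 1 ≤ S.v (ι ϖ) := hE.pi_pos
  -- the point `z`
  obtain ⟨z, hz, hzi⟩ : ∃ z : k, y - c = ϖ ^ n * z ∧ 0 ≤ S.v (ι z) := by
    refine ⟨(y - c) / ϖ ^ n, ?_, ?_⟩
    · field_simp [hE.pi_ne]
    · by_cases h0 : y - c = 0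
      · rw [h0, zero_div, map_zero, S.v_zero]
      · have h2 : ι (y - c) ≠ 0 := (map_ne_zero ι).2 h0
        rw [map_div₀, map_pow, v_div S h2 (pow_ne_zero _ hϖ), v_pow S hϖ]
        rcases hyc with h3 | h3
        · exact absurd h3 h2
        · omega
  have hza_int : 0 ≤ S.v (ι z - a) := int_sub S hzi hE.a_int
  have hres : S.res (ι z - a) ≠ 0 := by
    have h2 := S.res_add (ι z) (-a) hzi (int_neg S hE.a_int)
    have h3 := S.res_add a (-a) hE.a_int (int_neg S hE.a_int)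
    have h4 : S.res (0 : L) = 0 := (S.res_zero 0 (by rw [S.v_zero])).2 (Or.inl rfl)
    rw [add_neg_cancel, h4] at h3
    intro h5
    rw [sub_eq_add_neg, h2] at h5
    exact hE.a_res z hzi (by linear_combination h5 + h3)
  have hza : ι z - a ≠ 0 := by
    intro h2
    rw [h2] at hres
    exact hres ((S.res_zero 0 (by rw [S.v_zero])).2 (Or.inl rfl))
  have hza_v : S.v (ι z - a) = 0 := by
    by_contra h2
    exact hres ((S.res_zero _ hza_int).2 (Or.inr (by omega)))
  have hden : ι y - ι c - ι ϖ ^ n * a = ι ϖ ^ n * (ι z - a) := by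
    have h2 := congrArg ι hz
    rw [map_sub, map_mul, map_pow] at h2
    rw [h2]
    ring
  have hden0 : ι y - ι c - ι ϖ ^ n * a ≠ 0 := by
    rw [hden]
    exact mul_ne_zero (pow_ne_zero _ hϖ) hza
  -- the ratio
  have hratio : ∀ (m : ℕ) (η : k), n ≤ m → (ι (y + ϖ ^ m * η) - ι c - ι ϖ ^ n * a) /
      (ι y - ι c - ι ϖ ^ n * a) = 1 + ι ϖ ^ (m - n) * (ι η * (ι z - a)⁻¹) := by
    intro m η hm
    have e1 : ι (y + ϖ ^ m * η) - ι c - ι ϖ ^ n * a =
        (ι y - ι c - ι ϖ ^ n * a) + ι ϖ ^ m * ι η := by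
      rw [map_add, map_mul, map_pow]
      ring
    have e2 : ι ϖ ^ m = ι ϖ ^ n * ι ϖ ^ (m - n) := by
      rw [← pow_add]
      congr 1
      omega
    rw [e1, add_div, div_self hden0, hden, e2]
    congr 1
    field_simp
  -- the general shape of the answer
  have hint : ∀ (m : ℕ) (η : k), 0 ≤ S.v (ι η) → 0 ≤ S.v (ι (y + ϖ ^ m * η)) := by
    intro m η hη
    rw [map_add, map_mul, map_pow]
    exact int_add S hy (int_mul S (int_pow S (by omega) _) hη)
  have hgz : ∀ (m : ℕ) (η : k), 0 ≤ S.v (ι η) → (n : ℤ) * S.v (ι ϖ) + S.e ≤ m * S.v (ι ϖ) →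
      S.Gz (n * S.v (ι ϖ) + S.e) (ι (y + ϖ ^ m * η - y)) := by
    intro m η hη hm
    rw [add_sub_cancel_left, map_mul, map_pow]
    by_cases h0 : ι η = 0
    · left
      rw [h0, mul_zero]
    · right
      rw [S.v_mul _ _ (pow_ne_zero _ hϖ) h0, v_pow S hϖ]
      omega
  rcases hK with ⟨g, hga, hgζ⟩ | ⟨hv1, hfix, htr⟩
  · -- first kind: `E` is trivial
    obtain ⟨i, hip, hi⟩ := hE.prim.eq_pow_of_pow_eq_one (ξ := g ζ) (by
      rw [← map_pow, hE.prim.pow_eq_one, map_one])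
    have e1 : Eqv p (S.ω ^ c0) ((S.ω ^ i) ^ c0) := by
      have e2 := eqv_map (hc0) g
      rw [map_pow] at e2
      have e3 := eqv_pow (hE.cyc g i hi.symm) c0
      exact eqv_trans (eqv_symm hc0) (eqv_trans (eqv_symm (hEg g hga)) (eqv_trans e2 e3))
    have e4 := (hsep _ _ 1 (pow_ne_zero _ S.om_ne)
      (pow_ne_zero _ (pow_ne_zero _ S.om_ne)) one_ne_zero).1 e1 S.π S.pi_ne
    rw [← pow_mul, h_om S S.pi_ne, h_om S S.pi_ne, S.v_pi] at e4
    push_cast at e4
    rw [mul_one, mul_one] at e4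
    have e5 : (c0 : ZMod p) = 0 := by
      have e6 : ((i : ZMod p) - 1) * (c0 : ZMod p) = 0 := by linear_combination -e4
      rcases mul_eq_zero.1 e6 with e7 | e7
      · exfalso
        have e8 : ((i : ℕ) : ZMod p) = ((1 : ℕ) : ZMod p) := by
          rw [Nat.cast_one]
          linear_combination e7
        rw [ZMod.natCast_eq_natCast_iff', Nat.mod_eq_of_lt hip,
          Nat.mod_eq_of_lt (by omega)] at e8
        rw [e8, pow_one] at hi
        exact hgζ hi.symm
      · exact e7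
    have e9 : Eqv p E 1 := by
      refine (hsep E 1 1 hE0 one_ne_zero one_ne_zero).2 fun w hw => ?_
      rw [(hsep E (S.ω ^ c0) 1 hE0 (pow_ne_zero _ S.om_ne) one_ne_zero).1 hc0 w hw,
        h_om S hw, e5, zero_mul, h_one S hw]
    by_cases hy0 : y = 0
    · refine ⟨y + ϖ ^ (n + S.e + 1) * 1, ?_, hint _ _ (by rw [map_one, v_one]), ?_, ?_⟩
      · rw [hy0, zero_add, mul_one]
        exact pow_ne_zero _ hE.pi_ne
      · refine hgz _ _ (by rw [map_one, v_one]) ?_
        push_cast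
        nlinarith [Int.natCast_nonneg S.e]
      · rw [hratio _ _ (by omega)]
        refine eqv_trans e9 (eqv_symm ?_)
        have e10 : ι (1 : k) * (ι z - a)⁻¹ ≠ 0 := by
          rw [map_one, one_mul]
          exact inv_ne_zero hza
        have e11 : S.v (ι ϖ ^ (n + S.e + 1 - n) * (ι (1 : k) * (ι z - a)⁻¹)) =
            (S.e + 1 : ℕ) * S.v (ι ϖ) := by
          rw [S.v_mul _ _ (pow_ne_zero _ hϖ) e10, v_pow S hϖ, map_one, one_mul, v_inv S hza, hza_v]
          rw [show n + S.e + 1 - n = S.e + 1 by omega]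
          ring
        have e12 : (1 : L) + ι ϖ ^ (n + S.e + 1 - n) * (ι (1 : k) * (ι z - a)⁻¹) ≠ 0 := by
          intro h0
          have h2 : ι ϖ ^ (n + S.e + 1 - n) * (ι (1 : k) * (ι z - a)⁻¹) = -1 := by
            linear_combination h0
          rw [h2, v_negone] at e11
          push_cast at e11
          nlinarith [Int.natCast_nonneg S.e]
        obtain ⟨t, ht⟩ := S.pow_unit _ e12 (by
          rw [add_sub_cancel_left, e11]
          push_cast
          nlinarith [Int.natCast_nonneg S.e])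
        refine ⟨t, ?_, by rw [one_mul]; exact ht⟩
        rintro rfl
        rw [zero_pow (by omega)] at ht
        exact e12 ht
    · refine ⟨y, hy0, hy, ?_, ?_⟩
      · left
        rw [sub_self, map_zero]
      · rw [div_self hden0]
        exact e9
  · -- second kind
    set κ : L := (ι ϖ / S.π) ^ S.e with hκ
    have hκ0 : κ ≠ 0 := pow_ne_zero _ (div_ne_zero hϖ S.pi_ne)
    have hκv : S.v κ = 0 := by
      rw [hκ, v_pow S (div_ne_zero hϖ S.pi_ne), v_div S hϖ S.pi_ne, hv1, S.v_pi]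
      ring
    have hκe : κ * S.π ^ S.e = ι ϖ ^ S.e := by
      rw [hκ, div_pow, div_mul_cancel₀ _ (pow_ne_zero _ S.pi_ne)]
    set Λ : L → ZMod p := fun x => l (S.res (κ * x)) with hΛ
    have hκi : 0 ≤ S.v κ := by rw [hκv]
    have hΛ_add : ∀ x x', 0 ≤ S.v x → 0 ≤ S.v x' → Λ (x + x') = Λ x + Λ x' := by
      intro x x' hx hx'
      simp only [hΛ]
      rw [mul_add, S.res_add _ _ (int_mul S hκi hx) (int_mul S hκi hx'), hl_add]
    have hl0 : l 0 = 0 := by
      have := hl_add 0 0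
      rw [add_zero] at this
      exact (left_eq_add.1 this)
    have hres0 : S.res (0 : L) = 0 := (S.res_zero 0 (by rw [S.v_zero])).2 (Or.inl rfl)
    have hΛ0 : Λ 0 = 0 := by
      simp only [hΛ]
      rw [mul_zero, hres0, hl0]
    have hΛ_sum : ∀ (s : Finset (L ≃ₐ[k] L)) (f : (L ≃ₐ[k] L) → L), (∀ i, 0 ≤ S.v (f i)) →
        Λ (∑ i ∈ s, f i) = ∑ i ∈ s, Λ (f i) := by
      classical
      intro s f hf
      induction s using Finset.induction_on with
      | empty => rw [Finset.sum_empty, Finset.sum_empty, hΛ0]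
      | insert b s hb ih =>
        rw [Finset.sum_insert hb, Finset.sum_insert hb, hΛ_add _ _ (hf b) (int_sum S s f hf), ih]
    have hΛ_nat : ∀ (j : ℕ) (x : L), 0 ≤ S.v x → Λ ((j : L) * x) = j * Λ x := by
      intro j x hx
      induction j with
      | zero => rw [Nat.cast_zero, zero_mul, hΛ0, Nat.cast_zero, zero_mul]
      | succ j ih =>
        rw [Nat.cast_succ, add_mul, one_mul, hΛ_add _ _ (int_mul S (int_natCast S j) hx) hx, ih,
          Nat.cast_succ]
        ring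
    have hne : ∀ x, 0 ≤ S.v x → (1 : L) + ι ϖ ^ S.e * x ≠ 0 := by
      intro x hx h0
      have h2 : ι ϖ ^ S.e * x = -1 := by linear_combination h0
      have hx0 : x ≠ 0 := by
        rintro rfl
        rw [mul_zero] at h2
        exact absurd h2.symm (neg_ne_zero.2 one_ne_zero)
      have h3 := congrArg S.v h2
      rw [S.v_mul _ _ (pow_ne_zero _ hϖ) hx0, v_pow S hϖ, v_negone, hv1] at h3
      have := S.two_le
      omega
    have hh : ∀ x, 0 ≤ S.v x → ∀ w, w ≠ 0 →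
        S.h (1 + ι ϖ ^ S.e * x) w = Λ x * (S.v w : ZMod p) := by
      intro x hx w hw
      have := hl (κ * x) (int_mul S hκi hx) w hw
      rw [show κ * x * S.π ^ S.e = ι ϖ ^ S.e * x by rw [← hκe]; ring] at this
      exact this
    have hEq : ∀ x, 0 ≤ S.v x → ∀ m : ℕ, Λ x = (m : ZMod p) →
        Eqv p (S.ω ^ m) (1 + ι ϖ ^ S.e * x) := by
      intro x hx m hm
      refine (hsep _ _ 1 (pow_ne_zero _ S.om_ne) (hne x hx) one_ne_zero).2 fun w hw => ?_
      rw [h_om S hw, hh x hx w hw, hm]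
    -- invariance
    have hinv : ∀ (g : L ≃ₐ[k] L) (x : L), 0 ≤ S.v x → Λ (g x) = Λ x := by
      intro g x hx
      have hgx : 0 ≤ S.v (g x) := by rw [hE.inv]; exact hx
      obtain ⟨m, hm⟩ : ∃ m : ℕ, Λ x = (m : ZMod p) := ⟨(Λ x).val, (ZMod.natCast_zmod_val _).symm⟩
      have e1 := eqv_map (hEq x hx m hm) g
      have e2 : g (1 + ι ϖ ^ S.e * x) = 1 + ι ϖ ^ S.e * g x := by
        rw [map_add, map_mul, map_pow, map_one, hι, AlgEquiv.commutes]
      rw [e2, map_pow] at e1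
      have e3 := eqv_pow (hE.cyc g 1 (by rw [pow_one]; exact hfix g)) m
      rw [pow_one] at e3
      have e4 := eqv_trans (eqv_symm e1) e3
      have e5 := (hsep _ _ 1 (hne _ hgx) (pow_ne_zero _ S.om_ne) one_ne_zero).1 e4 S.π S.pi_ne
      rw [hh _ hgx _ S.pi_ne, h_om S S.pi_ne, S.v_pi] at e5
      push_cast at e5
      rw [mul_one, mul_one] at e5
      rw [e5, hm]
    -- traces
    have hcard : (Finset.univ : Finset (L ≃ₐ[k] L)).card = Module.finrank k L := by
      rw [Finset.card_univ, ← Nat.card_eq_fintype_card]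
      exact IsGalois.card_aut_eq_finrank k L
    have htrace : ∀ (η : k) (x : L), 0 ≤ S.v (ι η) → 0 ≤ S.v x →
        Λ (ι η * ι (Algebra.trace k L x)) = (Module.finrank k L : ZMod p) * Λ (ι η * x) := by
      intro η x hη hx
      rw [hι, trace_eq_sum_automorphisms, Finset.mul_sum, hΛ_sum _ _ (fun g => int_mul S hη (by
        rw [hE.inv]; exact hx))]
      have e1 : ∀ g ∈ (Finset.univ : Finset (L ≃ₐ[k] L)),
          Λ (algebraMap k L η * g x) = Λ (ι η * x) := by
        intro g _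
        rw [← hinv g (ι η * x) (int_mul S hη hx), map_mul, hι, AlgEquiv.commutes]
      rw [Finset.sum_congr rfl e1, Finset.sum_const, hcard, nsmul_eq_mul]
    have htrace_int : ∀ x : L, 0 ≤ S.v x → 0 ≤ S.v (ι (Algebra.trace k L x)) := by
      intro x hx
      rw [hι, trace_eq_sum_automorphisms]
      exact int_sum S _ _ (fun g => by rw [hE.inv]; exact hx)
    have hdeg : (Module.finrank k L : ZMod p) ≠ 0 := by
      intro h0
      exact hE.deg ((ZMod.natCast_eq_zero_iff _ _).1 h0)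
    -- `Λ` is not zero on the integers of `k`
    obtain ⟨η0, hη0i, hη0⟩ : ∃ η0 : k, 0 ≤ S.v (ι η0) ∧ Λ (ι η0) ≠ 0 := by
      obtain ⟨b, hb⟩ := hl_ne
      obtain ⟨x, hx, hxb⟩ := S.res_surj b
      refine ⟨Algebra.trace k L (κ⁻¹ * x), htrace_int _ (int_mul S (by
        rw [v_inv S hκ0, hκv, neg_zero]) hx), ?_⟩
      have e1 := htrace 1 (κ⁻¹ * x) (by rw [map_one, v_one]) (int_mul S (by
        rw [v_inv S hκ0, hκv, neg_zero]) hx)
      rw [map_one, one_mul, one_mul] at e1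
      rw [e1]
      refine mul_ne_zero hdeg ?_
      simp only [hΛ]
      rw [← mul_assoc, mul_inv_cancel₀ hκ0, one_mul, hxb]
      exact hb
    set w : L := (ι z - a)⁻¹ with hw
    have hwi : 0 ≤ S.v w := by rw [hw, v_inv S hza, hza_v, neg_zero]
    set τ : k := Algebra.trace k L w with hτ
    have hτi : 0 ≤ S.v (ι τ) := htrace_int w hwi
    have hτr : S.res (ι τ) ≠ 0 := htr z hzi
    have hτ0 : ι τ ≠ 0 := by
      intro h0
      rw [h0, hres0] at hτr
      exact hτr rfl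
    have hτv : S.v (ι τ) = 0 := by
      by_contra h2
      exact hτr ((S.res_zero _ hτi).2 (Or.inr (by omega)))
    have hτk : τ ≠ 0 := (map_ne_zero ι).1 hτ0
    have hτinv : 0 ≤ S.v (ι τ⁻¹) := by
      rw [map_inv₀, v_inv S hτ0, hτv, neg_zero]
    obtain ⟨j, hj⟩ : ∃ j : ℕ, (j : ZMod p) * Λ (ι η0) =
        (Module.finrank k L : ZMod p) * (c0 : ZMod p) := by
      refine ⟨((Module.finrank k L : ZMod p) * (c0 : ZMod p) * (Λ (ι η0))⁻¹).val, ?_⟩
      rw [ZMod.natCast_zmod_val]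
      field_simp
    set η : k := (j : k) * η0 * τ⁻¹ with hη
    have hjη : 0 ≤ S.v (ι ((j : k) * η0)) := by
      rw [map_mul, map_natCast]
      exact int_mul S (int_natCast S j) hη0i
    have hηi : 0 ≤ S.v (ι η) := by
      rw [hη, map_mul]
      exact int_mul S hjη hτinv
    have hηΛ : Λ (ι η * w) = (c0 : ZMod p) := by
      have e1 := htrace η w hηi hwi
      rw [← hτ, ← map_mul, hη, mul_assoc ((j : k) * η0), inv_mul_cancel₀ hτk, mul_one, map_mul,
        map_natCast, hΛ_nat j _ hη0i, hj, ← hη] at e1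
      exact (mul_left_cancel₀ hdeg e1).symm
    -- the answer
    have hfin : ∀ η' : k, 0 ≤ S.v (ι η') → Λ (ι η' * w) = (c0 : ZMod p) →
        y + ϖ ^ (n + S.e) * η' ≠ 0 → ∃ y' : k, y' ≠ 0 ∧ 0 ≤ S.v (ι y') ∧
        S.Gz (n * S.v (ι ϖ) + S.e) (ι (y' - y)) ∧
        Eqv p E ((ι y' - ι c - ι ϖ ^ n * a) / (ι y - ι c - ι ϖ ^ n * a)) := by
      intro η' hη' hΛ' hne'
      refine ⟨y + ϖ ^ (n + S.e) * η', hne', hint _ _ hη', hgz _ _ hη' ?_, ?_⟩
      · rw [hv1]
        push_cast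
        omega
      · rw [hratio _ _ (by omega), show n + S.e - n = S.e by omega]
        exact eqv_trans hc0 (hEq _ (int_mul S hη' hwi) c0 hΛ')
    by_cases hz0 : y + ϖ ^ (n + S.e) * η = 0
    · have hϖi : 0 ≤ S.v (ι ϖ) := by omega
      refine hfin (η + ϖ) (by rw [map_add]; exact int_add S hηi hϖi) ?_ ?_
      · rw [map_add, add_mul, hΛ_add _ _ (int_mul S hηi hwi) (int_mul S hϖi hwi), hηΛ]
        have e1 : Λ (ι ϖ * w) = 0 := by
          simp only [hΛ]
          have e2 : S.res (κ * (ι ϖ * w)) = 0 := by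
            refine (S.res_zero _ (int_mul S hκi (int_mul S hϖi hwi))).2 (Or.inr ?_)
            have hw0 : w ≠ 0 := inv_ne_zero hza
            rw [S.v_mul _ _ hκ0 (mul_ne_zero hϖ hw0), S.v_mul _ _ hϖ hw0]
            omega
          rw [e2, hl0]
        rw [e1, add_zero]
      · rw [mul_add, ← add_assoc, hz0, zero_add]
        exact mul_ne_zero (pow_ne_zero _ hE.pi_ne) hE.pi_ne
    · exact hfin η hηi hηΛ hz0

end Pool.Agent.Lib.MP_c385f6_ag.Cpl
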