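import Mathlib
import Pool.Agent.Lib.MP_c385f6_ag.Cpl.StCof
import Pool.Agent.Lib.MP_c385f6_ag.Cpl.Sym
import Pool.Agent.Lib.MP_c385f6_ag.Cpl.Chord
import Pool.Agent.Lib.MP_c385f6_ag.Cpl.Desc
import Pool.Agent.Lib.MP_c385f6_ag.Cpl.Cpl
import Pool.Agent.Lib.MP_c385f6_ag.Cpl.T3

set_option autoImplicit false

/-!
(W7) a rational branch point far out: correction of `y`.
-/

namespace Pool.Agent.Lib.MP_c385f6_ag.Cpl

open Polynomial Module

namespace RatAux

open CplAux

section loc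

variable {p : ℕ} {L F : Type} [Field L] [Field F] (S : LF p L F)

/-- close elements have the same class -/
theorem eqv_close {x y : L} (hy : y ≠ 0) (h : S.Gz (S.v y + S.e + 1) (x - y)) : Eqv p x y := by
  have h1 : S.Un (S.e + 1) (1 + (x - y) / y) := by
    rw [SymAux.un_iff S _ (by omega)]
    rcases eq_or_ne (x - y) 0 with h0 | h0
    · left
      rw [h0, zero_div]
    · right
      rw [SymAux.v_div S _ _ h0 hy]
      have := h.resolve_left h0
      omega
  obtain ⟨z, hz, h2⟩ := SymAux.un_pow S h1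
  refine ⟨z, hz, ?_⟩
  rw [← h2, mul_add, mul_one, mul_div_cancel₀ _ hy]
  ring

/-- the symbol depends only on the classes -/
theorem h_congr [Fact p.Prime] {x x' w w' : L} (hx : x' ≠ 0) (hw : w' ≠ 0)
    (h : Eqv p x x') (h' : Eqv p w w') : S.h x w = S.h x' w' := by
  obtain ⟨z, hz, rfl⟩ := h
  obtain ⟨z', hz', rfl⟩ := h'
  have e1 : w' * z' ^ p ≠ 0 := mul_ne_zero hw (pow_ne_zero _ hz')
  rw [S.h_mul_left _ _ _ hx (pow_ne_zero _ hz) e1, SymAux.h_pow_p_left S z _ hz e1, add_zero,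
    S.h_mul_right _ _ _ hx hw (pow_ne_zero _ hz'), SymAux.h_pow_p_right S x' z' hx hz', add_zero]

/-- classes orthogonal to the principal units which are fixed by an automorphism moving `ζ` are
trivial -/
theorem om_triv [hp : Fact p.Prime] (h1 : StSym) {k : Type} [Field k] [Algebra k L] {ζ a : L}
    {ϖ : k} (hE : Ext p k L F S ζ a ϖ) (g : L ≃ₐ[k] L) (hg : g ζ ≠ ζ) {E : L} (hE0 : E ≠ 0)
    (hEU : ∀ u, S.Un 1 u → S.h E u = 0) (hEg : Eqv p (g E) E) : Eqv p E 1 := by
  obtain ⟨-, hsep, -, -, -, hom, -⟩ := h1 p hp L F _ _ S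
  have hp2 : 2 ≤ p := hp.out.two_le
  obtain ⟨c0, hc0⟩ := hom E hE0 hEU
  obtain ⟨i, hip, hi⟩ := hE.prim.eq_pow_of_pow_eq_one (ξ := g ζ) (by
    rw [← map_pow, hE.prim.pow_eq_one, map_one])
  have e1 : Eqv p (S.ω ^ c0) ((S.ω ^ i) ^ c0) := by
    have e2 := T3Aux.eqv_map (hc0) g
    rw [map_pow] at e2
    have e3 := T3Aux.eqv_pow (hE.cyc g i hi.symm) c0
    exact etrans (esymm hc0) (etrans (esymm hEg) (etrans e2 e3))
  have e4 := (hsep _ _ 1 (pow_ne_zero _ S.om_ne)
    (pow_ne_zero _ (pow_ne_zero _ S.om_ne)) one_ne_zero).1 e1 S.π S.pi_ne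
  rw [← pow_mul, T3Aux.h_om S S.pi_ne, T3Aux.h_om S S.pi_ne, S.v_pi] at e4
  push_cast at e4
  rw [mul_one, mul_one] at e4
  have e5 : (c0 : ZMod p) = 0 := by
    have e6 : ((i : ZMod p) - 1) * (c0 : ZMod p) = 0 := by linear_combination -e4
    rcases mul_eq_zero.1 e6 with e7 | e7
    · exfalso
      have e8 : ((i : ℕ) : ZMod p) = ((1 : ℕ) : ZMod p) := by
        rw [Nat.cast_one]
        linear_combination e7
      rw [ZMod.natCast_eq_natCast_iff', Nat.mod_eq_of_lt hip,
        Nat.mod_eq_of_lt (by omega)] at e8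
      rw [e8, pow_one] at hi
      exact hg hi.symm
    · exact e7
  refine (hsep E 1 1 hE0 one_ne_zero one_ne_zero).2 fun w hw => ?_
  rw [(hsep E (S.ω ^ c0) 1 hE0 (pow_ne_zero _ S.om_ne) one_ne_zero).1 hc0 w hw,
    T3Aux.h_om S hw, e5, zero_mul, T3Aux.h_one S hw]

theorem v_le_dl {x : L} (hx : 0 ≤ S.v x) (t : L) : S.v (x - t) ≤ S.dl x t := by
  unfold LF.dl
  omega

/-- classes of integral elements -/
theorem gz_of_cl {n : ℤ} (hn : 1 ≤ n) {x t : L} (hx : 0 ≤ S.v x) (h : S.Cl n x t) :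
    0 ≤ S.v t ∧ S.Gz n (t - x) := by
  rcases h with rfl | h
  · exact ⟨hx, Or.inl (sub_self _)⟩
  · have ht : 0 ≤ S.v t := by
      by_contra h0
      have h1 : S.dl t x = - min 0 (S.v x) := ChordAux.dl_of_lt S (by omega)
      rw [ChordAux.dl_comm] at h1
      omega
    refine ⟨ht, Or.inr ?_⟩
    unfold LF.dl at h
    rw [ChordAux.v_sub_comm] at h
    omega

theorem cl_symm {n : ℤ} {x y : L} (h : S.Cl n x y) : S.Cl n y x := by
  rcases h with h | h
  · exact Or.inl h.symm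
  · exact Or.inr (by rwa [ChordAux.dl_comm])

/-- a point of the net at distance zero -/
theorem exists_far {T : Set L} {m : ℤ} (hm : 1 ≤ m) (hT : S.Net T m) {τ : L}
    (hτ : 0 ≤ S.v τ) : ∃ u ∈ T, S.v (τ - u) ≤ 0 := by
  obtain ⟨x, hx, hdl⟩ := ChordAux.exists_dl S τ (n := 0) le_rfl
  obtain ⟨u, hu, hcl⟩ := hT x
  refine ⟨u, hu, (v_le_dl S hτ u).trans ?_⟩
  by_contra h0
  have h1 : S.Cl 1 τ u := Or.inr (by omega)
  have h2 : S.Cl 1 u x := by
    rcases hcl with h | h
    · exact Or.inl h.symm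
    · exact Or.inr (by rw [ChordAux.dl_comm]; omega)
  rcases ChordAux.cl_trans S h1 h2 with h | h
  · exact hx h.symm
  · omega

/-- the class `G` is orthogonal to the units of level `max 1 (a - m + 1)` -/
theorem ortho_desc [Fact p.Prime] {T : Set L} {m : ℤ} (hm : 1 ≤ m) (hT : S.Net T m) {y τ G : L}
    (hτ : 0 ≤ S.v τ) (hyτ : y ≠ τ) (ha : S.e + 1 ≤ S.v (y - τ)) (hG : G ≠ 0)
    (hyT : y ∉ T) (hτT : τ ∉ T)
    (hρ : ∀ t ∈ T, S.h G ((y - t) / (τ - t)) = 0) :
    ∀ n : ℤ, 1 ≤ n → S.v (y - τ) - m + 1 ≤ n → ∀ u, S.Un n u → S.h G u = 0 := by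
  have key : ∀ j : ℕ, ∀ n : ℤ, S.e + 1 - n ≤ j → 1 ≤ n → S.v (y - τ) - m + 1 ≤ n →
      ∀ u, S.Un n u → S.h G u = 0 := by
    intro j
    induction j with
    | zero =>
      intro n hn _ _ u hu
      refine SymAux.h_un_right S ⟨hu.1, hu.2.imp_right fun h => ?_⟩ hG
      push_cast at hn
      omega
    | succ j ih =>
      intro n hn hn1 hn2 u hu
      by_cases hlt : S.Un (n + 1) u
      · exact ih (n + 1) (by push_cast at hn; omega) (by omega) (by omega) u hlt
      by_cases hne : (S.e : ℤ) + 1 ≤ n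
      · exact SymAux.h_un_right S ⟨hu.1, hu.2.imp_right fun h => by omega⟩ hG
      have hu1 : u ≠ 1 := fun h => hlt ⟨hu.1, Or.inl h⟩
      have hu1' : u - 1 ≠ 0 := sub_ne_zero.2 hu1
      have hvu : S.v (u - 1) = n := by
        have h3 := hu.2.resolve_left hu1
        by_contra h4
        exact hlt ⟨hu.1, Or.inr (by omega)⟩
      have hyτ' : y - τ ≠ 0 := sub_ne_zero.2 hyτ
      set w : L := (y - τ) / (u - 1) with hw
      have hw0 : w ≠ 0 := div_ne_zero hyτ' hu1'
      have hvw : S.v w = S.v (y - τ) - n := by rw [hw, SymAux.v_div S _ _ hyτ' hu1', hvu]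
      have hint : 0 ≤ S.v (τ - w) := by
        rw [sub_eq_add_neg]
        exact SymAux.int_add S hτ (by rw [SymAux.v_neg]; omega)
      obtain ⟨t, ht, hcl⟩ := hT (τ - w)
      obtain ⟨-, hδ⟩ := gz_of_cl S hm hint hcl
      set δ : L := t - (τ - w) with hδd
      have hτt : τ - t = w - δ := by rw [hδd]; ring
      have hτt0 : w - δ ≠ 0 := by
        rw [← hτt]
        exact sub_ne_zero.2 fun h => hτT (h ▸ ht)
      have hyt0 : y - t ≠ 0 := sub_ne_zero.2 fun h => hyT (h ▸ ht)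
      have hvτt : S.v (w - δ) = S.v (y - τ) - n := by
        rw [ChordAux.v_sub_lt S hw0 (hδ.imp_right fun h => by omega), hvw]
      have hu2 : u = 1 + (y - τ) / w := by
        rw [hw]
        field_simp
        ring
      have hρ1 : (y - t) / (τ - t) = 1 + (y - τ) / (w - δ) := by
        rw [hτt, show y - t = (w - δ) + (y - τ) by rw [← hτt]; ring, add_div, div_self hτt0]
      have hu20 : 1 + (y - τ) / w ≠ 0 := by rw [← hu2]; exact hu.1
      have hρ0 : 1 + (y - τ) / (w - δ) ≠ 0 := by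
        rw [← hρ1, hτt]
        exact div_ne_zero hyt0 hτt0
      have hvu0 : S.v (1 + (y - τ) / w) = 0 := by
        rw [← hu2]
        exact SymAux.un_int S hn1 hu
      have hdiff : (y - τ) / (w - δ) - (y - τ) / w = (y - τ) * δ / ((w - δ) * w) := by
        field_simp
        ring
      have hd : (y - τ) / (w - δ) - (y - τ) / w = 0 ∨
          n + 1 ≤ S.v ((y - τ) / (w - δ) - (y - τ) / w) := by
        rw [hdiff]
        rcases eq_or_ne δ 0 with h0 | h0
        · left
          rw [h0, mul_zero, zero_div]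
        · right
          rw [SymAux.v_div S _ _ (mul_ne_zero hyτ' h0) (mul_ne_zero hτt0 hw0),
            S.v_mul _ _ hyτ' h0, S.v_mul _ _ hτt0 hw0, hvτt, hvw]
          have := hδ.resolve_left h0
          omega
      have hq := SymAux.un_div S (by omega : 1 ≤ n + 1) hρ0 hu20 hvu0 hd
      have e1 := ih (n + 1) (by push_cast at hn; omega) (by omega) (by omega) _ hq
      have e2 := hρ t ht
      rw [hρ1] at e2
      rw [div_eq_mul_inv, S.h_mul_right _ _ _ hG hρ0 (inv_ne_zero hu20), e2,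
        SymAux.h_inv_right S _ _ hG hu20, ← hu2, zero_add, neg_eq_zero] at e1
      exact e1
  intro n hn hn2 u hu
  exact key (S.e + 1 - n).toNat n (by omega) hn hn2 u hu

/-- all the ratios have the same symbol with `G` -/
theorem rel_rho [Fact p.Prime] {T : Set L} {D : L → L → L} {y τ : L} (hτT : τ ∉ T) (hyT : y ∉ T)
    (hyτ : y ≠ τ) (hC : S.Cmp (insert τ T) D)
    (hD : ∀ s ∈ T, ∀ t ∈ T, Eqv p (D s t) ((y - s) / (y - t)))
    {G : L} (hG : G ≠ 0) (hGt : ∀ t ∈ T, Eqv p (D τ t) (G * ((y - τ) / (y - t)))) :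
    ∀ t ∈ T, ∀ u ∈ T, S.h G ((y - t) / (τ - t)) = S.h G ((y - u) / (τ - u)) := by
  intro t ht u hu
  by_cases htu : t = u
  · rw [htu]
  have n1 : y - t ≠ 0 := sub_ne_zero.2 fun h => hyT (h ▸ ht)
  have n2 : y - u ≠ 0 := sub_ne_zero.2 fun h => hyT (h ▸ hu)
  have n3 : τ - t ≠ 0 := sub_ne_zero.2 fun h => hτT (h ▸ ht)
  have n4 : τ - u ≠ 0 := sub_ne_zero.2 fun h => hτT (h ▸ hu)
  have n5 : y - τ ≠ 0 := sub_ne_zero.2 hyτ
  have n6 : t - u ≠ 0 := sub_ne_zero.2 htu
  have n7 : t - τ ≠ 0 := sub_ne_zero.2 fun h => hτT (h ▸ ht)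
  have hrel := hC.rel τ (Set.mem_insert _ _) t (Set.mem_insert_of_mem _ ht) u
    (Set.mem_insert_of_mem _ hu) (fun h => hτT (h ▸ ht)) htu (fun h => hτT (h ▸ hu))
  have hA : (y - τ) / (y - u) * ((t - u) / (t - τ)) ≠ 0 :=
    mul_ne_zero (div_ne_zero n5 n2) (div_ne_zero n6 n7)
  have hB : (y - t) / (y - u) * ((τ - u) / (τ - t)) ≠ 0 :=
    mul_ne_zero (div_ne_zero n1 n2) (div_ne_zero n4 n3)
  have hAB : (y - τ) / (y - u) * ((t - u) / (t - τ)) + (y - t) / (y - u) * ((τ - u) / (τ - t)) =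
      1 := by
    rw [show t - τ = -(τ - t) by ring]
    field_simp
    ring
  have e1 : S.h (G * ((y - τ) / (y - u) * ((t - u) / (t - τ))))
      ((y - t) / (y - u) * ((τ - u) / (τ - t))) = 0 := by
    rw [← hrel]
    refine (h_congr S (mul_ne_zero hG hA) hB ?_ ?_).symm
    · rw [← mul_assoc]
      exact emul (hGt u hu) (erefl _)
    · exact emul (hD t ht u hu) (erefl _)
  rw [S.h_mul_left _ _ _ hG hA hB, S.steinberg _ _ hA hB hAB, add_zero] at e1
  have e2 : (y - t) / (y - u) * ((τ - u) / (τ - t)) =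
      (y - t) / (τ - t) * ((y - u) / (τ - u))⁻¹ := by
    field_simp
  rw [e2, S.h_mul_right _ _ _ hG (div_ne_zero n1 n3) (inv_ne_zero (div_ne_zero n2 n4)),
    SymAux.h_inv_right S _ _ hG (div_ne_zero n2 n4)] at e1
  exact add_neg_eq_zero.1 e1

/-- the last step -/
theorem finish {T : Set L} {D : L → L → L} {y τ : L} (hC : S.Cmp (insert τ T) D)
    (hyT : y ∉ T) (hyτ : y ≠ τ)
    (hD : ∀ s ∈ T, ∀ t ∈ T, Eqv p (D s t) ((y - s) / (y - t))) {u : L} (hu : u ∈ T)
    (hu' : Eqv p (D τ u) ((y - τ) / (y - u))) :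
    ∀ s ∈ insert τ T, ∀ t ∈ insert τ T, Eqv p (D s t) ((y - s) / (y - t)) := by
  have hne : ∀ s ∈ insert τ T, y - s ≠ 0 := by
    intro s hs
    rcases hs with rfl | hs
    · exact sub_ne_zero.2 hyτ
    · exact sub_ne_zero.2 fun h => hyT (h ▸ hs)
  have h1 : ∀ s ∈ insert τ T, Eqv p (D s u) ((y - s) / (y - u)) := by
    intro s hs
    rcases hs with rfl | hs
    · exact hu'
    · exact hD s hs u hu
  have hu1 : u ∈ insert τ T := Set.mem_insert_of_mem _ hu
  intro s hs t ht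
  have e1 := hC.coc s hs t ht u hu1
  have e2 : Eqv p (D s t) (D s u / D t u) := by
    have e3 := ediv e1 (erefl (p := p) (D t u))
    rwa [mul_div_cancel_right₀ _ (hC.ne t ht u hu1)] at e3
  refine etrans e2 (etrans (ediv (h1 s hs) (h1 t ht)) ?_)
  have n1 := hne s hs
  have n2 := hne t ht
  have n3 := hne u hu1
  rw [show (y - s) / (y - u) / ((y - t) / (y - u)) = (y - s) / (y - t) by field_simp]
  exact erefl _

end loc

section main

variable {p : ℕ} [hp : Fact p.Prime] {k L F : Type} [Field k] [Field L] [Field F] [Algebra k L]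
  [FiniteDimensional k L] [IsGalois k L] {S : LF p L F} {ζ a : L} {ϖ : k}

/-- the integral case -/
theorem main_int (h1 : StSym) (h4 : StDl) (h5 : StInv) (hE : Ext p k L F S ζ a ϖ)
    (hK : ∃ g : L ≃ₐ[k] L, g a = a ∧ g ζ ≠ ζ) {T : Set L} {m : ℤ} (hm : 3 * S.e + 4 ≤ m)
    (hT : S.Net T m) (hst : ∀ g : L ≃ₐ[k] L, ∀ t ∈ T, g t ∈ T)
    (hTk : ∀ y : k, ∀ t ∈ T, algebraMap k L y ≠ t ∧ S.dl (algebraMap k L y) t ≤ m)
    (hlast : ∀ y : k, ∀ t ∈ T, S.dl (algebraMap k L y) t = m →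
      ∃ g : L ≃ₐ[k] L, g t = t ∧ g ζ ≠ ζ)
    (τ y : k) (hτ : 0 ≤ S.v (algebraMap k L τ)) (hy : 0 ≤ S.v (algebraMap k L y))
    {D : L → L → L} (hC : S.Cmp (insert (algebraMap k L τ) T) D)
    (hg : ∀ g : L ≃ₐ[k] L, ∀ s ∈ insert (algebraMap k L τ) T,
      ∀ t ∈ insert (algebraMap k L τ) T, Eqv p (D (g s) (g t)) (g (D s t)))
    (hD : ∀ s ∈ T, ∀ t ∈ T, Eqv p (D s t) ((algebraMap k L y - s) / (algebraMap k L y - t)))
    (hyτ : S.Gz (m - 2 * S.e - 2) (algebraMap k L y - algebraMap k L τ)) :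
    ∃ y' : k, y' ≠ τ ∧ S.Gz (m - 2 * S.e - 2) (algebraMap k L y' - algebraMap k L τ) ∧
      ∀ s ∈ insert (algebraMap k L τ) T, ∀ t ∈ insert (algebraMap k L τ) T,
        Eqv p (D s t) ((algebraMap k L y' - s) / (algebraMap k L y' - t)) := by
  set ι := algebraMap k L with hι
  have he := S.two_le
  have hιT : ∀ x : k, ι x ∉ T := fun x h => (hTk x _ h).1 rfl
  have hιs : ∀ x : k, ∀ t ∈ T, ι x - t ≠ 0 := fun x t ht => sub_ne_zero.2 (hTk x t ht).1
  have hgι : ∀ (g : L ≃ₐ[k] L) (x : k), g (ι x) = ι x := fun g x => g.commutes x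
  have hvle : ∀ x : k, 0 ≤ S.v (ι x) → ∀ t ∈ T, S.v (ι x - t) ≤ m := fun x hx t ht =>
    (v_le_dl S hx t).trans (hTk x t ht).2
  obtain ⟨u, hu, hvu⟩ := exists_far S (by omega) hT hτ
  have hτi : ι τ ∈ insert (ι τ) T := Set.mem_insert _ _
  have hui := Set.mem_insert_of_mem (ι τ) hu
  have hDτ0 : D (ι τ) u ≠ 0 := hC.ne _ hτi _ hui
  have hDτ : ∀ t ∈ T, Eqv p (D (ι τ) t) (D (ι τ) u * ((ι y - u) / (ι y - t))) := fun t ht =>
    etrans (esymm (hC.coc _ hτi _ hui _ (Set.mem_insert_of_mem _ ht)))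
      (emul (erefl _) (hD u hu t ht))
  have hyu := hιs y u hu
  rcases eq_or_ne y τ with rfl | hne
  · -- the point is the branch point
    set G : L := D (ι y) u * (ι y - u) with hG
    have hG0 : G ≠ 0 := mul_ne_zero hDτ0 hyu
    have hGinv : ∀ g : L ≃ₐ[k] L, Eqv p (g G) G := by
      intro g
      have e1 := hg g _ hτi _ hui
      rw [hgι] at e1
      have e2 := hDτ (g u) (hst g u hu)
      have e3 := emul (etrans (esymm e1) e2) (erefl (p := p) (ι y - g u))
      rw [mul_assoc, div_mul_cancel₀ _ (hιs y _ (hst g u hu))] at e3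
      rw [hG, map_mul, map_sub, hgι]
      exact e3
    obtain ⟨c, hc0, hcv, hGc⟩ := (h5 p hp k L F _ _ _ _ inferInstance inferInstance S hE.inv hE.deg G hG0 hGinv).2
      (m + S.e + 1) ⟨ϖ, hE.pi_ne, hE.pi_pos⟩
    rw [← hι] at hcv hGc
    have hιc : ι c ≠ 0 := (map_ne_zero ι).2 hc0
    have hclose : ∀ s ∈ T, Eqv p (ι (y + c) - s) (ι y - s) := by
      intro s hs
      refine eqv_close S (hιs y s hs) (Or.inr ?_)
      have := hvle y hy s hs
      rw [show ι (y + c) - s - (ι y - s) = ι c by rw [map_add]; ring]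
      omega
    have hcne : ι (y + c) ≠ ι y := by
      rw [map_add, Ne, add_eq_left]
      exact hιc
    refine ⟨y + c, fun h => hcne (congrArg ι h), Or.inr ?_, ?_⟩
    · rw [show ι (y + c) - ι y = ι c by rw [map_add]; ring]
      omega
    · refine finish S hC (hιT _) hcne (fun s hs t ht => ?_) hu ?_
      · exact etrans (hD s hs t ht) (esymm (ediv (hclose s hs) (hclose t ht)))
      · rw [show ι (y + c) - ι y = ι c by rw [map_add]; ring]
        have e1 : D (ι y) u = G / (ι y - u) := by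
          rw [hG, mul_div_cancel_right₀ _ hyu]
        rw [e1]
        exact ediv hGc (esymm (hclose u hu))
  · have hne' : ι y - ι τ ≠ 0 := by
      rw [← map_sub]
      exact (map_ne_zero ι).2 (sub_ne_zero.2 hne)
    have ha : m - 2 * S.e - 2 ≤ S.v (ι y - ι τ) := hyτ.resolve_left hne'
    have hιne : ι y ≠ ι τ := sub_ne_zero.1 hne'
    set G : L := D (ι τ) u * ((ι y - u) / (ι y - ι τ)) with hG
    have hG0 : G ≠ 0 := mul_ne_zero hDτ0 (div_ne_zero hyu hne')
    have hGt : ∀ t ∈ T, Eqv p (D (ι τ) t) (G * ((ι y - ι τ) / (ι y - t))) := by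
      intro t ht
      have e1 := hDτ t ht
      have n1 := hιs y t ht
      have e2 : D (ι τ) u * ((ι y - u) / (ι y - t)) = G * ((ι y - ι τ) / (ι y - t)) := by
        rw [hG]
        field_simp
      rwa [e2] at e1
    have hGinv : ∀ g : L ≃ₐ[k] L, Eqv p (g G) G := by
      intro g
      have e1 := hg g _ hτi _ hui
      rw [hgι] at e1
      have e2 := hGt (g u) (hst g u hu)
      have n1 := hιs y _ (hst g u hu)
      have e3 := emul (etrans (esymm e1) e2) (erefl (p := p) ((ι y - g u) / (ι y - ι τ)))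
      have e4 : G * ((ι y - ι τ) / (ι y - g u)) * ((ι y - g u) / (ι y - ι τ)) = G := by
        field_simp
      rw [e4] at e3
      have e5 : g G = g (D (ι τ) u) * ((ι y - g u) / (ι y - ι τ)) := by
        rw [hG, map_mul, map_div₀, map_sub, map_sub, hgι, hgι]
      rw [e5]
      exact e3
    have hρ : ∀ t ∈ T, S.h G ((ι y - t) / (ι τ - t)) = 0 := by
      intro t ht
      rw [rel_rho S (hιT τ) (hιT y) hιne hC hD hG0 hGt t ht u hu]
      have n1 := hιs τ u hu
      have e1 : (ι y - u) / (ι τ - u) = 1 + (ι y - ι τ) / (ι τ - u) := by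
        field_simp
        ring
      rw [e1]
      refine SymAux.h_un_right S ((SymAux.un_iff S _ (by omega) _).2 (Or.inr ?_)) hG0
      rw [SymAux.v_div S _ _ hne' n1]
      omega
    have hort := ortho_desc S (by omega) hT hτ hιne (by omega) hG0 (hιT y) (hιT τ) hρ
    by_cases hA : S.v (ι y - ι τ) ≤ m
    · -- the class `G` is trivial
      obtain ⟨g, -, hgζ⟩ := hK
      have hG1 : Eqv p G 1 := om_triv S h1 hE g hgζ hG0 (hort 1 le_rfl (by omega)) (hGinv g)
      refine ⟨y, hne, Or.inr ha, finish S hC (hιT y) hιne hD hu ?_⟩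
      have e1 := etrans (hGt u hu) (emul hG1 (erefl _))
      rwa [one_mul] at e1
    · -- the class `G` is represented by a suitable element of `k`
      obtain ⟨c, hc0, hcv, hc1, hGc⟩ : ∃ c : k, c ≠ 0 ∧ 0 ≤ S.v (ι c) ∧
          S.Gz (S.e + m - S.v (ι y - ι τ)) (ι c - 1) ∧ Eqv p G (ι c) := by
        have hinv := h5 p hp k L F _ _ _ _ inferInstance inferInstance S hE.inv hE.deg
        rw [← hι] at hinv
        by_cases hi : S.v (ι y - ι τ) - m + 1 ≤ S.e
        · obtain ⟨E', hE'u, hE'⟩ := h4 p hp L F _ _ S ζ hE.prim hE.vp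
            (S.v (ι y - ι τ) - m + 1) (by omega) hi G hG0 (hort _ (by omega) le_rfl)
          have hE'inv : ∀ g : L ≃ₐ[k] L, Eqv p (g E') E' := fun g =>
            etrans (T3Aux.eqv_map (esymm hE') g) (etrans (hGinv g) hE')
          obtain ⟨c, hc0, hcu, hc⟩ := (hinv E' hE'u.1 hE'inv).1 _ (by omega) hE'u
          refine ⟨c, hc0, (SymAux.un_int S (by omega) hcu).ge, ?_, etrans hE' hc⟩
          refine SymAux.gz_mono S ?_ (SymAux.un_sub S hcu)
          omega
        · obtain ⟨c, hc0, hcv, hc⟩ := (hinv G hG0 hGinv).2 0 ⟨ϖ, hE.pi_ne, hE.pi_pos⟩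
          refine ⟨c, hc0, hcv, ?_, hc⟩
          refine SymAux.gz_mono S (n := 0) (by omega) ?_
          exact SymAux.gz_sub S (Or.inr hcv) (Or.inr (SymAux.v_one S).ge)
      have hιc : ι c ≠ 0 := (map_ne_zero ι).2 hc0
      set y' : k := τ + (y - τ) * c with hy'
      have hy'τ : ι y' - ι τ = (ι y - ι τ) * ι c := by
        rw [hy', map_add, map_mul, map_sub]
        ring
      have hy'y : ι y' - ι y = (ι y - ι τ) * (ι c - 1) := by
        rw [hy', map_add, map_mul, map_sub]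
        ring
      have hy'gz : S.Gz (m + S.e) (ι y' - ι y) := by
        rw [hy'y]
        have e1 := SymAux.gz_mul_gz S (n := S.v (ι y - ι τ)) (Or.inr le_rfl) hc1
        exact SymAux.gz_mono S (by omega) e1
      have hclose : ∀ t ∈ T, Eqv p (ι y' - t) (ι y - t) := by
        intro t ht
        have n1 := hιs y t ht
        have n2 := hιs y' t ht
        have e1 : ι y' - t - (ι y - t) = ι y' - ι y := by ring
        have hle := hvle y hy t ht
        rcases hle.lt_or_eq with hlt | heq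
        · refine eqv_close S n1 ?_
          rw [e1]
          exact SymAux.gz_mono S (by omega) hy'gz
        · -- the last level
          have hdl : S.dl (ι y) t = m :=
            le_antisymm (hTk y t ht).2 (heq ▸ v_le_dl S hy t)
          obtain ⟨g, hgt, hgζ⟩ := hlast y t ht hdl
          have hq : (ι y' - t) / (ι y - t) = 1 + (ι y' - ι y) / (ι y - t) := by
            field_simp
            ring
          have hUn : S.Un S.e ((ι y' - t) / (ι y - t)) := by
            rw [hq, SymAux.un_iff S _ (by omega)]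
            rcases hy'gz with h0 | h0
            · left
              rw [h0, zero_div]
            · rcases eq_or_ne (ι y' - ι y) 0 with h3 | h3
              · left
                rw [h3, zero_div]
              · right
                rw [SymAux.v_div S _ _ h3 n1]
                omega
          have htr : Eqv p ((ι y' - t) / (ι y - t)) 1 := by
            refine om_triv S h1 hE g hgζ (div_ne_zero n2 n1) (fun w hw => ?_) ?_
            · exact (h1 p hp L F _ _ S).2.2.2.2.2.2.1 _ w hUn hw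
            · rw [map_div₀, map_sub, map_sub, hgι, hgι, hgt]
              exact erefl _
          have e2 := emul htr (erefl (p := p) (ι y - t))
          rwa [div_mul_cancel₀ _ n1, one_mul] at e2
      have hy'ne : ι y' ≠ ι τ := by
        rw [← sub_ne_zero, hy'τ]
        exact mul_ne_zero hne' hιc
      refine ⟨y', fun h => hy'ne (congrArg ι h), Or.inr ?_,
        finish S hC (hιT y') hy'ne (fun s hs t ht => ?_) hu ?_⟩
      · rw [hy'τ, S.v_mul _ _ hne' hιc]
        omega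
      · exact etrans (hD s hs t ht) (esymm (ediv (hclose s hs) (hclose t ht)))
      · refine etrans (hGt u hu) ?_
        rw [hy'τ]
        have e1 : G * ((ι y - ι τ) / (ι y - u)) = G * (ι y - ι τ) / (ι y - u) := by
          rw [mul_div_assoc]
        rw [e1, mul_comm (ι y - ι τ) (ι c)]
        exact ediv (emul hGc (erefl _)) (esymm (hclose u hu))

omit hp [FiniteDimensional k L] [IsGalois k L] in
/-- the point can be moved away from zero -/
theorem nonzero (hE : Ext p k L F S ζ a ϖ) {T : Set L} {m : ℤ} (hm : 3 * S.e + 4 ≤ m)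
    (hTk : ∀ y : k, ∀ t ∈ T, algebraMap k L y ≠ t ∧ S.dl (algebraMap k L y) t ≤ m)
    (τ y : k) {D : L → L → L} (hyτ : y ≠ τ)
    (hgz : S.Gz (m - 2 * S.e - 2) (algebraMap k L y - algebraMap k L τ))
    (hD : ∀ s ∈ insert (algebraMap k L τ) T, ∀ t ∈ insert (algebraMap k L τ) T,
      Eqv p (D s t) ((algebraMap k L y - s) / (algebraMap k L y - t))) :
    ∃ y' : k, y' ≠ 0 ∧ y' ≠ τ ∧ S.Gz (m - 2 * S.e - 2) (algebraMap k L y' - algebraMap k L τ) ∧
      ∀ s ∈ insert (algebraMap k L τ) T, ∀ t ∈ insert (algebraMap k L τ) T,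
        Eqv p (D s t) ((algebraMap k L y' - s) / (algebraMap k L y' - t)) := by
  rcases eq_or_ne y 0 with rfl | hy0
  · set ι := algebraMap k L with hι
    have hιϖ : ι ϖ ≠ 0 := (map_ne_zero ι).2 hE.pi_ne
    have hpos : 1 ≤ S.v (ι ϖ) := hE.pi_pos
    set N : ℕ := (max m (S.v (ι τ))).toNat + S.e + 1 with hN
    have hNv : (N : ℤ) ≤ S.v (ι (ϖ ^ N)) := by
      rw [map_pow, SymAux.v_pow S _ hιϖ]
      nlinarith
    have hN1 : m + S.e + 1 ≤ N := by
      rw [hN]
      push_cast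
      omega
    have hN2 : S.v (ι τ) + S.e + 1 ≤ N := by
      rw [hN]
      push_cast
      omega
    have hτ0 : ι τ ≠ 0 := (map_ne_zero ι).2 hyτ.symm
    have hclose : ∀ s ∈ insert (ι τ) T, Eqv p (ι (ϖ ^ N) - s) (ι 0 - s) := by
      intro s hs
      have h1 : ι 0 - s ≠ 0 ∧ S.v (ι 0 - s) + S.e + 1 ≤ N := by
        rcases hs with rfl | hs
        · rw [map_zero, zero_sub, SymAux.v_neg]
          exact ⟨neg_ne_zero.2 hτ0, hN2⟩
        · have h2 := v_le_dl S (x := ι 0) (by rw [map_zero, S.v_zero]) s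
          have h3 := (hTk 0 s hs).2
          exact ⟨sub_ne_zero.2 (hTk 0 s hs).1, by omega⟩
      refine eqv_close S h1.1 (Or.inr ?_)
      rw [show ι (ϖ ^ N) - s - (ι 0 - s) = ι (ϖ ^ N) by rw [map_zero]; ring]
      omega
    refine ⟨ϖ ^ N, pow_ne_zero _ hE.pi_ne, ?_, ?_, fun s hs t ht => ?_⟩
    · intro h
      rw [h] at hNv
      omega
    · have h1 : S.Gz (m - 2 * S.e - 2) (ι (ϖ ^ N)) := Or.inr (by omega)
      have h2 := SymAux.gz_add S h1 hgz
      rwa [map_zero, show ι (ϖ ^ N) + (0 - ι τ) = ι (ϖ ^ N) - ι τ by ring] at h2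
    · exact etrans (hD s hs t ht) (esymm (ediv (hclose s hs) (hclose t ht)))
  · exact ⟨y, hy0, hyτ, hgz, hD⟩

omit hp [FiniteDimensional k L] [IsGalois k L] in
/-- points of `k` can be moved away from zero -/
theorem move0 (hE : Ext p k L F S ζ a ϖ) (x : k) (t : L) (hx : algebraMap k L x ≠ t) :
    ∃ x' : k, x' ≠ 0 ∧ algebraMap k L x' ≠ t ∧
      S.dl (algebraMap k L x') t = S.dl (algebraMap k L x) t := by
  rcases eq_or_ne x 0 with rfl | hx0
  · set ι := algebraMap k L with hι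
    have hιϖ : ι ϖ ≠ 0 := (map_ne_zero ι).2 hE.pi_ne
    have hpos : 1 ≤ S.v (ι ϖ) := hE.pi_pos
    set N : ℕ := (S.v t).toNat + 1 with hN
    have hNv : (N : ℤ) ≤ S.v (ι (ϖ ^ N)) := by
      rw [map_pow, SymAux.v_pow S _ hιϖ]
      nlinarith
    have hN1 : S.v t + 1 ≤ N ∧ 1 ≤ (N : ℤ) := by
      rw [hN]
      push_cast
      omega
    rw [map_zero] at hx ⊢
    refine ⟨ϖ ^ N, pow_ne_zero _ hE.pi_ne, ?_, ?_⟩
    · intro h
      rw [h] at hNv
      omega
    · unfold LF.dl
      rw [ChordAux.v_sub_comm, ChordAux.v_sub_lt S hx.symm (Or.inr (by omega)), zero_sub,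
        ChordAux.v_neg, S.v_zero]
      omega
  · exact ⟨x, hx0, hx, rfl⟩

end main

end RatAux

open RatAux CplAux in
theorem stRat (h1 : StSym) (_h2 : StChord) (_h3 : StFrame) (h4 : StDl) (h5 : StInv) : StRat := by
  intro p hp k L F _ _ _ _ _ _ S ζ a ϖ hE hK T m hm hT hst hTk hlast τ y D hC hg hD hcl
  set ι := algebraMap k L with hι
  have he := S.two_le
  by_cases hτ : 0 ≤ S.v (ι τ)
  · have hcl' := gz_of_cl S (by omega) hτ (cl_symm S hcl)
    obtain ⟨y', hy', hgz, hfin⟩ := main_int h1 h4 h5 hE hK hm hT hst hTk hlast τ y hτ hcl'.1 hC hg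
      hD hcl'.2
    exact ⟨y', hy', cl_symm S (DescAux.cl_of_gz S (by omega) hτ hgz), hfin⟩
  · -- inversion
    have hιT : ∀ x : k, ι x ∉ T := fun x h => (hTk x _ h).1 rfl
    have h0T : (0 : L) ∉ T := by
      have := hιT 0
      rwa [map_zero] at this
    have hτ0 : ι τ ≠ 0 := by
      intro h
      rw [h, S.v_zero] at hτ
      exact hτ le_rfl
    have hτ0' : τ ≠ 0 := (map_ne_zero ι).1 hτ0
    have hyv : S.v (ι y) < 0 := by
      by_contra h
      have h' := gz_of_cl S (by omega) (by omega : 0 ≤ S.v (ι y)) hcl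
      exact hτ h'.1
    have hy0 : ι y ≠ 0 := by
      intro h
      rw [h, S.v_zero] at hyv
      exact lt_irrefl _ hyv
    have hy0' : y ≠ 0 := (map_ne_zero ι).1 hy0
    set T' : Set L := {x | x⁻¹ ∈ T} with hT'
    set D' : L → L → L := fun s t => D s⁻¹ t⁻¹ * (s / t) with hD'
    have hmem : ∀ x, x ∈ insert (ι τ⁻¹) T' ↔ x⁻¹ ∈ insert (ι τ) T := by
      intro x
      rw [Set.mem_insert_iff, Set.mem_insert_iff, map_inv₀, inv_eq_iff_eq_inv]
      rfl
    have h0 : ∀ x, x ∈ insert (ι τ⁻¹) T' → x ≠ 0 := by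
      rintro x hx rfl
      rw [hmem, inv_zero, Set.mem_insert_iff] at hx
      rcases hx with h | h
      · exact hτ0 h.symm
      · exact h0T h
    have h0' : ∀ x ∈ T', x ≠ 0 := fun x hx => h0 x (Set.mem_insert_of_mem _ hx)
    have hNet : S.Net T' m := by
      have key : ∀ x : L, x ≠ 0 → ∃ t ∈ T', S.Cl m x t := by
        intro x hx
        obtain ⟨t, ht, hcl⟩ := hT x⁻¹
        have ht0 : t ≠ 0 := fun h => h0T (h ▸ ht)
        refine ⟨t⁻¹, by rw [hT', Set.mem_ofPred_eq, inv_inv]; exact ht, ?_⟩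
        refine DescAux.cl_inv S hx (inv_ne_zero ht0) ?_
        rwa [inv_inv]
      intro x
      rcases eq_or_ne x 0 with rfl | hx
      · obtain ⟨t, ht, hcl⟩ := key (S.π ^ m) (zpow_ne_zero _ S.pi_ne)
        refine ⟨t, ht, ChordAux.cl_trans S (Or.inr ?_) hcl⟩
        unfold LF.dl
        rw [zero_sub, ChordAux.v_neg, ChordAux.v_zpow, S.v_zero]
        omega
      · exact key x hx
    have hst' : ∀ g : L ≃ₐ[k] L, ∀ t ∈ T', g t ∈ T' := by
      intro g t ht
      rw [hT', Set.mem_ofPred_eq, ← map_inv₀]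
      exact hst g _ ht
    have hdl : ∀ (x : k) (t : L), t ∈ T' → ι x ≠ t ∧ ∃ x' : k, S.dl (ι x) t = S.dl (ι x') t⁻¹ := by
      intro x t ht
      have hne : ι x ≠ t := by
        rintro rfl
        rw [hT', Set.mem_ofPred_eq, ← map_inv₀] at ht
        exact hιT _ ht
      refine ⟨hne, ?_⟩
      obtain ⟨x', hx'0, hx't, hx'⟩ := move0 hE x t hne
      refine ⟨x'⁻¹, ?_⟩
      rw [map_inv₀, DescAux.dl_inv S ((map_ne_zero ι).2 hx'0) (h0' t ht) hx't]
      exact hx'.symm
    have hTk' : ∀ x : k, ∀ t ∈ T', ι x ≠ t ∧ S.dl (ι x) t ≤ m := by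
      intro x t ht
      obtain ⟨hne, x', hx'⟩ := hdl x t ht
      exact ⟨hne, by rw [hx']; exact (hTk x' _ ht).2⟩
    have hlast' : ∀ x : k, ∀ t ∈ T', S.dl (ι x) t = m → ∃ g : L ≃ₐ[k] L, g t = t ∧ g ζ ≠ ζ := by
      intro x t ht hm'
      obtain ⟨hne, x', hx'⟩ := hdl x t ht
      obtain ⟨g, hgt, hgζ⟩ := hlast x' t⁻¹ ht (by rw [← hx']; exact hm')
      refine ⟨g, ?_, hgζ⟩
      rw [map_inv₀] at hgt
      exact inv_injective hgt
    have hC' : S.Cmp (insert (ι τ⁻¹) T') D' := by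
      refine ⟨fun s hs t ht => ?_, fun s hs t ht u hu => ?_, fun s hs t ht u hu hst htu hsu => ?_⟩
      · exact mul_ne_zero (hC.ne _ ((hmem s).1 hs) _ ((hmem t).1 ht))
          (div_ne_zero (h0 s hs) (h0 t ht))
      · have e1 := emul (hC.coc _ ((hmem s).1 hs) _ ((hmem t).1 ht) _ ((hmem u).1 hu))
          (erefl (p := p) (s / u))
        have e2 : D' s t * D' t u = D s⁻¹ t⁻¹ * D t⁻¹ u⁻¹ * (s / u) := by
          have := h0 t ht
          have := h0 u hu
          simp only [hD']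
          field_simp
        rw [e2]
        exact e1
      · have e1 := hC.rel _ ((hmem s).1 hs) _ ((hmem t).1 ht) _ ((hmem u).1 hu)
          (fun h => hst (inv_injective h)) (fun h => htu (inv_injective h))
          (fun h => hsu (inv_injective h))
        have n1 := h0 s hs
        have n2 := h0 t ht
        have n3 := h0 u hu
        have n4 : t - s ≠ 0 := sub_ne_zero.2 (Ne.symm hst)
        have n5 : s - t ≠ 0 := sub_ne_zero.2 hst
        have e2 : D' s u * ((t - u) / (t - s)) =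
            D s⁻¹ u⁻¹ * ((t⁻¹ - u⁻¹) / (t⁻¹ - s⁻¹)) := by
          have e3 : t⁻¹ - u⁻¹ = (u - t) / (t * u) := by field_simp
          have e4 : t⁻¹ - s⁻¹ = (s - t) / (t * s) := by field_simp
          rw [e3, e4]
          simp only [hD']
          rw [show t - s = -(s - t) by ring]
          field_simp
          ring
        have e5 : D' t u * ((s - u) / (s - t)) =
            D t⁻¹ u⁻¹ * ((s⁻¹ - u⁻¹) / (s⁻¹ - t⁻¹)) := by
          have e3 : s⁻¹ - u⁻¹ = (u - s) / (s * u) := by field_simp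
          have e4 : s⁻¹ - t⁻¹ = (t - s) / (s * t) := by field_simp
          rw [e3, e4]
          simp only [hD']
          rw [show s - t = -(t - s) by ring]
          field_simp
          ring
        rw [e2, e5]
        exact e1
    have hg' : ∀ g : L ≃ₐ[k] L, ∀ s ∈ insert (ι τ⁻¹) T', ∀ t ∈ insert (ι τ⁻¹) T',
        Eqv p (D' (g s) (g t)) (g (D' s t)) := by
      intro g s hs t ht
      have e1 := emul (hg g _ ((hmem s).1 hs) _ ((hmem t).1 ht)) (erefl (p := p) (g s / g t))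
      simp only [hD']
      rw [map_mul, map_div₀, ← map_inv₀, ← map_inv₀]
      exact e1
    have hDy : ∀ s ∈ T', ∀ t ∈ T', Eqv p (D' s t) ((ι y⁻¹ - s) / (ι y⁻¹ - t)) := by
      intro s hs t ht
      have e1 := emul (hD _ hs _ ht) (erefl (p := p) (s / t))
      have n1 := h0' s hs
      have n2 := h0' t ht
      have n3 : ι y - t⁻¹ ≠ 0 := sub_ne_zero.2 (hTk y _ ht).1
      have n4 : ι y⁻¹ - t ≠ 0 := sub_ne_zero.2 (hTk' y⁻¹ _ ht).1
      have e2 : (ι y - s⁻¹) / (ι y - t⁻¹) * (s / t) = (ι y⁻¹ - s) / (ι y⁻¹ - t) := by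
        rw [map_inv₀] at n4 ⊢
        rw [div_mul_div_comm, div_eq_div_iff (mul_ne_zero n3 n2) n4]
        field_simp
        ring
      rw [← e2]
      exact e1
    have hvτ : 0 ≤ S.v (ι τ⁻¹) := by
      rw [map_inv₀, ChordAux.v_inv]
      omega
    have hvy : 0 ≤ S.v (ι y⁻¹) := by
      rw [map_inv₀, ChordAux.v_inv]
      omega
    have hcl2 : S.Cl (m - 2 * S.e - 2) (ι τ⁻¹) (ι y⁻¹) := by
      rw [map_inv₀, map_inv₀]
      refine DescAux.cl_inv S (inv_ne_zero hτ0) (inv_ne_zero hy0) ?_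
      rw [inv_inv, inv_inv]
      exact cl_symm S hcl
    have hgz2 := (gz_of_cl S (by omega) hvτ hcl2).2
    obtain ⟨y1, hy1, hgz1, hfin1⟩ := main_int h1 h4 h5 hE hK hm hNet hst' hTk' hlast' τ⁻¹ y⁻¹
      hvτ hvy hC' hg' hDy hgz2
    obtain ⟨y2, hy20, hy2, hgz3, hfin2⟩ := nonzero hE hm hTk' τ⁻¹ y1 hy1 hgz1 hfin1
    have hιy2 : ι y2 ≠ 0 := (map_ne_zero ι).2 hy20
    refine ⟨y2⁻¹, fun h => hy2 (by rw [← h, inv_inv]), ?_, fun s hs t ht => ?_⟩
    · have e1 := DescAux.cl_of_gz S (by omega) hvτ hgz3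
      rw [map_inv₀] at e1 ⊢
      refine cl_symm S (DescAux.cl_inv S hτ0 (inv_ne_zero hιy2) ?_)
      rwa [inv_inv]
    · have hs0 : s ≠ 0 := by
        have := h0 s⁻¹ ((hmem _).2 (by rwa [inv_inv]))
        exact fun h => this (by rw [h, inv_zero])
      have ht0 : t ≠ 0 := by
        have := h0 t⁻¹ ((hmem _).2 (by rwa [inv_inv]))
        exact fun h => this (by rw [h, inv_zero])
      have e1 := hfin2 s⁻¹ ((hmem _).2 (by rwa [inv_inv])) t⁻¹ ((hmem _).2 (by rwa [inv_inv]))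
      have n1 : ι y2 - t⁻¹ ≠ 0 := by
        rw [sub_ne_zero]
        intro h
        have h3 : t⁻¹ ∈ insert (ι τ⁻¹) T' := (hmem _).2 (by rwa [inv_inv])
        rw [← h] at h3
        rcases h3 with h3 | h3
        · exact hy2 (ι.injective h3)
        · exact (hTk' y2 _ h3).1 rfl
      have n2 : ι y2⁻¹ - t ≠ 0 := by
        intro h
        apply n1
        rw [map_inv₀] at h
        rw [← sub_eq_zero.1 h, inv_inv, sub_self]
      have e2 := emul e1 (erefl (p := p) (s / t))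
      have e3 : D' s⁻¹ t⁻¹ * (s / t) = D s t := by
        simp only [hD', inv_inv]
        field_simp
      have e4 : (ι y2 - s⁻¹) / (ι y2 - t⁻¹) * (s / t) = (ι y2⁻¹ - s) / (ι y2⁻¹ - t) := by
        rw [map_inv₀] at n2 ⊢
        rw [div_mul_div_comm, div_eq_div_iff (mul_ne_zero n1 ht0) n2]
        field_simp
        ring
      rwa [e3, e4] at e2

end Pool.Agent.Lib.MP_c385f6_ag.Cpl
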