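import Mathlib
import Pool.Agent.Lib.MP_c385f6_ag.Cpl.StCof
import Pool.Agent.Lib.MP_c385f6_ag.Cpl.Sym
import Pool.Agent.Lib.MP_c385f6_ag.Cpl.Cpl

set_option autoImplicit false

/-!
Several rational branch points (no `p`-th roots of unity in `k`).
-/

namespace Pool.Agent.Lib.MP_c385f6_ag.Cpl

namespace RatAllAux

open CplAux

variable {p : ℕ} {L F : Type} [Field L] [Field F] (S : LF p L F)

theorem cmp_mono {T T' : Set L} {D : L → L → L} (h : S.Cmp T D) (hT : T' ⊆ T) : S.Cmp T' D where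
  ne := fun s hs t ht => h.ne s (hT hs) t (hT ht)
  coc := fun s hs t ht u hu => h.coc s (hT hs) t (hT ht) u (hT hu)
  rel := fun s hs t ht u hu => h.rel s (hT hs) t (hT ht) u (hT hu)

theorem eqv_cancel {x y z : L} (hx : x ≠ 0) (h : Eqv p (x * y) (x * z)) : Eqv p y z := by
  obtain ⟨w, hw, h⟩ := h
  exact ⟨w, hw, mul_left_cancel₀ hx (by rw [h, mul_assoc])⟩

/-- the classes `D s t` from those of `D s u` -/
theorem pair {T : Set L} {D : L → L → L} (h : S.Cmp T D) {s t u y : L} (hs : s ∈ T) (ht : t ∈ T)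
    (hu : u ∈ T) (hyu : y ≠ u) (hyt : y ≠ t)
    (h1 : Eqv p (D s u) ((y - s) / (y - u))) (h2 : Eqv p (D t u) ((y - t) / (y - u))) :
    Eqv p (D s t) ((y - s) / (y - t)) := by
  have n1 : y - u ≠ 0 := sub_ne_zero.2 hyu
  have n2 : y - t ≠ 0 := sub_ne_zero.2 hyt
  have c := h.coc s hs t ht u hu
  have c1 : Eqv p (D t u * D s t) (D t u * ((y - s) / (y - t))) := by
    rw [mul_comm]
    refine etrans c (etrans h1 ?_)
    have q : (y - s) / (y - u) = (y - t) / (y - u) * ((y - s) / (y - t)) := by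
      field_simp
    rw [q]
    exact emul (esymm h2) (erefl _)
  exact eqv_cancel (h.ne t ht u hu) c1

/-- a class which is orthogonal to all elements of valuation `0` or `1` is trivial -/
theorem triv [Fact p.Prime] {g : L} (hg : g ≠ 0)
    (h : ∀ x, x ≠ 0 → 0 ≤ S.v x → S.v x ≤ 1 → S.h g x = 0) : Eqv p g 1 := by
  rw [SymAux.eqv_iff S g 1 hg one_ne_zero]
  intro w hw
  rw [SymAux.h_one_left S w hw]
  have hpi : S.π ^ (S.v w) ≠ 0 := zpow_ne_zero _ S.pi_ne
  have hpi' : S.π ^ (-(S.v w)) ≠ 0 := zpow_ne_zero _ S.pi_ne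
  have e1 : w = S.π ^ (S.v w) * (w * S.π ^ (-(S.v w))) := by
    rw [mul_comm w, ← mul_assoc, ← zpow_add₀ S.pi_ne, add_neg_cancel, zpow_zero, one_mul]
  have e2 : S.v (w * S.π ^ (-(S.v w))) = 0 := by
    rw [S.v_mul _ _ hw hpi', SymAux.v_zpow S _ S.pi_ne, S.v_pi]
    ring
  rw [e1, S.h_mul_right _ _ _ hg hpi (mul_ne_zero hw hpi'), SymAux.h_zpow_right S _ _ hg S.pi_ne,
    h S.π S.pi_ne (by rw [S.v_pi]; omega) (by rw [S.v_pi]),
    h _ (mul_ne_zero hw hpi') (by rw [e2]) (by rw [e2]; omega), mul_zero, add_zero]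

/-- the points which are not close to `y` -/
theorem far (hgen : StGen) [hp : Fact p.Prime] {T : Set L} {m : ℤ} {D : L → L → L} {y τ : L}
    (hnet : S.Net T m) (hc : S.Cmp (insert τ T) D) (hyT : y ∉ T)
    (hD : ∀ s ∈ T, ∀ t ∈ T, Eqv p (D s t) ((y - s) / (y - t)))
    (hf : ¬ S.Cl (m - 2 * S.e - 2) y τ) :
    ∀ u ∈ T, Eqv p (D τ u) ((y - τ) / (y - u)) := by
  intro u0 hu0
  have hyτ : y ≠ τ := fun h => hf (Or.inl h)
  have hdl : S.dl y τ ≤ m - 2 * S.e - 3 := by
    by_contra h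
    exact hf (Or.inr (by omega))
  have hτ : τ ∈ insert τ T := Set.mem_insert τ T
  have hT : ∀ t ∈ T, t ∈ insert τ T := fun t ht => Set.mem_insert_of_mem τ ht
  have hy : ∀ t ∈ T, y - t ≠ 0 := fun t ht => sub_ne_zero.2 (fun h => hyT (h ▸ ht))
  have n1 : y - τ ≠ 0 := sub_ne_zero.2 hyτ
  have hG : ∀ u ∈ T, D τ u * ((y - u) / (y - τ)) ≠ 0 := fun u hu =>
    mul_ne_zero (hc.ne τ hτ u (hT u hu)) (div_ne_zero (hy u hu) n1)
  -- the class does not depend on `u`
  have hind : ∀ u ∈ T, Eqv p (D τ u * ((y - u) / (y - τ))) (D τ u0 * ((y - u0) / (y - τ))) := by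
    intro u hu
    have c := hc.coc τ hτ u0 (hT u0 hu0) u (hT u hu)
    have c1 := hD u0 hu0 u hu
    have c2 : Eqv p (D τ u) (D τ u0 * ((y - u0) / (y - u))) :=
      etrans (esymm c) (emul (erefl _) c1)
    have q : D τ u0 * ((y - u0) / (y - τ)) =
        D τ u0 * ((y - u0) / (y - u)) * ((y - u) / (y - τ)) := by
      have := hy u hu
      field_simp
    rw [q]
    exact emul c2 (erefl _)
  have hB : ∀ t ∈ T, ∀ u ∈ T, τ ≠ t → τ ≠ u →
      S.h (D τ u0 * ((y - u0) / (y - τ))) ((y - t) / (y - u) * ((τ - u) / (τ - t))) = 0 := by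
    intro t ht u hu hτt hτu
    have n2 : τ - t ≠ 0 := sub_ne_zero.2 hτt
    have n3 : τ - u ≠ 0 := sub_ne_zero.2 hτu
    have n4 := hy t ht
    have n5 := hy u hu
    by_cases htu : t = u
    · subst htu
      rw [div_self n4, div_self n2, one_mul]
      exact SymAux.h_one_right S _ (hG u0 hu0)
    have n6 : t - u ≠ 0 := sub_ne_zero.2 htu
    have n7 : t - τ ≠ 0 := sub_ne_zero.2 (Ne.symm hτt)
    have hBne : (y - t) / (y - u) * ((τ - u) / (τ - t)) ≠ 0 :=
      mul_ne_zero (div_ne_zero n4 n5) (div_ne_zero n3 n2)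
    have r := hc.rel τ hτ t (hT t ht) u (hT u hu) hτt htu hτu
    -- replace the second argument
    have hA : (y - τ) * (t - u) / ((y - u) * (t - τ)) ≠ 0 :=
      div_ne_zero (mul_ne_zero n1 n6) (mul_ne_zero n5 n7)
    have a1 : D τ u * ((t - u) / (t - τ)) =
        (D τ u * ((y - u) / (y - τ))) * ((y - τ) * (t - u) / ((y - u) * (t - τ))) := by
      field_simp
    have a2 : ∀ x, x ≠ 0 → S.h x (D t u * ((τ - u) / (τ - t))) =
        S.h x ((y - t) / (y - u) * ((τ - u) / (τ - t))) := by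
      intro x hx
      have b1 : Eqv p (D t u * ((τ - u) / (τ - t))) ((y - t) / (y - u) * ((τ - u) / (τ - t))) :=
        emul (hD t ht u hu) (erefl _)
      have b2 := (SymAux.eqv_iff S _ _ (mul_ne_zero (hc.ne t (hT t ht) u (hT u hu))
        (div_ne_zero n3 n2)) hBne).1 b1 x hx
      rw [SymAux.anti S x _ hx (mul_ne_zero (hc.ne t (hT t ht) u (hT u hu))
        (div_ne_zero n3 n2)), b2, ← SymAux.anti S x _ hx hBne]
    have hAB : (y - τ) * (t - u) / ((y - u) * (t - τ)) +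
        (y - t) / (y - u) * ((τ - u) / (τ - t)) = 1 := by
      have e1 : t - τ = -(τ - t) := by ring
      rw [e1]
      field_simp
      ring
    have st := S.steinberg _ _ hA hBne hAB
    rw [a2 _ (mul_ne_zero (hc.ne τ hτ u (hT u hu)) (div_ne_zero n6 n7)), a1,
      S.h_mul_left _ _ _ (hG u hu) hA hBne, st, add_zero] at r
    have b3 := (SymAux.eqv_iff S _ _ (hG u hu) (hG u0 hu0)).1 (hind u hu) _ hBne
    rw [← b3, r]
  have hg1 : Eqv p (D τ u0 * ((y - u0) / (y - τ))) 1 := by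
    refine triv S (hG u0 hu0) ?_
    intro x hx h0 h1
    obtain ⟨t, ht, u, hu, hyt, hyu, hτt, hτu, z, hz, hq⟩ :=
      hgen p hp L L F F inferInstance inferInstance inferInstance inferInstance inferInstance S S 1
        le_rfl (by intro x; simp) (by simp) T m hnet y τ (by simpa using hyτ)
        (by simpa using hdl) x hx h0 h1
    simp only [Algebra.algebraMap_self, RingHom.id_apply] at hτt hτu hq
    have := hB t ht u hu (Ne.symm hτt) (Ne.symm hτu)
    rw [hq, S.h_mul_right _ _ _ (hG u0 hu0) hx (pow_ne_zero _ hz),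
      SymAux.h_pow_p_right S _ _ (hG u0 hu0) hz, add_zero] at this
    exact this
  have n8 := hy u0 hu0
  have q : D τ u0 = D τ u0 * ((y - u0) / (y - τ)) * ((y - τ) / (y - u0)) := by
    field_simp
  rw [q]
  have := emul hg1 (erefl (p := p) ((y - τ) / (y - u0)))
  rwa [one_mul] at this

end RatAllAux

open RatAllAux CplAux in
theorem stRatAll (h1 : StRat) (h2 : StGen) (_h3 : StSym) (h4 : StChord) : StRatAll := by
  intro p hp k L F _ _ _ _ _ _ S ζ a ϖ hE hk R hR
  obtain ⟨c1, c2, c3, -⟩ := h4 p hp L F inferInstance inferInstance S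
  -- the bound
  have hb : ∃ b : ℤ, ∀ τ ∈ R, ∀ τ' ∈ R, S.dl (algebraMap k L τ) (algebraMap k L τ') ≤ b := by
    have hfin : ((fun x : k × k => S.dl (algebraMap k L x.1) (algebraMap k L x.2)) '' (R ×ˢ R)).Finite :=
      (hR.prod hR).image _
    obtain ⟨b, hb⟩ := hfin.bddAbove
    exact ⟨b, fun τ hτ τ' hτ' => hb ⟨(τ, τ'), ⟨hτ, hτ'⟩, rfl⟩⟩
  obtain ⟨b, hb⟩ := hb
  refine ⟨max (3 * S.e + 4) (b + 2 * S.e + 3), ?_⟩
  intro T m hm hnet hG hd hdm R' hR' D hC hGD hy
  obtain ⟨y, hy⟩ := hy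
  have hm1 : 3 * (S.e : ℤ) + 4 ≤ m := le_trans (le_max_left _ _) hm
  have hm2 : b + 2 * (S.e : ℤ) + 3 ≤ m := le_trans (le_max_right _ _) hm
  have hins : ∀ τ ∈ R', insert (algebraMap k L τ) T ⊆ T ∪ algebraMap k L '' R' := by
    intro τ hτ x hx
    rcases hx with rfl | hx
    · exact Or.inr ⟨τ, hτ, rfl⟩
    · exact Or.inl hx
  have hrefl : ∀ x : L, S.Cl (m - 2 * S.e - 2) x x := fun x => Or.inl rfl
  have hsymm : ∀ x x' : L, S.Cl (m - 2 * S.e - 2) x x' → S.Cl (m - 2 * S.e - 2) x' x := by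
    intro x x' h
    rcases h with h | h
    · exact Or.inl h.symm
    · exact Or.inr (by rw [c1]; exact h)
  have hfar : ∀ τ ∈ R', ∀ τ' ∈ R', τ ≠ τ' →
      ¬ S.Cl (m - 2 * S.e - 2) (algebraMap k L τ) (algebraMap k L τ') := by
    intro τ hτ τ' hτ' hne h
    rcases h with h | h
    · exact hne ((algebraMap k L).injective h)
    · have := hb τ (hR' hτ) τ' (hR' hτ')
      omega
  -- correction of `y`
  have hy1 : ∃ y1 : k, y1 ∉ R' ∧
      (∀ s ∈ T, ∀ t ∈ T, Eqv p (D s t) ((algebraMap k L y1 - s) / (algebraMap k L y1 - t))) ∧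
      ∀ τ ∈ R', ¬ S.Cl (m - 2 * S.e - 2) (algebraMap k L y1) (algebraMap k L τ) ∨
        ∀ t ∈ T, Eqv p (D (algebraMap k L τ) t)
          ((algebraMap k L y1 - algebraMap k L τ) / (algebraMap k L y1 - t)) := by
    by_cases h : ∃ τ ∈ R', S.Cl (m - 2 * S.e - 2) (algebraMap k L y) (algebraMap k L τ)
    · obtain ⟨τ, hτ, hcl⟩ := h
      obtain ⟨y', hne, hcl', hD'⟩ := h1 p hp k L F inferInstance inferInstance inferInstance
        inferInstance inferInstance inferInstance S ζ a ϖ hE hk T m hm1 hnet hG hd hdm τ y D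
        (cmp_mono S hC (hins τ hτ))
        (fun g s hs t ht => hGD g s (hins τ hτ hs) t (hins τ hτ ht)) hy hcl
      have hfar' : ∀ τ' ∈ R', τ' ≠ τ →
          ¬ S.Cl (m - 2 * S.e - 2) (algebraMap k L y') (algebraMap k L τ') := by
        intro τ' hτ' hne' hcl2
        exact hfar τ hτ τ' hτ' (Ne.symm hne') (c3 _ _ _ _ (hsymm _ _ hcl') hcl2)
      refine ⟨y', ?_, ?_, ?_⟩
      · intro hmem
        exact hfar' y' hmem hne (hrefl _)
      · exact fun s hs t ht => hD' s (Set.mem_insert_of_mem _ hs) t (Set.mem_insert_of_mem _ ht)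
      · intro τ' hτ'
        by_cases he : τ' = τ
        · right
          subst he
          exact fun t ht => hD' _ (Set.mem_insert _ _) t (Set.mem_insert_of_mem _ ht)
        · exact Or.inl (hfar' τ' hτ' he)
    · push Not at h
      refine ⟨y, fun hmem => h y hmem (hrefl _), hy, fun τ hτ => Or.inl (h τ hτ)⟩
  obtain ⟨y1, hy1R, hy1T, hy1τ⟩ := hy1
  refine ⟨y1, hy1R, ?_⟩
  have hyT : algebraMap k L y1 ∉ T := fun h => (hd y1 _ h).1 rfl
  obtain ⟨u, hu, -⟩ := hnet 0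
  have key : ∀ s ∈ T ∪ algebraMap k L '' R', algebraMap k L y1 ≠ s ∧
      Eqv p (D s u) ((algebraMap k L y1 - s) / (algebraMap k L y1 - u)) := by
    intro s hs
    rcases hs with hs | ⟨τ, hτ, rfl⟩
    · exact ⟨fun h => hyT (h ▸ hs), hy1T s hs u hu⟩
    · refine ⟨fun h => hy1R ((algebraMap k L).injective h ▸ hτ), ?_⟩
      rcases hy1τ τ hτ with h | h
      · exact far S h2 hnet (cmp_mono S hC (hins τ hτ)) hyT hy1T h u hu
      · exact h u hu
  intro s hs t ht
  exact pair S hC hs ht (Or.inl hu) (key u (Or.inl hu)).1 (key t ht).1 (key s hs).2 (key t ht).2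

end Pool.Agent.Lib.MP_c385f6_ag.Cpl
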