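import Mathlib
import Pool.Agent.Lib.MP_c385f6_ag.Cpl.Stmts

set_option autoImplicit false

/-!
Rich sets satisfy the hypotheses of the step.
-/

namespace Pool.Agent.Lib.MP_c385f6_ag.Cpl

namespace Richaux

variable {p : ℕ} {L F : Type*} [Field L] [Field F] (S : LF p L F)

theorem v_one : S.v 1 = 0 := by
  have h := S.v_mul 1 1 one_ne_zero one_ne_zero
  rw [one_mul] at h
  linarith

theorem v_neg (x : L) : S.v (-x) = S.v x := by
  by_cases hx : x = 0
  · simp [hx]
  have h1 := S.v_mul (-1) (-1) (neg_ne_zero.2 one_ne_zero) (neg_ne_zero.2 one_ne_zero)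
  have h2 : ((-1 : L) * -1) = 1 := by ring
  rw [h2, v_one] at h1
  have h3 := S.v_mul (-1) x (neg_ne_zero.2 one_ne_zero) hx
  have h4 : (-1 : L) * x = -x := by ring
  rw [h4] at h3
  linarith

theorem v_sub_comm (x y : L) : S.v (x - y) = S.v (y - x) := by
  rw [← v_neg, neg_sub]

theorem v_inv (x : L) (hx : x ≠ 0) : S.v x⁻¹ = - S.v x := by
  have h := S.v_mul x x⁻¹ hx (inv_ne_zero hx)
  rw [mul_inv_cancel₀ hx, v_one] at h
  linarith

theorem v_pow (n : ℕ) : S.v (S.π ^ n) = n := by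
  induction n with
  | zero => simp [v_one]
  | succ n ih =>
    rw [pow_succ, S.v_mul _ _ (pow_ne_zero _ S.pi_ne) S.pi_ne, ih, S.v_pi]
    push_cast
    ring

theorem v_zpow (n : ℤ) : S.v (S.π ^ n) = n := by
  obtain ⟨m, rfl | rfl⟩ := n.eq_nat_or_neg
  · rw [zpow_natCast, v_pow]
  · rw [zpow_neg, zpow_natCast, v_inv _ _ (pow_ne_zero _ S.pi_ne), v_pow]

/-- The strict triangle equality. -/
theorem v_add_eq (x y : L) (hx : x ≠ 0) (hy : y = 0 ∨ S.v x < S.v y) :
    x + y ≠ 0 ∧ S.v (x + y) = S.v x := by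
  rcases eq_or_ne y 0 with rfl | hy0
  · simpa using hx
  have hy' : S.v x < S.v y := hy.resolve_left hy0
  have hne : x + y ≠ 0 := by
    intro h
    have : x = -y := eq_neg_of_add_eq_zero_left h
    rw [this, v_neg] at hy'
    exact lt_irrefl _ hy'
  refine ⟨hne, le_antisymm ?_ ?_⟩
  · by_contra hcon
    push Not at hcon
    have h1 : (x + y) + (-y) = x := by ring
    have h2 := S.v_add (x + y) (-y) hne (neg_ne_zero.2 hy0) (by rwa [h1])
    rw [h1, v_neg] at h2
    have := lt_min hcon hy'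
    omega
  · have := S.v_add x y hx hy0 hne
    rw [min_eq_left hy'.le] at this
    exact this

/-- The weak form. -/
theorem v_min (x y : L) (a : ℤ) (hx : a ≤ S.v x) (hy : a ≤ S.v y) (h0 : a ≤ 0) :
    a ≤ S.v (x + y) := by
  by_cases hxy : x + y = 0
  · rw [hxy, S.v_zero]
    exact h0
  by_cases h1 : x = 0
  · rwa [h1, zero_add]
  by_cases h2 : y = 0
  · rwa [h2, add_zero]
  exact (le_min hx hy).trans (S.v_add x y h1 h2 hxy)

theorem dd_eq (x : L) (n : ℤ) : S.dd x n = n - 2 * min (min n (S.v x)) 0 := by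
  unfold LF.dd LF.vm
  by_cases h : S.Gz n x
  · rw [if_pos h]
    rcases h with rfl | h
    · rw [S.v_zero]
      congr 2
      omega
    · congr 2
      omega
  · rw [if_neg h]
    unfold LF.Gz at h
    push Not at h
    congr 2
    omega

/-- The distance of a branching ball. -/
theorem dd_le (x y : L) (a : ℤ) (h : S.v (y - x) = a) :
    S.dd x (a + 1) ≤ a + 1 - 2 * min (min a (S.v y)) 0 := by
  rw [dd_eq]
  have h1 : min (min a (S.v y)) 0 ≤ S.v x := by
    have h2 : y + -(y - x) = x := by ring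
    have h3 := v_min S y (-(y - x)) (min (min a (S.v y)) 0) (by omega)
      (by rw [v_neg, h]; omega) (by omega)
    rwa [h2] at h3
  omega

end Richaux

theorem stRich : StRich := by
  intro p _ L F _ _ S T m y j hR
  refine ⟨fun h1 h2 i hi hie x hx hv => ?_, fun h1 => ?_⟩
  · refine hR x (j - i + 1) ?_
    have h3 := Richaux.dd_le S x y (j - i) hv
    rw [Richaux.dd_eq] at h1
    omega
  · have hπ : S.π ^ (j + 1) ≠ 0 := zpow_ne_zero _ S.pi_ne
    obtain ⟨t, ht, hg⟩ := hR (y + S.π ^ (j + 1)) (j + 1 + 1) (by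
      have h3 := Richaux.dd_le S (y + S.π ^ (j + 1)) y (j + 1) (by
        rw [← Richaux.v_neg]
        have : -(y - (y + S.π ^ (j + 1))) = S.π ^ (j + 1) := by ring
        rw [this, Richaux.v_zpow])
      rw [Richaux.dd_eq] at h1
      omega)
    have h4 := Richaux.v_add_eq S (S.π ^ (j + 1)) (t - (y + S.π ^ (j + 1))) hπ (by
      rcases hg with hg | hg
      · exact Or.inl hg
      · right
        rw [Richaux.v_zpow]
        omega)
    have h5 : S.π ^ (j + 1) + (t - (y + S.π ^ (j + 1))) = t - y := by ring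
    rw [h5, Richaux.v_zpow] at h4
    refine ⟨t, ht, fun h => h4.1 (by rw [h, sub_self]), ?_⟩
    rw [Richaux.v_sub_comm, h4.2]

end Pool.Agent.Lib.MP_c385f6_ag.Cpl
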