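import Pool.Agent.Lib.MP_c385f6_ag.Cpl.Stmts

set_option autoImplicit false

/-! Section 2: the errors are orthogonal to the units of high level. -/

namespace Pool.Agent.Lib.MP_c385f6_ag.Cpl

namespace SpanAux

variable {p : ℕ} {L F : Type*} [Field L] [Field F] (S : LF p L F)

theorem v_one : S.v 1 = 0 := by
  have h := S.v_mul 1 1 one_ne_zero one_ne_zero
  rw [mul_one] at h
  omega

theorem v_neg {x : L} (hx : x ≠ 0) : S.v (-x) = S.v x := by
  have h1 : (-1 : L) ≠ 0 := neg_ne_zero.2 one_ne_zero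
  have h := S.v_mul (-1) (-1) h1 h1
  rw [neg_mul_neg, mul_one, v_one] at h
  have h2 := S.v_mul (-1) x h1 hx
  rw [neg_one_mul] at h2
  omega

theorem v_div {x y : L} (hx : x ≠ 0) (hy : y ≠ 0) : S.v (x / y) = S.v x - S.v y := by
  have h := S.v_mul (x / y) y (div_ne_zero hx hy) hy
  rw [div_mul_cancel₀ x hy] at h
  omega

/-- the sum of an element and an element of larger valuation -/
theorem v_add_of_lt {x y : L} (hx : x ≠ 0) (hy : y = 0 ∨ S.v x < S.v y) :
    x + y ≠ 0 ∧ S.v (x + y) = S.v x := by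
  rcases eq_or_ne y 0 with rfl | hy0
  · simp [hx]
  · have hlt : S.v x < S.v y := hy.resolve_left hy0
    have h0 : x + y ≠ 0 := by
      intro h
      have h1 : x = -y := eq_neg_of_add_eq_zero_left h
      rw [h1, v_neg S hy0] at hlt
      exact lt_irrefl _ hlt
    refine ⟨h0, ?_⟩
    have h1 := S.v_add x y hx hy0 h0
    have h2 := S.v_add (x + y) (-y) h0 (neg_ne_zero.2 hy0) (by simpa using hx)
    rw [add_neg_cancel_right, v_neg S hy0] at h2
    omega

theorem h_one {x : L} (hx : x ≠ 0) : S.h x 1 = 0 := by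
  have h := S.h_mul_right x 1 1 hx one_ne_zero one_ne_zero
  rw [mul_one] at h
  exact left_eq_add.1 h

theorem h_pow {x z : L} (hx : x ≠ 0) (hz : z ≠ 0) (n : ℕ) : S.h x (z ^ n) = n * S.h x z := by
  induction n with
  | zero => rw [pow_zero, h_one S hx, Nat.cast_zero, zero_mul]
  | succ n ih =>
    rw [pow_succ, S.h_mul_right x (z ^ n) z hx (pow_ne_zero n hz) hz, ih]
    push_cast
    ring

theorem h_pow_p {x z : L} (hx : x ≠ 0) (hz : z ≠ 0) : S.h x (z ^ p) = 0 := by
  rw [h_pow S hx hz, CharP.cast_eq_zero, zero_mul]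

/-- one step: a unit of level `l` is up to level `l + 1` orthogonal to the error -/
theorem step {T : Set L} {D : L → L} {y : L} {j : ℤ} (hD : S.ACmp T D) (hAP : S.AP T D y j)
    (hO : S.OutR T y j) {s : L} (hs : s ∈ T) (hsy : s ≠ y) {l : ℤ} (hl1 : S.v (y - s) - j + 1 ≤ l)
    (hj : j ≤ S.v (y - s)) (hle : l ≤ S.e) {u : L} (hu0 : u ≠ 0) (hu1 : u ≠ 1)
    (hul : S.v (u - 1) = l) (ih : ∀ w, S.Un (l + 1) w → S.h (D s / (y - s)) w = 0) :
    S.h (D s / (y - s)) u = 0 := by
  have hys : y - s ≠ 0 := sub_ne_zero.2 (Ne.symm hsy)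
  have hu1' : u - 1 ≠ 0 := sub_ne_zero.2 hu1
  set q := (y - s) / (u - 1) with hq
  have hq0 : q ≠ 0 := div_ne_zero hys hu1'
  have hvq : S.v q = S.v (y - s) - l := by rw [hq, v_div S hys hu1', hul]
  -- `v u = 0`
  have hvu : S.v u = 0 := by
    have h1 := (v_add_of_lt S (x := 1) (y := u - 1) one_ne_zero
      (Or.inr (by rw [v_one S, hul]; omega))).2
    rwa [add_sub_cancel, v_one S] at h1
  set i : ℤ := l - (S.v (y - s) - j) with hi
  set x := s - q with hx
  have hyx : y - x = q * u := by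
    rw [hx, hq]
    field_simp
    ring
  have hyx0 : y - x ≠ 0 := by rw [hyx]; exact mul_ne_zero hq0 hu0
  have hvyx : S.v (y - x) = j - i := by
    rw [hyx, S.v_mul q u hq0 hu0, hvq, hvu]
    omega
  obtain ⟨t, ht, hGz⟩ := hO i (by omega) (by omega) x (Ne.symm (sub_ne_zero.1 hyx0)) hvyx
  -- `t`
  have htx : t - x = 0 ∨ j - i + 1 ≤ S.v (t - x) := hGz
  have hxt : x - t = 0 ∨ j - i + 1 ≤ S.v (x - t) := by
    rcases htx with h | h
    · left
      rw [← neg_sub t x, h, neg_zero]
    · rcases eq_or_ne (x - t) 0 with h0 | h0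
      · exact Or.inl h0
      · right
        rw [← neg_sub x t, v_neg S h0] at h
        exact h
  obtain ⟨hyt0, hvyt⟩ := v_add_of_lt S (x := y - x) (y := x - t) hyx0
    (hxt.imp_right fun h => by omega)
  rw [sub_add_sub_cancel] at hyt0 hvyt
  rw [hvyx] at hvyt
  have hsx : s - x = q := by rw [hx]; ring
  have hsx0 : s - x ≠ 0 := by rw [hsx]; exact hq0
  have hvsx : S.v (s - x) = j - i := by rw [hsx, hvq]; omega
  obtain ⟨hst0, hvst⟩ := v_add_of_lt S (x := s - x) (y := x - t) hsx0
    (hxt.imp_right fun h => by omega)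
  rw [sub_add_sub_cancel] at hst0 hvst
  rw [hvsx] at hvst
  have hst : s ≠ t := sub_ne_zero.1 hst0
  have hts0 : t - s ≠ 0 := sub_ne_zero.2 hst.symm
  -- `D t ~ y - t`
  obtain ⟨z, hz0, hz⟩ := hAP t ht (by
    rintro (h | h)
    · exact hyt0 h
    · omega)
  have hDs0 : D s ≠ 0 := hD.ne s hs
  set E := D s / (y - s) with hE
  have hE0 : E ≠ 0 := div_ne_zero hDs0 hys
  set P := (y - s) / (t - s) with hP
  set R := (y - t) / (s - t) with hR
  have hP0 : P ≠ 0 := div_ne_zero hys hts0
  have hR0 : R ≠ 0 := div_ne_zero hyt0 hst0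
  have hPR : P + R = 1 := by
    have h1 : t - s = -(s - t) := by ring
    rw [hP, hR, h1, div_neg]
    field_simp
    ring
  -- `h E R = 0`
  have hER : S.h E R = 0 := by
    have h1 := hD.rel s hs t ht hst
    have h2 : D s / (t - s) = E * P := by
      rw [hE, hP]
      field_simp
    have h3 : D t / (s - t) = R * z ^ p := by
      rw [hz, hR]
      ring
    rw [h2, h3, S.h_mul_right (E * P) R (z ^ p) (mul_ne_zero hE0 hP0) hR0 (pow_ne_zero p hz0),
      h_pow_p S (mul_ne_zero hE0 hP0) hz0, add_zero, S.h_mul_left E P R hE0 hP0 hR0,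
      S.steinberg P R hP0 hR0 hPR, add_zero] at h1
    exact h1
  -- `u / R` is of level `l + 1`
  have hvR : S.v R = 0 := by
    rw [hR, v_div S hyt0 hst0, hvyt, hvst]
    omega
  have huR : u / R - 1 = (u - 1) * (x - t) / ((s - t) * R) := by
    have h1 : (u - 1) * q = y - s := by rw [hq]; field_simp
    have h2 : R * (s - t) = y - t := by rw [hR]; field_simp
    rw [eq_div_iff (mul_ne_zero hst0 hR0)]
    have h3 : (u / R - 1) * ((s - t) * R) = (u - R) * (s - t) := by field_simp
    rw [h3]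
    have h4 : x = s - q := hx
    rw [h4]
    linear_combination h1 - h2
  have hUn : S.Un (l + 1) (u / R) := by
    refine ⟨div_ne_zero hu0 hR0, ?_⟩
    rcases eq_or_ne (x - t) 0 with h0 | h0
    · left
      rw [h0, mul_zero, zero_div] at huR
      exact sub_eq_zero.1 huR
    · right
      rw [huR, v_div S (mul_ne_zero hu1' h0) (mul_ne_zero hst0 hR0), S.v_mul _ _ hu1' h0,
        S.v_mul _ _ hst0 hR0, hul, hvR, hvst]
      have := hxt.resolve_left h0
      omega
  have hfin := S.h_mul_right E (u / R) R hE0 (div_ne_zero hu0 hR0) hR0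
  rw [div_mul_cancel₀ u hR0, ih _ hUn, hER, add_zero] at hfin
  exact hfin

end SpanAux

open SpanAux in
theorem stSpan (h1 : StSym) : StSpan := by
  intro p hp L F _ _ S T D y j hD hAP hO s hs hsy hj
  have hE0 : D s / (y - s) ≠ 0 := div_ne_zero (hD.ne s hs) (sub_ne_zero.2 (Ne.symm hsy))
  obtain ⟨-, -, -, -, h5, -⟩ := h1 p hp L F _ _ S
  have key : ∀ (k : ℕ) (l : ℤ), (S.e : ℤ) + 1 - l ≤ k → S.v (y - s) - j + 1 ≤ l →
      ∀ u, S.Un l u → S.h (D s / (y - s)) u = 0 := by
    intro k
    induction k with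
    | zero =>
      intro l hk hl u hu
      refine (h5 _ u hE0 ⟨hu.1, hu.2.imp_right fun h => ?_⟩).1
      push_cast at hk
      omega
    | succ k ih =>
      intro l hk hl u hu
      obtain ⟨hu0, hu⟩ := hu
      rcases eq_or_ne u 1 with rfl | hu1
      · exact h_one S hE0
      · have hul := hu.resolve_left hu1
        rcases hul.eq_or_lt with he | hlt
        · rcases le_or_gt l S.e with hle | hgt
          · exact step S hD hAP hO hs hsy hl hj hle hu0 hu1 he.symm
              (ih (l + 1) (by push_cast at hk; omega) (by omega))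
          · exact (h5 _ u hE0 ⟨hu0, Or.inr (by omega)⟩).1
        · exact ih (l + 1) (by push_cast at hk; omega) (by omega) u ⟨hu0, Or.inr (by omega)⟩
  intro u hu
  exact key ((S.e : ℤ) + 1 - (S.v (y - s) - j + 1)).toNat _ (by omega) le_rfl u hu

end Pool.Agent.Lib.MP_c385f6_ag.Cpl
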