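import Mathlib
import Pool.Agent.Lib.MP_c385f6_ag.Cpl.Stmts

set_option autoImplicit false

/-!
One step towards `y`.
-/

namespace Pool.Agent.Lib.MP_c385f6_ag.Cpl

namespace StepAux

variable {p : ℕ} {L F : Type} [Field L] [Field F] (S : LF p L F)

theorem mul_one_add_div {a b : L} (hb : b ≠ 0) : b * (1 + a / b) = b + a := by
  field_simp

theorem v_one : S.v 1 = 0 := by
  have h := S.v_mul 1 1 one_ne_zero one_ne_zero
  rw [one_mul] at h
  omega

theorem v_neg_one : S.v (-1) = 0 := by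
  have h := S.v_mul (-1) (-1) (neg_ne_zero.2 one_ne_zero) (neg_ne_zero.2 one_ne_zero)
  rw [neg_mul_neg, one_mul, v_one] at h
  omega

theorem v_neg (x : L) : S.v (-x) = S.v x := by
  by_cases hx : x = 0
  · rw [hx, neg_zero]
  · have h := S.v_mul (-1) x (neg_ne_zero.2 one_ne_zero) hx
    rw [neg_one_mul, v_neg_one, zero_add] at h
    exact h

theorem v_sub_comm (x y : L) : S.v (x - y) = S.v (y - x) := by
  rw [← neg_sub, v_neg]

theorem v_inv {x : L} (hx : x ≠ 0) : S.v x⁻¹ = -S.v x := by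
  have h := S.v_mul x x⁻¹ hx (inv_ne_zero hx)
  rw [mul_inv_cancel₀ hx, v_one] at h
  omega

theorem v_div {x y : L} (hx : x ≠ 0) (hy : y ≠ 0) : S.v (x / y) = S.v x - S.v y := by
  rw [div_eq_mul_inv, S.v_mul _ _ hx (inv_ne_zero hy), v_inv S hy]
  ring

theorem v_pow_nat {x : L} (hx : x ≠ 0) (n : ℕ) : S.v (x ^ n) = n * S.v x := by
  induction n with
  | zero => rw [pow_zero, v_one, Nat.cast_zero, zero_mul]
  | succ n ih =>
    rw [pow_succ, S.v_mul _ _ (pow_ne_zero n hx) hx, ih, Nat.cast_succ]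
    ring

theorem v_pi_zpow (n : ℤ) : S.v (S.π ^ n) = n := by
  have hp : S.π ≠ 0 := S.pi_ne
  rcases Int.eq_nat_or_neg n with ⟨m, rfl | rfl⟩
  · rw [zpow_natCast, v_pow_nat S hp, S.v_pi, mul_one]
  · rw [zpow_neg, zpow_natCast, v_inv S (pow_ne_zero m hp), v_pow_nat S hp, S.v_pi, mul_one]

theorem gz_add {n : ℤ} {x y : L} (hx : S.Gz n x) (hy : S.Gz n y) : S.Gz n (x + y) := by
  by_cases hx0 : x = 0
  · rw [hx0, zero_add]
    exact hy
  by_cases hy0 : y = 0
  · rw [hy0, add_zero]
    exact hx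
  by_cases hs : x + y = 0
  · exact Or.inl hs
  · right
    have h := S.v_add x y hx0 hy0 hs
    have h1 := hx.resolve_left hx0
    have h2 := hy.resolve_left hy0
    exact le_trans (le_min h1 h2) h

theorem gz_neg {n : ℤ} {x : L} (hx : S.Gz n x) : S.Gz n (-x) := by
  rcases hx with h | h
  · left
    rw [h, neg_zero]
  · right
    rw [v_neg]
    exact h

theorem gz_sub {n : ℤ} {x y : L} (hx : S.Gz n x) (hy : S.Gz n y) : S.Gz n (x - y) := by
  rw [sub_eq_add_neg]
  exact gz_add S hx (gz_neg S hy)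

theorem gz_mono {n m : ℤ} {x : L} (hx : S.Gz n x) (h : m ≤ n) : S.Gz m x :=
  hx.imp id (le_trans h)

theorem gz_mul {n m : ℤ} {x y : L} (hx : S.Gz n x) (hy : S.Gz m y) : S.Gz (n + m) (x * y) := by
  by_cases hx0 : x = 0
  · left
    rw [hx0, zero_mul]
  by_cases hy0 : y = 0
  · left
    rw [hy0, mul_zero]
  right
  have h1 := hx.resolve_left hx0
  have h2 := hy.resolve_left hy0
  rw [S.v_mul _ _ hx0 hy0]
  omega

theorem gz_div {n : ℤ} {x y : L} (hx : S.Gz n x) (hy : y ≠ 0) : S.Gz (n - S.v y) (x / y) := by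
  rw [div_eq_mul_inv, sub_eq_add_neg]
  exact gz_mul S hx (Or.inr (v_inv S hy).ge)

/-- a nonzero number plus a smaller one -/
theorem add_small {n : ℤ} {x y : L} (hx0 : x ≠ 0) (hx : S.v x = n) (hy : S.Gz (n + 1) y) :
    x + y ≠ 0 ∧ S.v (x + y) = n := by
  have h0 : x + y ≠ 0 := by
    intro h
    have h1 : x = -y := eq_neg_of_add_eq_zero_left h
    rcases hy with h2 | h2
    · exact hx0 (by rw [h1, h2, neg_zero])
    · rw [h1, v_neg] at hx
      omega
  refine ⟨h0, le_antisymm ?_ ?_⟩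
  · by_contra hlt
    push Not at hlt
    have h1 : S.Gz (n + 1) (x + y - y) := gz_sub S (Or.inr (by omega)) hy
    rw [add_sub_cancel_right] at h1
    have := h1.resolve_left hx0
    omega
  · have h1 : S.Gz n (x + y) := gz_add S (Or.inr hx.ge) (gz_mono S hy (by omega))
    exact h1.resolve_left h0

theorem one_add_ne {x : L} (hx : S.Gz 1 x) : 1 + x ≠ 0 ∧ S.v (1 + x) = 0 :=
  add_small S one_ne_zero (v_one S) (by rwa [zero_add])

theorem un_one_add {n : ℤ} {x : L} (hn : 1 ≤ n) (hx : S.Gz n x) : S.Un n (1 + x) := by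
  refine ⟨(one_add_ne S (gz_mono S hx hn)).1, ?_⟩
  rcases hx with h | h
  · left
    rw [h, add_zero]
  · right
    rwa [add_sub_cancel_left]

theorem res_z : S.res 0 = 0 := (S.res_zero 0 (by rw [S.v_zero])).2 (Or.inl rfl)

theorem nonneg_of_gz {n : ℤ} {x : L} (hn : 0 ≤ n) (hx : S.Gz n x) : 0 ≤ S.v x := by
  rcases hx with h | h
  · rw [h, S.v_zero]
  · omega

theorem res_small {x : L} (hx : S.Gz 1 x) : S.res x = 0 := by
  refine (S.res_zero x (nonneg_of_gz S (by norm_num) hx)).2 ?_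
  exact hx

theorem small_of_res {x : L} (hx0 : 0 ≤ S.v x) (hx : S.res x = 0) : S.Gz 1 x :=
  (S.res_zero x hx0).1 hx

theorem res_sub {x y : L} (hx : S.Gz 0 x) (hy : S.Gz 0 y) :
    S.res (x - y) = S.res x - S.res y := by
  have h := S.res_add (x - y) y (nonneg_of_gz S le_rfl (gz_sub S hx hy))
    (nonneg_of_gz S le_rfl hy)
  rw [sub_add_cancel] at h
  rw [h]
  ring

theorem gz_of_nonneg {x : L} (hx : 0 ≤ S.v x) : S.Gz 0 x := Or.inr hx

/-- numbers with the same residue -/
theorem res_eq_iff {x y : L} (hx : S.Gz 0 x) (hy : S.Gz 0 y) :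
    S.res x = S.res y ↔ S.Gz 1 (x - y) := by
  rw [← sub_eq_zero, ← res_sub S hx hy]
  exact ⟨fun h => small_of_res S (nonneg_of_gz S le_rfl (gz_sub S hx hy)) h,
    fun h => res_small S h⟩

theorem res_div {x y : L} (hx : S.Gz 0 x) (hy0 : y ≠ 0) (hy : S.v y = 0) :
    S.res x = S.res (x / y) * S.res y := by
  have h1 : S.Gz 0 (x / y) := by
    have := gz_div S hx hy0
    rwa [hy, sub_zero] at this
  rw [← S.res_mul _ _ (nonneg_of_gz S le_rfl h1) hy.ge, div_mul_cancel₀ _ hy0]

theorem res_unit_ne {y : L} (hy0 : y ≠ 0) (hy : S.v y = 0) : S.res y ≠ 0 := by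
  intro h
  have := (small_of_res S hy.ge h).resolve_left hy0
  omega

theorem h_pow_right {x y : L} (hx : x ≠ 0) (hy : y ≠ 0) (n : ℕ) :
    S.h x (y ^ n) = n * S.h x y := by
  induction n with
  | zero =>
    have h := S.h_mul_right x 1 1 hx one_ne_zero one_ne_zero
    rw [one_mul] at h
    rw [pow_zero, Nat.cast_zero, zero_mul]
    exact left_eq_add.1 h
  | succ n ih =>
    rw [pow_succ, S.h_mul_right _ _ _ hx (pow_ne_zero n hy) hy, ih, Nat.cast_succ]
    ring

theorem h_pow_left {x y : L} (hx : x ≠ 0) (hy : y ≠ 0) (n : ℕ) :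
    S.h (x ^ n) y = n * S.h x y := by
  induction n with
  | zero =>
    have h := S.h_mul_left 1 1 y one_ne_zero one_ne_zero hy
    rw [one_mul] at h
    rw [pow_zero, Nat.cast_zero, zero_mul]
    exact left_eq_add.1 h
  | succ n ih =>
    rw [pow_succ, S.h_mul_left _ _ _ (pow_ne_zero n hx) hx hy, ih, Nat.cast_succ]
    ring

end StepAux

open StepAux in
theorem stStep (h1 : StSym) (h2 : StDual) (h3 : StSpan) : StStep := by
  intro p _ L F _ _ S T D y j hC hA hO hex
  obtain ⟨s, hs, hsy, hvs⟩ := hex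
  obtain ⟨hanti, heqv, -, -, htop, hunr, -, ⟨l, hladd, hlne, hl⟩, h9⟩ :=
    h1 p inferInstance L F inferInstance inferInstance S
  have hspan := h3 p inferInstance L F inferInstance inferInstance S T D y j hC hA hO
  have he2 : (2 : ℤ) ≤ S.e := by exact_mod_cast S.two_le
  have hys : y - s ≠ 0 := sub_ne_zero.2 hsy.symm
  have hDs : D s ≠ 0 := hC.ne s hs
  set Es := D s / (y - s) with hEs
  have hEs0 : Es ≠ 0 := div_ne_zero hDs hys
  have hpi : S.π ≠ 0 := S.pi_ne
  -- the error at `s`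
  have hE2 : ∀ u, S.Un 2 u → S.h Es u = 0 := by
    intro u hu
    refine hspan s hs hsy (by omega) u ?_
    have : S.v (y - s) - j + 1 = 2 := by omega
    rw [this]
    exact hu
  obtain ⟨hEom, -⟩ := h9 Es hEs0 hE2
  -- the additive map
  choose lift hlift hres using S.res_surj
  have hpsi0 : ∀ x x' : L, S.Gz 0 x → S.Gz 0 x' → S.Gz 1 (x - x') →
      S.h Es (1 + x * S.π) = S.h Es (1 + x' * S.π) := by
    intro x x' hx hx' hxx
    have hg1 : ∀ z : L, S.Gz 0 z → S.Gz 1 (z * S.π) := by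
      intro z hz
      have := gz_mul S hz (Or.inr S.v_pi.ge : S.Gz 1 S.π)
      rwa [zero_add] at this
    obtain ⟨n1, -⟩ := one_add_ne S (hg1 x hx)
    obtain ⟨n2, n3⟩ := one_add_ne S (hg1 x' hx')
    have hu : S.Gz 2 ((x - x') * S.π / (1 + x' * S.π)) := by
      have h4 := gz_div S (gz_mul S hxx (Or.inr S.v_pi.ge : S.Gz 1 S.π)) n2
      rw [n3] at h4
      exact gz_mono S h4 (by norm_num)
    have hun := un_one_add S (by norm_num) hu
    have h5 : 1 + x * S.π = (1 + x' * S.π) * (1 + (x - x') * S.π / (1 + x' * S.π)) := by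
      rw [mul_one_add_div n2]
      ring
    rw [h5, S.h_mul_right _ _ _ hEs0 n2 hun.1, hE2 _ hun, add_zero]
  set ψ : F → ZMod p := fun a => S.h Es (1 + lift a * S.π) with hψ
  have hpsi : ∀ x : L, S.Gz 0 x → S.h Es (1 + x * S.π) = ψ (S.res x) := by
    intro x hx
    refine hpsi0 x _ hx (gz_of_nonneg S (hlift _)) ?_
    rw [← res_eq_iff S hx (gz_of_nonneg S (hlift _)), hres]
  have hpsiadd : ∀ a b, ψ (a + b) = ψ a + ψ b := by
    intro a b
    have ha := gz_of_nonneg S (hlift a)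
    have hb := gz_of_nonneg S (hlift b)
    have e1 : ψ (a + b) = S.h Es (1 + (lift a + lift b) * S.π) := by
      rw [hpsi _ (gz_add S ha hb), S.res_add _ _ (hlift a) (hlift b), hres, hres]
    have hg1 : ∀ z : L, S.Gz 0 z → S.Gz 1 (z * S.π) := by
      intro z hz
      have := gz_mul S hz (Or.inr S.v_pi.ge : S.Gz 1 S.π)
      rwa [zero_add] at this
    obtain ⟨n1, v1⟩ := one_add_ne S (hg1 _ ha)
    obtain ⟨n2, v2⟩ := one_add_ne S (hg1 _ hb)
    obtain ⟨n3, v3⟩ := one_add_ne S (hg1 _ (gz_add S ha hb))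
    have hu : S.Gz 2 (lift a * S.π * (lift b * S.π) / (1 + (lift a + lift b) * S.π)) := by
      have h4 := gz_div S (gz_mul S (hg1 _ ha) (hg1 _ hb)) n3
      rw [v3] at h4
      exact gz_mono S h4 (by norm_num)
    have hun := un_one_add S (by norm_num) hu
    have h5 : (1 + lift a * S.π) * (1 + lift b * S.π) = (1 + (lift a + lift b) * S.π) *
        (1 + lift a * S.π * (lift b * S.π) / (1 + (lift a + lift b) * S.π)) := by
      rw [mul_one_add_div n3]
      ring
    have h6 : S.h Es ((1 + lift a * S.π) * (1 + lift b * S.π)) = ψ a + ψ b :=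
      S.h_mul_right _ _ _ hEs0 n1 n2
    rw [e1, ← h6, h5, S.h_mul_right _ _ _ hEs0 n3 hun.1, hE2 _ hun, add_zero]
  have := S.finF
  obtain ⟨κ, hκ⟩ := h2 p inferInstance F inferInstance inferInstance l hladd hlne ψ hpsiadd
  -- the leading coefficient of `y - s`
  set sg := (y - s) / S.π ^ (j + 1) with hsg
  have hsg0 : sg ≠ 0 := div_ne_zero hys (zpow_ne_zero _ hpi)
  have hvsg : S.v sg = 0 := by
    rw [hsg, v_div S hys (zpow_ne_zero _ hpi), v_pi_zpow, hvs, sub_self]
  set k' := lift (κ * S.res sg) with hk'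
  have hk'0 : S.Gz 0 k' := gz_of_nonneg S (hlift _)
  have hk'r : S.res k' = κ * S.res sg := hres _
  have hmove : S.Gz (j + S.e) (k' * S.π ^ (j + S.e)) := by
    have := gz_mul S hk'0 (Or.inr (v_pi_zpow S (j + S.e)).ge : S.Gz (j + S.e) (S.π ^ (j + (S.e : ℤ))))
    rwa [zero_add] at this
  refine ⟨y + k' * S.π ^ (j + (S.e : ℤ)), by rwa [add_sub_cancel_left], ?_⟩
  intro t ht hnt
  set η := k' * S.π ^ (j + (S.e : ℤ)) with hη
  -- `t` is at the same distance from `y`
  have hy't : y + η - t ≠ 0 := fun h => hnt (Or.inl h)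
  have hv' : S.v (y + η - t) ≤ j := by
    by_contra hlt
    exact hnt (Or.inr (by omega))
  obtain ⟨hyt, hvt⟩ : y - t ≠ 0 ∧ S.v (y - t) = S.v (y + η - t) := by
    have h4 : y - t = (y + η - t) + (-η) := by ring
    rw [h4]
    exact add_small S hy't rfl (gz_mono S (gz_neg S hmove) (by omega))
  have hDt : D t ≠ 0 := hC.ne t ht
  -- the quotient
  have hq : y + η - t = (y - t) * (1 + η / (y - t)) := by
    rw [mul_one_add_div hyt]
    ring
  have hq0 : 1 + η / (y - t) ≠ 0 := by
    intro h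
    rw [h, mul_zero] at hq
    exact hy't hq
  rcases (hvt ▸ hv' : S.v (y - t) ≤ j).lt_or_eq with hlt | hEq
  · -- smaller valuation
    have h4 : Eqv p (D t) (y - t) := hA t ht (by
      rintro (h | h)
      · exact hyt h
      · omega)
    rw [heqv _ _ 1 hDt hyt one_ne_zero] at h4
    rw [heqv _ _ 1 hDt hy't one_ne_zero]
    intro w hw
    have hu : S.Un (S.e + 1) (1 + η / (y - t)) := by
      refine un_one_add S (by omega) (gz_mono S (gz_div S hmove hyt) (by omega))
    rw [h4 w hw, hq, S.h_mul_left _ _ _ hyt hq0 hw, (htop w _ hw hu).2, add_zero]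
  · -- the level `j`
    have hty : t ≠ y := fun h => hyt (by rw [h, sub_self])
    set Et := D t / (y - t) with hEt
    have hEt0 : Et ≠ 0 := div_ne_zero hDt hyt
    have hEt1 : ∀ u, S.Un 1 u → S.h Et u = 0 := by
      intro u hu
      refine hspan t ht hty (by omega) u ?_
      have : S.v (y - t) - j + 1 = 1 := by omega
      rw [this]
      exact hu
    obtain ⟨c, hc⟩ := hunr Et hEt0 hEt1
    have hom : S.ω ≠ 0 := S.om_ne
    have hc' : ∀ w, w ≠ 0 → S.h Et w = c * (S.v w : ZMod p) := by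
      intro w hw
      rw [heqv _ _ 1 hEt0 (pow_ne_zero c hom) one_ne_zero] at hc
      rw [hc w hw, h_pow_left S hom hw, S.h_omega w hw]
    -- the relation
    have hst0 : s - t = (y - t) + (-(y - s)) := by ring
    obtain ⟨hst, hvst⟩ : s - t ≠ 0 ∧ S.v (s - t) = j := by
      rw [hst0]
      exact add_small S hyt hEq (gz_neg S (Or.inr hvs.ge))
    have hts : t - s ≠ 0 := fun h => hst (by rw [← neg_sub, h, neg_zero])
    set P := (y - s) / (t - s) with hP
    set R := (y - t) / (s - t) with hR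
    have hP0 : P ≠ 0 := div_ne_zero hys hts
    have hR0 : R ≠ 0 := div_ne_zero hyt hst
    have hPR : P + R = 1 := by
      have h5 : t - s = -(s - t) := by ring
      rw [hP, hR, h5, div_neg, ← sub_eq_neg_add, ← sub_div, div_eq_one_iff_eq hst]
      ring
    have hvP : S.v P = 1 := by
      rw [hP, v_div S hys hts, v_sub_comm S t s, hvst, hvs]
      ring
    have hrel := hC.rel s hs t ht (sub_ne_zero.1 hst)
    have e1 : D s / (t - s) = P * Es := by
      rw [hP, hEs]
      field_simp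
    have e2 : D t / (s - t) = R * Et := by
      rw [hR, hEt]
      field_simp
    rw [e1, e2, S.h_mul_left _ _ _ hP0 hEs0 (mul_ne_zero hR0 hEt0),
      S.h_mul_right _ _ _ hP0 hR0 hEt0, S.h_mul_right _ _ _ hEs0 hR0 hEt0,
      S.steinberg P R hP0 hR0 hPR, zero_add, hanti P Et hP0 hEt0, hc' P hP0, hvP] at hrel
    have e3 : S.h Es Et = 0 := by
      rw [hanti Es Et hEs0 hEt0]
      rw [heqv _ _ 1 hEt0 (pow_ne_zero c hom) one_ne_zero] at hc
      rw [hc Es hEs0, h_pow_left S hom hEs0, hanti _ _ hom hEs0, hEom, neg_zero, mul_zero,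
        neg_zero]
    have e4 : S.h Es R = c := by
      rw [e3] at hrel
      push_cast at hrel
      linear_combination hrel
    -- the leading coefficient of `R - 1`
    set tu := (y - t) / S.π ^ j with htu
    have htu0 : tu ≠ 0 := div_ne_zero hyt (zpow_ne_zero _ hpi)
    have hvtu : S.v tu = 0 := by
      rw [htu, v_div S hyt (zpow_ne_zero _ hpi), v_pi_zpow, hEq, sub_self]
    set x := (y - s) / ((s - t) * S.π) with hx
    have hx0 : S.Gz 0 x := by
      right
      rw [hx, v_div S hys (mul_ne_zero hst hpi), S.v_mul _ _ hst hpi, S.v_pi, hvst, hvs]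
      omega
    have hRx : R = 1 + x * S.π := by
      rw [hR, hx]
      field_simp
      ring
    have hsgt : S.Gz 0 (sg / tu) := by
      have := gz_div S (Or.inr hvsg.ge : S.Gz 0 sg) htu0
      rwa [hvtu, sub_zero] at this
    have hresx : S.res x = S.res (sg / tu) := by
      rw [res_eq_iff S hx0 hsgt]
      have h6 : x - sg / tu = (y - s) * (y - s) / ((s - t) * S.π * (y - t)) := by
        rw [hx, hsg, htu, zpow_add₀ hpi, zpow_one]
        have hz : S.π ^ j ≠ 0 := zpow_ne_zero _ hpi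
        field_simp
        ring
      rw [h6]
      right
      rw [v_div S (mul_ne_zero hys hys) (mul_ne_zero (mul_ne_zero hst hpi) hyt),
        S.v_mul _ _ hys hys, S.v_mul _ _ (mul_ne_zero hst hpi) hyt, S.v_mul _ _ hst hpi,
        S.v_pi, hvst, hvs, hEq]
      omega
    have e5 : (c : ZMod p) = l (S.res (k' / tu)) := by
      rw [← e4, hRx, hpsi x hx0, hκ, hresx]
      congr 1
      have hn := res_unit_ne S htu0 hvtu
      apply mul_right_cancel₀ hn
      rw [← res_div S hk'0 htu0 hvtu, hk'r, mul_assoc,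
        ← res_div S (Or.inr hvsg.ge : S.Gz 0 sg) htu0 hvtu]
    have hkt : S.Gz 0 (k' / tu) := by
      have := gz_div S hk'0 htu0
      rwa [hvtu, sub_zero] at this
    have e6 : η / (y - t) = k' / tu * S.π ^ S.e := by
      rw [hη, htu, zpow_add₀ hpi, zpow_natCast]
      have hz : S.π ^ j ≠ 0 := zpow_ne_zero _ hpi
      field_simp
    rw [heqv _ _ 1 hDt hy't one_ne_zero]
    intro w hw
    have e7 : D t = (y - t) * Et := by
      rw [hEt]
      field_simp
    rw [e7, hq, S.h_mul_left _ _ _ hyt hEt0 hw, S.h_mul_left _ _ _ hyt hq0 hw, hc' w hw, e6,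
      hl _ (nonneg_of_gz S le_rfl hkt) w hw, e5]

end Pool.Agent.Lib.MP_c385f6_ag.Cpl
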