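import Mathlib
import Pool.Agent.Lib.MP_c385f6_ag.Cpl.StEx
import Pool.Agent.Lib.MP_c385f6_ag.Cpl.Stmts
import Pool.Agent.Lib.MP_c385f6_ag.Cpl.Chord
import Pool.Agent.Lib.MP_c385f6_ag.Cpl.Desc
import Pool.Agent.Lib.MP_c385f6_ag.Cpl.Cpl

set_option autoImplicit false

/-!
Existence of the sets of points.
-/

namespace Pool.Agent.Lib.MP_c385f6_ag.Cpl

namespace TexAux

theorem exists_out {X Y : Type} (r : X → X → Prop) (hr : Equivalence r) (P : Set X) (Q : Set Y)
    (hQ : Q.Finite) (near : X → Y → Prop) (h1 : ∀ x ∈ P, ∃ q ∈ Q, near x q)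
    (h2 : ∀ x ∈ P, ∀ x' ∈ P, ∀ q, near x q → near x' q → r x x') :
    ∃ out : X → X, (∀ x, r x (out x)) ∧ (∀ x x', r x x' → out x = out x') ∧
      (out '' P).Finite := by
  let s : Setoid X := ⟨r, hr⟩
  have hout : ∀ x x', r x x' → (Quotient.mk s x).out = (Quotient.mk s x').out := by
    intro x x' h
    rw [Quotient.sound (s := s) h]
  refine ⟨fun x => (Quotient.mk s x).out, ?_, hout, ?_⟩
  · intro x
    exact hr.symm (Quotient.mk_out (s := s) x)
  · refine (hQ.biUnion (t := fun q => {c | ∃ x ∈ P, near x q ∧ (Quotient.mk s x).out = c})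
      ?_).subset ?_
    · intro q _
      apply Set.Subsingleton.finite
      rintro c ⟨x, hx, hn, rfl⟩ c' ⟨x', hx', hn', rfl⟩
      exact hout _ _ (h2 x hx x' hx' q hn hn')
    · rintro c ⟨x, hx, rfl⟩
      obtain ⟨q, hq, hn⟩ := h1 x hx
      rw [Set.mem_iUnion₂]
      exact ⟨q, hq, x, hx, hn, rfl⟩

section field

variable {p : ℕ} {L F : Type} [Field L] [Field F] (S : LF p L F)

theorem gz_zero_iff {x : L} : S.Gz 0 x ↔ 0 ≤ S.v x := by
  constructor
  · rintro (h | h)
    · rw [h, S.v_zero]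
    · exact h
  · intro h
    exact Or.inr h

theorem gz_mono {n n' : ℤ} (h : n ≤ n') {x : L} (hx : S.Gz n' x) : S.Gz n x :=
  hx.imp id fun h' => h.trans h'

theorem gz_neg {n : ℤ} {x : L} (h : S.Gz n x) : S.Gz n (-x) := by
  rcases h with h | h
  · exact Or.inl (by rw [h, neg_zero])
  · exact Or.inr (by rwa [DescAux.v_neg])

theorem gz_sub {n : ℤ} {x y : L} (hx : S.Gz n x) (hy : S.Gz n y) : S.Gz n (x - y) := by
  rw [sub_eq_add_neg]
  exact DescAux.gz_add S hx (gz_neg S hy)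

theorem gz_symm {n : ℤ} {x y : L} (h : S.Gz n (x - y)) : S.Gz n (y - x) := by
  rw [← neg_sub]
  exact gz_neg S h

theorem res_iff {x y : L} (hx : 0 ≤ S.v x) (hy : 0 ≤ S.v y) :
    S.res x = S.res y ↔ S.Gz 1 (x - y) := by
  have hxy : 0 ≤ S.v (x - y) :=
    (gz_zero_iff S).1 (gz_sub S ((gz_zero_iff S).2 hx) ((gz_zero_iff S).2 hy))
  have h1 : S.res x = S.res (x - y) + S.res y := by
    rw [← S.res_add _ _ hxy hy, sub_add_cancel]
  have h2 := S.res_zero (x - y) hxy
  unfold LF.Gz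
  rw [← h2, h1]
  constructor
  · intro h
    exact add_eq_right.1 h
  · intro h
    rw [h, zero_add]

theorem gz_pow_mul {n : ℕ} {k : ℤ} {x z : L} (hx : x ≠ 0) (hz : S.Gz k z) :
    S.Gz (n * S.v x + k) (x ^ n * z) := by
  rcases hz with hz | hz
  · exact Or.inl (by rw [hz, mul_zero])
  · by_cases h0 : z = 0
    · exact Or.inl (by rw [h0, mul_zero])
    · refine Or.inr ?_
      rw [S.v_mul _ _ (pow_ne_zero n hx) h0, DescAux.v_pow S x hx]
      omega

theorem gz_div_pow {n : ℕ} {k : ℤ} {x z : L} (hx : x ≠ 0) (hz : S.Gz (n * S.v x + k) z) :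
    S.Gz k (z / x ^ n) := by
  rcases hz with hz | hz
  · exact Or.inl (by rw [hz, zero_div])
  · by_cases h0 : z = 0
    · exact Or.inl (by rw [h0, zero_div])
    · refine Or.inr ?_
      rw [ChordAux.v_div S h0 (pow_ne_zero n hx), DescAux.v_pow S x hx]
      omega

/-- the ring of integers modulo a power of the uniformizer is finite -/
theorem cover (N : ℕ) : ∃ Q : Set L, Q.Finite ∧ ∀ x, 0 ≤ S.v x → ∃ q ∈ Q, S.Gz N (x - q) := by
  induction N with
  | zero =>
    refine ⟨{0}, Set.finite_singleton 0, fun x hx => ⟨0, rfl, ?_⟩⟩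
    rw [sub_zero]
    exact Or.inr (by simpa using hx)
  | succ N ih =>
    obtain ⟨Q, hQ, h⟩ := ih
    choose lift hl0 hl using S.res_surj
    have := S.finF
    refine ⟨(fun q : L × F => q.1 + S.π ^ N * lift q.2) '' (Q ×ˢ Set.univ),
      (hQ.prod Set.finite_univ).image _, fun x hx => ?_⟩
    obtain ⟨q, hq, hxq⟩ := h x hx
    have hz : S.Gz 0 ((x - q) / S.π ^ N) := by
      apply gz_div_pow S S.pi_ne
      rw [S.v_pi, mul_one, add_zero]
      exact hxq
    have hz' := (gz_zero_iff S).1 hz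
    refine ⟨q + S.π ^ N * lift (S.res ((x - q) / S.π ^ N)), ⟨(q, _), ⟨hq, Set.mem_univ _⟩, rfl⟩, ?_⟩
    have h1 : S.Gz 1 ((x - q) / S.π ^ N - lift (S.res ((x - q) / S.π ^ N))) := by
      rw [← res_iff S hz' (hl0 _), hl]
    have h2 := gz_pow_mul S (n := N) S.pi_ne h1
    rw [S.v_pi, mul_one] at h2
    have h3 : x - (q + S.π ^ N * lift (S.res ((x - q) / S.π ^ N))) =
        S.π ^ N * ((x - q) / S.π ^ N - lift (S.res ((x - q) / S.π ^ N))) := by
      have := pow_ne_zero N S.pi_ne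
      field_simp
      ring
    rw [h3]
    exact_mod_cast h2

theorem cl_symm {n : ℤ} {x y : L} (h : S.Cl n x y) : S.Cl n y x := by
  rcases h with h | h
  · exact Or.inl h.symm
  · exact Or.inr (by rwa [ChordAux.dl_comm])

/-- representatives of the classes of the projective line -/
theorem exists_outL {m : ℤ} (hm : 0 ≤ m) : ∃ out : L → L, (∀ x, S.Cl m x (out x)) ∧
    (Set.range out).Finite := by
  obtain ⟨Q, hQ, h⟩ := cover S m.toNat
  have hm' : ((m.toNat : ℕ) : ℤ) = m := Int.toNat_of_nonneg hm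
  rw [hm'] at h
  obtain ⟨out, h1, -, h2⟩ := exists_out (fun x y => S.Cl m x y)
    ⟨fun x => Or.inl rfl, fun h => cl_symm S h, fun h h' => ChordAux.cl_trans S h h'⟩ Set.univ
    (Q ×ˢ (Set.univ : Set Bool)) (hQ.prod Set.finite_univ)
    (fun x q => if q.2 = true then 0 ≤ S.v x ∧ S.Gz m (x - q.1) else
      S.v x < 0 ∧ S.Gz m (x⁻¹ - q.1)) (by
      intro x _
      rcases lt_or_ge (S.v x) 0 with hx | hx
      · obtain ⟨q, hq, hxq⟩ := h x⁻¹ (by rw [DescAux.v_inv]; omega)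
        exact ⟨(q, false), ⟨hq, Set.mem_univ _⟩, by simpa using ⟨hx, hxq⟩⟩
      · obtain ⟨q, hq, hxq⟩ := h x hx
        exact ⟨(q, true), ⟨hq, Set.mem_univ _⟩, by simpa using ⟨hx, hxq⟩⟩) (by
      rintro x _ x' _ ⟨q, b⟩ hq hq'
      cases b with
      | true =>
        simp only [if_true] at hq hq'
        apply DescAux.cl_of_gz S hm hq.1
        have := gz_sub S hq'.2 hq.2
        rwa [sub_sub_sub_cancel_right] at this
      | false =>
        simp only [Bool.false_eq_true, if_false] at hq hq'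
        have hx0 : x ≠ 0 := by
          rintro rfl
          rw [S.v_zero] at hq
          exact lt_irrefl _ hq.1
        have hx0' : x' ≠ 0 := by
          rintro rfl
          rw [S.v_zero] at hq'
          exact lt_irrefl _ hq'.1
        apply DescAux.cl_inv S hx0 hx0'
        apply DescAux.cl_of_gz S hm (by rw [DescAux.v_inv]; omega)
        have := gz_sub S hq'.2 hq.2
        rwa [sub_sub_sub_cancel_right] at this)
  exact ⟨out, h1, by rwa [Set.image_univ] at h2⟩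

/-- the quotient is a `p`-th power -/
theorem quot (hp : p ≠ 0) {N : ℤ} (hN : (S.e : ℤ) + 1 ≤ N) {Y Y' r : L} (hY : 0 ≤ S.v Y)
    (h : S.Gz N (Y' - Y)) (hr : Y ≠ r) (hr' : Y' ≠ r) (hd : S.dl Y r = 0) :
    Eqv p 1 ((Y - r) / (Y' - r)) := by
  by_cases hYY : Y' - Y = 0
  · rw [sub_eq_zero.1 hYY, div_self (sub_ne_zero.2 hr)]
    exact CplAux.erefl _
  have h1 := h.resolve_left hYY
  have h2 : S.v (Y - r) ≤ 0 := by
    unfold LF.dl at hd
    rw [min_eq_left hY] at hd
    have := min_le_left 0 (S.v r)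
    omega
  have h3 : S.v (Y' - r) = S.v (Y - r) := by
    have h4 := ChordAux.v_sub_lt S (x := Y - r) (y := Y - Y') (sub_ne_zero.2 hr)
      (Or.inr (by rw [ChordAux.v_sub_comm S Y Y']; omega))
    rwa [sub_sub_sub_cancel_left] at h4
  obtain ⟨z, hz⟩ := S.pow_unit ((Y - r) / (Y' - r))
    (div_ne_zero (sub_ne_zero.2 hr) (sub_ne_zero.2 hr')) (by
    have h5 : (Y - r) / (Y' - r) - 1 = (Y - Y') / (Y' - r) := by
      have := sub_ne_zero.2 hr'
      field_simp
      ring
    rw [h5, ChordAux.v_div S (by rw [← neg_sub]; exact neg_ne_zero.2 hYY) (sub_ne_zero.2 hr'), h3,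
      ChordAux.v_sub_comm S Y Y']
    omega)
  apply CplAux.esymm
  refine ⟨z, ?_, by rw [one_mul, hz]⟩
  rintro rfl
  rw [zero_pow hp] at hz
  exact div_ne_zero (sub_ne_zero.2 hr) (sub_ne_zero.2 hr') hz

end field

section gal

variable {p : ℕ} {k L F : Type} [Field k] [Field L] [Field F] [Algebra k L]
  {S : LF p L F} {ζ a : L} {ϖ : k}

/-- the data of a conjugate of `a` -/
theorem ext_conj (h : Ext p k L F S ζ a ϖ) (g : L ≃ₐ[k] L) : Ext p k L F S ζ (g a) ϖ where
  prim := h.prim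
  inv := h.inv
  cyc := h.cyc
  deg := h.deg
  charF := h.charF
  vp := h.vp
  pi_ne := h.pi_ne
  pi_pos := h.pi_pos
  pi_dvd := h.pi_dvd
  a_int := by rw [h.inv]; exact h.a_int
  a_res := by
    intro y hy he
    rw [res_iff S hy (by rw [h.inv]; exact h.a_int)] at he
    refine h.a_res y hy ?_
    rw [res_iff S hy h.a_int]
    have h1 : g (algebraMap k L y - a) = algebraMap k L y - g a := by
      rw [map_sub, AlgEquiv.commutes]
    rw [← h1] at he
    rcases he with he | he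
    · exact Or.inl ((map_eq_zero g).1 he)
    · exact Or.inr (by rwa [h.inv] at he)

theorem kind_conj [FiniteDimensional k L] (hp : p ≠ 0) (h : Ext p k L F S ζ a ϖ)
    (hk : Ext.Kind S ζ a ϖ) (g : L ≃ₐ[k] L) : Ext.Kind S ζ (g a) ϖ := by
  rcases hk with ⟨g₀, h1, h2⟩ | ⟨h1, h2, h3⟩
  · left
    refine ⟨g * g₀ * g⁻¹, ?_, ?_⟩
    · simp only [AlgEquiv.mul_apply]
      rw [AlgEquiv.aut_inv, AlgEquiv.symm_apply_apply, h1]
    · intro h3
      apply h2
      have h4 : g₀ (g⁻¹ ζ) = g⁻¹ ζ := by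
        apply g.injective
        rw [AlgEquiv.aut_inv, AlgEquiv.apply_symm_apply]
        simpa only [AlgEquiv.mul_apply, AlgEquiv.aut_inv] using h3
      have : NeZero p := ⟨hp⟩
      have h5 : IsPrimitiveRoot (g⁻¹ ζ) p := h.prim.map_of_injective (g⁻¹).injective
      obtain ⟨i, -, hi⟩ := h5.eq_pow_of_pow_eq_one h.prim.pow_eq_one
      rw [← hi, map_pow, h4]
  · right
    refine ⟨h1, h2, fun y hy => ?_⟩
    have h4 : (algebraMap k L y - g a)⁻¹ = g (algebraMap k L y - a)⁻¹ := by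
      rw [map_inv₀, map_sub, AlgEquiv.commutes]
    rw [h4, Algebra.trace_eq_of_algEquiv]
    exact h3 y hy

/-- the distance of a point of `k` from a point of the set -/
theorem dist_int (h : Ext p k L F S ζ a ϖ) (n : ℕ) (c y : k) :
    algebraMap k L y ≠ algebraMap k L c + algebraMap k L ϖ ^ n * a ∧
    (S.Gz (n * S.v (algebraMap k L ϖ)) (algebraMap k L (y - c)) →
      S.v (algebraMap k L y - (algebraMap k L c + algebraMap k L ϖ ^ n * a)) =
        n * S.v (algebraMap k L ϖ)) ∧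
    (¬ S.Gz (n * S.v (algebraMap k L ϖ)) (algebraMap k L (y - c)) →
      S.v (algebraMap k L y - (algebraMap k L c + algebraMap k L ϖ ^ n * a)) <
        n * S.v (algebraMap k L ϖ)) := by
  have hϖ : algebraMap k L ϖ ≠ 0 := by
    rw [Ne, map_eq_zero]
    exact h.pi_ne
  have hϖn := pow_ne_zero n hϖ
  have ha0 : a ≠ 0 := by
    rintro rfl
    refine h.a_res 0 ?_ ?_
    · rw [map_zero, S.v_zero]
    · rw [map_zero]
  by_cases hg : S.Gz (n * S.v (algebraMap k L ϖ)) (algebraMap k L (y - c))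
  · have hz : S.Gz 0 (algebraMap k L ((y - c) / ϖ ^ n)) := by
      rw [map_div₀, map_pow]
      apply gz_div_pow S hϖ
      rwa [add_zero]
    have hz' := (gz_zero_iff S).1 hz
    have h1 := h.a_res _ hz'
    rw [Ne, res_iff S hz' h.a_int] at h1
    unfold LF.Gz at h1
    push Not at h1
    have h2 : 0 ≤ S.v (algebraMap k L ((y - c) / ϖ ^ n) - a) :=
      (gz_zero_iff S).1 (gz_sub S hz ((gz_zero_iff S).2 h.a_int))
    have h3 : algebraMap k L y - (algebraMap k L c + algebraMap k L ϖ ^ n * a) =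
        algebraMap k L ϖ ^ n * (algebraMap k L ((y - c) / ϖ ^ n) - a) := by
      rw [map_div₀, map_pow, map_sub]
      field_simp
      ring
    have h4 : algebraMap k L y - (algebraMap k L c + algebraMap k L ϖ ^ n * a) ≠ 0 := by
      rw [h3]
      exact mul_ne_zero hϖn h1.1
    refine ⟨sub_ne_zero.1 h4, fun _ => ?_, fun h' => absurd hg h'⟩
    rw [h3, S.v_mul _ _ hϖn h1.1, DescAux.v_pow S _ hϖ]
    omega
  · have hg' := hg
    unfold LF.Gz at hg'
    push Not at hg'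
    have h1 : S.v (algebraMap k L ϖ ^ n * a) = n * S.v (algebraMap k L ϖ) + S.v a := by
      rw [S.v_mul _ _ hϖn ha0, DescAux.v_pow S _ hϖ]
    have h2 := ChordAux.v_sub_lt S (x := algebraMap k L (y - c)) (y := algebraMap k L ϖ ^ n * a)
      hg'.1 (Or.inr (by rw [h1]; have := h.a_int; omega))
    have h3 : algebraMap k L y - (algebraMap k L c + algebraMap k L ϖ ^ n * a) =
        algebraMap k L (y - c) - algebraMap k L ϖ ^ n * a := by
      rw [map_sub]
      ring
    have h4 : algebraMap k L y - (algebraMap k L c + algebraMap k L ϖ ^ n * a) ≠ 0 := by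
      rw [h3]
      intro h5
      rw [sub_eq_zero] at h5
      rw [h5, h1] at hg'
      have := h.a_int
      omega
    refine ⟨sub_ne_zero.1 h4, fun h' => absurd h' hg, fun _ => ?_⟩
    rw [h3, h2]
    exact hg'.2

/-- the first kind of points -/
theorem dl_int (h : Ext p k L F S ζ a ϖ) {n : ℕ} (hn : 1 ≤ n) {c : k}
    (hc : 0 ≤ S.v (algebraMap k L c)) (y : k) :
    algebraMap k L y ≠ algebraMap k L c + algebraMap k L ϖ ^ n * a ∧
    S.dl (algebraMap k L y) (algebraMap k L c + algebraMap k L ϖ ^ n * a) ≤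
      n * S.v (algebraMap k L ϖ) ∧
    (S.dl (algebraMap k L y) (algebraMap k L c + algebraMap k L ϖ ^ n * a) =
      n * S.v (algebraMap k L ϖ) ↔ 0 ≤ S.v (algebraMap k L y) ∧
        S.Gz (n * S.v (algebraMap k L ϖ)) (algebraMap k L (y - c))) := by
  obtain ⟨h1, h2, h3⟩ := dist_int h n c y
  have hW := h.pi_pos
  have hm : 1 ≤ n * S.v (algebraMap k L ϖ) := by
    have : (1 : ℤ) ≤ n := by exact_mod_cast hn
    nlinarith
  have hs : 0 ≤ S.v (algebraMap k L c + algebraMap k L ϖ ^ n * a) := by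
    rw [← gz_zero_iff]
    apply DescAux.gz_add S ((gz_zero_iff S).2 hc)
    rw [← gz_zero_iff] at hc
    have h4 := gz_pow_mul S (n := n) (k := 0) (x := algebraMap k L ϖ) (z := a)
      (by rw [Ne, map_eq_zero]; exact h.pi_ne) ((gz_zero_iff S).2 h.a_int)
    exact gz_mono S (by omega) h4
  refine ⟨h1, ?_⟩
  rcases lt_or_ge (S.v (algebraMap k L y)) 0 with hy | hy
  · have h5 : S.dl (algebraMap k L y) (algebraMap k L c + algebraMap k L ϖ ^ n * a) = 0 := by
      rw [ChordAux.dl_of_lt S (by omega)]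
      omega
    rw [h5]
    refine ⟨by omega, ?_, ?_⟩
    · intro h6
      omega
    · intro h6
      omega
  · have h5 : S.dl (algebraMap k L y) (algebraMap k L c + algebraMap k L ϖ ^ n * a) =
        S.v (algebraMap k L y - (algebraMap k L c + algebraMap k L ϖ ^ n * a)) := by
      unfold LF.dl
      omega
    rw [h5]
    by_cases hg : S.Gz (n * S.v (algebraMap k L ϖ)) (algebraMap k L (y - c))
    · exact ⟨(h2 hg).le, fun _ => ⟨hy, hg⟩, fun _ => h2 hg⟩
    · exact ⟨(h3 hg).le, fun h6 => absurd h6 (h3 hg).ne, fun h6 => absurd h6.2 hg⟩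

/-- the second kind of points -/
theorem dl_inf (h : Ext p k L F S ζ a ϖ) {n : ℕ} (hn : 1 ≤ n) {c : k}
    (hc : S.Gz 1 (algebraMap k L c)) (y : k) :
    algebraMap k L y ≠ (algebraMap k L c + algebraMap k L ϖ ^ n * a)⁻¹ ∧
    S.dl (algebraMap k L y) (algebraMap k L c + algebraMap k L ϖ ^ n * a)⁻¹ ≤
      n * S.v (algebraMap k L ϖ) ∧
    (S.dl (algebraMap k L y) (algebraMap k L c + algebraMap k L ϖ ^ n * a)⁻¹ =
      n * S.v (algebraMap k L ϖ) ↔ S.v (algebraMap k L y) < 0 ∧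
        S.Gz (n * S.v (algebraMap k L ϖ)) (algebraMap k L (y⁻¹ - c))) := by
  have hW := h.pi_pos
  have hm : 1 ≤ n * S.v (algebraMap k L ϖ) := by
    have : (1 : ℤ) ≤ n := by exact_mod_cast hn
    nlinarith
  have hc0 : 0 ≤ S.v (algebraMap k L c) := by
    rw [← gz_zero_iff]
    exact gz_mono S (by omega) hc
  obtain ⟨h1, h2, h3⟩ := dl_int h hn hc0 y⁻¹
  have hs0 : algebraMap k L c + algebraMap k L ϖ ^ n * a ≠ 0 := by
    have := (dl_int h hn hc0 0).1
    rw [map_zero] at this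
    exact this.symm
  have hs : 1 ≤ S.v (algebraMap k L c + algebraMap k L ϖ ^ n * a) := by
    have h5 : S.Gz 1 (algebraMap k L c + algebraMap k L ϖ ^ n * a) := by
      apply DescAux.gz_add S hc
      have h4 := gz_pow_mul S (n := n) (k := 0) (x := algebraMap k L ϖ) (z := a)
        (by rw [Ne, map_eq_zero]; exact h.pi_ne) ((gz_zero_iff S).2 h.a_int)
      exact gz_mono S (by omega) h4
    exact h5.resolve_left hs0
  by_cases hy0 : y = 0
  · have h5 : S.dl (algebraMap k L y) (algebraMap k L c + algebraMap k L ϖ ^ n * a)⁻¹ = 0 := by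
      rw [hy0, map_zero, ChordAux.dl_comm, ChordAux.dl_of_lt S, S.v_zero]
      · omega
      · rw [DescAux.v_inv, S.v_zero]
        omega
    refine ⟨?_, ?_, ?_⟩
    · rw [hy0, map_zero]
      exact (inv_ne_zero hs0).symm
    · rw [h5]
      omega
    · rw [h5]
      constructor
      · intro h6
        omega
      · rintro ⟨h6, -⟩
        rw [hy0, map_zero, S.v_zero] at h6
        omega
  · have hy : algebraMap k L y ≠ 0 := by
      rw [Ne, map_eq_zero]
      exact hy0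
    have h5 : S.dl (algebraMap k L y) (algebraMap k L c + algebraMap k L ϖ ^ n * a)⁻¹ =
        S.dl (algebraMap k L y⁻¹) (algebraMap k L c + algebraMap k L ϖ ^ n * a) := by
      have h6 := DescAux.dl_inv S (x := algebraMap k L y⁻¹)
        (y := algebraMap k L c + algebraMap k L ϖ ^ n * a)
        (by rw [map_inv₀]; exact inv_ne_zero hy) hs0 h1
      rw [← h6, map_inv₀, inv_inv]
    refine ⟨?_, ?_, ?_⟩
    · intro h6
      apply h1
      rw [map_inv₀, h6, inv_inv]
    · rw [h5]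
      exact h2
    · rw [h5, h3, map_inv₀, DescAux.v_inv]
      constructor
      · rintro ⟨h6, h7⟩
        refine ⟨?_, h7⟩
        have h8 : S.Gz 1 (algebraMap k L y⁻¹) := by
          have h9 := DescAux.gz_add S (gz_mono S hm h7) hc
          rwa [← map_add, sub_add_cancel] at h9
        have h9 := h8.resolve_left (by rw [map_inv₀]; exact inv_ne_zero hy)
        rw [map_inv₀, DescAux.v_inv] at h9
        omega
      · rintro ⟨h6, h7⟩
        exact ⟨by omega, h7⟩

end gal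

theorem alg {L : Type*} [Field L] {x y σ r : L} (hx : x ≠ 0) (hy : y ≠ 0) (hσ : σ ≠ 0)
    (h1 : x ≠ σ) (hr : r ≠ 0) (h2 : y⁻¹ ≠ r) :
    (y⁻¹ - σ⁻¹) * (x⁻¹ - r) / ((x⁻¹ - σ⁻¹) * (y⁻¹ - r)) =
      (y - σ) / (x - σ) * ((x - r⁻¹) / (y - r⁻¹)) := by
  have e1 : y⁻¹ - σ⁻¹ = (σ - y) / (y * σ) := by field_simp
  have e2 : x⁻¹ - σ⁻¹ = (σ - x) / (x * σ) := by field_simp
  have e3 : x⁻¹ - r = (1 - x * r) / x := by field_simp
  have e4 : y⁻¹ - r = (1 - y * r) / y := by field_simp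
  have e5 : x - r⁻¹ = -(1 - x * r) / r := by field_simp; ring
  have e6 : y - r⁻¹ = -(1 - y * r) / r := by field_simp; ring
  have n1 : σ - x ≠ 0 := sub_ne_zero.2 h1.symm
  have n2 : 1 - y * r ≠ 0 := by
    intro h
    apply h2
    rw [← sub_eq_zero, e4, h, zero_div]
  have n3 : x - σ ≠ 0 := sub_ne_zero.2 h1
  rw [e1, e2, e3, e4, e5, e6]
  have n4 : -(1 - y * r) ≠ 0 := neg_ne_zero.2 n2
  have e7 : -(1 - x * r) / r / (-(1 - y * r) / r) = (1 - x * r) / (1 - y * r) := by
    field_simp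
  have e8 : (y - σ) / (x - σ) = (σ - y) / (σ - x) := by
    rw [← neg_sub σ y, ← neg_sub σ x, neg_div_neg_eq]
  rw [e7, e8]
  field_simp

theorem alg0 {L : Type*} [Field L] {x y σ : L} (hx : x ≠ 0) (hy : y ≠ 0) (hσ : σ ≠ 0)
    (h1 : x ≠ σ) :
    (y⁻¹ - σ⁻¹) * (x⁻¹ - 0) / ((x⁻¹ - σ⁻¹) * (y⁻¹ - 0)) = (y - σ) / (x - σ) := by
  have e1 : y⁻¹ - σ⁻¹ = (σ - y) / (y * σ) := by field_simp
  have e2 : x⁻¹ - σ⁻¹ = (σ - x) / (x * σ) := by field_simp
  have n1 : σ - x ≠ 0 := sub_ne_zero.2 h1.symm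
  have n3 : x - σ ≠ 0 := sub_ne_zero.2 h1
  have e8 : (y - σ) / (x - σ) = (σ - y) / (σ - x) := by
    rw [← neg_sub σ y, ← neg_sub σ x, neg_div_neg_eq]
  rw [e1, e2, e8, sub_zero, sub_zero]
  field_simp

end TexAux

open TexAux in
theorem stTex (h1 : StT3) (_h2 : StChord) (_h3 : StSym) : StTex := by
  intro p hp k L F _ _ _ _ _ _ S ζ a ϖ hE hK m0 A hA hAk
  classical
  have hp0 : p ≠ 0 := hp.out.ne_zero
  have hW1 : 1 ≤ S.v (algebraMap k L ϖ) := hE.pi_pos
  have hϖ : algebraMap k L ϖ ≠ 0 := by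
    rw [Ne, map_eq_zero]
    exact hE.pi_ne
  -- the distances of the given points from the points of `k` are bounded
  obtain ⟨b, hb⟩ : ∃ b : ℤ, ∀ x ∈ A, ∀ y : k, S.dl (algebraMap k L y) x ≤ b := by
    have h4 : ∀ x : L, ∃ b : ℤ, x ∈ A → ∀ y : k, S.dl (algebraMap k L y) x ≤ b := by
      intro x
      by_cases hx : x ∈ A
      · obtain ⟨g, hg⟩ : ∃ g : L ≃ₐ[k] L, g x ≠ x := by
          by_contra hcon
          push Not at hcon
          obtain ⟨y, hy⟩ := (IsGalois.mem_range_algebraMap_iff_fixed x).2 hcon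
          exact hAk x hx y hy
        refine ⟨S.dl x (g x), fun _ y => ?_⟩
        have h7 : algebraMap k L y ≠ g x := by
          intro h6
          apply hAk x hx y
          apply g.injective
          rw [AlgEquiv.commutes, h6]
        have h5 := ChordAux.dl_ultra S (x := x) (y := algebraMap k L y) (z := g x)
          (hAk x hx y).symm h7 hg.symm
        have h6 : S.dl (algebraMap k L y) (g x) = S.dl (algebraMap k L y) x := by
          have := CplAux.dl_map hE.inv g (algebraMap k L y) x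
          rwa [AlgEquiv.commutes] at this
        rw [h6, ChordAux.dl_comm S x (algebraMap k L y), min_self] at h5
        exact h5
      · exact ⟨0, fun h => absurd h hx⟩
    choose B hB using h4
    obtain ⟨b, hb⟩ := (hA.image B).bddAbove
    exact ⟨b, fun x hx y => (hB x hx y).trans (hb ⟨x, hx, rfl⟩)⟩
  -- the level
  obtain ⟨n, hn, m, hm, hm0, hbm, hm1⟩ : ∃ n : ℕ, 1 ≤ n ∧ ∃ m : ℤ,
      m = n * S.v (algebraMap k L ϖ) ∧ m0 ≤ m ∧ b < m ∧ 1 ≤ m := by
    refine ⟨(max m0 (b + 1)).toNat + 1, by omega, _, rfl, ?_⟩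
    have h4 : max m0 (b + 1) ≤ ((max m0 (b + 1)).toNat : ℤ) := Int.self_le_toNat _
    have h5 : (((max m0 (b + 1)).toNat + 1 : ℕ) : ℤ) ≤
        (((max m0 (b + 1)).toNat + 1 : ℕ) : ℤ) * S.v (algebraMap k L ϖ) :=
      le_mul_of_one_le_right (by positivity) hW1
    have h6 := le_max_left m0 (b + 1)
    have h7 := le_max_right m0 (b + 1)
    push_cast at h5 ⊢
    have h8 : (0 : ℤ) ≤ ((max m0 (b + 1)).toNat : ℤ) := Int.natCast_nonneg _
    exact ⟨by linarith, by linarith, by linarith⟩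
  have hmN : ((m.toNat : ℕ) : ℤ) = m := Int.toNat_of_nonneg (by omega)
  -- representatives in `k`
  obtain ⟨Q, hQ, hQ'⟩ := cover S m.toNat
  rw [hmN] at hQ'
  obtain ⟨out, ho1, ho2, ho3⟩ := exists_out (fun x y : k => S.Gz m (algebraMap k L (x - y)))
    ⟨fun x => Or.inl (by rw [sub_self, map_zero]), fun {x y} h => by
      rw [map_sub] at h ⊢
      exact gz_symm S h, fun {x y z} h h' => by
      have := DescAux.gz_add S h h'
      rwa [← map_add, sub_add_sub_cancel] at this⟩ {x | 0 ≤ S.v (algebraMap k L x)} Q hQ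
    (fun x q => S.Gz m (algebraMap k L x - q)) (fun x hx => hQ' _ hx) (by
      intro x _ x' _ q hq hq'
      have := gz_sub S hq hq'
      rwa [sub_sub_sub_cancel_right, ← map_sub] at this)
  have ho4 : ∀ (j : ℤ) (x : k), j ≤ m → S.Gz j (algebraMap k L x) →
      S.Gz j (algebraMap k L (out x)) := by
    intro j x hj hx
    have := gz_sub S hx (gz_mono S hj (ho1 x))
    rwa [← map_sub, sub_sub_cancel] at this
  have ho5 : ∀ x y : k, S.Gz m (algebraMap k L (y - out x)) → out x = out y := by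
    intro x y h
    apply ho2
    have := gz_sub S (ho1 x) h
    rwa [← map_sub, sub_sub_sub_cancel_right] at this
  -- representatives in `L`
  obtain ⟨outL, hL1, hL2⟩ := exists_outL S (m := m) (by omega)
  let s : k → L := fun c => algebraMap k L c + algebraMap k L ϖ ^ n * a
  have hs : ∀ (c : k) (g : L ≃ₐ[k] L), g (s c) = algebraMap k L c +
      algebraMap k L ϖ ^ n * g a := by
    intro c g
    simp only [s, map_add, map_mul, map_pow, AlgEquiv.commutes]
  let T0 : Set L := (fun q : k × (L ≃ₐ[k] L) => q.2 (s q.1)) ''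
    ((out '' {x | 0 ≤ S.v (algebraMap k L x)}) ×ˢ Set.univ)
  let T0' : Set L := (fun q : k × (L ≃ₐ[k] L) => q.2 (s q.1)⁻¹) ''
    ((out '' {x | S.Gz 1 (algebraMap k L x)}) ×ˢ Set.univ)
  let B : Set L := A ∪ (outL '' {x | ∀ y : k, ¬ S.Cl m (algebraMap k L y) x})
  let T1 : Set L := (fun q : L × (L ≃ₐ[k] L) => q.2 q.1) '' (B ×ˢ Set.univ)
  have hB : ∀ x ∈ B, ∀ y : k, ¬ S.Cl m (algebraMap k L y) x := by
    rintro x (hx | ⟨z, hz, rfl⟩) y hy
    · rcases hy with hy | hy
      · exact hAk x hx y hy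
      · have := hb x hx y
        omega
    · exact hz y (ChordAux.cl_trans S hy (cl_symm S (hL1 z)))
  have hT1 : ∀ t ∈ T1, ∀ y : k, ¬ S.Cl m (algebraMap k L y) t := by
    rintro t ⟨⟨x, g⟩, ⟨hx, -⟩, rfl⟩ y hy
    apply hB x hx y
    have h4 := CplAux.cl_map hE.inv g m (algebraMap k L y) x
    rw [AlgEquiv.commutes] at h4
    exact h4.1 hy
  have hT0 : ∀ t ∈ T0, ∃ (x : k) (g : L ≃ₐ[k] L), 0 ≤ S.v (algebraMap k L (out x)) ∧
      t = g (s (out x)) := by
    rintro t ⟨⟨_, g⟩, ⟨⟨x, hx, rfl⟩, -⟩, rfl⟩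
    exact ⟨x, g, (gz_zero_iff S).1 (ho4 0 x (by omega) ((gz_zero_iff S).2 hx)), rfl⟩
  have hT0' : ∀ t ∈ T0', ∃ (x : k) (g : L ≃ₐ[k] L), S.Gz 1 (algebraMap k L (out x)) ∧
      t = g (s (out x))⁻¹ := by
    rintro t ⟨⟨_, g⟩, ⟨⟨x, hx, rfl⟩, -⟩, rfl⟩
    exact ⟨x, g, ho4 1 x hm1 hx, rfl⟩
  -- the distances
  have h5 : ∀ y : k, ∀ t ∈ T0 ∪ T0' ∪ T1,
      algebraMap k L y ≠ t ∧ S.dl (algebraMap k L y) t ≤ m := by
    rintro y t ((ht | ht) | ht)
    · obtain ⟨x, g, hx, rfl⟩ := hT0 t ht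
      have h6 := dl_int (ext_conj hE g) hn hx y
      rw [hs, hm]
      exact ⟨h6.1, h6.2.1⟩
    · obtain ⟨x, g, hx, rfl⟩ := hT0' t ht
      have h6 := dl_inf (ext_conj hE g) hn hx y
      rw [map_inv₀, hs, hm]
      exact ⟨h6.1, h6.2.1⟩
    · have h6 := hT1 t ht y
      unfold LF.Cl at h6
      push Not at h6
      exact ⟨h6.1, h6.2.le⟩
  have key : ∀ y : k, ∀ t ∈ T0 ∪ T0' ∪ T1, S.dl (algebraMap k L y) t = m →
      (0 ≤ S.v (algebraMap k L y) ∧ ∃ g : L ≃ₐ[k] L, t = g (s (out y))) ∨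
      (S.v (algebraMap k L y) < 0 ∧ S.Gz 1 (algebraMap k L (out y⁻¹)) ∧
        ∃ g : L ≃ₐ[k] L, t = g (s (out y⁻¹))⁻¹) := by
    rintro y t ((ht | ht) | ht) hd
    · obtain ⟨x, g, hx, rfl⟩ := hT0 t ht
      have h6 := dl_int (ext_conj hE g) hn hx y
      rw [hs, hm] at hd
      obtain ⟨h7, h8⟩ := h6.2.2.1 hd
      rw [← hm] at h8
      exact Or.inl ⟨h7, g, by rw [ho5 x y h8]⟩
    · obtain ⟨x, g, hx, rfl⟩ := hT0' t ht
      have h6 := dl_inf (ext_conj hE g) hn hx y
      rw [map_inv₀, hs, hm] at hd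
      obtain ⟨h7, h8⟩ := h6.2.2.1 hd
      rw [← hm] at h8
      refine Or.inr ⟨h7, ?_, g, ?_⟩
      · rw [← ho5 x y⁻¹ h8]
        exact hx
      · rw [ho5 x y⁻¹ h8]
    · exact absurd (Or.inr hd.ge) (hT1 t ht y)
  refine ⟨T0 ∪ T0' ∪ T1, m, hm0, ?_, ?_, ?_, ?_, h5, ?_, ?_⟩
  · intro x hx
    exact Or.inr ⟨(x, 1), ⟨Or.inl hx, Set.mem_univ _⟩, rfl⟩
  · have : Finite (L ≃ₐ[k] L) := inferInstance
    refine ((Set.Finite.image _ (ho3.prod Set.finite_univ)).union
      (Set.Finite.image _ (Set.Finite.prod ?_ Set.finite_univ))).union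
      (Set.Finite.image _ (Set.Finite.prod (hA.union ?_) Set.finite_univ))
    · refine ho3.subset (Set.image_mono ?_)
      intro x hx
      exact (gz_zero_iff S).1 (gz_mono S (by omega) hx)
    · exact hL2.subset (Set.image_subset_range _ _)
  · intro x
    by_cases hx : ∃ y : k, S.Cl m (algebraMap k L y) x
    · obtain ⟨y, hy⟩ := hx
      rcases lt_or_ge (S.v (algebraMap k L y)) 0 with hv | hv
      · have h6 : S.Gz 1 (algebraMap k L y⁻¹) := by
          refine Or.inr ?_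
          rw [map_inv₀, DescAux.v_inv]
          omega
        have h7 := ho4 1 _ hm1 h6
        refine ⟨(1 : L ≃ₐ[k] L) (s (out y⁻¹))⁻¹, Or.inl (Or.inr ⟨(out y⁻¹, 1),
          ⟨⟨y⁻¹, h6, rfl⟩, Set.mem_univ _⟩, rfl⟩), ?_⟩
        apply ChordAux.cl_trans S (cl_symm S hy)
        rw [map_inv₀, hs]
        refine Or.inr ?_
        have h8 := (dl_inf (ext_conj hE 1) hn h7 y).2.2.2 ⟨hv, by rw [← hm]; exact ho1 _⟩
        rw [h8, hm]
      · have h7 := (gz_zero_iff S).1 (ho4 0 _ (by omega) ((gz_zero_iff S).2 hv))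
        refine ⟨(1 : L ≃ₐ[k] L) (s (out y)), Or.inl (Or.inl ⟨(out y, 1),
          ⟨⟨y, hv, rfl⟩, Set.mem_univ _⟩, rfl⟩), ?_⟩
        apply ChordAux.cl_trans S (cl_symm S hy)
        rw [hs]
        refine Or.inr ?_
        have h8 := (dl_int (ext_conj hE 1) hn h7 y).2.2.2 ⟨hv, by rw [← hm]; exact ho1 _⟩
        rw [h8, hm]
    · push Not at hx
      exact ⟨outL x, Or.inr ⟨(outL x, 1), ⟨Or.inr ⟨x, hx, rfl⟩, Set.mem_univ _⟩, rfl⟩, hL1 x⟩
  · rintro g t ((⟨⟨c, g'⟩, hq, rfl⟩ | ⟨⟨c, g'⟩, hq, rfl⟩) | ⟨⟨x, g'⟩, hq, rfl⟩)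
    · exact Or.inl (Or.inl ⟨(c, g * g'), ⟨hq.1, Set.mem_univ _⟩, rfl⟩)
    · exact Or.inl (Or.inr ⟨(c, g * g'), ⟨hq.1, Set.mem_univ _⟩, rfl⟩)
    · exact Or.inr ⟨(x, g * g'), ⟨hq.1, Set.mem_univ _⟩, rfl⟩
  · intro y t ht t' ht' hd hd'
    have h6 : ∀ (g g' : L ≃ₐ[k] L) (x : L), (g' * g⁻¹) (g x) = g' x := by
      intro g g' x
      rw [AlgEquiv.mul_apply, AlgEquiv.aut_inv, AlgEquiv.symm_apply_apply]
    rcases key y t ht hd with ⟨h7, g, rfl⟩ | ⟨h7, -, g, rfl⟩ <;>
    rcases key y t' ht' hd' with ⟨h7', g', rfl⟩ | ⟨h7', -, g', rfl⟩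
    · exact ⟨g' * g⁻¹, h6 _ _ _⟩
    · omega
    · omega
    · exact ⟨g' * g⁻¹, h6 _ _ _⟩
  · intro y t ht hd E hE0 hEu hEs
    rcases key y t ht hd with ⟨hv, g, htg⟩ | ⟨hv, hc1, g, htg⟩
    · have hc := (gz_zero_iff S).1 (ho4 0 _ (by omega) ((gz_zero_iff S).2 hv))
      rw [hs] at htg
      obtain ⟨y', hy0', hyv', hgz, heq⟩ := h1 p hp k L F _ _ _ _ ‹_› ‹_› S ζ (g a) ϖ (ext_conj hE g)
        (kind_conj hp0 hE hK g) (out y) y n hn hc hv (by rw [← hm]; exact ho1 y) E hE0 hEu (by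
          intro g' hg'
          apply hEs g'
          rw [htg, map_add, map_mul, map_pow, AlgEquiv.commutes, AlgEquiv.commutes, hg'])
      rw [← hm, map_sub] at hgz
      rw [sub_sub, sub_sub, ← htg] at heq
      refine ⟨y', DescAux.cl_of_gz S (by omega) hv hgz, ?_⟩
      intro r hr hd0
      have h6 := quot S hp0 (by omega) hv hgz (h5 y r hr).1 (h5 y' r hr).1 hd0
      have h7 := CplAux.emul heq h6
      rwa [mul_one, div_mul_div_comm] at h7
    · have hy0 : algebraMap k L y ≠ 0 := by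
        intro h
        rw [h, S.v_zero] at hv
        exact lt_irrefl _ hv
      have hvi : 0 ≤ S.v (algebraMap k L y⁻¹) := by
        rw [map_inv₀, DescAux.v_inv]
        omega
      have hc : 0 ≤ S.v (algebraMap k L (out y⁻¹)) :=
        (gz_zero_iff S).1 (gz_mono S (by omega) hc1)
      rw [map_inv₀, hs] at htg
      have hσ : algebraMap k L (out y⁻¹) + algebraMap k L ϖ ^ n * g a ≠ 0 := by
        have := (dl_int (ext_conj hE g) hn hc 0).1
        rw [map_zero] at this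
        exact this.symm
      obtain ⟨y', hy0', hyv', hgz, heq⟩ := h1 p hp k L F _ _ _ _ ‹_› ‹_› S ζ (g a) ϖ (ext_conj hE g)
        (kind_conj hp0 hE hK g) (out y⁻¹) y⁻¹ n hn hc hvi (by rw [← hm]; exact ho1 _) E hE0 hEu (by
          intro g' hg'
          apply hEs g'
          rw [htg, map_inv₀, map_add, map_mul, map_pow, AlgEquiv.commutes, AlgEquiv.commutes, hg'])
      rw [← hm, map_sub] at hgz
      rw [sub_sub, sub_sub] at heq
      have hyi : algebraMap k L y' ≠ 0 := by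
        rw [Ne, map_eq_zero]
        exact hy0'
      have hyi2 : algebraMap k L y⁻¹ ≠ 0 := by
        rw [map_inv₀]
        exact inv_ne_zero hy0
      refine ⟨y'⁻¹, ?_, ?_⟩
      · apply DescAux.cl_inv S hy0 (by rw [map_inv₀]; exact inv_ne_zero hyi)
        rw [map_inv₀, inv_inv, ← map_inv₀]
        exact DescAux.cl_of_gz S (by omega) hvi hgz
      · intro r hr hd0
        have h8 : algebraMap k L y⁻¹ ≠
            algebraMap k L (out y⁻¹) + algebraMap k L ϖ ^ n * g a :=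
          (dl_int (ext_conj hE g) hn hc y⁻¹).1
        have h9 : algebraMap k L y = (algebraMap k L y⁻¹)⁻¹ := by
          rw [map_inv₀, inv_inv]
        have h10 := (h5 y'⁻¹ r hr).1
        have h11 := (h5 y r hr).1
        rw [map_inv₀] at h10 ⊢
        rw [htg]
        by_cases hr0 : r = 0
        · rw [h9, hr0, alg0 hyi2 hyi hσ h8]
          exact heq
        · rw [h9, alg hyi2 hyi hσ h8 hr0 h10]
          have h12 : algebraMap k L y⁻¹ ≠ r⁻¹ := by
            intro h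
            apply h11
            rw [h9, h, inv_inv]
          have h13 : algebraMap k L y' ≠ r⁻¹ := by
            intro h
            apply h10
            rw [h, inv_inv]
          have h14 : S.dl (algebraMap k L y⁻¹) r⁻¹ = 0 := by
            rw [map_inv₀, DescAux.dl_inv S hy0 hr0 h11]
            exact hd0
          have h6 := quot S hp0 (by omega) hvi hgz h12 h13 h14
          have h7 := CplAux.emul heq h6
          rwa [mul_one] at h7

end Pool.Agent.Lib.MP_c385f6_ag.Cpl
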