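import Mathlib
import Pool.Agent.Lib.MP_c385f6_ag.Cpl.StCof
import Pool.Agent.Lib.MP_c385f6_ag.Cpl.Tex

set_option autoImplicit false

/-!
Existence of the sets of points, with the additional property of the points of the last level.
-/

namespace Pool.Agent.Lib.MP_c385f6_ag.Cpl

namespace TexAux

theorem conj_fix {k L : Type} [Field k] [Field L] [Algebra k L] (g g₀ : L ≃ₐ[k] L) {x : L}
    (h : g₀ x = x) : (g * g₀ * g⁻¹) (g x) = g x := by
  simp only [AlgEquiv.mul_apply]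
  rw [AlgEquiv.aut_inv, AlgEquiv.symm_apply_apply, h]

theorem conj_zeta {p : ℕ} {k L : Type} [Field k] [Field L] [Algebra k L] {ζ : L} (hp : p ≠ 0)
    (hζ : IsPrimitiveRoot ζ p) (g g₀ : L ≃ₐ[k] L) (h : g₀ ζ ≠ ζ) :
    (g * g₀ * g⁻¹) ζ ≠ ζ := by
  intro h3
  apply h
  have h4 : g₀ (g⁻¹ ζ) = g⁻¹ ζ := by
    apply g.injective
    rw [AlgEquiv.aut_inv, AlgEquiv.apply_symm_apply]
    simpa only [AlgEquiv.mul_apply, AlgEquiv.aut_inv] using h3
  have : NeZero p := ⟨hp⟩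
  have h5 : IsPrimitiveRoot (g⁻¹ ζ) p := hζ.map_of_injective (g⁻¹).injective
  obtain ⟨i, -, hi⟩ := h5.eq_pow_of_pow_eq_one hζ.pow_eq_one
  rw [← hi, map_pow, h4]

end TexAux

open TexAux in
theorem stTexR (h1 : StT3) : StTexR := by
  intro p hp k L F _ _ _ _ _ _ S ζ a ϖ hE hK m0 A hA hAk
  classical
  have hp0 : p ≠ 0 := hp.out.ne_zero
  have hW1 : 1 ≤ S.v (algebraMap k L ϖ) := hE.pi_pos
  have hϖ : algebraMap k L ϖ ≠ 0 := by
    rw [Ne, map_eq_zero]
    exact hE.pi_ne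
  -- the distances of the given points from the points of `k` are bounded
  obtain ⟨b, hb⟩ : ∃ b : ℤ, ∀ x ∈ A, ∀ y : k, S.dl (algebraMap k L y) x ≤ b := by
    have h4 : ∀ x : L, ∃ b : ℤ, x ∈ A → ∀ y : k, S.dl (algebraMap k L y) x ≤ b := by
      intro x
      by_cases hx : x ∈ A
      · obtain ⟨g, hg⟩ : ∃ g : L ≃ₐ[k] L, g x ≠ x := by
          by_contra hcon
          push Not at hcon
          obtain ⟨y, hy⟩ := (IsGalois.mem_range_algebraMap_iff_fixed x).2 hcon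
          exact hAk x hx y hy
        refine ⟨S.dl x (g x), fun _ y => ?_⟩
        have h7 : algebraMap k L y ≠ g x := by
          intro h6
          apply hAk x hx y
          apply g.injective
          rw [AlgEquiv.commutes, h6]
        have h5 := ChordAux.dl_ultra S (x := x) (y := algebraMap k L y) (z := g x)
          (hAk x hx y).symm h7 hg.symm
        have h6 : S.dl (algebraMap k L y) (g x) = S.dl (algebraMap k L y) x := by
          have := CplAux.dl_map hE.inv g (algebraMap k L y) x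
          rwa [AlgEquiv.commutes] at this
        rw [h6, ChordAux.dl_comm S x (algebraMap k L y), min_self] at h5
        exact h5
      · exact ⟨0, fun h => absurd h hx⟩
    choose B hB using h4
    obtain ⟨b, hb⟩ := (hA.image B).bddAbove
    exact ⟨b, fun x hx y => (hB x hx y).trans (hb ⟨x, hx, rfl⟩)⟩
  -- the level
  obtain ⟨n, hn, m, hm, hm0, hbm, hm1⟩ : ∃ n : ℕ, 1 ≤ n ∧ ∃ m : ℤ,
      m = n * S.v (algebraMap k L ϖ) ∧ m0 ≤ m ∧ b < m ∧ 1 ≤ m := by
    refine ⟨(max m0 (b + 1)).toNat + 1, by omega, _, rfl, ?_⟩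
    have h4 : max m0 (b + 1) ≤ ((max m0 (b + 1)).toNat : ℤ) := Int.self_le_toNat _
    have h5 : (((max m0 (b + 1)).toNat + 1 : ℕ) : ℤ) ≤
        (((max m0 (b + 1)).toNat + 1 : ℕ) : ℤ) * S.v (algebraMap k L ϖ) :=
      le_mul_of_one_le_right (by positivity) hW1
    have h6 := le_max_left m0 (b + 1)
    have h7 := le_max_right m0 (b + 1)
    push_cast at h5 ⊢
    have h8 : (0 : ℤ) ≤ ((max m0 (b + 1)).toNat : ℤ) := Int.natCast_nonneg _
    exact ⟨by linarith, by linarith, by linarith⟩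
  have hmN : ((m.toNat : ℕ) : ℤ) = m := Int.toNat_of_nonneg (by omega)
  -- representatives in `k`
  obtain ⟨Q, hQ, hQ'⟩ := cover S m.toNat
  rw [hmN] at hQ'
  obtain ⟨out, ho1, ho2, ho3⟩ := exists_out (fun x y : k => S.Gz m (algebraMap k L (x - y)))
    ⟨fun x => Or.inl (by rw [sub_self, map_zero]), fun {x y} h => by
      rw [map_sub] at h ⊢
      exact gz_symm S h, fun {x y z} h h' => by
      have := DescAux.gz_add S h h'
      rwa [← map_add, sub_add_sub_cancel] at this⟩ {x | 0 ≤ S.v (algebraMap k L x)} Q hQ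
    (fun x q => S.Gz m (algebraMap k L x - q)) (fun x hx => hQ' _ hx) (by
      intro x _ x' _ q hq hq'
      have := gz_sub S hq hq'
      rwa [sub_sub_sub_cancel_right, ← map_sub] at this)
  have ho4 : ∀ (j : ℤ) (x : k), j ≤ m → S.Gz j (algebraMap k L x) →
      S.Gz j (algebraMap k L (out x)) := by
    intro j x hj hx
    have := gz_sub S hx (gz_mono S hj (ho1 x))
    rwa [← map_sub, sub_sub_cancel] at this
  have ho5 : ∀ x y : k, S.Gz m (algebraMap k L (y - out x)) → out x = out y := by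
    intro x y h
    apply ho2
    have := gz_sub S (ho1 x) h
    rwa [← map_sub, sub_sub_sub_cancel_right] at this
  -- representatives in `L`
  obtain ⟨outL, hL1, hL2⟩ := exists_outL S (m := m) (by omega)
  let s : k → L := fun c => algebraMap k L c + algebraMap k L ϖ ^ n * a
  have hs : ∀ (c : k) (g : L ≃ₐ[k] L), g (s c) = algebraMap k L c +
      algebraMap k L ϖ ^ n * g a := by
    intro c g
    simp only [s, map_add, map_mul, map_pow, AlgEquiv.commutes]
  let T0 : Set L := (fun q : k × (L ≃ₐ[k] L) => q.2 (s q.1)) ''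
    ((out '' {x | 0 ≤ S.v (algebraMap k L x)}) ×ˢ Set.univ)
  let T0' : Set L := (fun q : k × (L ≃ₐ[k] L) => q.2 (s q.1)⁻¹) ''
    ((out '' {x | S.Gz 1 (algebraMap k L x)}) ×ˢ Set.univ)
  let B : Set L := A ∪ (outL '' {x | ∀ y : k, ¬ S.Cl m (algebraMap k L y) x})
  let T1 : Set L := (fun q : L × (L ≃ₐ[k] L) => q.2 q.1) '' (B ×ˢ Set.univ)
  have hB : ∀ x ∈ B, ∀ y : k, ¬ S.Cl m (algebraMap k L y) x := by
    rintro x (hx | ⟨z, hz, rfl⟩) y hy
    · rcases hy with hy | hy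
      · exact hAk x hx y hy
      · have := hb x hx y
        omega
    · exact hz y (ChordAux.cl_trans S hy (cl_symm S (hL1 z)))
  have hT1 : ∀ t ∈ T1, ∀ y : k, ¬ S.Cl m (algebraMap k L y) t := by
    rintro t ⟨⟨x, g⟩, ⟨hx, -⟩, rfl⟩ y hy
    apply hB x hx y
    have h4 := CplAux.cl_map hE.inv g m (algebraMap k L y) x
    rw [AlgEquiv.commutes] at h4
    exact h4.1 hy
  have hT0 : ∀ t ∈ T0, ∃ (x : k) (g : L ≃ₐ[k] L), 0 ≤ S.v (algebraMap k L (out x)) ∧
      t = g (s (out x)) := by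
    rintro t ⟨⟨_, g⟩, ⟨⟨x, hx, rfl⟩, -⟩, rfl⟩
    exact ⟨x, g, (gz_zero_iff S).1 (ho4 0 x (by omega) ((gz_zero_iff S).2 hx)), rfl⟩
  have hT0' : ∀ t ∈ T0', ∃ (x : k) (g : L ≃ₐ[k] L), S.Gz 1 (algebraMap k L (out x)) ∧
      t = g (s (out x))⁻¹ := by
    rintro t ⟨⟨_, g⟩, ⟨⟨x, hx, rfl⟩, -⟩, rfl⟩
    exact ⟨x, g, ho4 1 x hm1 hx, rfl⟩
  -- the distances
  have h5 : ∀ y : k, ∀ t ∈ T0 ∪ T0' ∪ T1,
      algebraMap k L y ≠ t ∧ S.dl (algebraMap k L y) t ≤ m := by
    rintro y t ((ht | ht) | ht)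
    · obtain ⟨x, g, hx, rfl⟩ := hT0 t ht
      have h6 := dl_int (ext_conj hE g) hn hx y
      rw [hs, hm]
      exact ⟨h6.1, h6.2.1⟩
    · obtain ⟨x, g, hx, rfl⟩ := hT0' t ht
      have h6 := dl_inf (ext_conj hE g) hn hx y
      rw [map_inv₀, hs, hm]
      exact ⟨h6.1, h6.2.1⟩
    · have h6 := hT1 t ht y
      unfold LF.Cl at h6
      push Not at h6
      exact ⟨h6.1, h6.2.le⟩
  have key : ∀ y : k, ∀ t ∈ T0 ∪ T0' ∪ T1, S.dl (algebraMap k L y) t = m →
      (0 ≤ S.v (algebraMap k L y) ∧ ∃ g : L ≃ₐ[k] L, t = g (s (out y))) ∨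
      (S.v (algebraMap k L y) < 0 ∧ S.Gz 1 (algebraMap k L (out y⁻¹)) ∧
        ∃ g : L ≃ₐ[k] L, t = g (s (out y⁻¹))⁻¹) := by
    rintro y t ((ht | ht) | ht) hd
    · obtain ⟨x, g, hx, rfl⟩ := hT0 t ht
      have h6 := dl_int (ext_conj hE g) hn hx y
      rw [hs, hm] at hd
      obtain ⟨h7, h8⟩ := h6.2.2.1 hd
      rw [← hm] at h8
      exact Or.inl ⟨h7, g, by rw [ho5 x y h8]⟩
    · obtain ⟨x, g, hx, rfl⟩ := hT0' t ht
      have h6 := dl_inf (ext_conj hE g) hn hx y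
      rw [map_inv₀, hs, hm] at hd
      obtain ⟨h7, h8⟩ := h6.2.2.1 hd
      rw [← hm] at h8
      refine Or.inr ⟨h7, ?_, g, ?_⟩
      · rw [← ho5 x y⁻¹ h8]
        exact hx
      · rw [ho5 x y⁻¹ h8]
    · exact absurd (Or.inr hd.ge) (hT1 t ht y)
  refine ⟨T0 ∪ T0' ∪ T1, m, hm0, ?_, ?_, ?_, ?_, h5, ?_, ?_, ?_⟩
  · intro x hx
    exact Or.inr ⟨(x, 1), ⟨Or.inl hx, Set.mem_univ _⟩, rfl⟩
  · have : Finite (L ≃ₐ[k] L) := inferInstance
    refine ((Set.Finite.image _ (ho3.prod Set.finite_univ)).union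
      (Set.Finite.image _ (Set.Finite.prod ?_ Set.finite_univ))).union
      (Set.Finite.image _ (Set.Finite.prod (hA.union ?_) Set.finite_univ))
    · refine ho3.subset (Set.image_mono ?_)
      intro x hx
      exact (gz_zero_iff S).1 (gz_mono S (by omega) hx)
    · exact hL2.subset (Set.image_subset_range _ _)
  · intro x
    by_cases hx : ∃ y : k, S.Cl m (algebraMap k L y) x
    · obtain ⟨y, hy⟩ := hx
      rcases lt_or_ge (S.v (algebraMap k L y)) 0 with hv | hv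
      · have h6 : S.Gz 1 (algebraMap k L y⁻¹) := by
          refine Or.inr ?_
          rw [map_inv₀, DescAux.v_inv]
          omega
        have h7 := ho4 1 _ hm1 h6
        refine ⟨(1 : L ≃ₐ[k] L) (s (out y⁻¹))⁻¹, Or.inl (Or.inr ⟨(out y⁻¹, 1),
          ⟨⟨y⁻¹, h6, rfl⟩, Set.mem_univ _⟩, rfl⟩), ?_⟩
        apply ChordAux.cl_trans S (cl_symm S hy)
        rw [map_inv₀, hs]
        refine Or.inr ?_
        have h8 := (dl_inf (ext_conj hE 1) hn h7 y).2.2.2 ⟨hv, by rw [← hm]; exact ho1 _⟩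
        rw [h8, hm]
      · have h7 := (gz_zero_iff S).1 (ho4 0 _ (by omega) ((gz_zero_iff S).2 hv))
        refine ⟨(1 : L ≃ₐ[k] L) (s (out y)), Or.inl (Or.inl ⟨(out y, 1),
          ⟨⟨y, hv, rfl⟩, Set.mem_univ _⟩, rfl⟩), ?_⟩
        apply ChordAux.cl_trans S (cl_symm S hy)
        rw [hs]
        refine Or.inr ?_
        have h8 := (dl_int (ext_conj hE 1) hn h7 y).2.2.2 ⟨hv, by rw [← hm]; exact ho1 _⟩
        rw [h8, hm]
    · push Not at hx
      exact ⟨outL x, Or.inr ⟨(outL x, 1), ⟨Or.inr ⟨x, hx, rfl⟩, Set.mem_univ _⟩, rfl⟩, hL1 x⟩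
  · rintro g t ((⟨⟨c, g'⟩, hq, rfl⟩ | ⟨⟨c, g'⟩, hq, rfl⟩) | ⟨⟨x, g'⟩, hq, rfl⟩)
    · exact Or.inl (Or.inl ⟨(c, g * g'), ⟨hq.1, Set.mem_univ _⟩, rfl⟩)
    · exact Or.inl (Or.inr ⟨(c, g * g'), ⟨hq.1, Set.mem_univ _⟩, rfl⟩)
    · exact Or.inr ⟨(x, g * g'), ⟨hq.1, Set.mem_univ _⟩, rfl⟩
  · intro y t ht t' ht' hd hd'
    have h6 : ∀ (g g' : L ≃ₐ[k] L) (x : L), (g' * g⁻¹) (g x) = g' x := by
      intro g g' x
      rw [AlgEquiv.mul_apply, AlgEquiv.aut_inv, AlgEquiv.symm_apply_apply]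
    rcases key y t ht hd with ⟨h7, g, rfl⟩ | ⟨h7, -, g, rfl⟩ <;>
    rcases key y t' ht' hd' with ⟨h7', g', rfl⟩ | ⟨h7', -, g', rfl⟩
    · exact ⟨g' * g⁻¹, h6 _ _ _⟩
    · omega
    · omega
    · exact ⟨g' * g⁻¹, h6 _ _ _⟩
  · intro y t ht hd E hE0 hEu hEs
    rcases key y t ht hd with ⟨hv, g, htg⟩ | ⟨hv, hc1, g, htg⟩
    · have hc := (gz_zero_iff S).1 (ho4 0 _ (by omega) ((gz_zero_iff S).2 hv))
      rw [hs] at htg
      obtain ⟨y', hy0', hyv', hgz, heq⟩ := h1 p hp k L F _ _ _ _ ‹_› ‹_› S ζ (g a) ϖ (ext_conj hE g)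
        (kind_conj hp0 hE hK g) (out y) y n hn hc hv (by rw [← hm]; exact ho1 y) E hE0 hEu (by
          intro g' hg'
          apply hEs g'
          rw [htg, map_add, map_mul, map_pow, AlgEquiv.commutes, AlgEquiv.commutes, hg'])
      rw [← hm, map_sub] at hgz
      rw [sub_sub, sub_sub, ← htg] at heq
      refine ⟨y', DescAux.cl_of_gz S (by omega) hv hgz, ?_⟩
      intro r hr hd0
      have h6 := quot S hp0 (by omega) hv hgz (h5 y r hr).1 (h5 y' r hr).1 hd0
      have h7 := CplAux.emul heq h6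
      rwa [mul_one, div_mul_div_comm] at h7
    · have hy0 : algebraMap k L y ≠ 0 := by
        intro h
        rw [h, S.v_zero] at hv
        exact lt_irrefl _ hv
      have hvi : 0 ≤ S.v (algebraMap k L y⁻¹) := by
        rw [map_inv₀, DescAux.v_inv]
        omega
      have hc : 0 ≤ S.v (algebraMap k L (out y⁻¹)) :=
        (gz_zero_iff S).1 (gz_mono S (by omega) hc1)
      rw [map_inv₀, hs] at htg
      have hσ : algebraMap k L (out y⁻¹) + algebraMap k L ϖ ^ n * g a ≠ 0 := by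
        have := (dl_int (ext_conj hE g) hn hc 0).1
        rw [map_zero] at this
        exact this.symm
      obtain ⟨y', hy0', hyv', hgz, heq⟩ := h1 p hp k L F _ _ _ _ ‹_› ‹_› S ζ (g a) ϖ (ext_conj hE g)
        (kind_conj hp0 hE hK g) (out y⁻¹) y⁻¹ n hn hc hvi (by rw [← hm]; exact ho1 _) E hE0 hEu (by
          intro g' hg'
          apply hEs g'
          rw [htg, map_inv₀, map_add, map_mul, map_pow, AlgEquiv.commutes, AlgEquiv.commutes, hg'])
      rw [← hm, map_sub] at hgz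
      rw [sub_sub, sub_sub] at heq
      have hyi : algebraMap k L y' ≠ 0 := by
        rw [Ne, map_eq_zero]
        exact hy0'
      have hyi2 : algebraMap k L y⁻¹ ≠ 0 := by
        rw [map_inv₀]
        exact inv_ne_zero hy0
      refine ⟨y'⁻¹, ?_, ?_⟩
      · apply DescAux.cl_inv S hy0 (by rw [map_inv₀]; exact inv_ne_zero hyi)
        rw [map_inv₀, inv_inv, ← map_inv₀]
        exact DescAux.cl_of_gz S (by omega) hvi hgz
      · intro r hr hd0
        have h8 : algebraMap k L y⁻¹ ≠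
            algebraMap k L (out y⁻¹) + algebraMap k L ϖ ^ n * g a :=
          (dl_int (ext_conj hE g) hn hc y⁻¹).1
        have h9 : algebraMap k L y = (algebraMap k L y⁻¹)⁻¹ := by
          rw [map_inv₀, inv_inv]
        have h10 := (h5 y'⁻¹ r hr).1
        have h11 := (h5 y r hr).1
        rw [map_inv₀] at h10 ⊢
        rw [htg]
        by_cases hr0 : r = 0
        · rw [h9, hr0, alg0 hyi2 hyi hσ h8]
          exact heq
        · rw [h9, alg hyi2 hyi hσ h8 hr0 h10]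
          have h12 : algebraMap k L y⁻¹ ≠ r⁻¹ := by
            intro h
            apply h11
            rw [h9, h, inv_inv]
          have h13 : algebraMap k L y' ≠ r⁻¹ := by
            intro h
            apply h10
            rw [h, inv_inv]
          have h14 : S.dl (algebraMap k L y⁻¹) r⁻¹ = 0 := by
            rw [map_inv₀, DescAux.dl_inv S hy0 hr0 h11]
            exact hd0
          have h6 := quot S hp0 (by omega) hvi hgz h12 h13 h14
          have h7 := CplAux.emul heq h6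
          rwa [mul_one] at h7
  · rintro ⟨g₀, hg1, hg2⟩ y t ht hd
    have hsf : ∀ c : k, g₀ (s c) = s c := by
      intro c
      rw [hs, hg1]
    rcases key y t ht hd with ⟨-, g, rfl⟩ | ⟨-, -, g, rfl⟩
    · exact ⟨g * g₀ * g⁻¹, conj_fix g g₀ (hsf _), conj_zeta hp0 hE.prim g g₀ hg2⟩
    · exact ⟨g * g₀ * g⁻¹, conj_fix g g₀ (by rw [map_inv₀, hsf]), conj_zeta hp0 hE.prim g g₀ hg2⟩

end Pool.Agent.Lib.MP_c385f6_ag.Cpl
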