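import Mathlib
import Pool.Agent.Lib.MP_c385f6_ag.Cpl.Stmts

set_option autoImplicit false

/-!
Uniqueness of the point attached to a compatible system.
-/

namespace Pool.Agent.Lib.MP_c385f6_ag.Cpl

namespace Uniqaux

variable {p : ℕ} {L F : Type} [Field L] [Field F] (S : LF p L F)

lemma v_one : S.v 1 = 0 := by
  have h := S.v_mul 1 1 one_ne_zero one_ne_zero
  rw [one_mul] at h
  omega

lemma v_neg_one : S.v (-1) = 0 := by
  have h := S.v_mul (-1) (-1) (neg_ne_zero.2 one_ne_zero) (neg_ne_zero.2 one_ne_zero)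
  rw [neg_mul_neg, one_mul, v_one] at h
  omega

lemma v_neg (x : L) (hx : x ≠ 0) : S.v (-x) = S.v x := by
  have h := S.v_mul (-1) x (neg_ne_zero.2 one_ne_zero) hx
  rw [neg_one_mul, v_neg_one] at h
  omega

lemma h_one_left (w : L) (hw : w ≠ 0) : S.h 1 w = 0 := by
  have h := S.h_mul_left 1 1 w one_ne_zero one_ne_zero hw
  rw [one_mul] at h
  have h2 : S.h 1 w + 0 = S.h 1 w + S.h 1 w := by rw [add_zero]; exact h
  exact (add_left_cancel h2).symm

lemma h_pow_left [Fact p.Prime] (c w : L) (hc : c ≠ 0) (hw : w ≠ 0) : S.h (c ^ p) w = 0 := by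
  have key : ∀ k : ℕ, S.h (c ^ k) w = (k : ZMod p) * S.h c w := by
    intro k
    induction k with
    | zero => rw [pow_zero, h_one_left S w hw, Nat.cast_zero, zero_mul]
    | succ k ih =>
      rw [pow_succ, S.h_mul_left _ _ _ (pow_ne_zero k hc) hc hw, ih, Nat.cast_succ]
      ring
  rw [key, ZMod.natCast_self, zero_mul]

end Uniqaux

open Uniqaux in
theorem stUniq (h1 : StChord) (h2 : StSym) : StUniq := by
  intro p hp L F _ _ S T D m n y y' hT hn hnm hy hy'
  obtain ⟨dsym, dnn, -, dult, dex, dex2, -, dv1, dv⟩ := h1 p hp L F _ _ S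
  obtain ⟨-, -, svpow, -, sun, -, -, ⟨l, ladd, ⟨a, ha⟩, hl⟩, -⟩ := h2 p hp L F _ _ S
  by_contra hcl
  have hyy : y ≠ y' := fun h => hcl (Or.inl h)
  have hμ : S.dl y y' < n + S.e := by
    by_contra h
    exact hcl (Or.inr (not_lt.1 h))
  have hμ0 := dnn y y' hyy
  have hp2 := hp.out.two_le
  have he2 := S.two_le
  -- the strict ultrametric inequality
  have strict : ∀ x z w, x ≠ z → z ≠ w → x ≠ w → S.dl x z < S.dl z w →
      S.dl x w = S.dl x z := by
    intro x z w h1 h2 h3 h4
    have h5 := dult x z w h1 h2 h3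
    have h6 := dult x w z h3 h2.symm h1
    rw [dsym w z] at h6
    rcases min_le_iff.1 h6 with h7 | h7
    · rcases min_le_iff.1 h5 with h8 | h8
      · omega
      · omega
    · omega
  have near : ∀ u x t, x ≠ u → S.Cl m x t → S.dl u x < m → t ≠ u ∧ S.dl u t = S.dl u x := by
    intro u x t hxu hc hlt
    rcases hc with rfl | hc
    · exact ⟨hxu, rfl⟩
    · by_cases hxt : x = t
      · subst hxt
        exact ⟨hxu, rfl⟩
      have htu : t ≠ u := by
        rintro rfl
        rw [dsym x t] at hc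
        omega
      exact ⟨htu, strict u x t hxu.symm hxt htu.symm (by omega)⟩
  -- the auxiliary point
  obtain ⟨x0, hx0, hx0', e0, e0'⟩ := dex2 y y'
  obtain ⟨t0, ht0, hc0⟩ := hT x0
  obtain ⟨ht0y, dt0⟩ := near y x0 t0 hx0 hc0 (by omega)
  obtain ⟨ht0y', dt0'⟩ := near y' x0 t0 hx0' hc0 (by omega)
  rw [e0] at dt0
  rw [e0'] at dt0'
  have ncl : ∀ u s, s ≠ u → S.dl u s < n → ¬ S.Cl n u s := by
    rintro u s hsu hlt (h | h)
    · exact hsu h.symm
    · omega
  -- the cross ratio is a power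
  have pw : ∀ s ∈ T, s ≠ y → s ≠ y' → S.dl y s < n → S.dl y' s < n →
      ∃ c, c ≠ 0 ∧ (y - s) * (y' - t0) / ((y - t0) * (y' - s)) = c ^ p := by
    intro s hs hsy hsy' h3 h4
    obtain ⟨z, hz, hz2⟩ := hy s hs t0 ht0 (ncl y s hsy h3) (ncl y t0 ht0y (by omega))
    obtain ⟨w, hw, hw2⟩ := hy' s hs t0 ht0 (ncl y' s hsy' h4) (ncl y' t0 ht0y' (by omega))
    refine ⟨w / z, div_ne_zero hw hz, ?_⟩
    have n1 : y - s ≠ 0 := sub_ne_zero.2 hsy.symm
    have n2 : y' - s ≠ 0 := sub_ne_zero.2 hsy'.symm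
    have n3 : y - t0 ≠ 0 := sub_ne_zero.2 ht0y.symm
    have n4 : y' - t0 ≠ 0 := sub_ne_zero.2 ht0y'.symm
    rw [hz2] at hw2
    rw [div_pow, div_eq_div_iff (mul_ne_zero n3 n2) (pow_ne_zero p hz)]
    field_simp at hw2
    linear_combination hw2
  have shell : ∀ i : ℤ, 0 ≤ i → i < n → ∃ s ∈ T, s ≠ y ∧ S.dl y s = i := by
    intro i hi hin
    obtain ⟨x, hx, hxi⟩ := dex y i hi
    obtain ⟨s, hs, hc⟩ := hT x
    obtain ⟨h3, h4⟩ := near y x s hx hc (by omega)
    exact ⟨s, hs, h3, by rw [h4, hxi]⟩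
  rcases lt_or_ge (S.dl y y') (n - 1) with hA | hB
  · -- the points are far
    obtain ⟨s, hs, hsy, hds⟩ := shell (S.dl y y' + 1) (by omega) (by omega)
    have hsy' : s ≠ y' := by
      rintro rfl
      omega
    have hds' : S.dl y' s = S.dl y y' := by
      rw [strict y' y s hyy.symm hsy.symm hsy'.symm (by rw [dsym y' y]; omega), dsym]
    obtain ⟨c, hc, hX⟩ := pw s hs hsy hsy' (by omega) (by omega)
    have hv := dv y y' s t0 ht0y.symm hsy'.symm hsy.symm ht0y'.symm
    have hvp := svpow c p hc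
    rw [zpow_natCast] at hvp
    rw [hX, hvp, hds, hds', dt0, dt0'] at hv
    have hdvd : (p : ℤ) ∣ 1 := ⟨S.v c, by linarith⟩
    have := Int.le_of_dvd one_pos hdvd
    omega
  rcases lt_or_ge (S.dl y y') (n - 1 + S.e) with hC | hC
  · -- the middle range
    obtain ⟨i, hi1, hin, hi2, hi3, hi4⟩ : ∃ i : ℤ, 1 ≤ i ∧ i < n ∧ 1 ≤ S.dl y y' - i ∧
        S.dl y y' - i < S.e ∧ ¬ (p : ℤ) ∣ S.dl y y' - i := by
      by_cases h : (p : ℤ) ∣ S.dl y y' - (n - 1)
      · refine ⟨n - 2, by omega, by omega, by omega, ?_, ?_⟩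
        · have he : (p : ℤ) ∣ S.e := by exact_mod_cast S.e_dvd
          have h3 := dvd_sub he h
          have h4 := Int.le_of_dvd (by omega) h3
          omega
        · intro h3
          have h4 := dvd_sub h3 h
          have h5 : S.dl y y' - (n - 2) - (S.dl y y' - (n - 1)) = 1 := by ring
          rw [h5] at h4
          have := Int.le_of_dvd one_pos h4
          omega
      · refine ⟨n - 1, by omega, by omega, ?_, by omega, h⟩
        by_contra h3
        apply h
        have : S.dl y y' - (n - 1) = 0 := by omega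
        rw [this]
        exact dvd_zero _
    obtain ⟨s, hs, hsy, hds⟩ := shell i (by omega) hin
    have hsy' : s ≠ y' := by
      rintro rfl
      omega
    have hds' : S.dl y' s = i := by
      rw [dsym, strict s y y' hsy hyy hsy' (by rw [dsym s y]; omega), dsym, hds]
    have hst0 : t0 ≠ s := by
      rintro rfl
      omega
    have hdt : S.dl t0 s = 0 := by
      rw [strict t0 y s ht0y hsy.symm hst0 (by rw [dsym t0 y]; omega), dsym, dt0]
    obtain ⟨c, hc, hX⟩ := pw s hs hsy hsy' (by omega) (by omega)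
    obtain ⟨h10, hv⟩ := dv1 y y' s t0 ht0y.symm hsy'.symm hyy hst0
    rw [hX] at h10 hv
    rw [hdt, dt0, hds'] at hv
    have hv2 : S.v (c ^ p - 1) = S.dl y y' - i := by
      rw [← neg_sub, v_neg S _ h10, hv]
      ring
    exact S.jump (c ^ p) (pow_ne_zero p hc) (by omega) (by omega) (by rw [hv2]; exact hi4)
      ⟨c, rfl⟩
  · -- the last distance
    have hμe : S.dl y y' = n - 1 + S.e := by omega
    have hπ := S.pi_ne
    have vπe : S.v (S.π ^ S.e) = S.e := by
      have := svpow S.π (S.e : ℤ) hπ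
      rw [zpow_natCast, S.v_pi, mul_one] at this
      exact this
    have hδ1 : y - y' ≠ 0 := sub_ne_zero.2 hyy
    have n3 : y - t0 ≠ 0 := sub_ne_zero.2 ht0y.symm
    have n4 : y' - t0 ≠ 0 := sub_ne_zero.2 ht0y'.symm
    have hl0 : l 0 = 0 := by
      have := ladd 0 0
      rw [add_zero] at this
      exact left_eq_add.1 this
    have hane : a ≠ 0 := by
      rintro rfl
      exact ha hl0
    -- a point of the residue class with a good cross ratio
    obtain ⟨x, hx0, hxa, hβ1⟩ : ∃ x, 0 ≤ S.v x ∧ S.res x = a ∧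
        -x * S.π ^ S.e * (y - t0) / (y - y') ≠ 1 := by
      obtain ⟨x, hx0, hxa⟩ := S.res_surj a
      by_cases h : -x * S.π ^ S.e * (y - t0) / (y - y') ≠ 1
      · exact ⟨x, hx0, hxa, h⟩
      · have hr1 : S.res S.π = 0 := (S.res_zero S.π (by rw [S.v_pi]; omega)).2
          (Or.inr (by rw [S.v_pi]))
        have hx00 : x ≠ 0 := by
          rintro rfl
          apply hane
          rw [← hxa]
          exact (S.res_zero 0 hx0).2 (Or.inl rfl)
        have hsum : x + S.π ≠ 0 := by
          intro h3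
          have h4 : S.res (x + S.π) = a := by
            rw [S.res_add x S.π hx0 (by rw [S.v_pi]; omega), hr1, add_zero, hxa]
          rw [h3, (S.res_zero 0 (by rw [S.v_zero])).2 (Or.inl rfl)] at h4
          exact hane h4.symm
        refine ⟨x + S.π, ?_, ?_, ?_⟩
        · have := S.v_add x S.π hx00 hπ hsum
          rw [S.v_pi] at this
          omega
        · rw [S.res_add x S.π hx0 (by rw [S.v_pi]; omega), hr1, add_zero, hxa]
        · intro h3
          push Not at h
          have h4 : -S.π * S.π ^ S.e * (y - t0) / (y - y') = 0 := by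
            have : -S.π * S.π ^ S.e * (y - t0) / (y - y') =
                -(x + S.π) * S.π ^ S.e * (y - t0) / (y - y') -
                  -x * S.π ^ S.e * (y - t0) / (y - y') := by ring
            rw [this, h3, h, sub_self]
          rw [div_eq_zero_iff] at h4
          rcases h4 with h4 | h4
          · exact (mul_ne_zero (mul_ne_zero (neg_ne_zero.2 hπ) (pow_ne_zero _ hπ)) n3) h4
          · exact hδ1 h4
    have hxn : x ≠ 0 := by
      rintro rfl
      apply hane
      rw [← hxa]
      exact (S.res_zero 0 hx0).2 (Or.inl rfl)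
    have hvx : S.v x = 0 := by
      by_contra h3
      apply hane
      rw [← hxa]
      exact (S.res_zero x hx0).2 (Or.inr (by omega))
    set β : L := -x * S.π ^ S.e * (y - t0) / (y - y') with hβ
    have hβ0 : β ≠ 0 := by
      rw [hβ]
      exact div_ne_zero (mul_ne_zero (mul_ne_zero (neg_ne_zero.2 hxn) (pow_ne_zero _ hπ)) n3) hδ1
    have hβ1' : β - 1 ≠ 0 := sub_ne_zero.2 hβ1
    set r : L := (β * y' - t0) / (β - 1) with hr
    have er1 : y' - r = (t0 - y') / (β - 1) := by
      rw [hr, eq_div_iff hβ1', sub_mul, div_mul_cancel₀ _ hβ1']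
      ring
    have er2 : t0 - r = β * (y' - r) := by
      rw [er1, hr, mul_div_assoc', eq_div_iff hβ1', sub_mul, div_mul_cancel₀ _ hβ1']
      ring
    have hry' : y' - r ≠ 0 := by
      rw [er1]
      exact div_ne_zero (sub_ne_zero.2 ht0y') hβ1'
    have hrt : t0 - r ≠ 0 := by
      rw [er2]
      exact mul_ne_zero hβ0 hry'
    have e1X : 1 - (y - r) * (y' - t0) / ((y - t0) * (y' - r)) = -x * S.π ^ S.e := by
      have h3 : 1 - (y - r) * (y' - t0) / ((y - t0) * (y' - r)) =
          (y - y') * (t0 - r) / ((y - t0) * (y' - r)) := by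
        rw [eq_div_iff (mul_ne_zero n3 hry'), sub_mul, div_mul_cancel₀ _ (mul_ne_zero n3 hry')]
        ring
      rw [h3, er2, hβ, div_eq_iff (mul_ne_zero n3 hry')]
      field_simp
    have eX : (y - r) * (y' - t0) / ((y - t0) * (y' - r)) = 1 + x * S.π ^ S.e := by
      linear_combination -e1X
    have hvxe : S.v (-x * S.π ^ S.e) = S.e := by
      rw [neg_mul, v_neg S _ (mul_ne_zero hxn (pow_ne_zero _ hπ)),
        S.v_mul _ _ hxn (pow_ne_zero _ hπ), hvx, vπe, zero_add]
    have hry : y - r ≠ 0 := by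
      intro h3
      rw [h3, zero_mul, zero_div, sub_zero] at e1X
      rw [← e1X, v_one] at hvxe
      omega
    have hryy : r ≠ y := (sub_ne_zero.1 hry).symm
    have hryy' : r ≠ y' := (sub_ne_zero.1 hry').symm
    have hrtt : t0 ≠ r := sub_ne_zero.1 hrt
    obtain ⟨-, hv⟩ := dv1 y y' r t0 ht0y.symm hryy'.symm hyy hrtt
    rw [e1X, hvxe, dt0] at hv
    have hnn := dnn t0 r hrtt
    have hu := dult y' r t0 hryy'.symm hrtt.symm ht0y'.symm
    rw [dt0', dsym r t0] at hu
    have hdt : S.dl t0 r = 0 := by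
      rcases min_le_iff.1 hu with h3 | h3
      · omega
      · omega
    have hdr' : S.dl y' r = n - 1 := by omega
    have hdr : S.dl y r = n - 1 := by
      rw [dsym, strict r y' y hryy' hyy.symm hryy (by rw [dsym r y', dsym y' y]; omega), dsym,
        hdr']
    obtain ⟨s, hs, hc⟩ := hT r
    obtain ⟨hsy, hds⟩ := near y r s hryy hc (by omega)
    obtain ⟨hsy', hds'⟩ := near y' r s hryy' hc (by omega)
    obtain ⟨c, hc0, hX⟩ := pw s hs hsy hsy' (by omega) (by omega)
    have n1 : y - s ≠ 0 := sub_ne_zero.2 hsy.symm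
    have n2 : y' - s ≠ 0 := sub_ne_zero.2 hsy'.symm
    have hρ : S.Un (S.e + 1) ((y - s) * (y' - r) / ((y - r) * (y' - s))) := by
      refine ⟨div_ne_zero (mul_ne_zero n1 hry') (mul_ne_zero hry n2), ?_⟩
      by_cases hrs : r = s
      · left
        rw [hrs]
        exact div_self (mul_ne_zero n1 n2)
      · right
        obtain ⟨h30, h3⟩ := dv1 y y' s r hryy.symm hsy'.symm hyy hrs
        rw [← neg_sub, v_neg S _ h30, h3, hds', hdr']
        rcases hc with hc | hc
        · exact absurd hc hrs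
        · omega
    have hsplit : (y - s) * (y' - t0) / ((y - t0) * (y' - s)) =
        (1 + x * S.π ^ S.e) * ((y - s) * (y' - r) / ((y - r) * (y' - s))) := by
      rw [← eX]
      field_simp
    have hne1 : (1 : L) + x * S.π ^ S.e ≠ 0 := by
      rw [← eX]
      exact div_ne_zero (mul_ne_zero hry n4) (mul_ne_zero n3 hry')
    have h5 := h_pow_left S c S.π hc0 hπ
    rw [← hX, hsplit, S.h_mul_left _ _ _ hne1 hρ.1 hπ, hl x hx0 S.π hπ,
      (sun S.π _ hπ hρ).2, S.v_pi, hxa, Int.cast_one, mul_one, add_zero] at h5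
    exact ha h5

end Pool.Agent.Lib.MP_c385f6_ag.Cpl
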