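import Mathlib
import Pool.Agent.Lib.MP_c385f6_ag.Cpl.StEx

set_option autoImplicit false

/-!
Unramified extensions: adjoining a root of unity of order `q ^ d - 1`.
-/

namespace Pool.Agent.Lib.MP_c385f6_ag.Cpl

open Polynomial Module

namespace UrAux

/-- ultrametric absolute values -/
structure AV (M : Type) [Field M] (N : M → ℝ) : Prop where
  nn : ∀ x, 0 ≤ N x
  mul : ∀ x y, N (x * y) = N x * N y
  add : ∀ x y, N (x + y) ≤ max (N x) (N y)
  zero : ∀ x, N x = 0 ↔ x = 0
  one : N 1 = 1

section basic

variable {M : Type} [Field M] {N : M → ℝ} (hN : AV M N)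
include hN

theorem AV.pow (x : M) (n : ℕ) : N (x ^ n) = N x ^ n := by
  induction n with
  | zero => rw [pow_zero, pow_zero, hN.one]
  | succ n ih => rw [pow_succ, pow_succ, hN.mul, ih]

theorem AV.root {x : M} {n : ℕ} (hn : n ≠ 0) (h : x ^ n = 1) : N x = 1 := by
  have h1 : N x ^ n = 1 := by rw [← hN.pow, h, hN.one]
  exact (pow_eq_one_iff_of_nonneg (hN.nn _) hn).mp h1

theorem AV.neg (x : M) : N (-x) = N x := by
  have h1 : N (-1 : M) = 1 := hN.root (n := 2) two_ne_zero (by norm_num)
  rw [← neg_one_mul, hN.mul, h1, one_mul]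

theorem AV.sub (x y : M) : N (x - y) ≤ max (N x) (N y) := by
  have := hN.add x (-y)
  rwa [hN.neg, ← sub_eq_add_neg] at this

theorem AV.inv (x : M) (hx : x ≠ 0) : N x⁻¹ = (N x)⁻¹ := by
  have h0 : N x ≠ 0 := fun h => hx ((hN.zero x).1 h)
  have h := hN.mul x x⁻¹
  rw [mul_inv_cancel₀ hx, hN.one] at h
  exact eq_inv_of_mul_eq_one_right h.symm

/-- the ring of integers -/
def O : Subring M where
  carrier := {x | N x ≤ 1}
  mul_mem' := by
    intro a b ha hb
    change N (a * b) ≤ 1
    rw [hN.mul]
    exact mul_le_one₀ ha (hN.nn _) hb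
  one_mem' := by change N 1 ≤ 1; rw [hN.one]
  add_mem' := by
    intro a b ha hb
    exact (hN.add a b).trans (max_le ha hb)
  zero_mem' := by
    change N 0 ≤ 1
    rw [(hN.zero 0).2 rfl]
    exact zero_le_one
  neg_mem' := by
    intro a ha
    change N (-a) ≤ 1
    rw [hN.neg]; exact ha

/-- the maximal ideal -/
def I : Ideal (O hN) where
  carrier := {x | N (x : M) < 1}
  add_mem' := by
    intro a b ha hb
    exact (hN.add a b).trans_lt (max_lt ha hb)
  zero_mem' := by
    change N ((0 : O hN) : M) < 1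
    rw [ZeroMemClass.coe_zero, (hN.zero 0).2 rfl]
    exact zero_lt_one
  smul_mem' := by
    intro c x hx
    change N ((c * x : O hN) : M) < 1
    rw [MulMemClass.coe_mul, hN.mul]
    exact mul_lt_one_of_nonneg_of_lt_one_right c.2 (hN.nn _) hx

theorem I_max : (I hN).IsMaximal := by
  refine Ideal.isMaximal_iff.2 ⟨?_, ?_⟩
  · intro h
    have h1 : N ((1 : O hN) : M) < 1 := h
    rw [OneMemClass.coe_one, hN.one] at h1
    exact lt_irrefl _ h1
  · intro J x _ hx hxJ
    have h1 : N (x : M) = 1 := le_antisymm x.2 (not_lt.1 hx)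
    have hx0 : (x : M) ≠ 0 := by
      intro h
      rw [h, (hN.zero 0).2 rfl] at h1
      exact zero_ne_one h1
    have h2 : N (x : M)⁻¹ ≤ 1 := by rw [hN.inv _ hx0, h1, inv_one]
    have h3 : (1 : O hN) = (⟨(x : M)⁻¹, h2⟩ : O hN) * x := by
      apply Subtype.ext
      rw [MulMemClass.coe_mul, OneMemClass.coe_one]
      exact (inv_mul_cancel₀ hx0).symm
    rw [h3]
    exact J.mul_mem_left _ hxJ

theorem exists_residue : ∃ (κ : Type) (_ : Field κ) (red : O hN →+* κ),
    Function.Surjective red ∧ ∀ x, red x = 0 ↔ N (x : M) < 1 := by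
  have := I_max hN
  refine ⟨O hN ⧸ I hN, Ideal.Quotient.field _, Ideal.Quotient.mk (I hN),
    Ideal.Quotient.mk_surjective, fun x => ?_⟩
  rw [Ideal.Quotient.eq_zero_iff_mem]
  rfl

/-- distinct roots of unity are not close -/
theorem root_sub_one {n : ℕ} (hn : N (n : M) = 1) {z : M} (hz : z ^ n = 1)
    (h : N (z - 1) < 1) : z = 1 := by
  by_contra h1
  have hn0 : n ≠ 0 := by
    rintro rfl
    rw [Nat.cast_zero, (hN.zero 0).2 rfl] at hn
    exact zero_ne_one hn
  have hz1 : N z = 1 := hN.root hn0 hz
  have hgeom : ∑ i ∈ Finset.range n, z ^ i = 0 := by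
    have := geom_sum_mul z n
    rw [hz, sub_self] at this
    exact (mul_eq_zero.mp this).resolve_right (sub_ne_zero.mpr h1)
  have key : ∀ m : ℕ, N (∑ i ∈ Finset.range m, z ^ i - (m : M)) < 1 := by
    intro m
    have hsum : ∑ i ∈ Finset.range m, z ^ i - (m : M) = ∑ i ∈ Finset.range m, (z ^ i - 1) := by
      rw [Finset.sum_sub_distrib]
      simp
    rw [hsum]
    have hmem : ∀ i : ℕ, ∃ t : O hN, t ∈ I hN ∧ (t : M) = z ^ i - 1 := by
      intro i
      have h2 : N (z ^ i - 1) < 1 := by
        have := geom_sum_mul z i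
        rw [← this, hN.mul]
        have h3 : ∑ k ∈ Finset.range i, z ^ k ∈ O hN :=
          Subring.sum_mem _ fun k _ => Subring.pow_mem _ (by change N z ≤ 1; rw [hz1]) _
        exact mul_lt_one_of_nonneg_of_lt_one_right h3 (hN.nn _) h
      exact ⟨⟨z ^ i - 1, h2.le⟩, h2, rfl⟩
    choose t ht ht' using hmem
    have h4 : ∑ i ∈ Finset.range m, t i ∈ I hN := Ideal.sum_mem _ fun i _ => ht i
    have h5 : ((∑ i ∈ Finset.range m, t i : O hN) : M) = ∑ i ∈ Finset.range m, (z ^ i - 1) := by
      rw [AddSubmonoidClass.coe_finsetSum]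
      exact Finset.sum_congr rfl fun i _ => ht' i
    rw [← h5]
    exact h4
  have h6 := key n
  rw [hgeom, zero_sub, hN.neg, hn] at h6
  exact lt_irrefl _ h6

end basic

section field

/-- the subfield generated by a root of unity of order `q ^ d - 1` over a field with `q` elements
has degree `d`. -/
theorem natDegree_minpoly {F κ : Type} [Field F] [Field κ] [Algebra F κ] [Finite F] {d : ℕ}
    (hd : 0 < d) {z : κ} (hz : IsPrimitiveRoot z (Nat.card F ^ d - 1)) :
    IsIntegral F z ∧ (minpoly F z).natDegree = d := by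
  classical
  have := Fintype.ofFinite F
  have hq : 1 < Nat.card F := by
    rw [Nat.card_eq_fintype_card]
    exact Fintype.one_lt_card
  have hqd : 1 < Nat.card F ^ d := Nat.one_lt_pow hd.ne' hq
  set n := Nat.card F ^ d - 1 with hn
  have hn0 : n ≠ 0 := by omega
  have : NeZero n := ⟨hn0⟩
  have hint : IsIntegral F z := ⟨X ^ n - 1, by
    have := monic_X_pow_sub_C (1 : F) hn0
    rwa [C_1] at this, by simp [hz.pow_eq_one]⟩
  refine ⟨hint, ?_⟩
  have hfin : FiniteDimensional F (IntermediateField.adjoin F {z}) :=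
    IntermediateField.adjoin.finiteDimensional hint
  have : Finite (IntermediateField.adjoin F {z}) := Module.finite_of_finite F
  have := Fintype.ofFinite (IntermediateField.adjoin F {z})
  set E := IntermediateField.adjoin F {z} with hE
  have hcardE : Fintype.card E = Nat.card F ^ (minpoly F z).natDegree := by
    rw [← IntermediateField.adjoin.finrank hint, ← Nat.card_eq_fintype_card,
      Module.natCard_eq_pow_finrank (K := F) (V := E)]
  have hzE : z ∈ E := IntermediateField.mem_adjoin_simple_self F z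
  -- lower bound
  have hlow : Nat.card F ^ d ≤ Fintype.card E := by
    have hinj : Function.Injective (fun i : Option (Fin n) =>
        (match i with
          | none => (0 : E)
          | some i => (⟨z, hzE⟩ : E) ^ (i : ℕ))) := by
      have hz0 : (⟨z, hzE⟩ : E) ≠ 0 := by
        intro h
        have : z = 0 := congrArg Subtype.val h
        have h2 := hz.pow_eq_one
        rw [this, zero_pow hn0] at h2
        exact zero_ne_one h2
      rintro (_ | i) (_ | j) h
      · rfl
      · exact absurd h.symm (pow_ne_zero _ hz0)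
      · exact absurd h (pow_ne_zero _ hz0)
      · have h2 : z ^ (i : ℕ) = z ^ (j : ℕ) := congrArg Subtype.val h
        have h3 := hz.pow_inj i.2 j.2 h2
        exact congrArg some (Fin.ext h3)
    have := Fintype.card_le_of_injective _ hinj
    rw [Fintype.card_option, Fintype.card_fin] at this
    omega
  -- upper bound
  have hup : Fintype.card E ≤ Nat.card F ^ d := by
    obtain ⟨r, hr⟩ := CharP.exists F
    have : Fact r.Prime := ⟨CharP.char_is_prime F r⟩
    have : CharP κ r := charP_of_injective_algebraMap (algebraMap F κ).injective r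
    obtain ⟨m, hm0, hm⟩ := FiniteField.card F r
    have hcard : Nat.card F = r ^ (m : ℕ) := by rw [Nat.card_eq_fintype_card, hm]
    -- the fixed field of the power of Frobenius
    let φ : κ →+* κ := iterateFrobenius κ r (m * d)
    have hφ : ∀ x, φ x = x ^ (Nat.card F ^ d) := by
      intro x
      change iterateFrobenius κ r (m * d) x = _
      rw [iterateFrobenius_def, hcard, ← pow_mul]
    have hFfix : ∀ x : F, φ (algebraMap F κ x) = algebraMap F κ x := by
      intro x
      rw [hφ, ← map_pow]
      congr 1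
      rw [Nat.card_eq_fintype_card, FiniteField.pow_card_pow]
    let W : IntermediateField F κ :=
      { carrier := {x | φ x = x}
        mul_mem' := fun {a b} ha hb => by
          change φ (a * b) = a * b
          rw [map_mul, show φ a = a from ha, show φ b = b from hb]
        add_mem' := fun {a b} ha hb => by
          change φ (a + b) = a + b
          rw [map_add, show φ a = a from ha, show φ b = b from hb]
        algebraMap_mem' := hFfix
        inv_mem' := fun a ha => by
          change φ a⁻¹ = a⁻¹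
          rw [map_inv₀, show φ a = a from ha] }
    have hEW : E ≤ W := by
      rw [hE, IntermediateField.adjoin_le_iff]
      intro x hx
      rw [Set.mem_singleton_iff] at hx
      rw [hx]
      change φ z = z
      rw [hφ]
      have : Nat.card F ^ d = n + 1 := by omega
      rw [this, pow_succ, hz.pow_eq_one, one_mul]
    have hroots : ∀ x : E, (x : κ) ∈ (X ^ (Nat.card F ^ d) - X : κ[X]).roots.toFinset := by
      intro x
      have h0 : (X ^ (Nat.card F ^ d) - X : κ[X]) ≠ 0 := FiniteField.X_pow_card_sub_X_ne_zero κ hqd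
      rw [Multiset.mem_toFinset, mem_roots h0, IsRoot.def, eval_sub, eval_pow, eval_X, sub_eq_zero]
      have := hEW x.2
      rw [← hφ]
      exact this
    have h1 : Fintype.card E ≤ (X ^ (Nat.card F ^ d) - X : κ[X]).roots.toFinset.card := by
      rw [← Finset.card_univ]
      exact Finset.card_le_card_of_injOn (fun x => (x : κ)) (fun x _ => hroots x)
        (fun x _ y _ h => Subtype.ext h)
    refine h1.trans ((Multiset.toFinset_card_le _).trans ((card_roots' _).trans ?_))
    rw [FiniteField.X_pow_card_sub_X_natDegree_eq κ hqd]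
  have h := le_antisymm hup hlow
  rw [hcardE] at h
  exact Nat.pow_right_injective hq h

end field

section core

variable {k M : Type} [Field k] [Field M] [Algebra k M]

theorem core {Nk : k → ℝ} {N : M → ℝ} (hk : AV k Nk) (hN : AV M N)
    (hext : ∀ x, N (algebraMap k M x) = Nk x) (hinv : ∀ (σ : M ≃ₐ[k] M) x, N (σ x) = N x)
    [FiniteDimensional k M] [IsGalois k M]
    {F : Type} [Field F] [Finite F] (res : O hk →+* F) (hres : Function.Surjective res)
    (hker : ∀ x, res x = 0 ↔ Nk (x : k) < 1)
    {d : ℕ} (hd : 0 < d) {ξ : M} (hξ : IsPrimitiveRoot ξ (Nat.card F ^ d - 1))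
    (hadj : IntermediateField.adjoin k {ξ} = ⊤) :
    finrank k M = d ∧ ∀ x : M, x ≠ 0 → ∃ y : k, y ≠ 0 ∧ N x = Nk y := by
  classical
  obtain ⟨κ, _, red, hredsurj, hred⟩ := exists_residue hN
  let inc : O hk →+* O hN := RingHom.codRestrict ((algebraMap k M).comp (O hk).subtype) (O hN)
    (fun x => by
      change N _ ≤ 1
      rw [RingHom.comp_apply, hext]
      exact x.2)
  have hinc : ∀ x, ((inc x : O hN) : M) = algebraMap k M (x : k) := fun x => rfl
  have hkerle : RingHom.ker res ≤ RingHom.ker (red.comp inc) := by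
    intro x hx
    rw [RingHom.mem_ker] at hx ⊢
    rw [RingHom.comp_apply, hred, hinc, hext]
    exact (hker x).1 hx
  let ι : F →+* κ := RingHom.liftOfSurjective res hres ⟨red.comp inc, hkerle⟩
  have hι : ι.comp res = red.comp inc := RingHom.liftOfSurjective_comp res hres ⟨red.comp inc, hkerle⟩
  let _ : Algebra F κ := ι.toAlgebra
  have hιalg : algebraMap F κ = ι := rfl
  have hq : 1 < Nat.card F := by
    have := Fintype.ofFinite F
    rw [Nat.card_eq_fintype_card]
    exact Fintype.one_lt_card
  have hqd : 1 < Nat.card F ^ d := Nat.one_lt_pow hd.ne' hq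
  set n := Nat.card F ^ d - 1 with hn
  have hn0 : n ≠ 0 := by omega
  have hnF : (n : F) = -1 := by
    have h1 : ((n + 1 : ℕ) : F) = 0 := by
      have h2 : n + 1 = Nat.card F ^ d := by omega
      rw [h2, Nat.cast_pow]
      have h3 : (Nat.card F : F) = 0 := by
        have := Fintype.ofFinite F
        rw [Nat.card_eq_fintype_card]
        exact FiniteField.cast_card_eq_zero F
      rw [h3, zero_pow hd.ne']
    rw [Nat.cast_succ] at h1
    exact eq_neg_of_add_eq_zero_left h1
  have hnk : Nk (n : k) = 1 := by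
    have h1 : ¬ Nk (((n : O hk) : O hk) : k) < 1 := by
      rw [← hker, map_natCast, hnF]
      exact neg_ne_zero.2 one_ne_zero
    have h2 : Nk (((n : O hk) : O hk) : k) ≤ 1 := (n : O hk).2
    have h3 : (((n : O hk) : O hk) : k) = (n : k) := by simp
    rw [h3] at h1 h2
    exact le_antisymm h2 (not_lt.1 h1)
  have hnM : N (n : M) = 1 := by
    rw [← hnk, ← hext, map_natCast]
  have hξ1 : N ξ = 1 := hN.root hn0 hξ.pow_eq_one
  let ξO : O hN := ⟨ξ, hξ1.le⟩
  have hclose : ∀ a b : M, a ^ n = 1 → b ^ n = 1 → N (a - b) < 1 → a = b := by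
    intro a b ha hb hab
    have hb0 : b ≠ 0 := by
      rintro rfl
      rw [zero_pow hn0] at hb
      exact zero_ne_one hb
    have hb1 : N b = 1 := hN.root hn0 hb
    have h1 : (a / b) ^ n = 1 := by rw [div_pow, ha, hb, div_one]
    have h2 : N (a / b - 1) < 1 := by
      have h3 : a / b - 1 = (a - b) * b⁻¹ := by field_simp
      rw [h3, hN.mul, hN.inv b hb0, hb1, inv_one, mul_one]
      exact hab
    have h3 := root_sub_one hN hnM h1 h2
    exact (div_eq_one_iff_eq hb0).1 h3
  have hprim : IsPrimitiveRoot (red ξO) n := by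
    refine ⟨?_, fun l hl => ?_⟩
    · rw [← map_pow]
      have : ξO ^ n = 1 := Subtype.ext hξ.pow_eq_one
      rw [this, map_one]
    · have h1 : red (ξO ^ l - 1) = 0 := by rw [map_sub, map_pow, hl, map_one, sub_self]
      rw [hred] at h1
      have h2 : ξ ^ l = 1 := hclose _ _ (by rw [← pow_mul, mul_comm, pow_mul, hξ.pow_eq_one, one_pow])
        (one_pow _) h1
      exact hξ.dvd_of_pow_eq_one l h2
  obtain ⟨hint, hdeg⟩ := natDegree_minpoly (F := F) hd hprim
  -- evaluation and reduction
  have hev : ∀ (B : (O hk)[X]) (z : O hN),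
      red (B.eval₂ inc z) = aeval (red z) (B.map res) := by
    intro B z
    rw [hom_eval₂, ← hι, ← eval₂_map, aeval_def, hιalg]
  have hev2 : ∀ (B : (O hk)[X]) (z : O hN),
      ((B.eval₂ inc z : O hN) : M) = aeval (z : M) (B.map (O hk).subtype) := by
    intro B z
    have := hom_eval₂ B inc (O hN).subtype z
    rw [aeval_def, eval₂_map]
    exact this
  -- norms of polynomials of small degree
  have hsmall : ∀ A : k[X], A ≠ 0 → A.natDegree < d →
      ∃ j, A.coeff j ≠ 0 ∧ N (aeval ξ A) = Nk (A.coeff j) := by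
    intro A hA hAd
    obtain ⟨j, -, hj⟩ := Finset.exists_max_image (Finset.range (A.natDegree + 1))
      (fun i => Nk (A.coeff i)) ⟨0, by simp⟩
    have hj' : ∀ i, Nk (A.coeff i) ≤ Nk (A.coeff j) := by
      intro i
      by_cases hi : i < A.natDegree + 1
      · exact hj i (Finset.mem_range.mpr hi)
      · rw [coeff_eq_zero_of_natDegree_lt (by omega), (hk.zero 0).2 rfl]
        exact hk.nn _
    have hcj : A.coeff j ≠ 0 := by
      intro h0
      apply hA
      ext i
      have := hj' i
      rw [h0, (hk.zero 0).2 rfl] at this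
      rw [coeff_zero]
      exact (hk.zero _).1 (le_antisymm this (hk.nn _))
    have hcpos : 0 < Nk (A.coeff j) := lt_of_le_of_ne (hk.nn _) fun h => hcj ((hk.zero _).1 h.symm)
    refine ⟨j, hcj, ?_⟩
    have hB : ∀ i, Nk ((C (A.coeff j)⁻¹ * A).coeff i) ≤ 1 := by
      intro i
      rw [coeff_C_mul, hk.mul, hk.inv _ hcj, inv_mul_le_iff₀ hcpos, mul_one]
      exact hj' i
    obtain ⟨B, hB2⟩ : ∃ B : (O hk)[X], B.map (O hk).subtype = C (A.coeff j)⁻¹ * A := by
      refine (Polynomial.mem_lifts _).1 ((Polynomial.lifts_iff_coeff_lifts _).2 fun i => ?_)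
      exact ⟨⟨_, hB i⟩, rfl⟩
    have hle : N (aeval ξ (C (A.coeff j)⁻¹ * A)) ≤ 1 := by
      rw [← hB2, show (ξ : M) = (ξO : M) from rfl, ← hev2]
      exact (B.eval₂ inc ξO).2
    have hge : ¬ N (aeval ξ (C (A.coeff j)⁻¹ * A)) < 1 := by
      intro hlt
      rw [← hB2, show (ξ : M) = (ξO : M) from rfl, ← hev2, ← hred, hev] at hlt
      have hBj : (B.map res).coeff j = 1 := by
        have h1 : ((B.coeff j : O hk) : k) = 1 := by
          have h2 := congrArg (fun P => P.coeff j) hB2
          simp only [coeff_map, coeff_C_mul] at h2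
          rw [inv_mul_cancel₀ hcj] at h2
          exact h2
        have h3 : B.coeff j = 1 := Subtype.ext h1
        rw [coeff_map, h3, map_one]
      have hBne : B.map res ≠ 0 := by
        intro h0
        rw [h0, coeff_zero] at hBj
        exact zero_ne_one hBj
      have h4 := minpoly.degree_le_of_ne_zero F (red ξO) hBne hlt
      have h5 := natDegree_le_natDegree h4
      rw [hdeg] at h5
      have h6 : (B.map res).natDegree ≤ A.natDegree := by
        rw [natDegree_le_iff_coeff_eq_zero]
        intro i hi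
        have h7 : ((B.coeff i : O hk) : k) = 0 := by
          have h2 := congrArg (fun P => P.coeff i) hB2
          simp only [coeff_map, coeff_C_mul] at h2
          rw [coeff_eq_zero_of_natDegree_lt hi, mul_zero] at h2
          exact h2
        have h8 : B.coeff i = 0 := Subtype.ext h7
        rw [coeff_map, h8, map_zero]
      omega
    have h1 : N (aeval ξ (C (A.coeff j)⁻¹ * A)) = 1 := le_antisymm hle (not_lt.1 hge)
    rw [map_mul, aeval_C, hN.mul, hext, hk.inv _ hcj] at h1
    field_simp at h1
    exact h1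
  -- the degree
  have hintk : IsIntegral k ξ := IsIntegral.of_finite k ξ
  have hfr : finrank k M = (minpoly k ξ).natDegree := by
    rw [← IntermediateField.adjoin.finrank hintk, hadj, IntermediateField.finrank_top']
  have hlow : d ≤ (minpoly k ξ).natDegree := by
    by_contra hlt
    obtain ⟨j, hj, h⟩ := hsmall (minpoly k ξ) (minpoly.ne_zero hintk) (not_le.1 hlt)
    rw [minpoly.aeval, (hN.zero 0).2 rfl] at h
    exact hj ((hk.zero _).1 h.symm)
  have hup : finrank k M ≤ d := by
    obtain ⟨G, hG⟩ := Polynomial.map_surjective res hres (minpoly F (red ξO))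
    have hσ1 : ∀ σ : M ≃ₐ[k] M, N (σ ξ) ≤ 1 := fun σ => by rw [hinv, hξ1]
    have hroot : ∀ σ : M ≃ₐ[k] M, aeval (red ⟨σ ξ, hσ1 σ⟩) (minpoly F (red ξO)) = 0 := by
      intro σ
      rw [← hG, ← hev, hred, hev2]
      change N (aeval (σ ξ) _) < 1
      rw [show aeval (σ ξ) (G.map (O hk).subtype) = σ (aeval ξ (G.map (O hk).subtype)) from
        aeval_algHom_apply σ.toAlgHom ξ _, hinv, show (ξ : M) = (ξO : M) from rfl, ← hev2,
        ← hred, hev, hG, minpoly.aeval]
    have hne : minpoly F (red ξO) ≠ 0 := minpoly.ne_zero hint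
    have hinj : Function.Injective (fun σ : M ≃ₐ[k] M => red ⟨σ ξ, hσ1 σ⟩) := by
      intro σ τ h
      have h1 : red (⟨σ ξ, hσ1 σ⟩ - ⟨τ ξ, hσ1 τ⟩) = 0 := by
        rw [map_sub, sub_eq_zero]
        exact h
      rw [hred] at h1
      have h2 : σ ξ = τ ξ := hclose _ _ (by rw [← map_pow, hξ.pow_eq_one, map_one])
        (by rw [← map_pow, hξ.pow_eq_one, map_one]) h1
      have h3 : (σ : M →ₐ[k] M) = τ := by
        have hadj' : Algebra.adjoin k {ξ} = ⊤ :=
          Algebra.adjoin_eq_top_of_intermediateField (by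
            intro x _
            exact Algebra.IsAlgebraic.isAlgebraic x) hadj
        refine AlgHom.ext_of_adjoin_eq_top hadj' ?_
        rintro x rfl
        exact h2
      ext x
      exact DFunLike.congr_fun h3 x
    rw [← IsGalois.card_aut_eq_finrank k M]
    have hmem : ∀ σ : M ≃ₐ[k] M, red ⟨σ ξ, hσ1 σ⟩ ∈
        (((minpoly F (red ξO)).aroots κ).toFinset : Set κ) := by
      intro σ
      rw [Finset.mem_coe, Multiset.mem_toFinset, mem_aroots]
      exact ⟨hne, hroot σ⟩
    have h1 : Nat.card (M ≃ₐ[k] M) ≤ Nat.card (((minpoly F (red ξO)).aroots κ).toFinset : Set κ) :=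
      Nat.card_le_card_of_injective (fun σ => ⟨_, hmem σ⟩) fun σ τ h => hinj (congrArg Subtype.val h)
    refine h1.trans ?_
    rw [Nat.card_coe_set_eq, Set.ncard_coe_finset]
    refine (Multiset.toFinset_card_le _).trans ((card_roots' _).trans ?_)
    rw [natDegree_map, hdeg]
  have hfrd : finrank k M = d := le_antisymm hup (hfr ▸ hlow)
  refine ⟨hfrd, fun x hx => ?_⟩
  obtain ⟨A, hAx⟩ : ∃ A : k[X], aeval ξ A = x := by
    have hx2 : x ∈ (IntermediateField.adjoin k {ξ}).toSubalgebra := by
      rw [hadj]; trivial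
    rw [IntermediateField.adjoin_simple_toSubalgebra_of_isAlgebraic
      (Algebra.IsAlgebraic.isAlgebraic ξ), Algebra.adjoin_singleton_eq_range_aeval] at hx2
    exact hx2
  have hA2 : aeval ξ (A %ₘ minpoly k ξ) = x := by
    have := modByMonic_add_div A (minpoly k ξ)
    have h2 := congrArg (aeval ξ) this
    rw [map_add, map_mul, minpoly.aeval, zero_mul, add_zero] at h2
    rw [h2]; exact hAx
  have hA0 : A %ₘ minpoly k ξ ≠ 0 := by
    intro h0
    rw [h0, map_zero] at hA2
    exact hx hA2.symm
  have hdegA : (A %ₘ minpoly k ξ).natDegree < d := by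
    rw [← hfrd, hfr]
    exact natDegree_modByMonic_lt A (minpoly.monic hintk) (minpoly.ne_one k ξ)
  obtain ⟨j, hj, h⟩ := hsmall _ hA0 hdegA
  rw [hA2] at h
  exact ⟨_, hj, h⟩

end core

section vd

variable {p : ℕ} {k F : Type} [NormedField k] [Field F] (V : VD p k F)
include V

theorem norm_le (x : k) : ‖x‖ ≤ 1 ↔ 0 ≤ V.v x := by
  by_cases hx : x = 0
  · rw [hx, norm_zero, V.v_zero]
    exact ⟨fun _ => le_rfl, fun _ => zero_le_one⟩
  · rw [V.norm_eq x hx, zpow_le_one_iff_right₀ V.one_lt]
    exact ⟨fun h => by linarith, fun h => by linarith⟩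

theorem norm_lt (x : k) (h : 0 ≤ V.v x) : V.res x = 0 ↔ ‖x‖ < 1 := by
  rw [V.res_zero x h]
  by_cases hx : x = 0
  · rw [hx, norm_zero]
    exact ⟨fun _ => zero_lt_one, fun _ => Or.inl rfl⟩
  · rw [V.norm_eq x hx, zpow_lt_one_iff_right₀ V.one_lt]
    constructor
    · rintro (h1 | h1)
      · exact absurd h1 hx
      · linarith
    · intro h1
      right
      have : 0 < V.v x := by linarith
      exact this

theorem av_norm [IsUltrametricDist k] : AV k (fun x => ‖x‖) where
  nn := norm_nonneg
  mul := norm_mul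
  add := IsUltrametricDist.norm_add_le_max
  zero := fun _ => norm_eq_zero
  one := norm_one

/-- the residue map -/
def resHom [IsUltrametricDist k] : O (av_norm V) →+* F where
  toFun x := V.res x
  map_one' := V.res_one
  map_mul' x y := V.res_mul _ _ ((norm_le V _).1 x.2) ((norm_le V _).1 y.2)
  map_zero' := by
    rw [ZeroMemClass.coe_zero, V.res_zero 0 (by rw [V.v_zero])]
    exact Or.inl rfl
  map_add' x y := V.res_add _ _ ((norm_le V _).1 x.2) ((norm_le V _).1 y.2)

end vd

end UrAux

open UrAux in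
theorem stUr : StUr := by
  intro p hp k Fk _ _ _ _ _ V d hd
  have hfinF : Finite Fk := V.finF
  have hp1 : 1 < ‖V.π⁻¹‖ := by
    rw [norm_inv, V.norm_eq _ V.pi_ne, V.v_pi, zpow_neg_one, inv_inv]
    exact V.one_lt
  let NT : NontriviallyNormedField k :=
    { (inferInstance : NormedField k) with non_trivial := ⟨V.π⁻¹, hp1⟩ }
  have hcomp : CompleteSpace k := FiniteDimensional.complete ℚ_[p] k
  have hchar : CharZero k := charZero_of_injective_algebraMap (algebraMap ℚ_[p] k).injective
  have hq : 1 < Nat.card Fk := by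
    have := Fintype.ofFinite Fk
    rw [Nat.card_eq_fintype_card]
    exact Fintype.one_lt_card
  have hqd : 1 < Nat.card Fk ^ d := Nat.one_lt_pow hd.ne' hq
  have hn0 : Nat.card Fk ^ d - 1 ≠ 0 := by omega
  have hne : NeZero (Nat.card Fk ^ d - 1) := ⟨hn0⟩
  have hnek : NeZero (((Nat.card Fk ^ d - 1 : ℕ)) : k) := ⟨Nat.cast_ne_zero.2 hn0⟩
  let M := CyclotomicField (Nat.card Fk ^ d - 1) k
  have hcyc : IsCyclotomicExtension {Nat.card Fk ^ d - 1} k M := inferInstance
  have hfd : FiniteDimensional k M := IsCyclotomicExtension.finiteDimensional {Nat.card Fk ^ d - 1} k M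
  have hgal : IsGalois k M := IsCyclotomicExtension.isGalois {Nat.card Fk ^ d - 1} k M
  have hz := IsCyclotomicExtension.zeta_spec (Nat.card Fk ^ d - 1) k M
  have hadj : IntermediateField.adjoin k {IsCyclotomicExtension.zeta (Nat.card Fk ^ d - 1) k M} = ⊤ :=
    IntermediateField.adjoin_eq_top_of_algebra _ _
      (IsCyclotomicExtension.adjoin_primitive_root_eq_top hz)
  have hN : AV M (fun x => spectralNorm k M x) :=
    { nn := spectralNorm_nonneg
      mul := fun x y => spectralAlgNorm_mul x y
      add := fun x y => isNonarchimedean_spectralNorm x y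
      zero := fun x => ⟨fun h => by
          by_contra hx
          exact absurd h (spectralNorm_zero_lt hx (Algebra.IsAlgebraic.isAlgebraic x)).ne',
        fun h => by rw [h]; exact spectralNorm_zero⟩
      one := spectralNorm_one }
  obtain ⟨h1, h2⟩ := core (av_norm V) hN (fun x => spectralNorm_extends x)
    (fun σ x => (spectralNorm_eq_of_equiv σ x).symm) (resHom V)
    (fun a => by
      obtain ⟨x, hx, hxa⟩ := V.res_surj a
      exact ⟨⟨x, (norm_le V x).2 hx⟩, hxa⟩)
    (fun x => norm_lt V _ ((norm_le V _).1 x.2)) hd hz hadj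
  exact ⟨M, inferInstance, inferInstance, hfd, hgal, _, h1, hz, hadj, h2⟩

end Pool.Agent.Lib.MP_c385f6_ag.Cpl
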