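import Mathlib
import Pool.Agent.Lib.MP_c385f6_ag.Cpl.StLoc

set_option autoImplicit false

/-!
(V) valuation data of a finite extension of `ℚ_[p]` with its norm.
-/

namespace Pool.Agent.Lib.MP_c385f6_ag.Cpl

open Module

namespace Valaux

section
variable {L : Type} [NormedField L]

/-- The value group. -/
theorem exists_val {q : L} (hp : 0 < ‖q‖) (hp1 : ‖q‖ < 1)
    (hmax : ∀ x : L, ‖x‖ < 1 → ‖x‖ ≤ ‖q‖) (x : L) (hx : x ≠ 0) :
    ∃ n : ℤ, ‖x‖ = ‖q‖ ^ n := by
  have hx0 : 0 < ‖x‖ := norm_pos_iff.2 hx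
  obtain ⟨n, hn1, hn2⟩ := exists_mem_Ioc_zpow hx0 (one_lt_inv_iff₀.2 ⟨hp, hp1⟩)
  refine ⟨-(n + 1), ?_⟩
  rw [inv_zpow'] at hn1 hn2
  by_contra hne
  have hlt : ‖x‖ < ‖q‖ ^ (-(n + 1)) := lt_of_le_of_ne hn2 hne
  have hp0 : 0 < ‖q‖ ^ (-(n + 1)) := zpow_pos hp _
  have h1 : ‖x / q ^ (-(n + 1))‖ < 1 := by
    rw [norm_div, norm_zpow, div_lt_one hp0]
    exact hlt
  have h2 := hmax _ h1
  rw [norm_div, norm_zpow, div_le_iff₀ hp0] at h2
  have h3 : ‖q‖ * ‖q‖ ^ (-(n + 1)) = ‖q‖ ^ (-n) := by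
    rw [← zpow_one_add₀ hp.ne']
    congr 1
    ring
  rw [h3] at h2
  linarith

variable [IsUltrametricDist L]

theorem norm_add_le_of {u v : L} {c : ℝ} (hu : ‖u‖ ≤ c) (hv : ‖v‖ ≤ c) : ‖u + v‖ ≤ c :=
  (IsUltrametricDist.norm_add_le_max u v).trans (max_le hu hv)

theorem norm_add_lt_of {u v : L} {c : ℝ} (hu : ‖u‖ < c) (hv : ‖v‖ < c) : ‖u + v‖ < c :=
  lt_of_le_of_lt (IsUltrametricDist.norm_add_le_max u v) (max_lt hu hv)

variable (L) in
/-- The ring of integers. -/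
def OO : Subring L where
  carrier := {x | ‖x‖ ≤ 1}
  mul_mem' := fun {a b} ha hb => by
    change ‖a * b‖ ≤ 1
    rw [norm_mul]
    exact mul_le_one₀ ha (norm_nonneg _) hb
  one_mem' := by simp
  add_mem' := fun {a b} ha hb => norm_add_le_of ha hb
  zero_mem' := by simp
  neg_mem' := fun {a} ha => by
    change ‖-a‖ ≤ 1
    rw [norm_neg]
    exact ha

theorem mem_OO {x : L} : x ∈ OO L ↔ ‖x‖ ≤ 1 := Iff.rfl

variable (L) in
/-- The maximal ideal. -/
def MM : Ideal (OO L) where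
  carrier := {x | ‖(x : L)‖ < 1}
  add_mem' := fun {a b} ha hb => norm_add_lt_of ha hb
  zero_mem' := by simp
  smul_mem' := fun a b hb => by
    change ‖(a : L) * (b : L)‖ < 1
    rw [norm_mul]
    exact mul_lt_one_of_nonneg_of_lt_one_right a.2 (norm_nonneg _) hb

theorem mem_MM {x : OO L} : x ∈ MM L ↔ ‖(x : L)‖ < 1 := Iff.rfl

instance : (MM L).IsMaximal := by
  rw [Ideal.isMaximal_iff]
  refine ⟨?_, ?_⟩
  · intro h
    rw [mem_MM] at h
    simp at h
  · intro J x hJ hx hxJ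
    have h1 : ‖(x : L)‖ = 1 := by
      refine le_antisymm x.2 ?_
      by_contra h
      exact hx (not_le.1 h)
    have h0 : (x : L) ≠ 0 := by
      intro h
      rw [h, norm_zero] at h1
      exact zero_ne_one h1
    have hinv : (x : L)⁻¹ ∈ OO L := by
      rw [mem_OO, norm_inv, h1, inv_one]
    have h2 : (⟨(x : L)⁻¹, hinv⟩ : OO L) * x = 1 := by
      apply Subtype.ext
      change (x : L)⁻¹ * (x : L) = 1
      exact inv_mul_cancel₀ h0
    rw [← h2]
    exact J.mul_mem_left _ hxJ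

open Classical in
/-- The residue map. -/
noncomputable def rs (x : L) : OO L ⧸ MM L :=
  if h : ‖x‖ ≤ 1 then Ideal.Quotient.mk (MM L) ⟨x, h⟩ else 0

theorem rs_of {x : L} (h : ‖x‖ ≤ 1) : rs x = Ideal.Quotient.mk (MM L) ⟨x, h⟩ := dif_pos h

theorem rs_eq_zero {x : L} (h : ‖x‖ ≤ 1) : rs x = 0 ↔ ‖x‖ < 1 := by
  rw [rs_of h, Ideal.Quotient.eq_zero_iff_mem]
  rfl

end

end Valaux

open Valaux in
theorem stVal : StVal := by
  intro p hp L _ _ _ _
  have hprop : ProperSpace L := FiniteDimensional.proper ℚ_[p] L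
  have hcompl : CompleteSpace L := inferInstance
  have hball : IsCompact (Metric.ball (0 : L) 1) :=
    Metric.isCompact_of_isClosed_isBounded (IsUltrametricDist.isClosed_ball 0 1)
      Metric.isBounded_ball
  obtain ⟨q, hq1, hmax⟩ := hball.exists_isMaxOn ⟨0, by simp⟩
    (f := fun x : L => ‖x‖) continuous_norm.continuousOn
  have hq1' : ‖q‖ < 1 := by simpa using hq1
  have hmax' : ∀ x : L, ‖x‖ < 1 → ‖x‖ ≤ ‖q‖ := fun x hx => hmax (by simpa using hx)
  have hpL : ‖(p : L)‖ = (p : ℝ)⁻¹ := by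
    have h : (p : L) = algebraMap ℚ_[p] L (p : ℚ_[p]) := (map_natCast _ p).symm
    rw [h, norm_algebraMap']
    exact Padic.norm_p
  have hp0 : (0 : ℝ) < p := by exact_mod_cast hp.out.pos
  have hp1 : (1 : ℝ) < p := by exact_mod_cast hp.out.one_lt
  have hpL1 : ‖(p : L)‖ < 1 := by
    rw [hpL]
    exact inv_lt_one_of_one_lt₀ hp1
  have hq : 0 < ‖q‖ := by
    have h1 := hmax' (p : L) hpL1
    rw [hpL] at h1
    exact lt_of_lt_of_le (inv_pos.2 hp0) h1
  have hval := exists_val hq hq1' hmax'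
  choose w hw using hval
  classical
  let v : L → ℤ := fun x => if h : x = 0 then 0 else w x h
  have hv : ∀ x, x ≠ 0 → ‖x‖ = ‖q‖ ^ v x := by
    intro x hx
    have : v x = w x hx := dif_neg hx
    rw [this]
    exact hw x hx
  have hv0 : v 0 = 0 := dif_pos rfl
  have hle : ∀ x, 0 ≤ v x ↔ ‖x‖ ≤ 1 := by
    intro x
    by_cases hx : x = 0
    · rw [hx, hv0]
      simp
    · rw [hv x hx]
      constructor
      · intro h
        have h3 := zpow_le_zpow_right_of_le_one₀ hq hq1'.le h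
        rwa [zpow_zero] at h3
      · intro h
        by_contra hc
        exact absurd h (not_le.2 (one_lt_zpow_of_neg₀ hq hq1' (not_le.1 hc)))
  have hlt : ∀ x, x ≠ 0 → (1 ≤ v x ↔ ‖x‖ < 1) := by
    intro x hx
    rw [hv x hx]
    constructor
    · intro h
      exact zpow_lt_one₀ hq hq1' (by omega)
    · intro h
      by_contra hc
      have h2 : 1 ≤ ‖q‖ ^ v x := by
        have h3 := zpow_le_zpow_right_of_le_one₀ hq hq1'.le (show v x ≤ 0 by omega)
        rwa [zpow_zero] at h3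
      linarith
  have hq0 : q ≠ 0 := norm_pos_iff.1 hq
  let _ : Field (OO L ⧸ MM L) := Ideal.Quotient.field (MM L)
  refine ⟨OO L ⧸ MM L, inferInstance, ⟨{
    v := v
    π := q
    res := rs
    c := ‖q‖⁻¹
    one_lt := one_lt_inv_iff₀.2 ⟨hq, hq1'⟩
    v_zero := hv0
    norm_eq := ?_
    pi_ne := hq0
    v_pi := ?_
    res_add := ?_
    res_mul := ?_
    res_one := ?_
    res_surj := ?_
    res_zero := ?_
    finF := ?_
    charF := ?_ }⟩⟩
  · intro x hx
    rw [hv x hx, inv_zpow', neg_neg]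
  · have h1 := hv q hq0
    have h2 : ‖q‖ ^ (1 : ℤ) = ‖q‖ ^ v q := by rw [zpow_one]; exact h1
    exact ((zpow_right_injective₀ hq hq1'.ne) h2).symm
  · intro x y hx hy
    rw [hle] at hx hy
    rw [rs_of hx, rs_of hy, rs_of (norm_add_le_of hx hy), ← map_add]
    rfl
  · intro x y hx hy
    rw [hle] at hx hy
    have hxy : ‖x * y‖ ≤ 1 := by
      rw [norm_mul]
      exact mul_le_one₀ hx (norm_nonneg _) hy
    rw [rs_of hx, rs_of hy, rs_of hxy, ← map_mul]
    rfl
  · have h1 : ‖(1 : L)‖ ≤ 1 := by simp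
    rw [rs_of h1]
    exact map_one (Ideal.Quotient.mk (MM L))
  · intro a
    obtain ⟨x, rfl⟩ := Ideal.Quotient.mk_surjective a
    exact ⟨(x : L), (hle _).2 x.2, rs_of x.2⟩
  · intro x hx
    rw [hle] at hx
    rw [rs_eq_zero hx]
    by_cases h0 : x = 0
    · simp [h0]
    · rw [hlt x h0]
      simp [h0]
  · obtain ⟨t, ht, hcov⟩ := Metric.totallyBounded_iff.1
      (isCompact_closedBall (0 : L) 1).totallyBounded 1 one_pos
    have : Finite t := ht
    refine Finite.of_surjective (fun r : t => (rs (r : L) : OO L ⧸ MM L)) ?_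
    intro a
    obtain ⟨x, rfl⟩ := Ideal.Quotient.mk_surjective a
    have hx' : (x : L) ∈ Metric.closedBall (0 : L) 1 := by
      rw [mem_closedBall_zero_iff]
      exact x.2
    obtain ⟨r, hr, hxr⟩ := Set.mem_iUnion₂.1 (hcov hx')
    have hxr' : ‖(x : L) - r‖ < 1 := by simpa [dist_eq_norm] using hxr
    have hr1 : ‖r‖ ≤ 1 := by
      have h1 : r = (x : L) + (r - x) := by ring
      rw [h1]
      refine norm_add_le_of x.2 ?_
      rw [norm_sub_rev]
      exact hxr'.le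
    refine ⟨⟨r, hr⟩, ?_⟩
    change rs r = _
    rw [rs_of hr1, Ideal.Quotient.eq, mem_MM]
    change ‖r - (x : L)‖ < 1
    rw [norm_sub_rev]
    exact hxr'
  · rw [CharP.charP_iff_prime_eq_zero hp.out]
    have h1 : ((p : OO L) : L) = (p : L) := by simp
    have h2 : (p : OO L) ∈ MM L := by
      rw [mem_MM, h1]
      exact hpL1
    have h3 := (Ideal.Quotient.eq_zero_iff_mem (I := MM L)).2 h2
    rw [← h3]
    simp

end Pool.Agent.Lib.MP_c385f6_ag.Cpl
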